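import Pool.Agent.EVD.Stmts

set_option autoImplicit false

open scoped BigOperators

namespace Pool.Agent.EVD

namespace ARP_

lemma coprime_case (a : ℤ) (p r M : ℕ) (hM : 0 < M) (hc : Nat.Coprime p M)
    (hd : M ∣ r.factorial) :
    (M : ℤ) ∣ ∏ l ∈ Finset.range r, (a + (l : ℤ) * (p : ℤ)) := by
  have : NeZero M := ⟨hM.ne'⟩
  rw [← ZMod.intCast_zmod_eq_zero_iff_dvd]
  let u : (ZMod M)ˣ := ZMod.unitOfCoprime p hc
  have hu : (u : ZMod M) = (p : ZMod M) := ZMod.coe_unitOfCoprime p hc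
  let x : ℕ := ((a : ZMod M) * ((u⁻¹ : (ZMod M)ˣ) : ZMod M)).val
  have hx : (x : ZMod M) = (a : ZMod M) * ((u⁻¹ : (ZMod M)ˣ) : ZMod M) :=
    ZMod.natCast_zmod_val _
  have hxp : (x : ZMod M) * (p : ZMod M) = (a : ZMod M) := by
    rw [hx, ← hu, mul_assoc, Units.inv_mul, mul_one]
  push_cast
  have h1 : ∀ l ∈ Finset.range r, ((a : ZMod M) + (l : ZMod M) * (p : ZMod M))
      = ((x : ZMod M) + (l : ZMod M)) * (p : ZMod M) := by
    intro l _
    rw [add_mul, hxp]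
  rw [Finset.prod_congr rfl h1, Finset.prod_mul_distrib]
  have h2 : ∏ l ∈ Finset.range r, ((x : ZMod M) + (l : ZMod M)) = ((x.ascFactorial r : ℕ) : ZMod M) := by
    rw [Nat.ascFactorial_eq_prod_range]
    push_cast
    rfl
  have h3 : ((x.ascFactorial r : ℕ) : ZMod M) = 0 := by
    rw [ZMod.natCast_eq_zero_iff]
    exact hd.trans (Nat.factorial_dvd_ascFactorial x r)
  rw [h2, h3, zero_mul]

lemma key (a : ℤ) (p r : ℕ) (hp : 1 ≤ p) :
    ((r.factorial : ℕ) : ℤ) ∣ (p : ℤ) ^ r * ∏ l ∈ Finset.range r, (a + (l : ℤ) * (p : ℤ)) := by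
  rw [Int.natCast_dvd, Nat.dvd_iff_prime_pow_dvd_dvd]
  intro q k hq hk
  rw [← Int.natCast_dvd]
  by_cases hqp : q ∣ p
  · have h1 : k ≤ r := by
      have h2 := (hq.pow_dvd_iff_le_factorization (Nat.factorial_ne_zero r)).1 hk
      have h3 := Nat.factorization_factorial_le_div_pred hq r
      have h4 : r / (q - 1) ≤ r := Nat.div_le_self _ _
      omega
    refine Dvd.dvd.mul_right ?_ _
    have h5 : q ^ k ∣ p ^ r := (pow_dvd_pow q h1).trans (pow_dvd_pow_of_dvd hqp r)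
    exact_mod_cast h5
  · refine Dvd.dvd.mul_left ?_ _
    apply coprime_case a p r (q ^ k) (pow_pos hq.pos k) ?_ hk
    exact Nat.Coprime.pow_right k ((Nat.Prime.coprime_iff_not_dvd hq).2 hqp).symm

end ARP_

theorem arp_proof : Stmt_Arp := by
  intro a p r hp
  obtain ⟨c, hc⟩ := ARP_.key a p r hp
  refine ⟨c, ?_⟩
  have hp0 : (p : ℚ) ≠ 0 := by
    have : p ≠ 0 := by omega
    exact_mod_cast this
  have hr0 : ((r.factorial : ℕ) : ℚ) ≠ 0 := by
    exact_mod_cast Nat.factorial_ne_zero r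
  have h1 : (p : ℚ) ^ r * poch ((a : ℚ) / p) r
      = ∏ l ∈ Finset.range r, ((a : ℚ) + (l : ℚ) * (p : ℚ)) := by
    unfold poch
    rw [← Finset.card_range r, ← Finset.prod_const, Finset.card_range, ← Finset.prod_mul_distrib]
    refine Finset.prod_congr rfl ?_
    intro l _
    field_simp
  have h2 : (p : ℚ) ^ r * ∏ l ∈ Finset.range r, ((a : ℚ) + (l : ℚ) * (p : ℚ))
      = (r.factorial : ℚ) * (c : ℚ) := by
    exact_mod_cast hc
  rw [div_eq_iff hr0, two_mul, pow_add, mul_assoc, h1, h2, mul_comm]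

end Pool.Agent.EVD
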