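import Pool.Agent.EVD.Stmts
import Pool.Agent.DGP.Base

set_option autoImplicit false

/-!
# EVD, module BAO: the base system
-/

open Finset

namespace Pool.Agent.EVD

open Pool.Agent.DGP (GSys IsZ hd Conv tens)

namespace BAO_

open Pool.Agent.DGP.Base (isZ_mul isZ_nat isZ_pow PZ pz_mul pz_C pz_X pz_add l1 l1_mul l1_C l1_X
  l1_comp coeff_le_l1 l1_eq pz_comp succ_le_two_pow num_eq rescale_coe hd_rescale coeff_hd)

noncomputable section

/-- The variable `d X`. -/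
def sv (d : ℕ) : Polynomial ℚ := Polynomial.C (d : ℚ) * Polynomial.X

theorem l1_sv (d : ℕ) : l1 (sv d) ≤ (1 : ℚ) * d := by
  unfold sv
  refine (l1_mul _ _).trans ?_
  rw [l1_C, l1_X, mul_one, abs_of_nonneg (by positivity), one_mul]

theorem pz_sv (d : ℕ) : PZ (Polynomial.C ((1 : ℕ) : ℚ) * sv d) := by
  rw [sv, ← mul_assoc, ← Polynomial.C_mul]
  exact pz_mul (pz_C (isZ_mul (isZ_nat _) (isZ_nat _))) pz_X

theorem sv_deg (d : ℕ) : (sv d).natDegree ≤ 1 := by
  unfold sv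
  compute_degree

/-- Bounds for the composition. -/
theorem l1_cs {m k : ℕ} {CS : ℕ} {p : Polynomial ℚ} (hdeg : p.natDegree ≤ m * k)
    (hp : ∀ l, |p.coeff l| ≤ (CS : ℚ) ^ k) (d : ℕ) (hd1 : 1 ≤ d) :
    l1 (p.comp (sv d)) ≤ ((CS : ℚ) * 2 ^ m * d ^ m) ^ k := by
  have hdq : (1 : ℚ) ≤ d := by exact_mod_cast hd1
  have hr : l1 (sv d) ≤ (d : ℚ) := by simpa using l1_sv d
  refine (l1_comp p (sv d) (m * k) hdeg ((CS : ℚ) ^ k) (d : ℚ) hdq hr hp).trans ?_
  have h2 := succ_le_two_pow (m * k)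
  calc (((m * k : ℕ) : ℚ) + 1) * (CS : ℚ) ^ k * (d : ℚ) ^ (m * k)
      ≤ 2 ^ (m * k) * (CS : ℚ) ^ k * (d : ℚ) ^ (m * k) := by
        apply mul_le_mul_of_nonneg_right _ (by positivity)
        exact mul_le_mul_of_nonneg_right h2 (by positivity)
    _ = ((CS : ℚ) * 2 ^ m * d ^ m) ^ k := by
        rw [mul_pow ((CS : ℚ) * 2 ^ m), mul_pow (CS : ℚ), ← pow_mul, ← pow_mul]
        ring

theorem lcm_dvd (C k : ℕ) :
    (Finset.Icc 1 (C * (k + 1))).lcm id ∣ (Finset.Icc 1 (C * (k + 1 + 1))).lcm id := by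
  apply Finset.lcm_dvd
  intro b hb
  apply Finset.dvd_lcm (f := id)
  rw [Finset.mem_Icc] at hb ⊢
  refine ⟨hb.1, hb.2.trans ?_⟩
  exact Nat.mul_le_mul_left C (Nat.le_succ _)

theorem lcm_pos' (n : ℕ) : 1 ≤ (Finset.Icc 1 n).lcm id := by
  rw [Nat.one_le_iff_ne_zero]
  intro h
  rw [Finset.lcm_eq_zero_iff] at h
  obtain ⟨x, hx, hx0⟩ := h
  rw [Finset.mem_Icc] at hx
  simp only [id] at hx0
  omega

/-- The denominators. -/
def qq (C c k : ℕ) : ℕ := (Finset.Icc 1 (C * (k + 1))).lcm id ^ c * C ^ (k + 1)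

theorem qq_pos {C : ℕ} (hC : 1 ≤ C) (c k : ℕ) : 1 ≤ qq C c k :=
  Nat.mul_pos (Nat.pow_pos (lcm_pos' _)) (Nat.pow_pos hC)

theorem qq_dvd (C c k : ℕ) : qq C c k ∣ qq C c (k + 1) :=
  Nat.mul_dvd_mul (pow_dvd_pow_of_dvd (lcm_dvd C k) c) (pow_dvd_pow _ (Nat.le_succ _))

theorem qq_le {CL : ℕ} (hCL : ∀ n : ℕ, (Finset.Icc 1 n).lcm id ≤ CL ^ n) (C c k : ℕ) :
    qq C c k ≤ (CL ^ (C * c) * C) * (CL ^ (C * c) * C) ^ k := by
  rw [← pow_succ', mul_pow]
  refine Nat.mul_le_mul ?_ le_rfl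
  refine (Nat.pow_le_pow_left (hCL _) c).trans (le_of_eq ?_)
  rw [← pow_mul, ← pow_mul]
  congr 1
  ring

variable {ι : Type} [Fintype ι] [DecidableEq ι]

theorem yc_eval {A E : Matrix ι ι ℚ} (hA : A.det ≠ 0) (hH : Stmt_Hdo)
    (k : ℕ) (i j : ι) :
    ((Tp A).eval 0) ^ k * Yc A E k i j = (Bt A E k i j).eval 0 := by
  have h := congrArg (PowerSeries.constantCoeff (R := ℚ)) (hH ι A E hA k i j)
  rw [map_mul, map_pow, map_sum] at h
  have hc : ∀ p : Polynomial ℚ, PowerSeries.constantCoeff (R := ℚ)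
      ((p : Polynomial ℚ) : PowerSeries ℚ) = p.eval 0 := by
    intro p
    rw [Polynomial.constantCoeff_coe, Polynomial.coeff_zero_eq_eval_zero]
  have hy : ∀ l : ι, PowerSeries.constantCoeff (R := ℚ) (Ys A E (l, j))
      = (1 : Matrix ι ι ℚ) l j := by
    intro l
    rw [← PowerSeries.coeff_zero_eq_constantCoeff_apply, Ys, PowerSeries.coeff_mk, Yc]
  have hh : PowerSeries.constantCoeff (R := ℚ) (hd k (Ys A E (i, j))) = Yc A E k i j := by
    rw [← PowerSeries.coeff_zero_eq_constantCoeff_apply, coeff_hd, Ys, PowerSeries.coeff_mk,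
      zero_add, Nat.choose_self]
    simp
  rw [hc, hh] at h
  rw [h]
  rw [Finset.sum_eq_single j]
  · rw [map_mul, hc, hy, Matrix.one_apply_eq, mul_one]
  · intro l _ hl
    rw [map_mul, hy, Matrix.one_apply_ne hl, mul_zero]
  · intro hj
    exact absurd (Finset.mem_univ j) hj

/-- The matrices of the rescaled system. -/
def Bm (A E : Matrix ι ι ℚ) (d : ℕ) (k : ℕ) (p p' : ι × ι) : Polynomial ℚ :=
  if p.2 = p'.2 then Polynomial.C (((kap A : ℚ) * d) ^ k) * (Bt A E k p.1 p'.1).comp (sv d)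
  else 0

theorem sys_eq {A E : Matrix ι ι ℚ} (hA : A.det ≠ 0) (hH : Stmt_Hdo)
    (d : ℕ) (k : ℕ) (p : ι × ι) :
    ((Td A d : Polynomial ℚ) : PowerSeries ℚ) ^ k *
        hd k (PowerSeries.rescale (d : ℚ) (Ys A E p))
      = ∑ p' : ι × ι, ((Bm A E d k p p' : Polynomial ℚ) : PowerSeries ℚ) *
          PowerSeries.rescale (d : ℚ) (Ys A E p') := by
  obtain ⟨i, j⟩ := p
  have h := congrArg (PowerSeries.rescale (d : ℚ)) (hH ι A E hA k i j)
  rw [map_mul, map_pow, map_sum, rescale_coe] at h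
  have e1 : ((Td A d : Polynomial ℚ) : PowerSeries ℚ)
      = PowerSeries.C (kap A : ℚ) * (((Tp A).comp (Polynomial.C (d : ℚ) * Polynomial.X) :
        Polynomial ℚ) : PowerSeries ℚ) := by
    rw [Td, Polynomial.coe_mul, Polynomial.coe_C]
  rw [hd_rescale, e1, mul_pow]
  have e2 : (PowerSeries.C (kap A : ℚ)) ^ k *
        (((Tp A).comp (Polynomial.C (d : ℚ) * Polynomial.X) : Polynomial ℚ) : PowerSeries ℚ) ^ k *
        (PowerSeries.C ((d : ℚ) ^ k) * PowerSeries.rescale (d : ℚ) (hd k (Ys A E (i, j))))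
      = PowerSeries.C (((kap A : ℚ) * d) ^ k) *
        ((((Tp A).comp (Polynomial.C (d : ℚ) * Polynomial.X) : Polynomial ℚ) :
            PowerSeries ℚ) ^ k *
          PowerSeries.rescale (d : ℚ) (hd k (Ys A E (i, j)))) := by
    rw [mul_pow, map_mul, map_pow, map_pow]
    ring
  rw [e2, h, Fintype.sum_prod_type, Finset.mul_sum]
  apply Finset.sum_congr rfl
  intro l _
  rw [Finset.sum_eq_single j]
  · rw [map_mul, rescale_coe, Bm, if_pos rfl, Polynomial.coe_mul, Polynomial.coe_C, sv]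
    ring
  · intro j' _ hj'
    rw [Bm, if_neg (fun h0 => hj' h0.symm), Polynomial.coe_zero, zero_mul]
  · intro hj
    exact absurd (Finset.mem_univ j) hj

theorem core {A E : Matrix ι ι ℚ} (hA : A.det ≠ 0) (hH : Stmt_Hdo)
    (ht0 : (Tp A).eval 0 ≠ 0)
    (hTd : (Tp A).natDegree = Fintype.card ι) (hk1 : 1 ≤ kap A)
    (hkz : ∀ l, IsZ ((kap A : ℚ) * (Tp A).coeff l))
    (C c : ℕ) (hC : 1 ≤ C)
    (hBD : ∀ (k : ℕ) (i j : ι) (l : ℕ), IsZ (((qq C c k : ℕ) : ℚ) * (Bt A E k i j).coeff l))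
    (CS : ℕ) (hBd : ∀ k i j, (Bt A E k i j).natDegree ≤ Fintype.card ι * k)
    (hBc : ∀ k i j l, |(Bt A E k i j).coeff l| ≤ (CS : ℚ) ^ k)
    (CL : ℕ) (hCL : ∀ n : ℕ, (Finset.Icc 1 n).lcm id ≤ CL ^ n) :
    ∃ C' : ℕ, ∀ d : ℕ, 1 ≤ d → ∃ (e₀ : ℕ) (c₀ : ℝ),
      GSys (fun p : ι × ι => PowerSeries.rescale (d : ℚ) (Ys A E p))
        (Td A d) (Fintype.card ι) e₀ c₀ (C' * d ^ (Fintype.card ι + 1)) := by
  obtain ⟨m, hm⟩ : ∃ m : ℕ, m = Fintype.card ι := ⟨_, rfl⟩
  rw [← hm] at hTd hBd ⊢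
  obtain ⟨τ, hτ⟩ := exists_nat_ge (l1 (Tp A))
  obtain ⟨ν, hν⟩ := exists_nat_ge (1 / |(Tp A).eval 0|)
  obtain ⟨t, ht⟩ : ∃ t : ℚ, t = (Tp A).eval 0 := ⟨_, rfl⟩
  rw [← ht] at hν
  have hs0 : t ≠ 0 := by rw [ht]; exact ht0
  obtain ⟨N, hN⟩ : ∃ N : ℕ, N = t.num.natAbs := ⟨_, rfl⟩
  have hN1 : 1 ≤ N := by
    rw [hN]
    have : t.num ≠ 0 := Rat.num_ne_zero.2 hs0
    omega
  have hN2 : (N : ℚ) = |(t.num : ℚ)| := by
    rw [hN, Nat.cast_natAbs, Int.cast_abs]
  have hNe : ∃ e : ℤ, (N : ℚ) = e * t := by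
    have h2 := num_eq t
    rcases abs_choice (t.num : ℚ) with h | h
    · refine ⟨t.den, ?_⟩
      rw [hN2, h, h2]
      push_cast
      rfl
    · refine ⟨-t.den, ?_⟩
      rw [hN2, h, h2]
      push_cast
      ring
  obtain ⟨e, he⟩ := hNe
  obtain ⟨A0, hA0⟩ : ∃ A : ℕ, A = CL ^ (C * c) * C := ⟨_, rfl⟩
  obtain ⟨A1, hA1⟩ : ∃ A' : ℕ, A' = kap A * ((m + 1) * τ) := ⟨_, rfl⟩
  obtain ⟨A2, hA2⟩ : ∃ A' : ℕ, A' = kap A * (CS * 2 ^ m) := ⟨_, rfl⟩
  obtain ⟨A4, hA4⟩ : ∃ A : ℕ, A = CS * 2 ^ m * ν := ⟨_, rfl⟩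
  obtain ⟨A5, hA5⟩ : ∃ A : ℕ, A = A0 * N := ⟨_, rfl⟩
  refine ⟨2 + A0 + A1 + A2 + A4 + A5, fun d hd1 => ⟨0, 1 + A0, ?_⟩⟩
  have hdq : (1 : ℚ) ≤ d := by exact_mod_cast hd1
  obtain ⟨Hq, hHq⟩ : ∃ H : ℚ, H = ((2 + A0 + A1 + A2 + A4 + A5 : ℕ) : ℚ) * (d : ℚ) ^ (m + 1) :=
    ⟨_, rfl⟩
  have hH0 : (((2 + A0 + A1 + A2 + A4 + A5 : ℕ) : ℝ) * (d : ℝ) ^ (m + 1)) = ((Hq : ℚ) : ℝ) := by
    rw [hHq]
    push_cast
    ring
  rw [hH0]
  have hle : ∀ (A' : ℕ) (a : ℕ), A' ≤ 2 + A0 + A1 + A2 + A4 + A5 → a ≤ m + 1 →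
      (A' : ℚ) * (d : ℚ) ^ a ≤ Hq := by
    intro A' a hA ha
    rw [hHq]
    apply mul_le_mul _ _ (by positivity) (by positivity)
    · exact_mod_cast hA
    · exact pow_le_pow_right₀ hdq ha
  have hHq2 : 2 ≤ Hq := by
    have := hle 2 0 (by omega) (by omega)
    simpa using this
  have hHq0 : 0 ≤ Hq := by linarith
  have hBl : ∀ k i j, l1 ((Bt A E k i j).comp (sv d)) ≤
      ((CS : ℚ) * 2 ^ m * d ^ m) ^ k := fun k i j =>
    l1_cs (hBd k i j) (hBc k i j) d hd1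
  have hBe : ∀ k i j, |(Bt A E k i j).eval 0| ≤ ((CS : ℚ) * 2 ^ m) ^ k := by
    intro k i j
    have h1 := hBc k i j 0
    rw [Polynomial.coeff_zero_eq_eval_zero] at h1
    refine h1.trans (pow_le_pow_left₀ (by positivity) ?_ k)
    have : (1 : ℚ) ≤ 2 ^ m := one_le_pow₀ (by norm_num)
    nlinarith [(Nat.cast_nonneg CS : (0 : ℚ) ≤ CS)]
  have hY : ∀ k i j, |Yc A E k i j| ≤ ((A4 : ℕ) : ℚ) ^ k := by
    intro k i j
    have h1 := yc_eval (E := E) hA hH k i j
    have ht0 : 0 < |t| ^ k := pow_pos (abs_pos.2 hs0) k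
    have h2 : |Yc A E k i j| = |(Bt A E k i j).eval 0| * (1 / |t|) ^ k := by
      rw [← h1, abs_mul, abs_pow, ← ht]
      rw [one_div, inv_pow]
      field_simp
    rw [h2]
    calc |(Bt A E k i j).eval 0| * (1 / |t|) ^ k
        ≤ ((CS : ℚ) * 2 ^ m) ^ k * (ν : ℚ) ^ k := by
          apply mul_le_mul (hBe k i j) _ (by positivity) (by positivity)
          exact pow_le_pow_left₀ (by positivity) hν k
      _ = ((A4 : ℕ) : ℚ) ^ k := by
          rw [hA4]
          push_cast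
          ring
  have hZe : ∀ k i j, IsZ (((qq C c k : ℕ) : ℚ) * (Bt A E k i j).eval 0) := by
    intro k i j
    have := hBD k i j 0
    rwa [Polynomial.coeff_zero_eq_eval_zero] at this
  have hTdd : (Td A d).natDegree ≤ m := by
    rw [Td]
    refine (Polynomial.natDegree_C_mul_le _ _).trans ?_
    refine Polynomial.natDegree_comp_le.trans ?_
    rw [hTd]
    have h1 : (Polynomial.C (d : ℚ) * Polynomial.X : Polynomial ℚ).natDegree ≤ 1 := sv_deg d
    calc m * (Polynomial.C (d : ℚ) * Polynomial.X : Polynomial ℚ).natDegree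
        ≤ m * 1 := Nat.mul_le_mul_left m h1
      _ = m := mul_one m
  have hqq : ∀ k, ((qq C c k : ℕ) : ℚ) ≤ (A0 : ℚ) * (A0 : ℚ) ^ k := by
    intro k
    rw [hA0]
    exact_mod_cast qq_le hCL C c k
  have hA0q : (0 : ℚ) ≤ A0 := Nat.cast_nonneg _
  refine ⟨?_, ?_, ?_, ?_, ?_, ?_, ?_, ?_, ?_⟩
  · have : (0 : ℝ) ≤ A0 := Nat.cast_nonneg _
    linarith
  · exact_mod_cast hHq2
  · -- integrality of T
    intro i
    have e1 : (Td A d).coeff i = (d : ℚ) ^ i * ((kap A : ℚ) * (Tp A).coeff i) := by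
      rw [Td, Polynomial.coeff_C_mul, Polynomial.comp_C_mul_X_coeff]
      ring
    rw [e1]
    exact isZ_mul (isZ_pow (isZ_nat _) _) (hkz i)
  · -- T(0)
    have e1 : (Td A d).coeff 0 = (kap A : ℚ) * t := by
      rw [Td, Polynomial.coeff_C_mul, Polynomial.coeff_zero_eq_eval_zero, Polynomial.eval_comp]
      simp [ht]
    rw [e1]
    have : (kap A : ℚ) ≠ 0 := by exact_mod_cast (by omega : kap A ≠ 0)
    exact mul_ne_zero this hs0
  · exact hTdd
  · -- size of T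
    have e1 : ∑ i ∈ range (m + 1), |(Td A d).coeff i| ≤ Hq := by
      rw [← l1_eq (Td A d) (range (m + 1))]
      · have e2 : Td A d = Polynomial.C (kap A : ℚ) * (Tp A).comp (sv d) := rfl
        rw [e2]
        refine (l1_mul _ _).trans ?_
        rw [l1_C, abs_of_nonneg (by positivity)]
        have h3 := l1_comp (Tp A) (sv d) m hTd.le (τ : ℚ) (d : ℚ) hdq
          (by simpa using l1_sv d) (fun l => (coeff_le_l1 _ l).trans hτ)
        calc (kap A : ℚ) * l1 ((Tp A).comp (sv d))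
            ≤ (kap A : ℚ) * (((m : ℚ) + 1) * τ * (d : ℚ) ^ m) :=
              mul_le_mul_of_nonneg_left h3 (by positivity)
          _ = (A1 : ℚ) * (d : ℚ) ^ m := by
              rw [hA1]
              push_cast
              ring
          _ ≤ Hq := hle A1 m (by omega) (by omega)
      · intro i hi
        rw [Finset.mem_range]
        have h4 := Polynomial.le_natDegree_of_mem_supp i hi
        exact Nat.lt_succ_of_le (h4.trans hTdd)
    exact_mod_cast e1
  · -- the system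
    refine ⟨Bm A E d, qq C c, fun k p => sys_eq hA hH d k p, ?_, ?_, ?_, ?_⟩
    · intro k p p'
      rw [Bm]
      split_ifs with h
      · refine (Polynomial.natDegree_C_mul_le _ _).trans ?_
        refine Polynomial.natDegree_comp_le.trans ?_
        calc (Bt A E k p.1 p'.1).natDegree * (sv d).natDegree
            ≤ (m * k) * 1 := Nat.mul_le_mul (hBd _ _ _) (sv_deg d)
          _ = m * k + 0 := by ring
      · simp
    · intro k p p' l
      have e1 : |(Bm A E d k p p').coeff l| ≤ (1 + (A0 : ℚ)) * Hq ^ k := by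
        have e0 : |(Bm A E d k p p').coeff l| ≤ Hq ^ k := by
          rw [Bm]
          split_ifs with h
          · rw [Polynomial.coeff_C_mul, abs_mul, abs_of_nonneg (by positivity)]
            calc ((kap A : ℚ) * d) ^ k * |((Bt A E k p.1 p'.1).comp (sv d)).coeff l|
                ≤ ((kap A : ℚ) * d) ^ k * ((CS : ℚ) * 2 ^ m * d ^ m) ^ k := by
                  apply mul_le_mul_of_nonneg_left _ (by positivity)
                  exact (coeff_le_l1 _ _).trans (hBl _ _ _)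
              _ = ((A2 : ℚ) * (d : ℚ) ^ (m + 1)) ^ k := by
                  rw [← mul_pow, hA2]
                  push_cast
                  congr 1
                  ring
              _ ≤ Hq ^ k := by
                  apply pow_le_pow_left₀ (by positivity)
                  exact hle A2 (m + 1) (by omega) le_rfl
          · rw [Polynomial.coeff_zero, abs_zero]
            positivity
        have h0 : 0 ≤ Hq ^ k := by positivity
        nlinarith
      exact_mod_cast e1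
    · intro k
      refine ⟨qq_pos hC c k, qq_dvd C c k, ?_⟩
      have e1 : ((qq C c k : ℕ) : ℚ) ≤ (1 + (A0 : ℚ)) * Hq ^ k := by
        refine (hqq k).trans ?_
        apply mul_le_mul (by linarith) _ (by positivity) (by positivity)
        apply pow_le_pow_left₀ (by positivity)
        simpa using hle A0 0 (by omega) (by omega)
      exact_mod_cast e1
    · intro k p p' l
      rw [Bm]
      split_ifs with h
      · have hz := pz_comp (Bt A E k p.1 p'.1) (sv d) (m * k) (hBd _ _ _)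
          (qq C c k) 1 (pz_sv d) (fun l => hBD k p.1 p'.1 l) l
        rw [Polynomial.coeff_C_mul] at hz ⊢
        have e1 : ((qq C c k : ℕ) : ℚ) *
            (((kap A : ℚ) * d) ^ k * ((Bt A E k p.1 p'.1).comp (sv d)).coeff l)
            = ((kap A : ℚ) * d) ^ k *
              ((((1 : ℕ) : ℚ) ^ (m * k) * ((qq C c k : ℕ) : ℚ)) *
                ((Bt A E k p.1 p'.1).comp (sv d)).coeff l) := by
          push_cast
          rw [one_pow]
          ring
        rw [e1]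
        exact isZ_mul (isZ_pow (isZ_mul (isZ_nat _) (isZ_nat _)) _) hz
      · rw [Polynomial.coeff_zero, mul_zero]
        exact ⟨0, by simp⟩
  · -- size of the coefficients
    intro p j
    have e1 : |PowerSeries.coeff j (PowerSeries.rescale (d : ℚ) (Ys A E p))| ≤
        (1 + (A0 : ℚ)) * Hq ^ j := by
      have e0 : |PowerSeries.coeff j (PowerSeries.rescale (d : ℚ) (Ys A E p))| ≤ Hq ^ j := by
        rw [PowerSeries.coeff_rescale, Ys, PowerSeries.coeff_mk, abs_mul,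
          abs_of_nonneg (by positivity)]
        calc (d : ℚ) ^ j * |Yc A E j p.1 p.2| ≤ (d : ℚ) ^ j * (A4 : ℚ) ^ j :=
              mul_le_mul_of_nonneg_left (hY _ _ _) (by positivity)
          _ = ((A4 : ℚ) * (d : ℚ) ^ 1) ^ j := by
              rw [← mul_pow]
              congr 1
              ring
          _ ≤ Hq ^ j := by
              apply pow_le_pow_left₀ (by positivity)
              exact hle A4 1 (by omega) (by omega)
      have h0 : 0 ≤ Hq ^ j := by positivity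
      nlinarith
    exact_mod_cast e1
  · -- denominators
    refine ⟨fun j => qq C c j * N ^ j, fun j => ⟨?_, ?_, ?_⟩, ?_⟩
    · exact Nat.mul_pos (qq_pos hC c j) (Nat.pow_pos hN1)
    · exact Nat.mul_dvd_mul (qq_dvd C c j) (pow_dvd_pow _ (Nat.le_succ j))
    · have e1 : ((qq C c j * N ^ j : ℕ) : ℚ) ≤ (1 + (A0 : ℚ)) * Hq ^ j := by
        push_cast
        calc ((qq C c j : ℕ) : ℚ) * (N : ℚ) ^ j
            ≤ ((A0 : ℚ) * (A0 : ℚ) ^ j) * (N : ℚ) ^ j :=
              mul_le_mul_of_nonneg_right (hqq j) (by positivity)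
          _ = (A0 : ℚ) * (A5 : ℚ) ^ j := by
              rw [hA5]
              push_cast
              rw [mul_pow]
              ring
          _ ≤ (1 + (A0 : ℚ)) * Hq ^ j := by
              apply mul_le_mul (by linarith) _ (by positivity) (by positivity)
              apply pow_le_pow_left₀ (by positivity)
              simpa using hle A5 0 (by omega) (by omega)
      exact_mod_cast e1
    · intro p j
      rw [PowerSeries.coeff_rescale, Ys, PowerSeries.coeff_mk]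
      have e1 : ((qq C c j * N ^ j : ℕ) : ℚ) * ((d : ℚ) ^ j * Yc A E j p.1 p.2)
          = (d : ℚ) ^ j * (e : ℚ) ^ j * (((qq C c j : ℕ) : ℚ) * (Bt A E j p.1 p.2).eval 0) := by
        rw [← yc_eval hA hH j p.1 p.2, ← ht]
        push_cast
        rw [he, mul_pow (e : ℚ)]
        ring
      rw [e1]
      exact isZ_mul (isZ_mul (isZ_pow (isZ_nat _) _) (isZ_pow ⟨e, rfl⟩ _)) (hZe _ _ _)

end

end BAO_

open BAO_ in
theorem bao_proof (hBS : Stmt_Bso) (hH : Stmt_Hdo) (hT : Stmt_Tfo)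
    (hL : Pool.Agent.DGP.Stmt_Lcm) : Stmt_Bao := by
  intro ι _ _ A E hA hG
  obtain ⟨C, c, hC, hBD⟩ := hG
  obtain ⟨CS, hBS⟩ := hBS ι A E
  obtain ⟨-, hTd, hTe, hk1, hkz⟩ := hT ι A
  obtain ⟨CL, hCL⟩ := hL
  have h0 : (Tp A).eval 0 ≠ 0 := by
    rw [hTe 0, zero_smul, zero_add]
    exact hA
  refine core hA hH h0 hTd hk1 hkz C c hC (fun k i j l => ?_) CS (fun k i j => (hBS k i j).1)
    (fun k i j l => (hBS k i j).2 l) CL hCL
  have := hBD k i j l
  rw [qq]
  push_cast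
  exact this

end Pool.Agent.EVD
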