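import Pool.Agent.EVD.Stmts

set_option autoImplicit false

/-!
# EVD, module BKH
-/

open scoped BigOperators

namespace Pool.Agent.EVD

namespace BKH_

noncomputable section

/-- The factor `c_k(m)`. -/
def ck (β : ℚ) (k m : ℕ) : ℚ :=
  (∏ l ∈ Finset.range k, (-(m : ℚ) - β - l)) / (k.factorial : ℚ)

theorem ck_succ (β : ℚ) (k m : ℕ) :
    ((k : ℚ) + 1) * ck β (k + 1) m = (-(m : ℚ) - β - k) * ck β k m := by
  unfold ck
  rw [Finset.prod_range_succ, Nat.factorial_succ]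
  have h1 : (k.factorial : ℚ) ≠ 0 := by exact_mod_cast k.factorial_ne_zero
  have h2 : ((k : ℚ) + 1) ≠ 0 := by positivity
  push_cast
  field_simp

theorem ck_shift (β : ℚ) (k m : ℕ) :
    ((k : ℚ) + 1) * ck β (k + 1) m = (-(m : ℚ) - β) * ck β k (m + 1) := by
  unfold ck
  rw [Finset.prod_range_succ', Nat.factorial_succ]
  have h1 : (k.factorial : ℚ) ≠ 0 := by exact_mod_cast k.factorial_ne_zero
  have h2 : ((k : ℚ) + 1) ≠ 0 := by positivity
  have h3 : ∏ l ∈ Finset.range k, (-(m : ℚ) - β - ((l + 1 : ℕ) : ℚ)) =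
      ∏ l ∈ Finset.range k, (-((m + 1 : ℕ) : ℚ) - β - (l : ℚ)) := by
    refine Finset.prod_congr rfl (fun l _ => ?_)
    push_cast
    ring
  rw [h3]
  push_cast
  field_simp
  ring

variable {ι : Type} [Fintype ι] [DecidableEq ι]

/-- The matrices `Chat_k`. -/
def Ch (κ : ℕ) (b : ι → ℚ) (Em : ℕ → Matrix ι ι ℚ) (k : ℕ) : Matrix ι ι (PowerSeries ℚ) :=
  Matrix.of fun i j => PowerSeries.mk (fun m => Zo κ b Em m i j * ck ((κ : ℚ) - b j) k m)

/-- Polynomials as power series. -/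
abbrev φ : Polynomial ℚ →+* PowerSeries ℚ := Polynomial.coeToPowerSeries.ringHom

/-- `1 + u A`. -/
abbrev SA (A : Matrix ι ι ℚ) : Matrix ι ι (Polynomial ℚ) :=
  (1 : Matrix ι ι (Polynomial ℚ)) + (Polynomial.X : Polynomial ℚ) • A.map Polynomial.C

theorem φC (a : ℚ) : φ (Polynomial.C a) = PowerSeries.C a := by
  simp [Polynomial.coeToPowerSeries.ringHom_apply, Polynomial.coe_C]

theorem φX : φ (Polynomial.X : Polynomial ℚ) = PowerSeries.X := by
  simp [Polynomial.coeToPowerSeries.ringHom_apply, Polynomial.coe_X]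

omit [Fintype ι] in
theorem SAmap (A : Matrix ι ι ℚ) (i j : ι) :
    (SA A).map φ i j = (1 : Matrix ι ι (PowerSeries ℚ)) i j +
      PowerSeries.X * PowerSeries.C (A i j) := by
  simp only [Matrix.map_apply, Matrix.add_apply, Matrix.smul_apply, smul_eq_mul, map_add, map_mul,
    φX, φC, Matrix.one_apply]
  split_ifs <;> simp

theorem rec_ (hZ : Stmt_Zrc) (κ : ℕ) (A B : Matrix ι ι ℚ)
    (b : ι → ℚ) (Em : ℕ → Matrix ι ι ℚ) (hF : Fsol A B b Em) (k : ℕ) :
    (PowerSeries.C ((k : ℚ) + 1)) • ((SA A).map φ * Ch κ b Em (k + 1)) =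
      ((Eo κ B - (k : ℚ) • (1 : Matrix ι ι ℚ)).map Polynomial.C).map φ * Ch κ b Em k := by
  obtain ⟨h0, h1⟩ := hZ ι κ A B b Em hF
  have e0 : ∀ i j, (Eo κ B * Zo κ b Em 0) i j = -(Zo κ b Em 0 i j * ((κ : ℚ) - b j)) := by
    intro i j
    rw [h0]
    simp [Matrix.mul_diagonal]
  have e1 : ∀ m i j, (Eo κ B * Zo κ b Em (m + 1)) i j =
      -(Zo κ b Em (m + 1) i j * (((m : ℚ) + 1) + ((κ : ℚ) - b j))) -
      (A * Zo κ b Em m) i j * ((m : ℚ) + ((κ : ℚ) - b j)) := by
    intro m i j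
    rw [h1]
    simp [Matrix.mul_diagonal]
  ext i j m
  have hL : PowerSeries.coeff m (((PowerSeries.C ((k : ℚ) + 1)) •
      ((SA A).map φ * Ch κ b Em (k + 1))) i j) = ((k : ℚ) + 1) * (Zo κ b Em m i j *
        ck ((κ : ℚ) - b j) (k + 1) m + PowerSeries.coeff m (PowerSeries.X *
          ∑ l, PowerSeries.C (A i l) * Ch κ b Em (k + 1) l j)) := by
    rw [Matrix.smul_apply, smul_eq_mul, PowerSeries.coeff_C_mul, Matrix.mul_apply]
    congr 1
    have : ∀ l, (SA A).map φ i l * Ch κ b Em (k + 1) l j =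
        (1 : Matrix ι ι (PowerSeries ℚ)) i l * Ch κ b Em (k + 1) l j +
        PowerSeries.X * (PowerSeries.C (A i l) * Ch κ b Em (k + 1) l j) := by
      intro l
      rw [SAmap]
      ring
    rw [Finset.sum_congr rfl (fun l _ => this l), Finset.sum_add_distrib, ← Finset.mul_sum,
      ← Matrix.mul_apply, Matrix.one_mul, map_add]
    simp [Ch]
  have hR : PowerSeries.coeff m ((((Eo κ B - (k : ℚ) • (1 : Matrix ι ι ℚ)).map
      Polynomial.C).map φ * Ch κ b Em k) i j) =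
      ((Eo κ B * Zo κ b Em m) i j - k * Zo κ b Em m i j) * ck ((κ : ℚ) - b j) k m := by
    rw [Matrix.mul_apply, map_sum]
    have : ∀ l, PowerSeries.coeff m (((Eo κ B - (k : ℚ) • (1 : Matrix ι ι ℚ)).map
        Polynomial.C).map φ i l * Ch κ b Em k l j) =
        (Eo κ B - (k : ℚ) • (1 : Matrix ι ι ℚ)) i l * Zo κ b Em m l j *
          ck ((κ : ℚ) - b j) k m := by
      intro l
      rw [Matrix.map_apply, Matrix.map_apply, φC, PowerSeries.coeff_C_mul]
      simp only [Ch, Matrix.of_apply, PowerSeries.coeff_mk]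
      ring
    rw [Finset.sum_congr rfl (fun l _ => this l), ← Finset.sum_mul, ← Matrix.mul_apply,
      Matrix.sub_mul, Matrix.smul_mul, Matrix.one_mul, Matrix.sub_apply, Matrix.smul_apply,
      smul_eq_mul]
  rw [hL, hR]
  cases m with
  | zero =>
    rw [PowerSeries.coeff_zero_X_mul, add_zero, e0]
    have := ck_succ ((κ : ℚ) - b j) k 0
    calc ((k : ℚ) + 1) * (Zo κ b Em 0 i j * ck ((κ : ℚ) - b j) (k + 1) 0)
        = Zo κ b Em 0 i j * (((k : ℚ) + 1) * ck ((κ : ℚ) - b j) (k + 1) 0) := by ring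
      _ = _ := by rw [this]; push_cast; ring
  | succ m =>
    rw [PowerSeries.coeff_succ_X_mul, map_sum]
    have : ∀ l, PowerSeries.coeff m (PowerSeries.C (A i l) * Ch κ b Em (k + 1) l j) =
        A i l * Zo κ b Em m l j * ck ((κ : ℚ) - b j) (k + 1) m := by
      intro l
      rw [PowerSeries.coeff_C_mul]
      simp only [Ch, Matrix.of_apply, PowerSeries.coeff_mk]
      ring
    rw [Finset.sum_congr rfl (fun l _ => this l), ← Finset.sum_mul, ← Matrix.mul_apply, e1]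
    have h2 := ck_succ ((κ : ℚ) - b j) k (m + 1)
    have h3 := ck_shift ((κ : ℚ) - b j) k m
    calc ((k : ℚ) + 1) * (Zo κ b Em (m + 1) i j * ck ((κ : ℚ) - b j) (k + 1) (m + 1) +
          (A * Zo κ b Em m) i j * ck ((κ : ℚ) - b j) (k + 1) m)
        = Zo κ b Em (m + 1) i j * (((k : ℚ) + 1) * ck ((κ : ℚ) - b j) (k + 1) (m + 1)) +
          (A * Zo κ b Em m) i j * (((k : ℚ) + 1) * ck ((κ : ℚ) - b j) (k + 1) m) := by ring
      _ = _ := by rw [h2, h3]; push_cast; ring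

theorem main (hZ : Stmt_Zrc) (κ : ℕ) (A B : Matrix ι ι ℚ)
    (b : ι → ℚ) (Em : ℕ → Matrix ι ι ℚ) (hF : Fsol A B b Em) (k : ℕ) :
    (Bh A (Eo κ B) k).map φ * Ch κ b Em 0 = (φ ((SA A).det)) ^ k • Ch κ b Em k := by
  induction k with
  | zero =>
    have : (Bh A (Eo κ B) 0).map φ = 1 := by
      simp [Bh]
    rw [this, Matrix.one_mul, pow_zero, one_smul]
  | succ k ih =>
    have hk : ((k : ℚ) + 1) ≠ 0 := by positivity
    have e : (Bh A (Eo κ B) (k + 1)).map φ = PowerSeries.C (1 / ((k : ℚ) + 1)) •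
        (((SA A).adjugate).map φ * ((Eo κ B - (k : ℚ) • (1 : Matrix ι ι ℚ)).map
          Polynomial.C).map φ * (Bh A (Eo κ B) k).map φ) := by
      rw [Bh]
      ext1 i j
      rw [Matrix.map_apply, Matrix.smul_apply, smul_eq_mul, map_mul, φC, Matrix.smul_apply,
        smul_eq_mul]
      congr 1
      rw [← Matrix.map_mul, ← Matrix.map_mul]
      rfl
    rw [e, Matrix.smul_mul, Matrix.mul_assoc, ih, Matrix.mul_smul, Matrix.mul_assoc,
      ← rec_ hZ κ A B b Em hF k, Matrix.mul_smul, ← Matrix.mul_assoc]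
    have h2 : ((SA A).adjugate).map φ * (SA A).map φ = φ ((SA A).det) • 1 := by
      rw [← Matrix.map_mul, Matrix.adjugate_mul]
      ext1 i j
      simp only [Matrix.map_apply, Matrix.smul_apply, smul_eq_mul, map_mul, Matrix.one_apply]
      split_ifs <;> simp
    rw [h2, Matrix.smul_mul, Matrix.one_mul, smul_smul, smul_smul, smul_smul]
    congr 1
    have h3 : PowerSeries.C (1 / ((k : ℚ) + 1)) * PowerSeries.C ((k : ℚ) + 1) =
        (1 : PowerSeries ℚ) := by
      rw [← map_mul, one_div, inv_mul_cancel₀ hk, map_one]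
    calc PowerSeries.C (1 / ((k : ℚ) + 1)) * ((φ ((SA A).det)) ^ k) *
        PowerSeries.C ((k : ℚ) + 1) * φ ((SA A).det)
        = (PowerSeries.C (1 / ((k : ℚ) + 1)) * PowerSeries.C ((k : ℚ) + 1)) *
          (φ ((SA A).det)) ^ (k + 1) := by ring
      _ = _ := by rw [h3, one_mul]

end

end BKH_

/-- BKH. -/
theorem bkh_proof (hZ : Stmt_Zrc) : Stmt_Bkh := by
  intro ι _ _ κ A B b Em hF k i j
  have h := congrFun (congrFun (BKH_.main hZ κ A B b Em hF k) i) j
  rw [Matrix.mul_apply, Matrix.smul_apply, smul_eq_mul] at h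
  have h0 : ∀ l, BKH_.Ch κ b Em 0 l j = PowerSeries.mk (fun m => Zo κ b Em m l j) := by
    intro l
    simp [BKH_.Ch, BKH_.ck]
  simp only [h0, Matrix.map_apply, Polynomial.coeToPowerSeries.ringHom_apply] at h
  rw [h]
  rfl

end Pool.Agent.EVD
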