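import Pool.Agent.EVD.Stmts

set_option autoImplicit false

/-!
# EVD, module BLC: the form on the periods is constant, with value `K0`
-/

open scoped BigOperators Topology
open Metric Set MeasureTheory

namespace Pool.Agent.EVD

namespace BLC_

/-- the derivative of the form -/
theorem deriv_form {ι : Type} [Fintype ι] [DecidableEq ι] (A B U : Matrix ι ι ℂ) (κ : ℂ)
    (hU : U.transpose = U) (hA : U * A = A.transpose * U)
    (hB : U * B + B.transpose * U = (2 * κ - 1) • U) (M L' : ℂ → Matrix ι ι ℂ) (t : ℂ)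
    (h1 : ∀ x y, HasDerivAt (fun t => M t x y) (L' t x y) t)
    (h2 : (t • (1 : Matrix ι ι ℂ) + A) * L' t = (B - κ • (1 : Matrix ι ι ℂ)) * M t) (a a' : ι) :
    HasDerivAt (fun t => ((M t).transpose * (U * (t • (1 : Matrix ι ι ℂ) + A)) * M t) a a') 0
      t := by
  have hN : ∀ t : ℂ, U * (t • (1 : Matrix ι ι ℂ) + A) = t • U + U * A := by
    intro t
    rw [Matrix.mul_add, Matrix.mul_smul, Matrix.mul_one]
  have e1 : (fun t => ((M t).transpose * (U * (t • (1 : Matrix ι ι ℂ) + A)) * M t) a a') =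
      fun t => ∑ y, (∑ x, M t x a * (t * U x y + (U * A) x y)) * M t y a' := by
    funext t
    rw [hN, Matrix.mul_apply]
    apply Finset.sum_congr rfl
    intro y _
    rw [Matrix.mul_apply]
    congr 1
  rw [e1]
  have e2 : HasDerivAt (fun t => ∑ y, (∑ x, M t x a * (t * U x y + (U * A) x y)) * M t y a')
      (∑ y, ((∑ x, (L' t x a * (t * U x y + (U * A) x y) + M t x a * (U x y))) * M t y a' +
        (∑ x, M t x a * (t * U x y + (U * A) x y)) * L' t y a')) t := by
    apply HasDerivAt.fun_sum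
    intro y _
    apply HasDerivAt.mul _ (h1 y a')
    apply HasDerivAt.fun_sum
    intro x _
    apply HasDerivAt.mul (h1 x a)
    have := ((hasDerivAt_id t).mul_const (U x y)).add_const ((U * A) x y)
    simpa using this
  have e3 : (∑ y, ((∑ x, (L' t x a * (t * U x y + (U * A) x y) + M t x a * (U x y))) * M t y a' +
        (∑ x, M t x a * (t * U x y + (U * A) x y)) * L' t y a')) =
      (((L' t).transpose * (t • U + U * A) + (M t).transpose * U) * M t +
        (M t).transpose * (t • U + U * A) * L' t) a a' := by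
    rw [Matrix.add_apply, Matrix.mul_apply, Matrix.mul_apply, ← Finset.sum_add_distrib]
    apply Finset.sum_congr rfl
    intro y _
    rw [Matrix.add_apply, Matrix.mul_apply, Matrix.mul_apply, Matrix.mul_apply,
      ← Finset.sum_add_distrib]
    rfl
  have e4 : ((L' t).transpose * (t • U + U * A) + (M t).transpose * U) * M t +
        (M t).transpose * (t • U + U * A) * L' t = 0 := by
    have f1 : (t • U + U * A) * L' t = U * ((B - κ • (1 : Matrix ι ι ℂ)) * M t) := by
      rw [← hN, Matrix.mul_assoc, h2]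
    have f2 : (t • U + U * A).transpose = t • U + U * A := by
      rw [Matrix.transpose_add, Matrix.transpose_smul, hU, Matrix.transpose_mul, hU, hA]
    have f3 : (L' t).transpose * (t • U + U * A) =
        (M t).transpose * ((B - κ • (1 : Matrix ι ι ℂ)).transpose * U) := by
      have := congrArg Matrix.transpose f1
      rw [Matrix.transpose_mul, f2, Matrix.transpose_mul, Matrix.transpose_mul, hU,
        Matrix.mul_assoc] at this
      exact this
    have f4 : (B - κ • (1 : Matrix ι ι ℂ)).transpose * U + U +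
        U * (B - κ • (1 : Matrix ι ι ℂ)) = 0 := by
      have g1 : (B - κ • (1 : Matrix ι ι ℂ)).transpose = B.transpose - κ • (1 : Matrix ι ι ℂ) := by
        rw [Matrix.transpose_sub, Matrix.transpose_smul, Matrix.transpose_one]
      rw [g1, Matrix.sub_mul, Matrix.mul_sub, Matrix.smul_mul, Matrix.one_mul, Matrix.mul_smul,
        Matrix.mul_one]
      have g2 : B.transpose * U - κ • U + U + (U * B - κ • U) =
          (U * B + B.transpose * U) + (1 - 2 * κ) • U := by
        rw [sub_smul, one_smul, two_mul, add_smul]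
        abel
      rw [g2, hB, ← add_smul]
      have : (2 * κ - 1 + (1 - 2 * κ) : ℂ) = 0 := by ring
      rw [this, zero_smul]
    calc ((L' t).transpose * (t • U + U * A) + (M t).transpose * U) * M t +
        (M t).transpose * (t • U + U * A) * L' t
        = (M t).transpose * ((B - κ • (1 : Matrix ι ι ℂ)).transpose * U + U +
          U * (B - κ • (1 : Matrix ι ι ℂ))) * M t := by
          rw [f3, Matrix.mul_assoc (M t).transpose (t • U + U * A) (L' t), f1]
          simp only [Matrix.mul_add, Matrix.add_mul, Matrix.mul_assoc]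
      _ = 0 := by rw [f4, Matrix.mul_zero, Matrix.zero_mul]
  rw [e3, e4] at e2
  exact e2

/-- constancy on a half plane -/
theorem const_of (c : ℝ) (hc : 0 < c) (F : ℂ → ℂ)
    (h : ∀ t : ℂ, -c < t.re → HasDerivAt F 0 t) :
    ∀ t : ℂ, -c < t.re → F t = F 1 := by
  intro t ht
  have hs : IsOpen {t : ℂ | -c < t.re} := isOpen_lt continuous_const Complex.continuous_re
  have hs' : IsPreconnected {t : ℂ | -c < t.re} := (convex_halfSpace_re_gt (-c)).isPreconnected
  refine hs.is_const_of_deriv_eq_zero hs'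
    (fun x hx => (h x hx).differentiableAt.differentiableWithinAt)
    (fun x hx => (h x hx).deriv) ht ?_
  change -c < (1 : ℂ).re
  rw [Complex.one_re]
  linarith

/-- the complement -/
def cpl {n : ℕ} (f : Fin n → Polynomial ℚ) (x : Ix f) : Ix f :=
  fun j => ⟨(f j).natDegree - 2 - (x j : ℕ), by have := (x j).isLt; omega⟩

theorem cpl_add {n : ℕ} (f : Fin n → Polynomial ℚ) (x : Ix f) (j : Fin n) :
    (x j : ℕ) + (cpl f x j : ℕ) + 2 = (f j).natDegree := by
  have := (x j).isLt
  simp only [cpl]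
  omega

theorem bI_cpl {n : ℕ} (f : Fin n → Polynomial ℚ) (x : Ix f) :
    bI f x + bI f (cpl f x) = n := by
  unfold bI
  rw [← Finset.sum_add_distrib]
  have : ∀ j ∈ (Finset.univ : Finset (Fin n)), ((x j : ℕ) + 1 : ℚ) / (f j).natDegree +
      ((cpl f x j : ℕ) + 1 : ℚ) / (f j).natDegree = 1 := by
    intro j _
    have h1 := cpl_add f x j
    have h0 : ((f j).natDegree : ℚ) ≠ 0 := by
      have : (f j).natDegree ≠ 0 := by omega
      exact_mod_cast this
    rw [← add_div, div_eq_one_iff_eq h0]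
    have : (x j : ℕ) + 1 + ((cpl f x j : ℕ) + 1) = (f j).natDegree := by omega
    exact_mod_cast this
  rw [Finset.sum_congr rfl this]
  simp

theorem UT_ne {n : ℕ} (f : Fin n → Polynomial ℚ) (x y : Ix f) (h : UT f x y ≠ 0) :
    ∀ j, (x j : ℕ) + (y j : ℕ) + 2 ≤ (f j).natDegree := by
  intro j
  unfold UT kprod at h
  rw [Matrix.of_apply, Finset.prod_ne_zero_iff] at h
  have h1 := h j (Finset.mem_univ j)
  change ((((x j : ℕ) + (y j : ℕ) + 2 : ℕ) : ℚ) *
    (f j).coeff ((x j : ℕ) + (y j : ℕ) + 2)) ≠ 0 at h1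
  by_contra h2
  apply h1
  rw [Polynomial.coeff_eq_zero_of_natDegree_lt (by omega), mul_zero]

theorem UT_le {n : ℕ} (f : Fin n → Polynomial ℚ) (x y : Ix f) (h : UT f x y ≠ 0) :
    bI f x + bI f y ≤ n := by
  have h1 := UT_ne f x y h
  unfold bI
  rw [← Finset.sum_add_distrib]
  have : ∑ j : Fin n, (((x j : ℕ) + 1 : ℚ) / (f j).natDegree +
      ((y j : ℕ) + 1 : ℚ) / (f j).natDegree) ≤ ∑ j : Fin n, (1 : ℚ) := by
    apply Finset.sum_le_sum
    intro j _
    have h2 := h1 j
    have h0 : (0 : ℚ) < (f j).natDegree := by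
      have : 0 < (f j).natDegree := by omega
      exact_mod_cast this
    rw [← add_div, div_le_one h0]
    have : (x j : ℕ) + 1 + ((y j : ℕ) + 1) ≤ (f j).natDegree := by omega
    exact_mod_cast this
  simpa using this

theorem UT_lt {n : ℕ} (f : Fin n → Polynomial ℚ) (x y : Ix f) (h : UT f x y ≠ 0)
    (hy : y ≠ cpl f x) : bI f x + bI f y < n := by
  have h1 := UT_ne f x y h
  unfold bI
  rw [← Finset.sum_add_distrib]
  obtain ⟨l, hl⟩ := Function.ne_iff.mp hy
  have : ∑ j : Fin n, (((x j : ℕ) + 1 : ℚ) / (f j).natDegree +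
      ((y j : ℕ) + 1 : ℚ) / (f j).natDegree) < ∑ j : Fin n, (1 : ℚ) := by
    apply Finset.sum_lt_sum
    · intro j _
      have h2 := h1 j
      have h0 : (0 : ℚ) < (f j).natDegree := by
        have : 0 < (f j).natDegree := by omega
        exact_mod_cast this
      rw [← add_div, div_le_one h0]
      have : (x j : ℕ) + 1 + ((y j : ℕ) + 1) ≤ (f j).natDegree := by omega
      exact_mod_cast this
    · refine ⟨l, Finset.mem_univ l, ?_⟩
      have h2 := h1 l
      have h0 : (0 : ℚ) < (f l).natDegree := by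
        have : 0 < (f l).natDegree := by omega
        exact_mod_cast this
      rw [← add_div, div_lt_one h0]
      have h3 : (y l : ℕ) ≠ (cpl f x l : ℕ) := fun h4 => hl (Fin.ext h4)
      have h4 := cpl_add f x l
      have : (x l : ℕ) + 1 + ((y l : ℕ) + 1) < (f l).natDegree := by omega
      exact_mod_cast this
  simpa using this

theorem UT_cpl {n : ℕ} (f : Fin n → Polynomial ℚ) (hf : ∀ j, (f j).Monic) (x : Ix f) :
    UT f x (cpl f x) = ∏ j, ((f j).natDegree : ℚ) := by
  unfold UT kprod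
  rw [Matrix.of_apply]
  apply Finset.prod_congr rfl
  intro j _
  change ((((x j : ℕ) + (cpl f x j : ℕ) + 2 : ℕ) : ℚ) *
    (f j).coeff ((x j : ℕ) + (cpl f x j : ℕ) + 2)) = _
  rw [cpl_add f x j]
  have := hf j
  rw [Polynomial.Monic, Polynomial.leadingCoeff] at this
  rw [this, mul_one]

theorem rpow_lim (s : ℝ) (hs : s < 0) :
    Filter.Tendsto (fun t : ℝ => ((t ^ s : ℝ) : ℂ)) Filter.atTop (𝓝 0) := by
  have h := tendsto_rpow_neg_atTop (y := -s) (by linarith)
  rw [neg_neg] at h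
  have h2 := (Complex.continuous_ofReal.tendsto 0).comp h
  rw [Complex.ofReal_zero] at h2
  exact h2

/-- the limit of the scaled entry of `N(t)` -/
theorem entry_lim {n : ℕ} (f : Fin n → Polynomial ℚ) (hf : ∀ j, (f j).Monic)
    (hA : ∀ x y, AT f x y ≠ 0 → bI f y < bI f x + 1) (x y : Ix f) :
    Filter.Tendsto (fun t : ℝ => ((t ^ ((bI f x : ℝ) + (bI f y : ℝ) - ((n : ℝ) + 1)) : ℝ) : ℂ) *
      ((t : ℂ) * cm (UT f) x y + (cm (UT f) * cm (AT f)) x y)) Filter.atTop
      (𝓝 (if y = cpl f x then ∏ j, ((f j).natDegree : ℂ) else 0)) := by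
  have hsplit : (if y = cpl f x then ∏ j, ((f j).natDegree : ℂ) else 0) =
      (if y = cpl f x then ∏ j, ((f j).natDegree : ℂ) else 0) + 0 := by rw [add_zero]
  rw [hsplit]
  have e : (fun t : ℝ => ((t ^ ((bI f x : ℝ) + (bI f y : ℝ) - ((n : ℝ) + 1)) : ℝ) : ℂ) *
      ((t : ℂ) * cm (UT f) x y + (cm (UT f) * cm (AT f)) x y)) =
      fun t : ℝ => ((t ^ ((bI f x : ℝ) + (bI f y : ℝ) - ((n : ℝ) + 1)) : ℝ) : ℂ) *
      ((t : ℂ) * cm (UT f) x y) + ((t ^ ((bI f x : ℝ) + (bI f y : ℝ) - ((n : ℝ) + 1)) : ℝ) : ℂ) *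
        (cm (UT f) * cm (AT f)) x y := by
    funext t
    ring
  rw [e]
  apply Filter.Tendsto.add
  · -- the part of U
    have e2 : (fun t : ℝ => ((t ^ ((bI f x : ℝ) + (bI f y : ℝ) - (n : ℝ)) : ℝ) : ℂ) *
        cm (UT f) x y) =ᶠ[Filter.atTop]
        (fun t : ℝ => ((t ^ ((bI f x : ℝ) + (bI f y : ℝ) - ((n : ℝ) + 1)) : ℝ) : ℂ) *
          ((t : ℂ) * cm (UT f) x y)) := by
      filter_upwards [Filter.eventually_gt_atTop (0 : ℝ)] with t ht
      have : t ^ ((bI f x : ℝ) + (bI f y : ℝ) - (n : ℝ)) =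
          t ^ ((bI f x : ℝ) + (bI f y : ℝ) - ((n : ℝ) + 1)) * t := by
        rw [← Real.rpow_add_one ht.ne']
        congr 1
        ring
      rw [this]
      push_cast
      ring
    refine Filter.Tendsto.congr' e2 ?_
    by_cases hU : UT f x y = 0
    · have hne : y ≠ cpl f x := by
        intro h
        rw [h, UT_cpl f hf x, Finset.prod_eq_zero_iff] at hU
        obtain ⟨j, _, hj⟩ := hU
        have h1 := cpl_add f x j
        have : (f j).natDegree ≠ 0 := by omega
        exact this (by exact_mod_cast hj)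
      rw [if_neg hne]
      have : cm (UT f) x y = 0 := by
        simp [cm, hU]
      simp only [this, mul_zero]
      exact tendsto_const_nhds
    · by_cases hy : y = cpl f x
      · rw [if_pos hy, hy]
        have h1 : (bI f x : ℝ) + (bI f (cpl f x) : ℝ) - (n : ℝ) = 0 := by
          have := bI_cpl f x
          have h2 : ((bI f x + bI f (cpl f x) : ℚ) : ℝ) = ((n : ℚ) : ℝ) := by rw [this]
          push_cast at h2
          linarith
        have h2 : cm (UT f) x (cpl f x) = ∏ j, ((f j).natDegree : ℂ) := by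
          unfold cm
          rw [Matrix.map_apply, UT_cpl f hf x]
          push_cast
          rfl
        rw [h2]
        simp only [h1, Real.rpow_zero, Complex.ofReal_one, one_mul]
        exact tendsto_const_nhds
      · rw [if_neg hy]
        have h1 : (bI f x : ℝ) + (bI f y : ℝ) - (n : ℝ) < 0 := by
          have h3 := UT_lt f x y hU hy
          have h2 : ((bI f x + bI f y : ℚ) : ℝ) < ((n : ℚ) : ℝ) := by exact_mod_cast h3
          push_cast at h2
          linarith
        have h4 := (rpow_lim _ h1).mul_const (cm (UT f) x y)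
        rw [zero_mul] at h4
        exact h4
  · by_cases h0 : (cm (UT f) * cm (AT f)) x y = 0
    · simp only [h0, mul_zero]
      exact tendsto_const_nhds
    · have h1 : (bI f x : ℝ) + (bI f y : ℝ) - ((n : ℝ) + 1) < 0 := by
        rw [Matrix.mul_apply] at h0
        obtain ⟨z, _, hz⟩ := Finset.exists_ne_zero_of_sum_ne_zero h0
        have hz1 : UT f x z ≠ 0 := by
          intro h
          apply hz
          simp [cm, h]
        have hz2 : AT f z y ≠ 0 := by
          intro h
          apply hz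
          simp [cm, h]
        have h2 := UT_le f x z hz1
        have h3 := hA z y hz2
        have h4 : bI f x + bI f y < (n : ℚ) + 1 := by linarith
        have h5 : ((bI f x + bI f y : ℚ) : ℝ) < (((n : ℚ) + 1 : ℚ) : ℝ) := by exact_mod_cast h4
        push_cast at h5
        linarith
      have h4 := (rpow_lim _ h1).mul_const ((cm (UT f) * cm (AT f)) x y)
      rw [zero_mul] at h4
      exact h4

/-- the limits of the scaled periods -/
noncomputable def mlim {n : ℕ} (f : Fin n → Polynomial ℚ) (κ : ℕ) (x y : Ix f) : ℂ :=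
  ((Real.Gamma ((κ : ℝ) - (bI f x : ℝ)) / Real.Gamma (κ : ℝ) : ℝ) : ℂ) *
    ∏ j, ((zt (f j).natDegree ^ (((y j : ℕ) + 1) * ((x j : ℕ) + 1)) -
      zt (f j).natDegree ^ ((y j : ℕ) * ((x j : ℕ) + 1))) *
      ((Real.Gamma (((x j : ℕ) + 1 : ℝ) / (f j).natDegree) / (f j).natDegree : ℝ) : ℂ))

theorem zt_pow (p : ℕ) (hp : 0 < p) : zt p ^ p = 1 := by
  unfold zt
  rw [← Complex.exp_nat_mul]
  have : (p : ℂ) * (2 * Real.pi * Complex.I / p) = 2 * Real.pi * Complex.I := by
    have : (p : ℂ) ≠ 0 := by exact_mod_cast hp.ne'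
    field_simp
  rw [this, Complex.exp_two_pi_mul_I]

theorem zt_cpl (p a u v : ℕ) (hp : 0 < p) (h : u + v = p) :
    zt p ^ (a * v) = (zt p)⁻¹ ^ (a * u) := by
  have h0 : zt p ≠ 0 := by
    unfold zt
    exact Complex.exp_ne_zero _
  have h1 : zt p ^ (a * v) * zt p ^ (a * u) = 1 := by
    rw [← pow_add, ← mul_add, add_comm v u, h, mul_comm, pow_mul, zt_pow p hp, one_pow]
  rw [inv_pow]
  exact eq_inv_of_mul_eq_one_left h1

theorem K0_eq (k : ℕ) (f : Fin (2 * k + 1) → Polynomial ℚ) (a a' : Ix f) :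
    ∑ x : Ix f, mlim f (k + 1) x a * mlim f (k + 1) (cpl f x) a' *
      ∏ j, ((f j).natDegree : ℂ) = K0 f (k + 1) a a' := by
  unfold K0
  apply Finset.sum_congr rfl
  intro x _
  have hb : ((k + 1 : ℕ) : ℝ) - (bI f (cpl f x) : ℝ) = (bI f x : ℝ) + 1 - ((k + 1 : ℕ) : ℝ) := by
    have h1 := bI_cpl f x
    have h2 : ((bI f x + bI f (cpl f x) : ℚ) : ℝ) = (((2 * k + 1 : ℕ) : ℚ) : ℝ) := by rw [h1]
    push_cast at h2 ⊢
    linarith
  have hG : ((Real.Gamma (((k + 1 : ℕ) : ℝ) - (bI f x : ℝ)) *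
      Real.Gamma ((bI f x : ℝ) + 1 - ((k + 1 : ℕ) : ℝ)) / Real.Gamma ((k + 1 : ℕ) : ℝ) ^ 2 : ℝ) : ℂ)
      = ((Real.Gamma (((k + 1 : ℕ) : ℝ) - (bI f x : ℝ)) / Real.Gamma ((k + 1 : ℕ) : ℝ) : ℝ) : ℂ) *
        ((Real.Gamma (((k + 1 : ℕ) : ℝ) - (bI f (cpl f x) : ℝ)) /
          Real.Gamma ((k + 1 : ℕ) : ℝ) : ℝ) : ℂ) := by
    rw [hb, ← Complex.ofReal_mul]
    congr 1
    rw [div_mul_div_comm, sq]
  rw [hG]
  unfold mlim
  set G1' := ((Real.Gamma (((k + 1 : ℕ) : ℝ) - (bI f x : ℝ)) / Real.Gamma ((k + 1 : ℕ) : ℝ) : ℝ) : ℂ)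
  set G2' := ((Real.Gamma (((k + 1 : ℕ) : ℝ) - (bI f (cpl f x) : ℝ)) /
    Real.Gamma ((k + 1 : ℕ) : ℝ) : ℝ) : ℂ)
  have hp : ∀ (P Q R : ℂ), G1' * P * (G2' * Q) * R = G1' * G2' * (P * Q * R) := by
    intro P Q R
    ring
  rw [hp, ← Finset.prod_mul_distrib, ← Finset.prod_mul_distrib]
  congr 1
  apply Finset.prod_congr rfl
  intro j _
  have h1 := cpl_add f x j
  have h2 : 0 < (f j).natDegree := by omega
  have h3 : ((x j : ℕ) + 1) + ((cpl f x j : ℕ) + 1) = (f j).natDegree := by omega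
  rw [zt_cpl _ ((a' j : ℕ) + 1) _ _ h2 h3, zt_cpl _ (a' j : ℕ) _ _ h2 h3]
  have h4 : (((cpl f x j : ℕ) + 1 : ℝ)) / (f j).natDegree =
      1 - ((x j : ℕ) + 1 : ℝ) / (f j).natDegree := by
    have h5 : ((f j).natDegree : ℝ) ≠ 0 := by exact_mod_cast h2.ne'
    rw [eq_sub_iff_add_eq, ← add_div, div_eq_one_iff_eq h5]
    have h6 : ((cpl f x j : ℕ) + 1) + ((x j : ℕ) + 1) = (f j).natDegree := by omega
    exact_mod_cast h6
  rw [h4]
  have h7 : ((f j).natDegree : ℂ) ≠ 0 := by exact_mod_cast h2.ne'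
  push_cast
  field_simp

end BLC_

open BLC_ in
theorem blc_proof (hM : Stmt_Mko) (hL : Stmt_Mkl) (hA : Stmt_Oka) : Stmt_Blc := by
  intro k f hk hf hc hr
  obtain ⟨a1, a2, a3, a4, a5, a6, a7, a8, a9⟩ := hA (2 * k + 1) f hf hc
  obtain ⟨c, hc0, hode⟩ := hM (2 * k + 1) f (by omega) hf hc hr
  obtain ⟨L', hL'⟩ := hode k (by omega)
  have hnk : 2 * k + 1 - k = k + 1 := by omega
  have hlim := hL (2 * k + 1) f (by omega) hf hc hr k (by omega)
  rw [hnk] at hlim
  refine ⟨c, hc0, ?_⟩
  -- constancy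
  have cU : (cm (UT f)).transpose = cm (UT f) := by
    unfold cm
    rw [← Matrix.transpose_map, a1]
  have cmul : ∀ X Y : Matrix (Ix f) (Ix f) ℚ, cm (X * Y) = cm X * cm Y := by
    intro X Y
    unfold cm
    ext i j
    simp [Matrix.mul_apply]
  have cUA : cm (UT f) * cm (AT f) = (cm (AT f)).transpose * cm (UT f) := by
    have h : (cm (AT f)).transpose = cm (AT f).transpose := by
      unfold cm
      rw [Matrix.transpose_map]
    rw [h, ← cmul, ← cmul, a3]
  have cUB : cm (UT f) * cm (BT f) + (cm (BT f)).transpose * cm (UT f) =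
      (2 * ((k + 1 : ℕ) : ℂ) - 1) • cm (UT f) := by
    have h : (cm (BT f)).transpose = cm (BT f).transpose := by
      unfold cm
      rw [Matrix.transpose_map]
    have h2 : ∀ X Y : Matrix (Ix f) (Ix f) ℚ, cm (X + Y) = cm X + cm Y := by
      intro X Y
      unfold cm
      ext i j
      simp
    rw [h, ← cmul, ← cmul, ← h2, a4]
    unfold cm
    ext i j
    simp only [Matrix.map_apply, Matrix.smul_apply, smul_eq_mul]
    push_cast
    ring
  have hF : ∀ t : ℂ, -c < t.re → ∀ a a', HasDerivAt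
      (fun t => ((MK f k t).transpose * (cm (UT f) *
        (t • (1 : Matrix (Ix f) (Ix f) ℂ) + cm (AT f))) * MK f k t) a a') 0 t := by
    intro t ht a a'
    have h := hL' t ht
    rw [hnk] at h
    exact deriv_form (cm (AT f)) (cm (BT f)) (cm (UT f)) ((k + 1 : ℕ) : ℂ) cU cUA cUB
      (fun t => MK f k t) L' t h.1 h.2 a a'
  intro t ht a a'
  set F : ℂ → ℂ := fun t => ((MK f k t).transpose * (cm (UT f) *
        (t • (1 : Matrix (Ix f) (Ix f) ℂ) + cm (AT f))) * MK f k t) a a' with hFdef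
  have hconst := const_of c hc0 F (fun t ht => hF t ht a a')
  change F t = K0 f (k + 1) a a'
  rw [hconst t ht]
  -- the limit
  have hlimF : Filter.Tendsto (fun t : ℝ => F (t : ℂ)) Filter.atTop
      (𝓝 (K0 f (k + 1) a a')) := by
    have h1 : (fun t : ℝ => ∑ y : Ix f, ∑ x : Ix f,
        ((((t ^ (((k + 1 : ℕ) : ℝ) - (bI f x : ℝ)) : ℝ) : ℂ) * MK f k t x a) *
        (((t ^ (((k + 1 : ℕ) : ℝ) - (bI f y : ℝ)) : ℝ) : ℂ) * MK f k t y a') *
        (((t ^ ((bI f x : ℝ) + (bI f y : ℝ) - (((2 * k + 1 : ℕ) : ℝ) + 1)) : ℝ) : ℂ) *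
          ((t : ℂ) * cm (UT f) x y + (cm (UT f) * cm (AT f)) x y)))) =ᶠ[Filter.atTop]
        (fun t : ℝ => F (t : ℂ)) := by
      filter_upwards [Filter.eventually_gt_atTop (0 : ℝ)] with t ht
      have hN : cm (UT f) * ((t : ℂ) • (1 : Matrix (Ix f) (Ix f) ℂ) + cm (AT f)) =
          (t : ℂ) • cm (UT f) + cm (UT f) * cm (AT f) := by
        rw [Matrix.mul_add, Matrix.mul_smul, Matrix.mul_one]
      simp only [hFdef]
      rw [hN, Matrix.mul_apply]
      apply Finset.sum_congr rfl
      intro y _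
      rw [Matrix.mul_apply, Finset.sum_mul]
      apply Finset.sum_congr rfl
      intro x _
      have hone : t ^ (((k + 1 : ℕ) : ℝ) - (bI f x : ℝ)) *
          t ^ (((k + 1 : ℕ) : ℝ) - (bI f y : ℝ)) *
          t ^ ((bI f x : ℝ) + (bI f y : ℝ) - (((2 * k + 1 : ℕ) : ℝ) + 1)) = 1 := by
        rw [← Real.rpow_add ht, ← Real.rpow_add ht]
        have : (((k + 1 : ℕ) : ℝ) - (bI f x : ℝ)) + (((k + 1 : ℕ) : ℝ) - (bI f y : ℝ)) +
            ((bI f x : ℝ) + (bI f y : ℝ) - (((2 * k + 1 : ℕ) : ℝ) + 1)) = 0 := by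
          push_cast
          ring
        rw [this, Real.rpow_zero]
      have hone' : ((t ^ (((k + 1 : ℕ) : ℝ) - (bI f x : ℝ)) : ℝ) : ℂ) *
          ((t ^ (((k + 1 : ℕ) : ℝ) - (bI f y : ℝ)) : ℝ) : ℂ) *
          ((t ^ ((bI f x : ℝ) + (bI f y : ℝ) - (((2 * k + 1 : ℕ) : ℝ) + 1)) : ℝ) : ℂ) = 1 := by
        rw [← Complex.ofReal_mul, ← Complex.ofReal_mul, hone, Complex.ofReal_one]
      rw [Matrix.transpose_apply, Matrix.add_apply, Matrix.smul_apply, smul_eq_mul]
      linear_combination (MK f k t x a * MK f k t y a' *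
        ((t : ℂ) * cm (UT f) x y + (cm (UT f) * cm (AT f)) x y)) * hone'
    refine Filter.Tendsto.congr' h1 ?_
    have h2 : K0 f (k + 1) a a' = ∑ y : Ix f, ∑ x : Ix f,
        (mlim f (k + 1) x a * mlim f (k + 1) y a' *
          (if y = cpl f x then ∏ j, ((f j).natDegree : ℂ) else 0)) := by
      rw [← K0_eq, Finset.sum_comm]
      apply Finset.sum_congr rfl
      intro x _
      rw [Finset.sum_eq_single (cpl f x)]
      · rw [if_pos rfl]
      · intro y _ hy
        rw [if_neg hy, mul_zero]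
      · intro h
        exact absurd (Finset.mem_univ _) h
    rw [h2]
    apply tendsto_finsetSum
    intro y _
    apply tendsto_finsetSum
    intro x _
    apply Filter.Tendsto.mul
    · apply Filter.Tendsto.mul
      · exact hlim x a
      · exact hlim y a'
    · exact entry_lim f (fun j => (hf j).mon) a7 x y
  have hev : (fun t : ℝ => F (t : ℂ)) =ᶠ[Filter.atTop] fun _ => F 1 := by
    filter_upwards [Filter.eventually_gt_atTop (0 : ℝ)] with t ht
    apply hconst
    rw [Complex.ofReal_re]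
    linarith
  exact tendsto_nhds_unique (tendsto_const_nhds.congr' hev.symm) hlimF

end Pool.Agent.EVD
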