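import Pool.Agent.EVD.Stmts

set_option autoImplicit false

open Finset

namespace Pool.Agent.EVD

namespace BSO_

open Polynomial

theorem adj_natDegree {ι : Type} [Fintype ι] [DecidableEq ι] (A : Matrix ι ι ℚ) (i a : ι) :
    ((Sm A).adjugate i a).natDegree ≤ Fintype.card ι := by
  have h : (Sm A).updateRow a (Pi.single i 1) =
      (X : ℚ[X]) • ((1 : Matrix ι ι ℚ).updateRow a 0).map C +
        (A.updateRow a (Pi.single i 1)).map C := by
    ext1 u v
    by_cases hu : u = a
    · subst hu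
      simp only [Matrix.updateRow_self, Matrix.add_apply, Matrix.smul_apply, Matrix.map_apply,
        Pi.zero_apply, map_zero, smul_zero, zero_add]
      by_cases hv : v = i
      · subst hv; simp
      · simp [Pi.single_eq_of_ne hv]
    · simp only [Sm, Matrix.updateRow_ne hu, Matrix.add_apply, Matrix.smul_apply,
        Matrix.map_apply]
      by_cases huv : u = v
      · subst huv; simp
      · simp [Matrix.one_apply_ne huv]
  rw [Matrix.adjugate_apply, h]
  exact (natDegree_det_X_add_C_le _ _).trans (by simp)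

theorem exists_bd {ι : Type} [Fintype ι] (f : ι → ℚ) : ∃ B : ℚ, 0 ≤ B ∧ ∀ i, |f i| ≤ B :=
  ⟨∑ i, |f i|, Finset.sum_nonneg (fun i _ => abs_nonneg _),
    fun i => Finset.single_le_sum (f := fun i => |f i|) (fun i _ => abs_nonneg _)
      (Finset.mem_univ i)⟩

theorem abs_coeff_mul_le {m : ℕ} (p q : ℚ[X]) (hp : p.natDegree ≤ m) (D E : ℚ) (hD : 0 ≤ D)
    (hE : 0 ≤ E) (h1 : ∀ l, |p.coeff l| ≤ D) (h2 : ∀ l, |q.coeff l| ≤ E) (l : ℕ) :
    |(p * q).coeff l| ≤ ((m : ℚ) + 1) * D * E := by
  rw [coeff_mul, Finset.Nat.sum_antidiagonal_eq_sum_range_succ (fun i j => p.coeff i * q.coeff j)]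
  have h3 : |∑ u ∈ range l.succ, p.coeff u * q.coeff (l - u)| ≤
      ∑ u ∈ range l.succ, |p.coeff u| * E := by
    refine (Finset.abs_sum_le_sum_abs _ _).trans (Finset.sum_le_sum (fun u _ => ?_))
    rw [abs_mul]
    exact mul_le_mul_of_nonneg_left (h2 _) (abs_nonneg _)
  have h4 : ∑ u ∈ range l.succ, |p.coeff u| * E ≤ ∑ u ∈ range (m + 1), |p.coeff u| * E := by
    have h5 : ∑ u ∈ range l.succ, |p.coeff u| * E ≤
        ∑ u ∈ range (l.succ + (m + 1)), |p.coeff u| * E := by
      refine Finset.sum_le_sum_of_subset_of_nonneg ?_ ?_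
      · intro x hx
        rw [mem_range] at *
        omega
      · intro i _ _
        exact mul_nonneg (abs_nonneg _) hE
    have h6 : ∑ u ∈ range (m + 1), |p.coeff u| * E =
        ∑ u ∈ range (l.succ + (m + 1)), |p.coeff u| * E := by
      refine Finset.sum_subset ?_ ?_
      · intro x hx
        rw [mem_range] at *
        omega
      · intro x _ hx
        rw [mem_range] at hx
        rw [coeff_eq_zero_of_natDegree_lt (by omega)]
        simp
    rw [h6]
    exact h5
  refine h3.trans (h4.trans ?_)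
  have h7 : ∑ u ∈ range (m + 1), |p.coeff u| * E ≤ ∑ _u ∈ range (m + 1), D * E :=
    Finset.sum_le_sum (fun u _ => mul_le_mul_of_nonneg_right (h1 u) hE)
  refine h7.trans (le_of_eq ?_)
  rw [Finset.sum_const, card_range, nsmul_eq_mul]
  push_cast
  ring

end BSO_

open BSO_ Polynomial in
theorem bso_proof : Stmt_Bso := by
  intro ι _ _ A E
  obtain ⟨m, hm⟩ : ∃ m : ℕ, m = Fintype.card ι := ⟨_, rfl⟩
  rw [← hm]
  have hadj0 : ∀ (i a : ι), ((Sm A).adjugate i a).natDegree ≤ m := by
    intro i a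
    rw [hm]
    exact adj_natDegree A i a
  obtain ⟨B0, hB0, hB0'⟩ := exists_bd (fun x : ι × ι × Fin (m + 1) =>
    ((Sm A).adjugate x.1 x.2.1).coeff (x.2.2 : ℕ))
  have hadj : ∀ (i a : ι) (l : ℕ), |((Sm A).adjugate i a).coeff l| ≤ B0 := by
    intro i a l
    by_cases hl : l < m + 1
    · exact hB0' (i, a, ⟨l, hl⟩)
    · rw [coeff_eq_zero_of_natDegree_lt
        (lt_of_le_of_lt (hadj0 i a) (by omega)), abs_zero]
      exact hB0
  obtain ⟨B1, hB1, hB1'⟩ := exists_bd (fun x : ι × ι => E x.1 x.2)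
  obtain ⟨D, hD⟩ : ∃ D : ℚ, D = (m : ℚ) * (B0 * (B1 + 1)) := ⟨_, rfl⟩
  have hD0 : 0 ≤ D := by rw [hD]; positivity
  obtain ⟨C0, hC0⟩ := exists_nat_ge ((m : ℚ) * (((m : ℚ) + 1) * D))
  refine ⟨C0, ?_⟩
  intro k
  induction k with
  | zero =>
    intro i j
    refine ⟨?_, ?_⟩
    · change ((1 : Matrix ι ι ℚ[X]) i j).natDegree ≤ _
      by_cases hij : i = j
      · subst hij; simp
      · rw [Matrix.one_apply_ne hij]; simp
    · intro l
      change |((1 : Matrix ι ι ℚ[X]) i j).coeff l| ≤ _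
      rw [pow_zero]
      by_cases hij : i = j
      · subst hij
        rw [Matrix.one_apply_eq, coeff_one]
        split_ifs <;> simp
      · rw [Matrix.one_apply_ne hij]; simp
  | succ k ih =>
    intro i j
    obtain ⟨e, he⟩ : ∃ e : ι → ι → ℚ, e = fun a b => (1 / ((k : ℚ) + 1)) *
      (E - (k : ℚ) • (1 : Matrix ι ι ℚ)) a b := ⟨_, rfl⟩
    obtain ⟨P, hP⟩ : ∃ P : ι → ι → ℚ[X], P = fun i b =>
      ∑ a, (Sm A).adjugate i a * C (e a b) := ⟨_, rfl⟩
    have hk : (0 : ℚ) < (k : ℚ) + 1 := by positivity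
    have he1 : ∀ a b, |e a b| ≤ B1 + 1 := by
      intro a b
      rw [he]
      simp only
      rw [abs_mul, abs_of_pos (by positivity : (0 : ℚ) < 1 / ((k : ℚ) + 1)), one_div,
        inv_mul_le_iff₀ hk]
      have h1 : |(E - (k : ℚ) • (1 : Matrix ι ι ℚ)) a b| ≤ B1 + k := by
        rw [Matrix.sub_apply, Matrix.smul_apply]
        refine (abs_sub _ _).trans (add_le_add (hB1' (a, b)) ?_)
        by_cases hab : a = b
        · subst hab; simp
        · rw [Matrix.one_apply_ne hab]; simp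
      have h2 : (0 : ℚ) ≤ k := by positivity
      nlinarith [mul_nonneg h2 hB1]
    have hPd : ∀ i b, (P i b).natDegree ≤ m := by
      intro i b
      rw [hP]
      refine natDegree_sum_le_of_forall_le _ _ (fun a _ => ?_)
      exact (natDegree_mul_C_le _ _).trans (hadj0 i a)
    have hPc : ∀ i b l, |(P i b).coeff l| ≤ D := by
      intro i b l
      rw [hP]
      simp only [finsetSum_coeff, coeff_mul_C]
      refine (Finset.abs_sum_le_sum_abs _ _).trans ?_
      have h1 : ∑ a : ι, |((Sm A).adjugate i a).coeff l * e a b| ≤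
          ∑ _a : ι, B0 * (B1 + 1) := by
        refine Finset.sum_le_sum (fun a _ => ?_)
        rw [abs_mul]
        exact mul_le_mul (hadj i a l) (he1 a b) (abs_nonneg _) hB0
      refine h1.trans (le_of_eq ?_)
      rw [Finset.sum_const, Finset.card_univ, ← hm, nsmul_eq_mul, hD]
    have key : Bt A E (k + 1) i j = ∑ b, P i b * Bt A E k b j := by
      rw [hP, he]
      simp only [Bt, Matrix.smul_apply, Matrix.mul_apply, Matrix.map_apply, smul_eq_mul]
      rw [Finset.mul_sum]
      refine Finset.sum_congr rfl (fun b _ => ?_)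
      rw [← mul_assoc, Finset.mul_sum]
      congr 1
      refine Finset.sum_congr rfl (fun a _ => ?_)
      rw [C_mul]
      ring
    refine ⟨?_, ?_⟩
    · rw [key]
      refine natDegree_sum_le_of_forall_le _ _ (fun b _ => ?_)
      refine natDegree_mul_le.trans ?_
      have h1 := hPd i b
      have h2 := (ih b j).1
      calc (P i b).natDegree + (Bt A E k b j).natDegree ≤ m + m * k := add_le_add h1 h2
        _ = m * (k + 1) := by ring
    · intro l
      rw [key, finsetSum_coeff]
      refine (Finset.abs_sum_le_sum_abs _ _).trans ?_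
      have hCk : (0 : ℚ) ≤ (C0 : ℚ) ^ k := by positivity
      have h1 : ∑ b : ι, |(P i b * Bt A E k b j).coeff l| ≤
          ∑ _b : ι, ((m : ℚ) + 1) * D * (C0 : ℚ) ^ k := by
        refine Finset.sum_le_sum (fun b _ => ?_)
        exact abs_coeff_mul_le _ _ (hPd i b) D _ hD0 hCk (hPc i b) (ih b j).2 l
      refine h1.trans ?_
      rw [Finset.sum_const, Finset.card_univ, ← hm, nsmul_eq_mul, pow_succ]
      calc (m : ℚ) * (((m : ℚ) + 1) * D * (C0 : ℚ) ^ k)
          = (C0 : ℚ) ^ k * ((m : ℚ) * (((m : ℚ) + 1) * D)) := by ring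
        _ ≤ (C0 : ℚ) ^ k * (C0 : ℚ) := mul_le_mul_of_nonneg_left hC0 hCk

end Pool.Agent.EVD
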