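import Pool.Agent.EVD.Stmts

set_option autoImplicit false

open scoped BigOperators
open Polynomial

namespace Pool.Agent.EVD

namespace BTR_

theorem g1_deg (f : Polynomial ℚ) (hm : f.Monic) (h2 : 2 ≤ f.natDegree) :
    (g1 f).natDegree = f.natDegree - 1 := by
  unfold g1
  have hp : (f.natDegree : ℚ) ≠ 0 := by
    have : (0 : ℚ) < f.natDegree := by exact_mod_cast (by omega : 0 < f.natDegree)
    exact this.ne'
  rw [natDegree_C_mul (by positivity : (1 / (f.natDegree : ℚ)) ≠ 0)]
  exact natDegree_derivative f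

theorem g1_monic (f : Polynomial ℚ) (hm : f.Monic) (h2 : 2 ≤ f.natDegree) :
    (g1 f).Monic := by
  have hp : (0 : ℚ) < f.natDegree := by exact_mod_cast (by omega : 0 < f.natDegree)
  unfold Monic leadingCoeff
  rw [g1_deg f hm h2]
  unfold g1
  rw [coeff_C_mul, coeff_derivative]
  have e : f.natDegree - 1 + 1 = f.natDegree := by omega
  rw [e, coeff_natDegree, hm.leadingCoeff]
  have e2 : ((f.natDegree - 1 : ℕ) : ℚ) + 1 = f.natDegree := by
    rw [← e]
    push_cast
    simp
  rw [e2]
  field_simp

end BTR_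

theorem btr_proof : Stmt_Btr := by
  intro f hm h2
  have hp : (0 : ℚ) < f.natDegree := by exact_mod_cast (by omega : 0 < f.natDegree)
  have hg := BTR_.g1_monic f hm h2
  have hd := BTR_.g1_deg f hm h2
  have hdeg : ∀ i : ℕ, (X ^ i * f).natDegree = i + f.natDegree := by
    intro i
    rw [(monic_X_pow i).natDegree_mul hm, natDegree_X_pow]
  have hq : ∀ i : ℕ, ((X ^ i * f) /ₘ g1 f).natDegree = i + 1 := by
    intro i
    rw [natDegree_divByMonic _ hg, hdeg, hd]
    omega
  have hl : ∀ i : ℕ, ((X ^ i * f) /ₘ g1 f).coeff (i + 1) = 1 := by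
    intro i
    have h := leadingCoeff_divByMonic_of_monic (p := X ^ i * f) hg (by
      rw [degree_eq_natDegree hg.ne_zero, degree_eq_natDegree
        ((monic_X_pow i).mul hm).ne_zero, hdeg, hd]
      exact_mod_cast (by omega : f.natDegree - 1 ≤ i + f.natDegree))
    rw [leadingCoeff, hq, ((monic_X_pow i).mul hm).leadingCoeff] at h
    exact h
  constructor
  · intro i j hij
    have hij' : (i : ℕ) < j := hij
    simp only [B1, Matrix.of_apply]
    rw [coeff_C_mul, coeff_derivative, coeff_eq_zero_of_natDegree_lt (by rw [hq]; omega)]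
    simp
  · intro i
    simp only [B1, Matrix.of_apply]
    rw [coeff_C_mul, coeff_derivative, hl]
    field_simp

end Pool.Agent.EVD
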