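import Pool.Agent.EVD.Stmts

set_option autoImplicit false

open scoped BigOperators Topology
open Matrix

namespace Pool.Agent.EVD

namespace CMA_

variable {ι : Type} [Fintype ι] [DecidableEq ι]

lemma pr_sq (Q : Matrix ι ι ℂ) (v : ι → ℂ)
    (hv : v = 0 ∨ dotProduct v (Q.mulVec v) = 1) : pr Q v * pr Q v = pr Q v := by
  unfold pr
  rcases hv with h | h
  · rw [h]
    have : vecMulVec (0 : ι → ℂ) (Q.mulVec 0) = 0 := by
      ext a c
      simp [vecMulVec_apply]
    rw [this, Matrix.zero_mul]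
  · rw [vecMulVec_mul_vecMulVec, dotProduct_comm, h, one_smul]

lemma sq (Q : Matrix ι ι ℂ) (v : ι → ℂ)
    (hv : v = 0 ∨ dotProduct v (Q.mulVec v) = 1) :
    (1 - (2 : ℂ) • pr Q v) * (1 - (2 : ℂ) • pr Q v) = 1 := by
  have h := pr_sq Q v hv
  have h2 : (2 : ℂ) • pr Q v * (2 : ℂ) • pr Q v = (4 : ℂ) • pr Q v := by
    rw [Matrix.smul_mul, Matrix.mul_smul, h, smul_smul]
    norm_num
  rw [Matrix.mul_sub, Matrix.sub_mul, Matrix.sub_mul, h2, Matrix.one_mul, Matrix.one_mul,
    Matrix.mul_one]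
  module

lemma pr_iso (Q : Matrix ι ι ℂ) (hQ : Q.transpose = Q) (v : ι → ℂ) :
    (pr Q v).transpose * Q = Q * pr Q v := by
  unfold pr
  rw [transpose_vecMulVec, vecMulVec_mul, mul_vecMulVec]
  congr 1
  rw [← mulVec_transpose, hQ]

lemma refl_iso (Q : Matrix ι ι ℂ) (hQ : Q.transpose = Q) (v : ι → ℂ)
    (hv : v = 0 ∨ dotProduct v (Q.mulVec v) = 1) : Iso Q (1 - (2 : ℂ) • pr Q v) := by
  unfold Iso
  have h1 : (1 - (2 : ℂ) • pr Q v).transpose * Q = Q * (1 - (2 : ℂ) • pr Q v) := by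
    rw [transpose_sub, transpose_one, transpose_smul, Matrix.sub_mul, Matrix.smul_mul,
      pr_iso Q hQ v, Matrix.mul_sub, Matrix.one_mul, Matrix.mul_one, Matrix.mul_smul]
  rw [h1, Matrix.mul_assoc, sq Q v hv, Matrix.mul_one]

lemma refl_det (Q : Matrix ι ι ℂ) (v : ι → ℂ) (hv : dotProduct v (Q.mulVec v) = 1) :
    (1 - (2 : ℂ) • pr Q v).det = -1 := by
  have h1 : (2 : ℂ) • pr Q v = replicateCol Unit ((2 : ℂ) • v) * replicateRow Unit (Q.mulVec v) := by
    unfold pr
    rw [← smul_vecMulVec, vecMulVec_eq Unit]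
  rw [h1, det_one_sub_mul_comm]
  rw [replicateRow_mul_replicateCol, det_unique, Matrix.sub_apply, one_apply_eq, of_apply,
    dotProduct_smul, dotProduct_comm, hv]
  norm_num

lemma refl_act (Q : Matrix ι ι ℂ) (v y : ι → ℂ) :
    (1 - (2 : ℂ) • pr Q v).mulVec y = y - (2 * dotProduct (Q.mulVec v) y) • v := by
  unfold pr
  rw [sub_mulVec, one_mulVec, smul_mulVec, vecMulVec_mulVec]
  simp [smul_smul]

lemma noncomm (Q : Matrix ι ι ℂ) (hQ : Q.transpose = Q) (hd : Q.det ≠ 0)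
    (h3 : 3 ≤ Fintype.card ι) : ∃ x y : Matrix ι ι ℂ, Iso Q x ∧ x.det = 1 ∧ Iso Q y ∧
      y.det = 1 ∧ x * y ≠ y * x := by
  have hsy : ∀ a b : ι → ℂ, dotProduct a (Q.mulVec b) = dotProduct b (Q.mulVec a) := by
    intro a b
    rw [dotProduct_mulVec, ← mulVec_transpose, hQ, dotProduct_comm]
  have hsymm : LinearMap.IsSymm (Matrix.toBilin' Q) := by
    refine ⟨fun a b => ?_⟩
    rw [toBilin'_apply', toBilin'_apply', hsy]
    rfl
  obtain ⟨e, he⟩ := LinearMap.BilinForm.exists_orthogonal_basis (B := Matrix.toBilin' Q) hsymm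
  have hnd : (Matrix.toBilin' Q).Nondegenerate :=
    (LinearMap.BilinForm.nondegenerate_toBilin'_iff_det_ne_zero).2 hd
  have hne : ∀ i, dotProduct (e i) (Q.mulVec (e i)) ≠ 0 := by
    intro i
    have h1 := LinearMap.IsOrthoᵢ.not_isOrtho_basis_self_of_separatingLeft he hnd.1 i
    rwa [toBilin'_apply'] at h1
  have hor : ∀ i j, i ≠ j → dotProduct (e i) (Q.mulVec (e j)) = 0 := by
    intro i j hij
    have h1 := he hij
    rw [← toBilin'_apply']
    exact h1
  have hfr : Module.finrank ℂ (ι → ℂ) = Fintype.card ι := by simp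
  -- normalise
  have hsqr : ∀ i, ∃ s : ℂ, s * s = (dotProduct (e i) (Q.mulVec (e i)))⁻¹ := by
    intro i
    obtain ⟨s, hs⟩ := IsAlgClosed.exists_pow_nat_eq
      ((dotProduct (e i) (Q.mulVec (e i)))⁻¹) (n := 2) (by norm_num)
    exact ⟨s, by rw [← hs]; ring⟩
  choose s hs using hsqr
  set f : Fin (Module.finrank ℂ (ι → ℂ)) → ι → ℂ := fun i => s i • e i with hf
  have hff : ∀ i j, dotProduct (f i) (Q.mulVec (f j)) = if i = j then 1 else 0 := by
    intro i j
    simp only [hf, mulVec_smul, dotProduct_smul, smul_dotProduct, smul_eq_mul]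
    by_cases hij : i = j
    · subst hij
      rw [if_pos rfl, ← mul_assoc, hs i, inv_mul_cancel₀ (hne i)]
    · rw [if_neg hij, hor i j hij, mul_zero, mul_zero]
  set i1 : Fin (Module.finrank ℂ (ι → ℂ)) := ⟨0, by omega⟩
  set i2 : Fin (Module.finrank ℂ (ι → ℂ)) := ⟨1, by omega⟩
  set i3 : Fin (Module.finrank ℂ (ι → ℂ)) := ⟨2, by omega⟩
  have h12 : i1 ≠ i2 := by simp [i1, i2]
  have h13 : i1 ≠ i3 := by simp [i1, i3]
  have h23 : i2 ≠ i3 := by simp [i2, i3]
  -- the vector w = (3 f1 + 4 f3) / 5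
  set w : ι → ℂ := (3 / 5 : ℂ) • f i1 + (4 / 5 : ℂ) • f i3 with hw
  have hww : dotProduct w (Q.mulVec w) = 1 := by
    rw [hw]
    simp only [mulVec_add, mulVec_smul, dotProduct_add, add_dotProduct, dotProduct_smul,
      smul_dotProduct, smul_eq_mul, hff, if_neg h13, if_neg h13.symm, if_true]
    norm_num
  refine ⟨(1 - (2 : ℂ) • pr Q (f i1)) * (1 - (2 : ℂ) • pr Q (f i2)),
    (1 - (2 : ℂ) • pr Q (f i1)) * (1 - (2 : ℂ) • pr Q w), ?_, ?_, ?_, ?_, ?_⟩
  · have h1 := refl_iso Q hQ (f i1) (Or.inr (by rw [hff]; simp))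
    have h2 := refl_iso Q hQ (f i2) (Or.inr (by rw [hff]; simp))
    unfold Iso at h1 h2 ⊢
    rw [transpose_mul, Matrix.mul_assoc, Matrix.mul_assoc, ← Matrix.mul_assoc Q,
      ← Matrix.mul_assoc (1 - (2 : ℂ) • pr Q (f i1)).transpose,
      ← Matrix.mul_assoc (1 - (2 : ℂ) • pr Q (f i1)).transpose, h1, ← Matrix.mul_assoc, h2]
  · rw [det_mul, refl_det Q _ (by rw [hff]; simp), refl_det Q _ (by rw [hff]; simp)]
    norm_num
  · have h1 := refl_iso Q hQ (f i1) (Or.inr (by rw [hff]; simp))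
    have h2 := refl_iso Q hQ w (Or.inr hww)
    unfold Iso at h1 h2 ⊢
    rw [transpose_mul, Matrix.mul_assoc, Matrix.mul_assoc, ← Matrix.mul_assoc Q,
      ← Matrix.mul_assoc (1 - (2 : ℂ) • pr Q (f i1)).transpose,
      ← Matrix.mul_assoc (1 - (2 : ℂ) • pr Q (f i1)).transpose, h1, ← Matrix.mul_assoc, h2]
  · rw [det_mul, refl_det Q _ (by rw [hff]; simp), refl_det Q _ hww]
    norm_num
  · intro hc
    have hdc : ∀ a b : ι → ℂ, dotProduct (Q.mulVec a) b = dotProduct a (Q.mulVec b) := by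
      intro a b
      rw [dotProduct_comm, hsy]
    have h1 := congrArg (fun M : Matrix ι ι ℂ => dotProduct (f i1) (Q.mulVec (M.mulVec (f i3)))) hc
    simp only [← mulVec_mulVec, refl_act, hdc] at h1
    simp only [hw, mulVec_add, mulVec_smul, mulVec_sub, dotProduct_add, add_dotProduct,
      dotProduct_smul, smul_dotProduct, dotProduct_sub, sub_dotProduct, smul_eq_mul, hff,
      if_neg h13, if_neg h13.symm, if_neg h12, if_neg h12.symm, if_neg h23, if_neg h23.symm,
      if_true] at h1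
    norm_num at h1

lemma ev_mul {σ : Type} (f : σ → ℂ) (A B : Matrix ι ι (MvPolynomial σ ℂ)) :
    (A * B).map (MvPolynomial.eval f) = A.map (MvPolynomial.eval f) *
      B.map (MvPolynomial.eval f) := Matrix.map_mul

lemma ev_sub {σ : Type} (f : σ → ℂ) (A B : Matrix ι ι (MvPolynomial σ ℂ)) :
    (A - B).map (MvPolynomial.eval f) = A.map (MvPolynomial.eval f) -
      B.map (MvPolynomial.eval f) := by
  ext i j
  simp only [Matrix.map_apply, Matrix.sub_apply, map_sub]

lemma ev_C {σ : Type} (f : σ → ℂ) (A : Matrix ι ι ℂ) :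
    (A.map (MvPolynomial.C (σ := σ))).map (MvPolynomial.eval f) = A := by
  ext i j
  simp

/-- The generic matrix. -/
noncomputable def gm (ι : Type) : Matrix ι ι (MvPolynomial (ι × ι) ℂ) :=
  Matrix.of fun i j => MvPolynomial.X (i, j)

lemma ev_gm (x : Matrix ι ι ℂ) : (gm ι).map (MvPolynomial.eval fun p => x p.1 p.2) = x := by
  ext i j
  simp [gm]

lemma ev_gmt (x : Matrix ι ι ℂ) :
    (gm ι).transpose.map (MvPolynomial.eval fun p => x p.1 p.2) = x.transpose := by
  ext i j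
  simp [gm]

end CMA_

open CMA_ in
theorem cma_proof (hDno : Stmt_Dno) (hZcl : Stmt_Zcl) (hFnc : Stmt_Fnc) : Stmt_Cma := by
  intro I _ _ ι _ _ q Q v hR H hH hRF k L1 L2 hk1 hk2 hi1 hi2 hfin
  have hQs := (hR k).sym
  have hQd := (hR k).det
  have hne : Nonempty (ι k) := by
    have := (hR k).card
    exact Fintype.card_pos_iff.1 (by omega)
  -- generalities on the groups
  have hsub : ∀ L : Set I, ∀ a ∈ Nk H k L, Iso (Q k) a := by
    rintro L a ⟨h, hh, rfl, _⟩
    exact hH.sub h hh k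
  have hone : ∀ L : Set I, 1 ∈ Nk H k L := fun L => ⟨1, hH.one, rfl, fun l _ => rfl⟩
  have hmul : ∀ L : Set I, ∀ a ∈ Nk H k L, ∀ b ∈ Nk H k L, a * b ∈ Nk H k L := by
    rintro L a ⟨h, hh, rfl, h1⟩ b ⟨g, hg, rfl, g1⟩
    refine ⟨h * g, hH.mul h hh g hg, rfl, fun l hl => ?_⟩
    rw [Pi.mul_apply, h1 l hl, g1 l hl, Matrix.one_mul]
  have hinv : ∀ L : Set I, ∀ a ∈ Nk H k L, ∃ b ∈ Nk H k L, a * b = 1 ∧ b * a = 1 := by
    rintro L a ⟨h, hh, rfl, h1⟩
    obtain ⟨g, hg, hg1, hg2⟩ := hH.inv h hh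
    refine ⟨g k, ⟨g, hg, rfl, fun l hl => ?_⟩, congrFun hg1 k, congrFun hg2 k⟩
    have := congrFun hg1 l
    rw [Pi.mul_apply, h1 l hl, Matrix.one_mul] at this
    exact this
  have hsj : ∀ j, (1 - (2 : ℂ) • pr (Q k) (v k j)) * (1 - (2 : ℂ) • pr (Q k) (v k j)) = 1 :=
    fun j => sq (Q k) (v k j) ((hR k).nrm j)
  have hnor : ∀ L : Set I, ∀ j, ∀ a ∈ Nk H k L,
      (1 - (2 : ℂ) • pr (Q k) (v k j)) * a * (1 - (2 : ℂ) • pr (Q k) (v k j)) ∈ Nk H k L := by
    rintro L j a ⟨h, hh, rfl, h1⟩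
    have hm : (fun k => 1 - (2 : ℂ) • pr (Q k) (v k j)) ∈ H := hRF ⟨j, rfl⟩
    refine ⟨(fun k => 1 - (2 : ℂ) • pr (Q k) (v k j)) * h *
      (fun k => 1 - (2 : ℂ) • pr (Q k) (v k j)), hH.mul _ (hH.mul _ hm _ hh) _ hm, rfl,
      fun l hl => ?_⟩
    rw [Pi.mul_apply, Pi.mul_apply, h1 l hl, Matrix.mul_one]
    exact sq (Q l) (v l j) ((hR l).nrm j)
  -- the closures contain the special orthogonal group
  have hcl : ∀ L : Set I, ¬ (Nk H k L).Finite → ∀ a, Iso (Q k) a → a.det = 1 →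
      a ∈ zcl (Q k) (Nk H k L) := by
    intro L hL
    obtain ⟨hC, hss, hsn⟩ := hZcl (ι k) (Q k) (Nk H k L) hQs hQd (hsub L) (hone L) (hmul L) (hinv L)
    refine hDno (ι k) q (Q k) (v k) (hR k) _ hC (fun hf => hL (hf.subset hss)) ?_
    intro j
    exact hsn _ (refl_iso (Q k) hQs (v k j) ((hR k).nrm j)) (hsj j) (hnor L j)
  -- inverse of an isometry
  have hinvI : ∀ a b : Matrix (ι k) (ι k) ℂ, Iso (Q k) a → a * b = 1 →
      (Q k)⁻¹ * a.transpose * Q k = b := by
    intro a b ha hab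
    have hu : IsUnit (Q k).det := isUnit_iff_ne_zero.2 hQd
    have h1 : (Q k)⁻¹ * a.transpose * Q k * a = 1 := by
      unfold Iso at ha
      rw [Matrix.mul_assoc, Matrix.mul_assoc, ← Matrix.mul_assoc a.transpose, ha,
        nonsing_inv_mul _ hu]
    calc (Q k)⁻¹ * a.transpose * Q k = (Q k)⁻¹ * a.transpose * Q k * (a * b) := by
          rw [hab, Matrix.mul_one]
      _ = ((Q k)⁻¹ * a.transpose * Q k * a) * b := by rw [← Matrix.mul_assoc]
      _ = b := by rw [h1, Matrix.one_mul]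
  -- elements of X1 commute with the special orthogonal group
  have hc1 : ∀ x ∈ Nk H k L1, ∀ y, Iso (Q k) y → y.det = 1 → x * y = y * x := by
    intro x hx y hy hyd
    obtain ⟨x', hx', hxx, hxx'⟩ := hinv L1 x hx
    set Φ : Matrix (ι k) (ι k) (MvPolynomial (ι k × ι k) ℂ) :=
      x.map MvPolynomial.C * gm (ι k) * x'.map MvPolynomial.C *
        ((Q k)⁻¹.map MvPolynomial.C * (gm (ι k)).transpose * (Q k).map MvPolynomial.C) with hΦ
    have hev : ∀ z : Matrix (ι k) (ι k) ℂ, Φ.map (MvPolynomial.eval fun p => z p.1 p.2) =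
        x * z * x' * ((Q k)⁻¹ * z.transpose * Q k) := by
      intro z
      rw [hΦ]
      simp only [ev_mul, ev_C, ev_gm, ev_gmt]
    have hf := hFnc (ι k) (Q k) (Nk H k L2) hQs hQd (hcl L2 hi2) (ι k × ι k)
      (fun s => Φ s.1 s.2) ((fun M : Matrix (ι k) (ι k) ℂ => fun p : ι k × ι k => M p.1 p.2) ''
        Nk H k (L1 ∪ L2)) (hfin.image _) ?_ y hy hyd
    · have h2 : Φ.map (MvPolynomial.eval fun p => y p.1 p.2) =
          Φ.map (MvPolynomial.eval fun p => (1 : Matrix (ι k) (ι k) ℂ) p.1 p.2) := by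
        ext i j
        exact hf (i, j)
      rw [hev, hev, transpose_one, Matrix.mul_one, Matrix.mul_one, hxx, Matrix.one_mul] at h2
      have hu : IsUnit (Q k).det := isUnit_iff_ne_zero.2 hQd
      rw [nonsing_inv_mul _ hu] at h2
      have hyu : IsUnit y.det := by rw [hyd]; exact isUnit_one
      rw [hinvI y y⁻¹ hy (mul_nonsing_inv _ hyu)] at h2
      calc x * y = x * y * (x' * (y⁻¹ * (y * x))) := by
            rw [← Matrix.mul_assoc y⁻¹, nonsing_inv_mul _ hyu, Matrix.one_mul, hxx',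
              Matrix.mul_one]
        _ = (x * y * x' * y⁻¹) * (y * x) := by simp only [Matrix.mul_assoc]
        _ = y * x := by rw [h2, Matrix.one_mul]
    · intro z hz
      refine ⟨x * z * x' * ((Q k)⁻¹ * z.transpose * Q k), ?_, ?_⟩
      · obtain ⟨z', hz', hzz, _⟩ := hinv L2 z hz
        rw [hinvI z z' (hsub L2 z hz) hzz]
        obtain ⟨a, ha, rfl, ha1⟩ := hx
        obtain ⟨b, hb, rfl, hb1⟩ := hz
        obtain ⟨a', ha', ha2, ha3⟩ := hH.inv a ha
        obtain ⟨b', hb', hb2, hb3⟩ := hH.inv b hb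
        have e1 : a' k = x' := by
          have h1 := congrFun ha3 k
          rw [Pi.mul_apply] at h1
          calc a' k = a' k * (a k * x') := by rw [hxx, Matrix.mul_one]
            _ = (a' k * a k) * x' := by rw [Matrix.mul_assoc]
            _ = x' := by rw [h1]; exact Matrix.one_mul _
        have e2 : b' k = z' := by
          have h1 := congrFun hb3 k
          rw [Pi.mul_apply] at h1
          calc b' k = b' k * (b k * z') := by rw [hzz, Matrix.mul_one]
            _ = (b' k * b k) * z' := by rw [Matrix.mul_assoc]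
            _ = z' := by rw [h1]; exact Matrix.one_mul _
        refine ⟨a * b * a' * b', hH.mul _ (hH.mul _ (hH.mul _ ha _ hb) _ ha') _ hb', ?_, ?_⟩
        · rw [← e1, ← e2]
          rfl
        · intro l hl
          simp only [Pi.mul_apply]
          have f1 : a l * a' l = 1 := congrFun ha2 l
          have f2 : b l * b' l = 1 := congrFun hb2 l
          rcases hl with hl | hl
          · have h1 := ha1 l hl
            rw [h1, Matrix.one_mul] at f1
            rw [h1, f1, Matrix.one_mul, Matrix.mul_one, f2]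
          · have h1 := hb1 l hl
            rw [h1, Matrix.one_mul] at f2
            rw [h1, f2, Matrix.mul_one, Matrix.mul_one, f1]
      · funext p
        have := congrFun (congrFun (hev z) p.1) p.2
        exact this.symm
  -- the special orthogonal group is commutative
  obtain ⟨x, y, hx, hxd, hy, hyd, hxy⟩ := noncomm (Q k) hQs hQd (hR k).card
  apply hxy
  have hz := hcl L1 hi1 x hx hxd
  set Ψ : Matrix (ι k) (ι k) (MvPolynomial (ι k × ι k) ℂ) :=
    gm (ι k) * y.map MvPolynomial.C - y.map MvPolynomial.C * gm (ι k) with hΨ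
  have hev : ∀ z : Matrix (ι k) (ι k) ℂ, Ψ.map (MvPolynomial.eval fun p => z p.1 p.2) =
      z * y - y * z := by
    intro z
    rw [hΨ]
    simp only [ev_sub, ev_mul, ev_C, ev_gm]
  have h0 : x * y - y * x = 0 := by
    ext i j
    have h1 := hz.2 (Ψ i j) ?_
    · have h2 := congrFun (congrFun (hev x) i) j
      rw [Matrix.map_apply] at h2
      rw [← h2]
      exact h1
    · intro z hz1
      have h2 := congrFun (congrFun (hev z) i) j
      rw [Matrix.map_apply] at h2
      rw [h2, hc1 z hz1 y hy hyd, sub_self]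
      rfl
  exact sub_eq_zero.1 h0

end Pool.Agent.EVD
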