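import Pool.Agent.EVD.Stmts

set_option autoImplicit false

open scoped BigOperators Topology
open Matrix

namespace Pool.Agent.EVD

namespace CMN_

variable {ι : Type} [Fintype ι] [DecidableEq ι]

/-- An orthonormal eigenbasis. -/
lemma basis {κ : ℕ} {A B U : Matrix ι ι ℚ} {b : ι → ℚ} {i₀ : ι} (h : Oku κ A B U b i₀) :
    ∃ (ev : ι → ℂ) (a : ι → ι → ℂ), Function.Injective ev ∧
      (∀ i, (cm A).mulVec (a i) = ev i • a i) ∧
      (∀ i j, dotProduct (a i) ((cm U).mulVec (a j)) = if i = j then 1 else 0) ∧
      (∑ i, vecMulVec (a i) ((cm U).mulVec (a i)) = 1) ∧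
      ∀ c : ℂ, (c • (1 : Matrix ι ι ℂ) + cm A).det = ∏ i, (c + ev i) := by
  obtain ⟨ev, P, hev, hP, hAP⟩ := h.eig
  have hUs : (cm U).transpose = cm U := by
    have := h.Usym
    ext i j
    have h1 := congrFun (congrFun this i) j
    simp only [cm, transpose_apply, map_apply] at h1 ⊢
    rw [h1]
  have hUA : cm U * cm A = (cm A).transpose * cm U := by
    have := congrArg (fun M : Matrix ι ι ℚ => M.map (Rat.castHom ℂ)) h.UA
    simp only [Matrix.map_mul] at this
    exact this
  have hUd : (cm U).det ≠ 0 := by
    have h1 : (cm U).det = ((U.det : ℚ) : ℂ) := by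
      have := (RingHom.map_det (Rat.castHom ℂ) U).symm
      exact this
    rw [h1]
    exact_mod_cast h.Udet
  set D : Matrix ι ι ℂ := diagonal ev with hD
  set G : Matrix ι ι ℂ := P.transpose * cm U * P with hG
  have hcomm : G * D = D * G := by
    have h1 : G * D = P.transpose * (cm U * (P * D)) := by
      simp only [hG, Matrix.mul_assoc]
    have h2 : D * G = (P * D).transpose * (cm U * P) := by
      rw [transpose_mul, hD, diagonal_transpose, hG]
      simp only [Matrix.mul_assoc]
    rw [h1, h2, ← hAP, transpose_mul]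
    rw [← Matrix.mul_assoc (cm U) (cm A) P, hUA]
    simp only [Matrix.mul_assoc]
  have hGdiag : ∀ i j, i ≠ j → G i j = 0 := by
    intro i j hij
    have h1 := congrFun (congrFun hcomm i) j
    rw [hD, mul_diagonal, diagonal_mul] at h1
    have h2 : (ev i - ev j) * G i j = 0 := by linear_combination -h1
    rcases mul_eq_zero.1 h2 with h3 | h3
    · exact absurd (hev (sub_eq_zero.1 h3)) hij
    · exact h3
  have hG2 : G = diagonal (fun i => G i i) := by
    ext i j
    by_cases hij : i = j
    · subst hij
      simp
    · rw [diagonal_apply_ne _ hij, hGdiag i j hij]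
  have hGdet : G.det ≠ 0 := by
    rw [hG, det_mul, det_mul, det_transpose]
    exact mul_ne_zero (mul_ne_zero hP hUd) hP
  have hGi : ∀ i, G i i ≠ 0 := by
    intro i hi
    apply hGdet
    rw [hG2, det_diagonal]
    exact Finset.prod_eq_zero (Finset.mem_univ i) hi
  have hs : ∀ i, ∃ s : ℂ, s * s = (G i i)⁻¹ := by
    intro i
    obtain ⟨s, hs⟩ := IsAlgClosed.exists_pow_nat_eq ((G i i)⁻¹) (n := 2) (by norm_num)
    exact ⟨s, by rw [← hs]; ring⟩
  choose s hs using hs
  set V : Matrix ι ι ℂ := P * diagonal s with hV
  have hVV : V.transpose * cm U * V = 1 := by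
    have h1 : V.transpose * cm U * V = diagonal s * G * diagonal s := by
      rw [hV, transpose_mul, diagonal_transpose, hG]
      simp only [Matrix.mul_assoc]
    rw [h1, hG2, diagonal_mul_diagonal, diagonal_mul_diagonal, ← diagonal_one]
    congr 1
    funext i
    have := hs i
    have h3 := hGi i
    calc s i * G i i * s i = (s i * s i) * G i i := by ring
      _ = 1 := by rw [this]; exact inv_mul_cancel₀ h3
  have hVV2 : V * (V.transpose * cm U) = 1 := mul_eq_one_comm.1 hVV
  have hAV : cm A * V = V * D := by
    rw [hV, ← Matrix.mul_assoc, hAP, Matrix.mul_assoc, Matrix.mul_assoc, hD,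
      diagonal_mul_diagonal, diagonal_mul_diagonal]
    congr 2
    funext i
    ring
  refine ⟨ev, fun i l => V l i, hev, ?_, ?_, ?_, ?_⟩
  · intro i
    funext l
    have h1 := congrFun (congrFun hAV l) i
    rw [hD, mul_diagonal] at h1
    simp only [mulVec, dotProduct, Pi.smul_apply, smul_eq_mul]
    rw [Matrix.mul_apply] at h1
    rw [h1]
    ring
  · intro i j
    have h1 := congrFun (congrFun hVV i) j
    rw [Matrix.mul_assoc, Matrix.mul_apply] at h1
    simp only [transpose_apply, Matrix.mul_apply, one_apply] at h1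
    simp only [dotProduct, mulVec]
    exact h1
  · ext l m
    have h1 := congrFun (congrFun hVV2 l) m
    rw [Matrix.mul_apply] at h1
    rw [Matrix.sum_apply, ← h1]
    refine Finset.sum_congr rfl fun i _ => ?_
    rw [vecMulVec_apply]
    congr 1
    rw [Matrix.mul_apply]
    simp only [mulVec, dotProduct, transpose_apply]
    refine Finset.sum_congr rfl fun n _ => ?_
    have h2 := congrFun (congrFun hUs n) m
    rw [transpose_apply] at h2
    rw [h2]
    ring
  · intro c
    have h1 : (c • (1 : Matrix ι ι ℂ) + cm A) * P = P * diagonal (fun i => c + ev i) := by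
      have h2 : diagonal (fun i => c + ev i) = c • (1 : Matrix ι ι ℂ) + D := by
        rw [hD, smul_one_eq_diagonal, diagonal_add]
      rw [h2, Matrix.add_mul, Matrix.mul_add, hAP, Matrix.smul_mul, Matrix.mul_smul,
        Matrix.one_mul, Matrix.mul_one]
    have h3 := congrArg Matrix.det h1
    rw [det_mul, det_mul, det_diagonal, mul_comm] at h3
    exact mul_left_cancel₀ hP h3

end CMN_

open CMN_ in
theorem cmn_proof : Stmt_Cmn := by
  intro I _ _ ι _ _ κ A B U b i₀ hO e r hr hsep
  choose ev a hev hA hort htot hdet using fun k => basis (hO k)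
  classical
  set S : Finset ℂ := Finset.univ.biUnion fun k : I =>
    Finset.univ.image fun i : ι k => (-(ev k i) - e k) / r k with hS
  have hmem : ∀ z : ℂ, z ∈ S ↔ ∃ (k : I) (i : ι k), ev k i = -(e k + r k * z) := by
    intro z
    simp only [hS, Finset.mem_biUnion, Finset.mem_univ, true_and, Finset.mem_image]
    refine exists_congr fun k => exists_congr fun i => ?_
    rw [div_eq_iff (hr k)]
    constructor
    · intro h
      linear_combination -h
    · intro h
      linear_combination -h
  set T : Fin S.card → ℂ := fun j => ((S.equivFin.symm j : S) : ℂ) with hT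
  have hTinj : Function.Injective T := by
    intro j l h
    exact S.equivFin.symm.injective (Subtype.ext h)
  have hTmem : ∀ j, T j ∈ S := fun j => (S.equivFin.symm j).2
  have hTsur : ∀ z ∈ S, ∃ j, T j = z := by
    intro z hz
    exact ⟨S.equivFin ⟨z, hz⟩, by simp [hT]⟩
  set x : ∀ k, Fin S.card → ι k → ℂ := fun k j =>
    if h : ∃ i : ι k, ev k i = -(e k + r k * T j) then a k h.choose else 0 with hx
  have hx1 : ∀ k j (i : ι k), ev k i = -(e k + r k * T j) → x k j = a k i := by
    intro k j i hi
    have h : ∃ i : ι k, ev k i = -(e k + r k * T j) := ⟨i, hi⟩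
    have h2 : h.choose = i := hev k (h.choose_spec.trans hi.symm)
    simp only [hx, dif_pos h, h2]
  have hx2 : ∀ k j, (¬ ∃ i : ι k, ev k i = -(e k + r k * T j)) → x k j = 0 := by
    intro k j h
    simp only [hx, dif_neg h]
  have ha0 : ∀ k (i : ι k), a k i ≠ 0 := by
    intro k i h
    have := hort k i i
    rw [h] at this
    simp at this
  have hxz : ∀ k j, x k j = 0 ↔ ((e k + r k * T j) • (1 : Matrix (ι k) (ι k) ℂ) +
      cm (A k)).det ≠ 0 := by
    intro k j
    rw [hdet, Finset.prod_ne_zero_iff]
    constructor
    · intro h i _ h2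
      have h3 : ev k i = -(e k + r k * T j) := by linear_combination h2
      rw [hx1 k j i h3] at h
      exact ha0 k i h
    · intro h
      apply hx2
      rintro ⟨i, hi⟩
      apply h i (Finset.mem_univ i)
      rw [hi]
      ring
  refine ⟨S.card, T, x, ?_, ?_, ?_⟩
  · intro k
    refine ⟨hTinj, hr k, ?_, ?_, ?_, ?_⟩
    · intro j
      by_cases h : ∃ i : ι k, ev k i = -(e k + r k * T j)
      · obtain ⟨i, hi⟩ := h
        right
        rw [hx1 k j i hi, hort k i i, if_pos rfl]
      · exact Or.inl (hx2 k j h)
    · intro j l hjl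
      by_cases h : ∃ i : ι k, ev k i = -(e k + r k * T j)
      · by_cases h' : ∃ i : ι k, ev k i = -(e k + r k * T l)
        · obtain ⟨i, hi⟩ := h
          obtain ⟨i', hi'⟩ := h'
          rw [hx1 k j i hi, hx1 k l i' hi', hort k i i', if_neg]
          rintro rfl
          apply hjl
          apply hTinj
          have h3 : r k * T j = r k * T l := by linear_combination hi - hi'
          exact mul_left_cancel₀ (hr k) h3
        · rw [hx2 k l h', mulVec_zero, dotProduct_zero]
      · rw [hx2 k j h, zero_dotProduct]
    · intro j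
      by_cases h : ∃ i : ι k, ev k i = -(e k + r k * T j)
      · obtain ⟨i, hi⟩ := h
        rw [hx1 k j i hi, hA k i, hi]
      · rw [hx2 k j h, mulVec_zero, smul_zero]
    · rw [← htot k]
      have hz : ∀ i : ι k, ∃ j, ev k i = -(e k + r k * T j) := by
        intro i
        have h1 : (-(ev k i) - e k) / r k ∈ S := by
          rw [hmem]
          refine ⟨k, i, ?_⟩
          rw [mul_div_cancel₀ _ (hr k)]
          ring
        obtain ⟨j, hj⟩ := hTsur _ h1
        refine ⟨j, ?_⟩
        rw [hj, mul_div_cancel₀ _ (hr k)]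
        ring
      choose g hg using hz
      symm
      refine Fintype.sum_of_injective g ?_ _ _ ?_ ?_
      · intro i i' h
        apply hev k
        rw [hg i, hg i', h]
      · intro j hj
        have h1 : x k j = 0 := by
          apply hx2
          rintro ⟨i, hi⟩
          apply hj
          refine ⟨i, ?_⟩
          apply hTinj
          have h3 : r k * T (g i) = r k * T j := by linear_combination hg i - hi
          exact mul_left_cancel₀ (hr k) h3
        rw [h1]
        ext l m
        simp [vecMulVec_apply]
      · intro i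
        rw [hx1 k (g i) i (hg i)]
  · intro k l hkl
    obtain ⟨z, hz⟩ := hsep k l hkl
    have hzS : z ∈ S := by
      by_contra hn
      apply hz
      have key : ∀ m : I, ((e m + r m * z) • (1 : Matrix (ι m) (ι m) ℂ) + cm (A m)).det ≠ 0 := by
        intro m
        rw [hdet, Finset.prod_ne_zero_iff]
        intro i _ h2
        apply hn
        rw [hmem]
        exact ⟨m, i, by linear_combination h2⟩
      exact ⟨fun _ => key l, fun _ => key k⟩
    obtain ⟨j, hj⟩ := hTsur z hzS
    refine ⟨j, ?_⟩
    rw [hxz, hxz, hj]
    exact hz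
  · intro j
    obtain ⟨k, i, hi⟩ := (hmem (T j)).1 (hTmem j)
    refine ⟨k, ?_⟩
    rw [hx1 k j i hi]
    exact ha0 k i

end Pool.Agent.EVD
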