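import Pool.Agent.EVD.Stmts

set_option autoImplicit false

/-!
# EVD, module CMO: the commutant of the local monodromies is scalar
-/

open scoped BigOperators Topology
open Metric Set MeasureTheory

namespace Pool.Agent.EVD

noncomputable section

namespace CMO_

lemma pr_sq {ι : Type} [Fintype ι] [DecidableEq ι] (Q : Matrix ι ι ℂ) (v : ι → ℂ)
    (h : v = 0 ∨ dotProduct v (Q.mulVec v) = 1) : pr Q v * pr Q v = pr Q v := by
  rcases h with h | h
  · subst h
    simp [pr]
  · rw [pr, Matrix.vecMulVec_mul_vecMulVec, dotProduct_comm, h, one_smul]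

/-- The coefficients of a sum of simple fractions which vanishes. -/
lemma frac {q : ℕ} (T : Fin q → ℂ) (hT : Function.Injective T) (c : Fin q → ℂ)
    (h : ∀ z, (∀ j, z ≠ T j) → ∑ j, (z - T j)⁻¹ * c j = 0) : ∀ j, c j = 0 := by
  set P : Polynomial ℂ := ∑ j, Polynomial.C (c j) *
    ∏ l ∈ Finset.univ.erase j, (Polynomial.X - Polynomial.C (T l)) with hP
  have h1 : ∀ z, (∀ j, z ≠ T j) → P.eval z = 0 := by
    intro z hz
    have h2 : P.eval z = (∏ l, (z - T l)) * ∑ j, (z - T j)⁻¹ * c j := by
      rw [hP, Polynomial.eval_finsetSum, Finset.mul_sum]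
      refine Finset.sum_congr rfl fun j _ => ?_
      rw [Polynomial.eval_mul, Polynomial.eval_C, Polynomial.eval_prod]
      simp only [Polynomial.eval_sub, Polynomial.eval_X, Polynomial.eval_C]
      rw [← Finset.mul_prod_erase Finset.univ _ (Finset.mem_univ j)]
      have hj : z - T j ≠ 0 := sub_ne_zero.2 (hz j)
      field_simp
    rw [h2, h z hz, mul_zero]
  have h3 : P = 0 := by
    apply Polynomial.eq_zero_of_infinite_isRoot
    have h4 : (Set.range T)ᶜ.Infinite := (Set.finite_range T).infinite_compl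
    refine h4.mono ?_
    intro z hz
    exact h1 z fun j hj => hz ⟨j, hj.symm⟩
  intro j
  have h5 : P.eval (T j) = c j * ∏ l ∈ Finset.univ.erase j, (T j - T l) := by
    rw [hP, Polynomial.eval_finsetSum, Finset.sum_eq_single j]
    · rw [Polynomial.eval_mul, Polynomial.eval_C, Polynomial.eval_prod]
      simp only [Polynomial.eval_sub, Polynomial.eval_X, Polynomial.eval_C]
    · intro l _ hl
      rw [Polynomial.eval_mul, Polynomial.eval_prod]
      rw [Finset.prod_eq_zero (i := j)]
      · rw [mul_zero]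
      · exact Finset.mem_erase.2 ⟨hl.symm, Finset.mem_univ _⟩
      · simp
    · intro h
      exact absurd (Finset.mem_univ j) h
  rw [h3, Polynomial.eval_zero] at h5
  have h6 : ∏ l ∈ Finset.univ.erase j, (T j - T l) ≠ 0 := by
    rw [Finset.prod_ne_zero_iff]
    intro l hl h
    exact (Finset.ne_of_mem_erase hl) (hT (sub_eq_zero.1 h)).symm
  exact (mul_eq_zero.1 h5.symm).resolve_right h6

/-- The matrix `B - κ` is invertible. -/
lemma edet {ι : Type} [Fintype ι] [DecidableEq ι] {κ : ℕ} {A B U : Matrix ι ι ℚ}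
    {b : ι → ℚ} {i₀ : ι} (h : Oku κ A B U b i₀) : (cm (Eo κ B)).det ≠ 0 := by
  have h0 : (Eo κ B).det ≠ 0 := by
    intro hd
    obtain ⟨v, hv, hv0⟩ := Matrix.exists_mulVec_eq_zero_iff.2 hd
    obtain ⟨i1, hi1⟩ := Function.ne_iff.1 hv
    obtain ⟨i, hi, him⟩ := Finset.exists_min_image (Finset.univ.filter fun i => v i ≠ 0) b
      ⟨i1, by simpa using hi1⟩
    have hvi : v i ≠ 0 := by simpa using hi
    have h1 := congrFun hv0 i
    rw [Matrix.mulVec, dotProduct, Finset.sum_eq_single i] at h1
    · rw [Eo, Matrix.sub_apply, Matrix.smul_apply, Matrix.one_apply_eq, h.Bdia, smul_eq_mul,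
        mul_one, Pi.zero_apply, mul_eq_zero] at h1
      rcases h1 with h1 | h1
      · exact h.bint i κ (by push_cast; linarith)
      · exact hvi h1
    · intro j _ hji
      by_cases hvj : v j = 0
      · rw [hvj, mul_zero]
      · rw [Eo, Matrix.sub_apply, Matrix.smul_apply, Matrix.one_apply_ne hji.symm, smul_zero,
          sub_zero]
        by_cases hB : B i j = 0
        · rw [hB, zero_mul]
        · have h2 := h.Btri i j hji.symm hB
          have h3 := him j (by simpa using hvj)
          exact absurd h2 (not_lt.2 h3)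
    · intro h
      exact absurd (Finset.mem_univ i) h
  have h3 : (cm (Eo κ B)).det = (((Eo κ B).det : ℚ) : ℂ) := by
    have := RingHom.map_det (Rat.castHom ℂ) (Eo κ B)
    rw [cm]
    exact this.symm
  rw [h3]
  exact_mod_cast h0

end CMO_

open CMO_ in
theorem cmo_proof (hCmx : Stmt_Cmx) (hCmy : Stmt_Cmy) (_hRsq : Stmt_Rsq) (_hFbe : Stmt_Fbe) :
    Stmt_Cmo := by
  intro ι _ _ κ A B U b i₀ hO e r q T x hS b0 hpos Φ hΦ v hv hL Z hZ
  obtain ⟨Y, hYd, hYc, hY⟩ := hCmx ι κ A B U b i₀ hO e r q T x hS b0 hpos Φ hΦ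
    (fun j => pr (No (cm A) (cm U) e r b0) (v j)) (fun j => pr_sq _ _ (hv j)) hL Z hZ
  have hY0 := hCmy ι κ A B U b i₀ hO e r q T x hS Y hYd hY
  set Z' := Y 0 with hZ'
  set E := cm (Eo κ B) with hE
  -- `Z = Z'`
  have hbC : b0 ∈ GPH.Cut b0 T := by
    intro i t ht h
    have h1 : (t : ℂ) * (T i - b0) = 0 := by linear_combination -h
    rcases mul_eq_zero.1 h1 with h2 | h2
    · have h3 : t = 0 := by exact_mod_cast h2
      linarith
    · exact hpos.1 i (sub_eq_zero.1 h2)
  have hZZ : Z = Z' := by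
    have h1 := hYc b0 hbC
    rw [hΦ.one, Matrix.one_mul, Matrix.mul_one, hY0 b0] at h1
    exact h1.symm
  -- `Z'` commutes with the residues
  have hF : ∀ z, (∀ j, z ≠ T j) → FB T (Ro (cm U) E x) z * Z' = Z' * FB T (Ro (cm U) E x) z := by
    intro z hz
    ext i j
    have h1 := hY z hz i j
    rw [hY0 z] at h1
    have h2 : HasDerivAt (fun z => Y z i j) 0 z := by
      have h3 : (fun z => Y z i j) = fun _ => Z' i j := by
        funext w
        rw [hY0 w]
      rw [h3]
      exact hasDerivAt_const z _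
    have h4 := h1.unique h2
    rw [Matrix.sub_apply] at h4
    exact sub_eq_zero.1 h4
  have hR : ∀ j, Ro (cm U) E x j * Z' = Z' * Ro (cm U) E x j := by
    intro j
    ext a c
    have h1 := frac T hS.inj (fun j => (Ro (cm U) E x j * Z' - Z' * Ro (cm U) E x j) a c) ?_ j
    · simp only [Matrix.sub_apply] at h1
      exact sub_eq_zero.1 h1
    · intro z hz
      have h2 := congrFun (congrFun (hF z hz) a) c
      rw [FB, Finset.sum_mul, Finset.mul_sum, Matrix.sum_apply, Matrix.sum_apply] at h2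
      simp only [Matrix.sub_apply, mul_sub]
      rw [Finset.sum_sub_distrib, sub_eq_zero]
      simp only [Matrix.smul_mul, Matrix.mul_smul, Matrix.smul_apply, smul_eq_mul] at h2
      exact h2
  have hsum : ∑ j, Ro (cm U) E x j = E := by
    simp only [Ro]
    rw [← Finset.sum_mul, hS.tot, Matrix.one_mul]
  have hEZ : E * Z' = Z' * E := by
    rw [← hsum, Finset.sum_mul, Finset.mul_sum]
    exact Finset.sum_congr rfl fun j _ => hR j
  have hEu : IsUnit E.det := isUnit_iff_ne_zero.2 (edet hO)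
  have hX : ∀ j, Matrix.vecMulVec (x j) ((cm U).mulVec (x j)) * Z' =
      Z' * Matrix.vecMulVec (x j) ((cm U).mulVec (x j)) := by
    intro j
    have h1 := hR j
    rw [Ro, Matrix.mul_assoc, hEZ, ← Matrix.mul_assoc, ← Matrix.mul_assoc] at h1
    have h2 := congrArg (fun M => M * E⁻¹) h1
    simp only [Matrix.mul_assoc, Matrix.mul_nonsing_inv _ hEu, Matrix.mul_one] at h2
    exact h2
  have hA : cm A = ∑ j, (-(e + r * T j)) • Matrix.vecMulVec (x j) ((cm U).mulVec (x j)) := by
    have h1 : cm A * ∑ j, Matrix.vecMulVec (x j) ((cm U).mulVec (x j)) = cm A := by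
      rw [hS.tot, Matrix.mul_one]
    rw [← h1, Finset.mul_sum]
    refine Finset.sum_congr rfl fun j _ => ?_
    rw [Matrix.mul_vecMulVec, hS.eig j, Matrix.smul_vecMulVec]
  have hAZ : Z' * cm A = cm A * Z' := by
    rw [hA, Finset.mul_sum, Finset.sum_mul]
    refine Finset.sum_congr rfl fun j _ => ?_
    rw [Matrix.mul_smul, Matrix.smul_mul, hX j]
  have hB : cm B = E + (κ : ℂ) • (1 : Matrix ι ι ℂ) := by
    rw [hE]
    ext i j
    simp only [cm, Eo, Matrix.map_apply, Matrix.sub_apply, Matrix.smul_apply, Matrix.add_apply,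
      Matrix.one_apply, smul_eq_mul]
    split_ifs <;> push_cast <;> ring
  have hBZ : Z' * cm B = cm B * Z' := by
    rw [hB, Matrix.mul_add, Matrix.add_mul, hEZ, Matrix.mul_smul, Matrix.smul_mul,
      Matrix.mul_one, Matrix.one_mul]
  obtain ⟨c, hc⟩ := hO.comm Z' hAZ hBZ
  exact ⟨c, by rw [hZZ, hc]⟩

end

end Pool.Agent.EVD
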