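import Pool.Agent.EVD.Stmts

set_option autoImplicit false

/-!
# EVD, module CMX: a matrix which commutes with the local monodromies gives an entire horizontal
endomorphism
-/

open scoped BigOperators Topology
open Metric Set Filter

namespace Pool.Agent.EVD

noncomputable section

namespace CMX_

open Pool.Agent.GPH (HolM Sol MSol Cut Off GenPos plog)

variable {ι : Type} [Fintype ι] [DecidableEq ι]

/-- The matrix of the commutator `Y ↦ B Y - Y B`. -/
def Lc (B : Matrix ι ι ℂ) : Matrix (ι × ι) (ι × ι) ℂ :=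
  Matrix.of fun q q' => (if q.2 = q'.2 then B q.1 q'.1 else 0) -
    (if q.1 = q'.1 then B q'.2 q.2 else 0)

lemma Lc_mulVec (B Y : Matrix ι ι ℂ) (q : ι × ι) :
    (Lc B).mulVec (fun q => Y q.1 q.2) q = (B * Y - Y * B) q.1 q.2 := by
  rw [Matrix.sub_apply, Matrix.mul_apply, Matrix.mul_apply]
  simp only [Matrix.mulVec, dotProduct, Lc, Matrix.of_apply, sub_mul, ite_mul, zero_mul,
    Finset.sum_sub_distrib, Fintype.sum_prod_type]
  congr 1
  · refine Finset.sum_congr rfl fun c _ => ?_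
    rw [Finset.sum_ite_eq]
    simp
  · rw [Finset.sum_comm]
    refine Finset.sum_congr rfl fun c _ => ?_
    rw [Finset.sum_ite_eq]
    simp [mul_comm]

lemma hasDerivAt_mul {α κ' ν : Type} [Fintype α] [Fintype κ'] [Fintype ν]
    {A : ℂ → Matrix α κ' ℂ} {A' : Matrix α κ' ℂ}
    {B : ℂ → Matrix κ' ν ℂ} {B' : Matrix κ' ν ℂ} {s : ℂ}
    (hA : ∀ i j, HasDerivAt (fun z => A z i j) (A' i j) s)
    (hB : ∀ i j, HasDerivAt (fun z => B z i j) (B' i j) s) (i : α) (j : ν) :
    HasDerivAt (fun z => (A z * B z) i j) ((A' * B s + A s * B') i j) s := by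
  have h := HasDerivAt.fun_sum (u := Finset.univ) (fun k (_ : k ∈ Finset.univ) =>
    (hA i k).mul (hB k j))
  refine (h.congr_deriv ?_).congr_of_eventuallyEq ?_
  · simp [Matrix.add_apply, Matrix.mul_apply, Finset.sum_add_distrib]
  · refine Eventually.of_forall fun z => ?_
    simp [Matrix.mul_apply]

lemma diff_mul {α κ' ν : Type} [Fintype α] [Fintype κ'] [Fintype ν] {U : Set ℂ}
    {A : ℂ → Matrix α κ' ℂ} {B : ℂ → Matrix κ' ν ℂ}
    (hA : HolM U A) (hB : HolM U B) : HolM U (fun z => A z * B z) := by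
  intro i j
  simp only [Matrix.mul_apply]
  exact DifferentiableOn.fun_sum fun k _ => (hA i k).mul (hB k j)

lemma diff_det {U : Set ℂ} {A : ℂ → Matrix ι ι ℂ} (hA : HolM U A) :
    DifferentiableOn ℂ (fun z => (A z).det) U := by
  simp only [Matrix.det_apply]
  refine DifferentiableOn.fun_sum fun σ _ => ?_
  refine DifferentiableOn.const_smul ?_ _
  exact DifferentiableOn.fun_finsetProd fun i _ => hA _ _

lemma diff_adj {U : Set ℂ} {A : ℂ → Matrix ι ι ℂ} (hA : HolM U A) :
    HolM U (fun z => (A z).adjugate) := by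
  intro i j
  simp only [Matrix.adjugate_apply]
  refine diff_det (A := fun z => (A z).updateRow j (Pi.single i 1)) ?_
  intro k l
  by_cases hk : k = j
  · subst hk
    simp only [Matrix.updateRow_self]
    exact differentiableOn_const _
  · have : (fun z => (A z).updateRow j (Pi.single i 1) k l) = fun z => A z k l := by
      funext z
      rw [Matrix.updateRow_ne hk]
    rw [this]
    exact hA k l

lemma diff_inv {U : Set ℂ} {A : ℂ → Matrix ι ι ℂ} (hA : HolM U A)
    (hd : ∀ z ∈ U, (A z).det ≠ 0) : HolM U (fun z => (A z)⁻¹) := by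
  intro i j
  have h : ∀ z ∈ U, (A z)⁻¹ i j = ((A z).det)⁻¹ * (A z).adjugate i j := by
    intro z hz
    rw [Matrix.inv_def]
    simp [Matrix.smul_apply, Ring.inverse_eq_inv']
  refine DifferentiableOn.congr ?_ h
  exact ((diff_det hA).inv hd).mul (diff_adj hA i j)

/-- The inverse of a solution. -/
lemma inv_deriv {U : Set ℂ} (hU : IsOpen U) {B Φ : ℂ → Matrix ι ι ℂ} (hs : MSol U B Φ)
    (hd : ∀ z ∈ U, (Φ z).det ≠ 0) (s : ℂ) (hsU : s ∈ U) (k j : ι) :
    HasDerivAt (fun z => (Φ z)⁻¹ k j) ((-((Φ s)⁻¹ * B s)) k j) s := by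
  have hHol : HolM U Φ := fun i j z hz => (hs z hz i j).differentiableAt.differentiableWithinAt
  have hinv := diff_inv hHol hd
  have hda : ∀ i j, HasDerivAt (fun z => (Φ z)⁻¹ i j) (deriv (fun z => (Φ z)⁻¹ i j) s) s :=
    fun i j => ((hinv i j).differentiableAt (hU.mem_nhds hsU)).hasDerivAt
  set D : Matrix ι ι ℂ := Matrix.of fun i j => deriv (fun z => (Φ z)⁻¹ i j) s with hD
  have h1 : ∀ i j, HasDerivAt (fun z => ((Φ z)⁻¹ * Φ z) i j)
      ((D * Φ s + (Φ s)⁻¹ * (B s * Φ s)) i j) s :=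
    fun i j => hasDerivAt_mul (A := fun z => (Φ z)⁻¹) (B := Φ) (fun i j => hda i j) (hs s hsU) i j
  have hunit : IsUnit (Φ s).det := isUnit_iff_ne_zero.mpr (hd s hsU)
  have h2 : D * Φ s + (Φ s)⁻¹ * (B s * Φ s) = 0 := by
    ext i j
    have h3 : HasDerivAt (fun z => ((Φ z)⁻¹ * Φ z) i j) 0 s := by
      refine (hasDerivAt_const s ((1 : Matrix ι ι ℂ) i j)).congr_of_eventuallyEq ?_
      filter_upwards [hU.mem_nhds hsU] with z hz
      rw [Matrix.nonsing_inv_mul _ (isUnit_iff_ne_zero.mpr (hd z hz))]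
    exact (h1 i j).unique h3
  have h4 : D = -((Φ s)⁻¹ * B s) := by
    have h5 : D * Φ s = -((Φ s)⁻¹ * (B s * Φ s)) := eq_neg_of_add_eq_zero_left h2
    calc D = D * Φ s * (Φ s)⁻¹ := by
          rw [Matrix.mul_assoc, Matrix.mul_nonsing_inv _ hunit, Matrix.mul_one]
      _ = -((Φ s)⁻¹ * B s) := by
          rw [h5, Matrix.neg_mul, Matrix.mul_assoc, Matrix.mul_assoc,
            Matrix.mul_nonsing_inv _ hunit, Matrix.mul_one]
  have h5 := hda k j
  have h6 : deriv (fun z => (Φ z)⁻¹ k j) s = D k j := rfl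
  rw [h6, h4] at h5
  exact h5

lemma pinv (P : Matrix ι ι ℂ) (hP : P * P = P) (a : ℂ) (ha : a ≠ 0) :
    ((1 : Matrix ι ι ℂ) + (a - 1) • P) * (1 + (a⁻¹ - 1) • P) = 1 := by
  rw [add_mul, one_mul, mul_add, mul_one]
  simp only [Matrix.smul_mul, Matrix.mul_smul, hP, smul_smul]
  have h2 : (a⁻¹ - 1) + (a - 1) + (a⁻¹ - 1) * (a - 1) = 0 := by field_simp; ring
  have : (1 : Matrix ι ι ℂ) + (a⁻¹ - 1) • P + ((a - 1) • P + ((a⁻¹ - 1) * (a - 1)) • P) =
      1 + ((a⁻¹ - 1) + (a - 1) + (a⁻¹ - 1) * (a - 1)) • P := by module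
  rw [this, h2, zero_smul, add_zero]

end CMX_

open CMX_ in
open Pool.Agent.GPH (HolM Sol MSol Cut Off GenPos plog) in
theorem cmx_proof (_hRsq : Stmt_Rsq) (hFbe : Stmt_Fbe) (hGeoC : GPH.Stmt_GeoC)
    (hExt : GPH.Stmt_Ext) : Stmt_Cmx := by
  intro ι _ _ κ A B U bb i₀ hO e r q T x hS b hG Φ hΦ Pj hPj hv Z hZ
  obtain ⟨hopen, hbCut, hstar, hoff⟩ := hGeoC q T b hG.1
  have hUt : (cm U).transpose = cm U := by
    ext i j
    have := congrFun (congrFun hO.Usym i) j
    simp only [Matrix.transpose_apply] at this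
    simp only [cm, Matrix.transpose_apply, Matrix.map_apply, this]
  have hfb := hFbe ι (cm A) (cm U) (cm (Eo κ B)) e r q T x hUt hS
  -- the form is not degenerate at the base point
  have hUdet : (cm U).det ≠ 0 := by
    have : (cm U).det = ((U.det : ℚ) : ℂ) := by
      have h := (algebraMap ℚ ℂ).map_det U
      have h' : (algebraMap ℚ ℂ).mapMatrix U = cm U := by
        ext i j
        simp [cm, RingHom.mapMatrix_apply]
      rw [h'] at h
      rw [← h]
      simp
    rw [this]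
    exact_mod_cast hO.Udet
  have hNb : (No (cm A) (cm U) e r b).det ≠ 0 := by
    unfold No
    rw [Matrix.det_mul]
    exact mul_ne_zero hUdet ((hfb.1 b).mpr fun j _ h => hG.1 j h.symm)
  have hdet : ∀ z ∈ Cut b T, (Φ z).det ≠ 0 := by
    intro z hz h0
    have h1 := congrArg Matrix.det (hΦ.iso z hz)
    rw [Matrix.det_mul, h0, mul_zero] at h1
    exact hNb h1.symm
  set BB : ℂ → Matrix ι ι ℂ := FB T (Ro (cm U) (cm (Eo κ B)) x) with hBB
  have hsol : MSol (Cut b T) BB Φ := hΦ.sol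
  -- the horizontal endomorphism
  set y : ℂ → ι × ι → ℂ := fun s q => (Φ s * (Z * (Φ s)⁻¹)) q.1 q.2 with hy
  set L : ℂ → Matrix (ι × ι) (ι × ι) ℂ := fun s => Lc (BB s) with hL
  have hBhol : HolM (Off T) BB := by
    intro k j
    have : (fun z => BB z k j) = fun z => ∑ i, (z - T i)⁻¹ * Ro (cm U) (cm (Eo κ B)) x i k j := by
      funext z
      simp [hBB, FB, Matrix.sum_apply]
    rw [this]
    refine DifferentiableOn.fun_sum fun i _ => ?_
    refine DifferentiableOn.mul ?_ (differentiableOn_const _)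
    exact DifferentiableOn.inv (differentiableOn_id.sub (differentiableOn_const _))
      fun z hz => sub_ne_zero.mpr (hz i)
  have hLhol : HolM (Off T) L := by
    intro q q'
    have : (fun z => L z q q') = fun z => (if q.2 = q'.2 then BB z q.1 q'.1 else 0) -
        (if q.1 = q'.1 then BB z q'.2 q.2 else 0) := rfl
    rw [this]
    refine DifferentiableOn.sub ?_ ?_
    · split_ifs
      · exact hBhol _ _
      · exact differentiableOn_const _
    · split_ifs
      · exact hBhol _ _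
      · exact differentiableOn_const _
  have hysol : Sol (Cut b T) L y := by
    intro s hs q
    have h1 := hasDerivAt_mul (A := fun _ => Z) (A' := 0) (B := fun z => (Φ z)⁻¹)
      (B' := -((Φ s)⁻¹ * BB s))
      (s := s) (fun i j => by simpa using hasDerivAt_const s (Z i j))
      (inv_deriv hopen hsol hdet s hs)
    have h2 := hasDerivAt_mul (A := Φ) (A' := BB s * Φ s)
      (B := fun z => Z * (Φ z)⁻¹) (B' := 0 * (Φ s)⁻¹ + Z * -((Φ s)⁻¹ * BB s))
      (s := s) (hsol s hs) h1 q.1 q.2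
    refine h2.congr_deriv ?_
    rw [hL, hy]
    simp only
    rw [Lc_mulVec]
    have h4 : BB s * Φ s * (Z * (Φ s)⁻¹) + Φ s * (0 * (Φ s)⁻¹ + Z * -((Φ s)⁻¹ * BB s)) =
        BB s * (Φ s * (Z * (Φ s)⁻¹)) - Φ s * (Z * (Φ s)⁻¹) * BB s := by
      simp only [Matrix.zero_mul, zero_add, Matrix.mul_neg, Matrix.mul_assoc, sub_eq_add_neg]
    exact congrFun (congrFun h4 q.1) q.2
  -- local single valuedness
  have hloc : ∀ i, ∃ (r : ℝ) (h : ℂ → ι × ι → ℂ), 0 < r ∧
      (∀ k, DifferentiableOn ℂ (fun z => h z k) (ball (T i) r)) ∧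
      ∀ s ∈ ball (T i) r, s ∈ Cut b T → h s = y s := by
    intro i
    obtain ⟨r, H, hr, hH, hHd, hHe⟩ := hv i
    have hdi : T i - b ≠ 0 := sub_ne_zero.mpr (hG.1 i)
    have hdn : 0 < ‖T i - b‖ := norm_pos_iff.mpr hdi
    have hmap : ∀ s ∈ ball (T i) (r * ‖T i - b‖), (s - T i) / (T i - b) ∈ ball (0 : ℂ) r := by
      intro s hs
      rw [mem_ball_zero_iff, norm_div, div_lt_iff₀ hdn]
      rwa [mem_ball, dist_eq_norm] at hs
    refine ⟨r * ‖T i - b‖, fun s q => (H ((s - T i) / (T i - b)) *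
      (Z * (H ((s - T i) / (T i - b)))⁻¹)) q.1 q.2, mul_pos hr hdn, ?_, ?_⟩
    · intro q
      have h1 : HolM (ball 0 r) (fun t => H t * (Z * (H t)⁻¹)) :=
        diff_mul hH (diff_mul (fun i j => differentiableOn_const _) (diff_inv hH hHd))
      have h2 : DifferentiableOn ℂ (fun s : ℂ => (s - T i) / (T i - b))
          (ball (T i) (r * ‖T i - b‖)) :=
        (differentiableOn_id.sub (differentiableOn_const _)).div_const _
      exact (h1 q.1 q.2).comp h2 hmap
    · intro s hs hsC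
      set t := (s - T i) / (T i - b) with ht
      have hst : s = T i + t * (T i - b) := by
        rw [ht, div_mul_cancel₀ _ hdi]
        ring
      have htu : ∀ u : ℝ, 0 ≤ u → t ≠ u := by
        intro u hu htu
        refine hsC i (1 + u) (by linarith) ?_
        rw [hst, htu]
        push_cast
        ring
      have hloc1 := (hHe t (hmap s hs) htu).2
      rw [← hst] at hloc1
      have hHi : (H t)⁻¹ * H t = 1 :=
        Matrix.nonsing_inv_mul _ (isUnit_iff_ne_zero.mpr (hHd t (hmap s hs)))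
      set P := Pj i with hP
      have hZP : Z * P = P * Z := hZ i
      set a : ℂ := Complex.exp (-(plog t) / 2) with ha
      have ha0 : a ≠ 0 := Complex.exp_ne_zero _
      have e1' : ((1 : Matrix ι ι ℂ) + (a - 1) • P) * (1 + (a⁻¹ - 1) • P) = 1 :=
        pinv P (hPj i) a ha0
      have e1 : ((1 : Matrix ι ι ℂ) + (a⁻¹ - 1) • P) * (1 + (a - 1) • P) = 1 :=
        mul_eq_one_comm.mp e1'
      have e2 : ((1 + (a⁻¹ - 1) • P) * (H t)⁻¹) * Φ s = 1 := by
        rw [hloc1, Matrix.mul_assoc, ← Matrix.mul_assoc (H t)⁻¹, hHi, Matrix.one_mul, e1]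
      have e3 : (Φ s)⁻¹ = (1 + (a⁻¹ - 1) • P) * (H t)⁻¹ :=
        Matrix.inv_eq_left_inv e2
      have e4 : Φ s * (Z * (Φ s)⁻¹) = H t * (Z * (H t)⁻¹) := by
        rw [e3, hloc1]
        have e5 : (1 + (a - 1) • P) * Z = Z * (1 + (a - 1) • P) := by
          rw [add_mul, mul_add, one_mul, mul_one, Matrix.smul_mul, Matrix.mul_smul, hZP]
        calc H t * (1 + (a - 1) • P) * (Z * ((1 + (a⁻¹ - 1) • P) * (H t)⁻¹))
            = H t * (((1 + (a - 1) • P) * Z) * ((1 + (a⁻¹ - 1) • P) * (H t)⁻¹)) := by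
              simp only [Matrix.mul_assoc]
          _ = H t * ((Z * ((1 + (a - 1) • P) * (1 + (a⁻¹ - 1) • P))) * (H t)⁻¹) := by
              rw [e5]; simp only [Matrix.mul_assoc]
          _ = _ := by rw [e1', Matrix.mul_one]
      funext q
      simp only [hy]
      rw [e4]
  obtain ⟨Y, hYd, hYy, hYsol⟩ := hExt q T b hG (ι × ι) L hLhol y hysol hloc
  refine ⟨fun s => Matrix.of fun i j => Y s (i, j), fun i j => hYd (i, j), ?_, ?_⟩
  · intro z hz
    have h1 : (Matrix.of fun i j => Y z (i, j)) = Φ z * (Z * (Φ z)⁻¹) := by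
      ext i j
      rw [Matrix.of_apply, hYy z hz]
    show (Matrix.of fun i j => Y z (i, j)) * Φ z = Φ z * Z
    rw [h1, Matrix.mul_assoc, Matrix.mul_assoc,
      Matrix.nonsing_inv_mul _ (isUnit_iff_ne_zero.mpr (hdet z hz)), Matrix.mul_one]
  · intro s hs i j
    have h1 := hYsol s hs (i, j)
    refine h1.congr_deriv ?_
    rw [hL]
    simp only
    exact Lc_mulVec (BB s) (Matrix.of fun i j => Y s (i, j)) (i, j)

end

end Pool.Agent.EVD
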