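import Pool.Agent.EVD.Stmts

set_option autoImplicit false

open scoped BigOperators Topology
open Metric Set Matrix Filter

namespace Pool.Agent.EVD

namespace CMY_

variable {ι : Type} [Fintype ι] [DecidableEq ι]

/-! ### Algebra of the leading coefficient -/

lemma lead {κ : ℕ} {A B U : Matrix ι ι ℚ} {b : ι → ℚ} {i₀ : ι} (hO : Oku κ A B U b i₀)
    (M : ℕ) (hM : 1 ≤ M) (c : ι → ι → ℂ)
    (h : ∀ i j, (M : ℂ) * c i j = (∑ k, cm (Eo κ B) i k * c k j) -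
      ∑ k, c i k * cm (Eo κ B) k j) : ∀ i j, c i j = 0 := by
  classical
  by_contra hne
  push Not at hne
  obtain ⟨i1, j1, h1⟩ := hne
  let S : Finset (ι × ι) := Finset.univ.filter fun p => c p.1 p.2 ≠ 0
  have hS : S.Nonempty := ⟨(i1, j1), by simp [S, h1]⟩
  obtain ⟨p, hp, hmin⟩ := Finset.exists_min_image S (fun p => b p.1) hS
  obtain ⟨i, j0⟩ := p
  have hp' : c i j0 ≠ 0 := by simpa [S] using hp
  let S2 : Finset ι := Finset.univ.filter fun j => c i j ≠ 0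
  have hS2 : S2.Nonempty := ⟨j0, by simp [S2, hp']⟩
  obtain ⟨j, hj, hmax⟩ := Finset.exists_max_image S2 b hS2
  have hj' : c i j ≠ 0 := by simpa [S2] using hj
  have e1 : ∑ k, cm (Eo κ B) i k * c k j = ((b i : ℂ) - (κ : ℂ)) * c i j := by
    rw [Finset.sum_eq_single i]
    · simp [cm, Eo, hO.Bdia]
    · intro k _ hk
      by_cases hB : B i k = 0
      · simp [cm, Eo, hB, Ne.symm hk]
      · have h2 := hO.Btri i k (Ne.symm hk) hB
        have h3 : c k j = 0 := by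
          by_contra h4
          have h5 := hmin (k, j) (by simp [S, h4])
          simp only at h5
          linarith
        rw [h3, mul_zero]
    · intro h2
      exact absurd (Finset.mem_univ i) h2
  have e2 : ∑ k, c i k * cm (Eo κ B) k j = c i j * ((b j : ℂ) - (κ : ℂ)) := by
    rw [Finset.sum_eq_single j]
    · simp [cm, Eo, hO.Bdia]
    · intro k _ hk
      by_cases hB : B k j = 0
      · simp [cm, Eo, hB, hk]
      · have h2 := hO.Btri k j hk hB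
        have h3 : c i k = 0 := by
          by_contra h4
          have h5 := hmax k (by simp [S2, h4])
          linarith
        rw [h3, zero_mul]
    · intro h2
      exact absurd (Finset.mem_univ j) h2
  have e3 := h i j
  rw [e1, e2] at e3
  have e4 : ((M : ℂ) - ((b i : ℂ) - (b j : ℂ))) * c i j = 0 := by
    linear_combination e3
  have e5 : (M : ℂ) - ((b i : ℂ) - (b j : ℂ)) = 0 := by
    rcases mul_eq_zero.1 e4 with h6 | h6
    · exact h6
    · exact absurd h6 hj'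
  have e6 : ((b i - b j : ℚ) : ℂ) = ((M : ℚ) : ℂ) := by
    push_cast
    linear_combination -e5
  have e7 : b i - b j = (M : ℚ) := by exact_mod_cast e6
  by_cases hij : i = j
  · subst hij
    rw [sub_self] at e7
    have : (M : ℚ) = 0 := e7.symm
    have h8 : M = 0 := by exact_mod_cast this
    omega
  · exact hO.bdif i j hij (M : ℤ) (by rw [e7]; push_cast; rfl)

/-! ### Weights -/

lemma weight {κ : ℕ} {A B U : Matrix ι ι ℚ} {b : ι → ℚ} {i₀ : ι} (hO : Oku κ A B U b i₀) :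
    ∀ (m : ℕ) (i j : ι), (A ^ m * Eo κ B) i j ≠ 0 → (m = 0 ∧ i = j) ∨ b j < b i + m := by
  intro m
  induction m with
  | zero =>
    intro i j h
    rw [pow_zero, one_mul] at h
    by_cases hij : i = j
    · exact Or.inl ⟨rfl, hij⟩
    · right
      have : B i j ≠ 0 := by
        intro hB
        apply h
        simp [Eo, hB, hij]
      have h2 := hO.Btri i j hij this
      push_cast
      linarith
  | succ m ih =>
    intro i j h
    right
    rw [pow_succ', Matrix.mul_assoc, Matrix.mul_apply] at h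
    obtain ⟨k, _, hk⟩ := Finset.exists_ne_zero_of_sum_ne_zero h
    have h1 : A i k ≠ 0 := left_ne_zero_of_mul hk
    have h2 : (A ^ m * Eo κ B) k j ≠ 0 := right_ne_zero_of_mul hk
    have h3 := hO.Awt i k h1
    push_cast
    rcases ih k j h2 with ⟨h4, h5⟩ | h4
    · subst h4
      subst h5
      push_cast
      linarith
    · linarith

/-! ### The iterated identity -/

lemma iter (A E L : Matrix ι ι ℂ) (ζ r : ℂ) (hζ : ζ ≠ 0)
    (h : (ζ • (1 : Matrix ι ι ℂ) + A) * L = r • E) : ∀ M : ℕ,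
    L = (∑ m ∈ Finset.range M, (r * (-1) ^ m * (ζ ^ (m + 1))⁻¹) • (A ^ m * E)) +
      ((-1) ^ M * (ζ ^ M)⁻¹) • (A ^ M * L) := by
  have h0 : L = (r * ζ⁻¹) • E - ζ⁻¹ • (A * L) := by
    have h1 : ζ • L + A * L = r • E := by
      rw [← h, Matrix.add_mul, Matrix.smul_mul, Matrix.one_mul]
    have h2 : ζ • L = r • E - A * L := by rw [← h1]; abel
    calc L = ζ⁻¹ • (ζ • L) := by rw [smul_smul, inv_mul_cancel₀ hζ, one_smul]
      _ = (r * ζ⁻¹) • E - ζ⁻¹ • (A * L) := by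
        rw [h2, smul_sub, smul_smul, mul_comm ζ⁻¹ r]
  intro M
  induction M with
  | zero => simp
  | succ M ih =>
    rw [Finset.sum_range_succ]
    conv_lhs => rw [ih]
    rw [add_assoc]
    congr 1
    conv_lhs => rw [h0]
    rw [Matrix.mul_sub, smul_sub, Matrix.mul_smul, Matrix.mul_smul, smul_smul, smul_smul,
      ← Matrix.mul_assoc, ← pow_succ, sub_eq_add_neg, ← neg_smul]
    congr 2
    · rw [pow_succ ζ M, mul_inv]
      ring
    · rw [pow_succ ζ M, mul_inv, pow_succ (-1 : ℂ) M]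
      ring

/-! ### Bounds -/

lemma FBbound {q : ℕ} (T : Fin q → ℂ) (R : Fin q → Matrix ι ι ℂ) : ∃ (K r0 : ℝ), 0 ≤ K ∧
    1 ≤ r0 ∧ ∀ s : ℂ, r0 ≤ ‖s‖ → (∀ j, s ≠ T j) ∧ ∀ i k, ‖FB T R s i k‖ ≤ K / ‖s‖ := by
  refine ⟨∑ i, ∑ k, ∑ j, 2 * ‖R j i k‖, 1 + 2 * ∑ j, ‖T j‖, by positivity,
    by linarith [Finset.sum_nonneg (fun j (_ : j ∈ Finset.univ) => norm_nonneg (T j))], ?_⟩
  intro s hs
  have hT : ∀ j, 2 * ‖T j‖ + 1 ≤ ‖s‖ := by
    intro j
    have := Finset.single_le_sum (f := fun j => ‖T j‖) (fun j _ => norm_nonneg (T j))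
      (Finset.mem_univ j)
    linarith
  have hpos : 0 < ‖s‖ := by
    have : 0 ≤ ∑ j, ‖T j‖ := Finset.sum_nonneg (fun j _ => norm_nonneg (T j))
    linarith
  have hj : ∀ j, s ≠ T j := by
    intro j h
    have := hT j
    rw [← h] at this
    linarith
  refine ⟨hj, ?_⟩
  intro i k
  have h1 : FB T R s i k = ∑ j, (s - T j)⁻¹ * R j i k := by
    simp [FB, Matrix.sum_apply]
  rw [h1]
  have h2 : ∀ j, ‖(s - T j)⁻¹ * R j i k‖ ≤ (2 * ‖R j i k‖) / ‖s‖ := by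
    intro j
    have h3 : ‖s‖ / 2 ≤ ‖s - T j‖ := by
      have := norm_sub_norm_le s (T j)
      have := hT j
      linarith [norm_nonneg (T j)]
    rw [norm_mul, norm_inv]
    have h4 : ‖s - T j‖⁻¹ ≤ 2 / ‖s‖ := by
      rw [show 2 / ‖s‖ = (‖s‖ / 2)⁻¹ by rw [inv_div]]
      exact inv_anti₀ (by positivity) h3
    calc ‖s - T j‖⁻¹ * ‖R j i k‖ ≤ 2 / ‖s‖ * ‖R j i k‖ :=
        mul_le_mul_of_nonneg_right h4 (norm_nonneg _)
      _ = (2 * ‖R j i k‖) / ‖s‖ := by ring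
  calc ‖∑ j, (s - T j)⁻¹ * R j i k‖ ≤ ∑ j, ‖(s - T j)⁻¹ * R j i k‖ := norm_sum_le _ _
    _ ≤ ∑ j, (2 * ‖R j i k‖) / ‖s‖ := Finset.sum_le_sum fun j _ => h2 j
    _ = (∑ j, 2 * ‖R j i k‖) / ‖s‖ := by rw [Finset.sum_div]
    _ ≤ (∑ i, ∑ k, ∑ j, 2 * ‖R j i k‖) / ‖s‖ := by
      apply div_le_div_of_nonneg_right _ hpos.le
      calc ∑ j, 2 * ‖R j i k‖ ≤ ∑ k, ∑ j, 2 * ‖R j i k‖ :=
          Finset.single_le_sum (f := fun k => ∑ j, 2 * ‖R j i k‖)
            (fun k _ => Finset.sum_nonneg fun j _ => by positivity) (Finset.mem_univ k)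
        _ ≤ ∑ i, ∑ k, ∑ j, 2 * ‖R j i k‖ :=
          Finset.single_le_sum (f := fun i => ∑ k, ∑ j, 2 * ‖R j i k‖)
            (fun i _ => Finset.sum_nonneg fun k _ => Finset.sum_nonneg fun j _ => by positivity)
            (Finset.mem_univ i)

lemma tm (N a δ c : ℝ) (k : ℕ) (v w : ℂ) (hN : 1 ≤ N) (hc : 0 ≤ c)
    (hv : ‖v‖ ≤ c * (N ^ k)⁻¹) (hw : w ≠ 0 → a - k ≤ -δ) :
    ‖v * w‖ * N ^ a ≤ c * ‖w‖ * N ^ (-δ) := by
  have hN0 : 0 < N := by linarith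
  by_cases h : w = 0
  · simp [h]
  · have h1 := hw h
    have h2 : (N ^ k)⁻¹ * N ^ a = N ^ (a - k) := by
      rw [Real.rpow_sub hN0, Real.rpow_natCast]
      field_simp
    have h3 : N ^ (a - k) ≤ N ^ (-δ) := Real.rpow_le_rpow_of_exponent_le hN h1
    calc ‖v * w‖ * N ^ a = ‖v‖ * ‖w‖ * N ^ a := by rw [norm_mul]
      _ ≤ (c * (N ^ k)⁻¹) * ‖w‖ * N ^ a := by gcongr
      _ = c * ‖w‖ * ((N ^ k)⁻¹ * N ^ a) := by ring
      _ = c * ‖w‖ * N ^ (a - k) := by rw [h2]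
      _ ≤ c * ‖w‖ * N ^ (-δ) := by gcongr

lemma posmin {α : Type} [Finite α] (f : α → ℝ) :
    ∃ δ : ℝ, 0 < δ ∧ δ ≤ 1 ∧ ∀ a, 0 < f a → δ ≤ f a := by
  classical
  have := Fintype.ofFinite α
  let S : Finset ℝ := insert 1 ((Finset.univ.image f).filter (fun x => 0 < x))
  have hS : S.Nonempty := ⟨1, by simp [S]⟩
  refine ⟨S.min' hS, ?_, S.min'_le 1 (by simp [S]), fun a ha => S.min'_le _ (by simp [S, ha])⟩
  have h1 := S.min'_mem hS
  rcases Finset.mem_insert.1 h1 with h2 | h2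
  · rw [h2]
    exact one_pos
  · exact (Finset.mem_filter.1 h2).2

lemma ubd (b : ι → ℚ) : ∃ M' : ℕ, ∀ i j, (b j : ℝ) - b i ≤ M' := by
  have h := (Set.finite_range (fun p : ι × ι => (b p.2 : ℝ) - b p.1)).bddAbove
  obtain ⟨x, hx⟩ := h
  refine ⟨⌈x⌉₊, fun i j => ?_⟩
  have h1 : (b j : ℝ) - b i ≤ x := hx ⟨(i, j), rfl⟩
  exact h1.trans (Nat.le_ceil x)

lemma cm_pow_mul (A E : Matrix ι ι ℚ) (m : ℕ) (i j : ι) :
    (cm A ^ m * cm E) i j = (((A ^ m * E) i j : ℚ) : ℂ) := by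
  have h1 : cm A ^ m * cm E = cm (A ^ m * E) := by
    have h2 : ∀ X Y : Matrix ι ι ℚ, cm (X * Y) = cm X * cm Y := by
      intro X Y
      ext i j
      simp [cm, Matrix.mul_apply]
    have h3 : cm (1 : Matrix ι ι ℚ) = 1 := by
      ext i j
      simp [cm, Matrix.one_apply]
      split_ifs <;> simp
    have h4 : cm (A ^ m) = cm A ^ m := by
      induction m with
      | zero => simp [h3]
      | succ m ih => rw [pow_succ, h2, ih, pow_succ]
    rw [h2, h4]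
  rw [h1]
  simp [cm]

lemma Fb1 {κ : ℕ} {A B U : Matrix ι ι ℚ} {b : ι → ℚ} {i₀ : ι} (hO : Oku κ A B U b i₀)
    (e r : ℂ) (hr : r ≠ 0) (L : ℂ → Matrix ι ι ℂ) (K r0 : ℝ) (hK : 0 ≤ K) (hr0 : 1 ≤ r0)
    (hid : ∀ s : ℂ, r0 ≤ ‖s‖ → ((e + r * s) • (1 : Matrix ι ι ℂ) + cm A) * L s =
      r • cm (Eo κ B))
    (hb : ∀ s : ℂ, r0 ≤ ‖s‖ → ∀ i k, ‖L s i k‖ ≤ K / ‖s‖) (M' : ℕ)
    (hM' : ∀ i j, (b j : ℝ) - b i ≤ M') (δ : ℝ) (hδ1 : δ ≤ 1)
    (hδ : ∀ (i j : ι) (m : Fin (M' + 1)), 0 < (b i : ℝ) - b j + m → δ ≤ (b i : ℝ) - b j + m)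
    (i j : ι) : ∃ C : ℝ, 0 ≤ C ∧ ∀ s : ℂ, max r0 (2 * ‖e‖ / ‖r‖) ≤ ‖s‖ →
      ‖s * L s i j - (if i = j then ((b i : ℂ) - κ) else 0)‖ * ‖s‖ ^ ((b j : ℝ) - b i) ≤
        C * ‖s‖ ^ (-δ) := by
  set E : Matrix ι ι ℂ := cm (Eo κ B) with hE
  set c : ℝ := 2 / ‖r‖ with hc
  have hrn : 0 < ‖r‖ := norm_pos_iff.2 hr
  have hc0 : 0 ≤ c := by positivity
  set D : ℂ := if i = j then ((b i : ℂ) - κ) else 0 with hD
  set K1 : ℝ := ∑ k, ‖(cm A ^ (M' + 1)) i k‖ * K with hK1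
  refine ⟨(∑ m ∈ Finset.range M', ((1 + ‖e‖ * c) * c ^ (m + 1)) *
      ‖(cm A ^ (m + 1) * E) i j‖) + 1 * ‖E i j - D‖ + (‖e‖ * c) * ‖E i j‖ +
      (c ^ (M' + 1) * K1) * ‖(1 : ℂ)‖, by positivity, ?_⟩
  intro s hs
  have hs0 : r0 ≤ ‖s‖ := (le_max_left _ _).trans hs
  have hs1 : 2 * ‖e‖ / ‖r‖ ≤ ‖s‖ := (le_max_right _ _).trans hs
  have hN : 1 ≤ ‖s‖ := hr0.trans hs0
  have hN0 : 0 < ‖s‖ := by linarith
  set ζ : ℂ := e + r * s with hζ
  have hζn : ‖r‖ * ‖s‖ / 2 ≤ ‖ζ‖ := by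
    have h1 : ‖r * s‖ - ‖e‖ ≤ ‖ζ‖ := by
      have h2 := norm_sub_norm_le (r * s) (-e)
      rw [norm_neg, sub_neg_eq_add, add_comm (r * s) e] at h2
      exact h2
    rw [norm_mul] at h1
    have h3 : 2 * ‖e‖ ≤ ‖r‖ * ‖s‖ := by
      rw [div_le_iff₀ hrn] at hs1
      linarith
    linarith
  have hζ0 : ζ ≠ 0 := by
    intro h
    rw [h, norm_zero] at hζn
    have : 0 < ‖r‖ * ‖s‖ := by positivity
    linarith
  have hζi : ‖ζ⁻¹‖ ≤ c * (‖s‖)⁻¹ := by
    rw [norm_inv]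
    have h1 : ‖ζ‖⁻¹ ≤ (‖r‖ * ‖s‖ / 2)⁻¹ := inv_anti₀ (by positivity) hζn
    calc ‖ζ‖⁻¹ ≤ (‖r‖ * ‖s‖ / 2)⁻¹ := h1
      _ = c * (‖s‖)⁻¹ := by rw [hc]; field_simp
  have hζp : ∀ m : ℕ, ‖(ζ ^ m)⁻¹‖ ≤ c ^ m * (‖s‖ ^ m)⁻¹ := by
    intro m
    rw [← inv_pow, norm_pow, ← inv_pow, ← mul_pow]
    exact pow_le_pow_left₀ (norm_nonneg _) hζi m
  have hsr : s * r * ζ⁻¹ = 1 - e * ζ⁻¹ := by
    have : s * r = ζ - e := by rw [hζ]; ring
    rw [this, sub_mul, mul_inv_cancel₀ hζ0]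
  have hiter := iter (cm A) E (L s) ζ r hζ0 (hid s hs0) (M' + 1)
  have hentry := congrFun (congrFun hiter i) j
  rw [Finset.sum_range_succ', Matrix.add_apply, Matrix.add_apply, Matrix.sum_apply] at hentry
  simp only [Matrix.smul_apply, smul_eq_mul, pow_zero, Matrix.one_mul, zero_add, pow_one,
    mul_one] at hentry
  set a : ℝ := (b j : ℝ) - b i with ha
  have hF : s * L s i j - D =
      (∑ m ∈ Finset.range M', (s * r * ζ⁻¹ * (-1) ^ (m + 1) * (ζ ^ (m + 1))⁻¹) *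
        (cm A ^ (m + 1) * E) i j) + 1 * (E i j - D) + (-(e * ζ⁻¹)) * E i j +
      (s * ((-1) ^ (M' + 1) * (ζ ^ (M' + 1))⁻¹) * (cm A ^ (M' + 1) * L s) i j) * 1 := by
    conv_lhs => rw [hentry]
    rw [mul_add, mul_add, Finset.mul_sum]
    have h1 : s * (r * ζ⁻¹ * E i j) = (1 - e * ζ⁻¹) * E i j := by rw [← hsr]; ring
    rw [h1]
    have h2 : ∀ m ∈ Finset.range M', s * (r * (-1) ^ (m + 1) * (ζ ^ (m + 1 + 1))⁻¹ *
        (cm A ^ (m + 1) * E) i j) = (s * r * ζ⁻¹ * (-1) ^ (m + 1) * (ζ ^ (m + 1))⁻¹) *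
        (cm A ^ (m + 1) * E) i j := by
      intro m _
      rw [pow_succ ζ (m + 1), mul_inv]
      ring
    rw [Finset.sum_congr rfl h2]
    ring
  have hone : ‖(1 : ℂ) - e * ζ⁻¹‖ ≤ 1 + ‖e‖ * c := by
    have h1 : ‖ζ⁻¹‖ ≤ c := by
      refine hζi.trans ?_
      have : (‖s‖)⁻¹ ≤ 1 := inv_le_one_of_one_le₀ hN
      nlinarith
    calc ‖(1 : ℂ) - e * ζ⁻¹‖ ≤ ‖(1 : ℂ)‖ + ‖e * ζ⁻¹‖ := norm_sub_le _ _
      _ = 1 + ‖e‖ * ‖ζ⁻¹‖ := by rw [norm_one, norm_mul]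
      _ ≤ 1 + ‖e‖ * c := by gcongr
  have hwt : ∀ m : ℕ, m < M' → (cm A ^ (m + 1) * E) i j ≠ 0 → a - ((m + 1 : ℕ) : ℝ) ≤ -δ := by
    intro m hm hne
    rw [hE, cm_pow_mul] at hne
    have h1 : (A ^ (m + 1) * Eo κ B) i j ≠ 0 := by
      intro h
      apply hne
      rw [h]
      simp
    rcases weight hO (m + 1) i j h1 with ⟨h2, _⟩ | h2
    · omega
    · have h3 : (b j : ℝ) < (b i : ℝ) + ((m + 1 : ℕ) : ℝ) := by exact_mod_cast h2
      have h4 := hδ i j ⟨m + 1, by omega⟩ (by simp only; linarith)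
      simp only at h4
      rw [ha]
      linarith
  have hE0 : E i j ≠ 0 → i = j ∨ a ≤ -δ := by
    intro hne
    by_cases hij : i = j
    · exact Or.inl hij
    · right
      have h1 : B i j ≠ 0 := by
        intro h
        apply hne
        simp [hE, cm, Eo, h, hij]
      have h2 := hO.Btri i j hij h1
      have h3 : (b j : ℝ) < (b i : ℝ) := by exact_mod_cast h2
      have h4 := hδ i j ⟨0, by omega⟩ (by simp only; push_cast; linarith)
      simp only [Nat.cast_zero] at h4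
      rw [ha]
      linarith
  have hpa : 0 ≤ ‖s‖ ^ a := Real.rpow_nonneg hN0.le _
  rw [hF]
  have t1 : ‖∑ m ∈ Finset.range M', (s * r * ζ⁻¹ * (-1) ^ (m + 1) * (ζ ^ (m + 1))⁻¹) *
        (cm A ^ (m + 1) * E) i j‖ * ‖s‖ ^ a ≤ (∑ m ∈ Finset.range M',
        ((1 + ‖e‖ * c) * c ^ (m + 1)) * ‖(cm A ^ (m + 1) * E) i j‖) * ‖s‖ ^ (-δ) := by
    calc _ ≤ (∑ m ∈ Finset.range M', ‖(s * r * ζ⁻¹ * (-1) ^ (m + 1) * (ζ ^ (m + 1))⁻¹) *
        (cm A ^ (m + 1) * E) i j‖) * ‖s‖ ^ a :=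
          mul_le_mul_of_nonneg_right (norm_sum_le _ _) hpa
      _ = ∑ m ∈ Finset.range M', ‖(s * r * ζ⁻¹ * (-1) ^ (m + 1) * (ζ ^ (m + 1))⁻¹) *
        (cm A ^ (m + 1) * E) i j‖ * ‖s‖ ^ a := Finset.sum_mul _ _ _
      _ ≤ ∑ m ∈ Finset.range M', ((1 + ‖e‖ * c) * c ^ (m + 1)) *
          ‖(cm A ^ (m + 1) * E) i j‖ * ‖s‖ ^ (-δ) := by
          apply Finset.sum_le_sum
          intro m hm
          apply tm ‖s‖ a δ _ (m + 1) _ _ hN (by positivity)
          · rw [norm_mul, norm_mul, norm_pow, norm_neg, norm_one, one_pow, mul_one, hsr]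
            calc ‖(1 : ℂ) - e * ζ⁻¹‖ * ‖(ζ ^ (m + 1))⁻¹‖ ≤ (1 + ‖e‖ * c) *
                (c ^ (m + 1) * (‖s‖ ^ (m + 1))⁻¹) := by
                  apply mul_le_mul hone (hζp (m + 1)) (norm_nonneg _) (by positivity)
              _ = (1 + ‖e‖ * c) * c ^ (m + 1) * (‖s‖ ^ (m + 1))⁻¹ := by ring
          · intro hne
            have := hwt m (Finset.mem_range.1 hm) hne
            push_cast at this ⊢
            exact this
      _ = _ := by rw [Finset.sum_mul]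
  have t2 : ‖1 * (E i j - D)‖ * ‖s‖ ^ a ≤ 1 * ‖E i j - D‖ * ‖s‖ ^ (-δ) := by
    apply tm ‖s‖ a δ 1 0 _ _ hN zero_le_one
    · simp
    · intro hne
      have h1 : i ≠ j := by
        intro h
        apply hne
        subst h
        simp [hD, hE, cm, Eo, hO.Bdia]
      have h2 : E i j ≠ 0 := by
        intro h
        apply hne
        simp [hD, h, h1]
      rcases hE0 h2 with h3 | h3
      · exact absurd h3 h1
      · simpa using h3
  have t3 : ‖(-(e * ζ⁻¹)) * E i j‖ * ‖s‖ ^ a ≤ (‖e‖ * c) * ‖E i j‖ * ‖s‖ ^ (-δ) := by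
    apply tm ‖s‖ a δ _ 1 _ _ hN (by positivity)
    · rw [norm_neg, norm_mul, pow_one]
      calc ‖e‖ * ‖ζ⁻¹‖ ≤ ‖e‖ * (c * (‖s‖)⁻¹) := by gcongr
        _ = ‖e‖ * c * (‖s‖)⁻¹ := by ring
    · intro hne
      rcases hE0 hne with h3 | h3
      · subst h3
        rw [ha]
        push_cast
        linarith
      · push_cast
        linarith
  have t4 : ‖(s * ((-1) ^ (M' + 1) * (ζ ^ (M' + 1))⁻¹) * (cm A ^ (M' + 1) * L s) i j) * 1‖ *
      ‖s‖ ^ a ≤ (c ^ (M' + 1) * K1) * ‖(1 : ℂ)‖ * ‖s‖ ^ (-δ) := by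
    apply tm ‖s‖ a δ _ (M' + 1) _ _ hN (by positivity)
    · have h1 : ‖(cm A ^ (M' + 1) * L s) i j‖ ≤ K1 * (‖s‖)⁻¹ := by
        rw [Matrix.mul_apply]
        calc ‖∑ k, (cm A ^ (M' + 1)) i k * L s k j‖ ≤
            ∑ k, ‖(cm A ^ (M' + 1)) i k * L s k j‖ := norm_sum_le _ _
          _ ≤ ∑ k, ‖(cm A ^ (M' + 1)) i k‖ * K * (‖s‖)⁻¹ := by
            apply Finset.sum_le_sum
            intro k _
            rw [norm_mul, mul_assoc]
            have := hb s hs0 k j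
            rw [div_eq_mul_inv] at this
            gcongr
          _ = K1 * (‖s‖)⁻¹ := by rw [hK1, Finset.sum_mul]
      rw [norm_mul, norm_mul, norm_mul, norm_pow, norm_neg, norm_one, one_pow, one_mul]
      calc ‖s‖ * ‖(ζ ^ (M' + 1))⁻¹‖ * ‖(cm A ^ (M' + 1) * L s) i j‖ ≤
          ‖s‖ * (c ^ (M' + 1) * (‖s‖ ^ (M' + 1))⁻¹) * (K1 * (‖s‖)⁻¹) := by
            have := hζp (M' + 1)
            gcongr
        _ = c ^ (M' + 1) * K1 * (‖s‖ ^ (M' + 1))⁻¹ * (‖s‖ * (‖s‖)⁻¹) := by ring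
        _ = c ^ (M' + 1) * K1 * (‖s‖ ^ (M' + 1))⁻¹ := by
          rw [mul_inv_cancel₀ hN0.ne', mul_one]
    · intro _
      have := hM' i j
      rw [ha]
      push_cast
      linarith
  calc _ ≤ (‖∑ m ∈ Finset.range M', (s * r * ζ⁻¹ * (-1) ^ (m + 1) * (ζ ^ (m + 1))⁻¹) *
        (cm A ^ (m + 1) * E) i j‖ + ‖1 * (E i j - D)‖ + ‖(-(e * ζ⁻¹)) * E i j‖ +
        ‖(s * ((-1) ^ (M' + 1) * (ζ ^ (M' + 1))⁻¹) * (cm A ^ (M' + 1) * L s) i j) * 1‖) *
        ‖s‖ ^ a := by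
        apply mul_le_mul_of_nonneg_right _ hpa
        refine (norm_add_le _ _).trans ?_
        gcongr
        refine (norm_add_le _ _).trans ?_
        gcongr
        exact norm_add_le _ _
    _ ≤ _ := by
      rw [add_mul, add_mul, add_mul, add_mul, add_mul, add_mul]
      linarith

lemma Fb {κ : ℕ} {A B U : Matrix ι ι ℚ} {b : ι → ℚ} {i₀ : ι} (hO : Oku κ A B U b i₀)
    (e r : ℂ) (hr : r ≠ 0) (L : ℂ → Matrix ι ι ℂ) (K r0 : ℝ) (hK : 0 ≤ K) (hr0 : 1 ≤ r0)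
    (hid : ∀ s : ℂ, r0 ≤ ‖s‖ → ((e + r * s) • (1 : Matrix ι ι ℂ) + cm A) * L s =
      r • cm (Eo κ B))
    (hb : ∀ s : ℂ, r0 ≤ ‖s‖ → ∀ i k, ‖L s i k‖ ≤ K / ‖s‖) :
    ∃ (C δ r1 : ℝ), 0 ≤ C ∧ 0 < δ ∧ r0 ≤ r1 ∧ ∀ s : ℂ, r1 ≤ ‖s‖ → ∀ i j,
      ‖s * L s i j - (if i = j then ((b i : ℂ) - κ) else 0)‖ * ‖s‖ ^ ((b j : ℝ) - b i) ≤
        C * ‖s‖ ^ (-δ) := by
  obtain ⟨M', hM'⟩ := ubd b
  obtain ⟨δ, hδ0, hδ1, hδ⟩ := posmin
    (fun p : ι × ι × Fin (M' + 1) => (b p.1 : ℝ) - b p.2.1 + ((p.2.2 : ℕ) : ℝ))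
  have hδ' : ∀ (i j : ι) (m : Fin (M' + 1)), 0 < (b i : ℝ) - b j + m →
      δ ≤ (b i : ℝ) - b j + m := fun i j m h => hδ (i, j, m) h
  have H := fun i j => Fb1 hO e r hr L K r0 hK hr0 hid hb M' hM' δ hδ1 hδ' i j
  choose C hC0 hC using H
  refine ⟨∑ i, ∑ j, C i j, δ, max r0 (2 * ‖e‖ / ‖r‖), Finset.sum_nonneg fun i _ =>
    Finset.sum_nonneg fun j _ => hC0 i j, hδ0, le_max_left _ _, ?_⟩
  intro s hs i j
  refine (hC i j s hs).trans ?_
  have h1 : C i j ≤ ∑ i, ∑ j, C i j := by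
    calc C i j ≤ ∑ j, C i j :=
        Finset.single_le_sum (f := fun j => C i j) (fun j _ => hC0 i j) (Finset.mem_univ j)
      _ ≤ ∑ i, ∑ j, C i j :=
        Finset.single_le_sum (f := fun i => ∑ j, C i j)
          (fun i _ => Finset.sum_nonneg fun j _ => hC0 i j) (Finset.mem_univ i)
  exact mul_le_mul_of_nonneg_right h1 (Real.rpow_nonneg (norm_nonneg _) _)

/-- The matrix of the adjoint system. -/
def Lad (L : Matrix ι ι ℂ) : Matrix (ι × ι) (ι × ι) ℂ := Matrix.of fun f g =>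
  (if f.2 = g.2 then L f.1 g.1 else 0) - (if f.1 = g.1 then L g.2 f.2 else 0)

lemma Lad_mulVec (L Y : Matrix ι ι ℂ) (f : ι × ι) :
    (Lad L).mulVec (fun g => Y g.1 g.2) f = (L * Y - Y * L) f.1 f.2 := by
  obtain ⟨i, j⟩ := f
  simp only [Matrix.mulVec, dotProduct, Lad, Matrix.of_apply, Matrix.sub_apply, Matrix.mul_apply,
    Fintype.sum_prod_type, sub_mul, Finset.sum_sub_distrib, ite_mul, zero_mul]
  congr 1
  · apply Finset.sum_congr rfl
    intro k _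
    rw [Finset.sum_ite_eq]
    simp
  · rw [Finset.sum_eq_single i]
    · apply Finset.sum_congr rfl
      intro l _
      simp [mul_comm]
    · intro k _ hk
      simp [Ne.symm hk]
    · intro h
      exact absurd (Finset.mem_univ i) h

lemma Lad_bound (b : ι → ℚ) (κ : ℕ) (L : Matrix ι ι ℂ) (s : ℂ) (C δ : ℝ) (hs : 1 ≤ ‖s‖)
    (hC : 0 ≤ C)
    (h : ∀ i j, ‖s * L i j - (if i = j then ((b i : ℂ) - κ) else 0)‖ *
      ‖s‖ ^ ((b j : ℝ) - b i) ≤ C * ‖s‖ ^ (-δ)) (f g : ι × ι) :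
    ‖s * Lad L f g - (if f = g then ((((b f.1 : ℝ) - b f.2) - 0 : ℝ) : ℂ) else 0)‖ *
      ‖s‖ ^ (((b g.1 : ℝ) - b g.2) - ((b f.1 : ℝ) - b f.2)) ≤ (2 * C) * ‖s‖ ^ (-δ) := by
  have hN0 : 0 < ‖s‖ := by linarith
  have hR : 0 ≤ C * ‖s‖ ^ (-δ) := mul_nonneg hC (Real.rpow_nonneg hN0.le _)
  obtain ⟨i, j⟩ := f
  obtain ⟨k, l⟩ := g
  simp only [Lad, Matrix.of_apply, Prod.mk.injEq]
  by_cases hjl : j = l
  · subst hjl
    by_cases hik : i = k
    · subst hik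
      have h1 := h i i
      have h2 := h j j
      simp only [if_true, sub_self, Real.rpow_zero, mul_one, and_self] at h1 h2 ⊢
      have h3 : s * (L i i - L j j) - (((b i : ℝ) - b j - 0 : ℝ) : ℂ) =
          (s * L i i - ((b i : ℂ) - κ)) - (s * L j j - ((b j : ℂ) - κ)) := by
        push_cast
        ring
      rw [h3]
      calc _ ≤ ‖s * L i i - ((b i : ℂ) - κ)‖ + ‖s * L j j - ((b j : ℂ) - κ)‖ := norm_sub_le _ _
        _ ≤ 2 * C * ‖s‖ ^ (-δ) := by linarith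
    · have h1 := h i k
      simp only [hik, if_false, if_true, false_and, sub_zero] at h1 ⊢
      rw [show (b k : ℝ) - b j - ((b i : ℝ) - b j) = (b k : ℝ) - b i by ring]
      linarith
  · by_cases hik : i = k
    · subst hik
      have h1 := h l j
      have hlj : ¬ l = j := fun h => hjl h.symm
      simp only [hjl, hlj, if_false, if_true, and_false, sub_zero, zero_sub, mul_neg,
        norm_neg] at h1 ⊢
      rw [show (b i : ℝ) - b l - ((b i : ℝ) - b j) = (b j : ℝ) - b l by ring]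
      linarith
    · simp only [hjl, hik, if_false, and_false, sub_zero, mul_zero, norm_zero, zero_mul]
      linarith

/-! ### Polynomials -/

lemma plim (p : Polynomial ℂ) (M : ℕ) (hp : p.natDegree ≤ M) :
    Tendsto (fun n : ℕ => p.eval (n : ℂ) / (n : ℂ) ^ M) atTop (𝓝 (p.coeff M)) := by
  have h1 : (fun n : ℕ => p.eval (n : ℂ) / (n : ℂ) ^ M) =ᶠ[atTop]
      fun n : ℕ => ∑ k ∈ Finset.range (M + 1), p.coeff k * ((n : ℂ)⁻¹) ^ (M - k) := by
    filter_upwards [eventually_gt_atTop 0] with n hn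
    have hn0 : (n : ℂ) ≠ 0 := by exact_mod_cast hn.ne'
    rw [Polynomial.eval_eq_sum_range' (Nat.lt_succ_of_le hp), Finset.sum_div]
    apply Finset.sum_congr rfl
    intro k hk
    have hk' : k ≤ M := by
      have := Finset.mem_range.1 hk
      omega
    rw [mul_div_assoc]
    congr 1
    rw [inv_pow, div_eq_iff (pow_ne_zero _ hn0), ← pow_sub_mul_pow (n : ℂ) hk', ← mul_assoc,
      inv_mul_cancel₀ (pow_ne_zero _ hn0), one_mul]
  refine Tendsto.congr' h1.symm ?_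
  have h2 : p.coeff M = ∑ k ∈ Finset.range (M + 1), p.coeff k * (if k = M then 1 else 0) := by
    simp
  rw [h2]
  apply tendsto_finsetSum
  intro k hk
  have hk' : k ≤ M := by
    have := Finset.mem_range.1 hk
    omega
  apply Tendsto.const_mul
  by_cases hkM : k = M
  · subst hkM
    simp
  · have hne : M - k ≠ 0 := by omega
    have h3 : Tendsto (fun n : ℕ => ((n : ℂ)⁻¹) ^ (M - k)) atTop (𝓝 (0 ^ (M - k))) :=
      (tendsto_inv_atTop_nhds_zero_nat (𝕜 := ℂ)).pow _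
    rw [zero_pow hne] at h3
    simpa [hkM] using h3

lemma plimd (p : Polynomial ℂ) (M : ℕ) (hM : 1 ≤ M) (hp : p.natDegree ≤ M) :
    Tendsto (fun n : ℕ => (n : ℂ) * (Polynomial.derivative p).eval (n : ℂ) / (n : ℂ) ^ M) atTop
      (𝓝 ((M : ℂ) * p.coeff M)) := by
  have h1 : (Polynomial.X * Polynomial.derivative p).natDegree ≤ M := by
    refine Polynomial.natDegree_mul_le.trans ?_
    have h2 := Polynomial.natDegree_derivative_le p
    have h3 : (Polynomial.X : Polynomial ℂ).natDegree ≤ 1 := Polynomial.natDegree_X_le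
    omega
  have h2 := plim (Polynomial.X * Polynomial.derivative p) M h1
  obtain ⟨M', rfl⟩ : ∃ M', M = M' + 1 := ⟨M - 1, by omega⟩
  rw [Polynomial.coeff_X_mul, Polynomial.coeff_derivative] at h2
  have h3 : ((M' + 1 : ℕ) : ℂ) * p.coeff (M' + 1) = p.coeff (M' + 1) * ((M' : ℂ) + 1) := by
    push_cast
    ring
  rw [h3]
  refine h2.congr fun n => ?_
  rw [Polynomial.eval_mul, Polynomial.eval_X]

lemma zL {q : ℕ} (T : Fin q → ℂ) (R : Fin q → Matrix ι ι ℂ) (i j : ι) :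
    Tendsto (fun n : ℕ => (n : ℂ) * FB T R (n : ℂ) i j) atTop (𝓝 (∑ l, R l i j)) := by
  have h1 : ∀ n : ℕ, (n : ℂ) * FB T R (n : ℂ) i j =
      ∑ l, ((n : ℂ) * ((n : ℂ) - T l)⁻¹) * R l i j := by
    intro n
    simp only [FB, Matrix.sum_apply, Matrix.smul_apply, smul_eq_mul, Finset.mul_sum]
    apply Finset.sum_congr rfl
    intro l _
    ring
  simp only [h1]
  have h2 : (∑ l, R l i j) = ∑ l, (1 : ℂ) * R l i j := by simp
  rw [h2]
  apply tendsto_finsetSum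
  intro l _
  apply Tendsto.mul_const
  have h3 : (fun n : ℕ => (n : ℂ) * ((n : ℂ) - T l)⁻¹) =ᶠ[atTop]
      fun n : ℕ => (1 - T l * (n : ℂ)⁻¹)⁻¹ := by
    filter_upwards [eventually_gt_atTop 0] with n hn
    have hn0 : (n : ℂ) ≠ 0 := by exact_mod_cast hn.ne'
    have h4 : (1 : ℂ) - T l * (n : ℂ)⁻¹ = ((n : ℂ) - T l) * (n : ℂ)⁻¹ := by
      field_simp
    rw [h4, mul_inv, inv_inv]
    ring
  refine Tendsto.congr' h3.symm ?_
  have h4 : Tendsto (fun n : ℕ => (1 : ℂ) - T l * (n : ℂ)⁻¹) atTop (𝓝 (1 - T l * 0)) :=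
    tendsto_const_nhds.sub ((tendsto_inv_atTop_nhds_zero_nat (𝕜 := ℂ)).const_mul (T l))
  have h5 := h4.inv₀ (by simp)
  simpa using h5

lemma growth (F : ℂ → ℂ) (hF : Differentiable ℂ F) (C w r1 : ℝ) (N : ℕ) (hr1 : 1 ≤ r1)
    (hw : w ≤ N) (h : ∀ s : ℂ, r1 ≤ ‖s‖ → ‖F s‖ ≤ C * ‖s‖ ^ w) :
    ∃ C' : ℝ, ∀ z, ‖F z‖ ≤ C' * (1 + ‖z‖) ^ N := by
  have h1 : BddAbove ((fun z => ‖F z‖) '' closedBall 0 r1) :=
    ((isCompact_closedBall (0 : ℂ) r1).image (hF.continuous.norm)).bddAbove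
  obtain ⟨C1, hC1⟩ := h1
  refine ⟨|C| + |C1|, fun z => ?_⟩
  have hp : 1 ≤ (1 + ‖z‖) ^ N := one_le_pow₀ (by linarith [norm_nonneg z])
  by_cases hz : r1 ≤ ‖z‖
  · have h2 := h z hz
    have hz1 : 1 ≤ ‖z‖ := hr1.trans hz
    have h3 : ‖z‖ ^ w ≤ (1 + ‖z‖) ^ N := by
      calc ‖z‖ ^ w ≤ ‖z‖ ^ (N : ℝ) := Real.rpow_le_rpow_of_exponent_le hz1 hw
        _ = ‖z‖ ^ N := Real.rpow_natCast _ _
        _ ≤ (1 + ‖z‖) ^ N := pow_le_pow_left₀ (norm_nonneg _) (by linarith) N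
    calc ‖F z‖ ≤ C * ‖z‖ ^ w := h2
      _ ≤ |C| * ‖z‖ ^ w := mul_le_mul_of_nonneg_right (le_abs_self C)
        (Real.rpow_nonneg (norm_nonneg _) _)
      _ ≤ |C| * (1 + ‖z‖) ^ N := mul_le_mul_of_nonneg_left h3 (abs_nonneg _)
      _ ≤ (|C| + |C1|) * (1 + ‖z‖) ^ N := by
        apply mul_le_mul_of_nonneg_right _ (by positivity)
        linarith [abs_nonneg C1]
  · have h2 : ‖F z‖ ≤ C1 := hC1 ⟨z, by
      rw [mem_closedBall, dist_zero_right]
      linarith [not_le.1 hz], rfl⟩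
    calc ‖F z‖ ≤ C1 := h2
      _ ≤ |C1| := le_abs_self _
      _ ≤ (|C| + |C1|) * 1 := by linarith [abs_nonneg C]
      _ ≤ (|C| + |C1|) * (1 + ‖z‖) ^ N :=
        mul_le_mul_of_nonneg_left hp (by positivity)

end CMY_

open CMY_ in
theorem cmy_proof (hG : Stmt_Grt) (hP : Stmt_Plg) (hF : Stmt_Fbe) : Stmt_Cmy := by
  intro ι _ _ κ A B U b i₀ hO e r q T x hS Y hY hode
  classical
  set E : Matrix ι ι ℂ := cm (Eo κ B) with hE
  set R : Fin q → Matrix ι ι ℂ := Ro (cm U) E x with hR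
  have hUs : (cm U).transpose = cm U := by
    ext i j
    have := congrFun (congrFun hO.Usym i) j
    simp only [Matrix.transpose_apply] at this
    simp only [cm, Matrix.transpose_apply, Matrix.map_apply]
    rw [this]
  obtain ⟨_, hfb⟩ := hF ι (cm A) (cm U) E e r q T x hUs hS
  obtain ⟨K, r0, hK, hr0, hKb⟩ := FBbound T R
  obtain ⟨C, δ, r1, hC, hδ, hr1, hCb⟩ := Fb hO e r hS.rnz (FB T R) K r0 hK hr0
    (fun s hs => hfb s (hKb s hs).1) (fun s hs => (hKb s hs).2)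
  have hr1' : 1 ≤ r1 := hr0.trans hr1
  -- growth
  obtain ⟨C', hC'⟩ := hG (ι × ι) (fun f => (b f.1 : ℝ) - b f.2) 0 (2 * C) δ r1 hδ hr1'
    (fun s => Lad (FB T R s)) (fun s f => Y s f.1 f.2)
    (by
      intro s hs f
      rw [Lad_mulVec]
      exact hode s (hKb s (hr1.trans hs)).1 f.1 f.2)
    (by
      intro s hs f g
      exact Lad_bound b κ (FB T R s) s C δ (hr1'.trans hs) hC (hCb s hs) f g)
  obtain ⟨N, hN⟩ := ubd b
  have hpoly : ∀ i j, ∃ p : Polynomial ℂ, p.natDegree ≤ N ∧ ∀ z, Y z i j = p.eval z := by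
    intro i j
    obtain ⟨C2, hC2⟩ := growth (fun z => Y z i j) (hY i j) C' ((b i : ℝ) - b j) r1 N hr1'
      (hN j i) (fun s hs => by simpa using hC' s hs (i, j))
    exact hP _ C2 N (hY i j) hC2
  choose p hpN hp using hpoly
  have hsum : ∀ i j, ∑ l, R l i j = E i j := by
    intro i j
    have h1 : ∑ l, R l = E := by
      have h2 : ∑ l, R l = (∑ l, Matrix.vecMulVec (x l) ((cm U).mulVec (x l))) * E := by
        rw [Finset.sum_mul]
        rfl
      rw [h2, hS.tot, one_mul]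
    rw [← h1, Matrix.sum_apply]
  have hder : ∀ i j, ∀ n : ℕ, r0 ≤ ‖(n : ℂ)‖ → (Polynomial.derivative (p i j)).eval (n : ℂ) =
      (∑ k, FB T R (n : ℂ) i k * (p k j).eval (n : ℂ)) -
        ∑ k, (p i k).eval (n : ℂ) * FB T R (n : ℂ) k j := by
    intro i j n hn
    have h1 := hode (n : ℂ) (hKb _ hn).1 i j
    have h2 : HasDerivAt (fun z => Y z i j) ((Polynomial.derivative (p i j)).eval (n : ℂ))
        (n : ℂ) := by
      have h3 : (fun z => Y z i j) = fun z => (p i j).eval z := funext fun z => hp i j z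
      rw [h3]
      exact (p i j).hasDerivAt (n : ℂ)
    have h4 := h2.unique h1
    rw [h4, Matrix.sub_apply, Matrix.mul_apply, Matrix.mul_apply]
    simp only [hp]
  have hdesc : ∀ M : ℕ, (∀ i j, (p i j).natDegree ≤ M) → ∀ i j, (p i j).natDegree ≤ 0 := by
    intro M
    induction M with
    | zero => exact fun h => h
    | succ M ih =>
      intro h
      apply ih
      have hc : ∀ i j, (p i j).coeff (M + 1) = 0 := by
        apply lead hO (M + 1) (by omega) (fun i j => (p i j).coeff (M + 1))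
        intro i j
        have t1 := plimd (p i j) (M + 1) (by omega) (h i j)
        have t2 : Tendsto (fun n : ℕ => (∑ k, ((n : ℂ) * FB T R (n : ℂ) i k) *
            ((p k j).eval (n : ℂ) / (n : ℂ) ^ (M + 1))) -
            ∑ k, ((p i k).eval (n : ℂ) / (n : ℂ) ^ (M + 1)) * ((n : ℂ) * FB T R (n : ℂ) k j))
            atTop (𝓝 ((∑ k, E i k * (p k j).coeff (M + 1)) -
              ∑ k, (p i k).coeff (M + 1) * E k j)) := by
          apply Tendsto.sub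
          · apply tendsto_finsetSum
            intro k _
            rw [← hsum i k]
            exact (zL T R i k).mul (plim (p k j) (M + 1) (h k j))
          · apply tendsto_finsetSum
            intro k _
            rw [← hsum k j]
            exact (plim (p i k) (M + 1) (h i k)).mul (zL T R k j)
        refine tendsto_nhds_unique t1 (Tendsto.congr' ?_ t2)
        have hev : ∀ᶠ n : ℕ in atTop, r0 ≤ ‖(n : ℂ)‖ := by
          filter_upwards [eventually_ge_atTop ⌈r0⌉₊] with n hn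
          rw [Complex.norm_natCast]
          exact (Nat.le_ceil r0).trans (by exact_mod_cast hn)
        filter_upwards [hev] with n hn
        rw [hder i j n hn, mul_sub, sub_div, Finset.mul_sum, Finset.mul_sum, Finset.sum_div,
          Finset.sum_div]
        congr 1
        · apply Finset.sum_congr rfl
          intro k _
          ring
        · apply Finset.sum_congr rfl
          intro k _
          ring
      intro i j
      rw [Polynomial.natDegree_le_iff_coeff_eq_zero]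
      intro m hm
      rcases Nat.lt_or_ge (M + 1) m with h1 | h1
      · exact Polynomial.coeff_eq_zero_of_natDegree_lt (lt_of_le_of_lt (h i j) h1)
      · have : m = M + 1 := by omega
        rw [this]
        exact hc i j
  have hfin := hdesc N hpN
  intro z
  ext i j
  rw [hp i j z, hp i j 0, Polynomial.eq_C_of_natDegree_le_zero (hfin i j)]
  simp

end Pool.Agent.EVD
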