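import Pool.Agent.EVD.Stmts

set_option autoImplicit false
set_option linter.unusedSectionVars false

/-! CSA: a reflection at `k` which is trivial at `l`. -/

noncomputable section

namespace Pool.Agent.EVD

namespace CSA_

section
variable {ι : Type} [Fintype ι] [DecidableEq ι]

theorem pr_mulVec (Q : Matrix ι ι ℂ) (v w : ι → ℂ) :
    (pr Q v).mulVec w = (dotProduct (Q.mulVec v) w) • v := by
  funext i
  show ∑ j, (v i * (Q.mulVec v) j) * w j = (∑ j, (Q.mulVec v) j * w j) * v i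
  rw [Finset.sum_mul]
  refine Finset.sum_congr rfl fun j _ => ?_
  ring

theorem pr_mul_pr (Q : Matrix ι ι ℂ) (v : ι → ℂ) (h : dotProduct v (Q.mulVec v) = 1) :
    pr Q v * pr Q v = pr Q v := by
  unfold pr
  rw [Matrix.vecMulVec_mul_vecMulVec, dotProduct_comm, h, one_smul]

theorem refl_sq (Q : Matrix ι ι ℂ) (v : ι → ℂ)
    (h : v = 0 ∨ dotProduct v (Q.mulVec v) = 1) :
    (1 - (2 : ℂ) • pr Q v) * (1 - (2 : ℂ) • pr Q v) = 1 := by
  rcases h with h | h
  · have : pr Q v = 0 := by rw [h]; unfold pr; simp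
    rw [this]; simp
  · have h1 := pr_mul_pr Q v h
    simp only [sub_mul, mul_sub, smul_mul_assoc, mul_smul_comm, mul_one, one_mul, h1]
    module

theorem refl_iso (Q : Matrix ι ι ℂ) (hQ : Q.transpose = Q) (v : ι → ℂ)
    (h : v = 0 ∨ dotProduct v (Q.mulVec v) = 1) : Iso Q (1 - (2 : ℂ) • pr Q v) := by
  unfold Iso
  have h1 : (pr Q v).transpose * Q = Q * pr Q v := by
    unfold pr
    rw [Matrix.transpose_vecMulVec, Matrix.vecMulVec_mul, Matrix.mul_vecMulVec,
      ← Matrix.mulVec_transpose, hQ]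
  have h2 : (1 - (2 : ℂ) • pr Q v).transpose * Q = Q * (1 - (2 : ℂ) • pr Q v) := by
    rw [Matrix.transpose_sub, Matrix.transpose_one, Matrix.transpose_smul, sub_mul, mul_sub,
      one_mul, mul_one, Matrix.smul_mul, Matrix.mul_smul, h1]
  rw [h2, mul_assoc, refl_sq Q v h, mul_one]

theorem refl_det (Q : Matrix ι ι ℂ) (v : ι → ℂ) (h : dotProduct v (Q.mulVec v) = 1) :
    (1 - (2 : ℂ) • pr Q v).det = -1 := by
  have h1 : (1 - (2 : ℂ) • pr Q v) =
      1 + Matrix.replicateCol Unit ((-2 : ℂ) • v) * Matrix.replicateRow Unit (Q.mulVec v) := by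
    unfold pr
    ext i j
    simp [Matrix.mul_apply, Matrix.vecMulVec_apply, Matrix.one_apply]
    ring
  rw [h1, Matrix.det_one_add_replicateCol_mul_replicateRow, dotProduct_smul, dotProduct_comm, h]
  norm_num

theorem trace_pr (Q : Matrix ι ι ℂ) (v : ι → ℂ) :
    (pr Q v).trace = dotProduct v (Q.mulVec v) := by
  unfold pr
  rw [Matrix.trace_vecMulVec]

end

end CSA_

open CSA_ in
theorem csa_proof (hDNO : Stmt_Dno) (hZCL : Stmt_Zcl) (hFNC : Stmt_Fnc) : Stmt_Csa := by
  intro I _ _ ι _ _ q Q v hR H hH hRF k l j hkl hvk hvl hinf hfin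
  have hRk := hR k
  have hcard := hRk.card
  have hne : Nonempty (ι k) := Fintype.card_pos_iff.1 (by omega)
  set X : Set (Matrix (ι k) (ι k) ℂ) := Nk H k ∅ with hX
  have hXmem : ∀ x, x ∈ X ↔ ∃ h ∈ H, h k = x := by
    intro x
    constructor
    · rintro ⟨h, h1, h2, _⟩; exact ⟨h, h1, h2⟩
    · rintro ⟨h, h1, h2⟩; exact ⟨h, h1, h2, fun l hl => absurd hl (Set.notMem_empty l)⟩
  have hXiso : ∀ a ∈ X, Iso (Q k) a := by
    intro a ha
    obtain ⟨h, h1, rfl⟩ := (hXmem a).1 ha
    exact hH.sub h h1 k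
  have hX1 : (1 : Matrix (ι k) (ι k) ℂ) ∈ X := (hXmem 1).2 ⟨1, hH.one, rfl⟩
  have hXmul : ∀ a ∈ X, ∀ b ∈ X, a * b ∈ X := by
    intro a ha b hb
    obtain ⟨h, h1, rfl⟩ := (hXmem a).1 ha
    obtain ⟨h', h1', rfl⟩ := (hXmem b).1 hb
    exact (hXmem _).2 ⟨h * h', hH.mul h h1 h' h1', rfl⟩
  have hXinv : ∀ a ∈ X, ∃ b ∈ X, a * b = 1 ∧ b * a = 1 := by
    intro a ha
    obtain ⟨h, h1, rfl⟩ := (hXmem a).1 ha
    obtain ⟨b, hb, hb1, hb2⟩ := hH.inv h h1
    exact ⟨b k, (hXmem _).2 ⟨b, hb, rfl⟩, congrFun hb1 k, congrFun hb2 k⟩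
  obtain ⟨hz1, hz2, hz3⟩ := hZCL (ι k) (Q k) X hRk.sym hRk.det hXiso hX1 hXmul hXinv
  have hRFmem : ∀ i : Fin q, (fun k => 1 - (2 : ℂ) • pr (Q k) (v k i)) ∈ H := fun i =>
    hRF ⟨i, rfl⟩
  have hsX : ∀ i : Fin q, ∀ h ∈ X,
      (1 - (2 : ℂ) • pr (Q k) (v k i)) * h * (1 - (2 : ℂ) • pr (Q k) (v k i)) ∈ X := by
    intro i h hh
    obtain ⟨h', h1, rfl⟩ := (hXmem h).1 hh
    exact (hXmem _).2 ⟨_, hH.mul _ (hH.mul _ (hRFmem i) _ h1) _ (hRFmem i), rfl⟩
  have hSO : ∀ a, Iso (Q k) a → a.det = 1 → a ∈ zcl (Q k) X := by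
    apply hDNO (ι k) q (Q k) (v k) hRk (zcl (Q k) X) hz1
    · intro hf
      exact hinf (hf.subset hz2)
    · intro i
      exact hz3 _ (refl_iso (Q k) hRk.sym (v k i) (hRk.nrm i)) (refl_sq (Q k) (v k i) (hRk.nrm i))
        (hsX i)
  set s : Matrix (ι k) (ι k) ℂ := 1 - (2 : ℂ) • pr (Q k) (v k j) with hs
  have hss : s * s = 1 := refl_sq (Q k) (v k j) (hRk.nrm j)
  have hQu : IsUnit (Q k).det := isUnit_iff_ne_zero.2 hRk.det
  have hinviso : ∀ a, Iso (Q k) a → (Q k)⁻¹ * a.transpose * Q k * a = 1 := by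
    intro a ha
    unfold Iso at ha
    rw [mul_assoc, mul_assoc, ← mul_assoc a.transpose, ha, Matrix.nonsing_inv_mul _ hQu]
  -- the polynomial map
  let Y : Matrix (ι k) (ι k) (MvPolynomial (ι k × ι k) ℂ) :=
    Matrix.of fun i i' => MvPolynomial.X (i, i')
  let φ : ι k × ι k → MvPolynomial (ι k × ι k) ℂ := fun p =>
    (Y * (s * (Q k)⁻¹).map MvPolynomial.C * Y.transpose * (Q k).map MvPolynomial.C :
      Matrix (ι k) (ι k) (MvPolynomial (ι k × ι k) ℂ)) p.1 p.2
  have hφ : ∀ (y : Matrix (ι k) (ι k) ℂ) (p : ι k × ι k),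
      MvPolynomial.eval (fun p => y p.1 p.2) (φ p) =
        (y * (s * (Q k)⁻¹) * y.transpose * Q k) p.1 p.2 := by
    intro y p
    have hYm : Y.map (MvPolynomial.eval fun p : ι k × ι k => y p.1 p.2) = y := by
      ext i i'
      simp [Y]
    have hCm : ∀ M : Matrix (ι k) (ι k) ℂ, (M.map MvPolynomial.C).map
        (MvPolynomial.eval fun p : ι k × ι k => y p.1 p.2) = M := by
      intro M
      ext i i'
      simp
    have h1 : MvPolynomial.eval (fun p => y p.1 p.2) (φ p) =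
        ((Y * (s * (Q k)⁻¹).map MvPolynomial.C * Y.transpose * (Q k).map MvPolynomial.C :
          Matrix (ι k) (ι k) (MvPolynomial (ι k × ι k) ℂ)).map
          (MvPolynomial.eval fun p : ι k × ι k => y p.1 p.2)) p.1 p.2 := rfl
    have hYt : Y.transpose.map (MvPolynomial.eval fun p : ι k × ι k => y p.1 p.2) =
        y.transpose := by
      ext i i'
      simp [Y]
    rw [h1, Matrix.map_mul, Matrix.map_mul, Matrix.map_mul, hCm, hCm, hYm, hYt]
  have hkey := hFNC (ι k) (Q k) X hRk.sym hRk.det hSO (ι k × ι k) φ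
    ((fun (x : Matrix (ι k) (ι k) ℂ) (p : ι k × ι k) => (x * s) p.1 p.2) '' (Nk H k {l}))
    (hfin.image _) (by
      intro x hx
      obtain ⟨h, h1, rfl⟩ := (hXmem x).1 hx
      obtain ⟨b, hb, hb1, hb2⟩ := hH.inv h h1
      refine ⟨h k * s * b k * s, ⟨h * (fun k => 1 - (2 : ℂ) • pr (Q k) (v k j)) * b *
        (fun k => 1 - (2 : ℂ) • pr (Q k) (v k j)), hH.mul _ (hH.mul _ (hH.mul _ h1 _ (hRFmem j)) _
        hb) _ (hRFmem j), rfl, ?_⟩, ?_⟩
      · intro l' hl'
        rw [Set.mem_singleton_iff] at hl'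
        rw [hl']
        show h l * (1 - (2 : ℂ) • pr (Q l) (v l j)) * b l * (1 - (2 : ℂ) • pr (Q l) (v l j)) = 1
        have h2 : pr (Q l) (v l j) = 0 := by rw [hvl]; unfold pr; simp
        rw [h2, smul_zero, sub_zero, mul_one, mul_one]
        exact congrFun hb1 l
      · funext p
        show (h k * s * b k * s * s) p.1 p.2 = _
        rw [hφ]
        have h2 : (Q k)⁻¹ * (h k).transpose * Q k = b k := by
          have h3 := hinviso (h k) (hH.sub h h1 k)
          have h4 : h k * b k = 1 := congrFun hb1 k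
          calc (Q k)⁻¹ * (h k).transpose * Q k
              = (Q k)⁻¹ * (h k).transpose * Q k * (h k * b k) := by rw [h4, mul_one]
            _ = ((Q k)⁻¹ * (h k).transpose * Q k * h k) * b k := by rw [mul_assoc _ (h k) (b k)]
            _ = b k := by rw [h3, one_mul]
        rw [mul_assoc _ s s, hss, mul_one, ← h2]
        simp only [mul_assoc])
  have hcomm : ∀ a, Iso (Q k) a → a.det = 1 → a * s = s * a := by
    intro a ha hd
    have h1 : a * (s * (Q k)⁻¹) * a.transpose * Q k = s := by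
      have h2 : (1 : Matrix (ι k) (ι k) ℂ) * (s * (Q k)⁻¹) * (1 : Matrix (ι k) (ι k) ℂ).transpose *
          Q k = s := by
        rw [Matrix.transpose_one, mul_one, one_mul, mul_assoc, Matrix.nonsing_inv_mul _ hQu, mul_one]
      ext i i'
      have h3 := hkey a ha hd (i, i')
      rw [hφ, hφ, h2] at h3
      exact h3
    have h4 : a * (s * (Q k)⁻¹) * a.transpose * Q k * a = a * s := by
      have h5 := hinviso a ha
      calc a * (s * (Q k)⁻¹) * a.transpose * Q k * a
          = a * s * ((Q k)⁻¹ * a.transpose * Q k * a) := by simp only [mul_assoc]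
        _ = a * s := by rw [h5, mul_one]
    rw [← h4, h1]
  have hvj : dotProduct (v k j) ((Q k).mulVec (v k j)) = 1 := (hRk.nrm j).resolve_left hvk
  have hpr : ∀ i : Fin q, pr (Q k) (v k j) * pr (Q k) (v k i) =
      pr (Q k) (v k i) * pr (Q k) (v k j) := by
    intro i
    by_cases hvi : v k i = 0
    · have h2 : pr (Q k) (v k i) = 0 := by rw [hvi]; unfold pr; simp
      rw [h2, mul_zero, zero_mul]
    · have hvi' := (hRk.nrm i).resolve_left hvi
      set r : Matrix (ι k) (ι k) ℂ := 1 - (2 : ℂ) • pr (Q k) (v k i) with hr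
      have hrs : Iso (Q k) (r * s) := by
        have e1 := refl_iso (Q k) hRk.sym (v k i) (hRk.nrm i)
        have e2 := refl_iso (Q k) hRk.sym (v k j) (hRk.nrm j)
        unfold Iso at e1 e2 ⊢
        rw [Matrix.transpose_mul]
        calc s.transpose * r.transpose * Q k * (r * s)
            = s.transpose * (r.transpose * Q k * r) * s := by simp only [mul_assoc]
          _ = Q k := by rw [e1, e2]
      have hd : (r * s).det = 1 := by
        rw [Matrix.det_mul, refl_det (Q k) (v k i) hvi', refl_det (Q k) (v k j) hvj]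
        norm_num
      have h1 := hcomm (r * s) hrs hd
      rw [mul_assoc, hss, mul_one, ← mul_assoc] at h1
      have h2 : r * s = s * r := by
        calc r * s = s * r * s * s := by rw [← h1]
          _ = s * r := by rw [mul_assoc, hss, mul_one]
      rw [hr, hs] at h2
      have h3 : (1 - (2 : ℂ) • pr (Q k) (v k i)) * (1 - (2 : ℂ) • pr (Q k) (v k j)) =
          1 - (2 : ℂ) • pr (Q k) (v k i) - (2 : ℂ) • pr (Q k) (v k j) +
            (4 : ℂ) • (pr (Q k) (v k i) * pr (Q k) (v k j)) := by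
        simp only [sub_mul, mul_sub, smul_mul_assoc, mul_smul_comm, mul_one, one_mul]
        module
      have h4 : (1 - (2 : ℂ) • pr (Q k) (v k j)) * (1 - (2 : ℂ) • pr (Q k) (v k i)) =
          1 - (2 : ℂ) • pr (Q k) (v k i) - (2 : ℂ) • pr (Q k) (v k j) +
            (4 : ℂ) • (pr (Q k) (v k j) * pr (Q k) (v k i)) := by
        simp only [sub_mul, mul_sub, smul_mul_assoc, mul_smul_comm, mul_one, one_mul]
        module
      rw [h3, h4] at h2
      have h5 := add_left_cancel h2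
      have h6 := smul_right_injective (Matrix (ι k) (ι k) ℂ) (by norm_num : (4 : ℂ) ≠ 0) h5
      exact h6.symm
  obtain ⟨c, hc⟩ := hRk.comm (pr (Q k) (v k j)) hpr
  have h1 : (pr (Q k) (v k j)).mulVec (v k j) = v k j := by
    rw [pr_mulVec, dotProduct_comm, hvj, one_smul]
  rw [hc, Matrix.smul_mulVec, Matrix.one_mulVec] at h1
  have hc1 : c = 1 := by
    obtain ⟨i, hi⟩ := Function.ne_iff.1 hvk
    have h2 := congrFun h1 i
    rw [Pi.smul_apply, smul_eq_mul] at h2
    have h3 : (c - 1) * v k j i = 0 := by linear_combination h2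
    rcases mul_eq_zero.1 h3 with h4 | h4
    · exact sub_eq_zero.1 h4
    · exact absurd h4 hi
  have h2 := trace_pr (Q k) (v k j)
  rw [hc, hvj, hc1, one_smul, Matrix.trace_one] at h2
  have h3 : Fintype.card (ι k) = 1 := by exact_mod_cast h2
  omega

end Pool.Agent.EVD
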