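import Pool.Agent.EVD.Stmts

set_option autoImplicit false

/-!
# EVD, module DEN: denominators in one variable
-/

open scoped BigOperators
open Finset

namespace Pool.Agent.EVD

namespace DEN_

open Pool.Agent.DGP (IsZ)

theorem isZ_mul {x y : ℚ} (hx : IsZ x) (hy : IsZ y) : IsZ (x * y) := by
  obtain ⟨a, rfl⟩ := hx
  obtain ⟨b, rfl⟩ := hy
  exact ⟨a * b, by push_cast; ring⟩

theorem isZ_sum {ι : Type} (s : Finset ι) (g : ι → ℚ) (h : ∀ i ∈ s, IsZ (g i)) :
    IsZ (∑ i ∈ s, g i) := by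
  classical
  induction s using Finset.induction_on with
  | empty => exact ⟨0, by simp⟩
  | insert a s ha ih =>
    rw [Finset.sum_insert ha]
    obtain ⟨x, hx⟩ := h a (Finset.mem_insert_self _ _)
    obtain ⟨y, hy⟩ := ih fun i hi => h i (Finset.mem_insert_of_mem hi)
    exact ⟨x + y, by rw [hx, hy]; push_cast; ring⟩

theorem isZ_neg_one_pow (l : ℕ) : IsZ ((-1 : ℚ) ^ l) := ⟨(-1) ^ l, by push_cast; rfl⟩

theorem isZ_div_of_dvd {a b : ℕ} (hb : b ≠ 0) (h : b ∣ a) : IsZ ((a : ℚ) / b) := by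
  obtain ⟨c, rfl⟩ := h
  refine ⟨c, ?_⟩
  have : (b : ℚ) ≠ 0 := by exact_mod_cast hb
  push_cast
  field_simp

theorem choose_dvd_lcm (l m N : ℕ) (hm : m ≤ l) (hN : l ≤ N) :
    l.choose m ∣ (Finset.Icc 1 N).lcm id := by
  have hl0 : (Finset.Icc 1 N).lcm id ≠ 0 := by
    rw [Ne, Finset.lcm_eq_zero_iff]
    rintro ⟨x, hx, hx0⟩
    have := (Finset.mem_Icc.mp hx).1
    simp only [id] at hx0
    omega
  rw [← Nat.factorization_prime_le_iff_dvd (Nat.choose_pos hm).ne' hl0]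
  intro q hq
  have h1 : (l.choose m).factorization q ≤ Nat.log q l := Nat.factorization_choose_le_log
  refine h1.trans ?_
  rw [← hq.pow_dvd_iff_le_factorization hl0]
  rcases Nat.eq_zero_or_pos l with h0 | hpos
  · subst h0; simp
  · have h2 : q ^ Nat.log q l ≤ l := Nat.pow_log_le_self q hpos.ne'
    have h3 : q ^ Nat.log q l ∈ Finset.Icc 1 N :=
      Finset.mem_Icc.mpr ⟨Nat.one_le_iff_ne_zero.mpr (pow_ne_zero _ hq.ne_zero), h2.trans hN⟩
    exact Finset.dvd_lcm h3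

/-- A common denominator of a polynomial. -/
theorem exists_den (g : Polynomial ℚ) : ∃ D : ℕ, 1 ≤ D ∧ ∃ G : Polynomial ℤ,
    G.map (Int.castRingHom ℚ) = Polynomial.C (D : ℚ) * g := by
  refine ⟨∏ i ∈ Finset.range (g.natDegree + 1), (g.coeff i).den, ?_, ?_⟩
  · exact Nat.one_le_iff_ne_zero.mpr (Finset.prod_ne_zero_iff.mpr fun i _ => (g.coeff i).den_nz)
  · have : Polynomial.C ((∏ i ∈ Finset.range (g.natDegree + 1), (g.coeff i).den : ℕ) : ℚ) * g ∈
        Polynomial.lifts (Int.castRingHom ℚ) := by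
      rw [Polynomial.lifts_iff_coeff_lifts]
      intro n
      rw [Polynomial.coeff_C_mul]
      by_cases hn : n ≤ g.natDegree
      · have hmem : n ∈ Finset.range (g.natDegree + 1) := Finset.mem_range.mpr (by omega)
        rw [← Finset.mul_prod_erase _ _ hmem]
        refine ⟨((∏ i ∈ (Finset.range (g.natDegree + 1)).erase n, (g.coeff i).den : ℕ) : ℤ) *
          (g.coeff n).num, ?_⟩
        have h1 : (g.coeff n) * ((g.coeff n).den : ℚ) = ((g.coeff n).num : ℚ) :=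
          Rat.mul_den_eq_num _
        simp only [eq_intCast]
        push_cast
        rw [← h1]
        ring
      · rw [Polynomial.coeff_eq_zero_of_natDegree_lt (by omega)]
        exact ⟨0, by simp⟩
    obtain ⟨G, hG⟩ := (Polynomial.mem_lifts _).mp this
    exact ⟨G, hG⟩

theorem coeff_isZ (g : Polynomial ℚ) (D : ℕ) (G : Polynomial ℤ)
    (hG : G.map (Int.castRingHom ℚ) = Polynomial.C (D : ℚ) * g) (i l N : ℕ) :
    IsZ ((D : ℚ) ^ l * (Polynomial.X ^ i * g ^ l).coeff N) := by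
  have h : Polynomial.C ((D : ℚ) ^ l) * (Polynomial.X ^ i * g ^ l) =
      (Polynomial.X ^ i * G ^ l).map (Int.castRingHom ℚ) := by
    rw [Polynomial.map_mul, Polynomial.map_pow, Polynomial.map_pow, Polynomial.map_X, hG,
      mul_pow, ← Polynomial.C_pow]
    ring
  rw [← Polynomial.coeff_C_mul, h, Polynomial.coeff_map]
  exact ⟨(Polynomial.X ^ i * G ^ l).coeff N, eq_intCast _ _⟩

theorem term_isZ (hA : Stmt_Arp) (p D m r i' : ℕ) (hp : 2 ≤ p) (hD : 1 ≤ D)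
    (hl : m + r ≤ p * (m + 1)) (co : ℚ) (hco : IsZ ((D : ℚ) ^ (m + r) * co)) :
    IsZ ((((Finset.Icc 1 ((p ^ 2 * D) ^ p * (m + 1))).lcm id : ℕ) : ℚ) *
      (((p ^ 2 * D) ^ p : ℕ) : ℚ) ^ (m + 1) * (m.factorial : ℚ) *
      ((-1 : ℚ) ^ (m + r) * poch (((i' : ℕ) + 1 : ℚ) / p) r / ((m + r).factorial : ℚ) * co)) := by
  have h1 := hA ((i' : ℤ) + 1) p r (by omega)
  have h1' : IsZ ((p : ℚ) ^ (2 * r) * poch (((i' : ℕ) + 1 : ℚ) / p) r / (r.factorial : ℚ)) := by
    have e : (((i' : ℤ) + 1 : ℤ) : ℚ) = ((i' : ℕ) + 1 : ℚ) := by push_cast; rfl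
    rw [e] at h1
    exact h1
  have hch : (m + r).choose m ≠ 0 := (Nat.choose_pos (by omega)).ne'
  have hple : p ≤ (p ^ 2 * D) ^ p := by
    have h2 : p ≤ p ^ 2 * D := by nlinarith
    have h3 : p ^ 2 * D ≤ (p ^ 2 * D) ^ p := Nat.le_self_pow (by omega) _
    omega
  have h2 : IsZ ((((Finset.Icc 1 ((p ^ 2 * D) ^ p * (m + 1))).lcm id : ℕ) : ℚ) /
      ((m + r).choose m : ℕ)) :=
    isZ_div_of_dvd hch (choose_dvd_lcm _ _ _ (by omega)
      (hl.trans (Nat.mul_le_mul_right _ hple)))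
  have h3 : IsZ (((((p ^ 2 * D) ^ p) ^ (m + 1) : ℕ) : ℚ) /
      ((p ^ (2 * r) * D ^ (m + r) : ℕ) : ℚ)) := by
    apply isZ_div_of_dvd
    · positivity
    · have e : ((p ^ 2 * D) ^ p) ^ (m + 1) = p ^ (2 * (p * (m + 1))) * D ^ (p * (m + 1)) := by
        rw [← pow_mul, mul_pow, ← pow_mul]
      rw [e]
      exact Nat.mul_dvd_mul (pow_dvd_pow _ (by omega)) (pow_dvd_pow _ hl)
  have h4 := isZ_mul (isZ_mul (isZ_mul (isZ_mul (isZ_neg_one_pow (m + r)) h2) h3) h1') hco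
  have e1 : ((m + r).factorial : ℚ) =
      ((m + r).choose m : ℕ) * (m.factorial : ℚ) * (r.factorial : ℚ) := by
    have := Nat.choose_mul_factorial_mul_factorial (n := m + r) (k := m) (by omega)
    rw [Nat.add_sub_cancel_left] at this
    rw [← this]
    push_cast
    ring
  have hr0 : (r.factorial : ℚ) ≠ 0 := by exact_mod_cast r.factorial_ne_zero
  have hm0 : (m.factorial : ℚ) ≠ 0 := by exact_mod_cast m.factorial_ne_zero
  have hc0 : (((m + r).choose m : ℕ) : ℚ) ≠ 0 := by exact_mod_cast hch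
  have hp0 : (p : ℚ) ^ (2 * r) ≠ 0 := by
    have : (p : ℚ) ≠ 0 := by
      have : p ≠ 0 := by omega
      exact_mod_cast this
    exact pow_ne_zero _ this
  have hD0 : (D : ℚ) ^ (m + r) ≠ 0 := by
    have : (D : ℚ) ≠ 0 := by
      have : D ≠ 0 := by omega
      exact_mod_cast this
    exact pow_ne_zero _ this
  have e2 : (((p ^ (2 * r) * D ^ (m + r) : ℕ)) : ℚ) = (p : ℚ) ^ (2 * r) * (D : ℚ) ^ (m + r) := by
    push_cast; rfl
  have e3 : (((((p ^ 2 * D) ^ p) ^ (m + 1) : ℕ)) : ℚ) = (((p ^ 2 * D) ^ p : ℕ) : ℚ) ^ (m + 1) := by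
    rw [Nat.cast_pow]
  rw [e2, e3] at h4
  rw [e1]
  generalize (((Finset.Icc 1 ((p ^ 2 * D) ^ p * (m + 1))).lcm id : ℕ) : ℚ) = L at *
  generalize (((p ^ 2 * D) ^ p : ℕ) : ℚ) ^ (m + 1) = Cm at *
  generalize poch (((i' : ℕ) + 1 : ℚ) / p) r = P at *
  generalize (((m + r).choose m : ℕ) : ℚ) = ch at *
  generalize (m.factorial : ℚ) = mf at *
  generalize (r.factorial : ℚ) = rf at *
  generalize (p : ℚ) ^ (2 * r) = pr at *
  generalize (D : ℚ) ^ (m + r) = Dr at *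
  generalize (-1 : ℚ) ^ (m + r) = sg at *
  have e4 : L * Cm * mf * (sg * P / (ch * mf * rf) * co) =
      sg * (L / ch) * (Cm / (pr * Dr)) * (pr * P / rf) * (Dr * co) := by
    field_simp
  rw [e4]
  exact h4

end DEN_

theorem den_proof (hA : Stmt_Arp) : Stmt_Den := by
  intro f hf
  obtain ⟨D, hD, G, hG⟩ := DEN_.exists_den (f - Polynomial.X ^ f.natDegree)
  refine ⟨(f.natDegree ^ 2 * D) ^ f.natDegree, ?_, ?_⟩
  · have : 0 < f.natDegree := by have := hf.two; omega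
    exact Nat.one_le_iff_ne_zero.mpr (by positivity)
  · intro m i j
    have hE : E1 f m i j = ∑ l ∈ Finset.Icc m (f.natDegree * (m + 1)),
      (-1 : ℚ) ^ l * poch (((j : ℕ) + 1 : ℚ) / f.natDegree) (l - m) / (l.factorial : ℚ) *
      (Polynomial.X ^ (i : ℕ) * (f - Polynomial.X ^ f.natDegree) ^ l).coeff
        ((j : ℕ) + f.natDegree * (l - m)) := rfl
    rw [hE, Finset.mul_sum]
    apply DEN_.isZ_sum
    intro l hl
    obtain ⟨h1, h2⟩ := Finset.mem_Icc.mp hl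
    obtain ⟨r, rfl⟩ := Nat.exists_eq_add_of_le h1
    rw [Nat.add_sub_cancel_left]
    exact DEN_.term_isZ hA f.natDegree D m r j hf.two hD h2 _
      (DEN_.coeff_isZ _ D G hG _ _ _)

end Pool.Agent.EVD
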