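import Pool.Agent.EVD.Stmts

set_option autoImplicit false

/-!
# EVD, module DIV: the division identities
-/

open scoped BigOperators
open Polynomial

namespace Pool.Agent.EVD

namespace DIV_

lemma sum_coeff (r : Polynomial ℚ) (n : ℕ) (h : r.natDegree < n) :
    r = ∑ j : Fin n, C (r.coeff j) * X ^ (j : ℕ) := by
  conv_lhs => rw [r.as_sum_range' n h]
  rw [Finset.sum_range]
  apply Finset.sum_congr rfl
  intro j _
  rw [C_mul_X_pow_eq_monomial]

lemma nd_der (f : Polynomial ℚ) (h2 : 2 ≤ f.natDegree) :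
    (derivative f).natDegree = f.natDegree - 1 := by
  have h := degree_derivative_eq f (by omega : 0 < f.natDegree)
  exact natDegree_eq_of_degree_eq_some h

lemma g1_monic (f : Polynomial ℚ) (hf : f.Monic) (h2 : 2 ≤ f.natDegree) : (g1 f).Monic := by
  have hp : (f.natDegree : ℚ) ≠ 0 := by
    have : f.natDegree ≠ 0 := by omega
    exact_mod_cast this
  have hd : (derivative f).natDegree = f.natDegree - 1 := nd_der f h2
  have hlc : (derivative f).leadingCoeff = f.natDegree := by
    rw [leadingCoeff, hd, coeff_derivative]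
    have h1 : f.natDegree - 1 + 1 = f.natDegree := by omega
    rw [h1]
    have h3 : f.coeff f.natDegree = 1 := hf
    rw [h3]
    have h4 : ((f.natDegree - 1 : ℕ) : ℚ) + 1 = (f.natDegree : ℚ) := by
      have : ((f.natDegree - 1 + 1 : ℕ) : ℚ) = (f.natDegree : ℚ) := by rw [h1]
      push_cast at this
      exact this
    rw [h4]
    ring
  unfold g1
  rw [Monic, leadingCoeff_mul, leadingCoeff_C, hlc]
  field_simp

lemma g1_natDegree (f : Polynomial ℚ) (h2 : 2 ≤ f.natDegree) :
    (g1 f).natDegree = f.natDegree - 1 := by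
  have hp : (f.natDegree : ℚ) ≠ 0 := by
    have : f.natDegree ≠ 0 := by omega
    exact_mod_cast this
  unfold g1
  rw [natDegree_C_mul (one_div_ne_zero hp)]
  exact nd_der f h2

end DIV_

open DIV_

theorem div_proof : Stmt_Div := by
  intro f hf h2 i
  have hgm : (g1 f).Monic := g1_monic f hf h2
  have hgd : (g1 f).natDegree = f.natDegree - 1 := g1_natDegree f h2
  have hi : (i : ℕ) < f.natDegree - 1 := i.2
  have hXf : (X ^ (i : ℕ) * f).natDegree = (i : ℕ) + f.natDegree := by
    rw [(monic_X_pow (i : ℕ)).natDegree_mul hf, natDegree_X_pow]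
  have hQd : ((X ^ (i : ℕ) * f) /ₘ g1 f).natDegree = (i : ℕ) + 1 := by
    rw [natDegree_divByMonic _ hgm, hXf, hgd]
    omega
  refine ⟨C (1 / (f.natDegree : ℚ)) * ((X ^ (i : ℕ) * f) /ₘ g1 f), ?_, ?_, ?_⟩
  · exact (natDegree_C_mul_le _ _).trans hQd.le
  · have h1 := modByMonic_add_div (X ^ (i : ℕ) * f) (g1 f)
    have hr : ((X ^ (i : ℕ) * f) %ₘ g1 f).natDegree < f.natDegree - 1 := by
      have h3 : g1 f ≠ 1 := by
        intro h
        rw [h, natDegree_one] at hgd
        omega
      have := natDegree_modByMonic_lt (X ^ (i : ℕ) * f) hgm h3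
      rw [hgd] at this
      exact this
    have h4 := sum_coeff _ _ hr
    have h5 : ∑ j : Fin (f.natDegree - 1), C (A1 f i j) * X ^ (j : ℕ) =
        (X ^ (i : ℕ) * f) %ₘ g1 f := by
      refine Eq.trans ?_ h4.symm
      apply Finset.sum_congr rfl
      intro j _
      rfl
    rw [h5]
    have h6 : g1 f * ((X ^ (i : ℕ) * f) /ₘ g1 f) =
        C (1 / (f.natDegree : ℚ)) * ((X ^ (i : ℕ) * f) /ₘ g1 f) * derivative f := by
      have : g1 f = C (1 / (f.natDegree : ℚ)) * derivative f := rfl
      rw [mul_assoc, mul_comm ((X ^ (i : ℕ) * f) /ₘ g1 f) (derivative f), ← mul_assoc, ← this]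
    rw [← h6, add_comm]
    exact h1.symm
  · have hd : (derivative (C (1 / (f.natDegree : ℚ)) * ((X ^ (i : ℕ) * f) /ₘ g1 f))).natDegree
        < f.natDegree - 1 := by
      have h7 := natDegree_derivative_le (C (1 / (f.natDegree : ℚ)) *
        ((X ^ (i : ℕ) * f) /ₘ g1 f))
      have h8 := natDegree_C_mul_le (1 / (f.natDegree : ℚ)) ((X ^ (i : ℕ) * f) /ₘ g1 f)
      omega
    conv_lhs => rw [sum_coeff _ _ hd]
    apply Finset.sum_congr rfl
    intro j _
    have h9 : (derivative (C (1 / (f.natDegree : ℚ)) * ((X ^ (i : ℕ) * f) /ₘ g1 f))).coeff j =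
        B1 f i j := by
      rw [derivative_C_mul]
      rfl
    rw [h9]

end Pool.Agent.EVD
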