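import Pool.Agent.EVD.Stmts

set_option autoImplicit false

open scoped BigOperators Topology
open Matrix

namespace Pool.Agent.EVD

namespace DNO_

variable {ι : Type} [Fintype ι] [DecidableEq ι]

lemma pr_sq (Q : Matrix ι ι ℂ) (hQ : Q.transpose = Q) (v : ι → ℂ)
    (hv : v = 0 ∨ dotProduct v (Q.mulVec v) = 1) : pr Q v * pr Q v = pr Q v := by
  unfold pr
  rcases hv with h | h
  · rw [h]
    have : vecMulVec (0 : ι → ℂ) (Q.mulVec 0) = 0 := by
      ext a c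
      simp [vecMulVec_apply]
    rw [this, Matrix.zero_mul]
  · rw [vecMulVec_mul_vecMulVec, dotProduct_comm, h, one_smul]

lemma sq (Q : Matrix ι ι ℂ) (hQ : Q.transpose = Q) (v : ι → ℂ)
    (hv : v = 0 ∨ dotProduct v (Q.mulVec v) = 1) :
    (1 - (2 : ℂ) • pr Q v) * (1 - (2 : ℂ) • pr Q v) = 1 := by
  have h := pr_sq Q hQ v hv
  have h2 : (2 : ℂ) • pr Q v * (2 : ℂ) • pr Q v = (4 : ℂ) • pr Q v := by
    rw [Matrix.smul_mul, Matrix.mul_smul, h, smul_smul]
    norm_num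
  rw [Matrix.mul_sub, Matrix.sub_mul, Matrix.sub_mul, h2, Matrix.one_mul, Matrix.one_mul,
    Matrix.mul_one]
  module

end DNO_

open DNO_ in
theorem dno_proof (hLia : Stmt_Lia) (hLib : Stmt_Lib) (hLic : Stmt_Lic) (hSgl : Stmt_Sgl)
    (hGen : Stmt_Gen) : Stmt_Dno := by
  intro ι _ _ q Q v hR H hH hinf hs
  obtain ⟨hant, hconj, hbr⟩ := hLic ι Q H hH
  have hw := hSgl ι q Q v hR (Lie H) (hLia ι Q H hH) hant
    (fun j X hX => hconj _ _ (sq Q hR.sym (v j) (hR.nrm j)) (sq Q hR.sym (v j) (hR.nrm j))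
      (hs j) X hX) hbr (hLib ι Q H hR.det hH hinf)
  exact hGen ι Q H (le_trans (by norm_num) hR.card) hR.sym hR.det hH hw

end Pool.Agent.EVD
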