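import Pool.Agent.EVD.Stmts

set_option autoImplicit false

/-!
# DNP: density of the group generated by simultaneous reflections
-/

open scoped BigOperators Topology
open Metric Set MeasureTheory

namespace Pool.Agent.EVD

namespace DNP_

set_option linter.unusedSectionVars false

noncomputable section

/-- Reflections are involutions. -/
theorem refl_sq {ι : Type} [Fintype ι] [DecidableEq ι] (Q : Matrix ι ι ℂ) (v : ι → ℂ)
    (h : v = 0 ∨ dotProduct v (Q.mulVec v) = 1) :
    (1 - (2 : ℂ) • pr Q v) * (1 - (2 : ℂ) • pr Q v) = 1 := by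
  have h1 : pr Q v * pr Q v = pr Q v := by
    rcases h with h | h
    · subst h
      simp [pr]
    · rw [pr, Matrix.vecMulVec_mul_vecMulVec]
      have h2 : dotProduct (Q.mulVec v) v = 1 := by rw [dotProduct_comm]; exact h
      rw [h2]
      simp
  rw [sub_mul, mul_sub, mul_sub, one_mul, mul_one, one_mul, smul_mul_smul_comm, h1]
  module

variable {I : Type} [Fintype I] [DecidableEq I] {ι : I → Type} [∀ k, Fintype (ι k)]
  [∀ k, DecidableEq (ι k)]

/-- The element with component `x` at `k` and `1` elsewhere. -/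
def up (k : I) (x : Matrix (ι k) (ι k) ℂ) : ∀ l, Matrix (ι l) (ι l) ℂ :=
  Function.update (fun l => (1 : Matrix (ι l) (ι l) ℂ)) k x

omit [Fintype I] in
@[simp] theorem up_same (k : I) (x : Matrix (ι k) (ι k) ℂ) : up k x k = x := by
  simp [up]

omit [Fintype I] in
theorem up_ne (k l : I) (x : Matrix (ι k) (ι k) ℂ) (h : l ≠ k) : up k x l = 1 := by
  simp [up, Function.update_of_ne h]

omit [Fintype I] in
theorem up_eq (k : I) (h : ∀ l, Matrix (ι l) (ι l) ℂ) (h1 : ∀ l, l ≠ k → h l = 1) :
    up k (h k) = h := by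
  funext l
  by_cases hl : l = k
  · subst hl; simp
  · rw [up_ne _ _ _ hl, h1 l hl]

omit [Fintype I] in
theorem up_mul (k : I) (x y : Matrix (ι k) (ι k) ℂ) : up k x * up k y = up k (x * y) := by
  funext l
  by_cases hl : l = k
  · subst hl; simp
  · rw [Pi.mul_apply, up_ne _ _ _ hl, up_ne _ _ _ hl, up_ne _ _ _ hl, one_mul]

omit [Fintype I] [DecidableEq I] in
theorem iso_one {J : Type} [Fintype J] [DecidableEq J] (Q : Matrix J J ℂ) : Iso Q 1 := by
  simp [Iso]

/-- The elements of `H` at `k` trivial everywhere else. -/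
def NN (H : Set (∀ k, Matrix (ι k) (ι k) ℂ)) (k : I) : Set (Matrix (ι k) (ι k) ℂ) :=
  {x | up k x ∈ H}

omit [Fintype I] in
theorem NN_eq (H : Set (∀ k, Matrix (ι k) (ι k) ℂ)) (k : I) :
    Nk H k {l | l ≠ k} = NN H k := by
  ext x
  constructor
  · rintro ⟨h, hh, rfl, h1⟩
    change up k (h k) ∈ H
    rw [up_eq k h (fun l hl => h1 l hl)]
    exact hh
  · intro hx
    exact ⟨up k x, hx, up_same k x, fun l hl => up_ne k l x hl⟩

omit [Fintype I] in
/-- `NN H k` is a closed group. -/
theorem clG_NN (Q : ∀ k, Matrix (ι k) (ι k) ℂ) (H : Set (∀ k, Matrix (ι k) (ι k) ℂ))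
    (hH : ClP Q H) (k : I) : ClG (Q k) (NN H k) := by
  refine ⟨?_, ?_, ?_, ?_, ?_⟩
  · intro x hx
    have := hH.sub _ hx k
    rwa [up_same] at this
  · change up k 1 ∈ H
    have h1 : up k (1 : Matrix (ι k) (ι k) ℂ) = (1 : ∀ l, Matrix (ι l) (ι l) ℂ) := by
      funext l
      by_cases hl : l = k
      · subst hl; simp
      · rw [up_ne _ _ _ hl]; rfl
    rw [h1]
    exact hH.one
  · intro x hx y hy
    change up k (x * y) ∈ H
    rw [← up_mul]
    exact hH.mul _ hx _ hy
  · intro x hx
    obtain ⟨b, hb, h1, h2⟩ := hH.inv _ hx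
    have h3 : ∀ l, l ≠ k → b l = 1 := by
      intro l hl
      have h4 := congrFun h1 l
      rw [Pi.mul_apply, up_ne _ _ _ hl, one_mul] at h4
      exact h4
    refine ⟨b k, ?_, ?_, ?_⟩
    · change up k (b k) ∈ H
      rw [up_eq k b h3]
      exact hb
    · have h4 := congrFun h1 k
      rw [Pi.mul_apply, up_same] at h4
      exact h4
    · have h4 := congrFun h2 k
      rw [Pi.mul_apply, up_same] at h4
      exact h4
  · intro a ha hP
    change up k a ∈ H
    refine hH.closed _ (fun l => ?_) (fun P hPH => ?_)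
    · by_cases hl : l = k
      · subst hl; rw [up_same]; exact ha
      · rw [up_ne _ _ _ hl]; exact iso_one _
    · classical
      let φ : (Σ l, ι l × ι l) → MvPolynomial (ι k × ι k) ℂ := fun p =>
        if h : p.1 = k then MvPolynomial.X (h ▸ p.2) else
          MvPolynomial.C ((1 : Matrix (ι p.1) (ι p.1) ℂ) p.2.1 p.2.2)
      have hφ : ∀ (x : Matrix (ι k) (ι k) ℂ) (p : Σ l, ι l × ι l),
          MvPolynomial.eval (fun p : ι k × ι k => x p.1 p.2) (φ p) = up k x p.1 p.2.1 p.2.2 := by
        rintro x ⟨l, p⟩
        by_cases hl : l = k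
        · subst hl
          simp only [φ, dif_pos, up_same, MvPolynomial.eval_X]
        · simp only [φ, dif_neg hl, MvPolynomial.eval_C]
          rw [up_ne _ _ _ hl]
      have hev : ∀ (x : Matrix (ι k) (ι k) ℂ),
          MvPolynomial.eval (fun p : ι k × ι k => x p.1 p.2) (MvPolynomial.bind₁ φ P) =
            MvPolynomial.eval (fun p => up k x p.1 p.2.1 p.2.2) P := by
        intro x
        rw [← MvPolynomial.coe_aeval_eq_eval, ← MvPolynomial.coe_aeval_eq_eval]
        simp only [RingHom.coe_coe]
        rw [MvPolynomial.aeval_bind₁]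
        congr 1
        refine congrArg _ (funext fun p => ?_)
        have := hφ x p
        rw [← MvPolynomial.coe_aeval_eq_eval] at this
        exact this
      rw [← hev]
      refine hP _ (fun h hh => ?_)
      rw [hev]
      exact hPH _ hh

omit [Fintype I] in
/-- The determinant of an isometry is `1` or `-1`. -/
theorem det_iso {J : Type} [Fintype J] [DecidableEq J] (Q a : Matrix J J ℂ) (hQ : Q.det ≠ 0)
    (h : Iso Q a) : a.det = 1 ∨ a.det = -1 := by
  have h1 := congrArg Matrix.det h
  rw [Matrix.det_mul, Matrix.det_mul, Matrix.det_transpose] at h1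
  have h2 : a.det * a.det = 1 := by
    have h3 : Q.det * (a.det * a.det - 1) = 0 := by
      have : a.det * Q.det * a.det - Q.det = 0 := by rw [h1]; ring
      linear_combination this
    rcases mul_eq_zero.1 h3 with h4 | h4
    · exact absurd h4 hQ
    · linear_combination h4
  exact mul_self_eq_one_iff.1 h2

omit [Fintype I] in
/-- If all isometries of determinant one at `l` are in `H`, then `Nk H k {l}` is infinite. -/
theorem inf_of_full (Q : ∀ k, Matrix (ι k) (ι k) ℂ) (H : Set (∀ k, Matrix (ι k) (ι k) ℂ))
    (hH : ClP Q H) (hQ : ∀ k, (Q k).det ≠ 0) (k l : I) (hkl : k ≠ l)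
    (hl : ∀ x, Iso (Q l) x → x.det = 1 → up l x ∈ H) (hinf : ¬ (Nk H k ∅).Finite) :
    ¬ (Nk H k {l}).Finite := by
  intro hfin
  apply hinf
  have h1 : ∀ h ∈ H, (h l).det = 1 → h k ∈ Nk H k {l} := by
    intro h hh hd
    obtain ⟨b, hb, hb1, hb2⟩ := hH.inv h hh
    have h2 : (b l).det = 1 := by
      have h3 := congrArg Matrix.det (congrFun hb1 l)
      rw [Pi.mul_apply, Matrix.det_mul, hd, one_mul] at h3
      simpa using h3
    have h3 := hH.mul _ hh _ (hl (b l) (hH.sub b hb l) h2)
    refine ⟨_, h3, ?_, ?_⟩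
    · rw [Pi.mul_apply, up_ne _ _ _ hkl, mul_one]
    · intro l' hl'
      rw [mem_singleton_iff] at hl'
      subst hl'
      rw [Pi.mul_apply, up_same]
      exact congrFun hb1 l'
  by_cases hg : ∃ g ∈ H, (g l).det = -1
  · obtain ⟨g, hgH, hgd⟩ := hg
    obtain ⟨b, hb, hb1, hb2⟩ := hH.inv g hgH
    have hbd : (b l).det = -1 := by
      have h3 := congrArg Matrix.det (congrFun hb1 l)
      rw [Pi.mul_apply, Matrix.det_mul, hgd] at h3
      have h4 : -1 * (b l).det = 1 := by simpa using h3
      linear_combination -h4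
    refine (hfin.union (hfin.image (fun x => g k * x))).subset ?_
    rintro _ ⟨h, hh, rfl, -⟩
    rcases det_iso (Q l) (h l) (hQ l) (hH.sub h hh l) with hd | hd
    · exact Or.inl (h1 h hh hd)
    · right
      refine ⟨(b * h) k, h1 _ (hH.mul _ hb _ hh) ?_, ?_⟩
      · rw [Pi.mul_apply, Matrix.det_mul, hbd, hd]; norm_num
      · change g k * (b * h) k = h k
        rw [Pi.mul_apply, ← mul_assoc]
        have h3 := congrFun hb1 k
        rw [Pi.mul_apply] at h3
        rw [h3]
        exact one_mul _
  · refine hfin.subset ?_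
    rintro _ ⟨h, hh, rfl, -⟩
    rcases det_iso (Q l) (h l) (hQ l) (hH.sub h hh l) with hd | hd
    · exact h1 h hh hd
    · exact absurd ⟨h, hh, hd⟩ hg

end

end DNP_

open DNP_

theorem dnp_proof (hZCP : Stmt_Zcp) (hCMA : Stmt_Cma) (hCSA : Stmt_Csa) (hDNO : Stmt_Dno) :
    Stmt_Dnp := by
  classical
  intro I _ _ ι _ _ q Q v hR hsep hinf P hP a ha
  obtain ⟨H, hH, hcl, hPH⟩ := hZCP I ι q Q v hR
  have hRF : RF Q v ⊆ H := fun x hx => hcl (Submonoid.subset_closure hx)
  have hQ : ∀ k, (Q k).det ≠ 0 := fun k => (hR k).det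
  -- the projections are infinite
  have h0 : ∀ k, ¬ (Nk H k ∅).Finite := by
    intro k hfin
    apply hinf k
    refine hfin.subset ?_
    have h1 : Submonoid.map (Pi.evalMonoidHom (fun l => Matrix (ι l) (ι l) ℂ) k)
        (Submonoid.closure (RF Q v)) = Submonoid.closure
          {M : Matrix (ι k) (ι k) ℂ | ∃ j : Fin q, M = 1 - (2 : ℂ) • pr (Q k) (v k j)} := by
      rw [MonoidHom.map_mclosure]
      congr 1
      ext M
      constructor
      · rintro ⟨_, ⟨j, rfl⟩, rfl⟩
        exact ⟨j, rfl⟩
      · rintro ⟨j, rfl⟩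
        exact ⟨_, ⟨j, rfl⟩, rfl⟩
    rw [← h1]
    rintro _ ⟨γ, hγ, rfl⟩
    exact ⟨γ, hcl hγ, rfl, fun l hl => absurd hl (notMem_empty l)⟩
  -- main induction
  let sg : I → Finset (Fin q) := fun k => Finset.univ.filter (fun j => v k j ≠ 0)
  have hmain : ∀ (n : ℕ) (k : I), q - (sg k).card = n →
      ∀ x, Iso (Q k) x → x.det = 1 → up k x ∈ H := by
    intro n
    induction n using Nat.strong_induction_on with
    | _ n ih =>
      intro k hk
      have hpair : ∀ l, l ≠ k → ¬ (Nk H k {l}).Finite := by
        intro l hl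
        by_cases hj : ∃ j, v k j ≠ 0 ∧ v l j = 0
        · obtain ⟨j, hj1, hj2⟩ := hj
          exact hCSA I ι q Q v hR H hH hRF k l j hl.symm hj1 hj2 (h0 k)
        · push Not at hj
          obtain ⟨j, hj0⟩ := hsep k l hl.symm
          have hss : sg k ⊂ sg l := by
            rw [Finset.ssubset_iff_of_subset]
            · refine ⟨j, ?_, ?_⟩
              · rw [Finset.mem_filter]
                refine ⟨Finset.mem_univ _, fun h => hj0 ⟨fun _ => h, fun _ => ?_⟩⟩
                by_contra h'
                exact hj j h' h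
              · rw [Finset.mem_filter]
                rintro ⟨-, h⟩
                exact hj0 ⟨fun h' => absurd h' h, fun h' => absurd h' (hj j h)⟩
            · intro i hi
              rw [Finset.mem_filter] at hi ⊢
              exact ⟨Finset.mem_univ _, hj i hi.2⟩
          have hc1 := Finset.card_lt_card hss
          have hc2 : (sg l).card ≤ q := by
            have := Finset.card_le_univ (sg l)
            simpa using this
          exact inf_of_full Q H hH hQ k l hl.symm
            (ih (q - (sg l).card) (by omega) l rfl) (h0 k)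
      have hL : ∀ L : Finset I, k ∉ L → ¬ (Nk H k (↑L : Set I)).Finite := by
        intro L
        induction L using Finset.induction_on with
        | empty => intro _; simpa using h0 k
        | insert l L _ ihL =>
          intro hkL
          rw [Finset.mem_insert, not_or] at hkL
          have h3 := hCMA I ι q Q v hR H hH hRF k {l} (↑L : Set I)
            (fun h => hkL.1 h) (fun h => hkL.2 h) (hpair l (fun h => hkL.1 h.symm))
            (ihL hkL.2)
          have h4 : ({l} ∪ (↑L : Set I)) = (↑(insert l L) : Set I) := by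
            ext x; simp
          rwa [h4] at h3
      have h5 : ¬ (NN H k).Finite := by
        have h6 := hL (Finset.univ.filter (fun l => l ≠ k)) (by simp)
        have h7 : (↑(Finset.univ.filter (fun l => l ≠ k)) : Set I) = {l | l ≠ k} := by
          ext x; simp
        rw [h7, NN_eq] at h6
        exact h6
      refine hDNO (ι k) q (Q k) (v k) (hR k) (NN H k) (clG_NN Q H hH k) h5 ?_
      intro j h hh
      change up k _ ∈ H
      have hr : (fun l => 1 - (2 : ℂ) • pr (Q l) (v l j)) ∈ H := hRF ⟨j, rfl⟩
      have h8 := hH.mul _ (hH.mul _ hr _ hh) _ hr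
      have h9 : up k ((1 - (2 : ℂ) • pr (Q k) (v k j)) * h * (1 - (2 : ℂ) • pr (Q k) (v k j))) =
          (fun l => 1 - (2 : ℂ) • pr (Q l) (v l j)) * up k h *
            (fun l => 1 - (2 : ℂ) • pr (Q l) (v l j)) := by
        funext l
        by_cases hl : l = k
        · subst hl
          simp only [up_same, Pi.mul_apply]
        · rw [up_ne _ _ _ hl]
          simp only [Pi.mul_apply]
          rw [up_ne _ _ _ hl, mul_one]
          exact (refl_sq (Q l) (v l j) ((hR l).nrm j)).symm
      rw [h9]
      exact h8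
  -- assemble
  have hfin : ∀ s : Finset I, (fun k => if k ∈ s then a k else 1) ∈ H := by
    intro s
    induction s using Finset.induction_on with
    | empty =>
      have h1 : (fun k => if k ∈ (∅ : Finset I) then a k else 1) =
          (1 : ∀ l, Matrix (ι l) (ι l) ℂ) := by
        funext k; simp
      rw [h1]
      exact hH.one
    | insert l s hls ihs =>
      have h1 := hH.mul _ (hmain _ l rfl (a l) (ha l).1 (ha l).2) _ ihs
      have h2 : (fun k => if k ∈ insert l s then a k else 1) =
          up l (a l) * (fun k => if k ∈ s then a k else 1) := by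
        funext k
        by_cases hk : k = l
        · subst hk
          simp [hls]
        · rw [Pi.mul_apply, up_ne _ _ _ hk, one_mul]
          simp [Finset.mem_insert, hk]
      rw [h2]
      exact h1
  have h1 := hfin Finset.univ
  have h2 : (fun k => if k ∈ (Finset.univ : Finset I) then a k else 1) = a := by
    funext k; simp
  rw [h2] at h1
  exact hPH P hP a h1

end Pool.Agent.EVD
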