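import Pool.Agent.EVD.Sealed
import Pool.Agent.DGP.Defs
import Pool.Agent.GPH.IIDefs

set_option autoImplicit false

/-!
# EVD: auxiliary definitions
-/

open scoped BigOperators Topology
open Metric Set MeasureTheory

namespace Pool.Agent.EVD

open Pool.Agent.DGP (IsZ)

noncomputable section

/-! ## One variable -/

/-- A monic polynomial of degree at least two without term of degree `deg - 1`. -/
structure G1 (f : Polynomial ℚ) : Prop where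
  mon : f.Monic
  two : 2 ≤ f.natDegree
  sub : f.coeff (f.natDegree - 1) = 0

/-- The monic polynomial `f' / p`. -/
def g1 (f : Polynomial ℚ) : Polynomial ℚ :=
  Polynomial.C (1 / (f.natDegree : ℚ)) * Polynomial.derivative f

/-- `x ^ i f = q_i f' + ∑ j, A1 i j x ^ j`. -/
def A1 (f : Polynomial ℚ) : Matrix (Fin (f.natDegree - 1)) (Fin (f.natDegree - 1)) ℚ :=
  Matrix.of fun i j => ((Polynomial.X ^ (i : ℕ) * f) %ₘ g1 f).coeff j

/-- `q_i' = ∑ j, B1 i j x ^ j`. -/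
def B1 (f : Polynomial ℚ) : Matrix (Fin (f.natDegree - 1)) (Fin (f.natDegree - 1)) ℚ :=
  Matrix.of fun i j => (Polynomial.C (1 / (f.natDegree : ℚ)) *
    Polynomial.derivative ((Polynomial.X ^ (i : ℕ) * f) /ₘ g1 f)).coeff j

/-- The inverse of the matrix of residues of `x ^ (i + j) dx / f'`. -/
def U1 (f : Polynomial ℚ) : Matrix (Fin (f.natDegree - 1)) (Fin (f.natDegree - 1)) ℚ :=
  Matrix.of fun i j => (((i : ℕ) + (j : ℕ) + 2 : ℕ) : ℚ) * f.coeff ((i : ℕ) + (j : ℕ) + 2)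

/-- The rising factorial `a (a + 1) ... (a + r - 1)`. -/
def poch (a : ℚ) (r : ℕ) : ℚ := ∏ l ∈ Finset.range r, (a + l)

/-- The coefficients at `τ = 0` of the solutions `∫ x ^ i e ^ (- τ f) dx`. -/
def E1 (f : Polynomial ℚ) (m : ℕ) :
    Matrix (Fin (f.natDegree - 1)) (Fin (f.natDegree - 1)) ℚ :=
  Matrix.of fun i i' => ∑ l ∈ Finset.Icc m (f.natDegree * (m + 1)),
    (-1 : ℚ) ^ l * poch (((i' : ℕ) + 1 : ℚ) / f.natDegree) (l - m) / (l.factorial : ℚ) *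
      (Polynomial.X ^ (i : ℕ) * (f - Polynomial.X ^ f.natDegree) ^ l).coeff
        ((i' : ℕ) + f.natDegree * (l - m))

/-! ## Several variables -/

/-- Kronecker sums. -/
def ksum {n : ℕ} {α : Fin n → Type} [∀ j, DecidableEq (α j)] {R : Type} [CommRing R]
    (A : ∀ j, Matrix (α j) (α j) R) : Matrix (∀ j, α j) (∀ j, α j) R :=
  Matrix.of fun x y => ∑ j, if (∀ l, l ≠ j → x l = y l) then A j (x j) (y j) else 0

/-- Kronecker products. -/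
def kprod {n : ℕ} {α : Fin n → Type} {R : Type} [CommRing R]
    (A : ∀ j, Matrix (α j) (α j) R) : Matrix (∀ j, α j) (∀ j, α j) R :=
  Matrix.of fun x y => ∏ j, A j (x j) (y j)

/-- The exponents. -/
def bI {n : ℕ} (f : Fin n → Polynomial ℚ) (x : Ix f) : ℚ :=
  ∑ j, ((x j : ℕ) + 1 : ℚ) / (f j).natDegree

/-- Multiplication by `F = f_1 + ... + f_n`. -/
def AT {n : ℕ} (f : Fin n → Polynomial ℚ) : Matrix (Ix f) (Ix f) ℚ := ksum fun j => A1 (f j)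

def BT {n : ℕ} (f : Fin n → Polynomial ℚ) : Matrix (Ix f) (Ix f) ℚ := ksum fun j => B1 (f j)

def UT {n : ℕ} (f : Fin n → Polynomial ℚ) : Matrix (Ix f) (Ix f) ℚ := kprod fun j => U1 (f j)

/-- The coefficients of the product of the one variable solutions. -/
def ET {n : ℕ} (f : Fin n → Polynomial ℚ) (m : ℕ) : Matrix (Ix f) (Ix f) ℚ :=
  ∑ c ∈ Finset.piAntidiag Finset.univ m, kprod fun j => E1 (f j) (c j)

/-- Rational matrices as complex matrices. -/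
def cm {ι κ : Type} (A : Matrix ι κ ℚ) : Matrix ι κ ℂ := A.map (fun x : ℚ => (x : ℂ))

/-! ## Systems of Okubo type -/

/-- The data of a system `(t + A) Y' = (B - κ) Y` of orthogonal type. -/
structure Oku {ι : Type} [Fintype ι] [DecidableEq ι] (κ : ℕ) (A B U : Matrix ι ι ℚ) (b : ι → ℚ)
    (i₀ : ι) : Prop where
  two : 2 ≤ κ
  three : 3 ≤ Fintype.card ι
  Usym : U.transpose = U
  Udet : U.det ≠ 0
  UA : U * A = A.transpose * U
  UB : U * B + B.transpose * U = ((2 * κ - 1 : ℤ) : ℚ) • U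
  Bdia : ∀ i, B i i = b i
  Btri : ∀ i j, i ≠ j → B i j ≠ 0 → b j < b i
  Awt : ∀ i j, A i j ≠ 0 → b j < b i + 1
  bdif : ∀ i j, i ≠ j → ∀ z : ℤ, b i - b j ≠ z
  bint : ∀ i, ∀ z : ℤ, b i ≠ z
  bsym : ∀ i, ∃ j, b i + b j = 2 * (κ : ℚ) - 1
  b0 : b i₀ < 1
  B0 : ∀ j, j ≠ i₀ → B i₀ j = 0
  eig : ∃ (ev : ι → ℂ) (P : Matrix ι ι ℂ), Function.Injective ev ∧ P.det ≠ 0 ∧
    cm A * P = P * Matrix.diagonal ev
  comm : ∀ Z : Matrix ι ι ℂ, Z * cm A = cm A * Z → Z * cm B = cm B * Z → ∃ c : ℂ, Z = c • 1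

/-- `B - κ`. -/
def Eo {ι : Type} [DecidableEq ι] (κ : ℕ) (B : Matrix ι ι ℚ) : Matrix ι ι ℚ :=
  B - (κ : ℚ) • (1 : Matrix ι ι ℚ)

/-- A formal solution `∑ Em m τ ^ m` at `τ = 0` with small denominators. -/
structure Fsol {ι : Type} [Fintype ι] [DecidableEq ι] (A B : Matrix ι ι ℚ) (b : ι → ℚ)
    (Em : ℕ → Matrix ι ι ℚ) : Prop where
  rec0 : B * Em 0 = Em 0 * Matrix.diagonal b
  rec1 : ∀ m : ℕ, ((m : ℚ) + 1) • Em (m + 1) + B * Em (m + 1) - Em (m + 1) * Matrix.diagonal b =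
    -(A * Em m)
  det0 : (Em 0).det ≠ 0
  den : ∃ C c : ℕ, 1 ≤ C ∧ ∀ (m : ℕ) (i j : ι),
    IsZ ((((Finset.Icc 1 (C * (m + 1))).lcm id : ℕ) : ℚ) ^ c * (C : ℚ) ^ (m + 1) *
      (m.factorial : ℚ) * Em m i j)

/-- The coefficients at `t = ∞` of the solutions of `(t + A) Y' = (B - κ) Y`:
`Y = ∑ Zo m t ^ (- m - κ + b)`. -/
def Zo {ι : Type} [Fintype ι] [DecidableEq ι] (κ : ℕ) (b : ι → ℚ) (Em : ℕ → Matrix ι ι ℚ)
    (m : ℕ) : Matrix ι ι ℚ := Em m * Matrix.diagonal fun i => poch ((κ : ℚ) - b i) m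

/-- The matrix `X + A`. -/
def Sm {ι : Type} [DecidableEq ι] (A : Matrix ι ι ℚ) : Matrix ι ι (Polynomial ℚ) :=
  (Polynomial.X : Polynomial ℚ) • (1 : Matrix ι ι (Polynomial ℚ)) + A.map Polynomial.C

/-- `T = det (X + A)`. -/
def Tp {ι : Type} [Fintype ι] [DecidableEq ι] (A : Matrix ι ι ℚ) : Polynomial ℚ := (Sm A).det

/-- `Y^(k) / k! = T⁻ᵏ • Bt k * Y` for the solutions of `(t + A) Y' = E Y`. -/
def Bt {ι : Type} [Fintype ι] [DecidableEq ι] (A E : Matrix ι ι ℚ) :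
    ℕ → Matrix ι ι (Polynomial ℚ)
  | 0 => 1
  | (k + 1) => (Polynomial.C (1 / ((k : ℚ) + 1))) • ((Sm A).adjugate *
      ((E - (k : ℚ) • (1 : Matrix ι ι ℚ)).map Polynomial.C) * Bt A E k)

/-- The same at infinity, in the variable `u = 1 / t`: recursion with `1 + u A`. -/
def Bh {ι : Type} [Fintype ι] [DecidableEq ι] (A E : Matrix ι ι ℚ) :
    ℕ → Matrix ι ι (Polynomial ℚ)
  | 0 => 1
  | (k + 1) => (Polynomial.C (1 / ((k : ℚ) + 1))) •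
      (((1 : Matrix ι ι (Polynomial ℚ)) + (Polynomial.X : Polynomial ℚ) •
        A.map Polynomial.C).adjugate *
      ((E - (k : ℚ) • (1 : Matrix ι ι ℚ)).map Polynomial.C) * Bh A E k)

/-- The system is of type `G`. -/
def GTyp {ι : Type} [Fintype ι] [DecidableEq ι] (A E : Matrix ι ι ℚ) : Prop :=
  ∃ C c : ℕ, 1 ≤ C ∧ ∀ (k : ℕ) (i j : ι) (l : ℕ),
    IsZ ((((Finset.Icc 1 (C * (k + 1))).lcm id : ℕ) : ℚ) ^ c * (C : ℚ) ^ (k + 1) *
      (Bt A E k i j).coeff l)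

/-- The Taylor coefficients at `0` of the solution of `(t + A) Y' = E Y` with `Y(0) = 1`. -/
def Yc {ι : Type} [Fintype ι] [DecidableEq ι] (A E : Matrix ι ι ℚ) : ℕ → Matrix ι ι ℚ
  | 0 => 1
  | (j + 1) => (1 / ((j : ℚ) + 1)) • (A⁻¹ * (E - (j : ℚ) • (1 : Matrix ι ι ℚ)) * Yc A E j)

/-- The entries of `Y`. -/
def Ys {ι : Type} [Fintype ι] [DecidableEq ι] (A E : Matrix ι ι ℚ) (p : ι × ι) :
    PowerSeries ℚ := PowerSeries.mk (fun n => Yc A E n p.1 p.2)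

/-- A common denominator of the coefficients of `T`. -/
def kap {ι : Type} [Fintype ι] [DecidableEq ι] (A : Matrix ι ι ℚ) : ℕ :=
  ∏ l ∈ Finset.range (Fintype.card ι + 1), ((Tp A).coeff l).den

/-- The denominator of the rescaled system, a multiple of `T (d X)`. -/
def Td {ι : Type} [Fintype ι] [DecidableEq ι] (A : Matrix ι ι ℚ) (d : ℕ) : Polynomial ℚ :=
  Polynomial.C (kap A : ℚ) * (Tp A).comp (Polynomial.C (d : ℚ) * Polynomial.X)

/-- The full system: `1` and the rescaled matrices `Y_k (d_k X)`. -/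
def fullO {K : ℕ} {ι : Fin K → Type} [∀ k, Fintype (ι k)] [∀ k, DecidableEq (ι k)]
    (A E : ∀ k, Matrix (ι k) (ι k) ℚ) (d : Fin K → ℕ) (o : Option (Σ k, ι k × ι k)) :
    PowerSeries ℚ :=
  o.elim 1 (fun p => PowerSeries.rescale (d p.1 : ℚ) (Ys (A p.1) (E p.1) p.2))

/-- The value of `Y` at the real number `w`, as a complex matrix. -/
def Yv {ι : Type} [Fintype ι] [DecidableEq ι] (A E : Matrix ι ι ℚ) (w : ℝ) : Matrix ι ι ℂ :=
  Matrix.of fun i j => ((DGP.val (Ys A E (i, j)) w : ℝ) : ℂ)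

/-! ## Groups -/

/-- Isometries of `Q`. -/
def Iso {ι : Type} [Fintype ι] (Q : Matrix ι ι ℂ) (a : Matrix ι ι ℂ) : Prop :=
  a.transpose * Q * a = Q

/-- The matrix `v (Q v)^T`, a projector if `v^T Q v = 1`. -/
def pr {ι : Type} [Fintype ι] (Q : Matrix ι ι ℂ) (v : ι → ℂ) : Matrix ι ι ℂ :=
  Matrix.vecMulVec v (Q.mulVec v)

/-- The reflection in the direction `u`. -/
def refl {ι : Type} [Fintype ι] [DecidableEq ι] (Q : Matrix ι ι ℂ) (u : ι → ℂ) :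
    Matrix ι ι ℂ := 1 - (2 / dotProduct u (Q.mulVec u)) • pr Q u

/-- `u w^T Q - w u^T Q`. -/
def wed {ι : Type} [Fintype ι] (Q : Matrix ι ι ℂ) (u w : ι → ℂ) : Matrix ι ι ℂ :=
  Matrix.vecMulVec u (Q.mulVec w) - Matrix.vecMulVec w (Q.mulVec u)

/-- A Zariski closed subgroup of the group of isometries of `Q`. -/
structure ClG {ι : Type} [Fintype ι] [DecidableEq ι] (Q : Matrix ι ι ℂ)
    (H : Set (Matrix ι ι ℂ)) : Prop where
  sub : ∀ a ∈ H, Iso Q a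
  one : 1 ∈ H
  mul : ∀ a ∈ H, ∀ b ∈ H, a * b ∈ H
  inv : ∀ a ∈ H, ∃ b ∈ H, a * b = 1 ∧ b * a = 1
  closed : ∀ a, Iso Q a → (∀ P : MvPolynomial (ι × ι) ℂ,
    (∀ h ∈ H, MvPolynomial.eval (fun p => h p.1 p.2) P = 0) →
    MvPolynomial.eval (fun p => a p.1 p.2) P = 0) → a ∈ H

/-- The Zariski closure in the group of isometries. -/
def zcl {ι : Type} [Fintype ι] (Q : Matrix ι ι ℂ) (X : Set (Matrix ι ι ℂ)) :
    Set (Matrix ι ι ℂ) :=
  {a | Iso Q a ∧ ∀ P : MvPolynomial (ι × ι) ℂ,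
    (∀ h ∈ X, MvPolynomial.eval (fun p => h p.1 p.2) P = 0) →
    MvPolynomial.eval (fun p => a p.1 p.2) P = 0}

/-- The Lie algebra of `H`. -/
def Lie {ι : Type} [Fintype ι] [DecidableEq ι] (H : Set (Matrix ι ι ℂ)) :
    Set (Matrix ι ι ℂ) := {X | ∀ t : ℂ, NormedSpace.exp (t • X) ∈ H}

/-- The vectors `v j` are `0` or of norm `1`, and only the scalars commute with the projectors
`pr Q (v j)`. -/
structure Rts {ι : Type} [Fintype ι] [DecidableEq ι] {q : ℕ} (Q : Matrix ι ι ℂ)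
    (v : Fin q → ι → ℂ) : Prop where
  card : 3 ≤ Fintype.card ι
  sym : Q.transpose = Q
  det : Q.det ≠ 0
  nrm : ∀ j, v j = 0 ∨ dotProduct (v j) (Q.mulVec (v j)) = 1
  comm : ∀ Z : Matrix ι ι ℂ, (∀ j, Z * pr Q (v j) = pr Q (v j) * Z) → ∃ c : ℂ, Z = c • 1

/-- The simultaneous reflections. -/
def RF {I : Type} {ι : I → Type} [∀ k, Fintype (ι k)] [∀ k, DecidableEq (ι k)] {q : ℕ}
    (Q : ∀ k, Matrix (ι k) (ι k) ℂ) (v : ∀ k, Fin q → ι k → ℂ) :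
    Set (∀ k, Matrix (ι k) (ι k) ℂ) :=
  {M | ∃ j : Fin q, M = fun k => 1 - (2 : ℂ) • pr (Q k) (v k j)}

/-- A Zariski closed subgroup of the product of the groups of isometries. -/
structure ClP {I : Type} {ι : I → Type} [∀ k, Fintype (ι k)] [∀ k, DecidableEq (ι k)]
    (Q : ∀ k, Matrix (ι k) (ι k) ℂ) (H : Set (∀ k, Matrix (ι k) (ι k) ℂ)) : Prop where
  sub : ∀ a ∈ H, ∀ k, Iso (Q k) (a k)
  one : 1 ∈ H
  mul : ∀ a ∈ H, ∀ b ∈ H, a * b ∈ H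
  inv : ∀ a ∈ H, ∃ b ∈ H, a * b = 1 ∧ b * a = 1
  closed : ∀ a, (∀ k, Iso (Q k) (a k)) → (∀ P : MvPolynomial (Σ k, ι k × ι k) ℂ,
    (∀ h ∈ H, MvPolynomial.eval (fun p => h p.1 p.2.1 p.2.2) P = 0) →
    MvPolynomial.eval (fun p => a p.1 p.2.1 p.2.2) P = 0) → a ∈ H

/-- The components at `k` of the elements of `H` which are trivial at all `l ∈ L`. -/
def Nk {I : Type} {ι : I → Type} [∀ k, Fintype (ι k)] [∀ k, DecidableEq (ι k)]
    (H : Set (∀ k, Matrix (ι k) (ι k) ℂ)) (k : I) (L : Set I) : Set (Matrix (ι k) (ι k) ℂ) :=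
  {x | ∃ h ∈ H, h k = x ∧ ∀ l ∈ L, h l = 1}

/-! ## Fuchsian systems -/

/-- `B(z) = ∑ j, (z - T j)⁻¹ • R j`. -/
def FB {ι : Type} {q : ℕ} (T : Fin q → ℂ) (R : Fin q → Matrix ι ι ℂ) (z : ℂ) : Matrix ι ι ℂ :=
  ∑ j, (z - T j)⁻¹ • R j

/-- The residues `x (U x)^T E`. -/
def Ro {ι : Type} [Fintype ι] (U E : Matrix ι ι ℂ) {q : ℕ} (x : Fin q → ι → ℂ) (j : Fin q) :
    Matrix ι ι ℂ := Matrix.vecMulVec (x j) (U.mulVec (x j)) * E

/-- The form `N(z) = U (e + r z + A)`. -/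
def No {ι : Type} [Fintype ι] [DecidableEq ι] (A U : Matrix ι ι ℂ) (e r z : ℂ) :
    Matrix ι ι ℂ := U * ((e + r * z) • (1 : Matrix ι ι ℂ) + A)

/-- The singular points `T j` of the system `(e + r z + A) Y' = r (B - κ) Y`: `x j` is `0` or an
eigenvector of `A` of norm one with eigenvalue `-(e + r T j)`. -/
structure Sy {ι : Type} [Fintype ι] [DecidableEq ι] (A U : Matrix ι ι ℂ) (e r : ℂ) {q : ℕ}
    (T : Fin q → ℂ) (x : Fin q → ι → ℂ) : Prop where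
  inj : Function.Injective T
  rnz : r ≠ 0
  nrm : ∀ j, x j = 0 ∨ dotProduct (x j) (U.mulVec (x j)) = 1
  ort : ∀ j l, j ≠ l → dotProduct (x j) (U.mulVec (x l)) = 0
  eig : ∀ j, A.mulVec (x j) = (-(e + r * T j)) • x j
  tot : ∑ j, Matrix.vecMulVec (x j) (U.mulVec (x j)) = 1

/-- The local form of `Φ` at the point `T j`: on a small disc without the cut,
`Φ = H (1 + (t ^ (-1/2) - 1) P)`, where `z = T j + t (T j - b)`. -/
def LocO {ι : Type} [Fintype ι] [DecidableEq ι] {q : ℕ} (T : Fin q → ℂ) (b : ℂ)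
    (Φ : ℂ → Matrix ι ι ℂ) (j : Fin q) (P : Matrix ι ι ℂ) : Prop :=
  ∃ (ρ : ℝ) (H : ℂ → Matrix ι ι ℂ), 0 < ρ ∧ GPH.HolM (ball 0 ρ) H ∧
    (∀ t ∈ ball (0 : ℂ) ρ, (H t).det ≠ 0) ∧
    ∀ t ∈ ball (0 : ℂ) ρ, (∀ u : ℝ, 0 ≤ u → t ≠ u) → T j + t * (T j - b) ∈ GPH.Cut b T ∧
      Φ (T j + t * (T j - b)) = H t * (1 + (Complex.exp (-(GPH.plog t) / 2) - 1) • P)

/-- `Φ` is the fundamental matrix on the cut plane, normalised at `b`. -/
structure FunO {ι : Type} [Fintype ι] [DecidableEq ι] (A E U : Matrix ι ι ℂ) (e r : ℂ)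
    {q : ℕ} (T : Fin q → ℂ) (x : Fin q → ι → ℂ) (b : ℂ) (Φ : ℂ → Matrix ι ι ℂ) : Prop where
  sol : GPH.MSol (GPH.Cut b T) (FB T (Ro U E x)) Φ
  one : Φ b = 1
  iso : ∀ z ∈ GPH.Cut b T, (Φ z).transpose * No A U e r z * Φ z = No A U e r b

/-- The matrix of the tensor power of a system. -/
def Lt {ι Γ : Type} [Fintype Γ] [DecidableEq Γ] [DecidableEq ι] (L : ℂ → Matrix ι ι ℂ) (z : ℂ) :
    Matrix (Γ → ι) (Γ → ι) ℂ :=
  Matrix.of fun f g => ∑ γ : Γ, if (∀ γ', γ' ≠ γ → f γ' = g γ') then L z (f γ) (g γ) else 0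

/-- The symmetrised product of the conjugates of a vector solution. -/
def yT {ι Γ : Type} [Fintype ι] [Fintype Γ] (Ψ : ℂ → Matrix ι ι ℂ) (F : Γ → Matrix ι ι ℂ)
    (c : ι → ℂ) (z : ℂ) (f : Γ → ι) : ℂ :=
  ∑ σ : Γ, ∏ γ : Γ, (Ψ z * F σ * F γ).mulVec c (f γ)

/-- The local form of the transformed fundamental matrix. -/
def LocG {ι : Type} [Fintype ι] {q : ℕ} (T : Fin q → ℂ) (b : ℂ)
    (Ψ : ℂ → Matrix ι ι ℂ) (j : Fin q) (P : Matrix ι ι ℂ) : Prop :=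
  ∃ (ρ : ℝ) (G0 G1 : ℂ → Matrix ι ι ℂ), 0 < ρ ∧ GPH.HolM (ball 0 ρ) G0 ∧
    GPH.HolM (ball 0 ρ) G1 ∧ (∀ t ∈ ball (0 : ℂ) ρ, G0 t * P = 0 ∧ G1 t * P = G1 t) ∧
    ∀ t ∈ ball (0 : ℂ) ρ, (∀ u : ℝ, 0 ≤ u → t ≠ u) → T j + t * (T j - b) ∈ GPH.Cut b T ∧
      Ψ (T j + t * (T j - b)) = G0 t + Complex.exp (GPH.plog t / 2) • G1 t

/-! ## Algebraic numbers -/

/-- The field of algebraic numbers. -/
abbrev Qb : IntermediateField ℚ ℂ := algebraicClosure ℚ ℂ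

/-- Algebraic matrices as complex matrices. -/
def qc {ι : Type} (Y : Matrix ι ι Qb) : Matrix ι ι ℂ := Y.map (algebraMap Qb ℂ)

/-! ## Integrals -/

/-- The polynomial on the half line number `l`. -/
def ray (f : Polynomial ℚ) (l : ℕ) (x : ℝ) : ℂ :=
  Polynomial.aeval (zt f.natDegree ^ l * (x : ℂ)) f

/-- `∫ x ^ i e ^ (- τ f) dx` over the half line number `l`. -/
def J1 (f : Polynomial ℚ) (i l : ℕ) (τ : ℝ) : ℂ :=
  zt f.natDegree ^ (l * (i + 1)) *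
    ∫ x in Ioi (0 : ℝ), (x : ℂ) ^ i * Complex.exp (-(τ : ℂ) * ray f l x)

/-- The half lines have positive real part. -/
def RayP (f : Polynomial ℚ) : Prop := ∀ (l : ℕ) (x : ℝ), 0 ≤ x → 0 < (ray f l x).re

/-- The products of the one variable integrals. -/
def GG {n : ℕ} (f : Fin n → Polynomial ℚ) (τ : ℝ) : Matrix (Ix f) (Ix f) ℂ :=
  Matrix.of fun I a => ∏ j, (J1 (f j) (I j) ((a j : ℕ) + 1) τ - J1 (f j) (I j) (a j) τ)

/-- The Laplace transform. -/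
def LM {n : ℕ} (f : Fin n → Polynomial ℚ) (t : ℂ) : Matrix (Ix f) (Ix f) ℂ :=
  Matrix.of fun I a => (1 / ((n - 1).factorial : ℂ)) *
    ∫ τ in Ioi (0 : ℝ), (τ : ℂ) ^ (n - 1) * Complex.exp (-t * τ) * GG f τ I a

/-- The periods of the forms `x ^ I dx / (F + t) ^ (n - d)`. -/
def MK {n : ℕ} (f : Fin n → Polynomial ℚ) : ℕ → ℂ → Matrix (Ix f) (Ix f) ℂ
  | 0, t => LM f t
  | (d + 1), t => (-((n - d - 1 : ℕ) : ℂ)) • ((cm (BT f) -
      ((n - d - 1 : ℕ) : ℂ) • (1 : Matrix (Ix f) (Ix f) ℂ))⁻¹ *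
      (t • (1 : Matrix (Ix f) (Ix f) ℂ) + cm (AT f)) * MK f d t)

/-- The rational gauge matrices with `MK f d t = GK f d t * LM f t`. -/
def GK {n : ℕ} (f : Fin n → Polynomial ℚ) : ℕ → ℚ → Matrix (Ix f) (Ix f) ℚ
  | 0, _ => 1
  | (d + 1), t => (-((n - d - 1 : ℕ) : ℚ)) • ((BT f -
      ((n - d - 1 : ℕ) : ℚ) • (1 : Matrix (Ix f) (Ix f) ℚ))⁻¹ *
      (t • (1 : Matrix (Ix f) (Ix f) ℚ) + AT f) * GK f d t)

end

end Pool.Agent.EVD
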