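import Pool.Agent.EVD.Stmts

set_option autoImplicit false

/-!
# EVD, module EVO: eigenvectors of `A1`
-/

open scoped BigOperators

namespace Pool.Agent.EVD

theorem evo_proof (hD : Stmt_Div) : Stmt_Evo := by
  intro f hf h2 z hz i
  obtain ⟨q, _, h, _⟩ := hD f hf h2 i
  have h1 := congrArg (Polynomial.aeval z) h
  rw [map_add, map_mul, map_mul, hz, mul_zero, zero_add, map_pow, Polynomial.aeval_X, map_sum]
    at h1
  rw [mul_comm, h1]
  apply Finset.sum_congr rfl
  intro j _
  rw [map_mul, Polynomial.aeval_C, map_pow, Polynomial.aeval_X]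
  rfl

end Pool.Agent.EVD
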