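import Pool.Agent.EVD.Stmts

set_option autoImplicit false

/-!
# EVD, module EZE: the coefficient `E1 0` is unipotent
-/

open scoped BigOperators Topology
open Metric Set MeasureTheory

namespace Pool.Agent.EVD

noncomputable section

namespace EZE_

lemma natDegree_g (f : Polynomial ℚ) (hf : G1 f) :
    (f - Polynomial.X ^ f.natDegree).natDegree ≤ f.natDegree - 2 := by
  have h2 := hf.two
  rw [Polynomial.natDegree_le_iff_coeff_eq_zero]
  intro n hn
  rw [Polynomial.coeff_sub, Polynomial.coeff_X_pow]
  have h3 : n = f.natDegree - 1 ∨ n = f.natDegree ∨ f.natDegree < n := by omega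
  rcases h3 with h | h | h
  · rw [h, hf.sub, if_neg (by omega), sub_zero]
  · rw [h, if_pos rfl]
    have := hf.mon
    rw [Polynomial.Monic, Polynomial.leadingCoeff] at this
    rw [this, sub_self]
  · rw [Polynomial.coeff_eq_zero_of_natDegree_lt h, if_neg (by omega), sub_zero]

lemma coeff_zero (f : Polynomial ℚ) (hf : G1 f) (i j l : ℕ) (hij : i ≤ j) (hl : 1 ≤ l) :
    (Polynomial.X ^ i * (f - Polynomial.X ^ f.natDegree) ^ l).coeff
      (j + f.natDegree * l) = 0 := by
  have h2 := hf.two
  apply Polynomial.coeff_eq_zero_of_natDegree_lt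
  have h1 : (Polynomial.X ^ i * (f - Polynomial.X ^ f.natDegree) ^ l).natDegree ≤
      i + l * (f.natDegree - 2) := by
    refine Polynomial.natDegree_mul_le.trans ?_
    rw [Polynomial.natDegree_X_pow]
    have := Polynomial.natDegree_pow_le_of_le l (natDegree_g f hf)
    omega
  refine lt_of_le_of_lt h1 ?_
  obtain ⟨p, hp⟩ := Nat.exists_eq_add_of_le h2
  rw [hp, Nat.add_sub_cancel_left]
  nlinarith

end EZE_

open EZE_

theorem eze_proof : Stmt_Eze := by
  intro f hf
  have h2 := hf.two
  have key : ∀ i j : Fin (f.natDegree - 1), i ≤ j → E1 f 0 i j = if i = j then 1 else 0 := by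
    intro i j hij
    have hij' : (i : ℕ) ≤ j := hij
    simp only [E1, Matrix.of_apply]
    rw [Finset.sum_eq_single 0]
    · have : ((Polynomial.X : Polynomial ℚ) ^ (i : ℕ)).coeff (j : ℕ) =
          if i = j then 1 else 0 := by
        rw [Polynomial.coeff_X_pow]
        by_cases h : i = j
        · simp [h]
        · have : (j : ℕ) ≠ i := fun h' => h (Fin.ext h'.symm)
          simp [h, this]
      simp [poch, this]
    · intro l _ hl0
      simp only [Nat.sub_zero]
      rw [coeff_zero f hf i j l hij' (by omega), mul_zero]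
    · intro h
      exact absurd (Finset.mem_Icc.mpr ⟨le_refl _, by positivity⟩) h
  constructor
  · intro i j hij
    rw [key i j hij.le, if_neg hij.ne]
  · intro i
    rw [key i i le_rfl, if_pos rfl]

end

end Pool.Agent.EVD
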