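import Pool.Agent.EVD.Stmts

set_option autoImplicit false

open scoped BigOperators Topology
open Matrix

namespace Pool.Agent.EVD

namespace FBE_

variable {ι : Type} [Fintype ι] [DecidableEq ι]

lemma mv {A U : Matrix ι ι ℂ} {e r : ℂ} {q : ℕ} {T : Fin q → ℂ} {x : Fin q → ι → ℂ}
    (h : Sy A U e r T x) (z : ℂ) (j : Fin q) :
    ((e + r * z) • (1 : Matrix ι ι ℂ) + A).mulVec (x j) = (r * (z - T j)) • x j := by
  rw [add_mulVec, smul_mulVec, one_mulVec, h.eig j, ← add_smul]
  congr 1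
  ring

lemma mvv {A U : Matrix ι ι ℂ} {e r : ℂ} {q : ℕ} {T : Fin q → ℂ} {x : Fin q → ι → ℂ}
    (h : Sy A U e r T x) (z : ℂ) (j : Fin q) (w : ι → ℂ) :
    ((e + r * z) • (1 : Matrix ι ι ℂ) + A) * vecMulVec (x j) w =
      (r * (z - T j)) • vecMulVec (x j) w := by
  rw [mul_vecMulVec, mv h z j, smul_vecMulVec]

end FBE_

open FBE_ in
theorem fbe_proof : Stmt_Fbe := by
  intro ι _ _ A U E e r q T x _ h
  refine ⟨fun z => ⟨?_, ?_⟩, ?_⟩
  · rintro hd j hj rfl
    apply hd
    apply exists_mulVec_eq_zero_iff.1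
    refine ⟨x j, hj, ?_⟩
    rw [mv h, sub_self, mul_zero, zero_smul]
  · intro hz
    set M := (e + r * z) • (1 : Matrix ι ι ℂ) + A with hM
    have h1 : M * (∑ j, (r * (z - T j))⁻¹ • vecMulVec (x j) (U.mulVec (x j))) = 1 := by
      rw [Finset.mul_sum, ← h.tot]
      refine Finset.sum_congr rfl fun j _ => ?_
      rw [Matrix.mul_smul, hM, mvv h z j]
      by_cases hj : x j = 0
      · rw [hj]
        ext a b
        simp [vecMulVec_apply]
      · rw [smul_smul, inv_mul_cancel₀ (mul_ne_zero h.rnz (sub_ne_zero.2 (hz j hj))), one_smul]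
    have h2 := congrArg Matrix.det h1
    rw [det_mul, det_one] at h2
    exact left_ne_zero_of_mul_eq_one h2
  · intro z hz
    have h3 : ((e + r * z) • (1 : Matrix ι ι ℂ) + A) * FB T (Ro U E x) z =
        ∑ j, r • (vecMulVec (x j) (U.mulVec (x j)) * E) := by
      unfold FB Ro
      rw [Finset.mul_sum]
      refine Finset.sum_congr rfl fun j _ => ?_
      rw [Matrix.mul_smul, ← Matrix.mul_assoc, mvv h z j, Matrix.smul_mul, smul_smul]
      congr 1
      have := sub_ne_zero.2 (hz j)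
      field_simp
    rw [h3, ← Finset.smul_sum, ← Finset.sum_mul, h.tot, Matrix.one_mul]

end Pool.Agent.EVD
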