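import Pool.Agent.EVD.FINA

set_option autoImplicit false

/-!
# EVD, module FIN: the final statement
-/

open scoped BigOperators Topology
open Metric Set

namespace Pool.Agent.EVD

open Pool.Agent.DG2.INDX_ (exists_le small)

namespace FIN_

/-- The isometry `θ g θ⁻¹`. -/
theorem conj_iso {ι : Type} [Fintype ι] [DecidableEq ι] {N Q θ g : Matrix ι ι ℂ} {c : ℂ}
    (hc : c ≠ 0) (hQ : Q.det ≠ 0) (hθ : θ.transpose * N * θ = c • Q) (hg : Iso Q g)
    (hd : g.det = 1) : Iso N (θ * g * θ⁻¹) ∧ (θ * g * θ⁻¹).det = 1 ∧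
      (θ * g * θ⁻¹) * θ = θ * g := by
  have hdet : θ.det ≠ 0 := by
    intro h0
    have h1 := congrArg Matrix.det hθ
    rw [Matrix.det_mul, h0, mul_zero, Matrix.det_smul] at h1
    exact (mul_ne_zero (pow_ne_zero _ hc) hQ) h1.symm
  have hu : IsUnit θ.det := isUnit_iff_ne_zero.mpr hdet
  have h1 : θ * θ⁻¹ = 1 := Matrix.mul_nonsing_inv _ hu
  have h2 : θ⁻¹ * θ = 1 := Matrix.nonsing_inv_mul _ hu
  refine ⟨?_, ?_, ?_⟩
  · unfold Iso at hg ⊢
    have h3 : N = (θ⁻¹).transpose * (c • Q) * θ⁻¹ := by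
      rw [← hθ]
      calc N = (θ * θ⁻¹).transpose * N * (θ * θ⁻¹) := by
            rw [h1, Matrix.transpose_one, Matrix.one_mul, Matrix.mul_one]
        _ = _ := by
            rw [Matrix.transpose_mul]
            simp only [Matrix.mul_assoc]
    calc (θ * g * θ⁻¹).transpose * N * (θ * g * θ⁻¹)
        = (θ⁻¹).transpose * (g.transpose * (θ.transpose * N * θ) * g) * θ⁻¹ := by
          rw [Matrix.transpose_mul, Matrix.transpose_mul]
          simp only [Matrix.mul_assoc]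
      _ = (θ⁻¹).transpose * (c • Q) * θ⁻¹ := by
          rw [hθ, Matrix.mul_smul, Matrix.smul_mul, hg]
      _ = N := h3.symm
  · rw [Matrix.det_mul, Matrix.det_mul, hd, mul_one, ← Matrix.det_mul, h1, Matrix.det_one]
  · rw [Matrix.mul_assoc, h2, Matrix.mul_one]

end FIN_

open FIN_ in
theorem fin_proof (hOkt : Stmt_Okt) (hFst : Stmt_Fst) (hGtp : Stmt_Gtp) (hSro : Stmt_Sro)
    (hLap : Stmt_Lap) (hMko : Stmt_Mko) (hBlc : Stmt_Blc) (hTrg : Stmt_Trg) (hNdg : Stmt_Ndg)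
    (hNfo : Stmt_Nfo) (hMnp : Stmt_Mnp) : Stmt_Fin := by
  classical
  intro nF k f hk hAdm hsep r φ D
  have hpi : (2 * Real.pi * Complex.I : ℂ) ≠ 0 := by
    simp [Real.pi_ne_zero, Complex.I_ne_zero]
  choose i₀ hOku using fun a => (hOkt (k a) (f a) (hk a) (hAdm a)).1
  have hA : ∀ a, (AT (f a)).det ≠ 0 := fun a => det_AT hOkt (hk a) (hAdm a)
  have hG : ∀ a, GTyp (AT (f a)) (Eo (k a + 1) (BT (f a))) := fun a =>
    hGtp (Ix (f a)) (k a + 1) (AT (f a)) (BT (f a)) (UT (f a)) (bI (f a)) (i₀ a) (ET (f a))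
      (hOku a) (hFst _ (f a) (adm_g1 (hAdm a)))
  choose R hR hθ hdata using fun a => data hOkt hSro hLap hMko hBlc hTrg hNdg (hk a) (hAdm a)
  have hfacQ : ∀ a, ((-1) ^ (k a) / ((k a).factorial : ℚ) ^ 2 : ℚ) ≠ 0 := by
    intro a
    apply div_ne_zero
    · exact pow_ne_zero _ (by norm_num)
    · exact pow_ne_zero _ (by exact_mod_cast Nat.factorial_ne_zero (k a))
  have hne : ∀ a, Nonempty (Ix (f a)) := by
    intro a
    refine ⟨fun j => ⟨0, ?_⟩⟩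
    have := (hAdm a).two j
    omega
  have hneφ : ∀ i, Nonempty (Ix (f (φ i))) := fun i => hne (φ i)
  obtain ⟨D', hD'⟩ := hNfo r (fun i => Ix (f (φ i))) (fun i => k (φ i) + 1) D
  obtain ⟨δ₁, hδ₁, C, n₁, hmnp⟩ := hMnp nF (fun a => Ix (f a)) (fun a => k a + 1)
    (fun a => AT (f a)) (fun a => BT (f a)) (fun a => UT (f a)) (fun a => bI (f a)) i₀ hOku hA hG
    (by
      intro a b ρ hρ hab
      apply crit_sep hOkt (hk a) (hAdm a) (hk b) (hAdm b) ρ hρ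
      by_cases h : a = b
      · subst h
        exact crit_self (hAdm a) ρ hρ (hab.resolve_left (fun h => h rfl))
      · exact hsep a b h ρ hρ)
    (fun a => MK (f a) (k a) 0) r φ D'
  obtain ⟨ρ₁, hρ₁, hρ₁le⟩ := exists_le R R hR hR
  refine ⟨min δ₁ (1 / 2), lt_min hδ₁ (by norm_num), C, max n₁ (⌈1 / ρ₁ ^ 2⌉₊ + 2), ?_⟩
  intro n hn
  have hn1 : n₁ ≤ n := le_trans (le_max_left _ _) hn
  have hn2 : ⌈1 / ρ₁ ^ 2⌉₊ + 2 ≤ n := le_trans (le_max_right _ _) hn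
  have hnN : 1 ≤ n := by omega
  have hnR : (1 : ℝ) ≤ n := by exact_mod_cast hnN
  obtain ⟨S, hS, hmain⟩ := hmnp n hn1
  refine ⟨S, hS, ?_⟩
  intro ρ hρd hρ L hfin hfr P hPdeg hP0 mu g hmu hg
  by_contra hPne
  have hpow : (n : ℝ) ^ (min δ₁ (1 / 2)) ≤ (n : ℝ) ^ δ₁ :=
    Real.rpow_le_rpow_of_exponent_le hnR (min_le_left _ _)
  have hsm : ∀ i, (0 : ℝ) < (ρ i : ℝ) / n ∧ (ρ i : ℝ) / n < ρ₁ := fun i =>
    small n ρ₁ (min δ₁ (1 / 2)) hρ₁ (min_le_right _ _) hn2 (ρ i) (hρ i).1 (hρ i).2.2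
  have hcast : ∀ i, (((ρ i / n : ℚ)) : ℝ) = (ρ i : ℝ) / n := by
    intro i
    push_cast
    rfl
  have hd : ∀ i, _ := fun i => hdata (φ i) (ρ i / n) (by
    have h1 := (hρ i).1
    positivity) (by
    rw [hcast]
    exact lt_of_lt_of_le (hsm i).2 (hρ₁le (φ i)).1)
  -- the period matrices
  let M : ∀ i, Matrix (Ix (f (φ i))) (Ix (f (φ i))) ℂ := fun i =>
    MK (f (φ i)) (k (φ i)) ((ρ i / n : ℚ) : ℂ)
  let H : ∀ i, Matrix (Ix (f (φ i))) (Ix (f (φ i))) ℚ := fun i =>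
    (GK (f (φ i)) (k (φ i)) (ρ i / n))⁻¹
  have hper : (fun i => per (f (φ i)) ((ρ i / n : ℚ) : ℂ)) = fun i => cm (H i) * M i :=
    funext fun i => (hd i).2.2.2
  have hperg : (fun i => per (f (φ i)) ((ρ i / n : ℚ) : ℂ) * g i) =
      fun i => cm (H i) * (M i * g i) := by
    funext i
    rw [← Matrix.mul_assoc]
    congr 1
    exact (hd i).2.2.2
  obtain ⟨Rp, hRdeg, hR0, g', hg', hRne⟩ := hD'
    (fun i => UT (f (φ i)) * ((ρ i / n) • (1 : Matrix (Ix (f (φ i))) (Ix (f (φ i))) ℚ) +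
      AT (f (φ i)))) (fun i => inter (f (φ i)))
    (fun i => (-1) ^ (k (φ i)) / ((k (φ i)).factorial : ℚ) ^ 2) M
    (by
      intro i
      have hO := hOku (φ i)
      refine ⟨?_, ?_, ?_, ?_, hfacQ (φ i), (hd i).2.2.1⟩
      · rw [Matrix.transpose_mul, Matrix.transpose_add, Matrix.transpose_smul,
          Matrix.transpose_one, hO.Usym, Matrix.add_mul, ← hO.UA, Matrix.mul_add,
          Matrix.smul_mul, Matrix.mul_smul, Matrix.one_mul, Matrix.mul_one]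
      · rw [Matrix.det_mul]
        exact mul_ne_zero hO.Udet (hd i).2.1
      · exact (hNdg (k (φ i)) (f (φ i)) (hk _) (hAdm _).two (hAdm _).cop).2
      · exact (hNdg (k (φ i)) (f (φ i)) (hk _) (hAdm _).two (hAdm _).cop).1)
    L hfin hfr (MvPolynomial.bind₁ (sub L H) P)
    (le_trans (totalDegree_bind_le _ (sub_deg L H) P) hPdeg)
    (by
      rw [sub_ev, ← hper]
      exact hP0)
    ⟨mu, g, hmu, fun i => by
        have h1 : 2 * (k (φ i) + 1) = 2 * k (φ i) + 2 := by ring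
        show OSim (2 * (k (φ i) + 1)) (inter (f (φ i))) mu (g i)
        rw [h1]
        exact hg i, by
      rw [sub_ev, ← hperg]
      exact hPne⟩
  -- the isometries
  have hci : ∀ i, _ := fun i => conj_iso (N := cm (UT (f (φ i)) * AT (f (φ i))))
    (Q := cm (inter (f (φ i)))) (θ := MK (f (φ i)) (k (φ i)) 0) (g := g' i)
    (c := (2 * Real.pi * Complex.I) ^ (2 * (k (φ i) + 1)) *
      (((-1) ^ (k (φ i)) / ((k (φ i)).factorial : ℚ) ^ 2 : ℚ) : ℂ))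
    (mul_ne_zero (pow_ne_zero _ hpi) (by exact_mod_cast hfacQ (φ i)))
    (by
      rw [cm_det]
      exact_mod_cast (hNdg (k (φ i)) (f (φ i)) (hk _) (hAdm _).two (hAdm _).cop).1)
    (hθ (φ i)) (hg' i).1 (hg' i).2
  have hMeq : (fun i => M i) = fun i => Yv (AT (f (φ i))) (Eo (k (φ i) + 1) (BT (f (φ i))))
      ((ρ i : ℝ) / n) * MK (f (φ i)) (k (φ i)) 0 := by
    funext i
    have h1 := (hd i).1
    rw [hcast] at h1
    exact h1
  have hfinal := hmain ρ hρd (fun i => ⟨(hρ i).1, (hρ i).2.1,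
      le_trans (hρ i).2.2.1 hpow, le_trans (hρ i).2.2.2 hpow⟩) Rp hRdeg
    (by
      rw [← hMeq]
      exact hR0)
    (fun i => MK (f (φ i)) (k (φ i)) 0 * g' i * (MK (f (φ i)) (k (φ i)) 0)⁻¹)
    (fun i => ⟨(hci i).1, (hci i).2.1⟩)
  have hfun : (fun i => M i * g' i) = fun i =>
      Yv (AT (f (φ i))) (Eo (k (φ i) + 1) (BT (f (φ i)))) ((ρ i : ℝ) / n) *
        (MK (f (φ i)) (k (φ i)) 0 * g' i * (MK (f (φ i)) (k (φ i)) 0)⁻¹) *
        MK (f (φ i)) (k (φ i)) 0 := by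
    funext i
    have h1 : M i = Yv (AT (f (φ i))) (Eo (k (φ i) + 1) (BT (f (φ i))))
      ((ρ i : ℝ) / n) * MK (f (φ i)) (k (φ i)) 0 := congrFun hMeq i
    rw [h1, Matrix.mul_assoc, Matrix.mul_assoc]
    congr 1
    exact (hci i).2.2.symm
  apply hRne
  rw [hfun]
  exact hfinal

end Pool.Agent.EVD
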