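import Pool.Agent.EVD.Stmts
import Pool.Agent.DG2.INDXA

set_option autoImplicit false

/-!
# EVD, module FIN: the final statement, preparations
-/

open scoped BigOperators Topology
open Metric Set

namespace Pool.Agent.EVD

namespace FIN_

/-! ### Rational matrices as complex matrices -/

section

variable {ι : Type} [Fintype ι] [DecidableEq ι]

theorem cm_mul (A B : Matrix ι ι ℚ) : cm (A * B) = cm A * cm B := by
  ext i j
  simp [cm, Matrix.mul_apply]

theorem cm_add (A B : Matrix ι ι ℚ) : cm (A + B) = cm A + cm B := by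
  ext i j
  simp [cm]

theorem cm_sub (A B : Matrix ι ι ℚ) : cm (A - B) = cm A - cm B := by
  ext i j
  simp [cm]

theorem cm_smul (c : ℚ) (A : Matrix ι ι ℚ) : cm (c • A) = (c : ℂ) • cm A := by
  ext i j
  simp [cm]

theorem cm_one : cm (1 : Matrix ι ι ℚ) = 1 := by
  ext i j
  by_cases h : i = j
  · subst h; simp [cm]
  · simp [cm, Matrix.one_apply_ne h]

theorem cm_det (A : Matrix ι ι ℚ) : (cm A).det = ((A.det : ℚ) : ℂ) := by
  have h2 := (RingHom.map_det (algebraMap ℚ ℂ) A).symm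
  exact h2

theorem cm_inv (A : Matrix ι ι ℚ) : cm A⁻¹ = (cm A)⁻¹ := by
  by_cases h : A.det = 0
  · have h1 : ¬ IsUnit A.det := by rw [h]; exact not_isUnit_zero
    have h2 : ¬ IsUnit (cm A).det := by
      rw [cm_det, h]
      simp
    rw [Matrix.nonsing_inv_apply_not_isUnit _ h1, Matrix.nonsing_inv_apply_not_isUnit _ h2]
    ext i j
    simp [cm]
  · have h1 : IsUnit A.det := isUnit_iff_ne_zero.mpr h
    symm
    apply Matrix.inv_eq_right_inv
    rw [← cm_mul, Matrix.mul_nonsing_inv _ h1, cm_one]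

theorem cm_lin (t : ℚ) (A : Matrix ι ι ℚ) :
    cm (t • (1 : Matrix ι ι ℚ) + A) = (t : ℂ) • (1 : Matrix ι ι ℂ) + cm A := by
  rw [cm_add, cm_smul, cm_one]

end

/-! ### The gauge matrices -/

theorem MK_eq {n : ℕ} (f : Fin n → Polynomial ℚ) (d : ℕ) (t : ℚ) :
    MK f d (t : ℂ) = cm (GK f d t) * LM f (t : ℂ) := by
  induction d with
  | zero => simp only [MK, GK, cm_one, Matrix.one_mul]
  | succ d ih =>
    simp only [MK, GK]
    rw [ih, cm_smul, cm_mul, cm_mul, cm_inv, cm_lin, cm_sub, cm_smul, cm_one, Matrix.smul_mul]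
    push_cast
    simp only [Matrix.mul_assoc]

/-! ### The data of one family -/

theorem adm_g1 {n : ℕ} {f : Fin n → Polynomial ℚ} (h : Adm f) (j : Fin n) : G1 (f j) :=
  ⟨h.mon j, h.two j, h.sub j⟩

theorem adm_ray {n : ℕ} {f : Fin n → Polynomial ℚ} (h : Adm f) (j : Fin n) : RayP (f j) :=
  fun l x hx => h.ray j l x hx

theorem det_AT (hOkt : Stmt_Okt) {k : ℕ} {f : Fin (2 * k + 1) → Polynomial ℚ} (hk : 1 ≤ k)
    (h : Adm f) : (AT f).det ≠ 0 := by
  have h1 := ((hOkt k f hk h).2 0).mpr (by rw [neg_zero]; exact h.zer)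
  rw [zero_smul, zero_add, cm_det] at h1
  intro h2
  rw [h2] at h1
  exact h1 (by simp)

theorem data (hOkt : Stmt_Okt) (hSro : Stmt_Sro) (hLap : Stmt_Lap) (hMko : Stmt_Mko)
    (hBlc : Stmt_Blc) (hTrg : Stmt_Trg) (hNdg : Stmt_Ndg) {k : ℕ}
    {f : Fin (2 * k + 1) → Polynomial ℚ} (hk : 1 ≤ k) (h : Adm f) :
    ∃ R : ℝ, 0 < R ∧
    (MK f k 0).transpose * cm (UT f * AT f) * MK f k 0 =
      ((2 * Real.pi * Complex.I) ^ (2 * (k + 1)) *
        (((-1) ^ k / (k.factorial : ℚ) ^ 2 : ℚ) : ℂ)) • cm (inter f) ∧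
    ∀ w : ℚ, 0 ≤ w → (w : ℝ) < R →
      MK f k (w : ℂ) = Yv (AT f) (Eo (k + 1) (BT f)) (w : ℝ) * MK f k 0 ∧
      (w • (1 : Matrix (Ix f) (Ix f) ℚ) + AT f).det ≠ 0 ∧
      (MK f k (w : ℂ)).transpose * cm (UT f * (w • (1 : Matrix (Ix f) (Ix f) ℚ) + AT f)) *
        MK f k (w : ℂ) = ((2 * Real.pi * Complex.I) ^ (2 * (k + 1)) *
          (((-1) ^ k / (k.factorial : ℚ) ^ 2 : ℚ) : ℂ)) • cm (inter f) ∧
      per f (w : ℂ) = cm (GK f k w)⁻¹ * MK f k (w : ℂ) := by
  have hpi : (2 * Real.pi * Complex.I : ℂ) ≠ 0 := by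
    simp [Real.pi_ne_zero, Complex.I_ne_zero]
  have hfac : (((-1) ^ k / (k.factorial : ℚ) ^ 2 : ℚ) : ℂ) ≠ 0 := by
    have h1 : ((-1) ^ k / (k.factorial : ℚ) ^ 2 : ℚ) ≠ 0 := by
      apply div_ne_zero
      · exact pow_ne_zero _ (by norm_num)
      · exact pow_ne_zero _ (by exact_mod_cast Nat.factorial_ne_zero k)
    exact_mod_cast h1
  have hA := det_AT hOkt hk h
  obtain ⟨ρ, Y, Y', hρ, hY0, hY, hser, huniq⟩ := hSro (Ix f) (AT f) (Eo (k + 1) (BT f)) hA
  obtain ⟨c1, hc1, hM⟩ := hMko (2 * k + 1) f (by omega) (adm_g1 h) h.cop (adm_ray h)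
  obtain ⟨L', hL'⟩ := hM k (by omega)
  obtain ⟨c2, hc2, hB⟩ := hBlc k f hk (adm_g1 h) h.cop (adm_ray h)
  have hre : ∀ c : ℝ, ∀ z ∈ ball (0 : ℂ) c, -c < z.re := by
    intro c z hz
    rw [mem_ball_zero_iff] at hz
    have h1 := Complex.abs_re_le_norm z
    have h2 := neg_abs_le z.re
    linarith
  have hser2 := huniq c1 hc1 (MK f k) L' (by
    intro z hz
    obtain ⟨h1, h2⟩ := hL' z (hre c1 z hz)
    refine ⟨h1, ?_⟩
    rw [h2]
    congr 1
    unfold Eo
    rw [cm_sub, cm_smul, cm_one]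
    have h3 : (2 * k + 1 - k : ℕ) = k + 1 := by omega
    rw [h3]
    push_cast
    rfl)
  have hbil : ∀ w : ℚ, -c2 < (w : ℂ).re →
      (MK f k (w : ℂ)).transpose * cm (UT f * (w • (1 : Matrix (Ix f) (Ix f) ℚ) + AT f)) *
        MK f k (w : ℂ) = ((2 * Real.pi * Complex.I) ^ (2 * (k + 1)) *
          (((-1) ^ k / (k.factorial : ℚ) ^ 2 : ℚ) : ℂ)) • cm (inter f) := by
    intro w hw
    ext a a'
    rw [cm_mul, cm_lin, hB w hw a a', hTrg k f hk h.two h.cop a a', Matrix.smul_apply, smul_eq_mul]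
    have h1 : 2 * (k + 1) = 2 * k + 2 := by ring
    rw [h1]
    push_cast
    rfl
  refine ⟨min ρ c1, lt_min hρ hc1, ?_, ?_⟩
  · have h1 := hbil 0 (by simpa using hc2)
    rw [zero_smul, zero_add] at h1
    have h2 : ((0 : ℚ) : ℂ) = 0 := by simp
    rw [h2] at h1
    exact h1
  intro w hw0 hwR
  have hw0R : (0 : ℝ) ≤ (w : ℝ) := by exact_mod_cast hw0
  have hwρ : (w : ℝ) < ρ := lt_of_lt_of_le hwR (min_le_left _ _)
  have hwC : (w : ℂ) = ((w : ℝ) : ℂ) := by push_cast; rfl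
  have hmem : ∀ c : ℝ, (w : ℝ) < c → (w : ℂ) ∈ ball (0 : ℂ) c := by
    intro c hc
    rw [mem_ball_zero_iff, hwC, Complex.norm_real, Real.norm_eq_abs, abs_of_nonneg hw0R]
    exact hc
  have hbw := hbil w (by
    rw [hwC, Complex.ofReal_re]
    linarith)
  have hdet : (w • (1 : Matrix (Ix f) (Ix f) ℚ) + AT f).det ≠ 0 := by
    have h1 := (hY (w : ℂ) (hmem ρ hwρ)).1
    rw [← cm_lin, cm_det] at h1
    exact_mod_cast h1
  refine ⟨?_, hdet, hbw, ?_⟩
  · have h1 := hser2 (w : ℂ) (hmem _ hwR)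
    rw [h1]
    congr 1
    rw [hwC]
    exact (hser (w : ℝ) (by rw [abs_of_nonneg hw0R]; exact hwρ)).2
  · have h1 : per f (w : ℂ) = LM f (w : ℂ) :=
      hLap (2 * k + 1) f (by omega) h.mon h.two (adm_ray h) (w : ℂ) (by
        rw [hwC, Complex.ofReal_re]
        exact hw0R)
    rw [h1, MK_eq, ← Matrix.mul_assoc, ← cm_mul]
    have h2 : (GK f k w).det ≠ 0 := by
      intro h3
      have h4 := congrArg Matrix.det hbw
      rw [Matrix.det_mul, Matrix.det_smul, cm_det (inter f)] at h4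
      have h5 : (MK f k (w : ℂ)).det = 0 := by
        rw [MK_eq, Matrix.det_mul, cm_det, h3]
        simp
      rw [h5, mul_zero] at h4
      have h6 : ((inter f).det : ℂ) ≠ 0 := by
        exact_mod_cast (hNdg k f hk h.two h.cop).1
      exact (mul_ne_zero (pow_ne_zero _ (mul_ne_zero (pow_ne_zero _ hpi) hfac)) h6) h4.symm
    rw [Matrix.nonsing_inv_mul _ (isUnit_iff_ne_zero.mpr h2), cm_one, Matrix.one_mul]

/-! ### Substitution -/

/-- The degree after a substitution by polynomials of degree at most one. -/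
theorem totalDegree_bind_le {σ τ : Type} {R : Type} [CommRing R] (f : σ → MvPolynomial τ R)
    (hf : ∀ s, (f s).totalDegree ≤ 1) (P : MvPolynomial σ R) :
    (MvPolynomial.bind₁ f P).totalDegree ≤ P.totalDegree := by
  classical
  have h1 : MvPolynomial.bind₁ f P
      = ∑ s ∈ P.support, MvPolynomial.C (P.coeff s) * ∏ i ∈ s.support, f i ^ s i := by
    rw [← MvPolynomial.aeval_eq_bind₁, MvPolynomial.aeval_def, MvPolynomial.eval₂_eq]
    rfl
  rw [h1]
  apply MvPolynomial.totalDegree_finsetSum_le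
  intro s hs
  refine le_trans (MvPolynomial.totalDegree_mul _ _) ?_
  rw [MvPolynomial.totalDegree_C, zero_add]
  refine le_trans (MvPolynomial.totalDegree_finsetProd _ _) ?_
  have h2 : ∑ i ∈ s.support, s i ≤ P.totalDegree := MvPolynomial.le_totalDegree hs
  refine le_trans (Finset.sum_le_sum (fun i _ => ?_)) h2
  refine le_trans (MvPolynomial.totalDegree_pow _ _) ?_
  calc s i * (f i).totalDegree ≤ s i * 1 := Nat.mul_le_mul_left _ (hf i)
    _ = s i := mul_one _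

section

variable {r : ℕ} {ι : Fin r → Type} [∀ k, Fintype (ι k)] [∀ k, DecidableEq (ι k)]

/-- The substitution `M_i = H_i M'_i`. -/
noncomputable def sub (L : IntermediateField ℚ ℂ) (H : ∀ i, Matrix (ι i) (ι i) ℚ) :
    Option (Σ k, ι k × ι k) → MvPolynomial (Option (Σ k, ι k × ι k)) L
  | none => MvPolynomial.X none
  | some p => ∑ a, MvPolynomial.C (algebraMap ℚ L (H p.1 p.2.1 a)) *
      MvPolynomial.X (some ⟨p.1, (a, p.2.2)⟩)

theorem sub_deg (L : IntermediateField ℚ ℂ) (H : ∀ i, Matrix (ι i) (ι i) ℚ)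
    (o : Option (Σ k, ι k × ι k)) : (sub L H o).totalDegree ≤ 1 := by
  cases o with
  | none => exact le_of_eq (MvPolynomial.totalDegree_X _)
  | some p =>
    apply MvPolynomial.totalDegree_finsetSum_le
    intro a _
    refine le_trans (MvPolynomial.totalDegree_mul _ _) ?_
    rw [MvPolynomial.totalDegree_C, zero_add]
    exact le_of_eq (MvPolynomial.totalDegree_X _)

theorem sub_ev (L : IntermediateField ℚ ℂ) (H : ∀ i, Matrix (ι i) (ι i) ℚ) (lam : ℂ)
    (M : ∀ i, Matrix (ι i) (ι i) ℂ) (P : MvPolynomial (Option (Σ k, ι k × ι k)) L) :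
    (MvPolynomial.aeval (pt lam M) (MvPolynomial.bind₁ (sub L H) P) : ℂ) =
      MvPolynomial.aeval (pt lam (fun i => cm (H i) * M i)) P := by
  rw [MvPolynomial.aeval_bind₁]
  congr 2
  funext o
  cases o with
  | none => simp [sub, pt]
  | some p =>
    have h1 : ∀ x : ℚ, algebraMap L ℂ (algebraMap ℚ L x) = (x : ℂ) := by
      intro x
      simp
    have h2 : MvPolynomial.aeval (pt lam M) (sub L H (some p)) =
        ∑ a, (H p.1 p.2.1 a : ℂ) * M p.1 a p.2.2 := by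
      simp only [sub, map_sum, map_mul, MvPolynomial.aeval_C, MvPolynomial.aeval_X, h1]
      rfl
    rw [h2]
    show _ = (cm (H p.1) * M p.1) p.2.1 p.2.2
    rw [Matrix.mul_apply]
    rfl

end

/-! ### Scaling -/

theorem crit_sep (hOkt : Stmt_Okt) {k : ℕ} {f : Fin (2 * k + 1) → Polynomial ℚ} (hk : 1 ≤ k)
    (h : Adm f) {k' : ℕ} {f' : Fin (2 * k' + 1) → Polynomial ℚ} (hk' : 1 ≤ k') (h' : Adm f')
    (ρ : ℚ) (hρ : 0 < ρ)
    (hne : (fun v => (ρ : ℂ) * v) '' crit f ≠ crit f') :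
    ∃ z : ℂ, ¬((z • (1 : Matrix (Ix f) (Ix f) ℂ) + cm (AT f)).det ≠ 0 ↔
      (((ρ : ℂ) * z) • (1 : Matrix (Ix f') (Ix f') ℂ) + cm (AT f')).det ≠ 0) := by
  by_contra hcon
  push Not at hcon
  apply hne
  have hρC : (ρ : ℂ) ≠ 0 := by exact_mod_cast hρ.ne'
  have h1 : ∀ z : ℂ, -z ∉ crit f ↔ -((ρ : ℂ) * z) ∉ crit f' := by
    intro z
    rw [← (hOkt k f hk h).2 z, ← (hOkt k' f' hk' h').2 ((ρ : ℂ) * z)]
    exact ⟨fun h2 => (hcon z).1 h2, fun h2 => (hcon z).2 h2⟩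
  ext v
  constructor
  · rintro ⟨u, hu, rfl⟩
    by_contra hv
    have h2 := (h1 (-u)).mpr (by
      have : -((ρ : ℂ) * -u) = (ρ : ℂ) * u := by ring
      rw [this]
      exact hv)
    rw [neg_neg] at h2
    exact h2 hu
  · intro hv
    refine ⟨v / ρ, ?_, by field_simp⟩
    by_contra hu
    have h2 := (h1 (-(v / ρ))).mp (by rw [neg_neg]; exact hu)
    have h3 : -((ρ : ℂ) * -(v / ρ)) = v := by field_simp
    rw [h3] at h2
    exact h2 hv

theorem crit_self {n : ℕ} {f : Fin n → Polynomial ℚ} (h : Adm f) (ρ : ℚ) (hρ : 0 < ρ)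
    (hρ1 : ρ ≠ 1) : (fun v => (ρ : ℂ) * v) '' crit f ≠ crit f := by
  intro heq
  have hcard : 0 < (crit f).ncard := by
    rw [h.car]
    apply Finset.prod_pos
    intro j _
    have := h.two j
    omega
  have hfin : (crit f).Finite := Set.finite_of_ncard_pos hcard
  have hne : (crit f).Nonempty := Set.nonempty_of_ncard_ne_zero (by omega)
  have hρR : (0 : ℝ) < (ρ : ℝ) := by exact_mod_cast hρ
  have hnorm : ∀ v : ℂ, ‖(ρ : ℂ) * v‖ = (ρ : ℝ) * ‖v‖ := by
    intro v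
    rw [norm_mul]
    congr 1
    have h1 : ((ρ : ℚ) : ℂ) = (((ρ : ℝ)) : ℂ) := by push_cast; rfl
    rw [h1, Complex.norm_real, Real.norm_eq_abs, abs_of_pos hρR]
  have hpos : ∀ v ∈ crit f, 0 < ‖v‖ := by
    intro v hv
    rw [norm_pos_iff]
    intro h0
    rw [h0] at hv
    exact h.zer hv
  rcases lt_or_gt_of_ne hρ1 with hlt | hgt
  · -- the smallest element
    obtain ⟨v, hv, hmin⟩ := hfin.exists_minimalFor (fun v : ℂ => ‖v‖) (crit f) hne
    have h1 : (ρ : ℂ) * v ∈ crit f := by rw [← heq]; exact ⟨v, hv, rfl⟩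
    have h2 := hpos v hv
    have h3 : (ρ : ℝ) < 1 := by exact_mod_cast hlt
    have h4 : ‖(ρ : ℂ) * v‖ ≤ ‖v‖ := by
      rw [hnorm]
      nlinarith
    have h5 := hmin h1 h4
    simp only [hnorm] at h5
    nlinarith
  · obtain ⟨v, hv, hmax⟩ := hfin.exists_maximalFor (fun v : ℂ => ‖v‖) (crit f) hne
    have h1 : (ρ : ℂ) * v ∈ crit f := by rw [← heq]; exact ⟨v, hv, rfl⟩
    have h2 := hpos v hv
    have h3 : (1 : ℝ) < (ρ : ℝ) := by exact_mod_cast hgt
    have h4 : ‖v‖ ≤ ‖(ρ : ℂ) * v‖ := by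
      rw [hnorm]
      nlinarith
    have h5 := hmax h1 h4
    simp only [hnorm] at h5
    nlinarith

end FIN_

end Pool.Agent.EVD
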