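import Pool.Agent.EVD.Stmts

set_option autoImplicit false

/-!
# EVD, module FNC: polynomial maps with finitely many values on a dense group are constant
-/

open scoped BigOperators Topology
open Metric Set MeasureTheory

namespace Pool.Agent.EVD

noncomputable section

namespace FNC_

set_option linter.unusedSectionVars false

variable {ι : Type} [Fintype ι] [DecidableEq ι]

/-- The quadratic form. -/
def qf (Q : Matrix ι ι ℂ) (u : ι → ℂ) : ℂ := dotProduct u (Q.mulVec u)

lemma sym_dot (Q : Matrix ι ι ℂ) (hQ : Q.transpose = Q) (u w : ι → ℂ) :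
    dotProduct u (Q.mulVec w) = dotProduct w (Q.mulVec u) := by
  rw [Matrix.dotProduct_mulVec, ← Matrix.mulVec_transpose, hQ, dotProduct_comm]

lemma pr_transpose_mul (Q : Matrix ι ι ℂ) (hQ : Q.transpose = Q) (u : ι → ℂ) :
    (pr Q u).transpose * Q = Matrix.vecMulVec (Q.mulVec u) (Q.mulVec u) := by
  unfold pr
  rw [Matrix.transpose_vecMulVec, Matrix.vecMulVec_mul, ← Matrix.mulVec_transpose, hQ]

lemma mul_pr (Q : Matrix ι ι ℂ) (u : ι → ℂ) :
    Q * pr Q u = Matrix.vecMulVec (Q.mulVec u) (Q.mulVec u) := by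
  unfold pr
  rw [Matrix.mul_vecMulVec]

lemma pr_mul_pr (Q : Matrix ι ι ℂ) (u : ι → ℂ) :
    pr Q u * pr Q u = qf Q u • pr Q u := by
  unfold pr qf
  rw [Matrix.vecMulVec_mul_vecMulVec, dotProduct_comm]
  ext i j
  simp [Matrix.vecMulVec_apply]
  ring

lemma refl_mul_self (Q : Matrix ι ι ℂ) (u : ι → ℂ) (hu : qf Q u ≠ 0) :
    refl Q u * refl Q u = 1 := by
  have h : refl Q u = 1 - (2 / qf Q u) • pr Q u := rfl
  rw [h, sub_mul, mul_sub, mul_sub, one_mul, mul_one, one_mul, smul_mul_assoc,
    mul_smul_comm, pr_mul_pr Q, smul_smul, smul_smul]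
  have : 2 / qf Q u * (2 / qf Q u) * qf Q u = 2 * (2 / qf Q u) := by
    field_simp
  rw [this, two_mul, add_smul]
  abel

lemma iso_refl (Q : Matrix ι ι ℂ) (hQ : Q.transpose = Q) (u : ι → ℂ) (hu : qf Q u ≠ 0) :
    Iso Q (refl Q u) := by
  have h : refl Q u = 1 - (2 / qf Q u) • pr Q u := rfl
  have h1 : (refl Q u).transpose * Q = Q * refl Q u := by
    rw [h, Matrix.transpose_sub, Matrix.transpose_smul, Matrix.transpose_one, sub_mul, mul_sub,
      one_mul, mul_one, smul_mul_assoc, mul_smul_comm, pr_transpose_mul Q hQ, mul_pr]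
  unfold Iso
  rw [h1, mul_assoc, refl_mul_self Q u hu, mul_one]

lemma iso_mul (Q a b : Matrix ι ι ℂ) (ha : Iso Q a) (hb : Iso Q b) : Iso Q (a * b) := by
  unfold Iso at *
  rw [Matrix.transpose_mul]
  calc b.transpose * a.transpose * Q * (a * b) = b.transpose * (a.transpose * Q * a) * b := by
        simp only [mul_assoc]
    _ = _ := by rw [ha, hb]

lemma iso_one (Q : Matrix ι ι ℂ) : Iso Q 1 := by simp [Iso]

lemma iso_list (Q : Matrix ι ι ℂ) (l : List (Matrix ι ι ℂ)) (h : ∀ a ∈ l, Iso Q a) :
    Iso Q l.prod := by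
  induction l with
  | nil => simpa using iso_one Q
  | cons a l ih =>
      rw [List.prod_cons]
      exact iso_mul Q _ _ (h a (by simp)) (ih fun b hb => h b (by simp [hb]))

lemma det_sq (Q a : Matrix ι ι ℂ) (hQ : Q.det ≠ 0) (ha : Iso Q a) : a.det = 1 ∨ a.det = -1 := by
  have h := congrArg Matrix.det ha
  rw [Matrix.det_mul, Matrix.det_mul, Matrix.det_transpose] at h
  have h2 : (a.det - 1) * (a.det + 1) * Q.det = 0 := by linear_combination h
  rcases mul_eq_zero.mp h2 with h3 | h3
  · rcases mul_eq_zero.mp h3 with h4 | h4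
    · left; linear_combination h4
    · right; linear_combination h4
  · exact absurd h3 hQ

/-- The quadratic form on a line has finitely many zeros. -/
lemma finite_zeros (Q : Matrix ι ι ℂ) (hQ : Q.transpose = Q) (u w : ι → ℂ) (hu : qf Q u ≠ 0) :
    {t : ℂ | qf Q (u + t • w) = 0}.Finite := by
  set p : Polynomial ℂ := Polynomial.C (qf Q u) +
    Polynomial.C (2 * dotProduct u (Q.mulVec w)) * Polynomial.X +
    Polynomial.C (qf Q w) * Polynomial.X ^ 2 with hp
  have hev : ∀ t : ℂ, p.eval t = qf Q (u + t • w) := by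
    intro t
    rw [hp]
    simp only [Polynomial.eval_add, Polynomial.eval_mul, Polynomial.eval_C, Polynomial.eval_X,
      Polynomial.eval_pow, qf, Matrix.mulVec_add, Matrix.mulVec_smul, dotProduct_add,
      add_dotProduct, smul_dotProduct, dotProduct_smul, smul_eq_mul]
    rw [sym_dot Q hQ w u]
    ring
  have hp0 : p ≠ 0 := by
    intro h
    have := hev 0
    rw [h] at this
    simp at this
    exact hu this.symm
  have := Polynomial.finite_setOfPred_isRoot hp0
  refine this.subset ?_
  intro t ht
  simp only [Set.mem_ofPred_eq, Polynomial.IsRoot.def] at *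
  rw [hev, ht]

lemma finite_compl_preconnected (S : Set ℂ) (hS : Sᶜ.Finite) : IsPreconnected S := by
  have h := hS.countable.isConnected_compl_of_one_lt_rank (E := ℂ) (by
    rw [Complex.rank_real_complex]
    norm_num)
  rw [compl_compl] at h
  exact h.isPreconnected

end FNC_

open FNC_

theorem fnc_proof (hPar : Stmt_Par) : Stmt_Fnc := by
  intro ι _ _ _ Q X hQ hdet hX σ φ F hF hφ a ha hda s
  obtain ⟨u, hu, hprod⟩ := hPar ι Q hQ hdet a ha hda
  -- values on the special orthogonal group
  set Fs : Set ℂ := (fun f : σ → ℂ => f s) '' F with hFs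
  have hFsf : Fs.Finite := hF.image _
  have hval : ∀ g, Iso Q g → g.det = 1 →
      MvPolynomial.eval (fun p : ι × ι => g p.1 p.2) (φ s) ∈ Fs := by
    intro g hg hdg
    have hz := (hX g hg hdg).2 (∏ c ∈ hFsf.toFinset, (φ s - MvPolynomial.C c)) (by
      intro x hx
      rw [map_prod]
      have hx2 := hφ x hx
      apply Finset.prod_eq_zero
        (i := MvPolynomial.eval (fun p : ι × ι => x p.1 p.2) (φ s))
      · rw [Set.Finite.mem_toFinset]
        exact ⟨_, hx2, rfl⟩
      · simp)
    rw [map_prod, Finset.prod_eq_zero_iff] at hz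
    obtain ⟨c, hc, hz⟩ := hz
    rw [Set.Finite.mem_toFinset] at hc
    rw [map_sub, MvPolynomial.eval_C, sub_eq_zero] at hz
    rw [hz]
    exact hc
  have hpos : 0 < 2 * Fintype.card ι := by
    have := Fintype.card_pos (α := ι)
    omega
  set v : ι → ℂ := u ⟨0, hpos⟩ with hv
  have hvq : qf Q v ≠ 0 := hu _
  -- the path
  set U : Fin (2 * Fintype.card ι) → ℂ → ι → ℂ := fun i t => u i + t • (v - u i) with hU
  set S : Set ℂ := {t | ∀ i, qf Q (U i t) ≠ 0} with hS
  have hSc : Sᶜ.Finite := by
    have : Sᶜ = ⋃ i, {t : ℂ | qf Q (u i + t • (v - u i)) = 0} := by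
      ext t
      simp [hS, hU]
    rw [this]
    exact Set.finite_iUnion fun i => finite_zeros Q hQ _ _ (hu i)
  have hSp : IsPreconnected S := finite_compl_preconnected S hSc
  have h0 : (0 : ℂ) ∈ S := by
    intro i
    simp only [hU, zero_smul, add_zero]
    exact hu i
  have h1 : (1 : ℂ) ∈ S := by
    intro i
    simp only [hU, one_smul, add_sub_cancel]
    exact hvq
  set M : ℂ → Matrix ι ι ℂ := fun t => (List.ofFn fun i => refl Q (U i t)).prod with hM
  have hM0 : M 0 = a := by
    rw [hprod]
    simp only [hM, hU, zero_smul, add_zero]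
  have hM1 : M 1 = 1 := by
    simp only [hM, hU, one_smul, add_sub_cancel]
    rw [List.ofFn_const, List.prod_replicate, pow_mul, pow_two, refl_mul_self Q v hvq,
      one_pow]
  have hMiso : ∀ t ∈ S, Iso Q (M t) := by
    intro t ht
    apply iso_list
    intro b hb
    rw [List.mem_ofFn] at hb
    obtain ⟨i, rfl⟩ := hb
    exact iso_refl Q hQ _ (ht i)
  have hrefl : ∀ i, ContinuousOn (fun t => refl Q (U i t)) S := by
    intro i
    have hUc : Continuous (U i) := by
      simp only [hU]
      fun_prop
    have hmv : Continuous fun t => Q.mulVec (U i t) :=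
      Continuous.matrix_mulVec continuous_const hUc
    have hq : Continuous fun t => dotProduct (U i t) (Q.mulVec (U i t)) :=
      Continuous.dotProduct hUc hmv
    have hd : ContinuousOn (fun t => 2 / dotProduct (U i t) (Q.mulVec (U i t))) S :=
      ContinuousOn.div continuousOn_const hq.continuousOn (fun t ht => ht i)
    have hp : ContinuousOn (fun t => pr Q (U i t)) S :=
      (Continuous.matrix_vecMulVec hUc hmv).continuousOn
    have hs : ContinuousOn (fun t => (2 / dotProduct (U i t) (Q.mulVec (U i t))) •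
        pr Q (U i t)) S := hd.smul hp
    exact continuousOn_const.sub hs
  have hMc : ContinuousOn M S := by
    simp only [hM, List.ofFn_eq_map]
    exact continuousOn_list_prod _ fun i _ => hrefl i
  -- determinant
  have hdetM : ∀ t ∈ S, (M t).det = 1 := by
    intro t ht
    have hc : ContinuousOn (fun t => (M t).det) S :=
      (Continuous.matrix_det continuous_id).comp_continuousOn hMc
    have hmt : MapsTo (fun t => (M t).det) S ({1, -1} : Set ℂ) := by
      intro t ht
      rcases det_sq Q _ hdet (hMiso t ht) with h | h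
      · left; exact h
      · right; exact h
    have := hSp.constant_of_mapsTo (Set.Finite.isDiscrete (by simp)) hc hmt ht h0
    rw [this, hM0, hda]
  have hc : ContinuousOn (fun t => MvPolynomial.eval (fun p : ι × ι => M t p.1 p.2) (φ s)) S := by
    have h2 : Continuous fun m : Matrix ι ι ℂ =>
        MvPolynomial.eval (fun p : ι × ι => m p.1 p.2) (φ s) := by
      have h3 := MvPolynomial.continuous_eval (φ s)
      refine h3.comp ?_
      exact continuous_pi fun p => (continuous_apply_apply p.1 p.2)
    exact h2.comp_continuousOn hMc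
  have hmt : MapsTo (fun t => MvPolynomial.eval (fun p : ι × ι => M t p.1 p.2) (φ s)) S Fs :=
    fun t ht => hval _ (hMiso t ht) (hdetM t ht)
  have := hSp.constant_of_mapsTo hFsf.isDiscrete hc hmt h0 h1
  simp only [hM0, hM1] at this
  exact this

end

end Pool.Agent.EVD
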