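import Pool.Agent.EVD.Stmts

/-!
# EVD: module FNO
-/

set_option autoImplicit false

open scoped BigOperators
open Matrix

namespace Pool.Agent.EVD

namespace FNO_

variable {ι : Type} [Fintype ι] [DecidableEq ι]

theorem cm_eq (A : Matrix ι ι ℚ) : cm A = (Rat.castHom ℂ).mapMatrix A := rfl

theorem cm_mul (A B : Matrix ι ι ℚ) : cm (A * B) = cm A * cm B := by
  simp only [cm_eq, map_mul]

theorem cm_add (A B : Matrix ι ι ℚ) : cm (A + B) = cm A + cm B := by
  simp only [cm_eq, map_add]

theorem cm_sub (A B : Matrix ι ι ℚ) : cm (A - B) = cm A - cm B := by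
  simp only [cm_eq, map_sub]

theorem cm_one : cm (1 : Matrix ι ι ℚ) = 1 := by
  simp only [cm_eq, map_one]

theorem cm_smul (c : ℚ) (A : Matrix ι ι ℚ) : cm (c • A) = (c : ℂ) • cm A := by
  ext i j
  simp [cm]

theorem cm_transpose (A : Matrix ι ι ℚ) : cm A.transpose = (cm A).transpose := rfl

theorem cm_det (A : Matrix ι ι ℚ) : (cm A).det = ((A.det : ℚ) : ℂ) := by
  rw [cm_eq, ← RingHom.map_det]
  rfl

/-- the entries of `F` have the derivatives `F'` at `s` -/
def MD (F : ℂ → Matrix ι ι ℂ) (F' : Matrix ι ι ℂ) (s : ℂ) : Prop :=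
  ∀ i j, HasDerivAt (fun z => F z i j) (F' i j) s

theorem MD.mul {F G : ℂ → Matrix ι ι ℂ} {F' G' : Matrix ι ι ℂ} {s : ℂ} (hF : MD F F' s)
    (hG : MD G G' s) : MD (fun z => F z * G z) (F' * G s + F s * G') s := by
  intro i j
  have h : HasDerivAt (fun z => ∑ k, F z i k * G z k j)
      (∑ k, (F' i k * G s k j + F s i k * G' k j)) s := by
    apply HasDerivAt.fun_sum
    intro k _
    exact (hF i k).mul (hG k j)
  have e : (F' * G s + F s * G') i j = ∑ k, (F' i k * G s k j + F s i k * G' k j) := by
    rw [Matrix.add_apply, Matrix.mul_apply, Matrix.mul_apply, Finset.sum_add_distrib]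
  rw [e]
  exact h

theorem MD.transpose {F : ℂ → Matrix ι ι ℂ} {F' : Matrix ι ι ℂ} {s : ℂ} (hF : MD F F' s) :
    MD (fun z => (F z).transpose) F'.transpose s := fun i j => hF j i

theorem MD_No (A U : Matrix ι ι ℂ) (e r s : ℂ) : MD (fun z => No A U e r z) (r • U) s := by
  have h1 : MD (fun z => (e + r * z) • (1 : Matrix ι ι ℂ) + A) (r • (1 : Matrix ι ι ℂ)) s := by
    intro i j
    have h2 : HasDerivAt (fun z => e + r * z) (r * 1) s := ((hasDerivAt_id s).const_mul r).const_add e
    have h3 : HasDerivAt (fun z => (e + r * z) * (1 : Matrix ι ι ℂ) i j + A i j)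
        (r * 1 * (1 : Matrix ι ι ℂ) i j) s := (h2.mul_const _).add_const _
    rw [mul_one] at h3
    exact h3
  have h0 : MD (fun _ => U) (0 : Matrix ι ι ℂ) s := fun i j => hasDerivAt_const s _
  have h := h0.mul h1
  rw [zero_mul, zero_add, Matrix.mul_smul, mul_one] at h
  exact h

theorem No_symm {A U : Matrix ι ι ℂ} (e r z : ℂ) (hU : U.transpose = U)
    (hUA : U * A = A.transpose * U) : (No A U e r z).transpose = No A U e r z := by
  unfold No
  rw [Matrix.transpose_mul, Matrix.transpose_add, Matrix.transpose_smul, Matrix.transpose_one, hU,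
    add_mul, mul_add, ← hUA, Matrix.smul_mul, Matrix.mul_smul, one_mul, mul_one]

end FNO_

open FNO_ in
theorem fno_proof (hFbe : Stmt_Fbe) (hLode : GPH.Stmt_Lode) (hUniq : GPH.Stmt_Uniq)
    (hGeo : GPH.Stmt_GeoC) : Stmt_Fno := by
  intro ι _ _ κ A B U b i₀ hO e r q T x hS b0 hb0
  have hU : (cm U).transpose = cm U := by rw [← cm_transpose, hO.Usym]
  have hUA : cm U * cm A = (cm A).transpose * cm U := by
    rw [← cm_transpose, ← cm_mul, ← cm_mul, hO.UA]
  have hUE : cm U * cm (Eo κ B) + (cm (Eo κ B)).transpose * cm U = -cm U := by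
    have h1 : U * Eo κ B + (Eo κ B).transpose * U = -U := by
      have h2 := hO.UB
      unfold Eo
      rw [Matrix.transpose_sub, Matrix.transpose_smul, Matrix.transpose_one, Matrix.mul_sub,
        Matrix.sub_mul, Matrix.mul_smul, Matrix.smul_mul, mul_one, one_mul]
      have h3 : U * B - (κ : ℚ) • U + (B.transpose * U - (κ : ℚ) • U) =
          (U * B + B.transpose * U) - ((2 : ℚ) * κ) • U := by
        rw [two_mul, add_smul]
        abel
      rw [h3, h2, ← sub_smul]
      have h4 : ((2 * κ - 1 : ℤ) : ℚ) - 2 * (κ : ℚ) = -1 := by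
        push_cast
        ring
      rw [h4, neg_one_smul]
    have h5 := congrArg cm h1
    rw [cm_add, cm_mul, cm_mul, cm_transpose] at h5
    rw [h5, cm_eq, map_neg]
    rfl
  obtain ⟨hdet, hfb⟩ := hFbe ι (cm A) (cm U) (cm (Eo κ B)) e r q T x hU hS
  have hNsym : ∀ z, (No (cm A) (cm U) e r z).transpose = No (cm A) (cm U) e r z :=
    fun z => No_symm e r z hU hUA
  refine ⟨?_, hNsym b0, ?_⟩
  · obtain ⟨hopen, hmem, hstar, hoff⟩ := hGeo q T b0 hb0
    have hne : ∀ z ∈ GPH.Cut b0 T, ∀ j, z ≠ T j := hoff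
    have hhol : GPH.HolM (GPH.Cut b0 T) (FB T (Ro (cm U) (cm (Eo κ B)) x)) := by
      intro k l
      have e1 : (fun z => FB T (Ro (cm U) (cm (Eo κ B)) x) z k l) =
          fun z => ∑ j, (z - T j)⁻¹ * Ro (cm U) (cm (Eo κ B)) x j k l := by
        funext z
        simp only [FB, Matrix.sum_apply, Matrix.smul_apply, smul_eq_mul]
      rw [e1]
      apply DifferentiableOn.fun_sum
      intro j _
      apply DifferentiableOn.mul_const
      apply DifferentiableOn.inv
      · exact differentiableOn_id.sub_const _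
      · intro z hz
        exact sub_ne_zero.2 (hne z hz j)
    choose y hy0 hy using fun j : ι =>
      hLode ι (GPH.Cut b0 T) b0 (FB T (Ro (cm U) (cm (Eo κ B)) x)) hopen hmem hstar hhol
        (Pi.single j 1)
    let Φ : ℂ → Matrix ι ι ℂ := fun z => Matrix.of fun i j => y j z i
    have hsol : GPH.MSol (GPH.Cut b0 T) (FB T (Ro (cm U) (cm (Eo κ B)) x)) Φ := by
      intro s hs k j
      exact hy j s hs k
    have hone : Φ b0 = 1 := by
      ext i j
      show y j b0 i = _
      rw [hy0 j, Pi.single_apply, Matrix.one_apply]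
    refine ⟨Φ, hsol, hone, ?_⟩
    -- the form is constant
    have hG : ∀ s ∈ GPH.Cut b0 T,
        MD (fun z => (Φ z).transpose * No (cm A) (cm U) e r z * Φ z) 0 s := by
      intro s hs
      have h1 : MD Φ (FB T (Ro (cm U) (cm (Eo κ B)) x) s * Φ s) s := hsol s hs
      have h2 := (h1.transpose.mul (MD_No (cm A) (cm U) e r s)).mul h1
      have e1 : No (cm A) (cm U) e r s * FB T (Ro (cm U) (cm (Eo κ B)) x) s =
          r • (cm U * cm (Eo κ B)) := by
        unfold No
        rw [mul_assoc, hfb s (hne s hs), Matrix.mul_smul]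
      have e2 : (FB T (Ro (cm U) (cm (Eo κ B)) x) s).transpose * No (cm A) (cm U) e r s =
          r • ((cm (Eo κ B)).transpose * cm U) := by
        have h3 := congrArg Matrix.transpose e1
        rw [Matrix.transpose_mul, hNsym s, Matrix.transpose_smul, Matrix.transpose_mul, hU] at h3
        exact h3
      have e3 : ((FB T (Ro (cm U) (cm (Eo κ B)) x) s * Φ s).transpose *
            No (cm A) (cm U) e r s + (Φ s).transpose * (r • cm U)) * Φ s +
          ((Φ s).transpose * No (cm A) (cm U) e r s) *
            (FB T (Ro (cm U) (cm (Eo κ B)) x) s * Φ s) = 0 := by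
        have h4 : ((FB T (Ro (cm U) (cm (Eo κ B)) x) s * Φ s).transpose *
            No (cm A) (cm U) e r s + (Φ s).transpose * (r • cm U)) * Φ s +
          ((Φ s).transpose * No (cm A) (cm U) e r s) *
            (FB T (Ro (cm U) (cm (Eo κ B)) x) s * Φ s) =
          (Φ s).transpose * (((FB T (Ro (cm U) (cm (Eo κ B)) x) s).transpose *
            No (cm A) (cm U) e r s) + r • cm U +
            No (cm A) (cm U) e r s * FB T (Ro (cm U) (cm (Eo κ B)) x) s) * Φ s := by
          rw [Matrix.transpose_mul]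
          simp only [mul_add, add_mul, mul_assoc]
        rw [h4, e1, e2]
        have h5 : r • ((cm (Eo κ B)).transpose * cm U) + r • cm U +
            r • (cm U * cm (Eo κ B)) = 0 := by
          rw [← smul_add, ← smul_add]
          have h6 : (cm (Eo κ B)).transpose * cm U + cm U + cm U * cm (Eo κ B) = 0 := by
            have h7 : (cm (Eo κ B)).transpose * cm U + cm U + cm U * cm (Eo κ B) =
                (cm U * cm (Eo κ B) + (cm (Eo κ B)).transpose * cm U) + cm U := by
              abel
            rw [h7, hUE, neg_add_cancel]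
          rw [h6, smul_zero]
        rw [h5, mul_zero, zero_mul]
      rw [e3] at h2
      exact h2
    intro z hz
    have hpre : IsPreconnected (GPH.Cut b0 T) := hstar.isPathConnected hmem
      |>.isConnected.isPreconnected
    have hy2 : GPH.Sol (GPH.Cut b0 T) (fun _ => (0 : Matrix (ι × ι) (ι × ι) ℂ))
        (fun z p => ((Φ z).transpose * No (cm A) (cm U) e r z * Φ z) p.1 p.2 -
          No (cm A) (cm U) e r b0 p.1 p.2) := by
      intro s hs p
      rw [Matrix.zero_mulVec, Pi.zero_apply]
      exact (hG s hs p.1 p.2).sub_const _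
    have hz0 := hUniq (ι × ι) (GPH.Cut b0 T) (fun _ => 0) hopen hpre
      (fun k j => differentiableOn_const _) _ hy2 b0 hmem (by
        funext p
        simp only [hone, Matrix.transpose_one, one_mul, mul_one, sub_self, Pi.zero_apply]) z hz
    ext i j
    have := congrFun hz0 (i, j)
    simp only [Pi.zero_apply] at this
    exact sub_eq_zero.1 this
  · unfold No
    rw [Matrix.det_mul]
    apply mul_ne_zero
    · rw [cm_det]
      exact_mod_cast hO.Udet
    · rw [hdet]
      intro j _ h
      exact hb0 j h.symm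

end Pool.Agent.EVD
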