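import Pool.Agent.EVD.Stmts

open scoped BigOperators Topology
open Metric Set

namespace Pool.Agent.EVD

namespace FRT_

noncomputable section

variable {A : Type*} [NormedRing A] [NormedAlgebra ℂ A]

/-- the bracket with `R` -/
def ad (R X : A) : A := R * X - X * R

lemma ad3 {R : A} (hR : R * R = (-(1 / 2) : ℂ) • R) (X : A) :
    ad R (ad R (ad R X)) = (1 / 4 : ℂ) • ad R X := by
  have e1 : ∀ Y : A, R * (R * Y) = (-(1 / 2) : ℂ) • (R * Y) := fun Y => by
    rw [← mul_assoc, hR, smul_mul_assoc]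
  have e2 : ∀ Y : A, Y * R * R = (-(1 / 2) : ℂ) • (Y * R) := fun Y => by
    rw [mul_assoc, hR, mul_smul_comm]
  have e3 : ∀ Y : A, R * (Y * R) = R * Y * R := fun Y => by rw [mul_assoc]
  unfold ad
  simp only [mul_sub, sub_mul, e1, e2, e3, mul_smul_comm, smul_mul_assoc, smul_sub]
  module

/-- the inverse of `X ↦ k X - [R, X]` -/
def TT (R : A) (k : ℕ) (X : A) : A :=
  (k : ℂ)⁻¹ • X + ((k : ℂ) ^ 2 - 1 / 4)⁻¹ • ad R X +
    ((k : ℂ)⁻¹ * ((k : ℂ) ^ 2 - 1 / 4)⁻¹) • ad R (ad R X)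

lemma kne {k : ℕ} (hk : k ≠ 0) : ((k : ℂ) ^ 2 - 1 / 4) ≠ 0 := by
  intro h
  have h1 : (((4 * k ^ 2 : ℕ)) : ℂ) = ((1 : ℕ) : ℂ) := by
    push_cast
    linear_combination 4 * h
  have h2 : 4 * k ^ 2 = 1 := by exact_mod_cast h1
  omega

lemma TT_spec {R : A} (hR : R * R = (-(1 / 2) : ℂ) • R) {k : ℕ} (hk : k ≠ 0) (X : A) :
    (k : ℂ) • TT R k X = (R * TT R k X - TT R k X * R) + X := by
  have hk' : (k : ℂ) ≠ 0 := Nat.cast_ne_zero.mpr hk
  have hk2 := kne hk
  have h3 := ad3 hR X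
  have e0 : R * TT R k X - TT R k X * R = (k : ℂ)⁻¹ • ad R X +
      ((k : ℂ) ^ 2 - 1 / 4)⁻¹ • ad R (ad R X) +
      ((k : ℂ)⁻¹ * ((k : ℂ) ^ 2 - 1 / 4)⁻¹) • ad R (ad R (ad R X)) := by
    unfold TT
    conv_rhs => unfold ad
    simp only [mul_add, add_mul, mul_smul_comm, smul_mul_assoc, smul_sub]
    unfold ad
    abel
  rw [e0, h3]
  unfold TT
  set u : ℂ := (k : ℂ)⁻¹ with hu
  set v : ℂ := ((k : ℂ) ^ 2 - 1 / 4)⁻¹ with hv
  have hku : (k : ℂ) * u = 1 := mul_inv_cancel₀ hk'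
  have hkv : ((k : ℂ) ^ 2 - 1 / 4) * v = 1 := mul_inv_cancel₀ hk2
  have h4 : (k : ℂ) * v = u + u * v * (1 / 4) := by
    linear_combination u * hkv - (k : ℂ) * v * hku
  have h5 : (k : ℂ) * (u * v) = v := by rw [← mul_assoc, hku, one_mul]
  rw [smul_add, smul_add, smul_smul, smul_smul, smul_smul, hku, h4, h5, smul_smul, one_smul]
  module

lemma ad_norm (R X : A) : ‖ad R X‖ ≤ 2 * ‖R‖ * ‖X‖ := by
  unfold ad
  refine (norm_sub_le _ _).trans ?_
  have := norm_mul_le R X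
  have := norm_mul_le X R
  nlinarith

lemma TT_norm (R : A) (k : ℕ) (hk : k ≠ 0) (X : A) :
    ‖TT R k X‖ ≤ (1 + 4 * ‖R‖ + 8 * ‖R‖ ^ 2) * ‖X‖ := by
  unfold TT
  have hk1 : (1 : ℝ) ≤ k := by exact_mod_cast Nat.one_le_iff_ne_zero.mpr hk
  have hu : ‖((k : ℂ)⁻¹)‖ ≤ 1 := by
    rw [norm_inv, Complex.norm_natCast]
    exact inv_le_one_of_one_le₀ hk1
  have hu0 := norm_nonneg ((k : ℂ)⁻¹)
  have hv : ‖(((k : ℂ) ^ 2 - 1 / 4)⁻¹)‖ ≤ 2 := by
    rw [norm_inv]
    have h1 : (1 / 2 : ℝ) ≤ ‖((k : ℂ) ^ 2 - 1 / 4)‖ := by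
      have h2 : ((k : ℂ) ^ 2 - 1 / 4) = (((k : ℝ) ^ 2 - 1 / 4 : ℝ) : ℂ) := by push_cast; ring
      rw [h2, Complex.norm_real, Real.norm_eq_abs]
      refine le_trans ?_ (le_abs_self _)
      nlinarith
    calc (‖((k : ℂ) ^ 2 - 1 / 4)‖)⁻¹ ≤ ((1 / 2 : ℝ))⁻¹ :=
          inv_anti₀ (by norm_num) h1
      _ = 2 := by norm_num
  have hv0 := norm_nonneg (((k : ℂ) ^ 2 - 1 / 4)⁻¹)
  have h1 : ‖(k : ℂ)⁻¹ • X‖ ≤ 1 * ‖X‖ := by
    rw [norm_smul]
    exact mul_le_mul_of_nonneg_right hu (norm_nonneg _)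
  have h2 : ‖((k : ℂ) ^ 2 - 1 / 4)⁻¹ • ad R X‖ ≤ 2 * (2 * ‖R‖ * ‖X‖) := by
    rw [norm_smul]
    exact mul_le_mul hv (ad_norm R X) (norm_nonneg _) (by norm_num)
  have h3 : ‖((k : ℂ)⁻¹ * ((k : ℂ) ^ 2 - 1 / 4)⁻¹) • ad R (ad R X)‖ ≤
      2 * (2 * ‖R‖ * (2 * ‖R‖ * ‖X‖)) := by
    rw [norm_smul, norm_mul]
    refine mul_le_mul ?_ ?_ (norm_nonneg _) (by norm_num)
    · calc ‖((k : ℂ)⁻¹)‖ * ‖(((k : ℂ) ^ 2 - 1 / 4)⁻¹)‖ ≤ 1 * 2 :=
            mul_le_mul hu hv hv0 (by norm_num)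
        _ = 2 := by norm_num
    · refine (ad_norm _ _).trans ?_
      exact mul_le_mul_of_nonneg_left (ad_norm R X) (by positivity)
  refine (norm_add_le _ _).trans ?_
  refine (add_le_add ((norm_add_le _ _).trans (add_le_add h1 h2)) h3).trans ?_
  nlinarith [norm_nonneg R, norm_nonneg X]

/-- the coefficients -/
def Hc (R : A) (b : ℕ → A) : ℕ → A
  | 0 => 1
  | k + 1 => TT R (k + 1) (∑ j : Fin (k + 1), b j * Hc R b (k - j))
termination_by k => k
decreasing_by omega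

lemma Hc_zero (R : A) (b : ℕ → A) : Hc R b 0 = 1 := by rw [Hc]

lemma Hc_succ (R : A) (b : ℕ → A) (k : ℕ) : Hc R b (k + 1) =
    TT R (k + 1) (∑ j ∈ Finset.range (k + 1), b j * Hc R b (k - j)) := by
  rw [Hc]
  congr 1
  exact Fin.sum_univ_eq_sum_range (fun j => b j * Hc R b (k - j)) (k + 1)

lemma Hc_spec {R : A} (hR : R * R = (-(1 / 2) : ℂ) • R) (b : ℕ → A) (k : ℕ) :
    ((k + 1 : ℕ) : ℂ) • Hc R b (k + 1) = (R * Hc R b (k + 1) - Hc R b (k + 1) * R) +
      ∑ j ∈ Finset.range (k + 1), b j * Hc R b (k - j) := by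
  rw [Hc_succ]
  exact TT_spec hR (Nat.succ_ne_zero k) _

lemma Hc_norm (R : A) (b : ℕ → A) {M q : ℝ} (hM : 0 < M) (hq : 0 < q)
    (hb : ∀ j, ‖b j‖ ≤ M * q ^ j) (k : ℕ) :
    ‖Hc R b k‖ ≤ (‖(1 : A)‖ + 1) * (q + (1 + 4 * ‖R‖ + 8 * ‖R‖ ^ 2) * M) ^ k := by
  set C : ℝ := 1 + 4 * ‖R‖ + 8 * ‖R‖ ^ 2 with hC
  have hCpos : 0 < C := by positivity
  set K : ℝ := q + C * M with hK
  set D : ℝ := ‖(1 : A)‖ + 1 with hD
  have hDpos : 0 < D := by positivity
  have hKpos : 0 < K := by positivity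
  induction k using Nat.strong_induction_on with
  | _ k ih =>
    rcases k with _ | k
    · rw [Hc_zero, pow_zero, mul_one, hD]
      linarith
    · rw [Hc_succ]
      refine (TT_norm R (k + 1) (Nat.succ_ne_zero k) _).trans ?_
      rw [← hC]
      have h1 : ‖∑ j ∈ Finset.range (k + 1), b j * Hc R b (k - j)‖ ≤
          (M * D) * ∑ j ∈ Finset.range (k + 1), q ^ j * K ^ (k + 1 - 1 - j) := by
        refine (norm_sum_le _ _).trans ?_
        rw [Finset.mul_sum]
        refine Finset.sum_le_sum fun j hj => ?_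
        refine (norm_mul_le _ _).trans ?_
        have h2 := hb j
        have h3 := ih (k - j) (by omega)
        calc ‖b j‖ * ‖Hc R b (k - j)‖ ≤ (M * q ^ j) * (D * K ^ (k - j)) :=
              mul_le_mul h2 h3 (norm_nonneg _) (by positivity)
          _ = _ := by rw [Nat.add_sub_cancel]; ring
      have h2 : (∑ j ∈ Finset.range (k + 1), q ^ j * K ^ (k + 1 - 1 - j)) * (q - K) =
          q ^ (k + 1) - K ^ (k + 1) := geom_sum₂_mul q K (k + 1)
      calc C * ‖∑ j ∈ Finset.range (k + 1), b j * Hc R b (k - j)‖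
          ≤ C * ((M * D) * ∑ j ∈ Finset.range (k + 1), q ^ j * K ^ (k + 1 - 1 - j)) :=
            mul_le_mul_of_nonneg_left h1 hCpos.le
        _ = D * (K ^ (k + 1) - q ^ (k + 1)) := by
            have h3 : q - K = -(C * M) := by rw [hK]; ring
            rw [h3] at h2
            linear_combination (-D) * h2
        _ ≤ D * K ^ (k + 1) := by
            have : 0 ≤ q ^ (k + 1) := by positivity
            nlinarith

variable [CompleteSpace A]

lemma frob_abs (R : A) (hR : R * R = (-(1 / 2) : ℂ) • R) (B : ℂ → A) (r : ℝ) (hr : 0 < r)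
    (hB : DifferentiableOn ℂ B (ball 0 r)) :
    ∃ (r' : ℝ) (H : ℂ → A), 0 < r' ∧ r' ≤ r ∧ H 0 = 1 ∧
      (∀ t ∈ ball (0 : ℂ) r', ∃ D, HasDerivAt H D t ∧
        (t ≠ 0 → D = t⁻¹ • (R * H t - H t * R) + B t * H t)) := by
  -- the power series of B
  obtain ⟨r1, hr1, hr1r⟩ := exists_between hr
  set s1 : NNReal := ⟨r1, hr1.le⟩ with hs1
  have hs1r : (s1 : ℝ) = r1 := rfl
  have hps : HasFPowerSeriesOnBall B (cauchyPowerSeries B 0 (s1 : ℝ)) 0 s1 :=
    DifferentiableOn.hasFPowerSeriesOnBall (R := s1)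
      (hB.mono (closedBall_subset_ball hr1r)) (by exact_mod_cast hr1)
  set p := cauchyPowerSeries B 0 (s1 : ℝ) with hp
  obtain ⟨r2, hr2, hr21⟩ := exists_between hr1
  set s2 : NNReal := ⟨r2, hr2.le⟩ with hs2
  have hr2rad : (s2 : ENNReal) < p.radius := by
    refine lt_of_lt_of_le ?_ hps.r_le
    rw [ENNReal.coe_lt_coe]
    exact hr21
  obtain ⟨M, hM, hMb⟩ := p.norm_mul_pow_le_of_lt_radius hr2rad
  set b : ℕ → A := fun n => p.coeff n with hb
  set q : ℝ := r2⁻¹ with hq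
  have hqpos : 0 < q := inv_pos.mpr hr2
  have hbn : ∀ j, ‖b j‖ ≤ M * q ^ j := by
    intro j
    have h1 : ‖b j‖ ≤ ‖p j‖ := by
      rw [hb]
      simp only [FormalMultilinearSeries.coeff]
      refine ((p j).le_opNorm _).trans ?_
      simp
    have h2 : ‖p j‖ * (s2 : ℝ) ^ j ≤ M := hMb j
    change ‖p j‖ * r2 ^ j ≤ M at h2
    have h3 : 0 < r2 ^ j := pow_pos hr2 j
    calc ‖b j‖ ≤ ‖p j‖ := h1
      _ = ‖p j‖ * r2 ^ j * q ^ j := by
          rw [mul_assoc, ← mul_pow, hq, mul_inv_cancel₀ hr2.ne', one_pow, mul_one]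
      _ ≤ M * q ^ j := mul_le_mul_of_nonneg_right h2 (by positivity)
  have hBs : ∀ t ∈ ball (0 : ℂ) r1, HasSum (fun n => t ^ n • b n) (B t) := by
    intro t ht
    have ht' : t ∈ Metric.eball (0 : ℂ) (s1 : ENNReal) := by
      rw [Metric.eball_coe]
      exact ht
    have := hps.hasSum ht'
    rw [zero_add] at this
    have e : (fun n => t ^ n • b n) = fun n => (p n) fun _ => t := by
      funext n
      rw [FormalMultilinearSeries.apply_eq_pow_smul_coeff]
    rw [e]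
    exact this
  set K : ℝ := q + (1 + 4 * ‖R‖ + 8 * ‖R‖ ^ 2) * M with hK
  have hKpos : 0 < K := by positivity
  have hKq : q ≤ K := by
    rw [hK]
    have : 0 ≤ (1 + 4 * ‖R‖ + 8 * ‖R‖ ^ 2) * M := by positivity
    linarith
  set D : ℝ := ‖(1 : A)‖ + 1 with hD
  have hDpos : 0 < D := by positivity
  have hHn : ∀ k, ‖Hc R b k‖ ≤ D * K ^ k := Hc_norm R b hM hqpos hbn
  set ρ : ℝ := (2 * K)⁻¹ with hρ
  have hρpos : 0 < ρ := by positivity
  have hρK : ρ * K = 1 / 2 := by rw [hρ]; field_simp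
  set H : ℂ → A := fun t => ∑' n, t ^ n • Hc R b n with hH
  have hbound : ∀ t ∈ ball (0 : ℂ) ρ, ∀ n, ‖t ^ n • Hc R b n‖ ≤ D * (1 / 2) ^ n := by
    intro t ht n
    rw [norm_smul, norm_pow]
    have h1 : ‖t‖ ≤ ρ := (mem_ball_zero_iff.mp ht).le
    calc ‖t‖ ^ n * ‖Hc R b n‖ ≤ ρ ^ n * (D * K ^ n) :=
          mul_le_mul (pow_le_pow_left₀ (norm_nonneg _) h1 n) (hHn n) (norm_nonneg _) (by positivity)
      _ = D * (1 / 2) ^ n := by rw [← hρK, mul_pow]; ring
  have hgeo : Summable (fun n : ℕ => D * (1 / 2 : ℝ) ^ n) :=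
    (summable_geometric_of_lt_one (by norm_num) (by norm_num)).mul_left D
  have hsumN : ∀ t ∈ ball (0 : ℂ) ρ, Summable (fun n => ‖t ^ n • Hc R b n‖) := fun t ht =>
    Summable.of_nonneg_of_le (fun _ => norm_nonneg _) (hbound t ht) hgeo
  have hsum : ∀ t ∈ ball (0 : ℂ) ρ, Summable (fun n => t ^ n • Hc R b n) := fun t ht =>
    (hsumN t ht).of_norm
  have hderiv : ∀ t ∈ ball (0 : ℂ) ρ, HasDerivAt H (∑' n : ℕ, ((n : ℂ) * t ^ (n - 1)) • Hc R b n) t := by
    intro t ht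
    have hu : Summable (fun n : ℕ => (2 * D * K) * ((n : ℝ) ^ 1 * (1 / 2 : ℝ) ^ n)) :=
      Summable.mul_left (2 * D * K) (summable_pow_mul_geometric_of_norm_lt_one (r := (1 / 2 : ℝ)) 1
        (by norm_num))
    refine hasDerivAt_tsum_of_isPreconnected (g := fun n z => z ^ n • Hc R b n)
      (g' := fun n z => ((n : ℂ) * z ^ (n - 1)) • Hc R b n) hu isOpen_ball
      (convex_ball 0 ρ).isPreconnected (fun n y _ => (hasDerivAt_pow n y).smul_const _) ?_ ht
      (hsum t ht) ht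
    intro n y hy
    rcases n with _ | n
    · simp
    · rw [norm_smul, norm_mul, norm_pow, Complex.norm_natCast, Nat.add_sub_cancel, pow_one]
      have h1 : ‖y‖ ≤ ρ := (mem_ball_zero_iff.mp hy).le
      calc ((n + 1 : ℕ) : ℝ) * ‖y‖ ^ n * ‖Hc R b (n + 1)‖
          ≤ ((n + 1 : ℕ) : ℝ) * ρ ^ n * (D * K ^ (n + 1)) := by
            refine mul_le_mul ?_ (hHn _) (norm_nonneg _) (by positivity)
            exact mul_le_mul_of_nonneg_left (pow_le_pow_left₀ (norm_nonneg _) h1 n)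
              (Nat.cast_nonneg _)
        _ = D * K * ((n + 1 : ℕ) : ℝ) * (ρ * K) ^ n := by rw [mul_pow]; ring
        _ = 2 * D * K * (((n + 1 : ℕ) : ℝ) * (1 / 2) ^ (n + 1)) := by rw [hρK]; ring
        _ ≤ _ := le_rfl
  refine ⟨min ρ r1, H, lt_min hρpos hr1, (min_le_right _ _).trans hr1r.le, ?_, ?_⟩
  · rw [hH]
    simp only
    rw [tsum_eq_single 0]
    · simp [Hc_zero]
    · intro n hn
      simp [hn]
  · intro t ht
    have htρ : t ∈ ball (0 : ℂ) ρ := ball_subset_ball (min_le_left _ _) ht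
    have htr : t ∈ ball (0 : ℂ) r1 := ball_subset_ball (min_le_right _ _) ht
    refine ⟨_, hderiv t htρ, fun ht0 => ?_⟩
    -- t • derivative
    have hder_sum : Summable (fun n : ℕ => ((n : ℂ) * t ^ n) • Hc R b n) := by
      have hu2 : Summable (fun n : ℕ => D * ((n : ℝ) ^ 1 * (1 / 2 : ℝ) ^ n)) :=
        Summable.mul_left D (summable_pow_mul_geometric_of_norm_lt_one (r := (1 / 2 : ℝ)) 1
          (by norm_num))
      refine Summable.of_norm_bounded hu2 (fun n => ?_)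
      have := hbound t htρ n
      rw [norm_smul, norm_pow] at this
      rw [norm_smul, norm_mul, norm_pow, Complex.norm_natCast, pow_one]
      nlinarith [(Nat.cast_nonneg n : (0 : ℝ) ≤ n)]
    have e1 : t • (∑' n : ℕ, ((n : ℂ) * t ^ (n - 1)) • Hc R b n) =
        ∑' n : ℕ, ((n : ℂ) * t ^ n) • Hc R b n := by
      have hs0 : Summable (fun n : ℕ => ((n : ℂ) * t ^ (n - 1)) • Hc R b n) := by
        refine (hder_sum.const_smul (t⁻¹)).congr fun n => ?_
        rcases n with _ | n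
        · simp
        · rw [smul_smul, Nat.add_sub_cancel, pow_succ]
          congr 1
          field_simp
      rw [← hs0.tsum_const_smul t]
      refine tsum_congr fun n => ?_
      rcases n with _ | n
      · simp
      · rw [smul_smul, Nat.add_sub_cancel]
        congr 1
        ring
    -- the sums
    have hBN : Summable (fun n => ‖t ^ n • b n‖) := by
      have hgeo2 : Summable (fun n : ℕ => M * (1 / 2 : ℝ) ^ n) :=
        (summable_geometric_of_lt_one (r := (1 / 2 : ℝ)) (by norm_num) (by norm_num)).mul_left M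
      refine Summable.of_nonneg_of_le (fun _ => norm_nonneg _) (fun n => ?_) hgeo2
      rw [norm_smul, norm_pow]
      have h1 : ‖t‖ ≤ ρ := (mem_ball_zero_iff.mp htρ).le
      calc ‖t‖ ^ n * ‖b n‖ ≤ ρ ^ n * (M * q ^ n) :=
            mul_le_mul (pow_le_pow_left₀ (norm_nonneg _) h1 n) (hbn n) (norm_nonneg _)
              (by positivity)
        _ = M * (ρ * q) ^ n := by rw [mul_pow]; ring
        _ ≤ M * (1 / 2) ^ n := by
            refine mul_le_mul_of_nonneg_left (pow_le_pow_left₀ (by positivity) ?_ n) hM.le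
            rw [← hρK]
            exact mul_le_mul_of_nonneg_left hKq hρpos.le
    have e2 : B t * H t = ∑' n, ∑ k ∈ Finset.range (n + 1),
        (t ^ k • b k) * (t ^ (n - k) • Hc R b (n - k)) := by
      rw [← tsum_mul_tsum_eq_tsum_sum_range_of_summable_norm hBN (hsumN t htρ), (hBs t htr).tsum_eq]
    have e3 : ∀ n, ∑ k ∈ Finset.range (n + 1), (t ^ k • b k) * (t ^ (n - k) • Hc R b (n - k)) =
        t ^ n • ∑ k ∈ Finset.range (n + 1), b k * Hc R b (n - k) := by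
      intro n
      rw [Finset.smul_sum]
      refine Finset.sum_congr rfl fun k hk => ?_
      rw [smul_mul_smul_comm, ← pow_add]
      congr 2
      have := Finset.mem_range.mp hk
      omega
    have e4 : R * H t - H t * R = ∑' n, t ^ n • (R * Hc R b n - Hc R b n * R) := by
      rw [hH]
      simp only
      rw [← (hsum t htρ).tsum_mul_left, ← (hsum t htρ).tsum_mul_right,
        ← Summable.tsum_sub ((hsum t htρ).mul_left R) ((hsum t htρ).mul_right R)]
      refine tsum_congr fun n => ?_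
      rw [mul_smul_comm, smul_mul_assoc, smul_sub]
    have hs4 : Summable (fun n => t ^ n • (R * Hc R b n - Hc R b n * R)) := by
      have := ((hsum t htρ).mul_left R).sub ((hsum t htρ).mul_right R)
      refine this.congr fun n => ?_
      rw [mul_smul_comm, smul_mul_assoc, smul_sub]
    have e5 : ∑' n : ℕ, ((n : ℂ) * t ^ n) • Hc R b n = (R * H t - H t * R) + t • (B t * H t) := by
      rw [hder_sum.tsum_eq_zero_add, e4, hs4.tsum_eq_zero_add, e2]
      have e6 : ∀ n : ℕ, (((n + 1 : ℕ) : ℂ) * t ^ (n + 1)) • Hc R b (n + 1) =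
          t ^ (n + 1) • (R * Hc R b (n + 1) - Hc R b (n + 1) * R) +
            t • (∑ k ∈ Finset.range (n + 1), (t ^ k • b k) * (t ^ (n - k) • Hc R b (n - k))) := by
        intro n
        rw [e3, smul_smul, ← pow_succ', ← smul_add, ← Hc_spec hR b n, smul_smul]
        congr 1
        ring
      have hs5 : Summable (fun n => t ^ (n + 1) • (R * Hc R b (n + 1) - Hc R b (n + 1) * R)) :=
        (summable_nat_add_iff 1).mpr hs4
      have hs6 : Summable (fun n : ℕ => (((n + 1 : ℕ) : ℂ) * t ^ (n + 1)) • Hc R b (n + 1)) :=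
        (summable_nat_add_iff 1).mpr hder_sum
      have hs7 : Summable (fun n => t • (∑ k ∈ Finset.range (n + 1),
          (t ^ k • b k) * (t ^ (n - k) • Hc R b (n - k)))) := by
        refine (hs6.sub hs5).congr fun n => ?_
        rw [e6 n]
        abel
      have hs8 : Summable (fun n => ∑ k ∈ Finset.range (n + 1),
          (t ^ k • b k) * (t ^ (n - k) • Hc R b (n - k))) := by
        refine (hs7.const_smul (t⁻¹)).congr fun n => ?_
        rw [smul_smul, inv_mul_cancel₀ ht0, one_smul]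
      rw [tsum_congr e6, hs5.tsum_add hs7, hs8.tsum_const_smul t]
      simp [Hc_zero]
    set X : A := ∑' n : ℕ, ((n : ℂ) * t ^ (n - 1)) • Hc R b n with hX
    have h9 : X = t⁻¹ • (t • X) := by rw [smul_smul, inv_mul_cancel₀ ht0, one_smul]
    rw [h9, e1, e5, smul_add, smul_smul, inv_mul_cancel₀ ht0, one_smul]

/-! ### Matrices -/

open scoped Matrix.Norms.Operator in
lemma holM_iff {ι : Type} [Fintype ι] [DecidableEq ι] {U : Set ℂ} {B : ℂ → Matrix ι ι ℂ} (hB : GPH.HolM U B) :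
    DifferentiableOn ℂ B U := by
  have h : B = fun z => ∑ i, ∑ j, (B z i j) • (Matrix.single i j (1 : ℂ)) := by
    funext z
    conv_lhs => rw [Matrix.matrix_eq_sum_single (B z)]
    refine Finset.sum_congr rfl fun i _ => Finset.sum_congr rfl fun j _ => ?_
    rw [Matrix.smul_single, smul_eq_mul, mul_one]
  rw [h]
  exact DifferentiableOn.fun_sum fun i _ => DifferentiableOn.fun_sum fun j _ =>
    (hB i j).smul_const _

open scoped Matrix.Norms.Operator in
lemma entry_deriv {ι : Type} [Fintype ι] [DecidableEq ι] {H : ℂ → Matrix ι ι ℂ} {D : Matrix ι ι ℂ}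
    {t : ℂ} (h : HasDerivAt H D t) (k l : ι) : HasDerivAt (fun z => H z k l) (D k l) t := by
  let L : Matrix ι ι ℂ →L[ℂ] ℂ :=
    LinearMap.toContinuousLinearMap (Matrix.entryLinearMap ℂ ℂ k l)
  exact L.hasFDerivAt.comp_hasDerivAt t h

end

end FRT_

open scoped Matrix.Norms.Operator in
theorem frt_proof : Stmt_Frt := by
  intro ι _ _ R hR r B hr hB
  obtain ⟨r', H, hr', hr'r, h1, h2⟩ := FRT_.frob_abs R hR B r hr (FRT_.holM_iff hB)
  have hent : ∀ t ∈ ball (0 : ℂ) r', ∀ k l, DifferentiableAt ℂ (fun z => H z k l) t := by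
    intro t ht k l
    obtain ⟨D, hD, -⟩ := h2 t ht
    exact (FRT_.entry_deriv hD k l).differentiableAt
  have hdetc : ContinuousAt (fun z => (H z).det) 0 := by
    simp only [Matrix.det_apply]
    refine tendsto_finsetSum _ fun σ _ => ?_
    refine Filter.Tendsto.const_smul ?_ _
    refine tendsto_finsetProd _ fun i _ => ?_
    exact (hent 0 (mem_ball_self hr') _ _).continuousAt
  have hdet0 : (H 0).det ≠ 0 := by rw [h1]; simp
  obtain ⟨ε, hε, hεd⟩ := Metric.eventually_nhds_iff.mp (hdetc.eventually_ne hdet0)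
  refine ⟨min r' ε, H, lt_min hr' hε, (min_le_left _ _).trans hr'r, ?_, h1, ?_, ?_⟩
  · intro k l t ht
    exact (hent t (ball_subset_ball (min_le_left _ _) ht) k l).differentiableWithinAt
  · intro t ht
    exact hεd (lt_of_lt_of_le (mem_ball.mp ht) (min_le_right _ _))
  · intro t ht ht0 k l
    obtain ⟨D, hD, hD2⟩ := h2 t (ball_subset_ball (min_le_left _ _) ht)
    have := FRT_.entry_deriv hD k l
    rw [hD2 ht0] at this
    exact this

end Pool.Agent.EVD
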