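import Pool.Agent.EVD.Stmts

/-!
Module FST: the formal solution in several variables.
-/

set_option autoImplicit false

namespace Pool.Agent.EVD

namespace FST_

open Pool.Agent.DGP (IsZ)

theorem isZ_mul {x y : ℚ} (hx : IsZ x) (hy : IsZ y) : IsZ (x * y) := by
  obtain ⟨a, rfl⟩ := hx
  obtain ⟨b, rfl⟩ := hy
  exact ⟨a * b, by push_cast; ring⟩

theorem isZ_nat (a : ℕ) : IsZ (a : ℚ) := ⟨a, by push_cast; ring⟩

theorem isZ_sum {κ : Type} (s : Finset κ) (g : κ → ℚ) (h : ∀ i ∈ s, IsZ (g i)) :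
    IsZ (∑ i ∈ s, g i) := by
  classical
  induction s using Finset.induction_on with
  | empty => exact ⟨0, by simp⟩
  | insert a s ha ih =>
    rw [Finset.sum_insert ha]
    obtain ⟨u, hu⟩ := h a (Finset.mem_insert_self a s)
    obtain ⟨v, hv⟩ := ih (fun i hi => h i (Finset.mem_insert_of_mem hi))
    exact ⟨u + v, by rw [hu, hv]; push_cast; ring⟩

theorem isZ_prod {κ : Type} (s : Finset κ) (g : κ → ℚ) (h : ∀ i ∈ s, IsZ (g i)) :
    IsZ (∏ i ∈ s, g i) := by
  classical
  induction s using Finset.induction_on with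
  | empty => exact ⟨1, by simp⟩
  | insert a s ha ih =>
    rw [Finset.prod_insert ha]
    exact isZ_mul (h a (Finset.mem_insert_self a s))
      (ih (fun i hi => h i (Finset.mem_insert_of_mem hi)))

section kp

variable {n : ℕ} {α : Fin n → Type} {R : Type} [CommRing R]

theorem kprod_update (X : ∀ j, Matrix (α j) (α j) R) (j : Fin n) (U : Matrix (α j) (α j) R)
    (x y : ∀ j, α j) : kprod (Function.update X j U) x y =
      U (x j) (y j) * ∏ l ∈ Finset.univ.erase j, X l (x l) (y l) := by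
  show ∏ l, (Function.update X j U l) (x l) (y l) = _
  rw [← Finset.mul_prod_erase Finset.univ _ (Finset.mem_univ j), Function.update_self]
  congr 1
  apply Finset.prod_congr rfl
  intro l hl
  rw [Function.update_of_ne (Finset.ne_of_mem_erase hl)]

theorem kprod_update_add (X : ∀ j, Matrix (α j) (α j) R) (j : Fin n) (U V : Matrix (α j) (α j) R) :
    kprod (Function.update X j (U + V)) =
      kprod (Function.update X j U) + kprod (Function.update X j V) := by
  ext x y
  rw [Matrix.add_apply, kprod_update, kprod_update, kprod_update, Matrix.add_apply, add_mul]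

theorem kprod_update_sub (X : ∀ j, Matrix (α j) (α j) R) (j : Fin n) (U V : Matrix (α j) (α j) R) :
    kprod (Function.update X j (U - V)) =
      kprod (Function.update X j U) - kprod (Function.update X j V) := by
  ext x y
  rw [Matrix.sub_apply, kprod_update, kprod_update, kprod_update, Matrix.sub_apply, sub_mul]

theorem kprod_update_smul (X : ∀ j, Matrix (α j) (α j) R) (j : Fin n) (r : R)
    (U : Matrix (α j) (α j) R) :
    kprod (Function.update X j (r • U)) = r • kprod (Function.update X j U) := by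
  ext x y
  rw [Matrix.smul_apply, kprod_update, kprod_update, Matrix.smul_apply, smul_eq_mul, smul_eq_mul,
    mul_assoc]

theorem kprod_update_zero (X : ∀ j, Matrix (α j) (α j) R) (j : Fin n) :
    kprod (Function.update X j (0 : Matrix (α j) (α j) R)) = 0 := by
  ext x y
  rw [kprod_update, Matrix.zero_apply, Matrix.zero_apply, zero_mul]

theorem kprod_update_neg (X : ∀ j, Matrix (α j) (α j) R) (j : Fin n) (U : Matrix (α j) (α j) R) :
    kprod (Function.update X j (-U)) = - kprod (Function.update X j U) := by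
  ext x y
  rw [Matrix.neg_apply, kprod_update, kprod_update, Matrix.neg_apply, neg_mul]

end kp

/-- shift of compositions -/
theorem shift_sum {n : ℕ} {M : Type} [AddCommMonoid M] (j : Fin n) (m : ℕ)
    (G : (Fin n → ℕ) → M) (hG : ∀ c, c j = 0 → G c = 0) :
    ∑ c ∈ Finset.piAntidiag Finset.univ (m + 1), G c =
      ∑ c ∈ Finset.piAntidiag Finset.univ m, G (c + (Pi.single j 1 : Fin n → ℕ)) := by
  have hs : ∀ c : Fin n → ℕ, ∑ i, (c + (Pi.single j 1 : Fin n → ℕ)) i = ∑ i, c i + 1 := by
    intro c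
    have h1 : ∑ i, (c + (Pi.single j 1 : Fin n → ℕ)) i =
        ∑ i, c i + ∑ i, (Pi.single j 1 : Fin n → ℕ) i := by
      rw [← Finset.sum_add_distrib]
      rfl
    rw [h1, Finset.sum_pi_single', if_pos (Finset.mem_univ j)]
  symm
  apply Finset.sum_of_injOn (fun c => c + (Pi.single j 1 : Fin n → ℕ))
  · intro a _ b _ hab
    exact add_right_cancel hab
  · intro c hc
    rw [Finset.mem_coe, Finset.mem_piAntidiag] at hc ⊢
    refine ⟨?_, fun i _ => Finset.mem_univ i⟩
    have h2 := hs c
    have h3 : ∑ i, c i = m := hc.1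
    rw [h3] at h2
    exact h2
  · intro c hc hc'
    apply hG
    by_contra h0
    apply hc'
    rw [Finset.mem_piAntidiag] at hc
    have h3 : c - (Pi.single j 1 : Fin n → ℕ) + (Pi.single j 1 : Fin n → ℕ) = c := by
      funext i
      rcases eq_or_ne i j with rfl | hi
      · simp only [Pi.add_apply, Pi.sub_apply, Pi.single_eq_same]
        omega
      · simp only [Pi.add_apply, Pi.sub_apply, Pi.single_eq_of_ne hi]
        omega
    refine ⟨c - (Pi.single j 1 : Fin n → ℕ), ?_, h3⟩
    rw [Finset.mem_coe, Finset.mem_piAntidiag]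
    refine ⟨?_, fun i _ => Finset.mem_univ i⟩
    have h2 := hs (c - (Pi.single j 1 : Fin n → ℕ))
    rw [h3] at h2
    have h4 : ∑ i, c i = m + 1 := hc.1
    rw [h4] at h2
    exact (Nat.succ.inj h2).symm
  · intro c _
    rfl

section rc

variable {n : ℕ} {α : Fin n → Type} [∀ j, Fintype (α j)] [∀ j, DecidableEq (α j)]

/-- the commutator with `B` -/
theorem com (hKsp : Stmt_Ksp) (B : ∀ j, Matrix (α j) (α j) ℚ) (d : ∀ j, α j → ℚ)
    (X : ∀ j, Matrix (α j) (α j) ℚ) :
    ksum B * kprod X - kprod X * Matrix.diagonal (fun x => ∑ j, d j (x j)) =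
      ∑ j, kprod (Function.update X j (B j * X j - X j * Matrix.diagonal (d j))) := by
  have h0 := (hKsp n α ℚ B X X d).2.2.2.2.2.2
  have h1 := (hKsp n α ℚ B X X d).1
  have h2 := (hKsp n α ℚ (fun j => Matrix.diagonal (d j)) X X d).2.1
  rw [← h0, h2, h1, ← Finset.sum_sub_distrib]
  apply Finset.sum_congr rfl
  intro j _
  rw [kprod_update_sub]

theorem ksm (c : Fin n → ℕ) (X : ∀ j, Matrix (α j) (α j) ℚ) :
    ((∑ j, c j : ℕ) : ℚ) • kprod X =
      ∑ j, kprod (Function.update X j (((c j : ℕ) : ℚ) • X j)) := by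
  push_cast
  rw [Finset.sum_smul]
  apply Finset.sum_congr rfl
  intro j _
  rw [kprod_update_smul, Function.update_eq_self j X]

/-- the recursion -/
theorem rec_abs (hKsp : Stmt_Ksp) (A B : ∀ j, Matrix (α j) (α j) ℚ) (d : ∀ j, α j → ℚ)
    (E : ∀ j, ℕ → Matrix (α j) (α j) ℚ)
    (r0 : ∀ j, B j * E j 0 - E j 0 * Matrix.diagonal (d j) = 0)
    (r1 : ∀ j m, ((m + 1 : ℕ) : ℚ) • E j (m + 1) +
      (B j * E j (m + 1) - E j (m + 1) * Matrix.diagonal (d j)) = -(A j * E j m)) (m : ℕ) :
    ((m : ℚ) + 1) • (∑ c ∈ Finset.piAntidiag Finset.univ (m + 1), kprod (fun j => E j (c j))) +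
      ksum B * (∑ c ∈ Finset.piAntidiag Finset.univ (m + 1), kprod (fun j => E j (c j))) -
      (∑ c ∈ Finset.piAntidiag Finset.univ (m + 1), kprod (fun j => E j (c j))) *
        Matrix.diagonal (fun x => ∑ j, d j (x j)) =
      -(ksum A * ∑ c ∈ Finset.piAntidiag Finset.univ m, kprod (fun j => E j (c j))) := by
  let G : Fin n → (Fin n → ℕ) → Matrix (∀ j, α j) (∀ j, α j) ℚ := fun j c =>
    kprod (Function.update (fun l => E l (c l)) j
      (((c j : ℕ) : ℚ) • E j (c j) + (B j * E j (c j) - E j (c j) * Matrix.diagonal (d j))))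
  have s1 : ((m : ℚ) + 1) • (∑ c ∈ Finset.piAntidiag Finset.univ (m + 1),
      kprod (fun j => E j (c j))) +
      ksum B * (∑ c ∈ Finset.piAntidiag Finset.univ (m + 1), kprod (fun j => E j (c j))) -
      (∑ c ∈ Finset.piAntidiag Finset.univ (m + 1), kprod (fun j => E j (c j))) *
        Matrix.diagonal (fun x => ∑ j, d j (x j)) =
      ∑ c ∈ Finset.piAntidiag Finset.univ (m + 1), ∑ j, G j c := by
    rw [Finset.smul_sum, Finset.mul_sum, Finset.sum_mul, add_sub_assoc,
      ← Finset.sum_sub_distrib, ← Finset.sum_add_distrib]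
    apply Finset.sum_congr rfl
    intro c hc
    rw [Finset.mem_piAntidiag] at hc
    have h3 : ((m : ℚ) + 1) = ((∑ j, c j : ℕ) : ℚ) := by
      have h4 : ∑ j, c j = m + 1 := hc.1
      rw [h4]
      push_cast
      rfl
    rw [com hKsp B d, h3, ksm c, ← Finset.sum_add_distrib]
    apply Finset.sum_congr rfl
    intro j _
    rw [← kprod_update_add]
  have s2 : ∀ j, ∑ c ∈ Finset.piAntidiag Finset.univ (m + 1), G j c =
      ∑ c ∈ Finset.piAntidiag Finset.univ m,
        - kprod (Function.update (fun l => E l (c l)) j (A j * E j (c j))) := by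
    intro j
    rw [shift_sum j m (G j)]
    · apply Finset.sum_congr rfl
      intro c _
      rw [← kprod_update_neg]
      have h4 : (c + (Pi.single j 1 : Fin n → ℕ)) j = c j + 1 := by
        rw [Pi.add_apply, Pi.single_eq_same]
      have h5 : ∀ U, kprod (Function.update
          (fun l => E l ((c + (Pi.single j 1 : Fin n → ℕ)) l)) j U) =
          kprod (Function.update (fun l => E l (c l)) j U) := by
        intro U
        congr 1
        funext l
        rcases eq_or_ne l j with rfl | hl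
        · rw [Function.update_self, Function.update_self]
        · rw [Function.update_of_ne hl, Function.update_of_ne hl]
          have h6 : (c + (Pi.single j 1 : Fin n → ℕ)) l = c l := by
            rw [Pi.add_apply, Pi.single_eq_of_ne hl, add_zero]
          rw [h6]
      show kprod (Function.update (fun l => E l ((c + (Pi.single j 1 : Fin n → ℕ)) l)) j
        ((((c + (Pi.single j 1 : Fin n → ℕ)) j : ℕ) : ℚ) •
          E j ((c + (Pi.single j 1 : Fin n → ℕ)) j) +
          (B j * E j ((c + (Pi.single j 1 : Fin n → ℕ)) j) -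
            E j ((c + (Pi.single j 1 : Fin n → ℕ)) j) * Matrix.diagonal (d j)))) = _
      rw [h5, h4, r1]
    · intro c hc
      show kprod (Function.update (fun l => E l (c l)) j
        (((c j : ℕ) : ℚ) • E j (c j) + (B j * E j (c j) - E j (c j) * Matrix.diagonal (d j)))) = _
      rw [hc, r0, Nat.cast_zero, zero_smul, add_zero, kprod_update_zero]
  rw [s1, Finset.mul_sum, ← Finset.sum_neg_distrib]
  have s3 : ∀ c ∈ Finset.piAntidiag (Finset.univ : Finset (Fin n)) m,
      -(ksum A * kprod (fun j => E j (c j))) =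
      ∑ j, - kprod (Function.update (fun l => E l (c l)) j (A j * E j (c j))) := by
    intro c _
    have h7 := (hKsp n α ℚ A (fun j => E j (c j)) (fun j => E j (c j)) d).1
    rw [h7, Finset.sum_neg_distrib]
  rw [Finset.sum_congr rfl s3]
  exact (Finset.sum_comm).trans ((Finset.sum_congr rfl fun j _ => s2 j).trans Finset.sum_comm)

theorem det_abs (hKsp : Stmt_Ksp) (X : ∀ j, Matrix (α j) (α j) ℚ) (h : ∀ j, (X j).det = 1) :
    (kprod X).det ≠ 0 := by
  have h10 := (hKsp n α ℚ X X (fun j => (X j)⁻¹) (fun j i => 0)).2.2.2.2.1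
  have h11 := (hKsp n α ℚ X X (fun j => (X j)⁻¹) (fun j i => 0)).2.2.2.2.2.1
  have h9 : kprod X * kprod (fun j => (X j)⁻¹) = 1 := by
    rw [h10, ← h11]
    congr 1
    funext j
    apply Matrix.mul_nonsing_inv
    rw [h j]
    exact isUnit_one
  intro h12
  have h13 := congrArg Matrix.det h9
  rw [Matrix.det_mul, h12, zero_mul, Matrix.det_one] at h13
  exact zero_ne_one h13

/-- the denominators -/
theorem den_abs (E : ∀ j, ℕ → Matrix (α j) (α j) ℚ)
    (hD : ∀ j, ∃ C : ℕ, 1 ≤ C ∧ ∀ (m : ℕ) (x y : α j),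
      IsZ ((((Finset.Icc 1 (C * (m + 1))).lcm id : ℕ) : ℚ) * (C : ℚ) ^ (m + 1) *
        (m.factorial : ℚ) * E j m x y)) :
    ∃ C c : ℕ, 1 ≤ C ∧ ∀ (m : ℕ) (x y : ∀ j, α j),
      IsZ ((((Finset.Icc 1 (C * (m + 1))).lcm id : ℕ) : ℚ) ^ c * (C : ℚ) ^ (m + 1) *
        (m.factorial : ℚ) * (∑ c ∈ Finset.piAntidiag Finset.univ m,
          kprod (fun j => E j (c j))) x y) := by
  choose C hC1 hC2 using hD
  have Cpos : 1 ≤ ∏ j, C j := Finset.one_le_prod' fun j _ => hC1 j
  refine ⟨∏ j, C j, n, Cpos, ?_⟩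
  intro m x y
  have e0 : (∑ c ∈ Finset.piAntidiag Finset.univ m, kprod (fun j => E j (c j))) x y =
      ∑ c ∈ Finset.piAntidiag Finset.univ m, ∏ j, E j (c j) (x j) (y j) := by
    rw [Matrix.sum_apply]
    rfl
  rw [e0, Finset.mul_sum]
  apply isZ_sum
  intro c hc
  rw [Finset.mem_piAntidiag] at hc
  have hcm : ∑ j, c j = m := hc.1
  have hcj : ∀ j, c j ≤ m := fun j => by
    rw [← hcm]
    exact Finset.single_le_sum (fun i _ => Nat.zero_le (c i)) (Finset.mem_univ j)
  have hCj : ∀ j, C j ≤ ∏ j, C j := fun j =>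
    Finset.single_le_prod' (fun i _ => hC1 i) (Finset.mem_univ j)
  have hL : ∀ j, ∃ u : ℕ, (Finset.Icc 1 ((∏ j, C j) * (m + 1))).lcm id =
      (Finset.Icc 1 (C j * (c j + 1))).lcm id * u := by
    intro j
    have h14 : (Finset.Icc 1 (C j * (c j + 1))).lcm id ∣
        (Finset.Icc 1 ((∏ j, C j) * (m + 1))).lcm id := by
      apply Finset.lcm_dvd
      intro b hb'
      apply Finset.dvd_lcm
      rw [Finset.mem_Icc] at hb' ⊢
      refine ⟨hb'.1, le_trans hb'.2 (Nat.mul_le_mul (hCj j) ?_)⟩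
      have := hcj j
      omega
    exact h14
  choose u hu using hL
  have hfac : (m.factorial : ℚ) = (∏ j, ((c j).factorial : ℚ)) *
      (Nat.multinomial Finset.univ c : ℚ) := by
    have h15 := Nat.multinomial_spec Finset.univ c
    rw [hcm] at h15
    rw [← h15]
    push_cast
    rfl
  have h16 : ((((Finset.Icc 1 ((∏ j, C j) * (m + 1))).lcm id : ℕ) : ℚ)) ^ n =
      ∏ j : Fin n, ((((Finset.Icc 1 (C j * (c j + 1))).lcm id : ℕ) : ℚ) * (u j : ℚ)) := by
    have h17 : ∀ j : Fin n, ((((Finset.Icc 1 (C j * (c j + 1))).lcm id : ℕ) : ℚ) * (u j : ℚ)) =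
        (((Finset.Icc 1 ((∏ j, C j) * (m + 1))).lcm id : ℕ) : ℚ) := by
      intro j
      rw [hu j]
      push_cast
      rfl
    rw [Finset.prod_congr rfl fun j _ => h17 j, Finset.prod_const, Finset.card_univ,
      Fintype.card_fin]
  have h18 : (((∏ j, C j : ℕ) : ℚ)) ^ (m + 1) =
      ∏ j : Fin n, ((C j : ℚ) ^ (c j + 1) * ((C j ^ (m - c j) : ℕ) : ℚ)) := by
    push_cast
    rw [← Finset.prod_pow]
    apply Finset.prod_congr rfl
    intro j _
    rw [← pow_add]
    congr 1
    have := hcj j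
    omega
  have key : ((((Finset.Icc 1 ((∏ j, C j) * (m + 1))).lcm id : ℕ) : ℚ)) ^ n *
      (((∏ j, C j : ℕ) : ℚ)) ^ (m + 1) * (m.factorial : ℚ) *
      ∏ j, E j (c j) (x j) (y j) =
      (∏ j, (((u j : ℕ) : ℚ) * ((C j ^ (m - c j) : ℕ) : ℚ) *
        ((((Finset.Icc 1 (C j * (c j + 1))).lcm id : ℕ) : ℚ) * (C j : ℚ) ^ (c j + 1) *
          ((c j).factorial : ℚ) * E j (c j) (x j) (y j)))) *
      (Nat.multinomial Finset.univ c : ℚ) := by
    rw [h16, h18, hfac, ← Finset.prod_mul_distrib,
      show ∀ a b c' d : ℚ, a * (b * c') * d = (a * b * d) * c' from fun a b c' d => by ring,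
      ← Finset.prod_mul_distrib, ← Finset.prod_mul_distrib]
    congr 1
    apply Finset.prod_congr rfl
    intro j _
    ring
  rw [key]
  apply isZ_mul _ (isZ_nat _)
  apply isZ_prod
  intro j _
  exact isZ_mul (isZ_mul (isZ_nat _) (isZ_nat _)) (hC2 j (c j) (x j) (y j))

end rc

end FST_

open FST_ in
theorem fst_proof (hRec : Stmt_Rec) (hEze : Stmt_Eze) (hDen : Stmt_Den) (hKsp : Stmt_Ksp) :
    Stmt_Fst := by
  intro n f hf
  have r0 : ∀ j, B1 (f j) * E1 (f j) 0 - E1 (f j) 0 *
      Matrix.diagonal (fun i : Fin ((f j).natDegree - 1) =>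
        ((i : ℕ) + 1 : ℚ) / (f j).natDegree) = 0 := by
    intro j
    ext i i'
    rw [Matrix.sub_apply, Matrix.mul_diagonal, (hRec (f j) (hf j)).1 i i', sub_self,
      Matrix.zero_apply]
  have r1 : ∀ j m, ((m + 1 : ℕ) : ℚ) • E1 (f j) (m + 1) + (B1 (f j) * E1 (f j) (m + 1) -
      E1 (f j) (m + 1) * Matrix.diagonal (fun i : Fin ((f j).natDegree - 1) =>
        ((i : ℕ) + 1 : ℚ) / (f j).natDegree)) = -(A1 (f j) * E1 (f j) m) := by
    intro j m
    ext i i'
    rw [Matrix.add_apply, Matrix.smul_apply, Matrix.sub_apply, Matrix.mul_diagonal,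
      Matrix.neg_apply, smul_eq_mul, ← (hRec (f j) (hf j)).2 m i i']
    push_cast
    ring
  have ET0 : ET f 0 = kprod (fun j => E1 (f j) 0) := by
    unfold ET
    rw [Finset.piAntidiag_zero, Finset.sum_singleton]
    rfl
  refine ⟨?_, ?_, ?_, ?_⟩
  · rw [← sub_eq_zero, ET0]
    have h := com hKsp (fun j => B1 (f j)) (fun j (i : Fin ((f j).natDegree - 1)) =>
      ((i : ℕ) + 1 : ℚ) / (f j).natDegree) (fun j => E1 (f j) 0)
    refine h.trans ?_
    apply Finset.sum_eq_zero
    intro j _
    rw [r0 j, kprod_update_zero]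
  · intro m
    exact rec_abs hKsp (fun j => A1 (f j)) (fun j => B1 (f j))
      (fun j (i : Fin ((f j).natDegree - 1)) => ((i : ℕ) + 1 : ℚ) / (f j).natDegree)
      (fun j m => E1 (f j) m) r0 r1 m
  · rw [ET0]
    apply det_abs hKsp
    intro j
    rw [Matrix.det_of_isLowerTriangular]
    · apply Finset.prod_eq_one
      intro i _
      exact (hEze (f j) (hf j)).2 i
    · intro i i' h
      exact (hEze (f j) (hf j)).1 i i' h
  · exact den_abs (fun j m => E1 (f j) m) (fun j => hDen (f j) (hf j))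

end Pool.Agent.EVD
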