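import Pool.Agent.EVD.Stmts
import Pool.Agent.DG2.AStmts
import Pool.Agent.DGP.Stmts

set_option autoImplicit false

/-!
EVD, module FUO: the full system.
-/

open Finset

namespace Pool.Agent.EVD

open Pool.Agent.DGP (GSys IsZ hd val Conv tens)

theorem fuo_proof (hBase : Stmt_Bao) (hDSum : DG2.Stmt_DSmJ) (hMono : DGP.Stmt_Mono)
    (hTens : DGP.Stmt_Tens) : Stmt_Fuo := by
  intro K ι _ _ A E hA hE E0
  choose C hC using fun k => hBase (ι k) (A k) (E k) (hA k) (hE k)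
  refine ⟨(∑ l, C l + 2) ^ ((K + 1) * (E0 + 2)),
    (∑ l, (Fintype.card (ι l) + 1)) * ((K + 1) * (E0 + 2)),
    (∑ l, Fintype.card (ι l)) * K, ?_⟩
  intro d b hb hd
  have hb' : (1 : ℝ) ≤ b := by exact_mod_cast hb
  choose e₀ c₀ hG using fun k : Fin K => hC k (d k) (hd k).1
  have hsum : ∀ k, c₀ k ≤ 1 + ∑ l, |c₀ l| := by
    intro k
    have h3 : |c₀ k| ≤ ∑ l, |c₀ l| :=
      Finset.single_le_sum (f := fun l => |c₀ l|) (fun l _ => abs_nonneg _) (Finset.mem_univ k)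
    have h4 := le_abs_self (c₀ k)
    linarith
  have hH : ∀ k, ((C k : ℝ) * (d k : ℝ) ^ (Fintype.card (ι k) + 1)) ≤
      (((∑ l, C l : ℕ) : ℝ) + 2) * (b : ℝ) ^ (∑ l, (Fintype.card (ι l) + 1)) := by
    intro k
    have h3 : (d k : ℝ) ≤ b := by exact_mod_cast (hd k).2
    have h4 : (d k : ℝ) ^ (Fintype.card (ι k) + 1) ≤
        (b : ℝ) ^ (∑ l, (Fintype.card (ι l) + 1)) :=
      (pow_le_pow_left₀ (by positivity) h3 _).trans (pow_le_pow_right₀ hb'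
        (Finset.single_le_sum (f := fun l => Fintype.card (ι l) + 1) (fun l _ => Nat.zero_le _)
          (Finset.mem_univ k)))
    have h5 : C k ≤ ∑ l, C l :=
      Finset.single_le_sum (f := fun l => C l) (fun l _ => Nat.zero_le _) (Finset.mem_univ k)
    have h6 : (C k : ℝ) ≤ ((∑ l, C l : ℕ) : ℝ) + 2 := by
      have h7 : (C k : ℝ) ≤ ((∑ l, C l : ℕ) : ℝ) := by exact_mod_cast h5
      linarith
    exact mul_le_mul h6 h4 (by positivity) (by positivity)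
  have hG' : ∀ k, GSys (fun p : ι k × ι k =>
      PowerSeries.rescale (d k : ℚ) (Ys (A k) (E k) p)) (Td (A k) (d k))
      (∑ l, Fintype.card (ι l))
      (∑ l, e₀ l) (1 + ∑ l, |c₀ l|)
      ((((∑ l, C l : ℕ) : ℝ) + 2) * (b : ℝ) ^ (∑ l, (Fintype.card (ι l) + 1))) := by
    intro k
    exact hMono _ _ _ _ _ _ _ _ _ _ _ (hG k)
      (Finset.single_le_sum (f := fun l => Fintype.card (ι l)) (fun l _ => Nat.zero_le _)
        (Finset.mem_univ k))
      (Finset.single_le_sum (f := fun l => e₀ l) (fun l _ => Nat.zero_le _) (Finset.mem_univ k))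
      (hsum k) (hH k)
  have h3 : (1 : ℝ) ≤ 1 + ∑ l, |c₀ l| := by
    have : (0 : ℝ) ≤ ∑ l, |c₀ l| := Finset.sum_nonneg (fun l _ => abs_nonneg _)
    linarith
  have h4 : (2 : ℝ) ≤ (((∑ l, C l : ℕ) : ℝ) + 2) *
      (b : ℝ) ^ (∑ l, (Fintype.card (ι l) + 1)) := by
    have h5 : (0 : ℝ) ≤ ((∑ l, C l : ℕ) : ℝ) := Nat.cast_nonneg _
    have h6 : (1 : ℝ) ≤ (b : ℝ) ^ (∑ l, (Fintype.card (ι l) + 1)) := one_le_pow₀ hb'
    nlinarith
  obtain ⟨e₁, c₁, hD⟩ := hDSum K (fun k => ι k × ι k)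
    (fun k p => PowerSeries.rescale (d k : ℚ) (Ys (A k) (E k) p))
    (fun k => Td (A k) (d k)) (∑ l, Fintype.card (ι l)) _ _ _ h3 h4 hG'
  have hfun : (fun o : Option (Σ k, ι k × ι k) => o.elim 1
      (fun p => PowerSeries.rescale (d p.1 : ℚ) (Ys (A p.1) (E p.1) p.2))) =
      fullO A E d := by
    funext o
    cases o <;> rfl
  rw [hfun] at hD
  obtain ⟨e₂, c₂, hT⟩ := hTens _ _ _ _ _ _ _ hD E0
  refine ⟨e₂, c₂, ?_⟩
  have hpow : (((((∑ l, C l : ℕ) : ℝ) + 2) *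
        (b : ℝ) ^ (∑ l, (Fintype.card (ι l) + 1))) ^ (K + 1)) ^ (E0 + 2)
      = (((∑ l, C l + 2) ^ ((K + 1) * (E0 + 2)) : ℕ) : ℝ) *
        (b : ℝ) ^ ((∑ l, (Fintype.card (ι l) + 1)) * ((K + 1) * (E0 + 2))) := by
    rw [← pow_mul, mul_pow, ← pow_mul]
    push_cast
    rfl
  rw [hpow] at hT
  exact hT

end Pool.Agent.EVD
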