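import Pool.Agent.EVD.Stmts

set_option autoImplicit false

/-!
# EVD, module GAU: gauge transformation to the system with bounded solutions at the points `T j`
-/

open scoped BigOperators Topology
open Metric Set

namespace Pool.Agent.EVD

namespace GAU_

noncomputable section

/-- Entrywise derivative of a matrix function. -/
def HD {m n : Type} (M : ℂ → Matrix m n ℂ) (M' : Matrix m n ℂ) (s : ℂ) : Prop :=
  ∀ k l, HasDerivAt (fun z => M z k l) (M' k l) s

lemma HD.mul {m n p : Type} [Fintype n] {M : ℂ → Matrix m n ℂ} {M' : Matrix m n ℂ}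
    {N : ℂ → Matrix n p ℂ} {N' : Matrix n p ℂ} {s : ℂ} (hM : HD M M' s) (hN : HD N N' s) :
    HD (fun z => M z * N z) (M' * N s + M s * N') s := by
  intro k l
  have h : HasDerivAt (fun z => ∑ i, M z k i * N z i l)
      (∑ i, (M' k i * N s i l + M s k i * N' i l)) s :=
    HasDerivAt.fun_sum (fun i _ => (hM k i).mul (hN i l))
  have e1 : (fun z => (M z * N z) k l) = fun z => ∑ i, M z k i * N z i l := by
    funext z; rw [Matrix.mul_apply]
  have e2 : (M' * N s + M s * N') k l = ∑ i, (M' k i * N s i l + M s k i * N' i l) := by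
    rw [Matrix.add_apply, Matrix.mul_apply, Matrix.mul_apply, Finset.sum_add_distrib]
  rw [e1, e2]; exact h

lemma HD.const {m n : Type} (C : Matrix m n ℂ) (s : ℂ) : HD (fun _ => C) 0 s := by
  intro k l
  exact hasDerivAt_const s (C k l)

lemma HD.cmul {m n p : Type} [Fintype n] (C : Matrix m n ℂ)
    {N : ℂ → Matrix n p ℂ} {N' : Matrix n p ℂ} {s : ℂ} (hN : HD N N' s) :
    HD (fun z => C * N z) (C * N') s := by
  have h := (HD.const C s).mul hN
  simpa using h

lemma HD.mulc {m n p : Type} [Fintype n] (C : Matrix n p ℂ)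
    {N : ℂ → Matrix m n ℂ} {N' : Matrix m n ℂ} {s : ℂ} (hN : HD N N' s) :
    HD (fun z => N z * C) (N' * C) s := by
  have h := hN.mul (HD.const C s)
  simpa using h

lemma HD.smulf {m n : Type} {N : ℂ → Matrix m n ℂ} {N' : Matrix m n ℂ} {s : ℂ} {g : ℂ → ℂ}
    {g' : ℂ} (hg : HasDerivAt g g' s) (hN : HD N N' s) :
    HD (fun z => g z • N z) (g' • N s + g s • N') s := by
  intro k l
  have h : HasDerivAt (fun z => g z * N z k l) (g' * N s k l + g s * N' k l) s :=
    hg.mul (hN k l)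
  exact h

lemma HD.unique {m n : Type} {N : ℂ → Matrix m n ℂ} {N' N'' : Matrix m n ℂ} {s : ℂ}
    (h1 : HD N N' s) (h2 : HD N N'' s) : N' = N'' := by
  ext k l
  exact (h1 k l).unique (h2 k l)

variable {ι : Type} [Fintype ι] [DecidableEq ι]

/-- The matrix `e + r z + A`. -/
def S (A : Matrix ι ι ℂ) (e r z : ℂ) : Matrix ι ι ℂ := (e + r * z) • (1 : Matrix ι ι ℂ) + A

lemma HD.S (A : Matrix ι ι ℂ) (e r s : ℂ) : HD (S A e r) (r • (1 : Matrix ι ι ℂ)) s := by
  intro k l
  have h : HasDerivAt (fun z : ℂ => (e + r * z) * (1 : Matrix ι ι ℂ) k l + A k l)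
      (r * (1 : Matrix ι ι ℂ) k l) s := by
    have h1 : HasDerivAt (fun z : ℂ => e + r * z) r s := by
      have := ((hasDerivAt_id s).const_mul r).const_add e
      simpa using this
    exact (h1.mul_const _).add_const _
  simpa [GAU_.S, Matrix.add_apply, Matrix.smul_apply, smul_eq_mul] using h

/-- The gauge matrices. -/
def KK (A B : Matrix ι ι ℂ) (e r : ℂ) (κ : ℕ) : ℕ → ℂ → Matrix ι ι ℂ
  | 0, _ => 1
  | (d + 1), z => (B - ((κ : ℂ) - ((d : ℂ) + 1)) • (1 : Matrix ι ι ℂ))⁻¹ *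
      (S A e r z * KK A B e r κ d z)

lemma KK_hd (A B : Matrix ι ι ℂ) (e r : ℂ) (κ d : ℕ) (s : ℂ) :
    ∃ D, HD (KK A B e r κ d) D s := by
  induction d with
  | zero => exact ⟨0, by simpa [KK] using (HD.const (1 : Matrix ι ι ℂ) s)⟩
  | succ d ih =>
    obtain ⟨D, hD⟩ := ih
    exact ⟨_, ((HD.S A e r s).mul hD).cmul _⟩

lemma det_ne {κ : ℕ} {A B U : Matrix ι ι ℚ} {b : ι → ℚ} {i₀ : ι} (h : Oku κ A B U b i₀)
    (z : ℤ) : (cm B - (z : ℂ) • (1 : Matrix ι ι ℂ)).det ≠ 0 := by
  intro hdet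
  obtain ⟨v, hv, hM⟩ := Matrix.exists_mulVec_eq_zero_iff.mpr hdet
  have hne : (Finset.univ.filter fun i => v i ≠ 0).Nonempty := by
    by_contra hcon
    apply hv
    funext i
    by_contra hi
    exact hcon ⟨i, by simpa using hi⟩
  obtain ⟨i, hi, hmin⟩ := Finset.exists_min_image _ b hne
  have hvi : v i ≠ 0 := (Finset.mem_filter.mp hi).2
  have hrow : (cm B - (z : ℂ) • (1 : Matrix ι ι ℂ)).mulVec v i = 0 := by rw [hM]; rfl
  rw [Matrix.mulVec, dotProduct, Finset.sum_eq_single i] at hrow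
  · rcases mul_eq_zero.mp hrow with h0 | h0
    · have h1 : ((b i : ℚ) : ℂ) - (z : ℂ) = 0 := by
        simpa [cm, h.Bdia i] using h0
      have h2 : ((b i : ℚ) : ℂ) = (((z : ℚ) : ℚ) : ℂ) := by
        rw [sub_eq_zero.mp h1]; push_cast; rfl
      exact h.bint i z (by exact_mod_cast h2)
    · exact hvi h0
  · intro j _ hj
    by_cases hvj : v j = 0
    · rw [hvj, mul_zero]
    · have hb : b i ≤ b j := hmin j (by simpa using hvj)
      have hB : B i j = 0 := by
        by_contra hB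
        exact absurd (h.Btri i j (Ne.symm hj) hB) (not_lt.mpr hb)
      have : (cm B - (z : ℂ) • (1 : Matrix ι ι ℂ)) i j = 0 := by
        simp [cm, hB, Matrix.one_apply_ne (Ne.symm hj)]
      rw [this, zero_mul]
  · intro h'; exact absurd (Finset.mem_univ i) h'

lemma det_ne' {κ : ℕ} {A B U : Matrix ι ι ℚ} {b : ι → ℚ} {i₀ : ι} (h : Oku κ A B U b i₀)
    (d : ℕ) : (cm B - ((κ : ℂ) - ((d : ℂ) + 1)) • (1 : Matrix ι ι ℂ)).det ≠ 0 := by
  have h1 := det_ne h ((κ : ℤ) - ((d : ℤ) + 1))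
  push_cast at h1
  exact h1


lemma cut_ne {q : ℕ} {T : Fin q → ℂ} {b0 z : ℂ} (hz : z ∈ GPH.Cut b0 T) (j : Fin q) :
    z ≠ T j := by
  have h := hz j 1 le_rfl
  intro h'
  apply h
  rw [h']
  push_cast
  ring

lemma Eo_cm (n : ℕ) (B : Matrix ι ι ℚ) :
    cm (Eo n B) = cm B - (n : ℂ) • (1 : Matrix ι ι ℂ) := by
  ext k l
  simp only [cm, Eo, Matrix.map_apply, Matrix.sub_apply, Matrix.smul_apply, smul_eq_mul]
  by_cases hkl : k = l
  · subst hkl; simp
  · simp [Matrix.one_apply_ne hkl]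

lemma step {κ : ℕ} {A B U : Matrix ι ι ℚ} {b : ι → ℚ} {i₀ : ι} (h : Oku κ A B U b i₀)
    (e r : ℂ) (Φ : ℂ → Matrix ι ι ℂ) (z : ℂ) (D0 : Matrix ι ι ℂ) (hD0 : HD Φ D0 z)
    (h0 : S (cm A) e r z * D0 = r • ((cm B - (κ : ℂ) • (1 : Matrix ι ι ℂ)) * Φ z)) (d : ℕ) :
    ∃ D, HD (fun z => KK (cm A) (cm B) e r κ d z * Φ z) D z ∧
      S (cm A) e r z * D = r • ((cm B - ((κ : ℂ) - (d : ℂ)) • (1 : Matrix ι ι ℂ)) *
        (KK (cm A) (cm B) e r κ d z * Φ z)) := by
  induction d with
  | zero =>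
    refine ⟨D0, ?_, ?_⟩
    · simpa [KK] using hD0
    · simpa [KK] using h0
  | succ d ih =>
    obtain ⟨D, hD, hE⟩ := ih
    set M : Matrix ι ι ℂ := KK (cm A) (cm B) e r κ d z * Φ z with hM
    set C : Matrix ι ι ℂ := cm B - ((κ : ℂ) - ((d : ℂ) + 1)) • (1 : Matrix ι ι ℂ) with hC
    have hCd : IsUnit C.det := isUnit_iff_ne_zero.mpr (det_ne' h d)
    have e1 : (fun z => KK (cm A) (cm B) e r κ (d + 1) z * Φ z) =
        fun z => C⁻¹ * (S (cm A) e r z * (KK (cm A) (cm B) e r κ d z * Φ z)) := by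
      funext w
      simp only [KK, hC, Matrix.mul_assoc]
    have h1 := ((HD.S (cm A) e r z).mul hD).cmul C⁻¹
    refine ⟨r • M, ?_, ?_⟩
    · rw [e1]
      have e2 : C⁻¹ * (r • (1 : Matrix ι ι ℂ) * M + S (cm A) e r z * D) = r • M := by
        rw [hE]
        have e3 : r • (1 : Matrix ι ι ℂ) * M +
            r • ((cm B - ((κ : ℂ) - (d : ℂ)) • (1 : Matrix ι ι ℂ)) * M) = r • (C * M) := by
          rw [hC, Matrix.smul_mul, Matrix.one_mul, ← smul_add, Matrix.sub_mul, Matrix.sub_mul,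
            Matrix.smul_mul, Matrix.smul_mul, Matrix.one_mul]
          congr 1
          module
        rw [e3, Matrix.mul_smul, ← Matrix.mul_assoc, Matrix.nonsing_inv_mul _ hCd,
          Matrix.one_mul]
      rw [← e2]
      exact h1
    · have e4 : KK (cm A) (cm B) e r κ (d + 1) z * Φ z = C⁻¹ * (S (cm A) e r z * M) := by
        have := congrFun e1 z
        exact this
      rw [e4]
      push_cast
      rw [← hC, ← Matrix.mul_assoc, Matrix.mul_nonsing_inv _ hCd, Matrix.one_mul,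
        Matrix.mul_smul]

lemma KK_det {κ : ℕ} {A B U : Matrix ι ι ℚ} {b : ι → ℚ} {i₀ : ι} (h : Oku κ A B U b i₀)
    (e r z : ℂ) (hz : (S (cm A) e r z).det ≠ 0) (d : ℕ) :
    (KK (cm A) (cm B) e r κ d z).det ≠ 0 := by
  induction d with
  | zero => simp [KK]
  | succ d ih =>
    simp only [KK]
    rw [Matrix.det_mul, Matrix.det_mul]
    refine mul_ne_zero ?_ (mul_ne_zero hz ih)
    rw [Matrix.det_nonsing_inv]
    exact IsUnit.ne_zero (IsUnit.ringInverse (isUnit_iff_ne_zero.mpr (det_ne' h d)))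

lemma KK_zero (A B : Matrix ι ι ℂ) (e r : ℂ) (κ : ℕ) (z : ℂ) (Q : Matrix ι ι ℂ)
    (h : S A e r z * Q = 0) (d : ℕ) : KK A B e r κ (d + 1) z * Q = 0 := by
  induction d with
  | zero =>
    simp only [KK, Matrix.mul_one]
    rw [Matrix.mul_assoc, h, Matrix.mul_zero]
  | succ d ih =>
    rw [KK]
    rw [Matrix.mul_assoc, Matrix.mul_assoc, ih, Matrix.mul_zero, Matrix.mul_zero]

lemma exp_plog {t : ℂ} (ht : t ≠ 0) : Complex.exp (GPH.plog t) = t := by
  rw [GPH.plog, Complex.exp_add, Complex.exp_log (neg_ne_zero.mpr ht), Complex.exp_pi_mul_I]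
  ring

lemma exp_half {t : ℂ} (ht : t ≠ 0) :
    Complex.exp (-(GPH.plog t) / 2) = Complex.exp (GPH.plog t / 2) * t⁻¹ := by
  have h1 : (-(GPH.plog t) / 2 : ℂ) = GPH.plog t / 2 + -(GPH.plog t) := by ring
  rw [h1, Complex.exp_add, Complex.exp_neg, exp_plog ht]

lemma slit {t : ℂ} (ht : ∀ u : ℝ, 0 ≤ u → t ≠ u) : -t ∈ Complex.slitPlane := by
  rw [Complex.mem_slitPlane_iff]
  by_contra hcon
  push Not at hcon
  obtain ⟨h1, h2⟩ := hcon
  have h3 : t.im = 0 := by simpa using h2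
  have h4 : 0 ≤ t.re := by simpa using h1
  exact ht t.re h4 (Complex.ext (by simp) (by simp [h3]))

lemma slit' {t : ℂ} (ht : -t ∈ Complex.slitPlane) : ∀ u : ℝ, 0 ≤ u → t ≠ u := by
  intro u hu h
  rw [Complex.mem_slitPlane_iff] at ht
  rw [h] at ht
  simp at ht
  linarith

lemma hd_g {t : ℂ} (ht : -t ∈ Complex.slitPlane) :
    HasDerivAt (fun t => Complex.exp (-(GPH.plog t) / 2))
      (Complex.exp (-(GPH.plog t) / 2) * (-(t⁻¹) / 2)) t := by
  have ht0 : t ≠ 0 := by
    intro h; rw [h] at ht; simp at ht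
  have h1 : HasDerivAt (fun t : ℂ => Complex.log (-t)) (t⁻¹) t := by
    have h2 := (Complex.hasDerivAt_log ht).comp t (hasDerivAt_neg t)
    have e : (-t)⁻¹ * -1 = t⁻¹ := by field_simp
    rw [e] at h2
    exact h2
  have h3 : HasDerivAt (fun t : ℂ => GPH.plog t) (t⁻¹) t := by
    have := h1.add_const (Real.pi * Complex.I)
    exact this
  have h4 : HasDerivAt (fun t : ℂ => -(GPH.plog t) / 2) (-(t⁻¹) / 2) t := h3.neg.div_const 2
  exact h4.cexp

/-- The key vanishing. -/
lemma key {A : Matrix ι ι ℂ} {E : Matrix ι ι ℂ}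
    (e r : ℂ) (Tj b0 : ℂ) (Φ L : ℂ → Matrix ι ι ℂ) (P : Matrix ι ι ℂ) (hP : P * P = P)
    (V : Set ℂ) (hV : ∀ z ∈ V, HD Φ (L z * Φ z) z) (hL : ∀ z ∈ V, S A e r z * L z = r • E)
    (ρ : ℝ) (hρ : 0 < ρ) (H : ℂ → Matrix ι ι ℂ) (hH : GPH.HolM (ball 0 ρ) H)
    (hloc : ∀ t ∈ ball (0 : ℂ) ρ, (∀ u : ℝ, 0 ≤ u → t ≠ u) → Tj + t * (Tj - b0) ∈ V ∧
      Φ (Tj + t * (Tj - b0)) = H t * (1 + (Complex.exp (-(GPH.plog t) / 2) - 1) • P)) :
    S A e r Tj * (H 0 * P) = 0 := by
  classical
  set H' : ℂ → Matrix ι ι ℂ := fun t => Matrix.of fun k l => deriv (fun t => H t k l) t with hH'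
  have hHd : ∀ t ∈ ball (0 : ℂ) ρ, HD H (H' t) t := by
    intro t ht k l
    exact ((hH k l).differentiableAt (isOpen_ball.mem_nhds ht)).hasDerivAt
  have hH'c : ∀ k l, ContinuousAt (fun t => H' t k l) 0 := by
    intro k l
    have h1 : DifferentiableOn ℂ (deriv (fun t => H t k l)) (ball 0 ρ) :=
      (hH k l).deriv isOpen_ball
    exact (h1.differentiableAt (isOpen_ball.mem_nhds (mem_ball_self hρ))).continuousAt
  have hHc : ∀ k l, ContinuousAt (fun t => H t k l) 0 := by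
    intro k l
    exact ((hH k l).differentiableAt (isOpen_ball.mem_nhds (mem_ball_self hρ))).continuousAt
  -- the identity on the slit disc
  have hid : ∀ t ∈ ball (0 : ℂ) ρ, (∀ u : ℝ, 0 ≤ u → t ≠ u) →
      S A e r (Tj + t * (Tj - b0)) * (t • (H' t * P) - (1 / 2 : ℂ) • (H t * P)) =
        (t * (Tj - b0) * r) • (E * (H t * P)) := by
    intro t ht hu
    have hsl := slit hu
    have ht0 : t ≠ 0 := by
      intro h; exact hu 0 le_rfl (by simpa using h)
    obtain ⟨hz, hΦt⟩ := hloc t ht hu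
    set z : ℂ := Tj + t * (Tj - b0) with hzdef
    set g : ℂ := Complex.exp (-(GPH.plog t) / 2) with hg
    have hg0 : g ≠ 0 := Complex.exp_ne_zero _
    have hΦP : ∀ s ∈ ball (0 : ℂ) ρ, (∀ u : ℝ, 0 ≤ u → s ≠ u) →
        Φ (Tj + s * (Tj - b0)) * P =
          Complex.exp (-(GPH.plog s) / 2) • (H s * P) := by
      intro s hs hsu
      rw [(hloc s hs hsu).2, Matrix.mul_assoc, Matrix.add_mul, Matrix.one_mul, Matrix.smul_mul,
        hP, ← Matrix.mul_smul]
      congr 1
      module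
    -- derivative of the left hand side
    have hz' : HasDerivAt (fun t : ℂ => Tj + t * (Tj - b0)) (Tj - b0) t := by
      have := ((hasDerivAt_id t).mul_const (Tj - b0)).const_add Tj
      simpa using this
    have hd1 : HD (fun t => Φ (Tj + t * (Tj - b0))) ((Tj - b0) • (L z * Φ z)) t := by
      intro k l
      have h1 : HasDerivAt (fun w => Φ w k l) ((L z * Φ z) k l) (Tj + t * (Tj - b0)) :=
        hV z hz k l
      have h2 := h1.comp t hz'
      have e : ((Tj - b0) • (L z * Φ z)) k l = (L z * Φ z) k l * (Tj - b0) := by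
        rw [Matrix.smul_apply, smul_eq_mul, mul_comm]
      rw [e]; exact h2
    have hd2 := hd1.mulc P
    have hd3 : HD (fun t => Complex.exp (-(GPH.plog t) / 2) • (H t * P))
        ((g * (-(t⁻¹) / 2)) • (H t * P) + g • (H' t * P)) t :=
      HD.smulf (hd_g hsl) ((hHd t ht).mulc P)
    have hd4 : HD (fun t => Φ (Tj + t * (Tj - b0)) * P)
        ((g * (-(t⁻¹) / 2)) • (H t * P) + g • (H' t * P)) t := by
      intro k l
      refine (hd3 k l).congr_of_eventuallyEq ?_
      have ho : IsOpen (ball (0 : ℂ) ρ ∩ (fun t : ℂ => -t) ⁻¹' Complex.slitPlane) :=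
        isOpen_ball.inter (Complex.isOpen_slitPlane.preimage continuous_neg)
      filter_upwards [ho.mem_nhds ⟨ht, hsl⟩] with s hs
      rw [hΦP s hs.1 (slit' hs.2)]
    have he := hd2.unique hd4
    -- multiply by S
    have he2 : S A e r z * ((Tj - b0) • (L z * Φ z) * P) =
        ((Tj - b0) * r * g) • (E * (H t * P)) := by
      have h1 : (Tj - b0) • (L z * Φ z) * P = (Tj - b0) • (L z * (Φ z * P)) := by
        rw [Matrix.smul_mul, Matrix.mul_assoc]
      rw [h1, Matrix.mul_smul, ← Matrix.mul_assoc, hL z hz, hΦP t ht hu, Matrix.smul_mul,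
        Matrix.mul_smul, smul_smul, smul_smul]
    rw [he, Matrix.mul_add, Matrix.mul_smul, Matrix.mul_smul] at he2
    have he3 : (g * t⁻¹) • (S A e r z * (t • (H' t * P) - (1 / 2 : ℂ) • (H t * P))) =
        (g * t⁻¹) • ((t * (Tj - b0) * r) • (E * (H t * P))) := by
      rw [Matrix.mul_sub, Matrix.mul_smul, Matrix.mul_smul]
      have h5 : (g * t⁻¹) • ((t * (Tj - b0) * r) • (E * (H t * P))) =
          ((Tj - b0) * r * g) • (E * (H t * P)) := by
        rw [smul_smul]; congr 1; field_simp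
      rw [h5, ← he2, smul_sub, smul_smul, smul_smul]
      have h6 : g * t⁻¹ * t = g := by field_simp
      rw [h6]
      have h7 : g * (-t⁻¹ / 2) = -(g * t⁻¹ * (1 / 2)) := by ring
      rw [h7, neg_smul]
      abel
    have hgt : g * t⁻¹ ≠ 0 := mul_ne_zero hg0 (inv_ne_zero ht0)
    exact smul_right_injective _ hgt he3
  -- pass to the limit
  have hlim : ∀ k l, (S A e r Tj * ((1 / 2 : ℂ) • (H 0 * P))) k l = 0 := by
    intro k l
    set F : ℂ → ℂ := fun t =>
      (∑ i, S A e r (Tj + t * (Tj - b0)) k i *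
        (t * (∑ m, H' t i m * P m l) - (1 / 2 : ℂ) * (∑ m, H t i m * P m l))) -
        (t * (Tj - b0) * r) * (∑ i, E k i * (∑ m, H t i m * P m l)) with hF
    have hFc : ContinuousAt F 0 := by
      have hS : ∀ i, ContinuousAt (fun t : ℂ => S A e r (Tj + t * (Tj - b0)) k i) 0 := by
        intro i
        have hc : Continuous (fun t : ℂ => (e + r * (Tj + t * (Tj - b0))) *
            (1 : Matrix ι ι ℂ) k i + A k i) := by fun_prop
        exact hc.continuousAt
      have h1 : ∀ i, ContinuousAt (fun t : ℂ => ∑ m, H' t i m * P m l) 0 := fun i =>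
        tendsto_finsetSum _ fun m _ => (hH'c i m).mul continuousAt_const
      have h2 : ∀ i, ContinuousAt (fun t : ℂ => ∑ m, H t i m * P m l) 0 := fun i =>
        tendsto_finsetSum _ fun m _ => (hHc i m).mul continuousAt_const
      have h3 : ContinuousAt (fun t : ℂ => ∑ i, S A e r (Tj + t * (Tj - b0)) k i *
          (t * (∑ m, H' t i m * P m l) - (1 / 2 : ℂ) * (∑ m, H t i m * P m l))) 0 :=
        tendsto_finsetSum _ fun i _ =>
          (hS i).mul ((continuousAt_id.mul (h1 i)).sub (continuousAt_const.mul (h2 i)))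
      have h4 : ContinuousAt (fun t : ℂ => ∑ i, E k i * (∑ m, H t i m * P m l)) 0 :=
        tendsto_finsetSum _ fun i _ => continuousAt_const.mul (h2 i)
      exact h3.sub (((continuousAt_id.mul continuousAt_const).mul continuousAt_const).mul h4)
    have hF0 : ∀ t ∈ ball (0 : ℂ) ρ, (∀ u : ℝ, 0 ≤ u → t ≠ u) → F t = 0 := by
      intro t ht hu
      have h := congrFun (congrFun (hid t ht hu) k) l
      simp only [Matrix.mul_apply, Matrix.smul_apply, Matrix.sub_apply, smul_eq_mul] at h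
      simp only [hF]
      rw [h, sub_self]
    have hF00 : F 0 = 0 := by
      have ht1 : Filter.Tendsto (fun ε : ℝ => F (-(ε : ℂ))) (𝓝[>] (0 : ℝ)) (𝓝 (F 0)) := by
        have h1 : Filter.Tendsto (fun ε : ℝ => (-(ε : ℂ))) (𝓝[>] (0 : ℝ)) (𝓝 (0 : ℂ)) := by
          have hc : Continuous (fun ε : ℝ => (-(ε : ℂ))) := by fun_prop
          have h2 := hc.tendsto 0
          simp only [Complex.ofReal_zero, neg_zero] at h2
          exact h2.mono_left nhdsWithin_le_nhds
        exact Filter.Tendsto.comp hFc h1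
      have ht2 : Filter.Tendsto (fun ε : ℝ => F (-(ε : ℂ))) (𝓝[>] (0 : ℝ)) (𝓝 0) := by
        refine (tendsto_const_nhds (x := (0 : ℂ))).congr' ?_
        filter_upwards [Ioo_mem_nhdsGT hρ] with ε hε
        symm
        apply hF0
        · rw [mem_ball_zero_iff, norm_neg, Complex.norm_real, Real.norm_eq_abs,
            abs_of_pos hε.1]
          exact hε.2
        · intro u hu h
          have h1 := congrArg Complex.re h
          simp at h1
          linarith [hε.1]
      exact tendsto_nhds_unique ht1 ht2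
    simp only [hF, zero_mul, add_zero, zero_sub, sub_zero] at hF00
    rw [Matrix.mul_apply]
    have h5 : ∀ i, S A e r Tj k i * ((1 / 2 : ℂ) • (H 0 * P)) i l =
        -(S A e r Tj k i * -(1 / 2 * ∑ m, H 0 i m * P m l)) := by
      intro i
      rw [Matrix.smul_apply, Matrix.mul_apply, smul_eq_mul]; ring
    rw [Finset.sum_congr rfl (fun i _ => h5 i), Finset.sum_neg_distrib, hF00, neg_zero]
  have h8 : S A e r Tj * ((1 / 2 : ℂ) • (H 0 * P)) = 0 := by
    ext k l; exact hlim k l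
  rw [Matrix.mul_smul] at h8
  rcases smul_eq_zero.mp h8 with h9 | h9
  · norm_num at h9
  · exact h9

end

end GAU_

open GAU_ in
theorem gau_proof (_hRSQ : Stmt_Rsq) (hFBE : Stmt_Fbe) : Stmt_Gau := by
  intro ι _ _ κ A B U b i₀ hO e r q T x hS b0 hG Φ hΦ Pj hP hL
  classical
  have hUs : (cm U).transpose = cm U := by
    have h := hO.Usym
    ext k l
    have h1 : U l k = U k l := by
      have := congrFun (congrFun h k) l
      simpa [Matrix.transpose_apply] using this
    simp [cm, Matrix.transpose_apply, h1]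
  obtain ⟨hdetS, hfb⟩ := hFBE ι (cm A) (cm U) (cm (Eo κ B)) e r q T x hUs hS
  obtain ⟨-, hfb1⟩ := hFBE ι (cm A) (cm U) (cm (Eo 1 B)) e r q T x hUs hS
  have hSdet : ∀ z ∈ GPH.Cut b0 T, (S (cm A) e r z).det ≠ 0 := fun z hz =>
    (hdetS z).mpr fun j _ => cut_ne hz j
  have hκ : ((κ : ℂ) - ((κ - 1 : ℕ) : ℂ)) = 1 := by
    have h2 : 1 ≤ κ := by have := hO.two; omega
    rw [Nat.cast_sub h2]; push_cast; ring
  set Ψ : ℂ → Matrix ι ι ℂ := fun z => KK (cm A) (cm B) e r κ (κ - 1) z * Φ z with hΨ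
  have hHDΦ : ∀ z ∈ GPH.Cut b0 T,
      HD Φ (FB T (Ro (cm U) (cm (Eo κ B)) x) z * Φ z) z := fun z hz k l => hΦ.sol z hz k l
  refine ⟨Ψ, ?_, ?_, ?_⟩
  · intro z hz
    have h0 : S (cm A) e r z * (FB T (Ro (cm U) (cm (Eo κ B)) x) z * Φ z) =
        r • ((cm B - (κ : ℂ) • (1 : Matrix ι ι ℂ)) * Φ z) := by
      rw [← Matrix.mul_assoc]
      have h1 : S (cm A) e r z * FB T (Ro (cm U) (cm (Eo κ B)) x) z = r • cm (Eo κ B) :=
        hfb z (fun j => cut_ne hz j)
      rw [h1, Eo_cm, Matrix.smul_mul]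
    obtain ⟨D, hD, hDE⟩ := step hO e r Φ z _ (hHDΦ z hz) h0 (κ - 1)
    rw [hκ, one_smul] at hDE
    have h1 : S (cm A) e r z * FB T (Ro (cm U) (cm (Eo 1 B)) x) z = r • cm (Eo 1 B) :=
      hfb1 z (fun j => cut_ne hz j)
    have h2 : S (cm A) e r z * D =
        S (cm A) e r z * (FB T (Ro (cm U) (cm (Eo 1 B)) x) z * Ψ z) := by
      have h5 : S (cm A) e r z * (FB T (Ro (cm U) (cm (Eo 1 B)) x) z * Ψ z) =
          (S (cm A) e r z * FB T (Ro (cm U) (cm (Eo 1 B)) x) z) * Ψ z := by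
        rw [Matrix.mul_assoc]
      rw [h5, h1, hDE, Eo_cm, Matrix.smul_mul, Nat.cast_one, one_smul]
    have hu : IsUnit (S (cm A) e r z).det := isUnit_iff_ne_zero.mpr (hSdet z hz)
    have h3 : D = FB T (Ro (cm U) (cm (Eo 1 B)) x) z * Ψ z := by
      have h4 : (S (cm A) e r z)⁻¹ * (S (cm A) e r z * D) = (S (cm A) e r z)⁻¹ *
          (S (cm A) e r z * (FB T (Ro (cm U) (cm (Eo 1 B)) x) z * Ψ z)) := by rw [h2]
      rwa [← Matrix.mul_assoc, Matrix.nonsing_inv_mul _ hu, Matrix.one_mul,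
        ← Matrix.mul_assoc, Matrix.nonsing_inv_mul _ hu, Matrix.one_mul] at h4
    rw [h3] at hD
    exact hD
  · intro z hz
    rw [hΨ, Matrix.det_mul]
    refine mul_ne_zero (KK_det hO e r z (hSdet z hz) _) ?_
    have h1 := hΦ.iso z hz
    intro h2
    have h3 := congrArg Matrix.det h1
    rw [Matrix.det_mul, Matrix.det_mul, h2, mul_zero] at h3
    have h4 : (No (cm A) (cm U) e r b0).det ≠ 0 := by
      rw [No, Matrix.det_mul]
      refine mul_ne_zero ?_ ?_
      · have h5 : (cm U).det = ((U.det : ℚ) : ℂ) := by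
          have h6 := RingHom.map_det (algebraMap ℚ ℂ) U
          exact h6.symm
        rw [h5]
        exact_mod_cast hO.Udet
      · exact (hdetS b0).mpr fun j _ => (hG.1 j).symm
    exact h4 h3.symm
  · intro j
    obtain ⟨ρ, H, hρ, hH, -, hloc⟩ := hL j
    have hkey : S (cm A) e r (T j) * (H 0 * Pj j) = 0 :=
      key (E := cm (Eo κ B)) e r (T j) b0 Φ (FB T (Ro (cm U) (cm (Eo κ B)) x)) (Pj j) (hP j)
        (GPH.Cut b0 T) hHDΦ (fun z hz => hfb z (fun j => cut_ne hz j)) ρ hρ H hH hloc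
    -- the gauge matrix is holomorphic
    have hKd : ∀ k l, Differentiable ℂ (fun t : ℂ =>
        KK (cm A) (cm B) e r κ (κ - 1) (T j + t * (T j - b0)) k l) := by
      intro k l t
      obtain ⟨D, hD⟩ := KK_hd (cm A) (cm B) e r κ (κ - 1) (T j + t * (T j - b0))
      have h1 : DifferentiableAt ℂ (fun t : ℂ => T j + t * (T j - b0)) t := by fun_prop
      exact DifferentiableAt.comp t (hD k l).differentiableAt h1
    have hmul : ∀ (M N : ℂ → Matrix ι ι ℂ), GPH.HolM (ball 0 ρ) M → GPH.HolM (ball 0 ρ) N →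
        GPH.HolM (ball 0 ρ) (fun t => M t * N t) := by
      intro M N hM hN k l
      have e1 : (fun t => (M t * N t) k l) = fun t => ∑ i, M t k i * N t i l := by
        funext t; rw [Matrix.mul_apply]
      rw [e1]
      exact DifferentiableOn.fun_sum fun i _ => (hM k i).mul (hN i l)
    have hcst : ∀ C : Matrix ι ι ℂ, GPH.HolM (ball 0 ρ) (fun _ => C) := by
      intro C k l; exact differentiableOn_const _
    have hKh : GPH.HolM (ball 0 ρ) (fun t : ℂ =>
        KK (cm A) (cm B) e r κ (κ - 1) (T j + t * (T j - b0))) := fun k l =>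
      (hKd k l).differentiableOn
    set W : ℂ → Matrix ι ι ℂ := fun t =>
      KK (cm A) (cm B) e r κ (κ - 1) (T j + t * (T j - b0)) * (H t * Pj j) with hW
    have hWh : GPH.HolM (ball 0 ρ) W := hmul _ _ hKh (hmul _ _ hH (hcst _))
    have hW0 : W 0 = 0 := by
      have h1 : κ - 1 = (κ - 2) + 1 := by have := hO.two; omega
      simp only [hW]
      rw [zero_mul, add_zero, h1]
      exact KK_zero _ _ _ _ _ _ _ hkey _
    set D : ℂ → Matrix ι ι ℂ := fun t =>
      Matrix.of fun k l => dslope (fun t => W t k l) 0 t with hDdef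
    have hDh : GPH.HolM (ball 0 ρ) D := by
      intro k l
      exact (Complex.differentiableOn_dslope (isOpen_ball.mem_nhds (mem_ball_self hρ))).mpr
        (hWh k l)
    have hDt : ∀ t : ℂ, t ≠ 0 → D t = t⁻¹ • W t := by
      intro t ht
      ext k l
      simp only [hDdef, Matrix.of_apply, Matrix.smul_apply, smul_eq_mul]
      rw [dslope_of_ne _ ht, slope_def_field, hW0]
      simp [div_eq_inv_mul]
    refine ⟨ρ, fun t => KK (cm A) (cm B) e r κ (κ - 1) (T j + t * (T j - b0)) *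
      (H t * (1 - Pj j)), fun t => D t * Pj j, hρ, hmul _ _ hKh (hmul _ _ hH (hcst _)),
      hmul _ _ hDh (hcst _), ?_, ?_⟩
    · intro t _
      constructor
      · have h1 : (1 - Pj j) * Pj j = 0 := by rw [Matrix.sub_mul, Matrix.one_mul, hP j, sub_self]
        rw [Matrix.mul_assoc, Matrix.mul_assoc, h1, Matrix.mul_zero, Matrix.mul_zero]
      · rw [Matrix.mul_assoc, hP j]
    · intro t ht hu
      have ht0 : t ≠ 0 := by
        intro h; exact hu 0 le_rfl (by simpa using h)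
      obtain ⟨hz, hΦt⟩ := hloc t ht hu
      refine ⟨hz, ?_⟩
      have h1 : D t * Pj j = t⁻¹ • W t := by
        rw [hDt t ht0, Matrix.smul_mul]
        congr 1
        simp only [hW]
        rw [Matrix.mul_assoc, Matrix.mul_assoc, hP j]
      show Ψ (T j + t * (T j - b0)) =
        KK (cm A) (cm B) e r κ (κ - 1) (T j + t * (T j - b0)) * (H t * (1 - Pj j)) +
          Complex.exp (GPH.plog t / 2) • (D t * Pj j)
      rw [h1, smul_smul, ← exp_half ht0]
      simp only [hΨ, hW]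
      rw [hΦt, ← Matrix.mul_smul, ← Matrix.mul_add]
      congr 1
      rw [← Matrix.mul_smul, ← Matrix.mul_add]
      congr 1
      module

end Pool.Agent.EVD
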