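import Pool.Agent.EVD.Stmts

set_option autoImplicit false

/-!
# EVD, module GEN: a closed group whose Lie algebra contains all infinitesimal rotations
-/

open scoped BigOperators Topology

namespace Pool.Agent.EVD

namespace GEN_

variable {ι : Type} [Fintype ι] [DecidableEq ι]

/-- The exponential of a multiple of an idempotent. -/
theorem exp_idem (E : Matrix ι ι ℂ) (hE : E * E = E) (z : ℂ) :
    NormedSpace.exp (z • E) = 1 + (Complex.exp z - 1) • E := by
  have h1 : HasSum (fun n : ℕ => ((n.factorial : ℂ)⁻¹ • z ^ n)) (Complex.exp z) := by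
    rw [Complex.exp_eq_exp_ℂ]
    exact NormedSpace.exp_series_hasSum_exp' (𝕂 := ℂ) z
  have h2 := h1.smul_const E
  have h3 : HasSum (fun n : ℕ => if n = 0 then (1 - E : Matrix ι ι ℂ) else 0) (1 - E) :=
    hasSum_ite_eq 0 (1 - E)
  have h4 := h2.add h3
  have hpow : ∀ n : ℕ, E ^ (n + 1) = E := by
    intro n
    induction n with
    | zero => simp
    | succ n ih => rw [pow_succ, ih, hE]
  have h5 : (fun n : ℕ => ((n.factorial : ℂ)⁻¹ • z ^ n) • E + if n = 0 then (1 - E) else 0) =
      fun n : ℕ => ((n.factorial : ℂ)⁻¹) • (z • E) ^ n := by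
    funext n
    rcases n with _ | n
    · simp
    · rw [smul_pow, hpow n, if_neg (Nat.succ_ne_zero n), add_zero, smul_eq_mul, smul_smul]
  rw [h5] at h4
  have h6 : NormedSpace.exp (z • E) = ∑' n : ℕ, ((n.factorial : ℂ)⁻¹) • (z • E) ^ n := by
    rw [NormedSpace.exp_eq_tsum ℂ]
  rw [h6, h4.tsum_eq]
  rw [sub_smul, one_smul]
  abel

/-- The exponential of an infinitesimal rotation. -/
theorem exp_rot (X P : Matrix ι ι ℂ) (h1 : X * X = -P) (h2 : P * X = X) (h3 : X * P = X)
    (s : ℂ) : NormedSpace.exp (s • X) =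
      1 + (Complex.cos s - 1) • P + Complex.sin s • X := by
  have hP : P * P = P := by
    have : P * (X * X) = (P * X) * X := by rw [Matrix.mul_assoc]
    rw [h1, h2, h1, Matrix.mul_neg] at this
    exact neg_injective this
  have hI : Complex.I * Complex.I = -1 := Complex.I_mul_I
  set E₁ : Matrix ι ι ℂ := (1 / 2 : ℂ) • P - (Complex.I / 2) • X with hE₁
  set E₂ : Matrix ι ι ℂ := (1 / 2 : ℂ) • P + (Complex.I / 2) • X with hE₂
  have e1 : E₁ * E₁ = E₁ := by
    rw [hE₁, sub_mul, mul_sub, mul_sub]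
    simp only [Matrix.smul_mul, Matrix.mul_smul, smul_smul, hP, h2, h3, h1, smul_neg]
    have h4 : Complex.I / 2 * (Complex.I / 2) = -(1 / 4) := by
      linear_combination (1 / 4 : ℂ) * hI
    rw [h4]
    module
  have e2 : E₂ * E₂ = E₂ := by
    rw [hE₂, add_mul, mul_add, mul_add]
    simp only [Matrix.smul_mul, Matrix.mul_smul, smul_smul, hP, h2, h3, h1, smul_neg]
    have h4 : Complex.I / 2 * (Complex.I / 2) = -(1 / 4) := by
      linear_combination (1 / 4 : ℂ) * hI
    rw [h4]
    module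
  have e12 : E₁ * E₂ = 0 := by
    rw [hE₁, hE₂, sub_mul, mul_add, mul_add]
    simp only [Matrix.smul_mul, Matrix.mul_smul, smul_smul, hP, h2, h3, h1, smul_neg]
    have h4 : Complex.I / 2 * (Complex.I / 2) = -(1 / 4) := by
      linear_combination (1 / 4 : ℂ) * hI
    rw [h4]
    module
  have e21 : E₂ * E₁ = 0 := by
    rw [hE₁, hE₂, add_mul, mul_sub, mul_sub]
    simp only [Matrix.smul_mul, Matrix.mul_smul, smul_smul, hP, h2, h3, h1, smul_neg]
    have h4 : Complex.I / 2 * (Complex.I / 2) = -(1 / 4) := by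
      linear_combination (1 / 4 : ℂ) * hI
    rw [h4]
    module
  have hX : s • X = (s * Complex.I) • E₁ + (-(s * Complex.I)) • E₂ := by
    rw [hE₁, hE₂, smul_sub, smul_add, smul_smul, smul_smul, smul_smul, smul_smul]
    have h5 : s * Complex.I * (Complex.I / 2) = -(s / 2) := by
      linear_combination (s / 2) * hI
    have h6 : -(s * Complex.I) * (Complex.I / 2) = s / 2 := by
      linear_combination -(s / 2) * hI
    rw [h5, h6]
    module
  have hcomm : Commute ((s * Complex.I) • E₁) ((-(s * Complex.I)) • E₂) := by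
    unfold Commute SemiconjBy
    simp only [Matrix.smul_mul, Matrix.mul_smul, e12, e21, smul_zero]
  rw [hX, Matrix.exp_add_of_commute _ _ hcomm, exp_idem E₁ e1, exp_idem E₂ e2, add_mul,
    mul_add, mul_add, one_mul, one_mul, mul_one, Matrix.smul_mul, Matrix.mul_smul, e12,
    smul_zero, smul_zero, add_zero]
  have hc : Complex.cos s = (Complex.exp (s * Complex.I) + Complex.exp (-(s * Complex.I))) / 2 := by
    rw [Complex.cos]
    ring_nf
  have hs : Complex.sin s = (Complex.exp (-(s * Complex.I)) - Complex.exp (s * Complex.I)) *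
      Complex.I / 2 := by
    rw [Complex.sin]
    ring_nf
  rw [hc, hs, hE₁, hE₂]
  module

/-- Product of rank one matrices. -/
theorem vv_mul (a b c d : ι → ℂ) : Matrix.vecMulVec a b * Matrix.vecMulVec c d =
    (dotProduct b c) • Matrix.vecMulVec a d := by
  ext i j
  simp only [Matrix.mul_apply, Matrix.vecMulVec_apply, Matrix.smul_apply, smul_eq_mul,
    dotProduct, Finset.sum_mul]
  exact Finset.sum_congr rfl fun k _ => by ring

/-- The form is symmetric. -/
theorem sym (Q : Matrix ι ι ℂ) (hQ : Q.transpose = Q) (u w : ι → ℂ) :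
    dotProduct u (Q.mulVec w) = dotProduct w (Q.mulVec u) := by
  rw [Matrix.dotProduct_mulVec, ← Matrix.mulVec_transpose, hQ, dotProduct_comm]

/-- The tensor `u (Q w)^T`. -/
def ten (Q : Matrix ι ι ℂ) (u w : ι → ℂ) : Matrix ι ι ℂ := Matrix.vecMulVec u (Q.mulVec w)

theorem ten_mul (Q : Matrix ι ι ℂ) (a b c d : ι → ℂ) :
    ten Q a b * ten Q c d = (dotProduct c (Q.mulVec b)) • ten Q a d := by
  unfold ten
  rw [vv_mul, dotProduct_comm]

theorem ten_add_left (Q : Matrix ι ι ℂ) (a b c : ι → ℂ) :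
    ten Q (a + b) c = ten Q a c + ten Q b c := by
  ext i j
  simp [ten, Matrix.vecMulVec_apply, add_mul]

theorem ten_add_right (Q : Matrix ι ι ℂ) (a b c : ι → ℂ) :
    ten Q a (b + c) = ten Q a b + ten Q a c := by
  ext i j
  simp [ten, Matrix.vecMulVec_apply, Matrix.mulVec_add, mul_add]

theorem ten_smul_left (Q : Matrix ι ι ℂ) (c : ℂ) (a b : ι → ℂ) :
    ten Q (c • a) b = c • ten Q a b := by
  ext i j
  simp [ten, Matrix.vecMulVec_apply, mul_assoc]

theorem ten_smul_right (Q : Matrix ι ι ℂ) (c : ℂ) (a b : ι → ℂ) :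
    ten Q a (c • b) = c • ten Q a b := by
  ext i j
  simp [ten, Matrix.vecMulVec_apply, Matrix.mulVec_smul]
  ring

/-- Reflections depend only on the line. -/
theorem refl_smul (Q : Matrix ι ι ℂ) (u : ι → ℂ) (c : ℂ) (hc : c ≠ 0)
    (hu : dotProduct u (Q.mulVec u) ≠ 0) : refl Q (c • u) = refl Q u := by
  have h1 : pr Q (c • u) = (c * c) • pr Q u := by
    change ten Q (c • u) (c • u) = (c * c) • ten Q u u
    rw [ten_smul_left, ten_smul_right, smul_smul]
  have h2 : dotProduct (c • u) (Q.mulVec (c • u)) = c * c * dotProduct u (Q.mulVec u) := by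
    rw [Matrix.mulVec_smul, smul_dotProduct, dotProduct_smul, smul_eq_mul, smul_eq_mul]
    ring
  unfold refl
  rw [h1, h2, smul_smul]
  congr 2
  field_simp

/-- Every non isotropic vector can be normalised. -/
theorem normalise (Q : Matrix ι ι ℂ) (u : ι → ℂ) (hu : dotProduct u (Q.mulVec u) ≠ 0) :
    ∃ c : ℂ, c ≠ 0 ∧ dotProduct (c • u) (Q.mulVec (c • u)) = 1 := by
  obtain ⟨c, hc⟩ := IsAlgClosed.exists_pow_nat_eq (dotProduct u (Q.mulVec u))⁻¹
    (n := 2) (by norm_num)
  have hc0 : c ≠ 0 := by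
    rintro rfl
    rw [zero_pow (by norm_num)] at hc
    exact inv_ne_zero hu hc.symm
  refine ⟨c, hc0, ?_⟩
  rw [Matrix.mulVec_smul, smul_dotProduct, dotProduct_smul, smul_eq_mul, smul_eq_mul,
    ← mul_assoc, ← pow_two, hc, inv_mul_cancel₀ hu]

/-- The product of two reflections in a generic position. -/
theorem pair_gen (Q : Matrix ι ι ℂ) (hQ : Q.transpose = Q) (H : Set (Matrix ι ι ℂ))
    (hW : ∀ u w, wed Q u w ∈ Lie H) (u w : ι → ℂ) (hu : dotProduct u (Q.mulVec u) = 1)
    (hw : dotProduct w (Q.mulVec w) = 1) (hc : dotProduct u (Q.mulVec w) ^ 2 ≠ 1) :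
    refl Q u * refl Q w ∈ H := by
  obtain ⟨c, hcdef⟩ : ∃ c : ℂ, c = dotProduct u (Q.mulVec w) := ⟨_, rfl⟩
  rw [← hcdef] at hc
  obtain ⟨d, hd⟩ := IsAlgClosed.exists_pow_nat_eq (1 - c ^ 2) (n := 2) (by norm_num)
  have hd0 : d ≠ 0 := by
    rintro rfl
    rw [zero_pow (by norm_num)] at hd
    exact hc (by linear_combination hd)
  have hcw : dotProduct w (Q.mulVec u) = c := (sym Q hQ w u).trans hcdef.symm
  obtain ⟨v, hv⟩ : ∃ v : ι → ℂ, v = d⁻¹ • (w - c • u) := ⟨_, rfl⟩
  have hvu : dotProduct v (Q.mulVec u) = 0 := by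
    rw [hv, smul_dotProduct, sub_dotProduct, smul_dotProduct, hcw, hu]
    simp
  have huv : dotProduct u (Q.mulVec v) = 0 := (sym Q hQ u v).trans hvu
  have hvv : dotProduct v (Q.mulVec v) = 1 := by
    have h1 : dotProduct v (Q.mulVec v) = d⁻¹ * dotProduct w (Q.mulVec v) := by
      conv_lhs => rw [hv]
      rw [smul_dotProduct, sub_dotProduct, smul_dotProduct, ← hv, huv]
      simp
    have h2 : dotProduct w (Q.mulVec v) = d := by
      rw [sym Q hQ w v, hv, smul_dotProduct, sub_dotProduct, smul_dotProduct, hw, ← hcdef,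
        smul_eq_mul, smul_eq_mul]
      field_simp
      linear_combination -hd
    rw [h1, h2, inv_mul_cancel₀ hd0]
  have hwe : w = c • u + d • v := by
    rw [hv, smul_smul, mul_inv_cancel₀ hd0, one_smul]
    abel
  have hru : refl Q u = 1 - (2 : ℂ) • ten Q u u := by
    unfold refl
    rw [hu, div_one]
    rfl
  have hrw : refl Q w = 1 - (2 : ℂ) • (c ^ 2 • ten Q u u + (c * d) • (ten Q u v + ten Q v u) +
      d ^ 2 • ten Q v v) := by
    unfold refl
    rw [hw, div_one]
    have : pr Q w = c ^ 2 • ten Q u u + (c * d) • (ten Q u v + ten Q v u) +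
        d ^ 2 • ten Q v v := by
      change ten Q w w = _
      rw [hwe, ten_add_left, ten_add_right, ten_add_right, ten_smul_left, ten_smul_left,
        ten_smul_left, ten_smul_left, ten_smul_right, ten_smul_right, ten_smul_right,
        ten_smul_right]
      module
    rw [this]
  have hX : wed Q v u = ten Q v u - ten Q u v := rfl
  obtain ⟨s, hs⟩ : ∃ s : ℂ, Complex.exp (s * Complex.I) = (c - d * Complex.I) ^ 2 := by
    have h0 : (c - d * Complex.I) ^ 2 ≠ 0 := by
      intro h
      have h1 : (c - d * Complex.I) = 0 := pow_eq_zero_iff (by norm_num) |>.1 h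
      have h2 : (c - d * Complex.I) * (c + d * Complex.I) = 1 := by
        have : (c - d * Complex.I) * (c + d * Complex.I) =
          c ^ 2 - d ^ 2 * (Complex.I * Complex.I) := by ring
        rw [this, Complex.I_mul_I, hd]
        ring
      rw [h1, zero_mul] at h2
      exact zero_ne_one h2
    refine ⟨-Complex.I * Complex.log ((c - d * Complex.I) ^ 2), ?_⟩
    have : -Complex.I * Complex.log ((c - d * Complex.I) ^ 2) * Complex.I =
      Complex.log ((c - d * Complex.I) ^ 2) * -(Complex.I * Complex.I) := by ring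
    rw [this, Complex.I_mul_I, neg_neg, mul_one, Complex.exp_log h0]
  have hs' : Complex.exp (-(s * Complex.I)) = (c + d * Complex.I) ^ 2 := by
    rw [Complex.exp_neg, hs]
    apply inv_eq_of_mul_eq_one_right
    have : (c - d * Complex.I) ^ 2 * (c + d * Complex.I) ^ 2 =
      (c ^ 2 - d ^ 2 * (Complex.I * Complex.I)) ^ 2 := by ring
    rw [this, Complex.I_mul_I, hd]
    ring
  have hcos : Complex.cos s = c ^ 2 - d ^ 2 := by
    have : Complex.cos s = (Complex.exp (s * Complex.I) + Complex.exp (-(s * Complex.I))) / 2 := by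
      rw [Complex.cos]
      ring_nf
    rw [this, hs, hs']
    linear_combination (d ^ 2) * Complex.I_mul_I
  have hsin : Complex.sin s = -(2 * c * d) := by
    have : Complex.sin s = (Complex.exp (-(s * Complex.I)) - Complex.exp (s * Complex.I)) *
        Complex.I / 2 := by
      rw [Complex.sin]
      ring_nf
    rw [this, hs, hs']
    linear_combination (2 * c * d) * Complex.I_mul_I
  have hmem := hW v u s
  have hXX : wed Q v u * wed Q v u = -(ten Q u u + ten Q v v) := by
    rw [hX, sub_mul, mul_sub, mul_sub]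
    simp only [ten_mul, hu, hvv, huv, hvu, one_smul, zero_smul]
    abel
  have hPX : (ten Q u u + ten Q v v) * wed Q v u = wed Q v u := by
    rw [hX, add_mul, mul_sub, mul_sub]
    simp only [ten_mul, hu, hvv, huv, hvu, one_smul, zero_smul]
    abel
  have hXP : wed Q v u * (ten Q u u + ten Q v v) = wed Q v u := by
    rw [hX, mul_add, sub_mul, sub_mul]
    simp only [ten_mul, hu, hvv, huv, hvu, one_smul, zero_smul]
    abel
  rw [exp_rot _ _ hXX hPX hXP, hcos, hsin] at hmem
  have hfin : refl Q u * refl Q w = 1 + (c ^ 2 - d ^ 2 - 1) • (ten Q u u + ten Q v v) +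
      (-(2 * c * d)) • wed Q v u := by
    rw [hru, hrw, hX, sub_mul, one_mul, mul_sub, mul_one]
    simp only [Matrix.smul_mul, Matrix.mul_smul, mul_add, ten_mul, hu, hvv, huv, hvu, one_smul,
      zero_smul, smul_zero, add_zero, zero_add]
    match_scalars <;> first
      | ring1
      | linear_combination (2 : ℂ) * hd
      | linear_combination (-2 : ℂ) * hd
      | linear_combination (1 : ℂ) * hd
      | linear_combination (-1 : ℂ) * hd
  rw [hfin]
  exact hmem

/-- A unit vector orthogonal to a given unit vector. -/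
theorem exists_orth (Q : Matrix ι ι ℂ) (hcard : 2 ≤ Fintype.card ι) (hQ : Q.transpose = Q)
    (hdet : Q.det ≠ 0) (u : ι → ℂ) (hu : dotProduct u (Q.mulVec u) = 1) :
    ∃ v : ι → ℂ, dotProduct v (Q.mulVec v) = 1 ∧ dotProduct v (Q.mulVec u) = 0 := by
  by_contra hcon
  push Not at hcon
  -- all vectors orthogonal to u are isotropic
  have hiso : ∀ v, dotProduct v (Q.mulVec u) = 0 → dotProduct v (Q.mulVec v) = 0 := by
    intro v hv
    by_contra hne
    obtain ⟨c, _, h1⟩ := normalise Q v hne
    refine hcon (c • v) h1 ?_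
    rw [smul_dotProduct, hv, smul_zero]
  have hpol : ∀ v v', dotProduct v (Q.mulVec u) = 0 → dotProduct v' (Q.mulVec u) = 0 →
      dotProduct v (Q.mulVec v') = 0 := by
    intro v v' h1 h2
    have h3 := hiso (v + v') (by rw [add_dotProduct, h1, h2, add_zero])
    rw [Matrix.mulVec_add, add_dotProduct, dotProduct_add, dotProduct_add, hiso v h1,
      hiso v' h2, sym Q hQ v' v] at h3
    have h4 : 2 * dotProduct v (Q.mulVec v') = 0 := by linear_combination h3
    simpa using h4
  obtain ⟨v, hv0, hv⟩ : ∃ v : ι → ℂ, v ≠ 0 ∧ dotProduct v (Q.mulVec u) = 0 := by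
    obtain ⟨i, j, hij⟩ := Fintype.one_lt_card_iff.1 (by omega : 1 < Fintype.card ι)
    by_cases hi : Q.mulVec u i = 0
    · refine ⟨Pi.single i 1, ?_, ?_⟩
      · intro h
        have := congrFun h i
        simp at this
      · rw [single_dotProduct, hi, mul_zero]
    · refine ⟨Pi.single j (Q.mulVec u i) - Pi.single i (Q.mulVec u j), ?_, ?_⟩
      · intro h
        have := congrFun h j
        simp [hij.symm, hi] at this
      · rw [sub_dotProduct, single_dotProduct, single_dotProduct]
        ring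
  have hall : ∀ y, dotProduct y (Q.mulVec v) = 0 := by
    intro y
    have h1 : dotProduct (y - (dotProduct y (Q.mulVec u)) • u) (Q.mulVec u) = 0 := by
      rw [sub_dotProduct, smul_dotProduct, hu, smul_eq_mul, mul_one, sub_self]
    have h2 := hpol _ v h1 hv
    rw [sub_dotProduct, smul_dotProduct, sym Q hQ u v, hv, smul_zero, sub_zero] at h2
    exact h2
  have hQv : Q.mulVec v = 0 := by
    funext i
    have := hall (Pi.single i 1)
    rw [single_dotProduct, one_mul] at this
    exact this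
  exact hv0 (Matrix.eq_zero_of_mulVec_eq_zero hdet hQv)

/-- The product of two reflections. -/
theorem pair_all (Q : Matrix ι ι ℂ) (hcard : 2 ≤ Fintype.card ι) (hQ : Q.transpose = Q)
    (hdet : Q.det ≠ 0) (H : Set (Matrix ι ι ℂ))
    (hmul : ∀ a ∈ H, ∀ b ∈ H, a * b ∈ H)
    (hW : ∀ u w, wed Q u w ∈ Lie H) (u w : ι → ℂ) (hu : dotProduct u (Q.mulVec u) = 1)
    (hw : dotProduct w (Q.mulVec w) = 1) :
    refl Q u * refl Q w ∈ H := by
  by_cases hc : dotProduct u (Q.mulVec w) ^ 2 = 1
  swap
  · exact pair_gen Q hQ H hW u w hu hw hc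
  obtain ⟨v, hv, hvu⟩ := exists_orth Q hcard hQ hdet u hu
  have huv : dotProduct u (Q.mulVec v) = 0 := (sym Q hQ u v).trans hvu
  obtain ⟨x, hx, h1, h2⟩ : ∃ x : ι → ℂ, dotProduct x (Q.mulVec x) = 1 ∧
      dotProduct u (Q.mulVec x) ^ 2 ≠ 1 ∧ dotProduct x (Q.mulVec w) ^ 2 ≠ 1 := by
    by_cases he : dotProduct v (Q.mulVec w) ^ 2 = 1
    · refine ⟨(3 / 5 : ℂ) • u + (4 / 5 : ℂ) • v, ?_, ?_, ?_⟩
      · rw [Matrix.mulVec_add, Matrix.mulVec_smul, Matrix.mulVec_smul, add_dotProduct,
          dotProduct_add, dotProduct_add]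
        simp only [smul_dotProduct, dotProduct_smul, hu, hv, huv, hvu, smul_eq_mul]
        norm_num
      · rw [Matrix.mulVec_add, Matrix.mulVec_smul, Matrix.mulVec_smul, dotProduct_add]
        simp only [dotProduct_smul, hu, huv, smul_eq_mul]
        norm_num
      · rw [add_dotProduct, smul_dotProduct, smul_dotProduct, smul_eq_mul, smul_eq_mul]
        intro h
        set p := dotProduct u (Q.mulVec w)
        set q := dotProduct v (Q.mulVec w)
        have h3 : p * q = 0 := by
          linear_combination (25 / 24 : ℂ) * h - (9 / 24 : ℂ) * hc - (16 / 24 : ℂ) * he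
        have h4 : (p * q) ^ 2 = 1 := by rw [mul_pow, hc, he, one_mul]
        rw [h3] at h4
        norm_num at h4
    · refine ⟨v, hv, ?_, he⟩
      rw [huv]
      norm_num
  have hxx : refl Q x * refl Q x = 1 := by
    have hrx : refl Q x = 1 - (2 : ℂ) • ten Q x x := by
      unfold refl
      rw [hx, div_one]
      rfl
    rw [hrx, sub_mul, one_mul, mul_sub, mul_one]
    simp only [Matrix.smul_mul, Matrix.mul_smul, ten_mul, hx, one_smul]
    module
  have e1 := pair_gen Q hQ H hW u x hu hx h1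
  have e2 := pair_gen Q hQ H hW x w hx hw h2
  have e3 := hmul _ e1 _ e2
  rw [Matrix.mul_assoc, ← Matrix.mul_assoc (refl Q x), hxx, Matrix.one_mul] at e3
  exact e3

/-- Products of lists of even length. -/
theorem list_even (H : Set (Matrix ι ι ℂ)) (S : Set (Matrix ι ι ℂ)) (h1 : 1 ∈ H)
    (hmul : ∀ a ∈ H, ∀ b ∈ H, a * b ∈ H) (hS : ∀ a ∈ S, ∀ b ∈ S, a * b ∈ H) :
    ∀ (n : ℕ) (l : List (Matrix ι ι ℂ)), l.length = 2 * n → (∀ a ∈ l, a ∈ S) → l.prod ∈ H := by
  intro n
  induction n with
  | zero =>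
    intro l hl _
    rw [List.length_eq_zero_iff.1 (by omega : l.length = 0), List.prod_nil]
    exact h1
  | succ n ih =>
    intro l hl hmem
    match l, hl, hmem with
    | a :: b :: l', hl, hmem =>
      rw [List.prod_cons, List.prod_cons, ← mul_assoc]
      refine hmul _ (hS a (hmem a (by simp)) b (hmem b (by simp))) _ (ih l' ?_ ?_)
      · simp only [List.length_cons] at hl
        omega
      · intro c hc
        exact hmem c (by simp [hc])
    | [a], hl, _ => simp at hl; omega
    | [], hl, _ => simp at hl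

end GEN_

theorem gen_proof (hPar : Stmt_Par) : Stmt_Gen := by
  intro ι _ _ Q H hcard hQ hdet hH hW a ha hdeta
  have _ne : Nonempty ι := Fintype.card_pos_iff.1 (by omega)
  obtain ⟨u, hu, hprod⟩ := hPar ι Q hQ hdet a ha hdeta
  rw [hprod]
  refine GEN_.list_even H {r | ∃ v : ι → ℂ, dotProduct v (Q.mulVec v) ≠ 0 ∧ r = refl Q v}
    hH.one hH.mul ?_ (Fintype.card ι) _ (by simp) ?_
  · rintro r₁ ⟨v, hv, rfl⟩ r₂ ⟨w, hw, rfl⟩
    obtain ⟨c, hc, h1⟩ := GEN_.normalise Q v hv
    obtain ⟨d, hd, h2⟩ := GEN_.normalise Q w hw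
    rw [← GEN_.refl_smul Q v c hc hv, ← GEN_.refl_smul Q w d hd hw]
    exact GEN_.pair_all Q hcard hQ hdet H hH.mul hW _ _ h1 h2
  · intro r hr
    rw [List.mem_ofFn] at hr
    obtain ⟨i, rfl⟩ := hr
    exact ⟨u i, hu i, rfl⟩

end Pool.Agent.EVD
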