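import Pool.Agent.EVD.Stmts

set_option autoImplicit false

open scoped BigOperators Topology
open Metric Set MeasureTheory

namespace Pool.Agent.EVD

namespace GGO_

/-- Sum over the points which differ from `x` only in the coordinate `j`. -/
theorem sum_update {n : ℕ} {α : Fin n → Type} [∀ j, Fintype (α j)] [∀ j, DecidableEq (α j)]
    (x : ∀ j, α j) (j : Fin n) (F : (∀ j, α j) → ℂ) :
    ∑ z : ∀ j, α j, (if (∀ l, l ≠ j → x l = z l) then F z else 0) =
      ∑ k : α j, F (Function.update x j k) := by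
  classical
  have hinj : Function.Injective (fun k : α j => Function.update x j k) :=
    Function.update_injective x j
  rw [← Finset.sum_filter]
  have himg : (Finset.univ.filter fun z : ∀ j, α j => ∀ l, l ≠ j → x l = z l) =
      Finset.univ.image (fun k : α j => Function.update x j k) := by
    ext z
    simp only [Finset.mem_filter, Finset.mem_univ, true_and, Finset.mem_image]
    constructor
    · intro h
      refine ⟨z j, ?_⟩
      funext l
      by_cases hl : l = j
      · subst hl; simp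
      · rw [Function.update_of_ne hl]; exact h l hl
    · rintro ⟨k, rfl⟩ l hl
      rw [Function.update_of_ne hl]
  rw [himg, Finset.sum_image fun a _ b _ h => hinj h]

/-- the Kronecker sum acting on a product -/
theorem ksum_prod {n : ℕ} {α : Fin n → Type} [∀ j, Fintype (α j)] [∀ j, DecidableEq (α j)]
    (M : ∀ j, α j → α j → ℂ) (D : ∀ j, α j → ℂ) (x : ∀ j, α j) :
    ∑ z : ∀ j, α j, (∑ j, if (∀ l, l ≠ j → x l = z l) then M j (x j) (z j) else 0) *
      ∏ l, D l (z l) =
    ∑ j, (∏ l ∈ Finset.univ.erase j, D l (x l)) * ∑ k, M j (x j) k * D j k := by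
  classical
  simp_rw [Finset.sum_mul]
  rw [Finset.sum_comm]
  refine Finset.sum_congr rfl fun j _ => ?_
  have h := sum_update x j (fun z => M j (x j) (z j) * ∏ l, D l (z l))
  simp only [ite_mul, zero_mul]
  rw [h, Finset.mul_sum]
  refine Finset.sum_congr rfl fun k _ => ?_
  rw [Function.update_self, ← Finset.mul_prod_erase Finset.univ _ (Finset.mem_univ j),
    Function.update_self]
  have h3 : ∏ l ∈ Finset.univ.erase j, D l (Function.update x j k l) =
      ∏ l ∈ Finset.univ.erase j, D l (x l) := by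
    refine Finset.prod_congr rfl fun l hl => ?_
    rw [Function.update_of_ne (Finset.ne_of_mem_erase hl)]
  rw [h3]; ring

end GGO_

open GGO_ in
theorem ggo_proof (hJbd : Stmt_Jbd) (hJlm : Stmt_Jlm) (hIod : Stmt_Iod) : Stmt_Ggo := by
  intro n f hn hmon hdeg hray
  refine ⟨?_, ?_, ?_⟩
  · intro x y τ hτ
    have hD : ∀ j ∈ (Finset.univ : Finset (Fin n)), HasDerivAt
        (fun τ => J1 (f j) (x j) ((y j : ℕ) + 1) τ - J1 (f j) (x j) (y j) τ)
        (-∑ k : Fin ((f j).natDegree - 1), ((A1 (f j) (x j) k : ℂ) + (B1 (f j) (x j) k : ℂ) / τ) *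
          (J1 (f j) k ((y j : ℕ) + 1) τ - J1 (f j) k (y j) τ)) τ := fun j _ =>
      hIod (f j) (hmon j) (hdeg j) (hray j) (x j) (y j) τ hτ
    have hP := HasDerivAt.fun_finsetProd hD
    have e1 : (fun τ => GG f τ x y) = fun τ => ∏ j,
        (J1 (f j) (x j) ((y j : ℕ) + 1) τ - J1 (f j) (x j) (y j) τ) := by
      funext τ; rfl
    rw [e1]
    refine hP.congr_deriv ?_
    have e3 := ksum_prod (α := fun j => Fin ((f j).natDegree - 1))
      (fun j i k => ((A1 (f j) i k : ℂ) + (B1 (f j) i k : ℂ) / τ))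
      (fun j k => (J1 (f j) k ((y j : ℕ) + 1) τ - J1 (f j) k (y j) τ)) x
    have e4 : ((cm (AT f) + ((τ : ℂ))⁻¹ • cm (BT f)) * GG f τ) x y =
        ∑ z : Ix f, (∑ j, if (∀ l, l ≠ j → x l = z l) then
          ((A1 (f j) (x j) (z j) : ℂ) + (B1 (f j) (x j) (z j) : ℂ) / τ) else 0) *
          ∏ l, (J1 (f l) (z l) ((y l : ℕ) + 1) τ - J1 (f l) (z l) (y l) τ) := by
      rw [Matrix.mul_apply]
      refine Finset.sum_congr rfl fun z _ => ?_
      congr 1
      rw [Matrix.add_apply, Matrix.smul_apply]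
      simp only [cm, AT, BT, ksum, Matrix.map_apply, Matrix.of_apply, smul_eq_mul]
      push_cast
      rw [Finset.mul_sum, ← Finset.sum_add_distrib]
      refine Finset.sum_congr rfl fun j _ => ?_
      split_ifs
      · rw [div_eq_mul_inv]; ring
      · simp
    rw [e4, e3, ← Finset.sum_neg_distrib]
    refine Finset.sum_congr rfl fun j _ => ?_
    rw [smul_eq_mul]; ring
  · choose c hc hJ using fun j => hJbd (f j) (hmon j) (hdeg j) (hray j)
    choose C hC using fun (j : Fin n) (i l : ℕ) => (hJ j i l).2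
    have hcs : 0 < ∑ j, c j := Finset.sum_pos (fun j _ => hc j) ⟨⟨0, hn⟩, Finset.mem_univ _⟩
    refine ⟨∑ x : Ix f, ∑ y : Ix f, ∏ j, (|C j (x j) ((y j : ℕ) + 1)| + |C j (x j) (y j)|),
      ∑ j, c j, hcs, fun x y τ hτ => ?_⟩
    have h1 : ‖GG f τ x y‖ ≤ ∏ j, ((|C j (x j) ((y j : ℕ) + 1)| + |C j (x j) (y j)|) *
        (Real.exp (-(c j * τ)) * τ ^ (-((((x j : ℕ) : ℝ) + 1) / (f j).natDegree)))) := by
      show ‖∏ j, (J1 (f j) (x j) ((y j : ℕ) + 1) τ - J1 (f j) (x j) (y j) τ)‖ ≤ _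
      rw [norm_prod]
      refine Finset.prod_le_prod (fun j _ => norm_nonneg _) fun j _ => ?_
      refine (norm_sub_le _ _).trans ?_
      have hE : 0 ≤ Real.exp (-(c j * τ)) * τ ^ (-((((x j : ℕ) : ℝ) + 1) / (f j).natDegree)) :=
        mul_nonneg (Real.exp_pos _).le (Real.rpow_nonneg hτ.le _)
      have a1 := hC j (x j) ((y j : ℕ) + 1) τ hτ
      have a2 := hC j (x j) (y j) τ hτ
      rw [mul_assoc] at a1 a2
      have b1 := mul_le_mul_of_nonneg_right (le_abs_self (C j (x j) ((y j : ℕ) + 1))) hE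
      have b2 := mul_le_mul_of_nonneg_right (le_abs_self (C j (x j) (y j))) hE
      rw [add_mul]
      exact add_le_add (a1.trans b1) (a2.trans b2)
    refine h1.trans ?_
    rw [Finset.prod_mul_distrib, Finset.prod_mul_distrib, ← Real.exp_sum,
      ← Real.rpow_sum_of_pos hτ]
    have e1 : ∑ j, -(c j * τ) = -((∑ j, c j) * τ) := by
      rw [Finset.sum_neg_distrib, Finset.sum_mul]
    have e2 : ∑ j, -((((x j : ℕ) : ℝ) + 1) / (f j).natDegree) = -((bI f x : ℚ) : ℝ) := by
      rw [Finset.sum_neg_distrib, bI]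
      push_cast
      rfl
    rw [e1, e2, ← mul_assoc]
    refine mul_le_mul_of_nonneg_right (mul_le_mul_of_nonneg_right ?_ (Real.exp_pos _).le)
      (Real.rpow_nonneg hτ.le _)
    have hnn : ∀ x y : Ix f, 0 ≤ ∏ j, (|C j (x j) ((y j : ℕ) + 1)| + |C j (x j) (y j)|) :=
      fun x y => Finset.prod_nonneg fun j _ => add_nonneg (abs_nonneg _) (abs_nonneg _)
    have s1 : ∏ j, (|C j (x j) ((y j : ℕ) + 1)| + |C j (x j) (y j)|) ≤
        ∑ y : Ix f, ∏ j, (|C j (x j) ((y j : ℕ) + 1)| + |C j (x j) (y j)|) :=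
      Finset.single_le_sum (f := fun y : Ix f => ∏ j, (|C j (x j) ((y j : ℕ) + 1)| +
        |C j (x j) (y j)|)) (fun y _ => hnn x y) (Finset.mem_univ y)
    have s2 : ∑ y : Ix f, ∏ j, (|C j (x j) ((y j : ℕ) + 1)| + |C j (x j) (y j)|) ≤
        ∑ x : Ix f, ∑ y : Ix f, ∏ j, (|C j (x j) ((y j : ℕ) + 1)| + |C j (x j) (y j)|) :=
      Finset.single_le_sum (f := fun x : Ix f => ∑ y : Ix f, ∏ j,
        (|C j (x j) ((y j : ℕ) + 1)| + |C j (x j) (y j)|))
        (fun x _ => Finset.sum_nonneg fun y _ => hnn x y) (Finset.mem_univ x)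
    exact s1.trans s2
  · intro x y
    have h1 : ∀ j : Fin n, Filter.Tendsto
        (fun τ : ℝ => ((τ ^ ((((x j : ℕ) : ℝ) + 1) / (f j).natDegree) : ℝ) : ℂ) *
          (J1 (f j) (x j) ((y j : ℕ) + 1) τ - J1 (f j) (x j) (y j) τ)) (𝓝[>] 0)
        (𝓝 ((zt (f j).natDegree ^ (((y j : ℕ) + 1) * ((x j : ℕ) + 1)) -
          zt (f j).natDegree ^ ((y j : ℕ) * ((x j : ℕ) + 1))) *
          ((Real.Gamma ((((x j : ℕ) : ℝ) + 1) / (f j).natDegree) / (f j).natDegree : ℝ) : ℂ))) := by
      intro j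
      have a1 := hJlm (f j) (hmon j) (hdeg j) (hray j) (x j) ((y j : ℕ) + 1)
      have a2 := hJlm (f j) (hmon j) (hdeg j) (hray j) (x j) (y j)
      have a3 := a1.sub a2
      rw [← sub_mul] at a3
      refine a3.congr fun τ => ?_
      rw [mul_sub]
    have h2 := tendsto_finsetProd (Finset.univ : Finset (Fin n)) (fun j _ => h1 j)
    refine h2.congr' ?_
    filter_upwards [self_mem_nhdsWithin] with τ hτ
    have hτ' : (0 : ℝ) < τ := hτ
    rw [Finset.prod_mul_distrib]
    have e2 : ((bI f x : ℚ) : ℝ) = ∑ j, ((((x j : ℕ) : ℝ) + 1) / (f j).natDegree) := by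
      rw [bI]; push_cast; rfl
    rw [e2, Real.rpow_sum_of_pos hτ']
    push_cast
    rfl

end Pool.Agent.EVD
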