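import Pool.Agent.EVD.RPX

set_option autoImplicit false

/-!
# EVD: module GLX
-/

open scoped BigOperators
open MvPolynomial

namespace Pool.Agent.EVD

open RPX_

namespace GLX_

/-- The point `(lam, M)` over a field. -/
def ptK {K : Type} {I : Type} {ι : I → Type} (lam : K) (M : ∀ k, Matrix (ι k) (ι k) K) :
    Option (Σ k, ι k × ι k) → K := fun o => o.elim lam (fun p => M p.1 p.2.1 p.2.2)

lemma ptK_map {K L : Type} [Semiring K] [Semiring L] (φ : K →+* L) {I : Type} {ι : I → Type}
    (lam : K) (M : ∀ k, Matrix (ι k) (ι k) K) :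
    (fun o => φ (ptK lam M o)) = ptK (φ lam) (fun k => (M k).map φ) := by
  funext o
  cases o <;> rfl

lemma qc_inj {κ : Type} {A B : Matrix κ κ Qb} (h : qc A = qc B) : A = B := by
  ext i j
  have := congrFun (congrFun h i) j
  simpa [qc] using this

lemma qc_mul {κ : Type} [Fintype κ] (A B : Matrix κ κ Qb) : qc (A * B) = qc A * qc B := by
  unfold qc
  exact Matrix.map_mul

end GLX_

open GLX_

theorem glx_proof (hP : Stmt_Par) : Stmt_Glx := by
  intro r ι _ _ _ w N Q c Y0 hQ τ hτ P h lam g hg
  set QK : ∀ k, Matrix (ι k) (ι k) Qb := fun k => (Q k).map (algebraMap ℚ Qb) with hQK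
  set NK : ∀ k, Matrix (ι k) (ι k) Qb := fun k => (N k).map (algebraMap ℚ Qb) with hNK
  have hQm : ∀ k, (QK k).map (algebraMap Qb ℂ) = cm (Q k) := fun k => by
    ext i j
    simp [hQK, cm]
  have hNm : ∀ k, (NK k).map (algebraMap Qb ℂ) = cm (N k) := fun k => by
    ext i j
    simp [hNK, cm]
  have hQc : ∀ k, (cm (Q k)).transpose = cm (Q k) ∧ (cm (Q k)).det ≠ 0 := by
    intro k
    constructor
    · have := (hQ k).1
      unfold cm
      rw [← Matrix.transpose_map, this]
    · have h0 : (cm (Q k)).det = (algebraMap ℚ ℂ) (Q k).det :=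
        (RingHom.map_det (algebraMap ℚ ℂ) (Q k)).symm
      rw [h0]
      simpa using (hQ k).2.1
  have hQKs : ∀ k, (QK k).transpose = QK k := by
    intro k
    rw [hQK]
    simp only
    rw [← Matrix.transpose_map, (hQ k).1]
  have hQKd : ∀ k, (QK k).det ≠ 0 := by
    intro k
    have h0 : (QK k).det = (algebraMap ℚ Qb) (Q k).det :=
      (RingHom.map_det (algebraMap ℚ Qb) (Q k)).symm
    rw [h0]
    simpa using (hQ k).2.1
  -- the relation over `Qb`
  have hY : ∀ k, (Y0 k).transpose * NK k * Y0 k = (algebraMap ℚ Qb (c k)) • QK k := by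
    intro k
    apply qc_inj
    rw [qc_mul, qc_mul]
    have h1 : qc (Y0 k).transpose = (qc (Y0 k)).transpose := rfl
    have h2 : qc ((algebraMap ℚ Qb (c k)) • QK k) = (c k : ℂ) • cm (Q k) := by
      ext i j
      simp [qc, hQK, cm]
    have h3 : qc (NK k) = cm (N k) := hNm k
    rw [h1, h2, h3]
    exact (hQ k).2.2.2
  have hYd : ∀ k, (Y0 k).det ≠ 0 := by
    intro k h0
    have h1 := congrArg Matrix.det (hY k)
    rw [Matrix.det_mul, Matrix.det_mul, h0, mul_zero, Matrix.det_smul] at h1
    have hc : (algebraMap ℚ Qb (c k)) ≠ 0 := by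
      simpa using (hQ k).2.2.1
    exact (mul_ne_zero (pow_ne_zero _ hc) (hQKd k)) h1.symm
  have hτQ : ∀ k, (QK k).map (τ : Qb → Qb) = QK k := by
    intro k
    ext i j
    simp [hQK]
  have hτN : ∀ k, (NK k).map (τ : Qb → Qb) = NK k := by
    intro k
    ext i j
    simp [hNK]
  -- the rational function
  set e : PV ι → Option (PV ι) := some with he
  have hrat : Rt (DP QK e) (fun v : Option (PV ι) → ℂ =>
      aeval (pt (v none) (fun k => (v none) ^ w k •
        (qc (Y0 k) * gp (cm (Q k)) (fun i x => v (some ⟨k, i, x⟩))))) P) := by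
    have hf : ∀ t : Option (Σ k, ι k × ι k), Rt (DP QK e)
        (fun v : Option (PV ι) → ℂ => pt (v none) (fun k => (v none) ^ w k •
        (qc (Y0 k) * gp (cm (Q k)) (fun i x => v (some ⟨k, i, x⟩)))) t) := by
      rintro (_ | ⟨k, i, j⟩)
      · simpa [pt] using Rt.poly (D := DP QK e) (X none)
      · have h0 : Rt (DP QK e) (fun v : Option (PV ι) → ℂ => v none) := by
          simpa using Rt.poly (D := DP QK e) (X none)
        have h1 := RM.smul (Rt.pow h0 (w k)) (RM.mul (RM.const (D := DP QK e) (Y0 k))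
          (RM_gp QK e k)) i j
        simpa [pt, hQm, qc, he] using h1
    exact Rt.comp hf P
  obtain ⟨n, p, hp⟩ := hrat
  have hD : ∀ v : Option (PV ι) → ℂ, aeval v (DP QK e) ≠ 0 ↔
      ∀ k i, nr (cm (Q k)) (fun x => v (some ⟨k, i, x⟩)) ≠ 0 := by
    intro v
    rw [aeval_DP_ne]
    simp only [hQm, he]
  -- vanishing at algebraic points
  have halg : ∀ v : Option (PV ι) → Qb, (∀ k i, nr (QK k) (fun x => v (some ⟨k, i, x⟩)) ≠ 0) →
      aeval (fun o => algebraMap Qb ℂ (ptK (v none) (fun k => (v none) ^ w k •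
        (Y0 k * gp (QK k) (fun i x => v (some ⟨k, i, x⟩)))) o)) P = (0 : ℂ) := by
    intro v hv
    set G : ∀ k, Matrix (ι k) (ι k) Qb := fun k => gp (QK k) (fun i x => v (some ⟨k, i, x⟩))
      with hG
    have hGi : ∀ k, (G k).transpose * QK k * G k = QK k := fun k =>
      gp_iso (QK k) (hQKs k) _ (hv k)
    have hGd : ∀ k, (G k).det = 1 := fun k => by
      rw [hG]
      simp only
      rw [gp_det _ _ (hv k), pow_mul]
      simp
    set τr : Qb →+* Qb := (τ : Qb →+* Qb) with hτr
    -- the isometries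
    set g' : ∀ k, Matrix (ι k) (ι k) Qb := fun k => (Y0 k)⁻¹ * (Y0 k).map τr * (G k).map τr
      with hg'
    have hYu : ∀ k, IsUnit (Y0 k).det := fun k => isUnit_iff_ne_zero.2 (hYd k)
    have hg'Y : ∀ k, Y0 k * g' k = (Y0 k * G k).map τr := by
      intro k
      rw [hg']
      simp only
      rw [← Matrix.mul_assoc, ← Matrix.mul_assoc, Matrix.mul_nonsing_inv _ (hYu k),
        Matrix.one_mul, Matrix.map_mul]
    have hcne : ∀ k, (algebraMap ℚ Qb (c k)) ≠ 0 := fun k => by simpa using (hQ k).2.2.1
    have hYτ : ∀ k, ((Y0 k).map τr).transpose * NK k * (Y0 k).map τr =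
        (algebraMap ℚ Qb (c k)) • QK k := by
      intro k
      have h1 : ((Y0 k).transpose * NK k * Y0 k).map τr =
          ((algebraMap ℚ Qb (c k)) • QK k).map τr := by rw [hY k]
      rw [Matrix.map_mul, Matrix.map_mul] at h1
      have h2 : (NK k).map τr = NK k := hτN k
      have h3 : ((algebraMap ℚ Qb (c k)) • QK k).map τr = (algebraMap ℚ Qb (c k)) • QK k := by
        ext i j
        simp [hQK, hτr]
      rw [h2, h3] at h1
      exact h1
    have hGτ : ∀ k, ((G k).map τr).transpose * QK k * (G k).map τr = QK k := by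
      intro k
      have h1 : ((G k).transpose * QK k * G k).map τr = (QK k).map τr := by rw [hGi k]
      rw [Matrix.map_mul, Matrix.map_mul] at h1
      have h2 : (QK k).map τr = QK k := hτQ k
      rw [h2] at h1
      exact h1
    have hh : ∀ k, ((Y0 k)⁻¹ * (Y0 k).map τr).transpose * QK k * ((Y0 k)⁻¹ * (Y0 k).map τr) =
        QK k := by
      intro k
      have h1 : ((Y0 k)⁻¹ * (Y0 k).map τr).transpose * ((algebraMap ℚ Qb (c k)) • QK k) *
          ((Y0 k)⁻¹ * (Y0 k).map τr) = (algebraMap ℚ Qb (c k)) • QK k := by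
        have h2 : Y0 k * ((Y0 k)⁻¹ * (Y0 k).map τr) = (Y0 k).map τr := by
          rw [← Matrix.mul_assoc, Matrix.mul_nonsing_inv _ (hYu k), Matrix.one_mul]
        conv_lhs => rw [← hY k]
        calc ((Y0 k)⁻¹ * (Y0 k).map τr).transpose * ((Y0 k).transpose * NK k * Y0 k) *
              ((Y0 k)⁻¹ * (Y0 k).map τr)
            = (Y0 k * ((Y0 k)⁻¹ * (Y0 k).map τr)).transpose * NK k *
              (Y0 k * ((Y0 k)⁻¹ * (Y0 k).map τr)) := by
              rw [Matrix.transpose_mul (Y0 k)]
              simp only [Matrix.mul_assoc]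
          _ = (algebraMap ℚ Qb (c k)) • QK k := by rw [h2, hYτ k]
      rw [Matrix.mul_smul, Matrix.smul_mul] at h1
      have h3 := congrArg (fun M => (algebraMap ℚ Qb (c k))⁻¹ • M) h1
      simp only [smul_smul, inv_mul_cancel₀ (hcne k), one_smul] at h3
      exact h3
    have hg'i : ∀ k, (g' k).transpose * QK k * g' k = QK k := by
      intro k
      rw [hg']
      simp only
      calc ((Y0 k)⁻¹ * (Y0 k).map τr * (G k).map τr).transpose * QK k *
            ((Y0 k)⁻¹ * (Y0 k).map τr * (G k).map τr)
          = ((G k).map τr).transpose * (((Y0 k)⁻¹ * (Y0 k).map τr).transpose * QK k *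
            ((Y0 k)⁻¹ * (Y0 k).map τr)) * (G k).map τr := by
            rw [Matrix.transpose_mul ((Y0 k)⁻¹ * (Y0 k).map τr)]
            simp only [Matrix.mul_assoc]
        _ = QK k := by rw [hh k, hGτ k]
    have hg'd : ∀ k, (g' k).det = 1 := by
      intro k
      have h1 : (Y0 k).det * (g' k).det = τ ((Y0 k).det * (G k).det) := by
        rw [← Matrix.det_mul, hg'Y k, ← Matrix.det_mul]
        exact (RingHom.map_det τr (Y0 k * G k)).symm
      rw [hGd k, mul_one, hτ k] at h1
      exact mul_left_cancel₀ (hYd k) (by rw [h1, mul_one])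
    -- apply the hypothesis
    have h1 := h (algebraMap Qb ℂ (τr (v none))) (fun k => qc (g' k)) (fun k => by
      constructor
      · unfold Iso
        have h2 := congrArg qc (hg'i k)
        rw [qc_mul, qc_mul] at h2
        have h3 : qc (QK k) = cm (Q k) := hQm k
        rw [h3] at h2
        exact h2
      · have h2 : (qc (g' k)).det = algebraMap Qb ℂ (g' k).det :=
          (RingHom.map_det (algebraMap Qb ℂ) (g' k)).symm
        rw [h2, hg'd k, map_one])
    -- compare
    set pv : Option (Σ k, ι k × ι k) → Qb := ptK (v none) (fun k => (v none) ^ w k •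
        (Y0 k * G k)) with hpv
    have h4 : pt (algebraMap Qb ℂ (τr (v none))) (fun k =>
        (algebraMap Qb ℂ (τr (v none))) ^ w k • (qc (Y0 k) * qc (g' k))) =
        fun o => algebraMap Qb ℂ (τr (pv o)) := by
      funext o
      rcases o with _ | ⟨k, i, j⟩
      · rfl
      · have h5 : qc (Y0 k) * qc (g' k) = qc ((Y0 k * G k).map τr) := by
          rw [← qc_mul, hg'Y k]
        simp only [pt, Option.elim, h5, hpv, ptK, Matrix.smul_apply, smul_eq_mul, map_mul,
          map_pow]
        rfl
    rw [h4] at h1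
    have h6 : aeval (fun o => algebraMap Qb ℂ (τr (pv o))) (MvPolynomial.map τr P) =
        algebraMap Qb ℂ (τr (eval pv P)) := by
      have h7 : eval (fun o => τr (pv o)) (MvPolynomial.map τr P) = τr (eval pv P) := by
        rw [eval_map, eval₂_eq', eval_eq', map_sum]
        apply Finset.sum_congr rfl
        intro d _
        rw [map_mul, map_prod]
        simp only [map_pow]
      have h8 : aeval (fun o => algebraMap Qb ℂ (τr (pv o))) (MvPolynomial.map τr P) =
          algebraMap Qb ℂ (eval (fun o => τr (pv o)) (MvPolynomial.map τr P)) := by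
        rw [aeval_def, eval₂_eq', eval_eq', map_sum]
        apply Finset.sum_congr rfl
        intro d _
        rw [map_mul, map_prod]
        simp only [map_pow]
      rw [h8, h7]
    rw [h6] at h1
    have h9 : eval pv P = 0 := by
      have h10 : τr (eval pv P) = 0 := (algebraMap Qb ℂ).injective (by rw [h1, map_zero])
      exact τ.injective (by rw [map_zero]; exact h10)
    have h11 : aeval (fun o => algebraMap Qb ℂ (pv o)) P = algebraMap Qb ℂ (eval pv P) := by
      rw [aeval_def, eval₂_eq', eval_eq', map_sum]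
      apply Finset.sum_congr rfl
      intro d _
      rw [map_mul, map_prod]
      simp only [map_pow]
    rw [h11, h9, map_zero]
  have hz : p * DP QK e = 0 := by
    apply MvPolynomial.funext
    intro v
    rw [map_zero]
    apply (algebraMap Qb ℂ).injective
    rw [map_zero]
    have hev : ∀ q : MvPolynomial (Option (PV ι)) Qb,
        algebraMap Qb ℂ (eval v q) = aeval (fun o => algebraMap Qb ℂ (v o)) q := by
      intro q
      rw [aeval_def, eval₂_eq', eval_eq', map_sum]
      apply Finset.sum_congr rfl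
      intro d _
      rw [map_mul, map_prod]
      simp only [map_pow]
    rw [hev, map_mul]
    by_cases hv : aeval (fun o => algebraMap Qb ℂ (v o)) (DP QK e) = 0
    · rw [hv, mul_zero]
    · have h1 := (hD _).1 hv
      have h2 : ∀ k i, nr (QK k) (fun x => v (some ⟨k, i, x⟩)) ≠ 0 := by
        intro k i h0
        apply h1 k i
        rw [← hQm k]
        rw [nr_map (algebraMap Qb ℂ) (QK k) (fun x => v (some ⟨k, i, x⟩)), h0, map_zero]
      have h3 := halg v h2
      rw [← hp _ hv]
      have h4 : pt (algebraMap Qb ℂ (v none)) (fun k => (algebraMap Qb ℂ (v none)) ^ w k •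
          (qc (Y0 k) * gp (cm (Q k)) (fun i x => algebraMap Qb ℂ (v (some ⟨k, i, x⟩))))) =
          fun o => algebraMap Qb ℂ (ptK (v none) (fun k => (v none) ^ w k •
            (Y0 k * gp (QK k) (fun i x => v (some ⟨k, i, x⟩)))) o) := by
        funext o
        rcases o with _ | ⟨k, i, j⟩
        · rfl
        · have h5 : gp (cm (Q k)) (fun i x => algebraMap Qb ℂ (v (some ⟨k, i, x⟩))) =
              qc (gp (QK k) (fun i x => v (some ⟨k, i, x⟩))) := by
            rw [← hQm k]
            exact gp_map (algebraMap Qb ℂ) (QK k) (fun i x => v (some ⟨k, i, x⟩))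
          simp only [pt, Option.elim, h5, ptK, Matrix.smul_apply, smul_eq_mul, map_mul,
            map_pow, ← qc_mul]
          rfl
      have h6 := congrArg (fun z : ℂ => (aeval (fun o => algebraMap Qb ℂ (v o))
        (DP QK e)) ^ n * z * (aeval (fun o => algebraMap Qb ℂ (v o)) (DP QK e))) h3
      simp only [mul_zero, zero_mul] at h6
      rw [← h4] at h6
      exact h6
  obtain ⟨u, hu1, hu2⟩ := par' hP (fun k => cm (Q k)) hQc g hg
  have hv : aeval (fun o : Option (PV ι) => o.elim lam u) (DP QK e) ≠ 0 := (hD _).2 hu1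
  have h4 := hp _ hv
  have h5 : aeval (fun o : Option (PV ι) => o.elim lam u) p = 0 := by
    have h6 := congrArg (aeval (fun o : Option (PV ι) => o.elim lam u)) hz
    rw [map_mul, map_zero] at h6
    exact (mul_eq_zero.1 h6).resolve_right hv
  rw [h5] at h4
  have h7 := (mul_eq_zero.1 h4).resolve_left (pow_ne_zero _ hv)
  have h8 : (fun k => lam ^ w k • (qc (Y0 k) * gp (cm (Q k)) (fun i x => u ⟨k, i, x⟩))) =
      fun k => lam ^ w k • (qc (Y0 k) * g k) := by
    funext k
    rw [hu2 k]
  rw [← h8]
  exact h7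

end Pool.Agent.EVD
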