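import Pool.Agent.EVD.Stmts

set_option autoImplicit false

/-!
# GRL: the growth of the solutions of the tensor power of the system
-/

open scoped BigOperators
open Finset

namespace Pool.Agent.EVD

namespace GRL_

theorem exists_delta {P : Type} (s : Finset P) (c : P → Prop) (g : P → ℝ)
    (h : ∀ p, c p → 0 < g p) : ∃ δ : ℝ, 0 < δ ∧ ∀ p ∈ s, c p → δ ≤ g p := by
  classical
  induction s using Finset.induction with
  | empty => exact ⟨1, one_pos, by simp⟩
  | insert a s _ ih =>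
    obtain ⟨δ, hδ, h1⟩ := ih
    by_cases hc : c a
    · refine ⟨min δ (g a), lt_min hδ (h a hc), ?_⟩
      intro p hp hcp
      rcases Finset.mem_insert.1 hp with rfl | hp
      · exact min_le_right _ _
      · exact (min_le_left _ _).trans (h1 p hp hcp)
    · refine ⟨δ, hδ, ?_⟩
      intro p hp hcp
      rcases Finset.mem_insert.1 hp with rfl | hp
      · exact absurd hcp hc
      · exact h1 p hp hcp

theorem est {ι : Type} [Fintype ι] [DecidableEq ι] (A B : Matrix ι ι ℚ) (b : ι → ℚ)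
    (hBdia : ∀ i, B i i = b i) (hBtri : ∀ i j, i ≠ j → B i j ≠ 0 → b j < b i)
    (hAwt : ∀ i j, A i j ≠ 0 → b j < b i + 1) (e r : ℂ) (hr : r ≠ 0) :
    ∃ δ C r₀ : ℝ, 0 < δ ∧ 0 ≤ C ∧ 1 ≤ r₀ ∧ ∀ (s : ℂ) (X : Matrix ι ι ℂ), r₀ ≤ ‖s‖ →
      ((e + r * s) • (1 : Matrix ι ι ℂ) + cm A) * X = r • cm (Eo 1 B) →
      ∀ i j, ‖s * X i j - (if i = j then (((b i : ℝ) - 1 : ℝ) : ℂ) else 0)‖ *
        ‖s‖ ^ ((b j : ℝ) - b i) ≤ C * ‖s‖ ^ (-δ) := by
  classical
  obtain ⟨δ1, hδ1, h1⟩ := exists_delta (Finset.univ : Finset (ι × ι))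
    (fun p => p.1 ≠ p.2 ∧ B p.1 p.2 ≠ 0) (fun p => (b p.1 : ℝ) - b p.2)
    (fun p hp => by
      have := hBtri p.1 p.2 hp.1 hp.2
      have h2 : (b p.2 : ℝ) < b p.1 := by exact_mod_cast this
      linarith)
  obtain ⟨δ2, hδ2, h2⟩ := exists_delta (Finset.univ : Finset (ι × ι))
    (fun p => A p.1 p.2 ≠ 0) (fun p => (b p.1 : ℝ) + 1 - b p.2)
    (fun p hp => by
      have := hAwt p.1 p.2 hp
      have h2 : (b p.2 : ℝ) < b p.1 + 1 := by exact_mod_cast this
      linarith)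
  set δ : ℝ := min (min δ1 δ2) 1 with hδdef
  have hδ : 0 < δ := lt_min (lt_min hδ1 hδ2) one_pos
  have hδa : δ ≤ δ1 := (min_le_left _ _).trans (min_le_left _ _)
  have hδb : δ ≤ δ2 := (min_le_left _ _).trans (min_le_right _ _)
  have hδc : δ ≤ 1 := min_le_right _ _
  -- the matrices
  set a : ι → ι → ℂ := fun i k => (if i = k then e else 0) + (A i k : ℂ) with ha
  set bb : ι → ι → ℂ := fun i j => (B i j : ℂ) - (if i = j then 1 else 0) with hbb
  set CA : ℝ := ∑ i, ∑ k, ‖a i k‖ / ‖r‖ with hCA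
  set CB : ℝ := ∑ i, ∑ j, ‖bb i j‖ with hCB
  have hrn : 0 < ‖r‖ := norm_pos_iff.2 hr
  have hCA0 : 0 ≤ CA := Finset.sum_nonneg fun i _ => Finset.sum_nonneg fun k _ =>
    div_nonneg (norm_nonneg _) hrn.le
  have hCB0 : 0 ≤ CB := Finset.sum_nonneg fun i _ => Finset.sum_nonneg fun k _ => norm_nonneg _
  have hCBle : ∀ i j, ‖bb i j‖ ≤ CB := fun i j => by
    refine (Finset.single_le_sum (f := fun j => ‖bb i j‖) (fun k _ => norm_nonneg _)
      (Finset.mem_univ j)).trans ?_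
    exact Finset.single_le_sum (f := fun i => ∑ j, ‖bb i j‖)
      (fun k _ => Finset.sum_nonneg fun _ _ => norm_nonneg _) (Finset.mem_univ i)
  have hCAle : ∀ i, ∑ k, ‖a i k‖ / ‖r‖ ≤ CA := fun i =>
    Finset.single_le_sum (f := fun i => ∑ k, ‖a i k‖ / ‖r‖)
      (fun k _ => Finset.sum_nonneg fun _ _ => div_nonneg (norm_nonneg _) hrn.le)
      (Finset.mem_univ i)
  have hev := (tendsto_rpow_atTop hδ).eventually_ge_atTop (2 * CA)
  obtain ⟨r1, hr1⟩ := Filter.eventually_atTop.1 hev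
  refine ⟨δ, 2 * CA * CB + CB, max 1 r1, hδ, by positivity, le_max_left _ _, ?_⟩
  intro s X hs hX i0 j0
  set ρ : ℝ := ‖s‖ with hρ
  have hρ1 : 1 ≤ ρ := (le_max_left _ _).trans hs
  have hρ0 : 0 < ρ := by linarith
  have hs0 : s ≠ 0 := by
    intro h0
    rw [h0, norm_zero] at hρ
    linarith
  have hbig : 2 * CA ≤ ρ ^ δ := hr1 ρ ((le_max_right _ _).trans hs)
  -- row equations
  have hrow : ∀ i j, s * X i j = bb i j - ∑ k, a i k / (r * s) * (s * X k j) := by
    intro i j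
    have h3 := congrFun (congrFun hX i) j
    rw [Matrix.mul_apply] at h3
    have h4 : ∀ k, ((e + r * s) • (1 : Matrix ι ι ℂ) + cm A) i k * X k j =
        (if i = k then r * s * X k j else 0) + a i k * X k j := by
      intro k
      simp only [Matrix.add_apply, Matrix.smul_apply, Matrix.one_apply, cm, Matrix.map_apply,
        smul_eq_mul, ha]
      split_ifs <;> ring
    rw [Finset.sum_congr rfl (fun k _ => h4 k), Finset.sum_add_distrib,
      Finset.sum_ite_eq Finset.univ i (fun k => r * s * X k j)] at h3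
    simp only [Finset.mem_univ, if_true] at h3
    have h5 : (r • cm (Eo 1 B)) i j = r * bb i j := by
      simp only [Matrix.smul_apply, cm, Matrix.map_apply, Eo, Matrix.sub_apply,
        Matrix.one_apply, smul_eq_mul, hbb]
      split_ifs <;> push_cast <;> ring
    rw [h5] at h3
    have h6 : ∑ k, a i k / (r * s) * (s * X k j) = (∑ k, a i k * X k j) / r := by
      rw [Finset.sum_div]
      refine Finset.sum_congr rfl fun k _ => ?_
      field_simp
    rw [h6]
    field_simp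
    linear_combination h3
  -- the weighted maximum
  have hne : Nonempty (ι × ι) := ⟨(i0, j0)⟩
  obtain ⟨pm, hpm⟩ := Finite.exists_max (fun p : ι × ι =>
    ‖s * X p.1 p.2‖ * ρ ^ ((b p.2 : ℝ) - b p.1))
  set M : ℝ := ‖s * X pm.1 pm.2‖ * ρ ^ ((b pm.2 : ℝ) - b pm.1) with hM
  have hM0 : 0 ≤ M := mul_nonneg (norm_nonneg _) (Real.rpow_nonneg hρ0.le _)
  have hMle : ∀ i j, ‖s * X i j‖ * ρ ^ ((b j : ℝ) - b i) ≤ M := fun i j => hpm (i, j)
  -- the difference
  have hdiff : ∀ i j, ‖s * X i j - bb i j‖ * ρ ^ ((b j : ℝ) - b i) ≤ CA * ρ ^ (-δ) * M := by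
    intro i j
    have h3 : s * X i j - bb i j = -∑ k, a i k / (r * s) * (s * X k j) := by
      rw [hrow i j]; ring
    rw [h3, norm_neg]
    have h4 : ‖∑ k, a i k / (r * s) * (s * X k j)‖ ≤
        ∑ k, ‖a i k‖ / ‖r‖ * ρ⁻¹ * ‖s * X k j‖ := by
      refine (norm_sum_le _ _).trans (le_of_eq ?_)
      refine Finset.sum_congr rfl fun k _ => ?_
      rw [norm_mul, norm_div, norm_mul r s, ← hρ]
      rw [div_mul_eq_div_div, div_eq_mul_inv (‖a i k‖ / ‖r‖) ρ]
    refine (mul_le_mul_of_nonneg_right h4 (Real.rpow_nonneg hρ0.le _)).trans ?_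
    rw [Finset.sum_mul]
    have h5 : ∀ k, ‖a i k‖ / ‖r‖ * ρ⁻¹ * ‖s * X k j‖ * ρ ^ ((b j : ℝ) - b i) ≤
        ‖a i k‖ / ‖r‖ * (ρ ^ (-δ) * M) := by
      intro k
      by_cases hak : a i k = 0
      · rw [hak]; simp
      have h6 : (b k : ℝ) - b i - 1 ≤ -δ := by
        by_cases hik : i = k
        · subst hik
          linarith
        · have h7 : A i k ≠ 0 := by
            intro h0
            apply hak
            simp [ha, hik, h0]
          have := h2 (i, k) (Finset.mem_univ _) h7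
          simp only at this
          linarith
      have h8 : ρ⁻¹ * ρ ^ ((b k : ℝ) - b i) ≤ ρ ^ (-δ) := by
        rw [← Real.rpow_neg_one, ← Real.rpow_add hρ0]
        exact Real.rpow_le_rpow_of_exponent_le hρ1 (by linarith)
      have h9 : ρ ^ ((b j : ℝ) - b i) = ρ ^ ((b k : ℝ) - b i) * ρ ^ ((b j : ℝ) - b k) := by
        rw [← Real.rpow_add hρ0]; congr 1; ring
      have h10 : ‖a i k‖ / ‖r‖ * ρ⁻¹ * ‖s * X k j‖ * ρ ^ ((b j : ℝ) - b i) =
          ‖a i k‖ / ‖r‖ * ((ρ⁻¹ * ρ ^ ((b k : ℝ) - b i)) *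
            (‖s * X k j‖ * ρ ^ ((b j : ℝ) - b k))) := by
        rw [h9]; ring
      rw [h10]
      refine mul_le_mul_of_nonneg_left ?_ (div_nonneg (norm_nonneg _) hrn.le)
      exact mul_le_mul h8 (hMle k j) (mul_nonneg (norm_nonneg _) (Real.rpow_nonneg hρ0.le _))
        (Real.rpow_nonneg hρ0.le _)
    refine (Finset.sum_le_sum fun k _ => h5 k).trans ?_
    rw [← Finset.sum_mul, mul_assoc]
    exact mul_le_mul_of_nonneg_right (hCAle i)
      (mul_nonneg (Real.rpow_nonneg hρ0.le _) hM0)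
  have hbbw : ∀ i j, ‖bb i j‖ * ρ ^ ((b j : ℝ) - b i) ≤ CB := by
    intro i j
    by_cases hz : bb i j = 0
    · rw [hz]; simpa using hCB0
    have h3 : (b j : ℝ) - b i ≤ 0 := by
      by_cases hij : i = j
      · subst hij; simp
      · have h4 : B i j ≠ 0 := by
          intro h0
          apply hz
          simp [hbb, hij, h0]
        have := h1 (i, j) (Finset.mem_univ _) ⟨hij, h4⟩
        simp only at this
        linarith
    calc ‖bb i j‖ * ρ ^ ((b j : ℝ) - b i) ≤ ‖bb i j‖ * 1 :=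
          mul_le_mul_of_nonneg_left (Real.rpow_le_one_of_one_le_of_nonpos hρ1 h3) (norm_nonneg _)
      _ ≤ CB := by rw [mul_one]; exact hCBle i j
  have hsmall : CA * ρ ^ (-δ) ≤ 1 / 2 := by
    rw [Real.rpow_neg hρ0.le]
    have h3 : 0 < ρ ^ δ := Real.rpow_pos_of_pos hρ0 _
    rw [← div_eq_mul_inv, div_le_iff₀ h3]
    linarith
  have hM2 : M ≤ 2 * CB := by
    have h3 : M ≤ CB + CA * ρ ^ (-δ) * M := by
      calc M = ‖bb pm.1 pm.2 + (s * X pm.1 pm.2 - bb pm.1 pm.2)‖ *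
            ρ ^ ((b pm.2 : ℝ) - b pm.1) := by rw [hM]; congr 2; ring
        _ ≤ (‖bb pm.1 pm.2‖ + ‖s * X pm.1 pm.2 - bb pm.1 pm.2‖) *
            ρ ^ ((b pm.2 : ℝ) - b pm.1) :=
          mul_le_mul_of_nonneg_right (norm_add_le _ _) (Real.rpow_nonneg hρ0.le _)
        _ ≤ CB + CA * ρ ^ (-δ) * M := by
          rw [add_mul]
          exact add_le_add (hbbw _ _) (hdiff _ _)
    have h4 : CA * ρ ^ (-δ) * M ≤ 1 / 2 * M := mul_le_mul_of_nonneg_right hsmall hM0
    linarith
  -- conclusion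
  have hfin : ‖bb i0 j0 - (if i0 = j0 then (((b i0 : ℝ) - 1 : ℝ) : ℂ) else 0)‖ *
      ρ ^ ((b j0 : ℝ) - b i0) ≤ CB * ρ ^ (-δ) := by
    by_cases hij : i0 = j0
    · subst hij
      have h3 : bb i0 i0 - (((b i0 : ℝ) - 1 : ℝ) : ℂ) = 0 := by
        simp only [hbb, if_true, hBdia]
        push_cast
        ring
      rw [if_pos rfl, h3, norm_zero, zero_mul]
      exact mul_nonneg hCB0 (Real.rpow_nonneg hρ0.le _)
    · rw [if_neg hij, sub_zero]
      by_cases hz : bb i0 j0 = 0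
      · rw [hz, norm_zero, zero_mul]
        exact mul_nonneg hCB0 (Real.rpow_nonneg hρ0.le _)
      have h4 : B i0 j0 ≠ 0 := by
        intro h0
        apply hz
        simp [hbb, hij, h0]
      have h5 := h1 (i0, j0) (Finset.mem_univ _) ⟨hij, h4⟩
      simp only at h5
      exact mul_le_mul (hCBle _ _) (Real.rpow_le_rpow_of_exponent_le hρ1 (by linarith))
        (Real.rpow_nonneg hρ0.le _) hCB0
  calc ‖s * X i0 j0 - (if i0 = j0 then (((b i0 : ℝ) - 1 : ℝ) : ℂ) else 0)‖ *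
        ρ ^ ((b j0 : ℝ) - b i0)
      = ‖(s * X i0 j0 - bb i0 j0) +
          (bb i0 j0 - (if i0 = j0 then (((b i0 : ℝ) - 1 : ℝ) : ℂ) else 0))‖ *
          ρ ^ ((b j0 : ℝ) - b i0) := by congr 2; ring
    _ ≤ (‖s * X i0 j0 - bb i0 j0‖ +
          ‖bb i0 j0 - (if i0 = j0 then (((b i0 : ℝ) - 1 : ℝ) : ℂ) else 0)‖) *
          ρ ^ ((b j0 : ℝ) - b i0) :=
        mul_le_mul_of_nonneg_right (norm_add_le _ _) (Real.rpow_nonneg hρ0.le _)
    _ ≤ CA * ρ ^ (-δ) * M + CB * ρ ^ (-δ) := by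
        rw [add_mul]
        exact add_le_add (hdiff _ _) hfin
    _ ≤ CA * ρ ^ (-δ) * (2 * CB) + CB * ρ ^ (-δ) := by
        refine add_le_add ?_ le_rfl
        exact mul_le_mul_of_nonneg_left hM2 (mul_nonneg hCA0 (Real.rpow_nonneg hρ0.le _))
    _ = (2 * CA * CB + CB) * ρ ^ (-δ) := by ring

end GRL_

open GRL_ in
theorem grl_proof (hG : Stmt_Grt) (hF : Stmt_Fbe) : Stmt_Grl := by
  intro ι Γ _ _ _ _ κ A B U b i₀ hO e r q T x hS Y hd hsol
  obtain ⟨δ, C, r₀, hδ, hC, hr₀, hest⟩ := est A B b hO.Bdia hO.Btri hO.Awt e r hS.rnz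
  set r2 : ℝ := max r₀ (1 + ∑ j, ‖T j‖) with hr2
  have hoff : ∀ s : ℂ, r2 ≤ ‖s‖ → ∀ j, s ≠ T j := by
    intro s hs j hj
    have h1 : 1 + ∑ j, ‖T j‖ ≤ ‖s‖ := (le_max_right _ _).trans hs
    have h2 : ‖T j‖ ≤ ∑ j, ‖T j‖ :=
      Finset.single_le_sum (f := fun j => ‖T j‖) (fun k _ => norm_nonneg _) (Finset.mem_univ j)
    rw [hj] at h1
    linarith
  have hUs : (cm U).transpose = cm U := by
    ext i j
    have := congrFun (congrFun hO.Usym i) j
    simp only [Matrix.transpose_apply] at this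
    simp [cm, this]
  have hfb := (hF ι (cm A) (cm U) (cm (Eo 1 B)) e r q T x hUs hS).2
  set L : ℂ → Matrix ι ι ℂ := FB T (Ro (cm U) (cm (Eo 1 B)) x) with hL
  have hL1 : ∀ s : ℂ, r2 ≤ ‖s‖ → ∀ i j,
      ‖s * L s i j - (if i = j then (((b i : ℝ) - 1 : ℝ) : ℂ) else 0)‖ *
        ‖s‖ ^ ((b j : ℝ) - b i) ≤ C * ‖s‖ ^ (-δ) := by
    intro s hs i j
    exact hest s (L s) ((le_max_left _ _).trans hs) (hfb s (hoff s hs)) i j
  set w : (Γ → ι) → ℝ := fun f => ∑ γ, (b (f γ) : ℝ) with hw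
  have key := hG (Γ → ι) w (Fintype.card Γ : ℝ) (((Fintype.card Γ : ℝ) + 1) * C) δ r2 hδ
    (hr₀.trans (le_max_left _ _)) (Lt L) Y
    (fun s hs f => hsol s (hoff s hs) f) ?_
  · obtain ⟨C', hC'⟩ := key
    refine ⟨C', r2, fun z hz f => ?_⟩
    have h1 : ∑ γ, ((b (f γ) : ℝ) - 1) = w f - (Fintype.card Γ : ℝ) := by
      rw [Finset.sum_sub_distrib]
      simp [hw]
    rw [h1]
    exact hC' z hz f
  · intro s hs f g
    have hρ1 : 1 ≤ ‖s‖ := hr₀.trans ((le_max_left _ _).trans hs)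
    have hρ0 : 0 < ‖s‖ := by linarith
    have hCδ : 0 ≤ C * ‖s‖ ^ (-δ) := mul_nonneg hC (Real.rpow_nonneg hρ0.le _)
    have hcard : 0 ≤ (Fintype.card Γ : ℝ) := Nat.cast_nonneg _
    by_cases hfg : f = g
    · subst hfg
      have h1 : s * Lt L s f f - (if f = f then ((w f - (Fintype.card Γ : ℝ) : ℝ) : ℂ) else 0) =
          ∑ γ : Γ, (s * L s (f γ) (f γ) - (((b (f γ) : ℝ) - 1 : ℝ) : ℂ)) := by
        rw [if_pos rfl, Finset.sum_sub_distrib]
        congr 1
        · simp only [Lt, Matrix.of_apply]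
          rw [Finset.mul_sum]
          refine Finset.sum_congr rfl fun γ _ => ?_
          rw [if_pos (fun _ _ => trivial)]
        · simp only [hw]
          push_cast
          rw [Finset.sum_sub_distrib]
          simp
      rw [h1, sub_self, Real.rpow_zero, mul_one]
      refine (norm_sum_le _ _).trans ?_
      have h2 : ∀ γ : Γ, ‖s * L s (f γ) (f γ) - (((b (f γ) : ℝ) - 1 : ℝ) : ℂ)‖ ≤
          C * ‖s‖ ^ (-δ) := by
        intro γ
        have := hL1 s hs (f γ) (f γ)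
        rw [if_pos rfl, sub_self, Real.rpow_zero, mul_one] at this
        exact this
      refine (Finset.sum_le_sum fun γ _ => h2 γ).trans ?_
      rw [Finset.sum_const, Finset.card_univ, nsmul_eq_mul]
      nlinarith
    · rw [if_neg hfg, sub_zero]
      obtain ⟨γ0, hγ0⟩ : ∃ γ0, f γ0 ≠ g γ0 := by
        by_contra hcon
        push Not at hcon
        exact hfg (funext hcon)
      by_cases hrest : ∀ γ', γ' ≠ γ0 → f γ' = g γ'
      · have h1 : Lt L s f g = L s (f γ0) (g γ0) := by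
          simp only [Lt, Matrix.of_apply]
          rw [Finset.sum_eq_single γ0]
          · rw [if_pos hrest]
          · intro γ _ hγ
            rw [if_neg]
            intro h
            exact hγ0 (h γ0 (Ne.symm hγ))
          · intro h
            exact absurd (Finset.mem_univ _) h
        have h2 : w g - w f = (b (g γ0) : ℝ) - b (f γ0) := by
          simp only [hw]
          rw [← Finset.sum_sub_distrib, Finset.sum_eq_single γ0]
          · intro γ _ hγ
            rw [hrest γ hγ, sub_self]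
          · intro h
            exact absurd (Finset.mem_univ _) h
        rw [h1, h2]
        have h3 := hL1 s hs (f γ0) (g γ0)
        rw [if_neg hγ0, sub_zero] at h3
        refine h3.trans ?_
        nlinarith
      · have h1 : Lt L s f g = 0 := by
          simp only [Lt, Matrix.of_apply]
          refine Finset.sum_eq_zero fun γ _ => ?_
          rw [if_neg]
          intro h
          by_cases hγ : γ = γ0
          · subst hγ
            exact hrest h
          · exact hγ0 (h γ0 (Ne.symm hγ))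
        rw [h1, mul_zero, norm_zero, zero_mul]
        nlinarith

end Pool.Agent.EVD
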