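import Pool.Agent.EVD.Stmts

/-!
# EVD, module GRT: growth of solutions near infinity, with weights
-/

open scoped BigOperators Topology
open Metric Set Filter

namespace Pool.Agent.EVD

namespace GRT_

/-- Gronwall along a ray, in the time `x` with `1 - δ x = (r / r₀) ^ (- δ)`. -/
theorem ray {Λ : Type} [Fintype Λ] [DecidableEq Λ] (w : Λ → ℝ) (α C δ r₀ : ℝ) (hδ : 0 < δ)
    (hr : 1 ≤ r₀) (hC : 0 ≤ C)
    (L : ℂ → Matrix Λ Λ ℂ) (Y : ℂ → Λ → ℂ)
    (hder : ∀ s : ℂ, r₀ ≤ ‖s‖ → ∀ f, HasDerivAt (fun z => Y z f) ((L s).mulVec (Y s) f) s)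
    (hL : ∀ s : ℂ, r₀ ≤ ‖s‖ → ∀ f g,
      ‖s * L s f g - (if f = g then ((w f - α : ℝ) : ℂ) else 0)‖ *
        ‖s‖ ^ (w g - w f) ≤ C * ‖s‖ ^ (-δ))
    (M : ℝ) (hM0 : 0 ≤ M)
    (hM : ∀ s : ℂ, ‖s‖ = r₀ → ∀ f, ‖Y s f‖ ≤ M * r₀ ^ (w f - α))
    (u : ℂ) (hu : ‖u‖ = 1) (τ : ℝ) (hτ : 0 ≤ τ) (hτ1 : δ * τ < 1) (f : Λ) (ρ : ℝ)
    (hρ : ρ = Real.exp (Real.log r₀ - Real.log (1 - δ * τ) / δ)) :
    ‖Y ((ρ : ℝ) * u) f‖ ≤ M * Real.exp (Fintype.card Λ * C / δ) * ρ ^ (w f - α) := by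
  have hr0 : 0 < r₀ := by linarith
  set K : ℝ := Fintype.card Λ * C with hK
  have hK0 : 0 ≤ K := by positivity
  set ℓ : ℝ → ℝ := fun t => Real.log r₀ - Real.log (1 - δ * t) / δ with hℓ
  have hℓd : ∀ t, δ * t < 1 → HasDerivAt ℓ ((1 - δ * t)⁻¹) t := by
    intro t ht
    have h1 : HasDerivAt (fun t : ℝ => 1 - δ * t) (-(δ * 1)) t :=
      ((hasDerivAt_id t).const_mul δ).const_sub 1
    have h2 := (h1.log (by linarith : (1 - δ * t) ≠ 0)).div_const δ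
    have h3 := h2.const_sub (Real.log r₀)
    refine h3.congr_deriv ?_
    have : (1 - δ * t) ≠ 0 := by linarith
    field_simp
  have hℓ0 : ∀ t, 0 ≤ t → δ * t < 1 → Real.log r₀ ≤ ℓ t := by
    intro t ht ht1
    have h1 : Real.log (1 - δ * t) ≤ 0 :=
      Real.log_nonpos (by linarith) (by nlinarith)
    have h2 : Real.log (1 - δ * t) / δ ≤ 0 := div_nonpos_of_nonpos_of_nonneg h1 hδ.le
    simp only [hℓ]
    linarith
  set γ : ℝ → ℂ := fun t => ((Real.exp (ℓ t) : ℝ) : ℂ) * u with hγ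
  have hγn : ∀ t, ‖γ t‖ = Real.exp (ℓ t) := by
    intro t
    rw [hγ]
    simp only [norm_mul, hu, mul_one, Complex.norm_real, Real.norm_eq_abs]
    rw [abs_of_pos (Real.exp_pos _)]
  have hγr : ∀ t, 0 ≤ t → δ * t < 1 → r₀ ≤ ‖γ t‖ := by
    intro t ht ht1
    rw [hγn]
    calc r₀ = Real.exp (Real.log r₀) := (Real.exp_log hr0).symm
      _ ≤ _ := Real.exp_le_exp.2 (hℓ0 t ht ht1)
  have hγd : ∀ t, δ * t < 1 → HasDerivAt γ (((1 - δ * t)⁻¹ : ℝ) * γ t) t := by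
    intro t ht
    have h1 : HasDerivAt (fun t : ℝ => Real.exp (ℓ t)) (Real.exp (ℓ t) * (1 - δ * t)⁻¹) t :=
      (hℓd t ht).exp
    refine ((h1.ofReal_comp).mul_const u).congr_deriv ?_
    rw [hγ]
    push_cast
    ring
  -- powers of the norm
  have hpow : ∀ t (a : ℝ), ‖γ t‖ ^ a = Real.exp (a * ℓ t) := by
    intro t a
    rw [hγn, ← Real.exp_mul, mul_comm]
  set g : ℝ → Λ → ℂ := fun t f => ((Real.exp (-(w f - α) * ℓ t) : ℝ) : ℂ) * Y (γ t) f with hg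
  set g' : ℝ → Λ → ℂ := fun t f => (((1 - δ * t)⁻¹ : ℝ) : ℂ) *
    ∑ j, (γ t * L (γ t) f j - (if f = j then ((w f - α : ℝ) : ℂ) else 0)) *
      ((‖γ t‖ ^ (w j - w f) : ℝ) : ℂ) * g t j with hg'
  have hgd : ∀ t, 0 ≤ t → δ * t < 1 → HasDerivAt g (g' t) t := by
    intro t ht ht1
    rw [hasDerivAt_pi]
    intro f
    have h1 : HasDerivAt (fun t : ℝ => Real.exp (-(w f - α) * ℓ t))
        (Real.exp (-(w f - α) * ℓ t) * (-(w f - α) * (1 - δ * t)⁻¹)) t :=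
      ((hℓd t ht1).const_mul _).exp
    have h2 := (hder (γ t) (hγr t ht ht1) f).comp_of_eq t (hγd t ht1) rfl
    have h3 := (h1.ofReal_comp).mul h2
    refine h3.congr_deriv ?_
    have e1 : ∀ j, ((‖γ t‖ ^ (w j - w f) : ℝ) : ℂ) * g t j =
        ((Real.exp (-(w f - α) * ℓ t) : ℝ) : ℂ) * Y (γ t) j := by
      intro j
      rw [hpow]
      simp only [hg]
      rw [← mul_assoc, ← Complex.ofReal_mul, ← Real.exp_add]
      congr 3
      ring
    simp only [hg', mul_assoc, e1]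
    simp only [sub_mul, Finset.sum_sub_distrib, ite_mul, zero_mul, Finset.sum_ite_eq,
      Finset.mem_univ, if_true, Function.comp]
    have e2 : ∑ j, γ t * L (γ t) f j * (((Real.exp (-(w f - α) * ℓ t) : ℝ) : ℂ) * Y (γ t) j) =
        ((Real.exp (-(w f - α) * ℓ t) : ℝ) : ℂ) * γ t * (L (γ t)).mulVec (Y (γ t)) f := by
      simp only [Matrix.mulVec, dotProduct, Finset.mul_sum]
      exact Finset.sum_congr rfl fun j _ => by ring
    rw [e2]
    push_cast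
    ring
  have hbd : ∀ t, 0 ≤ t → δ * t < 1 → ‖g' t‖ ≤ K * ‖g t‖ + 0 := by
    intro t ht ht1
    rw [add_zero]
    have hnn : 0 ≤ K * ‖g t‖ := by positivity
    rw [pi_norm_le_iff_of_nonneg hnn]
    intro f
    have hpos : 0 < 1 - δ * t := by linarith
    have hnr : r₀ ≤ ‖γ t‖ := hγr t ht ht1
    have hgpos : 0 < ‖γ t‖ := hr0.trans_le hnr
    have h1 : ‖∑ j, (γ t * L (γ t) f j - (if f = j then ((w f - α : ℝ) : ℂ) else 0)) *
        ((‖γ t‖ ^ (w j - w f) : ℝ) : ℂ) * g t j‖ ≤ ∑ _j : Λ, (C * ‖γ t‖ ^ (-δ)) * ‖g t‖ := by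
      refine (norm_sum_le _ _).trans (Finset.sum_le_sum fun j _ => ?_)
      rw [norm_mul, norm_mul, Complex.norm_real, Real.norm_eq_abs,
        abs_of_nonneg (Real.rpow_nonneg hgpos.le _)]
      exact mul_le_mul (hL (γ t) hnr f j) (norm_le_pi_norm (g t) j) (norm_nonneg _)
        (mul_nonneg hC (Real.rpow_nonneg hgpos.le _))
    have h2 : ‖γ t‖ ^ (-δ) ≤ 1 - δ * t := by
      rw [hpow]
      have e : -δ * ℓ t = Real.log (1 - δ * t) - δ * Real.log r₀ := by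
        simp only [hℓ]
        field_simp
        ring
      rw [e]
      calc Real.exp (Real.log (1 - δ * t) - δ * Real.log r₀)
          ≤ Real.exp (Real.log (1 - δ * t)) := by
            apply Real.exp_le_exp.2
            have := Real.log_nonneg hr
            nlinarith
        _ = 1 - δ * t := Real.exp_log hpos
    simp only [hg']
    rw [norm_mul, Complex.norm_real, Real.norm_eq_abs, abs_of_pos (inv_pos.2 hpos)]
    calc (1 - δ * t)⁻¹ * ‖∑ j, (γ t * L (γ t) f j -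
          (if f = j then ((w f - α : ℝ) : ℂ) else 0)) *
        ((‖γ t‖ ^ (w j - w f) : ℝ) : ℂ) * g t j‖
        ≤ (1 - δ * t)⁻¹ * ∑ _j : Λ, (C * ‖γ t‖ ^ (-δ)) * ‖g t‖ :=
          mul_le_mul_of_nonneg_left h1 (inv_nonneg.2 hpos.le)
      _ = (1 - δ * t)⁻¹ * ‖γ t‖ ^ (-δ) * (K * ‖g t‖) := by
          rw [Finset.sum_const, Finset.card_univ, nsmul_eq_mul, hK]
          ring
      _ ≤ (1 - δ * t)⁻¹ * (1 - δ * t) * (K * ‖g t‖) := by gcongr
      _ = K * ‖g t‖ := by rw [inv_mul_cancel₀ hpos.ne', one_mul]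
  have hℓz : ℓ 0 = Real.log r₀ := by simp [hℓ]
  have h0 : ‖g 0‖ ≤ M := by
    rw [pi_norm_le_iff_of_nonneg hM0]
    intro f
    have h1 := hM (γ 0) (by rw [hγn, hℓz, Real.exp_log hr0]) f
    simp only [hg]
    rw [norm_mul, Complex.norm_real, Real.norm_eq_abs, abs_of_pos (Real.exp_pos _), hℓz]
    have e : r₀ ^ (w f - α) = Real.exp ((w f - α) * Real.log r₀) := by
      rw [Real.rpow_def_of_pos hr0, mul_comm]
    rw [e] at h1
    calc Real.exp (-(w f - α) * Real.log r₀) * ‖Y (γ 0) f‖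
        ≤ Real.exp (-(w f - α) * Real.log r₀) * (M * Real.exp ((w f - α) * Real.log r₀)) :=
          mul_le_mul_of_nonneg_left h1 (Real.exp_pos _).le
      _ = M * (Real.exp (-(w f - α) * Real.log r₀) * Real.exp ((w f - α) * Real.log r₀)) := by
          ring
      _ = M := by
          have e9 : -(w f - α) * Real.log r₀ + (w f - α) * Real.log r₀ = 0 := by ring
          rw [← Real.exp_add, e9, Real.exp_zero, mul_one]
  have hle : ∀ t ∈ Icc 0 τ, δ * t < 1 := fun t ht => lt_of_le_of_lt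
    (mul_le_mul_of_nonneg_left ht.2 hδ.le) hτ1
  have key := norm_le_gronwallBound_of_norm_deriv_right_le (f := g)
    (f' := g') (δ := M) (K := K) (ε := 0) (a := 0) (b := τ)
    (fun t ht => ((hgd t ht.1 (hle t ht)).continuousAt).continuousWithinAt)
    (fun t ht => (hgd t ht.1 (hle t ⟨ht.1, ht.2.le⟩)).hasDerivWithinAt) h0
    (fun t ht => hbd t ht.1 (hle t ⟨ht.1, ht.2.le⟩)) τ ⟨hτ, le_refl τ⟩
  rw [gronwallBound_ε0, sub_zero] at key
  have hτδ : τ ≤ 1 / δ := by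
    rw [le_div_iff₀ hδ]
    linarith
  have h5 : ‖g τ f‖ ≤ M * Real.exp (K / δ) := by
    refine (norm_le_pi_norm (g τ) f).trans (key.trans ?_)
    refine mul_le_mul_of_nonneg_left (Real.exp_le_exp.2 ?_) hM0
    calc K * τ ≤ K * (1 / δ) := mul_le_mul_of_nonneg_left hτδ hK0
      _ = K / δ := by ring
  have hρl : ρ = Real.exp (ℓ τ) := hρ
  have e6 : ρ ^ (w f - α) = Real.exp ((w f - α) * ℓ τ) := by
    rw [hρl, ← Real.exp_mul, mul_comm]
  have e7 : Y ((ρ : ℝ) * u) f = ((Real.exp ((w f - α) * ℓ τ) : ℝ) : ℂ) * g τ f := by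
    simp only [hg, hγ]
    rw [← mul_assoc, ← Complex.ofReal_mul, ← Real.exp_add, hρl]
    have : (w f - α) * ℓ τ + -(w f - α) * ℓ τ = 0 := by ring
    rw [this, Real.exp_zero, Complex.ofReal_one, one_mul]
  rw [e7, norm_mul, Complex.norm_real, Real.norm_eq_abs, abs_of_pos (Real.exp_pos _), e6]
  calc Real.exp ((w f - α) * ℓ τ) * ‖g τ f‖
      ≤ Real.exp ((w f - α) * ℓ τ) * (M * Real.exp (K / δ)) :=
        mul_le_mul_of_nonneg_left h5 (Real.exp_pos _).le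
    _ = _ := by ring

end GRT_

theorem grt_proof : Stmt_Grt := by
  intro Λ _ _ w α C δ r₀ hδ hr L Y hder hL
  have hr0 : 0 < r₀ := by linarith
  -- the bound on the circle
  have hM : ∃ M : ℝ, 0 ≤ M ∧ ∀ s : ℂ, ‖s‖ = r₀ → ∀ f, ‖Y s f‖ ≤ M * r₀ ^ (w f - α) := by
    have h1 : ∀ f, ∃ M : ℝ, ∀ s ∈ sphere (0 : ℂ) r₀, ‖Y s f‖ ≤ M := by
      intro f
      refine (isCompact_sphere (0 : ℂ) r₀).exists_bound_of_continuousOn ?_
      intro s hs
      have hs' : ‖s‖ = r₀ := by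
        rw [mem_sphere, dist_zero_right] at hs
        exact hs
      exact (hder s hs'.ge f).continuousAt.continuousWithinAt
    choose Mf hMf using h1
    refine ⟨∑ f, |Mf f| * r₀ ^ (-(w f - α)), Finset.sum_nonneg fun f _ =>
      mul_nonneg (abs_nonneg _) (Real.rpow_nonneg hr0.le _), ?_⟩
    intro s hs f
    have h2 : ‖Y s f‖ ≤ |Mf f| :=
      (hMf f s (by rw [mem_sphere, dist_zero_right]; exact hs)).trans (le_abs_self _)
    have h3 : |Mf f| * r₀ ^ (-(w f - α)) ≤ ∑ f, |Mf f| * r₀ ^ (-(w f - α)) :=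
      Finset.single_le_sum (f := fun f => |Mf f| * r₀ ^ (-(w f - α)))
        (fun f _ => mul_nonneg (abs_nonneg _) (Real.rpow_nonneg hr0.le _)) (Finset.mem_univ f)
    calc ‖Y s f‖ ≤ |Mf f| := h2
      _ = |Mf f| * r₀ ^ (-(w f - α)) * r₀ ^ (w f - α) := by
          rw [mul_assoc, ← Real.rpow_add hr0]
          simp
      _ ≤ _ := mul_le_mul_of_nonneg_right h3 (Real.rpow_nonneg hr0.le _)
  obtain ⟨M, hM0, hM⟩ := hM
  have hL' : ∀ s : ℂ, r₀ ≤ ‖s‖ → ∀ f g,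
      ‖s * L s f g - (if f = g then ((w f - α : ℝ) : ℂ) else 0)‖ *
        ‖s‖ ^ (w g - w f) ≤ |C| * ‖s‖ ^ (-δ) := by
    intro s hs f g
    refine (hL s hs f g).trans ?_
    exact mul_le_mul_of_nonneg_right (le_abs_self C)
      (Real.rpow_nonneg (norm_nonneg _) _)
  refine ⟨M * Real.exp (Fintype.card Λ * |C| / δ), ?_⟩
  intro s hs f
  have hspos : 0 < ‖s‖ := hr0.trans_le hs
  set u : ℂ := s / ‖s‖ with hu
  have hun : ‖u‖ = 1 := by
    rw [hu, norm_div, Complex.norm_real, norm_norm]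
    exact div_self hspos.ne'
  have hq : 1 ≤ ‖s‖ / r₀ := by
    rw [le_div_iff₀ hr0]
    linarith
  have hq0 : 0 < ‖s‖ / r₀ := by linarith
  set τ : ℝ := (1 - (‖s‖ / r₀) ^ (-δ)) / δ with hτ
  have hp1 : (‖s‖ / r₀) ^ (-δ) ≤ 1 := Real.rpow_le_one_of_one_le_of_nonpos hq (by linarith)
  have hp0 : 0 < (‖s‖ / r₀) ^ (-δ) := Real.rpow_pos_of_pos hq0 _
  have hτ0 : 0 ≤ τ := div_nonneg (by linarith) hδ.le
  have hδτ : δ * τ = 1 - (‖s‖ / r₀) ^ (-δ) := by
    rw [hτ]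
    field_simp
  have hτ1 : δ * τ < 1 := by linarith
  have hρ : ‖s‖ = Real.exp (Real.log r₀ - Real.log (1 - δ * τ) / δ) := by
    have e1 : 1 - δ * τ = (‖s‖ / r₀) ^ (-δ) := by linarith
    rw [e1, Real.log_rpow hq0, Real.log_div hspos.ne' hr0.ne']
    have e2 : Real.log r₀ - -δ * (Real.log ‖s‖ - Real.log r₀) / δ = Real.log ‖s‖ := by
      field_simp
      ring
    rw [e2, Real.exp_log hspos]
  have key := GRT_.ray w α |C| δ r₀ hδ hr (abs_nonneg C) L Y hder hL' M hM0 hM u hun τ hτ0 hτ1 f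
    ‖s‖ hρ
  have e3 : ((‖s‖ : ℝ) : ℂ) * u = s := by
    rw [hu]
    have : (‖s‖ : ℂ) ≠ 0 := by
      exact_mod_cast hspos.ne'
    field_simp
  rw [e3] at key
  exact key

end Pool.Agent.EVD
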