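import Pool.Agent.EVD.Stmts

set_option autoImplicit false

/-!
# EVD, module GTP: the system is of type G
-/

open scoped BigOperators
open Finset

namespace Pool.Agent.EVD

namespace GTP_

open Pool.Agent.DGP (IsZ)

theorem isZ_mul {x y : ℚ} (hx : IsZ x) (hy : IsZ y) : IsZ (x * y) := by
  obtain ⟨a, rfl⟩ := hx
  obtain ⟨b, rfl⟩ := hy
  exact ⟨a * b, by push_cast; ring⟩

theorem isZ_add {x y : ℚ} (hx : IsZ x) (hy : IsZ y) : IsZ (x + y) := by
  obtain ⟨a, rfl⟩ := hx
  obtain ⟨b, rfl⟩ := hy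
  exact ⟨a + b, by push_cast; ring⟩

theorem isZ_nat (a : ℕ) : IsZ (a : ℚ) := ⟨a, by push_cast; rfl⟩

theorem isZ_zero : IsZ 0 := ⟨0, by simp⟩

theorem isZ_sum {α : Type} (s : Finset α) (f : α → ℚ) (h : ∀ i ∈ s, IsZ (f i)) :
    IsZ (∑ i ∈ s, f i) := by
  classical
  induction s using Finset.induction_on with
  | empty => simpa using isZ_zero
  | insert a s ha ih =>
    rw [Finset.sum_insert ha]
    exact isZ_add (h a (Finset.mem_insert_self a s))
      (ih fun i hi => h i (Finset.mem_insert_of_mem hi))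

theorem isZ_dvd {A B : ℕ} (h : A ∣ B) {x : ℚ} (hx : IsZ (A * x)) : IsZ (B * x) := by
  obtain ⟨c, rfl⟩ := h
  have e : (((A * c : ℕ) : ℚ)) * x = (c : ℚ) * ((A : ℚ) * x) := by push_cast; ring
  rw [e]
  exact isZ_mul (isZ_nat c) hx

/-- A common denominator. -/
theorem exists_den {α : Type} (s : Finset α) (f : α → ℚ) :
    ∃ D : ℕ, 1 ≤ D ∧ ∀ a ∈ s, IsZ ((D : ℚ) * f a) := by
  refine ⟨∏ a ∈ s, (f a).den, Nat.one_le_iff_ne_zero.mpr
    (Finset.prod_ne_zero_iff.mpr fun a _ => Rat.den_nz _), fun a ha => ?_⟩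
  refine isZ_dvd (Finset.dvd_prod_of_mem (fun a => (f a).den) ha) ?_
  exact ⟨(f a).num, by rw [mul_comm]; exact Rat.mul_den_eq_num _⟩

/-- The coefficients up to `N` have denominators dividing `M`. -/
def DZ (N M : ℕ) (f : PowerSeries ℚ) : Prop :=
  ∀ n ≤ N, IsZ ((M : ℚ) * PowerSeries.coeff n f)

theorem DZ.mul {N M M' : ℕ} {f g : PowerSeries ℚ} (hf : DZ N M f) (hg : DZ N M' g) :
    DZ N (M * M') (f * g) := by
  intro n hn
  rw [PowerSeries.coeff_mul, Finset.mul_sum]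
  refine isZ_sum _ _ fun p hp => ?_
  have hp' := Finset.HasAntidiagonal.mem_antidiagonal.mp hp
  have h := isZ_mul (hf p.1 (by omega)) (hg p.2 (by omega))
  have e : (((M * M' : ℕ) : ℚ)) * (PowerSeries.coeff p.1 f * PowerSeries.coeff p.2 g) =
      (M : ℚ) * PowerSeries.coeff p.1 f * ((M' : ℚ) * PowerSeries.coeff p.2 g) := by
    push_cast; ring
  rw [e]
  exact h

theorem DZ.sum {α : Type} {N M : ℕ} (s : Finset α) (f : α → PowerSeries ℚ)
    (h : ∀ a ∈ s, DZ N M (f a)) : DZ N M (∑ a ∈ s, f a) := by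
  intro n hn
  rw [map_sum, Finset.mul_sum]
  exact isZ_sum _ _ fun a ha => h a ha n hn

theorem DZ.one {N : ℕ} : DZ N 1 1 := by
  intro n _
  rw [PowerSeries.coeff_one]
  split_ifs
  · simpa using isZ_nat 1
  · simpa using isZ_zero

theorem DZ.pow {N M : ℕ} {f : PowerSeries ℚ} (hf : DZ N M f) (k : ℕ) :
    DZ N (M ^ k) (f ^ k) := by
  induction k with
  | zero => simpa using DZ.one
  | succ k ih => rw [pow_succ, pow_succ]; exact ih.mul hf

theorem DZ.C {N M : ℕ} {x : ℚ} (h : IsZ ((M : ℚ) * x)) : DZ N M (PowerSeries.C x) := by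
  intro n _
  rw [PowerSeries.coeff_C]
  split_ifs
  · exact h
  · simpa using isZ_zero

theorem DZ.mono {N M M' : ℕ} {f : PowerSeries ℚ} (h : M ∣ M') (hf : DZ N M f) : DZ N M' f :=
  fun n hn => isZ_dvd h (hf n hn)

theorem DZ.X_mul {N M : ℕ} {f : PowerSeries ℚ} (hf : DZ N M f) :
    DZ N M (PowerSeries.X * f) := by
  intro n hn
  cases n with
  | zero => simpa using isZ_zero
  | succ n => rw [PowerSeries.coeff_succ_X_mul]; exact hf n (by omega)

theorem DZ.add {N M : ℕ} {f g : PowerSeries ℚ} (hf : DZ N M f) (hg : DZ N M g) :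
    DZ N M (f + g) := by
  intro n hn
  rw [map_add, mul_add]
  exact isZ_add (hf n hn) (hg n hn)

section

variable {ι : Type} [Fintype ι] [DecidableEq ι]

/-- The matrix of power series attached to a sequence of matrices. -/
noncomputable def Ls (Z : ℕ → Matrix ι ι ℚ) : Matrix ι ι (PowerSeries ℚ) :=
  Matrix.of fun i j => PowerSeries.mk fun m => Z m i j

/-- Constant matrices. -/
noncomputable def CM (M : Matrix ι ι ℚ) : Matrix ι ι (PowerSeries ℚ) :=
  M.map PowerSeries.C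

theorem CM_mul (M M' : Matrix ι ι ℚ) : CM (M * M') = CM M * CM M' := by
  unfold CM
  rw [Matrix.map_mul]

theorem CM_one : CM (1 : Matrix ι ι ℚ) = 1 := by
  unfold CM
  rw [Matrix.map_one _ (map_zero _) (map_one _)]

/-- The coefficients of a product `L^T U L`. -/
theorem coeff_tr (Z : ℕ → Matrix ι ι ℚ) (U : Matrix ι ι ℚ) (m : ℕ) (i j : ι) :
    PowerSeries.coeff m (((Ls Z).transpose * CM U * Ls Z) i j) =
      (∑ p ∈ Finset.HasAntidiagonal.antidiagonal m, (Z p.1).transpose * U * Z p.2) i j := by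
  rw [Matrix.sum_apply]
  simp only [Matrix.mul_apply, Ls, CM, Matrix.transpose_apply, Matrix.of_apply, Matrix.map_apply]
  rw [map_sum, Finset.sum_comm]
  refine Finset.sum_congr rfl fun l _ => ?_
  rw [PowerSeries.coeff_mul]
  refine Finset.sum_congr rfl fun p _ => ?_
  rw [map_sum]
  simp only [PowerSeries.coeff_mul_C, PowerSeries.coeff_mk]

/-- The solution at infinity is invertible. -/
theorem inv_L (A U K : Matrix ι ι ℚ) (Z : ℕ → Matrix ι ι ℚ)
    (h : ∀ m : ℕ, ∑ p ∈ Finset.HasAntidiagonal.antidiagonal m, (Z p.1).transpose * U * Z p.2 +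
    (if m = 0 then 0 else ∑ p ∈ Finset.HasAntidiagonal.antidiagonal (m - 1),
      (Z p.1).transpose * (U * A) * Z p.2) = if m = 0 then K else 0) :
    (Ls Z).transpose * (CM U + (PowerSeries.X : PowerSeries ℚ) • CM (U * A)) * Ls Z = CM K := by
  rw [Matrix.mul_add, Matrix.add_mul, Matrix.mul_smul, Matrix.smul_mul]
  ext i j m
  have hm := congrFun (congrFun (h m) i) j
  rw [Matrix.add_apply, map_add, Matrix.smul_apply, smul_eq_mul, coeff_tr]
  rw [Matrix.add_apply] at hm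
  have e : PowerSeries.coeff m (PowerSeries.X * ((Ls Z).transpose * CM (U * A) * Ls Z) i j) =
      (if m = 0 then 0 else ∑ p ∈ Finset.HasAntidiagonal.antidiagonal (m - 1),
      (Z p.1).transpose * (U * A) * Z p.2) i j := by
    cases m with
    | zero => simp
    | succ m =>
      rw [PowerSeries.coeff_succ_X_mul, coeff_tr]
      simp
  rw [e, hm]
  unfold CM
  rw [Matrix.map_apply, PowerSeries.coeff_C]
  split_ifs <;> rfl

end

end GTP_

open GTP_ in
open Pool.Agent.DGP (IsZ) in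
theorem gtp_proof (hArp : Stmt_Arp) (hZdn : Stmt_Zdn) (hInv : Stmt_Inv) (hBkh : Stmt_Bkh)
    (hRev : Stmt_Rev) : Stmt_Gtp := by
  intro ι _ _ κ A B U b i₀ Em hO hF
  have hne : Nonempty ι := ⟨i₀⟩
  obtain ⟨C, c, hC, hden⟩ := hZdn ι κ A B b Em hF
  have hinv := inv_L A U _ _ (hInv ι κ A B U b i₀ Em hO hF)
  set K : Matrix ι ι ℚ := (Em 0).transpose * U * Em 0 with hK
  have hKd : IsUnit K.det := by
    rw [hK, Matrix.det_mul, Matrix.det_mul, Matrix.det_transpose, isUnit_iff_ne_zero]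
    exact mul_ne_zero (mul_ne_zero hF.det0 hO.Udet) hF.det0
  set L : Matrix ι ι (PowerSeries ℚ) := Ls (Zo κ b Em) with hL
  set W : Matrix ι ι (PowerSeries ℚ) := CM K⁻¹ * (L.transpose *
    (CM U + (PowerSeries.X : PowerSeries ℚ) • CM (U * A))) with hW
  have hWL : W * L = 1 := by
    rw [hW, Matrix.mul_assoc, hinv, ← CM_mul, Matrix.nonsing_inv_mul _ hKd, CM_one]
  have hLW : L * W = 1 := mul_eq_one_comm.mp hWL
  -- the common denominators
  set Th : Polynomial ℚ := ((1 : Matrix ι ι (Polynomial ℚ)) + (Polynomial.X : Polynomial ℚ) •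
      A.map Polynomial.C).det with hTh
  obtain ⟨D1, hD1, hD1'⟩ := exists_den Th.support Th.coeff
  obtain ⟨D2, hD2, hD2'⟩ := exists_den (Finset.univ : Finset (ι × ι)) (fun p => K⁻¹ p.1 p.2)
  obtain ⟨D3, hD3, hD3'⟩ := exists_den (Finset.univ : Finset (ι × ι)) (fun p => U p.1 p.2)
  obtain ⟨D4, hD4, hD4'⟩ := exists_den (Finset.univ : Finset (ι × ι)) (fun p => (U * A) p.1 p.2)
  set P : ℕ := ∏ i : ι, ((κ : ℚ) - b i).den with hP
  have hP0 : P ≠ 0 := Finset.prod_ne_zero_iff.mpr fun i _ => Rat.den_nz _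
  have hP1 : 1 ≤ P := Nat.one_le_iff_ne_zero.mpr hP0
  set μ : ℕ := Fintype.card ι with hμ
  have hμ1 : 1 ≤ μ := Fintype.card_pos
  -- the factor `c_k`
  have hck : ∀ (k m : ℕ) (j : ι), IsZ (((P ^ (2 * k) : ℕ) : ℚ) *
      ((∏ l ∈ Finset.range k, (-(m : ℚ) - ((κ : ℚ) - b j) - l)) / (k.factorial : ℚ))) := by
    intro k m j
    set p : ℕ := ((κ : ℚ) - b j).den with hp
    have hpP : p ∣ P := Finset.dvd_prod_of_mem (fun i : ι => ((κ : ℚ) - b i).den)
      (Finset.mem_univ j)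
    have hp0 : p ≠ 0 := Rat.den_nz _
    have h1 := hArp (((κ : ℚ) - b j).num + m * p) p k (Nat.one_le_iff_ne_zero.mpr hp0)
    have e1 : ((((κ : ℚ) - b j).num + m * p : ℤ) : ℚ) / (p : ℚ) = (κ : ℚ) - b j + m := by
      have e2 : (((κ : ℚ) - b j).num : ℚ) / (p : ℚ) = (κ : ℚ) - b j := by
        rw [hp]; exact Rat.num_div_den _
      have hp0' : (p : ℚ) ≠ 0 := by exact_mod_cast hp0
      push_cast
      rw [add_div, mul_div_cancel_right₀ _ hp0', e2]
    rw [e1] at h1
    refine isZ_dvd (pow_dvd_pow_of_dvd hpP (2 * k)) ?_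
    have e3 : (∏ l ∈ Finset.range k, (-(m : ℚ) - ((κ : ℚ) - b j) - l)) =
        (-1) ^ k * poch ((κ : ℚ) - b j + m) k := by
      clear h1
      induction k with
      | zero => simp [poch]
      | succ k ih =>
        rw [Finset.prod_range_succ, ih]
        unfold poch
        rw [Finset.prod_range_succ]
        ring
    rw [e3]
    have e4 : ((p ^ (2 * k) : ℕ) : ℚ) * ((-1) ^ k * poch ((κ : ℚ) - b j + m) k /
        (k.factorial : ℚ)) = (((-1 : ℤ) ^ k : ℤ) : ℚ) * ((p : ℚ) ^ (2 * k) *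
        poch ((κ : ℚ) - b j + m) k / (k.factorial : ℚ)) := by
      push_cast; ring
    rw [e4]
    exact isZ_mul ⟨_, rfl⟩ h1
  set C' : ℕ := C ^ (2 * μ) * μ * (D1 * P ^ 2 * (D2 * D3 * D4)) with hC'
  have hD : 1 ≤ D1 * P ^ 2 * (D2 * D3 * D4) := Nat.one_le_iff_ne_zero.mpr (by positivity)
  have hC1 : 1 ≤ C' := Nat.one_le_iff_ne_zero.mpr (by positivity)
  refine ⟨C', 2 * c, hC1, fun k i j l => ?_⟩
  rw [hRev ι A (Eo κ B) k i j l]
  split_ifs with hl
  swap
  · simpa using isZ_zero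
  set N : ℕ := (μ - 1) * k with hN
  set M1 : ℕ := ((Finset.Icc 1 (C * (N + 1))).lcm id) ^ c * C ^ (N + 1) with hM1
  have hLd : ∀ (i j : ι) (n : ℕ), n ≤ N → IsZ ((M1 : ℚ) * Zo κ b Em n i j) := by
    intro i j n hn
    have h1 := hden n i j
    have h2 : (Finset.Icc 1 (C * (n + 1))).lcm id ^ c * C ^ (n + 1) ∣ M1 := by
      rw [hM1]
      apply mul_dvd_mul
      · apply pow_dvd_pow_of_dvd
        apply Finset.lcm_mono
        apply Finset.Icc_subset_Icc le_rfl
        exact Nat.mul_le_mul_left _ (by omega)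
      · exact pow_dvd_pow _ (by omega)
    refine isZ_dvd h2 ?_
    push_cast
    exact h1
  have hL1 : ∀ i j, DZ N M1 (L i j) := by
    intro i j n hn
    rw [hL]
    simp only [Ls, Matrix.of_apply, PowerSeries.coeff_mk]
    exact hLd i j n hn
  have hTh1 : DZ N D1 (Th : PowerSeries ℚ) := by
    intro n _
    rw [Polynomial.coeff_coe]
    by_cases hn : n ∈ Th.support
    · exact hD1' n hn
    · rw [Polynomial.notMem_support_iff.mp hn]
      simpa using isZ_zero
  have hW1 : ∀ i j, DZ N (D2 * (M1 * (D3 * D4))) (W i j) := by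
    intro i j
    rw [hW, Matrix.mul_apply]
    refine DZ.sum _ _ fun x _ => ?_
    refine DZ.mul ?_ ?_
    · exact DZ.C (hD2' (i, x) (Finset.mem_univ _))
    · rw [Matrix.mul_apply]
      refine DZ.sum _ _ fun y _ => ?_
      refine DZ.mul (hL1 y x) ?_
      rw [Matrix.add_apply, Matrix.smul_apply, smul_eq_mul]
      refine DZ.add ?_ (DZ.X_mul ?_)
      · exact DZ.mono (dvd_mul_right _ _) (DZ.C (hD3' (y, j) (Finset.mem_univ _)))
      · exact DZ.mono (dvd_mul_left _ _) (DZ.C (hD4' (y, j) (Finset.mem_univ _)))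
  set Bm : Matrix ι ι (PowerSeries ℚ) :=
    Matrix.of fun i j => (Bh A (Eo κ B) k i j : PowerSeries ℚ) with hBm
  have hBL : ∀ i j, DZ N (D1 ^ k * (M1 * P ^ (2 * k))) ((Bm * L) i j) := by
    intro i j
    have h1 := hBkh ι κ A B b Em hF k i j
    have h2 : (Bm * L) i j = ∑ l, (Bh A (Eo κ B) k i l : PowerSeries ℚ) *
        PowerSeries.mk (fun m => Zo κ b Em m l j) := by
      rw [Matrix.mul_apply]
      rfl
    rw [h2, h1]
    refine DZ.mul (hTh1.pow k) ?_
    intro n hn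
    rw [PowerSeries.coeff_mk]
    have h3 := isZ_mul (hLd i j n hn) (hck k n j)
    have e : ((M1 * P ^ (2 * k) : ℕ) : ℚ) * (Zo κ b Em n i j *
        ((∏ l ∈ Finset.range k, (-(n : ℚ) - ((κ : ℚ) - b j) - l)) / (k.factorial : ℚ))) =
        (M1 : ℚ) * Zo κ b Em n i j * (((P ^ (2 * k) : ℕ) : ℚ) *
      ((∏ l ∈ Finset.range k, (-(n : ℚ) - ((κ : ℚ) - b j) - l)) / (k.factorial : ℚ))) := by
      push_cast; ring
    rw [e]
    exact h3
  have hB : DZ N (D1 ^ k * (M1 * P ^ (2 * k)) * (D2 * (M1 * (D3 * D4)))) (Bm i j) := by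
    have e : Bm = Bm * L * W := by rw [Matrix.mul_assoc, hLW, Matrix.mul_one]
    rw [e, Matrix.mul_apply]
    exact DZ.sum _ _ fun x _ => DZ.mul (hBL i x) (hW1 x j)
  have hfin := hB (N - l) (Nat.sub_le _ _)
  have e1 : PowerSeries.coeff (N - l) (Bm i j) = (Bh A (Eo κ B) k i j).coeff (N - l) := by
    rw [hBm, Matrix.of_apply, Polynomial.coeff_coe]
  rw [e1] at hfin
  have hdvd : D1 ^ k * (M1 * P ^ (2 * k)) * (D2 * (M1 * (D3 * D4))) ∣
      ((Finset.Icc 1 (C' * (k + 1))).lcm id) ^ (2 * c) * C' ^ (k + 1) := by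
    have h1 : D1 ^ k * (M1 * P ^ (2 * k)) * (D2 * (M1 * (D3 * D4))) =
        ((Finset.Icc 1 (C * (N + 1))).lcm id) ^ (2 * c) *
        (C ^ (2 * (N + 1)) * (D1 ^ k * P ^ (2 * k) * (D2 * D3 * D4))) := by
      rw [hM1]
      ring
    rw [h1]
    have hNk : N + 1 ≤ μ * (k + 1) := by
      rw [hN]
      have h3 : (μ - 1) * k ≤ μ * k := Nat.mul_le_mul_right _ (Nat.sub_le _ _)
      have h4 : μ * (k + 1) = μ * k + μ := by ring
      omega
    apply mul_dvd_mul
    · apply pow_dvd_pow_of_dvd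
      apply Finset.lcm_mono
      apply Finset.Icc_subset_Icc le_rfl
      have h2 : C ≤ C ^ (2 * μ) := Nat.le_self_pow (by omega) C
      calc C * (N + 1) ≤ C ^ (2 * μ) * (μ * (k + 1)) := Nat.mul_le_mul h2 hNk
        _ = C ^ (2 * μ) * μ * 1 * (k + 1) := by ring
        _ ≤ C ^ (2 * μ) * μ * (D1 * P ^ 2 * (D2 * D3 * D4)) * (k + 1) := by
            apply Nat.mul_le_mul_right
            exact Nat.mul_le_mul_left _ hD
        _ = C' * (k + 1) := by rw [hC']
    · rw [hC', mul_pow, mul_pow]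
      apply mul_dvd_mul
      · refine Dvd.dvd.mul_right ?_ _
        rw [← pow_mul]
        refine pow_dvd_pow _ ?_
        calc 2 * (N + 1) ≤ 2 * (μ * (k + 1)) := Nat.mul_le_mul_left _ hNk
          _ = 2 * μ * (k + 1) := by ring
      · rw [mul_pow, mul_pow]
        refine mul_dvd_mul (mul_dvd_mul (pow_dvd_pow _ (by omega)) ?_) ?_
        · rw [← pow_mul]
          exact pow_dvd_pow _ (by omega)
        · exact dvd_pow_self _ (by omega)
  have hfin2 := isZ_dvd hdvd hfin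
  push_cast at hfin2
  exact hfin2

end Pool.Agent.EVD
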