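import Pool.Agent.EVD.Stmts

set_option autoImplicit false

/-!
# EVD, module HDO: the derivatives of the fundamental matrix
-/

open Finset

namespace Pool.Agent.EVD

open Pool.Agent.DGP (IsZ hd)

namespace HDO_

noncomputable section

variable {ι : Type} [Fintype ι] [DecidableEq ι]

/-- The inclusion in the power series. -/
def phi : Polynomial ℚ →+* PowerSeries ℚ := Polynomial.coeToPowerSeries.ringHom

theorem phi_apply (p : Polynomial ℚ) : phi p = (p : PowerSeries ℚ) := rfl

theorem phi_C (a : ℚ) : phi (Polynomial.C a) = PowerSeries.C a := by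
  rw [phi_apply, Polynomial.coe_C]

theorem phi_X : phi Polynomial.X = PowerSeries.X := by
  rw [phi_apply, Polynomial.coe_X]

theorem phi_Sm (A : Matrix ι ι ℚ) : (Sm A).map phi =
    (PowerSeries.X : PowerSeries ℚ) • (1 : Matrix ι ι (PowerSeries ℚ)) +
      A.map PowerSeries.C := by
  ext1 i j
  simp only [Sm, Matrix.map_apply, Matrix.add_apply, Matrix.smul_apply, smul_eq_mul, map_add,
    map_mul, phi_X, phi_C, Matrix.one_apply]
  split_ifs <;> simp

/-- `A (n + 1) Y_{n+1} = (E - n) Y_n`. -/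
theorem rec_Y (A E : Matrix ι ι ℚ) (hdet : A.det ≠ 0) (n : ℕ) :
    ((n : ℚ) + 1) • (A * Yc A E (n + 1)) =
      (E - (n : ℚ) • (1 : Matrix ι ι ℚ)) * Yc A E n := by
  have h1 : ((n : ℚ) + 1) ≠ 0 := by positivity
  have hu : IsUnit A.det := isUnit_iff_ne_zero.2 hdet
  simp only [Yc]
  rw [Matrix.mul_smul, smul_smul, mul_one_div_cancel h1, one_smul, ← Matrix.mul_assoc,
    ← Matrix.mul_assoc, Matrix.mul_nonsing_inv _ hu, Matrix.one_mul]

/-- The matrix of the divided derivatives. -/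
def Yh (A E : Matrix ι ι ℚ) (k : ℕ) : Matrix ι ι (PowerSeries ℚ) :=
  Matrix.of (fun i j => hd k (Ys A E (i, j)))

theorem coeff_Yh (A E : Matrix ι ι ℚ) (k n : ℕ) (i j : ι) :
    PowerSeries.coeff n (Yh A E k i j) = ((n + k).choose k : ℚ) * Yc A E (n + k) i j := by
  simp [Yh, hd, Ys]

theorem choose1 (n k : ℕ) : ((k : ℚ) + 1) * ((n + (k + 1)).choose (k + 1) : ℚ) =
    ((n : ℚ) + k + 1) * ((n + k).choose k : ℚ) := by
  have h := Nat.add_one_mul_choose_eq (n + k) k
  have h2 : (((n + k + 1) * (n + k).choose k : ℕ) : ℚ) =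
      (((n + k + 1).choose (k + 1) * (k + 1) : ℕ) : ℚ) := by exact_mod_cast h
  push_cast at h2
  have h3 : n + (k + 1) = n + k + 1 := by omega
  rw [h3]
  linarith [h2]

theorem choose2 (n k : ℕ) : ((k : ℚ) + 1) * ((n + 1 + k).choose (k + 1) : ℚ) =
    ((n : ℚ) + 1) * ((n + 1 + k).choose k : ℚ) := by
  have h := Nat.choose_succ_right_eq (n + 1 + k) k
  have h2 : (((n + 1 + k).choose (k + 1) * (k + 1) : ℕ) : ℚ) =
      (((n + 1 + k).choose k * (n + 1 + k - k) : ℕ) : ℚ) := by exact_mod_cast h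
  have h3 : n + 1 + k - k = n + 1 := by omega
  rw [h3] at h2
  push_cast at h2
  linarith [h2]

/-- `(k + 1) (X + A) Y_{[k+1]} = (E - k) Y_{[k]}`. -/
theorem key (A E : Matrix ι ι ℚ) (hdet : A.det ≠ 0) (k : ℕ) :
    PowerSeries.C ((k : ℚ) + 1) • (((Sm A).map phi) * Yh A E (k + 1)) =
      ((E - (k : ℚ) • (1 : Matrix ι ι ℚ)).map PowerSeries.C) * Yh A E k := by
  rw [phi_Sm]
  ext1 i j
  ext n
  have hL : PowerSeries.coeff n ((PowerSeries.C ((k : ℚ) + 1) • (((PowerSeries.X : PowerSeries ℚ) •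
      (1 : Matrix ι ι (PowerSeries ℚ)) + A.map PowerSeries.C) * Yh A E (k + 1))) i j) =
      ((k : ℚ) + 1) * (PowerSeries.coeff n (PowerSeries.X * Yh A E (k + 1) i j) +
        (((n + (k + 1)).choose (k + 1) : ℚ)) * (A * Yc A E (n + (k + 1))) i j) := by
    rw [Matrix.smul_apply, smul_eq_mul, PowerSeries.coeff_C_mul, Matrix.add_mul,
      Matrix.smul_mul, Matrix.one_mul, Matrix.add_apply, Matrix.smul_apply, smul_eq_mul,
      Matrix.mul_apply, Matrix.mul_apply, map_add, map_sum, Finset.mul_sum]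
    simp only [Matrix.map_apply, PowerSeries.coeff_C_mul, coeff_Yh]
    congr 2
    refine Finset.sum_congr rfl fun l _ => ?_
    ring
  have hR : PowerSeries.coeff n ((((E - (k : ℚ) • (1 : Matrix ι ι ℚ)).map
      PowerSeries.C) * Yh A E k) i j) = (((n + k).choose k : ℚ)) *
        ((E - (k : ℚ) • (1 : Matrix ι ι ℚ)) * Yc A E (n + k)) i j := by
    rw [Matrix.mul_apply, Matrix.mul_apply, map_sum, Finset.mul_sum]
    refine Finset.sum_congr rfl fun l _ => ?_
    rw [Matrix.map_apply, PowerSeries.coeff_C_mul, coeff_Yh]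
    ring
  rw [hL, hR]
  have hrec := congrFun (congrFun (rec_Y A E hdet (n + k)) i) j
  rw [Matrix.smul_apply, smul_eq_mul] at hrec
  have e1 : n + (k + 1) = n + k + 1 := by omega
  have hE : ∀ x : ℚ, ((E - x • (1 : Matrix ι ι ℚ)) * Yc A E (n + k)) i j =
      (E * Yc A E (n + k)) i j - x * Yc A E (n + k) i j := by
    intro x
    rw [Matrix.sub_mul, Matrix.smul_mul, Matrix.one_mul, Matrix.sub_apply, Matrix.smul_apply,
      smul_eq_mul]
  rw [hE] at hrec
  rw [hE]
  push_cast at hrec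
  have hX : ((k : ℚ) + 1) * PowerSeries.coeff n (PowerSeries.X * Yh A E (k + 1) i j) =
      (n : ℚ) * ((n + k).choose k : ℚ) * Yc A E (n + k) i j := by
    cases n with
    | zero => simp
    | succ n =>
      rw [PowerSeries.coeff_succ_X_mul, coeff_Yh]
      have e2 : n + (k + 1) = n + 1 + k := by omega
      rw [e2, ← mul_assoc, choose2]
      push_cast
      ring
  rw [mul_add, hX, ← mul_assoc, choose1, e1]
  have : ((n : ℚ) + k + 1) * ((n + k).choose k : ℚ) * (A * Yc A E (n + k + 1)) i j =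
      ((n + k).choose k : ℚ) * (((n : ℚ) + k + 1) * (A * Yc A E (n + k + 1)) i j) := by ring
  rw [this, hrec]
  ring

/-- One step. -/
theorem step (A E : Matrix ι ι ℚ) (hdet : A.det ≠ 0) (k : ℕ) :
    phi (Tp A) • Yh A E (k + 1) = PowerSeries.C (1 / ((k : ℚ) + 1)) •
      (((Sm A).adjugate.map phi) *
        ((E - (k : ℚ) • (1 : Matrix ι ι ℚ)).map PowerSeries.C) * Yh A E k) := by
  have h1 : ((k : ℚ) + 1) ≠ 0 := by positivity
  have hadj : ((Sm A).adjugate.map phi) * ((Sm A).map phi) =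
      phi (Tp A) • (1 : Matrix ι ι (PowerSeries ℚ)) := by
    rw [← Matrix.map_mul, Matrix.adjugate_mul]
    ext1 i j
    simp only [Matrix.map_apply, Matrix.smul_apply, smul_eq_mul, Matrix.one_apply, Tp]
    split_ifs <;> simp
  rw [Matrix.mul_assoc, ← key A E hdet k, Matrix.mul_smul, smul_smul, ← map_mul,
    one_div_mul_cancel h1, map_one, one_smul, ← Matrix.mul_assoc, hadj, Matrix.smul_mul,
    Matrix.one_mul]

theorem main (A E : Matrix ι ι ℚ) (hdet : A.det ≠ 0) (k : ℕ) :
    phi (Tp A) ^ k • Yh A E k = ((Bt A E k).map phi) * Yh A E 0 := by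
  induction k with
  | zero =>
    rw [pow_zero, one_smul]
    have h1 : (Bt A E 0).map phi = 1 := by
      ext1 i j
      simp only [Bt, Matrix.map_apply, Matrix.one_apply]
      split_ifs <;> simp
    rw [h1, Matrix.one_mul]
  | succ k ih =>
    have hB : (Bt A E (k + 1)).map phi = PowerSeries.C (1 / ((k : ℚ) + 1)) •
        (((Sm A).adjugate.map phi) *
          ((E - (k : ℚ) • (1 : Matrix ι ι ℚ)).map PowerSeries.C) *
            ((Bt A E k).map phi)) := by
      have h2 : ((E - (k : ℚ) • (1 : Matrix ι ι ℚ)).map PowerSeries.C) =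
          ((E - (k : ℚ) • (1 : Matrix ι ι ℚ)).map Polynomial.C).map phi := by
        ext1 i j
        simp only [Matrix.map_apply, phi_C]
      rw [h2, ← Matrix.map_mul, ← Matrix.map_mul]
      ext1 i j
      simp only [Bt, Matrix.map_apply, Matrix.smul_apply, smul_eq_mul, map_mul, phi_C]
    rw [hB, pow_succ, mul_smul, step A E hdet k, smul_comm, ← Matrix.mul_smul, ih,
      Matrix.smul_mul]
    rw [Matrix.mul_assoc, Matrix.mul_assoc, Matrix.mul_assoc]

end

end HDO_

theorem hdo_proof : Stmt_Hdo := by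
  intro ι _ _ A E hdet k i j
  have h := congrFun (congrFun (HDO_.main A E hdet k) i) j
  rw [Matrix.smul_apply, smul_eq_mul, Matrix.mul_apply] at h
  have h0 : ∀ l, HDO_.Yh A E 0 l j = Ys A E (l, j) := by
    intro l
    ext n
    rw [HDO_.coeff_Yh]
    simp [Ys]
  simp only [h0] at h
  exact h

end Pool.Agent.EVD
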