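import Pool.Agent.EVD.Stmts
import Pool.Agent.DG2.INDXB
import Pool.Agent.DGP.IndR

set_option autoImplicit false

/-!
# EVD, module IDO: relations of bounded degree between the values of the power series
-/

open scoped BigOperators Topology
open Metric Set

namespace Pool.Agent.EVD

open Pool.Agent.DGP (GSys IsZ hd val Conv tens)
open Pool.Agent.DGP.IndR (val_rescale conv_rescale conv_one conv_prod conv_sum conv_zero)
open Pool.Agent.DG2.INDX_ (numbers small heights exists_le diff_eval ident)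

namespace IDO_

section

variable {K : ℕ} {ι : Fin K → Type} [∀ k, Fintype (ι k)] [∀ k, DecidableEq (ι k)]

/-- The values of the full system. -/
noncomputable def fvv (A E : ∀ k, Matrix (ι k) (ι k) ℚ) (d : Fin K → ℕ) (x : ℝ)
    (o : Option (Σ k, ι k × ι k)) : ℝ :=
  o.elim 1 (fun v => val (Ys (A v.1) (E v.1) v.2) (d v.1 * x))

theorem fullO_val (hVal : DGP.Stmt_Val) (A E : ∀ k, Matrix (ι k) (ι k) ℚ)
    (d : Fin K → ℕ) (x : ℝ) (h : ∀ k p, Conv (Ys (A k) (E k) p) (d k * x))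
    (o : Option (Σ k, ι k × ι k)) :
    Conv (fullO A E d o) x ∧ val (fullO A E d o) x = fvv A E d x o := by
  cases o with
  | none => exact conv_one hVal x
  | some v =>
    have h1 : ((d v.1 : ℚ) : ℝ) * x = d v.1 * x := by push_cast; ring
    constructor
    · show Conv (PowerSeries.rescale (d v.1 : ℚ) (Ys (A v.1) (E v.1) v.2)) x
      apply conv_rescale
      rw [h1]
      exact h v.1 v.2
    · show val (PowerSeries.rescale (d v.1 : ℚ) (Ys (A v.1) (E v.1) v.2)) x = _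
      rw [val_rescale, h1]
      rfl

theorem tens_val (hVal : DGP.Stmt_Val) (A E : ∀ k, Matrix (ι k) (ι k) ℚ)
    (d : Fin K → ℕ) (x : ℝ) (h : ∀ k p, Conv (Ys (A k) (E k) p) (d k * x)) {E0 : ℕ}
    (w : Fin E0 → Option (Σ k, ι k × ι k)) :
    Conv (tens (fullO A E d) E0 w) x ∧
      val (tens (fullO A E d) E0 w) x = ∏ e, fvv A E d x (w e) := by
  unfold tens
  obtain ⟨h1, h2⟩ := conv_prod hVal x Finset.univ (fun e => fullO A E d (w e))
    (fun e _ => (fullO_val hVal A E d x h (w e)).1)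
  refine ⟨h1, ?_⟩
  rw [h2]
  exact Finset.prod_congr rfl (fun e _ => (fullO_val hVal A E d x h (w e)).2)

theorem rel_val (hVal : DGP.Stmt_Val) (A E : ∀ k, Matrix (ι k) (ι k) ℚ)
    (d : Fin K → ℕ) (x : ℝ) (h : ∀ k p, Conv (Ys (A k) (E k) p) (d k * x)) {E0 : ℕ}
    (ρ : (Fin E0 → Option (Σ k, ι k × ι k)) → Polynomial ℚ)
    (hρ : ∑ w, (ρ w : PowerSeries ℚ) * tens (fullO A E d) E0 w = 0) :
    ∑ w, Polynomial.aeval x (ρ w) * ∏ e, fvv A E d x (w e) = 0 := by
  have h1 : ∀ w, Conv ((ρ w : PowerSeries ℚ) * tens (fullO A E d) E0 w) x ∧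
      val ((ρ w : PowerSeries ℚ) * tens (fullO A E d) E0 w) x
        = Polynomial.aeval x (ρ w) * ∏ e, fvv A E d x (w e) := by
    intro w
    obtain ⟨h2, h3⟩ := (hVal x).2.1 (ρ w)
    obtain ⟨h4, h5⟩ := tens_val hVal A E d x h w
    obtain ⟨h6, h7, -, -⟩ := (hVal x).1 _ _ h2 h4
    exact ⟨h6, by rw [h7, h3, h5]⟩
  obtain ⟨h2, h3⟩ := conv_sum hVal x Finset.univ
    (fun w => (ρ w : PowerSeries ℚ) * tens (fullO A E d) E0 w) (fun w _ => (h1 w).1)
  rw [hρ, (conv_zero hVal x).2] at h3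
  rw [h3]
  exact Finset.sum_congr rfl (fun w _ => (h1 w).2.symm)

/-- The polynomial of a functional relation. -/
noncomputable def Pfun {E0 : ℕ} (ρ : (Fin E0 → Option (Σ k, ι k × ι k)) → Polynomial ℚ) :
    MvPolynomial (Option (Σ k, ι k × ι k)) ℂ :=
  ∑ w, Polynomial.aeval (MvPolynomial.X none) (ρ w) * ∏ e, (w e).elim 1 (fun v =>
    MvPolynomial.X (some v))

theorem Pfun_eval {E0 : ℕ} (ρ : (Fin E0 → Option (Σ k, ι k × ι k)) → Polynomial ℚ) (z : ℂ)
    (M : ∀ k, Matrix (ι k) (ι k) ℂ) :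
    MvPolynomial.eval (pt z M) (Pfun ρ) = ∑ w, Polynomial.aeval z (ρ w) *
      ∏ e, (w e).elim 1 (fun v : Σ k, ι k × ι k => M v.1 v.2.1 v.2.2) := by
  unfold Pfun
  rw [map_sum]
  apply Finset.sum_congr rfl
  intro w _
  rw [map_mul, map_prod]
  congr 1
  · have h1 : (MvPolynomial.eval (pt z M)) (Polynomial.aeval (MvPolynomial.X none) (ρ w))
        = Polynomial.aeval (MvPolynomial.eval (pt z M) (MvPolynomial.X none)) (ρ w) := by
      have h2 := Polynomial.hom_eval₂ (ρ w) (algebraMap ℚ (MvPolynomial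
        (Option (Σ k, ι k × ι k)) ℂ)) (MvPolynomial.eval (pt z M)) (MvPolynomial.X none)
      rw [Polynomial.aeval_def, h2, Polynomial.aeval_def]
      congr 1
      exact Subsingleton.elim _ _
    rw [h1, MvPolynomial.eval_X]
    rfl
  · apply Finset.prod_congr rfl
    intro e _
    cases hwe : w e with
    | none => simp
    | some v =>
      simp only [Option.elim_some, MvPolynomial.eval_X]
      rfl

theorem exists_between_all (c : ℝ) (a : Fin K → ℝ) (h : ∀ k, c < a k) :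
    ∃ b : ℝ, c < b ∧ ∀ k, b ≤ a k := by
  obtain ⟨ρ, h1, h2⟩ := exists_le (fun k => a k - c) (fun k => a k - c)
    (fun k => sub_pos.mpr (h k)) (fun k => sub_pos.mpr (h k))
  exact ⟨c + ρ, by linarith, fun k => by have := (h2 k).1; linarith⟩

theorem funct (hVal : DGP.Stmt_Val) (hTho : Stmt_Tho) (κ : Fin K → ℕ)
    (A B U : ∀ k, Matrix (ι k) (ι k) ℚ) (b : ∀ k, ι k → ℚ) (i₀ : ∀ k, ι k)
    (hO : ∀ k, Oku (κ k) (A k) (B k) (U k) (b k) (i₀ k)) (ρ₀ : ℝ)
    (Y Y' : ∀ k, ℂ → Matrix (ι k) (ι k) ℂ) (hY0 : ∀ k, Y k 0 = 1)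
    (hY : ∀ k, ∀ z ∈ ball (0 : ℂ) ρ₀, (z • (1 : Matrix (ι k) (ι k) ℂ) + cm (A k)).det ≠ 0 ∧
      (∀ i j, HasDerivAt (fun z => Y k z i j) (Y' k z i j) z) ∧
      (z • (1 : Matrix (ι k) (ι k) ℂ) + cm (A k)) * Y' k z = cm (Eo (κ k) (B k)) * Y k z)
    (hser : ∀ k, ∀ w : ℝ, |w| < ρ₀ → (∀ p, Conv (Ys (A k) (Eo (κ k) (B k)) p) w) ∧
      Y k (w : ℂ) = Yv (A k) (Eo (κ k) (B k)) w)
    (d : Fin K → ℕ) (hd : ∀ k, 1 ≤ d k)
    (hdist : ∀ k l, k ≠ l → ∃ z : ℂ,
      ¬((((d k : ℂ) * z) • (1 : Matrix (ι k) (ι k) ℂ) + cm (A k)).det ≠ 0 ↔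
        (((d l : ℂ) * z) • (1 : Matrix (ι l) (ι l) ℂ) + cm (A l)).det ≠ 0))
    {E0 : ℕ} (ρ : (Fin E0 → Option (Σ k, ι k × ι k)) → Polynomial ℚ)
    (hρ : ∑ w, (ρ w : PowerSeries ℚ) *
      tens (fullO A (fun k => Eo (κ k) (B k)) d) E0 w = 0)
    (x : ℝ) (hx0 : 0 < x) (hx : ∀ k, (d k : ℝ) * x < ρ₀)
    (a : ∀ k, Matrix (ι k) (ι k) ℂ) (ha : ∀ k, Iso (cm (U k * A k)) (a k) ∧ (a k).det = 1) :
    ∑ w, Polynomial.aeval (x : ℂ) (ρ w) * ∏ e, (w e).elim 1 (fun v : Σ k, ι k × ι k =>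
      (Yv (A v.1) (Eo (κ v.1) (B v.1)) (d v.1 * x) * a v.1) v.2.1 v.2.2) = 0 := by
  have hdpos : ∀ k, (0 : ℝ) < d k := by
    intro k
    have := hd k
    exact_mod_cast (by omega : 0 < d k)
  obtain ⟨ρ', hρ'1, hρ'2⟩ := exists_between_all x (fun k => ρ₀ / d k) (fun k => by
    rw [lt_div_iff₀ (hdpos k), mul_comm]
    exact hx k)
  have hρ'0 : 0 < ρ' := lt_trans hx0 hρ'1
  have hdz : ∀ k, ∀ y : ℝ, 0 ≤ y → y < ρ' → (d k : ℝ) * y < ρ₀ := by
    intro k y hy0 hy
    have h1 := hρ'2 k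
    rw [le_div_iff₀ (hdpos k)] at h1
    have h2 := hdpos k
    nlinarith
  have hball : ∀ k, ∀ z ∈ ball (0 : ℂ) ρ', (d k : ℂ) * z ∈ ball (0 : ℂ) ρ₀ := by
    intro k z hz
    rw [mem_ball_zero_iff] at hz ⊢
    rw [norm_mul, Complex.norm_natCast]
    exact hdz k ‖z‖ (norm_nonneg _) hz
  have hderiv : ∀ k, ∀ z ∈ ball (0 : ℂ) ρ', ∀ i j,
      HasDerivAt (fun z => Y k ((d k : ℂ) * z) i j) (((d k : ℂ) • Y' k ((d k : ℂ) * z)) i j) z := by
    intro k z hz i j
    have h1 := (hY k _ (hball k z hz)).2.1 i j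
    have h2 : HasDerivAt (fun z : ℂ => (d k : ℂ) * z) (d k : ℂ) z := by
      simpa using (hasDerivAt_id z).const_mul (d k : ℂ)
    have h3 := HasDerivAt.comp z h1 h2
    have h4 : ((d k : ℂ) • Y' k ((d k : ℂ) * z)) i j
        = Y' k ((d k : ℂ) * z) i j * (d k : ℂ) := by
      rw [Matrix.smul_apply, smul_eq_mul, mul_comm]
    rw [h4]
    exact h3
  have key := hTho (Fin K) ι κ A B U b i₀ hO (fun _ => 0) (fun k => ((d k : ℕ) : ℂ))
    (fun k => by
      have := hd k
      exact_mod_cast (by omega : d k ≠ 0))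
    (by
      intro k l hkl
      obtain ⟨z, hz⟩ := hdist k l hkl
      refine ⟨z, ?_⟩
      simp only [zero_add]
      exact hz)
    0 ρ' hρ'0
    (by
      intro k z hz
      have h1 := (hY k _ (hball k z hz)).1
      rw [zero_add]
      exact h1)
    (fun k z => Y k ((d k : ℂ) * z))
    (fun k z => (d k : ℂ) • Y' k ((d k : ℂ) * z))
    (by
      intro k
      simp only [mul_zero]
      exact hY0 k)
    (by
      intro k z hz
      refine ⟨hderiv k z hz, ?_⟩
      rw [zero_add, Matrix.mul_smul, (hY k _ (hball k z hz)).2.2])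
    (Pfun ρ) (by
      apply ident _ ρ' hρ'0
      · apply diff_eval
        intro o
        cases o with
        | none => exact differentiableOn_id
        | some q =>
          intro z hz
          exact (hderiv q.1 z hz q.2.1 q.2.2).differentiableAt.differentiableWithinAt
      · intro y hy0 hy
        refine (Pfun_eval ρ (y : ℂ) (fun k => Y k ((d k : ℂ) * (y : ℂ)))).trans ?_
        have hconv : ∀ k p, Conv (Ys (A k) (Eo (κ k) (B k)) p) (d k * y) := by
          intro k p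
          apply (hser k (d k * y) ?_).1 p
          rw [abs_of_nonneg (by positivity)]
          exact hdz k y hy0 hy
        have h1 := rel_val hVal A (fun k => Eo (κ k) (B k)) d y hconv ρ hρ
        have h2 : ((∑ w, Polynomial.aeval y (ρ w) *
            ∏ e, fvv A (fun k => Eo (κ k) (B k)) d y (w e) : ℝ) : ℂ) = 0 := by
          rw [h1]
          simp
        rw [← h2]
        push_cast
        apply Finset.sum_congr rfl
        intro w _
        congr 1
        · have h3 := Polynomial.aeval_algebraMap_apply (A := ℝ) ℂ y (ρ w)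
          simpa using h3
        · apply Finset.prod_congr rfl
          intro e _
          cases hwe : w e with
          | none => simp [fvv]
          | some v =>
            have h3 := (hser v.1 (d v.1 * y) (by
              rw [abs_of_nonneg (by positivity)]
              exact hdz v.1 y hy0 hy)).2
            have h4 : (d v.1 : ℂ) * (y : ℂ) = (((d v.1 : ℝ) * y : ℝ) : ℂ) := by
              push_cast
              ring
            simp only [Option.elim_some]
            rw [h4, h3]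
            rfl)
    (x : ℂ) (by
      rw [mem_ball_zero_iff, Complex.norm_real, Real.norm_eq_abs, abs_of_pos hx0]
      exact hρ'1) a (by
      intro k
      have h1 : No (cm (A k)) (cm (U k)) 0 (d k : ℂ) 0 = cm (U k * A k) := by
        unfold No
        rw [mul_zero, zero_add, zero_smul, zero_add]
        ext i j
        simp [cm, Matrix.mul_apply]
      rw [h1]
      exact ha k)
  have key2 := (Pfun_eval ρ (x : ℂ) (fun k => Y k ((d k : ℂ) * (x : ℂ)) * a k)).symm.trans key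
  rw [← key2]
  apply Finset.sum_congr rfl
  intro w _
  congr 1
  apply Finset.prod_congr rfl
  intro e _
  cases w e with
  | none => rfl
  | some v =>
    have h3 := (hser v.1 (d v.1 * x) (by
      rw [abs_of_nonneg (by positivity)]
      exact hx v.1)).2
    have h4 : (d v.1 : ℂ) * (x : ℂ) = (((d v.1 : ℝ) * x : ℝ) : ℂ) := by
      push_cast
      ring
    simp only [Option.elim_some]
    rw [h4, h3]

end

end IDO_

open IDO_ in
theorem ido_proof (hFuo : Stmt_Fuo) (hTho : Stmt_Tho) (hSro : Stmt_Sro) (hTfo : Stmt_Tfo)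
    (hAA : DGP.Stmt_AA) (hVal : DGP.Stmt_Val) (hWord : DGP.Stmt_Word) : Stmt_Ido := by
  intro K ι _ _ κ A B U b i₀ hO hA hG E
  choose ρs Y Y' hρs0 hY0 hY hser _ using fun k => hSro (ι k) (A k) (Eo (κ k) (B k)) (hA k)
  obtain ⟨ρ₁, hρ₁, hρ₁le⟩ := exists_le ρs ρs hρs0 hρs0
  obtain ⟨C, e, τ, hC⟩ := hFuo K ι A (fun k => Eo (κ k) (B k)) hA hG E
  obtain ⟨κ', hκ⟩ := hAA (Fin E → Option (Σ k, ι k × ι k)) τ
  set δ : ℝ := 1 / (2 * ((K : ℝ) * e * κ' + 1)) with hδ
  have hδpos : 0 < δ := by positivity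
  have hδhalf : δ ≤ 1 / 2 := by
    rw [hδ]
    apply one_div_le_one_div_of_le (by norm_num)
    have : (0 : ℝ) ≤ (K : ℝ) * e * κ' := by positivity
    linarith
  have hδκ : (K : ℝ) * δ * e * κ' ≤ 1 / 2 := by
    have h1 : (K : ℝ) * δ * e * κ' = ((K : ℝ) * e * κ') / (2 * ((K : ℝ) * e * κ' + 1)) := by
      rw [hδ]; ring
    rw [h1, div_le_div_iff₀ (by positivity) (by norm_num)]
    have : (0 : ℝ) ≤ (K : ℝ) * e * κ' := by positivity
    linarith
  refine ⟨δ, hδpos, max ((C + 1) ^ (2 * κ')) (⌈1 / ρ₁ ^ 2⌉₊ + 2), ?_⟩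
  intro n hn ρ hρ hdist P hPdeg hPval a ha
  have hnC : (C + 1) ^ (2 * κ') ≤ n := le_trans (le_max_left _ _) hn
  have hn2 : ⌈1 / ρ₁ ^ 2⌉₊ + 2 ≤ n := le_trans (le_max_right _ _) hn
  have hn1N : 1 ≤ n := by omega
  have hn1 : (1 : ℝ) ≤ n := by exact_mod_cast hn1N
  have hnpos : (0 : ℝ) < n := by linarith
  obtain ⟨ed, d, hed, hdr, hd1, hdle⟩ := numbers K n δ ρ hρ hn1N
  have hedne : (ed : ℝ) ≠ 0 := by
    have : 0 < ed := hed
    exact_mod_cast this.ne'
  set n' : ℕ := n * ed with hn'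
  have hn'pos : (0 : ℝ) < n' := by
    rw [hn']
    push_cast
    have : (0 : ℝ) < ed := by exact_mod_cast hed
    positivity
  have hdz : ∀ k, (d k : ℝ) * (1 / (n' : ℝ)) = (ρ k : ℝ) / n := by
    intro k
    have h3 : (d k : ℝ) = (ρ k : ℝ) * ed := by exact_mod_cast hdr k
    rw [h3, hn']
    push_cast
    field_simp
  have hdzQ : ∀ k, (d k : ℚ) * (1 / (n' : ℚ)) = ρ k / n := by
    intro k
    have h4b : (ed : ℚ) ≠ 0 := by exact_mod_cast hedne
    rw [hdr, hn']
    push_cast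
    field_simp
  have hsm : ∀ k, (0 : ℝ) < (ρ k : ℝ) / n ∧ (ρ k : ℝ) / n < ρ₁ := fun k =>
    small n ρ₁ δ hρ₁ hδhalf hn2 (ρ k) (hρ k).1 (hρ k).2
  -- the bound `b`
  set bb : ℕ := ⌊(n : ℝ) ^ ((K : ℝ) * δ)⌋₊ with hb
  have hb1 : 1 ≤ bb := by
    rw [hb]
    apply Nat.le_floor
    simpa using Real.one_le_rpow hn1 (by positivity : (0 : ℝ) ≤ (K : ℝ) * δ)
  have hbn : (bb : ℝ) ≤ (n : ℝ) ^ ((K : ℝ) * δ) := Nat.floor_le (by positivity)
  obtain ⟨e₀, c₀, hGS⟩ := hC d bb hb1 (fun k => ⟨hd1 k, Nat.le_floor (hdle k)⟩)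
  have hH := heights K C e κ' n n' bb δ hn1N hnC hbn hδκ (by
    rw [hn']
    exact Nat.le_mul_of_pos_right n hed)
  -- the denominators do not vanish
  have hTne : (∏ k, Td (A k) (d k)).eval (1 / (n' : ℚ)) ≠ 0 := by
    rw [Polynomial.eval_prod]
    apply Finset.prod_ne_zero_iff.mpr
    intro k _
    have h3 : (Td (A k) (d k)).eval (1 / (n' : ℚ))
        = (kap (A k) : ℚ) * (Tp (A k)).eval (ρ k / n) := by
      unfold Td
      rw [Polynomial.eval_mul, Polynomial.eval_C, Polynomial.eval_comp]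
      congr 2
      simp only [Polynomial.eval_mul, Polynomial.eval_C, Polynomial.eval_X]
      exact hdzQ k
    rw [h3]
    have h4 := (hTfo (ι k) (A k)).2.2.2.1
    have h5 : (kap (A k) : ℚ) ≠ 0 := by
      have : kap (A k) ≠ 0 := by omega
      exact_mod_cast this
    apply mul_ne_zero h5
    rw [(hTfo (ι k) (A k)).2.2.1 (ρ k / n)]
    have h6 := (hY k (((ρ k / n : ℚ)) : ℂ) (by
      rw [mem_ball_zero_iff]
      have h7 : (((ρ k / n : ℚ)) : ℂ) = (((ρ k : ℝ) / n : ℝ) : ℂ) := by push_cast; ring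
      rw [h7, Complex.norm_real, Real.norm_eq_abs, abs_of_pos (hsm k).1]
      exact lt_of_lt_of_le (hsm k).2 (hρ₁le k).1)).1
    intro h8
    apply h6
    have h9 : (((ρ k / n : ℚ) : ℂ) • (1 : Matrix (ι k) (ι k) ℂ) + cm (A k)) =
        ((ρ k / n) • (1 : Matrix (ι k) (ι k) ℚ) + A k).map (algebraMap ℚ ℂ) := by
      ext i j
      by_cases hij : i = j
      · subst hij
        simp [cm]
      · simp [cm, Matrix.one_apply_ne hij]
    rw [h9, ← RingHom.mapMatrix_apply, ← RingHom.map_det, h8, map_zero]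
  -- convergence
  have hconv : ∀ k p, Conv (Ys (A k) (Eo (κ k) (B k)) p) (d k * (1 / (n' : ℝ))) := by
    intro k p
    apply (hser k _ ?_).1 p
    rw [hdz, abs_of_pos (hsm k).1]
    exact lt_of_lt_of_le (hsm k).2 (hρ₁le k).1
  -- words
  obtain ⟨c, hc⟩ := hWord (Σ k, ι k × ι k) E P hPdeg
  have hword : ∀ y : (Σ k, ι k × ι k) → ℂ, MvPolynomial.aeval y P
      = ∑ w, (c w : ℂ) * ∏ e, ((w e).elim 1 y : ℂ) := by
    intro y
    rw [hc, map_sum]
    apply Finset.sum_congr rfl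
    intro w _
    rw [map_mul, map_prod, MvPolynomial.aeval_C]
    congr 1
    apply Finset.prod_congr rfl
    intro e' _
    cases w e' <;> simp
  -- the value
  have hrel : ∑ w, (c w : ℝ) *
      val (tens (fullO A (fun k => Eo (κ k) (B k)) d) E w) (1 / (n' : ℝ)) = 0 := by
    have h3 := hword (fun p : Σ k, ι k × ι k =>
      Yv (A p.1) (Eo (κ p.1) (B p.1)) ((ρ p.1 : ℝ) / n) p.2.1 p.2.2)
    rw [hPval] at h3
    have h4 : ((∑ w, (c w : ℝ) *
        val (tens (fullO A (fun k => Eo (κ k) (B k)) d) E w) (1 / (n' : ℝ)) : ℝ) : ℂ)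
        = 0 := by
      rw [h3]
      push_cast
      apply Finset.sum_congr rfl
      intro w _
      congr 1
      rw [show (1 : ℝ) / (n' : ℝ) = 1 / (n' : ℝ) from rfl,
        (tens_val hVal A (fun k => Eo (κ k) (B k)) d _ hconv w).2]
      push_cast
      apply Finset.prod_congr rfl
      intro e' _
      cases w e' with
      | none => simp [fvv]
      | some v =>
        simp only [fvv, Option.elim_some, hdz]
        rfl
    exact_mod_cast h4
  obtain ⟨ρf, hρ1, hρ2⟩ := hκ (tens (fullO A (fun k => Eo (κ k) (B k)) d) E)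
    (∏ k, Td (A k) (d k)) e₀ c₀ _ hGS
    ⟨fun _ => none, by simp [tens, fullO]⟩ n' hH hTne c hrel
  have hfun := funct hVal hTho κ A B U b i₀ hO ρ₁ Y Y' hY0
    (fun k z hz => hY k z (ball_subset_ball (hρ₁le k).1 hz))
    (fun k w hw => hser k w (lt_of_lt_of_le hw (hρ₁le k).1)) d hd1 (by
      intro k l hkl
      obtain ⟨z, hz⟩ := hdist k l hkl
      refine ⟨z / ed, ?_⟩
      have hedC : (ed : ℂ) ≠ 0 := by
        have : ed ≠ 0 := by omega
        exact_mod_cast this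
      have h3 : ∀ k, (d k : ℂ) * (z / ed) = (ρ k : ℂ) * z := by
        intro k
        have h4 : ((d k : ℕ) : ℂ) = ((ρ k : ℚ) : ℂ) * (ed : ℂ) := by
          exact_mod_cast congrArg (fun x : ℚ => (x : ℂ)) (hdr k)
        rw [h4]
        field_simp
      rw [h3, h3]
      exact hz) ρf hρ1 (1 / (n' : ℝ)) (by positivity) (fun k => by
        rw [hdz]
        exact (hsm k).2) a ha
  rw [hword, ← hfun]
  apply Finset.sum_congr rfl
  intro w' _
  congr 1
  · have h3 : Polynomial.aeval (((1 / (n' : ℝ) : ℝ)) : ℂ) (ρf w')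
        = (((ρf w').eval (1 / (n' : ℚ)) : ℚ) : ℂ) := by
      have h7 : (((1 / (n' : ℝ) : ℝ)) : ℂ) = algebraMap ℚ ℂ (1 / (n' : ℚ)) := by simp
      rw [h7, Polynomial.aeval_algebraMap_apply, Polynomial.coe_aeval_eq_eval]
      simp
    rw [h3, hρ2 w']
  · apply Finset.prod_congr rfl
    intro e' _
    cases w' e' with
    | none => rfl
    | some v =>
      simp only [Option.elim_some, hdz]

end Pool.Agent.EVD
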