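import Pool.Agent.EVD.Stmts

set_option autoImplicit false

/-!
# EVD, module INB: the symmetrised product of the conjugates extends to the whole plane
-/

open scoped BigOperators Topology
open Metric Set Filter

namespace Pool.Agent.EVD

noncomputable section

namespace INB_

/-- The even part of the power. -/
def ev (n : ℕ) (t : ℂ) : ℂ := if Even n then t ^ (n / 2) else 0

lemma ev_eq (n : ℕ) (w : ℂ) : (w ^ n + (-w) ^ n) / 2 = ev n (w ^ 2) := by
  unfold ev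
  split_ifs with h
  · rw [h.neg_pow, ← pow_mul]
    obtain ⟨k, hk⟩ := h
    have h2 : 2 * (n / 2) = n := by omega
    rw [h2]
    ring
  · rw [Nat.not_even_iff_odd] at h
    rw [h.neg_pow]
    ring

lemma ev_diff (n : ℕ) : Differentiable ℂ (ev n) := by
  unfold ev
  split_ifs with h
  · exact differentiable_id.pow _
  · exact differentiable_const _

lemma hasDerivAt_mul_const {ι κ ν : Type} [Fintype ι] [Fintype κ]
    {A : ℂ → Matrix κ ι ℂ} {A' : Matrix κ ι ℂ} {s : ℂ} (B : Matrix ι ν ℂ)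
    (hA : ∀ i j, HasDerivAt (fun z => A z i j) (A' i j) s) (i : κ) (j : ν) :
    HasDerivAt (fun z => (A z * B) i j) ((A' * B) i j) s := by
  simp only [Matrix.mul_apply]
  exact HasDerivAt.fun_sum fun k _ => (hA i k).mul_const _

lemma hasDerivAt_mulVec {ι κ : Type} [Fintype ι]
    {A : ℂ → Matrix κ ι ℂ} {A' : Matrix κ ι ℂ} {s : ℂ} (c : ι → ℂ)
    (hA : ∀ i j, HasDerivAt (fun z => A z i j) (A' i j) s) (i : κ) :
    HasDerivAt (fun z => (A z).mulVec c i) (A'.mulVec c i) s := by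
  simp only [Matrix.mulVec, dotProduct]
  exact HasDerivAt.fun_sum fun k _ => (hA i k).mul_const _

lemma diff_mulVec {ι κ : Type} [Fintype ι] {U : Set ℂ}
    {A : ℂ → Matrix κ ι ℂ} (c : ι → ℂ) (hA : GPH.HolM U A) (i : κ) :
    DifferentiableOn ℂ (fun z => (A z).mulVec c i) U := by
  simp only [Matrix.mulVec, dotProduct]
  exact DifferentiableOn.fun_sum fun k _ => (hA i k).mul (differentiableOn_const _)

lemma diff_mul_const {ι κ ν : Type} [Fintype ι] {U : Set ℂ}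
    {A : ℂ → Matrix κ ι ℂ} (B : Matrix ι ν ℂ) (hA : GPH.HolM U A) :
    GPH.HolM U (fun z => A z * B) := by
  intro i j
  simp only [Matrix.mul_apply]
  exact DifferentiableOn.fun_sum fun k _ => (hA i k).mul (differentiableOn_const _)

lemma upd_iff {ι Γ : Type} [DecidableEq Γ] (f g : Γ → ι) (γ : Γ) (i : ι) :
    g = Function.update f γ i ↔ (∀ γ', γ' ≠ γ → f γ' = g γ') ∧ i = g γ := by
  constructor
  · rintro rfl
    refine ⟨fun γ' h => ?_, ?_⟩
    · rw [Function.update_of_ne h]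
    · rw [Function.update_self]
  · rintro ⟨h1, h2⟩
    funext γ'
    by_cases h : γ' = γ
    · subst h
      rw [Function.update_self, h2]
    · rw [Function.update_of_ne h, h1 γ' h]

lemma sum_upd {ι Γ : Type} [Fintype ι] [DecidableEq ι] [Fintype Γ] [DecidableEq Γ]
    (f : Γ → ι) (γ : Γ) (a : ι → ℂ) (y : (Γ → ι) → ℂ) :
    ∑ g : Γ → ι, (if (∀ γ', γ' ≠ γ → f γ' = g γ') then a (g γ) else 0) * y g =
      ∑ i, a i * y (Function.update f γ i) := by
  have h1 : ∀ i : ι, a i * y (Function.update f γ i) =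
      ∑ g : Γ → ι, if g = Function.update f γ i then a i * y g else 0 := by
    intro i
    rw [Finset.sum_ite_eq']
    simp
  simp_rw [h1]
  rw [Finset.sum_comm]
  refine Finset.sum_congr rfl fun g _ => ?_
  have h2 : ∀ i : ι, (if g = Function.update f γ i then a i * y g else 0) =
      if i = g γ then (if (∀ γ', γ' ≠ γ → f γ' = g γ') then a (g γ) else 0) * y g else 0 := by
    intro i
    by_cases h : i = g γ
    · by_cases h' : ∀ γ', γ' ≠ γ → f γ' = g γ'
      · rw [if_pos ((upd_iff f g γ i).mpr ⟨h', h⟩), if_pos h, if_pos h', h]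
      · rw [if_neg (fun hh => h' ((upd_iff f g γ i).mp hh).1), if_pos h, if_neg h', zero_mul]
    · rw [if_neg (fun hh => h ((upd_iff f g γ i).mp hh).2), if_neg h]
  simp_rw [h2]
  rw [Finset.sum_ite_eq']
  simp

/-- The action of the matrix of the tensor power. -/
lemma Lt_mulVec {ι Γ : Type} [Fintype ι] [DecidableEq ι] [Fintype Γ] [DecidableEq Γ]
    (L : ℂ → Matrix ι ι ℂ) (z : ℂ) (y : (Γ → ι) → ℂ) (f : Γ → ι) :
    (Lt (Γ := Γ) L z).mulVec y f = ∑ γ : Γ, ∑ i, L z (f γ) i * y (Function.update f γ i) := by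
  simp only [Matrix.mulVec, dotProduct, Lt, Matrix.of_apply, Finset.sum_mul]
  rw [Finset.sum_comm]
  exact Finset.sum_congr rfl fun γ _ => sum_upd f γ (L z (f γ)) y

lemma prod_upd {ι Γ : Type} [Fintype Γ] [DecidableEq Γ] (v : Γ → ι → ℂ) (f : Γ → ι) (γ : Γ)
    (i : ι) : ∏ γ', v γ' (Function.update f γ i γ') =
      v γ i * ∏ γ' ∈ Finset.univ.erase γ, v γ' (f γ') := by
  rw [← Finset.mul_prod_erase _ _ (Finset.mem_univ γ), Function.update_self]
  congr 1
  refine Finset.prod_congr rfl fun γ' h => ?_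
  rw [Function.update_of_ne (Finset.ne_of_mem_erase h)]

/-- The product rule. -/
lemma yT_sol {ι Γ : Type} [Fintype ι] [DecidableEq ι] [Fintype Γ] [DecidableEq Γ]
    {U : Set ℂ} {L Ψ : ℂ → Matrix ι ι ℂ} (h : GPH.MSol U L Ψ) (F : Γ → Matrix ι ι ℂ)
    (c : ι → ℂ) : GPH.Sol U (Lt (Γ := Γ) L) (yT Ψ F c) := by
  intro s hs f
  have h1 : ∀ (σ γ : Γ) (i : ι), HasDerivAt (fun z => (Ψ z * F σ * F γ).mulVec c i)
      ((L s).mulVec ((Ψ s * F σ * F γ).mulVec c) i) s := by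
    intro σ γ i
    have h2 := hasDerivAt_mulVec c (hasDerivAt_mul_const (F γ)
      (hasDerivAt_mul_const (F σ) (h s hs))) i
    refine h2.congr_deriv ?_
    rw [Matrix.mulVec_mulVec]
    simp only [Matrix.mul_assoc]
  have h3 : HasDerivAt (fun z => yT Ψ F c z f)
      (∑ σ : Γ, ∑ γ : Γ, (∏ γ' ∈ Finset.univ.erase γ, (Ψ s * F σ * F γ').mulVec c (f γ')) *
        (L s).mulVec ((Ψ s * F σ * F γ).mulVec c) (f γ)) s := by
    unfold yT
    refine HasDerivAt.fun_sum fun σ _ => ?_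
    have h4 := HasDerivAt.fun_finsetProd (u := Finset.univ)
      (f := fun (γ : Γ) (z : ℂ) => (Ψ z * F σ * F γ).mulVec c (f γ))
      (f' := fun γ => (L s).mulVec ((Ψ s * F σ * F γ).mulVec c) (f γ)) (x := s)
      (fun γ _ => h1 σ γ (f γ))
    simpa [smul_eq_mul] using h4
  refine h3.congr_deriv ?_
  rw [Lt_mulVec]
  simp only [yT, Finset.mul_sum]
  rw [Finset.sum_comm]
  refine Finset.sum_congr rfl fun γ _ => ?_
  rw [Finset.sum_comm]
  refine Finset.sum_congr rfl fun σ _ => ?_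
  simp only [prod_upd (fun γ' => (Ψ s * F σ * F γ').mulVec c) f γ]
  rw [Matrix.mulVec, dotProduct, Finset.mul_sum]
  refine Finset.sum_congr rfl fun i _ => ?_
  ring

lemma exp_half_sq {t : ℂ} (ht : t ≠ 0) : Complex.exp (GPH.plog t / 2) ^ 2 = t := by
  rw [← Complex.exp_nat_mul]
  have : ((2 : ℕ) : ℂ) * (GPH.plog t / 2) = GPH.plog t := by
    push_cast
    ring
  rw [this, GPH.plog, Complex.exp_add, Complex.exp_log (neg_ne_zero.mpr ht),
    Complex.exp_pi_mul_I]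
  ring

/-- The polynomial in `w`. -/
def pw {ι Γ : Type} [Fintype ι] [Fintype Γ] (G0 G1 : Matrix ι ι ℂ)
    (F : Γ → Matrix ι ι ℂ) (c : ι → ℂ) (f : Γ → ι) (w : ℂ) : ℂ :=
  ∑ σ : Γ, ∏ γ : Γ, ((G0 + w • G1) * F σ * F γ).mulVec c (f γ)

/-- Its value, if it is even. -/
def hw {ι Γ : Type} [Fintype ι] [Fintype Γ] [DecidableEq Γ] (G0 G1 : Matrix ι ι ℂ)
    (F : Γ → Matrix ι ι ℂ) (c : ι → ℂ) (f : Γ → ι) (t : ℂ) : ℂ :=
  ∑ σ : Γ, ∑ S ∈ (Finset.univ : Finset Γ).powerset, ev S.card t *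
    ((∏ γ ∈ S, (G1 * F σ * F γ).mulVec c (f γ)) *
      ∏ γ ∈ Finset.univ \ S, (G0 * F σ * F γ).mulVec c (f γ))

lemma pw_even {ι Γ : Type} [Fintype ι] [DecidableEq ι] [Fintype Γ] (G0 G1 P : Matrix ι ι ℂ)
    (h0 : G0 * P = 0) (h1 : G1 * P = G1) (F : Γ → Matrix ι ι ℂ) (π : Equiv.Perm Γ)
    (hπ : ∀ γ, (1 - (2 : ℂ) • P) * F γ = F (π γ)) (c : ι → ℂ) (f : Γ → ι) (w : ℂ) :
    pw G0 G1 F c f (-w) = pw G0 G1 F c f w := by
  unfold pw
  rw [← Equiv.sum_comp π (fun σ => ∏ γ : Γ, ((G0 + w • G1) * F σ * F γ).mulVec c (f γ))]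
  refine Finset.sum_congr rfl fun σ _ => ?_
  have h2 : (G0 + w • G1) * F (π σ) = (G0 + (-w) • G1) * F σ := by
    rw [← hπ σ, ← Matrix.mul_assoc]
    congr 1
    rw [Matrix.mul_sub, Matrix.mul_one, Matrix.mul_smul, Matrix.add_mul, h0, Matrix.smul_mul, h1,
      zero_add, smul_smul]
    rw [add_sub_assoc, ← sub_smul]
    congr 2
    ring
  rw [h2]

lemma pw_expand {ι Γ : Type} [Fintype ι] [Fintype Γ] [DecidableEq Γ]
    (G0 G1 : Matrix ι ι ℂ) (F : Γ → Matrix ι ι ℂ) (c : ι → ℂ) (f : Γ → ι) (w : ℂ) :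
    pw G0 G1 F c f w = ∑ σ : Γ, ∑ S ∈ (Finset.univ : Finset Γ).powerset, w ^ S.card *
    ((∏ γ ∈ S, (G1 * F σ * F γ).mulVec c (f γ)) *
      ∏ γ ∈ Finset.univ \ S, (G0 * F σ * F γ).mulVec c (f γ)) := by
  unfold pw
  refine Finset.sum_congr rfl fun σ _ => ?_
  have h1 : ∀ γ : Γ, ((G0 + w • G1) * F σ * F γ).mulVec c (f γ) =
      w * (G1 * F σ * F γ).mulVec c (f γ) + (G0 * F σ * F γ).mulVec c (f γ) := by
    intro γ
    rw [Matrix.add_mul, Matrix.add_mul, Matrix.smul_mul, Matrix.smul_mul, Matrix.add_mulVec,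
      Matrix.smul_mulVec]
    simp only [Pi.add_apply, Pi.smul_apply, smul_eq_mul]
    ring
  simp_rw [h1]
  rw [Finset.prod_add]
  refine Finset.sum_congr rfl fun S _ => ?_
  rw [Finset.prod_mul_distrib, Finset.prod_const]
  ring

lemma pw_eq_hw {ι Γ : Type} [Fintype ι] [DecidableEq ι] [Fintype Γ] [DecidableEq Γ]
    (G0 G1 P : Matrix ι ι ℂ)
    (h0 : G0 * P = 0) (h1 : G1 * P = G1) (F : Γ → Matrix ι ι ℂ) (π : Equiv.Perm Γ)
    (hπ : ∀ γ, (1 - (2 : ℂ) • P) * F γ = F (π γ)) (c : ι → ℂ) (f : Γ → ι) (w : ℂ) :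
    pw G0 G1 F c f w = hw G0 G1 F c f (w ^ 2) := by
  have h2 : pw G0 G1 F c f w = (pw G0 G1 F c f w + pw G0 G1 F c f (-w)) / 2 := by
    rw [pw_even G0 G1 P h0 h1 F π hπ c f w]
    ring
  rw [h2, pw_expand, pw_expand, hw, ← Finset.sum_add_distrib, Finset.sum_div]
  refine Finset.sum_congr rfl fun σ _ => ?_
  rw [← Finset.sum_add_distrib, Finset.sum_div]
  refine Finset.sum_congr rfl fun S _ => ?_
  rw [← ev_eq]
  ring

lemma hw_diff {ι Γ : Type} [Fintype ι] [Fintype Γ] [DecidableEq Γ] {U : Set ℂ}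
    {G0 G1 : ℂ → Matrix ι ι ℂ} (h0 : GPH.HolM U G0) (h1 : GPH.HolM U G1)
    (F : Γ → Matrix ι ι ℂ) (c : ι → ℂ) (f : Γ → ι) :
    DifferentiableOn ℂ (fun t => hw (G0 t) (G1 t) F c f t) U := by
  unfold hw
  refine DifferentiableOn.fun_sum fun σ _ => DifferentiableOn.fun_sum fun S _ => ?_
  refine DifferentiableOn.mul (ev_diff _).differentiableOn (DifferentiableOn.mul ?_ ?_)
  · exact DifferentiableOn.fun_finsetProd fun γ _ =>
      diff_mulVec c (diff_mul_const (F γ) (diff_mul_const (F σ) h1)) (f γ)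
  · exact DifferentiableOn.fun_finsetProd fun γ _ =>
      diff_mulVec c (diff_mul_const (F γ) (diff_mul_const (F σ) h0)) (f γ)

end INB_

open INB_ in
theorem inb_proof (hGeoC : GPH.Stmt_GeoC) (hExt : GPH.Stmt_Ext) : Stmt_Inb := by
  intro ι Γ _ _ _ _ q T b0 hG L hL Ψ hΨ Pj hloc F hF c
  obtain ⟨hopen, hbCut, hstar, hoff⟩ := hGeoC q T b0 hG.1
  have hLt : GPH.HolM (GPH.Off T) (Lt (Γ := Γ) L) := by
    intro f g
    have : (fun z => Lt (Γ := Γ) L z f g) = fun z => ∑ γ : Γ,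
        if (∀ γ', γ' ≠ γ → f γ' = g γ') then L z (f γ) (g γ) else 0 := rfl
    rw [this]
    refine DifferentiableOn.fun_sum fun γ _ => ?_
    by_cases h : ∀ γ', γ' ≠ γ → f γ' = g γ'
    · simp only [if_pos h]
      exact hL _ _
    · simp only [if_neg h]
      exact differentiableOn_const _
  refine hExt q T b0 hG (Γ → ι) (Lt (Γ := Γ) L) hLt (yT Ψ F c) (yT_sol hΨ F c) fun j => ?_
  obtain ⟨r, G0, G1, hr, hG0, hG1, hP, hE⟩ := hloc j
  obtain ⟨π, hπ⟩ := hF j
  have hdi : T j - b0 ≠ 0 := sub_ne_zero.mpr (hG.1 j)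
  have hdn : 0 < ‖T j - b0‖ := norm_pos_iff.mpr hdi
  have hmap : ∀ s ∈ ball (T j) (r * ‖T j - b0‖), (s - T j) / (T j - b0) ∈ ball (0 : ℂ) r := by
    intro s hs
    rw [mem_ball_zero_iff, norm_div, div_lt_iff₀ hdn]
    rwa [mem_ball, dist_eq_norm] at hs
  refine ⟨r * ‖T j - b0‖, fun s f => hw (G0 ((s - T j) / (T j - b0)))
    (G1 ((s - T j) / (T j - b0))) F c f ((s - T j) / (T j - b0)), mul_pos hr hdn, ?_, ?_⟩
  · intro f
    have h2 : DifferentiableOn ℂ (fun s : ℂ => (s - T j) / (T j - b0))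
        (ball (T j) (r * ‖T j - b0‖)) :=
      (differentiableOn_id.sub (differentiableOn_const _)).div_const _
    exact (hw_diff hG0 hG1 F c f).comp h2 hmap
  · intro s hs hsC
    set t := (s - T j) / (T j - b0) with ht
    have hst : s = T j + t * (T j - b0) := by
      rw [ht, div_mul_cancel₀ _ hdi]
      ring
    have htu : ∀ u : ℝ, 0 ≤ u → t ≠ u := by
      intro u hu htu
      refine hsC j (1 + u) (by linarith) ?_
      rw [hst, htu]
      push_cast
      ring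
    have ht0 : t ≠ 0 := by
      have := htu 0 le_rfl
      simpa using this
    have hloc1 := (hE t (hmap s hs) htu).2
    rw [← hst] at hloc1
    have hPt := hP t (hmap s hs)
    funext f
    have h5 := pw_eq_hw (G0 t) (G1 t) (Pj j) hPt.1 hPt.2 F π hπ c f
      (Complex.exp (GPH.plog t / 2))
    rw [exp_half_sq ht0] at h5
    show hw (G0 t) (G1 t) F c f t = yT Ψ F c s f
    rw [← h5, yT, pw, hloc1]

end

end Pool.Agent.EVD
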