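import Pool.Agent.EVD.Stmts

set_option autoImplicit false

open scoped BigOperators Topology
open Metric Set

namespace Pool.Agent.EVD

namespace INO_

lemma exists_avoid {ι Γ : Type} [Fintype ι] [Finite Γ] (φ : Γ → (ι → ℂ) →ₗ[ℂ] ℂ)
    (h : ∀ γ, φ γ ≠ 0) : ∃ c : ι → ℂ, ∀ γ, φ γ c ≠ 0 := by
  by_contra hcon
  push Not at hcon
  have h1 : ⋃ γ, ((LinearMap.ker (φ γ) : Submodule ℂ (ι → ℂ)) : Set (ι → ℂ)) = Set.univ := by
    rw [Set.eq_univ_iff_forall]
    intro c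
    obtain ⟨γ, hγ⟩ := hcon c
    exact Set.mem_iUnion.2 ⟨γ, hγ⟩
  obtain ⟨γ, hγ⟩ := Subspace.exists_eq_top_of_iUnion_eq_univ h1
  exact h γ (LinearMap.ker_eq_top.1 hγ)

lemma row_ne {ι : Type} [Fintype ι] [DecidableEq ι] (M : Matrix ι ι ℂ) (h : M.det ≠ 0) (i : ι) :
    ((LinearMap.proj i : (ι → ℂ) →ₗ[ℂ] ℂ) ∘ₗ M.mulVecLin) ≠ 0 := by
  intro h0
  have h1 : ∀ c : ι → ℂ, (M.mulVec c) i = 0 := fun c => by
    have := LinearMap.congr_fun h0 c
    simpa using this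
  have h2 := h1 (M⁻¹.mulVec (Pi.single i 1))
  rw [Matrix.mulVec_mulVec, Matrix.mul_nonsing_inv _ (isUnit_iff_ne_zero.2 h), Matrix.one_mulVec,
    Pi.single_eq_same] at h2
  exact one_ne_zero h2

lemma pr_proj {ι : Type} [Fintype ι] (Q : Matrix ι ι ℂ) (v : ι → ℂ)
    (h : v = 0 ∨ dotProduct v (Q.mulVec v) = 1) : pr Q v * pr Q v = pr Q v := by
  unfold pr
  rw [Matrix.vecMulVec_mul_vecMulVec]
  rcases h with rfl | h
  · ext i j
    simp [Matrix.vecMulVec_apply]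
  · rw [dotProduct_comm, h]
    simp

lemma refl_sq {ι : Type} [Fintype ι] [DecidableEq ι] (P : Matrix ι ι ℂ) (h : P * P = P) :
    (1 - (2 : ℂ) • P) * (1 - (2 : ℂ) • P) = 1 := by
  rw [sub_mul, mul_sub, mul_sub, one_mul, mul_one, one_mul, smul_mul_smul_comm, h]
  module

lemma growth_zero (g : ℂ → ℂ) (hg : Differentiable ℂ g) (C r₀ a : ℝ) (ha : a < 0)
    (h : ∀ z : ℂ, r₀ ≤ ‖z‖ → ‖g z‖ ≤ C * ‖z‖ ^ a) (z : ℂ) : g z = 0 := by
  apply hg.apply_eq_of_tendsto_cocompact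
  rw [tendsto_zero_iff_norm_tendsto_zero]
  have h1 : Filter.Tendsto (fun z : ℂ => C * ‖z‖ ^ a) (Filter.cocompact ℂ) (𝓝 0) := by
    have h2 : Filter.Tendsto (fun x : ℝ => C * x ^ a) Filter.atTop (𝓝 0) := by
      have := (tendsto_rpow_neg_atTop (y := -a) (by linarith)).const_mul C
      simpa using this
    exact h2.comp (tendsto_norm_cocompact_atTop)
  refine squeeze_zero' (Filter.Eventually.of_forall fun z => norm_nonneg _) ?_ h1
  have h3 := (tendsto_norm_cocompact_atTop (E := ℂ)).eventually (Filter.eventually_ge_atTop r₀)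
  filter_upwards [h3] with z hz
  exact h z hz

end INO_

open INO_

theorem ino_proof (hGau : Stmt_Gau) (hInb : Stmt_Inb) (hGrl : Stmt_Grl) (_hFno : Stmt_Fno)
    (hGeoC : GPH.Stmt_GeoC) : Stmt_Ino := by
  classical
  intro ι _ _ κ A B U b i₀ hO e r q T x hS b0 hgen Φ hΦ v hv hloc hfin
  set N := No (cm A) (cm U) e r b0 with hN
  set Pj : Fin q → Matrix ι ι ℂ := fun j => pr N (v j) with hPj
  have hproj : ∀ j, Pj j * Pj j = Pj j := fun j => pr_proj N (v j) (hv j)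
  obtain ⟨Ψ, hΨ1, hΨ2, hΨ3⟩ := hGau ι κ A B U b i₀ hO e r q T x hS b0 hgen Φ hΦ Pj hproj hloc
  set S : Set (Matrix ι ι ℂ) := {M : Matrix ι ι ℂ | ∃ j : Fin q, M = 1 - (2 : ℂ) • pr N (v j)}
    with hSdef
  set G : Submonoid (Matrix ι ι ℂ) := Submonoid.closure S with hG
  have hGfin : Finite G := hfin
  let _ : Fintype G := Fintype.ofFinite G
  -- elements of `G` are invertible
  have hunit : ∀ g ∈ G, IsUnit g := by
    intro g hg
    induction hg using Submonoid.closure_induction with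
    | mem g hg =>
      obtain ⟨j, rfl⟩ := hg
      exact IsUnit.of_mul_eq_one _ (refl_sq (Pj j) (hproj j))
    | one => exact isUnit_one
    | mul a b _ _ ha hb => exact ha.mul hb
  have hdet : ∀ g ∈ G, g.det ≠ 0 := by
    intro g hg
    have := (Matrix.isUnit_iff_isUnit_det g).1 (hunit g hg)
    exact this.ne_zero
  have hleft : ∀ σ : G, Function.Bijective (fun γ : G => σ * γ) := by
    intro σ
    rw [Finite.injective_iff_bijective.symm]
    intro a b' hab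
    have h1 : (σ : Matrix ι ι ℂ) * a = (σ : Matrix ι ι ℂ) * b' := congrArg Subtype.val hab
    exact Subtype.ext ((hunit σ σ.2).mul_left_cancel h1)
  let F : G → Matrix ι ι ℂ := fun γ => γ
  have hperm : ∀ j, ∃ π : Equiv.Perm G, ∀ γ, (1 - (2 : ℂ) • Pj j) * F γ = F (π γ) := by
    intro j
    let s : G := ⟨1 - (2 : ℂ) • pr N (v j), Submonoid.subset_closure ⟨j, rfl⟩⟩
    exact ⟨Equiv.ofBijective _ (hleft s), fun γ => rfl⟩
  have hholL : GPH.HolM (GPH.Off T) (FB T (Ro (cm U) (cm (Eo 1 B)) x)) := by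
    intro k l
    have h1 : (fun z => FB T (Ro (cm U) (cm (Eo 1 B)) x) z k l) =
        fun z => ∑ j, (z - T j)⁻¹ * Ro (cm U) (cm (Eo 1 B)) x j k l := by
      funext z
      unfold FB
      rw [Matrix.sum_apply]
      rfl
    rw [h1]
    intro z hz
    apply DifferentiableAt.differentiableWithinAt
    apply DifferentiableAt.fun_sum
    intro j _
    apply DifferentiableAt.mul_const
    apply DifferentiableAt.inv
    · exact differentiableAt_id.sub_const _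
    · exact sub_ne_zero.2 (hz j)
  -- the base point
  have hb0 : b0 ∈ GPH.Cut b0 T := (hGeoC q T b0 hgen.1).2.1
  obtain ⟨c, hc⟩ := exists_avoid (fun γ : G => ((LinearMap.proj i₀ : (ι → ℂ) →ₗ[ℂ] ℂ) ∘ₗ
    (Ψ b0 * (γ : Matrix ι ι ℂ)).mulVecLin)) (fun γ => row_ne _ (by
      rw [Matrix.det_mul]
      exact mul_ne_zero (hΨ2 b0 hb0) (hdet γ γ.2)) i₀)
  obtain ⟨Y, hY1, hY2, hY3⟩ := hInb ι G q T b0 hgen _ hholL Ψ hΨ1 Pj hΨ3 F hperm c
  obtain ⟨C, r₀, hgr⟩ := hGrl ι G κ A B U b i₀ hO e r q T x hS Y hY1 hY3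
  let f0 : G → ι := fun _ => i₀
  have hexp : (∑ γ : G, ((b (f0 γ) : ℝ) - 1)) < 0 := by
    have h1 : (∑ γ : G, ((b (f0 γ) : ℝ) - 1)) = (Fintype.card G : ℝ) * ((b i₀ : ℝ) - 1) := by
      show (∑ _γ : G, ((b i₀ : ℝ) - 1)) = _
      rw [Finset.sum_const, Finset.card_univ, nsmul_eq_mul]
    rw [h1]
    have h2 : (0 : ℝ) < Fintype.card G := by exact_mod_cast Fintype.card_pos
    have h3 : ((b i₀ : ℝ) - 1) < 0 := by
      have : ((b i₀ : ℚ) : ℝ) < ((1 : ℚ) : ℝ) := by exact_mod_cast hO.b0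
      push_cast at this
      linarith
    exact mul_neg_of_pos_of_neg h2 h3
  have hzero : Y b0 f0 = 0 :=
    growth_zero (fun z => Y z f0) (hY1 f0) C r₀ _ hexp (fun z hz => hgr z hz f0) b0
  have hval : Y b0 f0 = (Fintype.card G : ℂ) * ∏ γ : G, ((Ψ b0 * (γ : Matrix ι ι ℂ)).mulVec c i₀) := by
    rw [hY2 b0 hb0]
    show ∑ σ : G, ∏ γ : G, (Ψ b0 * (σ : Matrix ι ι ℂ) * (γ : Matrix ι ι ℂ)).mulVec c i₀ = _
    have h1 : ∀ σ : G, ∏ γ : G, (Ψ b0 * (σ : Matrix ι ι ℂ) * (γ : Matrix ι ι ℂ)).mulVec c i₀ =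
        ∏ γ : G, ((Ψ b0 * (γ : Matrix ι ι ℂ)).mulVec c i₀) := by
      intro σ
      refine Fintype.prod_bijective (fun γ : G => σ * γ) (hleft σ) _ _ ?_
      intro γ
      show _ = (Ψ b0 * ((σ : Matrix ι ι ℂ) * (γ : Matrix ι ι ℂ))).mulVec c i₀
      rw [mul_assoc]
    rw [Finset.sum_congr rfl (fun σ _ => h1 σ), Finset.sum_const, Finset.card_univ, nsmul_eq_mul]
  rw [hval] at hzero
  rcases mul_eq_zero.1 hzero with h1 | h1
  · have : (Fintype.card G : ℂ) ≠ 0 := by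
      exact_mod_cast Fintype.card_ne_zero
    exact this h1
  · rw [Finset.prod_eq_zero_iff] at h1
    obtain ⟨γ, _, hγ⟩ := h1
    exact hc γ hγ

end Pool.Agent.EVD
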