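import Pool.Agent.EVD.Stmts

set_option autoImplicit false

open scoped BigOperators

namespace Pool.Agent.EVD

namespace INV_

lemma conv_identity {ι : Type} [Fintype ι] [DecidableEq ι] (E A U Bd : Matrix ι ι ℚ)
    (Z Zt W Wt V Vt : ℕ → Matrix ι ι ℚ)
    (hW : ∀ p, W p = (p : ℚ) • Z p + Z p * Bd)
    (hWt : ∀ p, Wt p = (p : ℚ) • Zt p + Bd * Zt p)
    (hV0 : V 0 = 0) (hVt0 : Vt 0 = 0) (hV : ∀ p, V (p + 1) = W p) (hVt : ∀ p, Vt (p + 1) = Wt p)
    (hE : ∀ p, E * Z p = -W p - A * V p)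
    (hEt : ∀ p, Zt p * E.transpose = -Wt p - Vt p * A.transpose)
    (hUA : U * A = A.transpose * U) (hUE : U * E + E.transpose * U = -U) (m : ℕ) :
    ((m : ℚ) + 1) • (∑ p ∈ Finset.HasAntidiagonal.antidiagonal (m + 1), Zt p.1 * U * Z p.2 +
        ∑ p ∈ Finset.HasAntidiagonal.antidiagonal m, Zt p.1 * (U * A) * Z p.2) +
      Bd * (∑ p ∈ Finset.HasAntidiagonal.antidiagonal (m + 1), Zt p.1 * U * Z p.2 +
        ∑ p ∈ Finset.HasAntidiagonal.antidiagonal m, Zt p.1 * (U * A) * Z p.2) +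
      (∑ p ∈ Finset.HasAntidiagonal.antidiagonal (m + 1), Zt p.1 * U * Z p.2 +
        ∑ p ∈ Finset.HasAntidiagonal.antidiagonal m, Zt p.1 * (U * A) * Z p.2) * Bd =
    ∑ p ∈ Finset.HasAntidiagonal.antidiagonal (m + 1), Zt p.1 * U * Z p.2 +
        ∑ p ∈ Finset.HasAntidiagonal.antidiagonal m, Zt p.1 * (U * A) * Z p.2 := by
  have e1 : ∀ p ∈ Finset.HasAntidiagonal.antidiagonal (m + 1),
      ((m : ℚ) + 1) • (Zt p.1 * U * Z p.2) + Bd * (Zt p.1 * U * Z p.2) +
        (Zt p.1 * U * Z p.2) * Bd = Wt p.1 * U * Z p.2 + Zt p.1 * U * W p.2 := by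
    intro p hp
    rw [Finset.HasAntidiagonal.mem_antidiagonal] at hp
    have h1 : ((m : ℚ) + 1) = (p.1 : ℚ) + (p.2 : ℚ) := by exact_mod_cast hp.symm
    rw [h1, hW, hWt]
    simp only [add_smul, add_mul, mul_add, smul_mul_assoc, mul_smul_comm, mul_assoc]
    abel
  have e0 : ∀ p ∈ Finset.HasAntidiagonal.antidiagonal m,
      ((m : ℚ) + 1) • (Zt p.1 * (U * A) * Z p.2) + Bd * (Zt p.1 * (U * A) * Z p.2) +
        (Zt p.1 * (U * A) * Z p.2) * Bd = Wt p.1 * (U * A) * Z p.2 + Zt p.1 * (U * A) * W p.2 +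
        Zt p.1 * (U * A) * Z p.2 := by
    intro p hp
    rw [Finset.HasAntidiagonal.mem_antidiagonal] at hp
    have h1 : ((m : ℚ) + 1) = (p.1 : ℚ) + (p.2 : ℚ) + 1 := by
      have : (m : ℚ) = (p.1 : ℚ) + (p.2 : ℚ) := by exact_mod_cast hp.symm
      rw [this]
    rw [h1, hW, hWt]
    simp only [add_smul, add_mul, mul_add, smul_mul_assoc, mul_smul_comm, mul_assoc, one_smul]
    abel
  have f1 : ∑ p ∈ Finset.HasAntidiagonal.antidiagonal (m + 1), Wt p.1 * U * Z p.2 =
      -(∑ p ∈ Finset.HasAntidiagonal.antidiagonal (m + 1), Zt p.1 * (E.transpose * U) * Z p.2) -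
        ∑ p ∈ Finset.HasAntidiagonal.antidiagonal m, Wt p.1 * (U * A) * Z p.2 := by
    have g1 : ∀ p : ℕ × ℕ, Wt p.1 * U * Z p.2 = -(Zt p.1 * (E.transpose * U) * Z p.2) -
        Vt p.1 * (U * A) * Z p.2 := by
      intro p
      have : Wt p.1 = -(Zt p.1 * E.transpose) - Vt p.1 * A.transpose := by
        rw [hEt]
        abel
      rw [this, hUA]
      simp only [sub_mul, neg_mul, mul_assoc]
    rw [Finset.sum_congr rfl (fun p _ => g1 p), Finset.sum_sub_distrib, Finset.sum_neg_distrib]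
    congr 1
    rw [Finset.Nat.sum_antidiagonal_succ]
    simp only [hVt0, zero_mul, zero_add, hVt]
  have f2 : ∑ p ∈ Finset.HasAntidiagonal.antidiagonal (m + 1), Zt p.1 * U * W p.2 =
      -(∑ p ∈ Finset.HasAntidiagonal.antidiagonal (m + 1), Zt p.1 * (U * E) * Z p.2) -
        ∑ p ∈ Finset.HasAntidiagonal.antidiagonal m, Zt p.1 * (U * A) * W p.2 := by
    have g1 : ∀ p : ℕ × ℕ, Zt p.1 * U * W p.2 = -(Zt p.1 * (U * E) * Z p.2) -
        Zt p.1 * (U * A) * V p.2 := by
      intro p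
      have : W p.2 = -(E * Z p.2) - A * V p.2 := by
        rw [hE]
        abel
      rw [this]
      simp only [mul_sub, mul_neg, mul_assoc]
    rw [Finset.sum_congr rfl (fun p _ => g1 p), Finset.sum_sub_distrib, Finset.sum_neg_distrib]
    congr 1
    rw [Finset.Nat.sum_antidiagonal_succ']
    simp only [hV0, mul_zero, zero_add, hV]
  have f3 : ∑ p ∈ Finset.HasAntidiagonal.antidiagonal (m + 1), Zt p.1 * (E.transpose * U) * Z p.2 +
      ∑ p ∈ Finset.HasAntidiagonal.antidiagonal (m + 1), Zt p.1 * (U * E) * Z p.2 =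
      -∑ p ∈ Finset.HasAntidiagonal.antidiagonal (m + 1), Zt p.1 * U * Z p.2 := by
    rw [← Finset.sum_add_distrib, ← Finset.sum_neg_distrib]
    refine Finset.sum_congr rfl fun p _ => ?_
    rw [← add_mul, ← mul_add, add_comm, hUE, mul_neg, neg_mul]
  have k1 : ((m : ℚ) + 1) • (∑ p ∈ Finset.HasAntidiagonal.antidiagonal (m + 1), Zt p.1 * U * Z p.2) +
      Bd * (∑ p ∈ Finset.HasAntidiagonal.antidiagonal (m + 1), Zt p.1 * U * Z p.2) +
      (∑ p ∈ Finset.HasAntidiagonal.antidiagonal (m + 1), Zt p.1 * U * Z p.2) * Bd =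
      ∑ p ∈ Finset.HasAntidiagonal.antidiagonal (m + 1), Wt p.1 * U * Z p.2 +
      ∑ p ∈ Finset.HasAntidiagonal.antidiagonal (m + 1), Zt p.1 * U * W p.2 := by
    rw [Finset.smul_sum, Finset.mul_sum, Finset.sum_mul, ← Finset.sum_add_distrib,
      ← Finset.sum_add_distrib, ← Finset.sum_add_distrib]
    exact Finset.sum_congr rfl e1
  have k0 : ((m : ℚ) + 1) • (∑ p ∈ Finset.HasAntidiagonal.antidiagonal m, Zt p.1 * (U * A) * Z p.2) +
      Bd * (∑ p ∈ Finset.HasAntidiagonal.antidiagonal m, Zt p.1 * (U * A) * Z p.2) +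
      (∑ p ∈ Finset.HasAntidiagonal.antidiagonal m, Zt p.1 * (U * A) * Z p.2) * Bd =
      ∑ p ∈ Finset.HasAntidiagonal.antidiagonal m, Wt p.1 * (U * A) * Z p.2 +
      ∑ p ∈ Finset.HasAntidiagonal.antidiagonal m, Zt p.1 * (U * A) * W p.2 +
      ∑ p ∈ Finset.HasAntidiagonal.antidiagonal m, Zt p.1 * (U * A) * Z p.2 := by
    rw [Finset.smul_sum, Finset.mul_sum, Finset.sum_mul, ← Finset.sum_add_distrib,
      ← Finset.sum_add_distrib, ← Finset.sum_add_distrib, ← Finset.sum_add_distrib]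
    exact Finset.sum_congr rfl e0
  generalize (∑ p ∈ Finset.HasAntidiagonal.antidiagonal (m + 1), Zt p.1 * U * Z p.2) = S1 at *
  generalize (∑ p ∈ Finset.HasAntidiagonal.antidiagonal m, Zt p.1 * (U * A) * Z p.2) = S0 at *
  rw [smul_add, mul_add, add_mul]
  have : ((m : ℚ) + 1) • S1 + ((m : ℚ) + 1) • S0 + (Bd * S1 + Bd * S0) + (S1 * Bd + S0 * Bd) =
      (((m : ℚ) + 1) • S1 + Bd * S1 + S1 * Bd) + (((m : ℚ) + 1) • S0 + Bd * S0 + S0 * Bd) := by
    abel
  rw [this, k1, k0, f1, f2]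
  have f3' : ∑ p ∈ Finset.HasAntidiagonal.antidiagonal (m + 1), Zt p.1 * (E.transpose * U) * Z p.2 =
      -S1 - ∑ p ∈ Finset.HasAntidiagonal.antidiagonal (m + 1), Zt p.1 * (U * E) * Z p.2 := by
    rw [← f3]
    abel
  rw [f3']
  abel

end INV_

open INV_

theorem inv_proof (hZrc : Stmt_Zrc) : Stmt_Inv := by
  intro ι _ _ κ A B U b i₀ Em hO hF m
  obtain ⟨z0, z1⟩ := hZrc ι κ A B b Em hF
  rcases m with _ | m
  · have h0 : Zo κ b Em 0 = Em 0 := by
      unfold Zo poch
      simp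
    simp [h0]
  · rw [if_neg (Nat.succ_ne_zero m), if_neg (Nat.succ_ne_zero m), Nat.add_sub_cancel]
    set Z : ℕ → Matrix ι ι ℚ := fun p => Zo κ b Em p with hZ
    set Bd : Matrix ι ι ℚ := Matrix.diagonal fun i => (κ : ℚ) - b i with hBd
    let W : ℕ → Matrix ι ι ℚ := fun p => (p : ℚ) • Z p + Z p * Bd
    let Wt : ℕ → Matrix ι ι ℚ := fun p => (p : ℚ) • (Z p).transpose + Bd * (Z p).transpose
    let V : ℕ → Matrix ι ι ℚ := fun p => if p = 0 then 0 else W (p - 1)
    let Vt : ℕ → Matrix ι ι ℚ := fun p => if p = 0 then 0 else Wt (p - 1)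
    have hdiag : ∀ p : ℕ, (Matrix.diagonal fun i => (p : ℚ) + ((κ : ℚ) - b i) : Matrix ι ι ℚ) =
        (p : ℚ) • 1 + Bd := by
      intro p
      rw [hBd, ← Matrix.diagonal_one, ← Matrix.diagonal_smul, Matrix.diagonal_add]
      congr 1
      funext i
      simp
    have hE : ∀ p, Eo κ B * Z p = -W p - A * V p := by
      intro p
      rcases p with _ | p
      · show Eo κ B * Zo κ b Em 0 = _
        rw [z0]
        show _ = -(((0 : ℕ) : ℚ) • Z 0 + Z 0 * Bd) - A * 0
        simp [hZ]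
      · show Eo κ B * Zo κ b Em (p + 1) = _
        rw [z1 p]
        show _ = -(((p + 1 : ℕ) : ℚ) • Z (p + 1) + Z (p + 1) * Bd) - A * W p
        have h1 := hdiag (p + 1)
        push_cast at h1
        rw [h1, hdiag p]
        show _ = _ - A * ((p : ℚ) • Z p + Z p * Bd)
        push_cast
        simp only [hZ, mul_add, mul_smul_comm, mul_one, mul_assoc]
    have hBt : Bd.transpose = Bd := Matrix.diagonal_transpose _
    have hWW : ∀ p, Wt p = (W p).transpose := by
      intro p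
      show (p : ℚ) • (Z p).transpose + Bd * (Z p).transpose = ((p : ℚ) • Z p + Z p * Bd).transpose
      rw [Matrix.transpose_add, Matrix.transpose_smul, Matrix.transpose_mul, hBt]
    have hVV : ∀ p, Vt p = (V p).transpose := by
      intro p
      show (if p = 0 then 0 else Wt (p - 1)) = (if p = 0 then 0 else W (p - 1)).transpose
      split_ifs
      · simp
      · exact hWW _
    have hEt : ∀ p, (Z p).transpose * (Eo κ B).transpose = -Wt p - Vt p * A.transpose := by
      intro p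
      rw [hWW, hVV, ← Matrix.transpose_mul, ← Matrix.transpose_mul, hE, Matrix.transpose_sub,
        Matrix.transpose_neg]
    have hUE : U * Eo κ B + (Eo κ B).transpose * U = -U := by
      unfold Eo
      rw [Matrix.transpose_sub, Matrix.transpose_smul, Matrix.transpose_one, mul_sub, sub_mul,
        mul_smul_comm, mul_one, smul_mul_assoc, one_mul]
      have h2 := hO.UB
      have h3 : U * B - (κ : ℚ) • U + (B.transpose * U - (κ : ℚ) • U) =
          (U * B + B.transpose * U) - ((2 * (κ : ℚ)) • U) := by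
        rw [two_mul, add_smul]
        abel
      rw [h3, h2, ← sub_smul]
      push_cast
      rw [show (2 * (κ : ℚ) - 1 - 2 * (κ : ℚ)) = -1 by ring]
      simp
    have hid := conv_identity (Eo κ B) A U Bd Z (fun p => (Z p).transpose) W Wt V Vt
      (fun p => rfl) (fun p => rfl) rfl rfl (fun p => rfl) (fun p => rfl) hE hEt hO.UA hUE m
    set C : Matrix ι ι ℚ := ∑ p ∈ Finset.HasAntidiagonal.antidiagonal (m + 1), (Z p.1).transpose * U * Z p.2 +
        ∑ p ∈ Finset.HasAntidiagonal.antidiagonal m, (Z p.1).transpose * (U * A) * Z p.2 with hC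
    show C = 0
    ext i j
    have hij := congrFun (congrFun hid i) j
    have hij' : ((m : ℚ) + 1) * C i j + ((κ : ℚ) - b i) * C i j + C i j * ((κ : ℚ) - b j) =
        C i j := by
      have h4 : (((m : ℚ) + 1) • C + Bd * C + C * Bd) i j =
          ((m : ℚ) + 1) * C i j + ((κ : ℚ) - b i) * C i j + C i j * ((κ : ℚ) - b j) := by
        rw [Matrix.add_apply, Matrix.add_apply, Matrix.smul_apply, smul_eq_mul, hBd,
          Matrix.diagonal_mul, Matrix.mul_diagonal]
      rw [← h4]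
      exact hij
    obtain ⟨l, hl⟩ := hO.bsym i
    have h5 : ((m : ℚ) + 1 + b l - b j) * C i j = 0 := by
      have h6 : (m : ℚ) + 1 + b l - b j = (m : ℚ) + 1 + ((κ : ℚ) - b i) + ((κ : ℚ) - b j) - 1 := by
        linarith
      rw [h6]
      linarith
    have h7 : (m : ℚ) + 1 + b l - b j ≠ 0 := by
      by_cases hlj : l = j
      · subst hlj
        have : (0 : ℚ) ≤ m := Nat.cast_nonneg m
        intro h
        linarith
      · intro h
        apply hO.bdif l j hlj (-((m : ℤ) + 1))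
        push_cast
        linarith
    exact (mul_eq_zero.1 h5).resolve_left h7

end Pool.Agent.EVD
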