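import Pool.Agent.EVD.Stmts

set_option autoImplicit false

/-!
# EVD, module IOD: the differential equation in one variable
-/

open scoped BigOperators Topology
open Metric Set MeasureTheory

namespace Pool.Agent.EVD

noncomputable section

namespace IOD_

/-- The integrand. -/
def K (f : Polynomial ℚ) (l : ℕ) (h : Polynomial ℂ) (τ x : ℝ) : ℂ :=
  h.eval (zt f.natDegree ^ l * (x : ℂ)) * Complex.exp (-(τ : ℂ) * ray f l x)

/-- The integral over the half line number `l`. -/
def S (f : Polynomial ℚ) (l : ℕ) (h : Polynomial ℂ) (τ : ℝ) : ℂ :=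
  zt f.natDegree ^ l * ∫ x in Ioi (0 : ℝ), K f l h τ x

lemma norm_zt (p : ℕ) : ‖zt p‖ = 1 := by
  unfold zt
  have : (2 * Real.pi * Complex.I / p : ℂ) = ((2 * Real.pi / p : ℝ) : ℂ) * Complex.I := by
    push_cast; ring
  rw [this, Complex.norm_exp_ofReal_mul_I]

lemma norm_pt (p l : ℕ) (x : ℝ) (hx : 0 ≤ x) : ‖zt p ^ l * (x : ℂ)‖ = x := by
  rw [norm_mul, norm_pow, norm_zt, one_pow, one_mul, Complex.norm_real, Real.norm_of_nonneg hx]

lemma eval_bound (h : Polynomial ℂ) :
    ∃ C : ℝ, 0 ≤ C ∧ ∀ z : ℂ, ‖h.eval z‖ ≤ C * (1 + ‖z‖) ^ h.natDegree := by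
  refine ⟨∑ k ∈ Finset.range (h.natDegree + 1), ‖h.coeff k‖,
    Finset.sum_nonneg (fun _ _ => norm_nonneg _), fun z => ?_⟩
  rw [Polynomial.eval_eq_sum_range, Finset.sum_mul]
  refine (norm_sum_le _ _).trans (Finset.sum_le_sum fun k hk => ?_)
  rw [norm_mul, norm_pow]
  refine mul_le_mul_of_nonneg_left ?_ (norm_nonneg _)
  have hk' : k ≤ h.natDegree := Nat.lt_succ_iff.mp (Finset.mem_range.mp hk)
  calc ‖z‖ ^ k ≤ (1 + ‖z‖) ^ k :=
        pow_le_pow_left₀ (norm_nonneg _) (by linarith [norm_nonneg z]) k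
    _ ≤ (1 + ‖z‖) ^ h.natDegree := pow_le_pow_right₀ (by linarith [norm_nonneg z]) hk'

lemma K_bound (f : Polynomial ℚ) (δ : ℝ) (hδ : 0 < δ) (l : ℕ)
    (hray : ∀ x : ℝ, 0 ≤ x → δ * (1 + x) ≤ (ray f l x).re) (h : Polynomial ℂ) (τ₁ : ℝ)
    (hτ₁ : 0 < τ₁) :
    ∃ C β : ℝ, 0 < β ∧ ∀ τ : ℝ, τ₁ ≤ τ → ∀ x : ℝ, 0 ≤ x →
      ‖K f l h τ x‖ ≤ C * Real.exp (-β * x) := by
  obtain ⟨C0, hC0, hb⟩ := eval_bound h
  have hβ : 0 < τ₁ * δ / 2 := by positivity
  refine ⟨C0 * ((h.natDegree.factorial : ℝ) / (τ₁ * δ / 2) ^ h.natDegree), τ₁ * δ / 2, hβ, ?_⟩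
  intro τ hτ x hx
  set β := τ₁ * δ / 2 with hβd
  set N := h.natDegree with hN
  have h1 : ‖h.eval (zt f.natDegree ^ l * (x : ℂ))‖ ≤ C0 * (1 + x) ^ N := by
    have := hb (zt f.natDegree ^ l * (x : ℂ))
    rwa [norm_pt _ _ _ hx] at this
  have h2 : ‖Complex.exp (-(τ : ℂ) * ray f l x)‖ ≤ Real.exp (-(2 * β * (1 + x))) := by
    rw [Complex.norm_exp]
    apply Real.exp_le_exp.mpr
    have : (-(τ : ℂ) * ray f l x).re = -(τ * (ray f l x).re) := by
      simp [Complex.mul_re]
    rw [this]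
    have h3 := hray x hx
    have h4 : 0 < δ * (1 + x) := by positivity
    have h5 : τ₁ * (δ * (1 + x)) ≤ τ * (ray f l x).re :=
      mul_le_mul hτ h3 h4.le (hτ₁.le.trans hτ)
    have h6 : 2 * β * (1 + x) = τ₁ * (δ * (1 + x)) := by rw [hβd]; ring
    linarith
  have h7 : (1 + x) ^ N ≤ (N.factorial : ℝ) / β ^ N * Real.exp (β * (1 + x)) := by
    have h8 := Real.pow_div_factorial_le_exp (β * (1 + x)) (by positivity) N
    rw [mul_pow] at h8
    have h9 : 0 < β ^ N := by positivity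
    have h10 : (0 : ℝ) < N.factorial := by positivity
    rw [div_le_iff₀ h10] at h8
    rw [div_mul_eq_mul_div, le_div_iff₀ h9]
    linarith
  unfold K
  rw [norm_mul]
  calc ‖h.eval (zt f.natDegree ^ l * (x : ℂ))‖ * ‖Complex.exp (-(τ : ℂ) * ray f l x)‖
      ≤ (C0 * (1 + x) ^ N) * Real.exp (-(2 * β * (1 + x))) :=
        mul_le_mul h1 h2 (norm_nonneg _) (by positivity)
    _ ≤ (C0 * ((N.factorial : ℝ) / β ^ N * Real.exp (β * (1 + x)))) *
          Real.exp (-(2 * β * (1 + x))) := by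
        apply mul_le_mul_of_nonneg_right _ (Real.exp_pos _).le
        exact mul_le_mul_of_nonneg_left h7 hC0
    _ = C0 * ((N.factorial : ℝ) / β ^ N) * (Real.exp (β * (1 + x)) *
          Real.exp (-(2 * β * (1 + x)))) := by ring
    _ ≤ C0 * ((N.factorial : ℝ) / β ^ N) * Real.exp (-β * x) := by
        apply mul_le_mul_of_nonneg_left _ (by positivity)
        rw [← Real.exp_add]
        apply Real.exp_le_exp.mpr
        nlinarith

lemma cont_ray (f : Polynomial ℚ) (l : ℕ) : Continuous (fun x : ℝ => ray f l x) := by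
  unfold ray
  exact (Polynomial.continuous_aeval f).comp (continuous_const.mul Complex.continuous_ofReal)

lemma cont_K (f : Polynomial ℚ) (l : ℕ) (h : Polynomial ℂ) (τ : ℝ) :
    Continuous (fun x : ℝ => K f l h τ x) := by
  unfold K
  have h1 : Continuous (fun x : ℝ => h.eval (zt f.natDegree ^ l * (x : ℂ))) :=
    h.continuous.comp (continuous_const.mul Complex.continuous_ofReal)
  exact h1.mul (Complex.continuous_exp.comp (continuous_const.mul (cont_ray f l)))

lemma int_K (f : Polynomial ℚ) (δ : ℝ) (hδ : 0 < δ) (l : ℕ)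
    (hray : ∀ x : ℝ, 0 ≤ x → δ * (1 + x) ≤ (ray f l x).re) (h : Polynomial ℂ) (τ : ℝ)
    (hτ : 0 < τ) : IntegrableOn (fun x => K f l h τ x) (Ioi 0) := by
  obtain ⟨C, β, hβ, hb⟩ := K_bound f δ hδ l hray h τ hτ
  refine Integrable.mono' ((exp_neg_integrableOn_Ioi 0 hβ).const_mul C)
    (cont_K f l h τ).aestronglyMeasurable ?_
  filter_upwards [ae_restrict_mem measurableSet_Ioi] with x hx
  exact hb τ le_rfl x (mem_Ioi.mp hx).le

lemma S_add (f : Polynomial ℚ) (δ : ℝ) (hδ : 0 < δ) (l : ℕ)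
    (hray : ∀ x : ℝ, 0 ≤ x → δ * (1 + x) ≤ (ray f l x).re) (h g : Polynomial ℂ) (τ : ℝ)
    (hτ : 0 < τ) : S f l (h + g) τ = S f l h τ + S f l g τ := by
  unfold S
  rw [← mul_add, ← integral_add (int_K f δ hδ l hray h τ hτ) (int_K f δ hδ l hray g τ hτ)]
  congr 1
  apply integral_congr_ae
  filter_upwards with x
  unfold K
  rw [Polynomial.eval_add]
  ring

lemma S_C_mul (f : Polynomial ℚ) (l : ℕ) (c : ℂ) (h : Polynomial ℂ) (τ : ℝ) :
    S f l (Polynomial.C c * h) τ = c * S f l h τ := by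
  unfold S
  have : (∫ x in Ioi (0 : ℝ), K f l (Polynomial.C c * h) τ x) =
      c * ∫ x in Ioi (0 : ℝ), K f l h τ x := by
    rw [← integral_const_mul]
    apply integral_congr_ae
    filter_upwards with x
    unfold K
    rw [Polynomial.eval_mul, Polynomial.eval_C]
    ring
  rw [this]
  ring

lemma S_zero (f : Polynomial ℚ) (l : ℕ) (τ : ℝ) : S f l 0 τ = 0 := by
  unfold S K
  simp

lemma S_sum (f : Polynomial ℚ) (δ : ℝ) (hδ : 0 < δ) (l : ℕ)
    (hray : ∀ x : ℝ, 0 ≤ x → δ * (1 + x) ≤ (ray f l x).re) {ι : Type} (s : Finset ι)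
    (h : ι → Polynomial ℂ) (τ : ℝ) (hτ : 0 < τ) :
    S f l (∑ j ∈ s, h j) τ = ∑ j ∈ s, S f l (h j) τ := by
  classical
  induction s using Finset.induction_on with
  | empty => simp [S_zero]
  | insert a s ha ih =>
      rw [Finset.sum_insert ha, Finset.sum_insert ha, S_add f δ hδ l hray _ _ τ hτ, ih]

lemma S_X (f : Polynomial ℚ) (l i : ℕ) (τ : ℝ) :
    S f l (Polynomial.X ^ i) τ = J1 f i l τ := by
  unfold S J1 K
  have : (∫ x in Ioi (0 : ℝ), (Polynomial.X ^ i : Polynomial ℂ).eval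
      (zt f.natDegree ^ l * (x : ℂ)) * Complex.exp (-(τ : ℂ) * ray f l x)) =
      zt f.natDegree ^ (l * i) *
        ∫ x in Ioi (0 : ℝ), (x : ℂ) ^ i * Complex.exp (-(τ : ℂ) * ray f l x) := by
    rw [← integral_const_mul]
    apply integral_congr_ae
    filter_upwards with x
    rw [Polynomial.eval_pow, Polynomial.eval_X, mul_pow, ← pow_mul]
    ring
  rw [this, ← mul_assoc, ← pow_add]
  congr 2
  ring

/-- The derivative with respect to the parameter. -/
lemma S_deriv (f : Polynomial ℚ) (δ : ℝ) (hδ : 0 < δ) (l : ℕ)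
    (hray : ∀ x : ℝ, 0 ≤ x → δ * (1 + x) ≤ (ray f l x).re) (h : Polynomial ℂ) (τ : ℝ)
    (hτ : 0 < τ) : HasDerivAt (fun τ => S f l h τ)
      (-S f l (f.map (algebraMap ℚ ℂ) * h) τ) τ := by
  obtain ⟨C, β, hβ, hb⟩ := K_bound f δ hδ l hray (f.map (algebraMap ℚ ℂ) * h) (τ / 2)
    (by positivity)
  have hev : ∀ x : ℝ, (f.map (algebraMap ℚ ℂ)).eval (zt f.natDegree ^ l * (x : ℂ)) =
      ray f l x := by
    intro x
    rw [Polynomial.eval_map]
    rfl
  have key := hasDerivAt_integral_of_dominated_loc_of_deriv_le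
    (μ := volume.restrict (Ioi (0 : ℝ)))
    (F := fun (t : ℝ) (x : ℝ) => K f l h t x)
    (F' := fun (t : ℝ) (x : ℝ) => -K f l (f.map (algebraMap ℚ ℂ) * h) t x)
    (x₀ := τ) (s := Ioi (τ / 2)) (bound := fun x => C * Real.exp (-β * x))
    (Ioi_mem_nhds (by linarith))
    (by filter_upwards with t using (cont_K f l h t).aestronglyMeasurable)
    (int_K f δ hδ l hray h τ hτ)
    (cont_K f l _ τ).neg.aestronglyMeasurable
    (by
      filter_upwards [ae_restrict_mem measurableSet_Ioi] with x hx t ht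
      rw [norm_neg]
      exact hb t (mem_Ioi.mp ht).le x (mem_Ioi.mp hx).le)
    ((exp_neg_integrableOn_Ioi 0 hβ).const_mul C)
    (by
      filter_upwards with x t _
      unfold K
      have h1 : HasDerivAt (fun t : ℝ => (-(t : ℂ) * ray f l x)) (-(1 : ℂ) * ray f l x) t := by
        have h2 : HasDerivAt (fun t : ℝ => (t : ℂ)) (1 : ℂ) t := Complex.ofRealCLM.hasDerivAt
        exact h2.neg.mul_const _
      have h3 := (h1.cexp).const_mul (h.eval (zt f.natDegree ^ l * (x : ℂ)))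
      refine h3.congr_deriv ?_
      rw [Polynomial.eval_mul, hev]
      ring)
  have h4 := (key.2).const_mul (zt f.natDegree ^ l)
  unfold S
  refine h4.congr_deriv ?_
  rw [integral_neg]
  ring

/-- Integration by parts. -/
lemma S_parts (f : Polynomial ℚ) (δ : ℝ) (hδ : 0 < δ) (l : ℕ)
    (hray : ∀ x : ℝ, 0 ≤ x → δ * (1 + x) ≤ (ray f l x).re) (h : Polynomial ℂ) (τ : ℝ)
    (hτ : 0 < τ) :
    S f l (Polynomial.derivative h) τ =
      τ * S f l ((Polynomial.derivative f).map (algebraMap ℚ ℂ) * h) τ -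
        h.eval 0 * Complex.exp (-(τ : ℂ) * Polynomial.aeval (0 : ℂ) f) := by
  have hd : ∀ x : ℝ, HasDerivAt (fun x : ℝ => K f l h τ x)
      (zt f.natDegree ^ l * (K f l (Polynomial.derivative h) τ x -
        τ * K f l ((Polynomial.derivative f).map (algebraMap ℚ ℂ) * h) τ x)) x := by
    intro x
    unfold K ray
    have h0 : HasDerivAt (fun x : ℝ => zt f.natDegree ^ l * (x : ℂ))
        (zt f.natDegree ^ l * 1) x := by
      have h2 : HasDerivAt (fun t : ℝ => (t : ℂ)) (1 : ℂ) x := Complex.ofRealCLM.hasDerivAt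
      exact h2.const_mul _
    have h1 := (h.hasDerivAt (zt f.natDegree ^ l * (x : ℂ))).comp x h0
    have h2 := (f.hasDerivAt_aeval (zt f.natDegree ^ l * (x : ℂ))).comp x h0
    have h3 := (h2.const_mul (-(τ : ℂ))).cexp
    have h4 := h1.mul h3
    refine h4.congr_deriv ?_
    have h5 : ((Polynomial.derivative f).map (algebraMap ℚ ℂ) * h).eval
        (zt f.natDegree ^ l * (x : ℂ)) =
        Polynomial.aeval (zt f.natDegree ^ l * (x : ℂ)) (Polynomial.derivative f) *
          h.eval (zt f.natDegree ^ l * (x : ℂ)) := by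
      rw [Polynomial.eval_mul, Polynomial.eval_map]
      rfl
    rw [h5]
    simp only [Function.comp]
    ring
  obtain ⟨C, β, hβ, hb⟩ := K_bound f δ hδ l hray h τ hτ
  have hlim : Filter.Tendsto (fun x : ℝ => K f l h τ x) Filter.atTop (𝓝 0) := by
    apply squeeze_zero_norm' (a := fun x => C * Real.exp (-β * x))
    · filter_upwards [Filter.eventually_ge_atTop 0] with x hx
      exact hb τ le_rfl x hx
    · have h1 : Filter.Tendsto (fun x : ℝ => -β * x) Filter.atTop Filter.atBot := by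
        have := Filter.tendsto_id.const_mul_atTop hβ (l := (Filter.atTop : Filter ℝ))
        have h2 := Filter.tendsto_neg_atTop_atBot.comp this
        refine h2.congr (fun x => ?_)
        simp
      have h2 := (Real.tendsto_exp_atBot.comp h1).const_mul C
      simpa using h2
  have hint : IntegrableOn (fun x => zt f.natDegree ^ l *
      (K f l (Polynomial.derivative h) τ x -
        τ * K f l ((Polynomial.derivative f).map (algebraMap ℚ ℂ) * h) τ x)) (Ioi 0) := by
    refine Integrable.const_mul ?_ _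
    exact (int_K f δ hδ l hray _ τ hτ).sub ((int_K f δ hδ l hray _ τ hτ).const_mul _)
  have key := integral_Ioi_of_hasDerivAt_of_tendsto
    (f := fun x : ℝ => K f l h τ x) (a := 0)
    (cont_K f l h τ).continuousWithinAt (fun x _ => hd x) hint hlim
  rw [integral_const_mul, integral_sub (int_K f δ hδ l hray _ τ hτ)
    ((int_K f δ hδ l hray _ τ hτ).const_mul _), integral_const_mul] at key
  have h0 : K f l h τ 0 = h.eval 0 * Complex.exp (-(τ : ℂ) * Polynomial.aeval (0 : ℂ) f) := by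
    unfold K ray
    simp
  rw [h0] at key
  unfold S
  rw [mul_sub] at key
  linear_combination key

end IOD_

open IOD_ in
theorem iod_proof (hDIV : Stmt_Div) (hRAY : Stmt_Ray) : Stmt_Iod := by
  intro f hf h2 hr i a τ hτ
  obtain ⟨c, c₁, C, hc, hc₁, hC, hb⟩ := hRAY f hf h2 hr
  obtain ⟨δ, hδ, hray⟩ : ∃ δ : ℝ, 0 < δ ∧ ∀ (l : ℕ) (x : ℝ), 0 ≤ x →
      δ * (1 + x) ≤ (ray f l x).re := by
    refine ⟨min (c / 2) c₁, lt_min (by positivity) hc₁, fun l x hx => ?_⟩
    have h3 := (hb l x hx).1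
    have h4 : min (c / 2) c₁ ≤ c / 2 := min_le_left _ _
    have h5 : min (c / 2) c₁ ≤ c₁ := min_le_right _ _
    have h6 : 0 < min (c / 2) c₁ := lt_min (by positivity) hc₁
    have h7 : 0 ≤ c₁ * x ^ f.natDegree := by positivity
    rcases le_total x 1 with hx1 | hx1
    · nlinarith
    · have h8 : x ≤ x ^ f.natDegree := le_self_pow₀ hx1 (by omega)
      nlinarith [mul_le_mul_of_nonneg_left h8 hc₁.le, mul_le_mul_of_nonneg_right h5 hx]
  obtain ⟨q, -, hq, hq'⟩ := hDIV f hf h2 i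
  set φ := algebraMap ℚ ℂ with hφ
  have hq1 : f.map φ * Polynomial.X ^ (i : ℕ) =
      (Polynomial.derivative f).map φ * q.map φ +
        ∑ j : Fin (f.natDegree - 1), Polynomial.C (A1 f i j : ℂ) * Polynomial.X ^ (j : ℕ) := by
    have := congrArg (Polynomial.map φ) hq
    simp only [Polynomial.map_mul, Polynomial.map_add, Polynomial.map_pow, Polynomial.map_X,
      Polynomial.map_sum, Polynomial.map_C] at this
    rw [mul_comm (f.map φ), this, mul_comm (q.map φ)]
    rfl
  have hq2 : Polynomial.derivative (q.map φ) =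
      ∑ j : Fin (f.natDegree - 1), Polynomial.C (B1 f i j : ℂ) * Polynomial.X ^ (j : ℕ) := by
    have := congrArg (Polynomial.map φ) hq'
    simp only [Polynomial.map_mul, Polynomial.map_pow, Polynomial.map_X,
      Polynomial.map_sum, Polynomial.map_C] at this
    rw [Polynomial.derivative_map, this]
    rfl
  have hS : ∀ l : ℕ, HasDerivAt (fun τ => J1 f i l τ)
      (-(S f l ((Polynomial.derivative f).map φ * q.map φ) τ +
        ∑ j : Fin (f.natDegree - 1), (A1 f i j : ℂ) * J1 f j l τ)) τ := by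
    intro l
    have h3 := S_deriv f δ hδ l (hray l) (Polynomial.X ^ (i : ℕ)) τ hτ
    have h4 : (fun τ => S f l (Polynomial.X ^ (i : ℕ)) τ) = fun τ => J1 f i l τ := by
      funext τ
      exact S_X f l i τ
    rw [h4, hq1, S_add f δ hδ l (hray l) _ _ τ hτ, S_sum f δ hδ l (hray l) _ _ τ hτ] at h3
    refine h3.congr_deriv ?_
    congr 2
    refine Finset.sum_congr rfl fun j _ => ?_
    rw [S_C_mul, S_X]
  have hP : ∀ l : ℕ, (τ : ℂ) * S f l ((Polynomial.derivative f).map φ * q.map φ) τ =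
      (∑ j : Fin (f.natDegree - 1), (B1 f i j : ℂ) * J1 f j l τ) +
        (q.map φ).eval 0 * Complex.exp (-(τ : ℂ) * Polynomial.aeval (0 : ℂ) f) := by
    intro l
    have h3 := S_parts f δ hδ l (hray l) (q.map φ) τ hτ
    rw [hq2, S_sum f δ hδ l (hray l) _ _ τ hτ] at h3
    have h4 : ∑ j : Fin (f.natDegree - 1), S f l (Polynomial.C (B1 f i j : ℂ) *
        Polynomial.X ^ (j : ℕ)) τ = ∑ j : Fin (f.natDegree - 1), (B1 f i j : ℂ) * J1 f j l τ := by
      refine Finset.sum_congr rfl fun j _ => ?_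
      rw [S_C_mul, S_X]
    rw [h4] at h3
    linear_combination -h3
  refine ((hS (a + 1)).sub (hS a)).congr_deriv ?_
  have hτ' : (τ : ℂ) ≠ 0 := by exact_mod_cast hτ.ne'
  have h5 : S f (a + 1) ((Polynomial.derivative f).map φ * q.map φ) τ -
      S f a ((Polynomial.derivative f).map φ * q.map φ) τ =
      ∑ j : Fin (f.natDegree - 1), (B1 f i j : ℂ) / τ * (J1 f j (a + 1) τ - J1 f j a τ) := by
    have h6 : (τ : ℂ) * (S f (a + 1) ((Polynomial.derivative f).map φ * q.map φ) τ -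
        S f a ((Polynomial.derivative f).map φ * q.map φ) τ) =
        (∑ j : Fin (f.natDegree - 1), (B1 f i j : ℂ) * J1 f j (a + 1) τ) -
          ∑ j : Fin (f.natDegree - 1), (B1 f i j : ℂ) * J1 f j a τ := by
      rw [mul_sub, hP, hP]
      ring
    have h7 : (τ : ℂ) * ∑ j : Fin (f.natDegree - 1),
        (B1 f i j : ℂ) / τ * (J1 f j (a + 1) τ - J1 f j a τ) =
        (∑ j : Fin (f.natDegree - 1), (B1 f i j : ℂ) * J1 f j (a + 1) τ) -
          ∑ j : Fin (f.natDegree - 1), (B1 f i j : ℂ) * J1 f j a τ := by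
      rw [Finset.mul_sum, ← Finset.sum_sub_distrib]
      refine Finset.sum_congr rfl fun j _ => ?_
      field_simp
    exact mul_left_cancel₀ hτ' (h6.trans h7.symm)
  have h8 : ∑ j : Fin (f.natDegree - 1), ((A1 f i j : ℂ) + (B1 f i j : ℂ) / τ) *
      (J1 f j (a + 1) τ - J1 f j a τ) =
      (∑ j : Fin (f.natDegree - 1), (A1 f i j : ℂ) * J1 f j (a + 1) τ) -
        (∑ j : Fin (f.natDegree - 1), (A1 f i j : ℂ) * J1 f j a τ) +
      ∑ j : Fin (f.natDegree - 1), (B1 f i j : ℂ) / τ * (J1 f j (a + 1) τ - J1 f j a τ) := by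
    rw [← Finset.sum_sub_distrib, ← Finset.sum_add_distrib]
    refine Finset.sum_congr rfl fun j _ => ?_
    ring
  rw [h8, ← h5]
  ring

end

end Pool.Agent.EVD
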