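import Pool.Agent.EVD.RPX

set_option autoImplicit false

/-!
# EVD: module IRX
-/

open scoped BigOperators
open MvPolynomial

namespace Pool.Agent.EVD

open RPX_

theorem irx_proof (hP : Stmt_Par) : Stmt_Irx := by
  intro r ι _ _ _ Q hQ P1 P2 lam M h1 h2
  have hae : ∀ {τ : Type} (v : τ → ℂ) (p : MvPolynomial τ ℂ), aeval v p = eval v p :=
    fun v p => RingHom.congr_fun (coe_aeval_eq_eval v) p
  have hQm : ∀ k, (Q k).map (algebraMap ℂ ℂ) = Q k := fun k => by
    ext i j; simp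
  -- the rational functions
  have hrat : ∀ P : MvPolynomial (Option (Σ k, ι k × ι k)) ℂ,
      Rt (DP Q (fun p : PV ι => p)) (fun u : PV ι → ℂ =>
        aeval (pt lam (fun k => M k * gp (Q k) (fun i x => u ⟨k, i, x⟩))) P) := by
    intro P
    have hf : ∀ t : Option (Σ k, ι k × ι k), Rt (DP Q (fun p : PV ι => p))
        (fun u : PV ι → ℂ =>
          pt lam (fun k => M k * gp (Q k) (fun i x => u ⟨k, i, x⟩)) t) := by
      rintro (_ | ⟨k, i, j⟩)
      · simpa [pt] using Rt.const (D := DP Q (fun p : PV ι => p)) lam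
      · have h := RM.mul (RM.const (D := DP Q (fun p : PV ι => p)) (M k))
          (RM_gp Q (fun p : PV ι => p) k) i j
        have hMm : (M k).map (algebraMap ℂ ℂ) = M k := by ext i j; simp
        simpa [pt, hQm, hMm] using h
    exact Rt.comp hf P
  -- nonvanishing
  have hnz : ∀ P : MvPolynomial (Option (Σ k, ι k × ι k)) ℂ,
      (∃ g : ∀ k, Matrix (ι k) (ι k) ℂ, (∀ k, Iso (Q k) (g k) ∧ (g k).det = 1) ∧
        eval (pt lam (fun k => M k * g k)) P ≠ 0) →
      ∃ p : MvPolynomial (PV ι) ℂ, p ≠ 0 ∧ ∀ u : PV ι → ℂ, eval u p ≠ 0 →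
        (∀ k i, nr (Q k) (fun x => u ⟨k, i, x⟩) ≠ 0) ∧
        eval (pt lam (fun k => M k * gp (Q k) (fun i x => u ⟨k, i, x⟩))) P ≠ 0 := by
    rintro P ⟨g, hg, hPg⟩
    obtain ⟨N, p, hp⟩ := hrat P
    obtain ⟨u, hu1, hu2⟩ := par' hP Q hQ g hg
    have hD : ∀ u : PV ι → ℂ, aeval u (DP Q (fun p : PV ι => p)) ≠ 0 ↔
        ∀ k i, nr (Q k) (fun x => u ⟨k, i, x⟩) ≠ 0 := by
      intro u
      rw [aeval_DP_ne]
      simp only [hQm]
    refine ⟨p * DP Q (fun p : PV ι => p), ?_, ?_⟩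
    · intro h0
      have h3 := congrArg (aeval u) h0
      rw [map_mul, map_zero, ← hp u ((hD u).2 hu1)] at h3
      have h4 : aeval (pt lam (fun k => M k * gp (Q k) (fun i x => u ⟨k, i, x⟩))) P ≠ 0 := by
        have h5 : (fun k => M k * gp (Q k) (fun i x => u ⟨k, i, x⟩)) = fun k => M k * g k := by
          funext k
          rw [hu2 k]
        rw [h5, hae]
        exact hPg
      exact (mul_ne_zero (mul_ne_zero (pow_ne_zero _ ((hD u).2 hu1)) h4)
        ((hD u).2 hu1)) h3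
    · intro v hv
      rw [map_mul] at hv
      have hv1 : aeval v (DP Q (fun p : PV ι => p)) ≠ 0 := by
        rw [hae]
        exact right_ne_zero_of_mul hv
      refine ⟨(hD v).1 hv1, ?_⟩
      have hv2 : aeval v p ≠ 0 := by
        rw [hae]
        exact left_ne_zero_of_mul hv
      rw [← hp v hv1] at hv2
      have h6 := right_ne_zero_of_mul hv2
      simp only [hae] at h6
      exact h6
  obtain ⟨p1, hp1, h1'⟩ := hnz P1 h1
  obtain ⟨p2, hp2, h2'⟩ := hnz P2 h2
  have hne : p1 * p2 ≠ 0 := mul_ne_zero hp1 hp2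
  obtain ⟨u, hu⟩ : ∃ u : PV ι → ℂ, eval u (p1 * p2) ≠ 0 := by
    by_contra hcon
    push Not at hcon
    exact hne (MvPolynomial.funext (fun u => by rw [hcon u, map_zero]))
  rw [map_mul] at hu
  have ha := h1' u (left_ne_zero_of_mul hu)
  have hb := h2' u (right_ne_zero_of_mul hu)
  exact ⟨fun k => gp (Q k) (fun i x => u ⟨k, i, x⟩),
    fun k => gp_ok (Q k) (hQ k).1 _ (ha.1 k), ha.2, hb.2⟩

end Pool.Agent.EVD
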