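import Pool.Agent.EVD.Stmts

set_option autoImplicit false

open scoped BigOperators Topology
open Metric Set MeasureTheory

namespace Pool.Agent.EVD

namespace JBD_

theorem zt_pow (p : ℕ) (hp : p ≠ 0) : zt p ^ p = 1 := by
  unfold zt
  rw [← Complex.exp_nat_mul]
  have : (p : ℂ) * (2 * Real.pi * Complex.I / p) = 2 * Real.pi * Complex.I := by
    have hp' : (p : ℂ) ≠ 0 := by exact_mod_cast hp
    field_simp
  rw [this, Complex.exp_two_pi_mul_I]

theorem norm_zt (p : ℕ) (hp : p ≠ 0) : ‖zt p‖ = 1 := by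
  have h := zt_pow p hp
  have h2 : ‖zt p‖ ^ p = 1 := by rw [← norm_pow, h, norm_one]
  exact (pow_eq_one_iff_of_nonneg (norm_nonneg _) hp).1 h2

theorem cont_ray (f : Polynomial ℚ) (l : ℕ) : Continuous (ray f l) := by
  unfold ray
  have h1 : Continuous fun z : ℂ => Polynomial.aeval z f := f.continuous_aeval
  exact h1.comp (continuous_const.mul Complex.continuous_ofReal)

theorem cont_integrand (f : Polynomial ℚ) (i l : ℕ) (τ : ℝ) :
    Continuous (fun x : ℝ => (x : ℂ) ^ i * Complex.exp (-(τ : ℂ) * ray f l x)) := by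
  have h := cont_ray f l
  fun_prop

theorem norm_integrand (f : Polynomial ℚ) (i l : ℕ) (τ x : ℝ) (hx : 0 ≤ x) :
    ‖(x : ℂ) ^ i * Complex.exp (-(τ : ℂ) * ray f l x)‖ =
      x ^ i * Real.exp (-(τ * (ray f l x).re)) := by
  rw [norm_mul, norm_pow, Complex.norm_real, Real.norm_of_nonneg hx, Complex.norm_exp]
  congr 2
  rw [Complex.mul_re]; simp

theorem dominated (f : Polynomial ℚ) (i l : ℕ) (τ x c c₁ : ℝ) (hτ : 0 < τ) (hx : 0 ≤ x)
    (h : c + c₁ * x ^ f.natDegree ≤ (ray f l x).re) :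
    ‖(x : ℂ) ^ i * Complex.exp (-(τ : ℂ) * ray f l x)‖ ≤
      Real.exp (-(c * τ)) * (x ^ (i : ℝ) * Real.exp (-(c₁ * τ) * x ^ (f.natDegree : ℝ))) := by
  rw [norm_integrand f i l τ x hx, Real.rpow_natCast, Real.rpow_natCast]
  have h1 : Real.exp (-(τ * (ray f l x).re)) ≤
      Real.exp (-(c * τ)) * Real.exp (-(c₁ * τ) * x ^ f.natDegree) := by
    rw [← Real.exp_add]
    apply Real.exp_le_exp.2
    have := mul_le_mul_of_nonneg_left h hτ.le
    nlinarith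
  calc x ^ i * Real.exp (-(τ * (ray f l x).re))
      ≤ x ^ i * (Real.exp (-(c * τ)) * Real.exp (-(c₁ * τ) * x ^ f.natDegree)) :=
        mul_le_mul_of_nonneg_left h1 (pow_nonneg hx _)
    _ = _ := by ring

theorem integrable_bound (i p : ℕ) (hp : 1 ≤ p) (b : ℝ) (hb : 0 < b) :
    IntegrableOn (fun x : ℝ => x ^ (i : ℝ) * Real.exp (-b * x ^ (p : ℝ))) (Ioi 0) := by
  apply integrableOn_rpow_mul_exp_neg_mul_rpow _ _ hb
  · have : (0 : ℝ) ≤ (i : ℝ) := Nat.cast_nonneg i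
    linarith
  · exact_mod_cast hp

end JBD_

open JBD_ in
theorem jbd_proof (hRay : Stmt_Ray) : Stmt_Jbd := by
  intro f hf h2 hray
  obtain ⟨c, c₁, C₀, hc, hc₁, -, H⟩ := hRay f hf h2 hray
  have hp0 : f.natDegree ≠ 0 := by omega
  have hp1 : 1 ≤ f.natDegree := by omega
  have hpR : (0 : ℝ) < f.natDegree := by exact_mod_cast hp1
  refine ⟨c, hc, fun i l => ?_⟩
  have hdom : ∀ τ : ℝ, 0 < τ → ∀ x : ℝ, 0 < x →
      ‖(x : ℂ) ^ i * Complex.exp (-(τ : ℂ) * ray f l x)‖ ≤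
      Real.exp (-(c * τ)) * (x ^ (i : ℝ) * Real.exp (-(c₁ * τ) * x ^ (f.natDegree : ℝ))) :=
    fun τ hτ x hx => dominated f i l τ x c c₁ hτ hx.le (H l x hx.le).1
  have hbd : ∀ τ : ℝ, 0 < τ → IntegrableOn (fun x : ℝ => Real.exp (-(c * τ)) *
      (x ^ (i : ℝ) * Real.exp (-(c₁ * τ) * x ^ (f.natDegree : ℝ)))) (Ioi 0) := fun τ hτ =>
    (integrable_bound i f.natDegree hp1 (c₁ * τ) (mul_pos hc₁ hτ)).const_mul _
  have hint : ∀ τ : ℝ, 0 < τ → IntegrableOn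
      (fun x : ℝ => (x : ℂ) ^ i * Complex.exp (-(τ : ℂ) * ray f l x)) (Ioi 0) := by
    intro τ hτ
    refine Integrable.mono' (hbd τ hτ) (cont_integrand f i l τ).aestronglyMeasurable ?_
    filter_upwards [ae_restrict_mem measurableSet_Ioi] with x hx
    exact hdom τ hτ x hx
  refine ⟨hint, c₁ ^ (-(((i : ℝ) + 1) / f.natDegree)) * (1 / f.natDegree) *
    Real.Gamma (((i : ℝ) + 1) / f.natDegree), fun τ hτ => ?_⟩
  have h1 : ‖J1 f i l τ‖ = ‖∫ x in Ioi (0 : ℝ),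
      (x : ℂ) ^ i * Complex.exp (-(τ : ℂ) * ray f l x)‖ := by
    unfold J1
    rw [norm_mul, norm_pow, norm_zt _ hp0, one_pow, one_mul]
  rw [h1]
  have h3 : ‖∫ x in Ioi (0 : ℝ), (x : ℂ) ^ i * Complex.exp (-(τ : ℂ) * ray f l x)‖ ≤
      ∫ x in Ioi (0 : ℝ), Real.exp (-(c * τ)) *
      (x ^ (i : ℝ) * Real.exp (-(c₁ * τ) * x ^ (f.natDegree : ℝ))) := by
    refine norm_integral_le_of_norm_le (hbd τ hτ) ?_
    filter_upwards [ae_restrict_mem measurableSet_Ioi] with x hx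
    exact hdom τ hτ x hx
  refine h3.trans (le_of_eq ?_)
  rw [integral_const_mul, integral_rpow_mul_exp_neg_mul_rpow hpR
    (by have : (0 : ℝ) ≤ (i : ℝ) := Nat.cast_nonneg i
        linarith) (mul_pos hc₁ hτ), Real.mul_rpow hc₁.le hτ.le]
  have e : -((i : ℝ) + 1) / (f.natDegree : ℝ) = -(((i : ℝ) + 1) / f.natDegree) := by ring
  rw [e]
  ring

end Pool.Agent.EVD
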