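import Pool.Agent.EVD.Stmts

set_option autoImplicit false

open scoped BigOperators Topology
open Metric Set MeasureTheory

namespace Pool.Agent.EVD

namespace JLM_

theorem zt_pow (p : ℕ) (hp : p ≠ 0) : zt p ^ p = 1 := by
  unfold zt
  rw [← Complex.exp_nat_mul]
  have : (p : ℂ) * (2 * Real.pi * Complex.I / p) = 2 * Real.pi * Complex.I := by
    have hp' : (p : ℂ) ≠ 0 := by exact_mod_cast hp
    field_simp
  rw [this, Complex.exp_two_pi_mul_I]

theorem cont_ray (f : Polynomial ℚ) (l : ℕ) : Continuous (ray f l) := by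
  unfold ray
  have h1 : Continuous fun z : ℂ => Polynomial.aeval z f := f.continuous_aeval
  exact h1.comp (continuous_const.mul Complex.continuous_ofReal)

theorem ray_sum (f : Polynomial ℚ) (l : ℕ) (x : ℝ) :
    ray f l x = ∑ k ∈ Finset.range (f.natDegree + 1),
      ((f.coeff k : ℚ) : ℂ) * (zt f.natDegree ^ l * (x : ℂ)) ^ k := by
  unfold ray
  rw [Polynomial.aeval_eq_sum_range]
  refine Finset.sum_congr rfl fun k _ => ?_
  rw [Algebra.smul_def, eq_ratCast]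

/-- the scaling exponent -/
theorem scale (p : ℕ) (hp : p ≠ 0) (τ : ℝ) (hτ : 0 < τ) (k : ℕ) :
    τ * (τ ^ (-(1 / (p : ℝ)))) ^ k = τ ^ (1 - (k : ℝ) / p) := by
  rw [← Real.rpow_natCast (τ ^ (-(1 / (p : ℝ)))) k, ← Real.rpow_mul hτ.le]
  conv_lhs => rw [← Real.rpow_one τ, Real.rpow_one τ]
  rw [show (1 - (k : ℝ) / p) = 1 + (-(1 / (p : ℝ)) * k) by ring, Real.rpow_add hτ, Real.rpow_one]

theorem tend_term (p : ℕ) (hp : p ≠ 0) (k : ℕ) (hk : k < p) :
    Filter.Tendsto (fun τ : ℝ => τ * (τ ^ (-(1 / (p : ℝ)))) ^ k) (𝓝[>] 0) (𝓝 0) := by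
  have hr : 0 < 1 - (k : ℝ) / p := by
    have hp' : (0 : ℝ) < p := by exact_mod_cast Nat.pos_of_ne_zero hp
    have : (k : ℝ) / p < 1 := by
      rw [div_lt_one hp']; exact_mod_cast hk
    linarith
  have h1 : Filter.Tendsto (fun τ : ℝ => τ ^ (1 - (k : ℝ) / p)) (𝓝[>] 0) (𝓝 0) := by
    have := (Real.continuousAt_rpow_const 0 (1 - (k : ℝ) / p) (Or.inr hr.le)).tendsto
    rw [Real.zero_rpow hr.ne'] at this
    exact this.mono_left nhdsWithin_le_nhds
  refine h1.congr' ?_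
  filter_upwards [self_mem_nhdsWithin] with τ hτ
  exact (scale p hp τ hτ k).symm

theorem tend_ray (f : Polynomial ℚ) (hf : f.Monic) (h2 : 2 ≤ f.natDegree) (l : ℕ) (u : ℝ) :
    Filter.Tendsto (fun τ : ℝ => (τ : ℂ) * ray f l (τ ^ (-(1 / (f.natDegree : ℝ))) * u)) (𝓝[>] 0)
      (𝓝 ((u : ℂ) ^ f.natDegree)) := by
  have hp0 : f.natDegree ≠ 0 := by omega
  have hsum : ((u : ℂ) ^ f.natDegree) = ∑ k ∈ Finset.range (f.natDegree + 1),
      (if k = f.natDegree then (u : ℂ) ^ f.natDegree else 0) := by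
    rw [Finset.sum_ite_eq' (Finset.range (f.natDegree + 1)) f.natDegree
      (fun _ => (u : ℂ) ^ f.natDegree)]
    simp
  rw [hsum]
  have e : (fun τ : ℝ => (τ : ℂ) * ray f l (τ ^ (-(1 / (f.natDegree : ℝ))) * u)) = fun τ : ℝ =>
      ∑ k ∈ Finset.range (f.natDegree + 1),
        (((f.coeff k : ℚ) : ℂ) * (zt f.natDegree ^ l) ^ k * (u : ℂ) ^ k) *
          ((τ * (τ ^ (-(1 / (f.natDegree : ℝ)))) ^ k : ℝ) : ℂ) := by
    funext τ
    rw [ray_sum, Finset.mul_sum]
    refine Finset.sum_congr rfl fun k _ => ?_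
    push_cast
    ring
  rw [e]
  refine tendsto_finsetSum _ fun k hk => ?_
  have hk' : k ≤ f.natDegree := Nat.lt_succ_iff.1 (Finset.mem_range.1 hk)
  rcases hk'.lt_or_eq with h | h
  · rw [if_neg h.ne]
    have h1 := tend_term f.natDegree hp0 k h
    have h3 : Filter.Tendsto (fun τ : ℝ => ((τ * (τ ^ (-(1 / (f.natDegree : ℝ)))) ^ k : ℝ) : ℂ))
        (𝓝[>] 0) (𝓝 ((0 : ℝ) : ℂ)) := (Complex.continuous_ofReal.tendsto 0).comp h1
    have h4 := h3.const_mul (((f.coeff k : ℚ) : ℂ) * (zt f.natDegree ^ l) ^ k * (u : ℂ) ^ k)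
    simpa using h4
  · rw [if_pos h]
    have hc : ((f.coeff k : ℚ) : ℂ) * (zt f.natDegree ^ l) ^ k * (u : ℂ) ^ k
        = (u : ℂ) ^ f.natDegree := by
      have h5 : f.coeff k = 1 := by rw [h]; exact hf
      have h6 : (zt f.natDegree ^ l) ^ k = 1 := by
        rw [h, ← pow_mul, mul_comm, pow_mul, zt_pow _ hp0, one_pow]
      rw [h5, h6, h]; simp
    rw [hc]
    refine Filter.Tendsto.congr' ?_ tendsto_const_nhds
    filter_upwards [self_mem_nhdsWithin] with τ hτ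
    have hτ' : (0 : ℝ) < τ := hτ
    rw [scale f.natDegree hp0 τ hτ' k, h]
    have hp' : (f.natDegree : ℝ) ≠ 0 := by exact_mod_cast hp0
    rw [div_self hp', sub_self, Real.rpow_zero]
    simp

theorem cv (g : ℝ → ℂ) (b : ℝ) (hb : 0 < b) :
    ∫ x in Ioi (0 : ℝ), g x = (b : ℂ) * ∫ x in Ioi (0 : ℝ), g (b * x) := by
  have h := integral_comp_mul_left_Ioi g 0 hb
  rw [mul_zero] at h
  rw [h, Complex.real_smul, ← mul_assoc, Complex.ofReal_inv, mul_inv_cancel₀, one_mul]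
  exact_mod_cast hb.ne'

end JLM_

open JLM_ in
theorem jlm_proof (hRay : Stmt_Ray) : Stmt_Jlm := by
  intro f hf h2 hray i l
  obtain ⟨c, c₁, C₀, hc, hc₁, -, H⟩ := hRay f hf h2 hray
  have hp0 : f.natDegree ≠ 0 := by omega
  have hp1 : 1 ≤ f.natDegree := by omega
  have hpR : (0 : ℝ) < f.natDegree := by exact_mod_cast hp1
  have hi0 : (-1 : ℝ) < (i : ℝ) := by
    have : (0 : ℝ) ≤ (i : ℝ) := Nat.cast_nonneg i
    linarith
  -- the limit of the rescaled integral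
  have lim : Filter.Tendsto (fun τ : ℝ => ∫ u in Ioi (0 : ℝ), (u : ℂ) ^ i *
      Complex.exp (-((τ : ℂ) * ray f l (τ ^ (-(1 / (f.natDegree : ℝ))) * u)))) (𝓝[>] 0)
      (𝓝 (∫ u in Ioi (0 : ℝ), (u : ℂ) ^ i * Complex.exp (-(u : ℂ) ^ f.natDegree))) := by
    refine tendsto_integral_filter_of_dominated_convergence
      (fun x : ℝ => x ^ (i : ℝ) * Real.exp (-c₁ * x ^ (f.natDegree : ℝ))) ?_ ?_ ?_ ?_
    · refine Filter.Eventually.of_forall fun τ => ?_
      apply Continuous.aestronglyMeasurable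
      have := cont_ray f l
      fun_prop
    · filter_upwards [self_mem_nhdsWithin] with τ hτ
      have hτ' : (0 : ℝ) < τ := hτ
      filter_upwards [ae_restrict_mem measurableSet_Ioi] with u hu
      have hu' : (0 : ℝ) < u := hu
      have hb : 0 < τ ^ (-(1 / (f.natDegree : ℝ))) := Real.rpow_pos_of_pos hτ' _
      have h1 := (H l (τ ^ (-(1 / (f.natDegree : ℝ))) * u) (mul_pos hb hu').le).1
      have h3 : τ * (τ ^ (-(1 / (f.natDegree : ℝ))) * u) ^ f.natDegree = u ^ f.natDegree := by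
        rw [mul_pow, ← mul_assoc, scale f.natDegree hp0 τ hτ' f.natDegree, div_self hpR.ne',
          sub_self, Real.rpow_zero, one_mul]
      rw [norm_mul, norm_pow, Complex.norm_real, Real.norm_of_nonneg hu'.le, Complex.norm_exp,
        Real.rpow_natCast, Real.rpow_natCast]
      refine mul_le_mul_of_nonneg_left ?_ (pow_nonneg hu'.le _)
      apply Real.exp_le_exp.2
      rw [Complex.neg_re, Complex.re_ofReal_mul]
      have h4 := mul_le_mul_of_nonneg_left h1 hτ'.le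
      have h5 : τ * (c + c₁ * (τ ^ (-(1 / (f.natDegree : ℝ))) * u) ^ f.natDegree)
          = τ * c + c₁ * u ^ f.natDegree := by
        rw [← h3]; ring
      rw [h5] at h4
      have h6 : 0 < τ * c := mul_pos hτ' hc
      linarith
    · apply integrableOn_rpow_mul_exp_neg_mul_rpow hi0 _ hc₁
      exact_mod_cast hp1
    · filter_upwards [ae_restrict_mem measurableSet_Ioi] with u hu
      refine Filter.Tendsto.const_mul _ ?_
      exact (Complex.continuous_exp.tendsto _).comp (tend_ray f hf h2 l u).neg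
  -- the value of the limit
  have val : ∫ u in Ioi (0 : ℝ), (u : ℂ) ^ i * Complex.exp (-(u : ℂ) ^ f.natDegree) =
      ((Real.Gamma (((i : ℝ) + 1) / f.natDegree) / f.natDegree : ℝ) : ℂ) := by
    have h1 : ∫ u in Ioi (0 : ℝ), (u : ℂ) ^ i * Complex.exp (-(u : ℂ) ^ f.natDegree) =
        ∫ u in Ioi (0 : ℝ), ((u ^ (i : ℝ) * Real.exp (-1 * u ^ (f.natDegree : ℝ)) : ℝ) : ℂ) := by
      refine setIntegral_congr_fun measurableSet_Ioi fun u hu => ?_
      simp only [Real.rpow_natCast]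
      push_cast
      ring_nf
    rw [h1, integral_complex_ofReal, integral_rpow_mul_exp_neg_mul_rpow hpR hi0 one_pos,
      Real.one_rpow]
    congr 1
    ring
  rw [val] at lim
  -- rewrite
  have lim2 := lim.const_mul (zt f.natDegree ^ (l * (i + 1)))
  refine lim2.congr' ?_
  filter_upwards [self_mem_nhdsWithin] with τ hτ
  have hτ' : (0 : ℝ) < τ := hτ
  have hb : 0 < τ ^ (-(1 / (f.natDegree : ℝ))) := Real.rpow_pos_of_pos hτ' _
  unfold J1
  rw [cv (fun x : ℝ => (x : ℂ) ^ i * Complex.exp (-(τ : ℂ) * ray f l x)) _ hb]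
  have h1 : ∫ x in Ioi (0 : ℝ), (((τ ^ (-(1 / (f.natDegree : ℝ))) * x : ℝ) : ℂ) ^ i *
      Complex.exp (-(τ : ℂ) * ray f l (τ ^ (-(1 / (f.natDegree : ℝ))) * x))) =
      ((τ ^ (-(1 / (f.natDegree : ℝ))) : ℝ) : ℂ) ^ i * ∫ u in Ioi (0 : ℝ), (u : ℂ) ^ i *
      Complex.exp (-((τ : ℂ) * ray f l (τ ^ (-(1 / (f.natDegree : ℝ))) * u))) := by
    rw [← integral_const_mul]
    refine integral_congr_ae (Filter.Eventually.of_forall fun u => ?_)
    simp only
    push_cast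
    rw [mul_pow, neg_mul]
    ring
  rw [h1]
  have h3 : τ ^ (((i : ℝ) + 1) / f.natDegree) *
      (τ ^ (-(1 / (f.natDegree : ℝ))) * (τ ^ (-(1 / (f.natDegree : ℝ)))) ^ i) = 1 := by
    rw [← pow_succ', ← Real.rpow_natCast (τ ^ (-(1 / (f.natDegree : ℝ)))) (i + 1),
      ← Real.rpow_mul hτ'.le, ← Real.rpow_add hτ']
    have : ((i : ℝ) + 1) / f.natDegree + -(1 / (f.natDegree : ℝ)) * ((i + 1 : ℕ) : ℝ) = 0 := by
      push_cast; field_simp; ring
    rw [this, Real.rpow_zero]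
  have h4 : ((τ ^ (((i : ℝ) + 1) / f.natDegree) : ℝ) : ℂ) *
      (((τ ^ (-(1 / (f.natDegree : ℝ))) : ℝ) : ℂ) *
        ((τ ^ (-(1 / (f.natDegree : ℝ))) : ℝ) : ℂ) ^ i) = 1 := by
    exact_mod_cast h3
  generalize (∫ u in Ioi (0 : ℝ), (u : ℂ) ^ i *
      Complex.exp (-((τ : ℂ) * ray f l (τ ^ (-(1 / (f.natDegree : ℝ))) * u)))) = II
  linear_combination (-(zt f.natDegree ^ (l * (i + 1))) * II) * h4

end Pool.Agent.EVD
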