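import Pool.Agent.EVD.Stmts

set_option autoImplicit false

/-!
# EVD, KSP: Kronecker sums and products
-/

open scoped BigOperators

namespace Pool.Agent.EVD

namespace KSP_

variable {n : ℕ} {α : Fin n → Type} [∀ j, Fintype (α j)] [∀ j, DecidableEq (α j)]
  {R : Type} [CommRing R]

/-- The sum over the points which agree with `x` outside `j`. -/
theorem sum_agree (j : Fin n) (x : ∀ l, α l) (f : (∀ l, α l) → R) :
    ∑ y : (∀ l, α l), (if (∀ l, l ≠ j → x l = y l) then f y else 0) =
      ∑ a : α j, f (Function.update x j a) := by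
  classical
  rw [← Finset.sum_filter]
  symm
  refine Finset.sum_bij' (fun a _ => Function.update x j a) (fun y _ => y j) ?_ ?_ ?_ ?_ ?_
  · intro a _
    rw [Finset.mem_filter]
    refine ⟨Finset.mem_univ _, fun l hl => ?_⟩
    rw [Function.update_of_ne hl]
  · intro y _
    exact Finset.mem_univ _
  · intro a _
    simp
  · intro y hy
    rw [Finset.mem_filter] at hy
    funext l
    by_cases hl : l = j
    · subst hl
      simp
    · rw [Function.update_of_ne hl]
      exact hy.2 l hl
  · intro a _
    rfl

theorem sum_agree' (j : Fin n) (x : ∀ l, α l) (f : (∀ l, α l) → R) :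
    ∑ y : (∀ l, α l), (if (∀ l, l ≠ j → y l = x l) then f y else 0) =
      ∑ a : α j, f (Function.update x j a) := by
  rw [← sum_agree j x f]
  refine Finset.sum_congr rfl fun y _ => ?_
  have : (∀ l, l ≠ j → y l = x l) ↔ (∀ l, l ≠ j → x l = y l) :=
    ⟨fun h l hl => (h l hl).symm, fun h l hl => (h l hl).symm⟩
  simp only [this]

theorem kprod_update_left (X : ∀ j, Matrix (α j) (α j) R) (j : Fin n) (x z : ∀ l, α l)
    (a : α j) :
    kprod X (Function.update x j a) z =
      X j a (z j) * ∏ l ∈ Finset.univ.erase j, X l (x l) (z l) := by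
  classical
  unfold kprod
  rw [Matrix.of_apply, ← Finset.mul_prod_erase Finset.univ _ (Finset.mem_univ j)]
  congr 1
  · rw [Function.update_self]
  · refine Finset.prod_congr rfl fun l hl => ?_
    rw [Function.update_of_ne (Finset.ne_of_mem_erase hl)]

theorem kprod_update_right (X : ∀ j, Matrix (α j) (α j) R) (j : Fin n) (x z : ∀ l, α l)
    (a : α j) :
    kprod X x (Function.update z j a) =
      X j (x j) a * ∏ l ∈ Finset.univ.erase j, X l (x l) (z l) := by
  classical
  unfold kprod
  rw [Matrix.of_apply, ← Finset.mul_prod_erase Finset.univ _ (Finset.mem_univ j)]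
  congr 1
  · rw [Function.update_self]
  · refine Finset.prod_congr rfl fun l hl => ?_
    rw [Function.update_of_ne (Finset.ne_of_mem_erase hl)]

theorem kprod_update_mat (X : ∀ j, Matrix (α j) (α j) R) (j : Fin n)
    (Z : Matrix (α j) (α j) R) (x z : ∀ l, α l) :
    kprod (Function.update X j Z) x z =
      Z (x j) (z j) * ∏ l ∈ Finset.univ.erase j, X l (x l) (z l) := by
  classical
  unfold kprod
  rw [Matrix.of_apply, ← Finset.mul_prod_erase Finset.univ _ (Finset.mem_univ j)]
  congr 1
  · rw [Function.update_self]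
  · refine Finset.prod_congr rfl fun l hl => ?_
    rw [Function.update_of_ne (Finset.ne_of_mem_erase hl)]

theorem ksum_mul (A X : ∀ j, Matrix (α j) (α j) R) :
    ksum A * kprod X = ∑ j, kprod (Function.update X j (A j * X j)) := by
  classical
  ext x z
  rw [Matrix.mul_apply, Matrix.sum_apply]
  have h1 : ∀ y : (∀ l, α l), ksum A x y * kprod X y z =
      ∑ j, (if (∀ l, l ≠ j → x l = y l) then A j (x j) (y j) * kprod X y z else 0) := by
    intro y
    unfold ksum
    rw [Matrix.of_apply, Finset.sum_mul]
    refine Finset.sum_congr rfl fun j _ => ?_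
    rw [ite_mul, zero_mul]
  rw [Finset.sum_congr rfl fun y _ => h1 y, Finset.sum_comm]
  refine Finset.sum_congr rfl fun j _ => ?_
  rw [sum_agree j x (fun y => A j (x j) (y j) * kprod X y z), kprod_update_mat,
    Matrix.mul_apply, Finset.sum_mul]
  refine Finset.sum_congr rfl fun a _ => ?_
  rw [kprod_update_left, Function.update_self]
  ring

theorem mul_ksum (A X : ∀ j, Matrix (α j) (α j) R) :
    kprod X * ksum A = ∑ j, kprod (Function.update X j (X j * A j)) := by
  classical
  ext x z
  rw [Matrix.mul_apply, Matrix.sum_apply]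
  have h1 : ∀ y : (∀ l, α l), kprod X x y * ksum A y z =
      ∑ j, (if (∀ l, l ≠ j → y l = z l) then kprod X x y * A j (y j) (z j) else 0) := by
    intro y
    unfold ksum
    rw [Matrix.of_apply, Finset.mul_sum]
    refine Finset.sum_congr rfl fun j _ => ?_
    rw [mul_ite, mul_zero]
  rw [Finset.sum_congr rfl fun y _ => h1 y, Finset.sum_comm]
  refine Finset.sum_congr rfl fun j _ => ?_
  rw [sum_agree' j z (fun y => kprod X x y * A j (y j) (z j)), kprod_update_mat,
    Matrix.mul_apply, Finset.sum_mul]
  refine Finset.sum_congr rfl fun a _ => ?_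
  rw [kprod_update_right, Function.update_self]
  ring

theorem kprod_transpose (X : ∀ j, Matrix (α j) (α j) R) :
    (kprod X).transpose = kprod (fun j => (X j).transpose) := by
  ext x z
  rfl

theorem ksum_transpose (A : ∀ j, Matrix (α j) (α j) R) :
    (ksum A).transpose = ksum (fun j => (A j).transpose) := by
  ext x y
  unfold ksum
  rw [Matrix.transpose_apply, Matrix.of_apply, Matrix.of_apply]
  refine Finset.sum_congr rfl fun j _ => ?_
  have : (∀ l, l ≠ j → y l = x l) ↔ (∀ l, l ≠ j → x l = y l) :=
    ⟨fun h l hl => (h l hl).symm, fun h l hl => (h l hl).symm⟩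
  simp only [this, Matrix.transpose_apply]

theorem kprod_mul (X Y : ∀ j, Matrix (α j) (α j) R) :
    kprod X * kprod Y = kprod (fun j => X j * Y j) := by
  classical
  ext x z
  rw [Matrix.mul_apply]
  unfold kprod
  simp only [Matrix.of_apply, Matrix.mul_apply]
  rw [Finset.prod_univ_sum, Fintype.piFinset_univ]
  refine Finset.sum_congr rfl fun y _ => ?_
  rw [← Finset.prod_mul_distrib]

theorem kprod_one : kprod (fun j => (1 : Matrix (α j) (α j) R)) = 1 := by
  classical
  ext x z
  unfold kprod
  rw [Matrix.of_apply]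
  by_cases h : x = z
  · subst h
    simp
  · rw [Matrix.one_apply_ne h]
    obtain ⟨j, hj⟩ : ∃ j, x j ≠ z j := by
      by_contra hc
      push Not at hc
      exact h (funext hc)
    exact Finset.prod_eq_zero (Finset.mem_univ j) (Matrix.one_apply_ne hj)

theorem ksum_diagonal (d : ∀ j, α j → R) :
    ksum (fun j => Matrix.diagonal (d j)) = Matrix.diagonal (fun x => ∑ j, d j (x j)) := by
  classical
  ext x z
  unfold ksum
  rw [Matrix.of_apply]
  by_cases h : x = z
  · subst h
    simp
  · rw [Matrix.diagonal_apply_ne _ h]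
    refine Finset.sum_eq_zero fun j _ => ?_
    split_ifs with hc
    · refine Matrix.diagonal_apply_ne _ fun hj => h ?_
      funext l
      by_cases hl : l = j
      · subst hl
        exact hj
      · exact hc l hl
    · rfl

end KSP_

theorem ksp_proof : Stmt_Ksp := by
  intro n α _ _ R _ A X Y d
  exact ⟨KSP_.ksum_mul A X, KSP_.mul_ksum A X, KSP_.kprod_transpose X, KSP_.ksum_transpose A,
    KSP_.kprod_mul X Y, KSP_.kprod_one, KSP_.ksum_diagonal d⟩

end Pool.Agent.EVD
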