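import Pool.Agent.EVD.Stmts

set_option autoImplicit false

/-!
# EVD, module LAP: the period integrals are Laplace transforms
-/

open scoped BigOperators Topology
open MeasureTheory Set Filter

namespace Pool.Agent.EVD

namespace LAP_

noncomputable section

theorem int_pow_exp (p i : ℕ) (hp : 1 ≤ p) (b : ℝ) (hb : 0 < b) :
    IntegrableOn (fun x : ℝ => x ^ i * Real.exp (-b * x ^ p)) (Ioi 0) := by
  have h := integrableOn_rpow_mul_exp_neg_mul_rpow (p := (p : ℝ)) (s := (i : ℝ)) (b := b)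
    (by have := Nat.cast_nonneg (α := ℝ) i; linarith) (by exact_mod_cast hp) hb
  simpa only [Real.rpow_natCast] using h

theorem integral_pow_exp (p i : ℕ) (hp : 1 ≤ p) (b : ℝ) (hb : 0 < b) :
    ∫ x in Ioi (0 : ℝ), x ^ i * Real.exp (-b * x ^ p) =
      b ^ (-((i : ℝ) + 1) / p) * (1 / p) * Real.Gamma (((i : ℝ) + 1) / p) := by
  have h := integral_rpow_mul_exp_neg_mul_rpow (p := (p : ℝ)) (q := (i : ℝ)) (b := b)
    (by exact_mod_cast hp) (by have := Nat.cast_nonneg (α := ℝ) i; linarith) hb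
  simpa only [Real.rpow_natCast] using h

theorem int_cpow_exp (n : ℕ) (z : ℂ) (hz : 0 < z.re) :
    IntegrableOn (fun τ : ℝ => (τ : ℂ) ^ n * Complex.exp (-z * τ)) (Ioi 0) := by
  have h := int_pow_exp 1 n le_rfl z.re hz
  refine Integrable.mono' h ?_ ?_
  · exact (by fun_prop : Continuous fun τ : ℝ => (τ : ℂ) ^ n *
      Complex.exp (-z * τ)).aestronglyMeasurable
  · refine (ae_restrict_mem measurableSet_Ioi).mono fun τ hτ => ?_
    rw [norm_mul, norm_pow, Complex.norm_real, Complex.norm_exp, Real.norm_eq_abs,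
      abs_of_pos hτ, pow_one]
    simp

theorem integral_cpow_exp (n : ℕ) (z : ℂ) (hz : 0 < z.re) :
    ∫ τ in Ioi (0 : ℝ), (τ : ℂ) ^ n * Complex.exp (-z * τ) =
      (n.factorial : ℂ) / z ^ (n + 1) := by
  have hz0 : z ≠ 0 := by rintro rfl; simp at hz
  induction n with
  | zero =>
    have h := integral_exp_mul_complex_Ioi (a := -z) (by simpa using hz) 0
    simp only [pow_zero, one_mul, Nat.factorial_zero, Nat.cast_one, zero_add, pow_one]
    rw [h]
    simp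
  | succ n ih =>
    have hd : ∀ x ∈ Ioi (0 : ℝ), HasDerivAt (fun τ : ℝ => (τ : ℂ) ^ (n + 1) *
        Complex.exp (-z * τ)) (((n : ℂ) + 1) * ((x : ℂ) ^ n * Complex.exp (-z * x)) -
        z * ((x : ℂ) ^ (n + 1) * Complex.exp (-z * x))) x := by
      intro x _
      have h1 : HasDerivAt (fun w : ℂ => w ^ (n + 1) * Complex.exp (-z * w))
          (((n : ℂ) + 1) * ((x : ℂ) ^ n * Complex.exp (-z * x)) -
          z * ((x : ℂ) ^ (n + 1) * Complex.exp (-z * x))) (x : ℂ) := by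
        have h2 := (hasDerivAt_pow (n + 1) (x : ℂ)).mul
          (((hasDerivAt_id (x : ℂ)).const_mul (-z)).cexp)
        simp only [id, mul_one] at h2
        refine h2.congr_deriv ?_
        push_cast
        ring
      exact h1.comp_ofReal
    have hi : IntegrableOn (fun x : ℝ => ((n : ℂ) + 1) * ((x : ℂ) ^ n * Complex.exp (-z * x)) -
        z * ((x : ℂ) ^ (n + 1) * Complex.exp (-z * x))) (Ioi 0) :=
      ((int_cpow_exp n z hz).const_mul ((n : ℂ) + 1)).sub ((int_cpow_exp (n + 1) z hz).const_mul z)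
    have ht : Tendsto (fun τ : ℝ => (τ : ℂ) ^ (n + 1) * Complex.exp (-z * τ)) atTop (𝓝 0) := by
      rw [tendsto_zero_iff_norm_tendsto_zero]
      have h3 := tendsto_rpow_mul_exp_neg_mul_atTop_nhds_zero ((n + 1 : ℕ) : ℝ) z.re hz
      refine h3.congr' ?_
      filter_upwards [eventually_gt_atTop (0 : ℝ)] with τ hτ
      rw [norm_mul, norm_pow, Complex.norm_real, Complex.norm_exp, Real.norm_eq_abs,
        abs_of_pos hτ, Real.rpow_natCast]
      simp
    have h := integral_Ioi_of_hasDerivAt_of_tendsto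
      (Continuous.continuousWithinAt (by fun_prop)) hd hi ht
    rw [integral_sub ((int_cpow_exp n z hz).const_mul ((n : ℂ) + 1))
      ((int_cpow_exp (n + 1) z hz).const_mul z), integral_const_mul, integral_const_mul, ih] at h
    simp only [Complex.ofReal_zero, ne_eq, Nat.add_eq_zero_iff, one_ne_zero, and_false,
      not_false_eq_true, zero_pow, zero_mul, sub_zero] at h
    have h4 : z * ∫ τ in Ioi (0 : ℝ), (τ : ℂ) ^ (n + 1) * Complex.exp (-z * τ) =
        ((n : ℂ) + 1) * ((n.factorial : ℂ) / z ^ (n + 1)) := by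
      rw [← sub_eq_zero, ← neg_eq_zero, neg_sub]
      exact h
    apply mul_left_cancel₀ hz0
    rw [h4, Nat.factorial_succ]
    push_cast
    field_simp
    ring

theorem continuous_ray (f : Polynomial ℚ) (l : ℕ) : Continuous (ray f l) := by
  unfold ray
  exact (Polynomial.continuous_aeval f).comp (by fun_prop)

/-- The integrability of the integrand of `J1`. -/
theorem int_ray (f : Polynomial ℚ) (hd : 1 ≤ f.natDegree) (c c₁ : ℝ) (hc : 0 < c) (hc₁ : 0 < c₁)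
    (l i : ℕ) (hr : ∀ x : ℝ, 0 ≤ x → c + c₁ * x ^ f.natDegree ≤ (ray f l x).re) (τ : ℝ)
    (hτ : 0 < τ) :
    IntegrableOn (fun x : ℝ => (x : ℂ) ^ i * Complex.exp (-(τ : ℂ) * ray f l x)) (Ioi 0) := by
  have h := int_pow_exp f.natDegree i hd (c₁ * τ) (by positivity)
  refine Integrable.mono' h ?_ ?_
  · have := continuous_ray f l
    exact (by fun_prop : Continuous fun x : ℝ => (x : ℂ) ^ i *
      Complex.exp (-(τ : ℂ) * ray f l x)).aestronglyMeasurable
  · refine (ae_restrict_mem measurableSet_Ioi).mono fun x hx => ?_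
    rw [norm_mul, norm_pow, Complex.norm_real, Complex.norm_exp, Real.norm_eq_abs,
      abs_of_pos hx]
    have hx' : (0 : ℝ) ≤ x := le_of_lt hx
    refine mul_le_mul_of_nonneg_left ?_ (pow_nonneg hx' _)
    apply Real.exp_le_exp.mpr
    have e : (-(τ : ℂ) * ray f l x).re = -(τ * (ray f l x).re) := by
      rw [← Complex.ofReal_neg, Complex.re_ofReal_mul]; ring
    rw [e]
    have := hr x hx'
    have h2 : c₁ * x ^ f.natDegree ≤ (ray f l x).re := by linarith
    have h3 := mul_le_mul_of_nonneg_left h2 hτ.le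
    linarith

/-- The factor. -/
def Hf (f : Polynomial ℚ) (i a : ℕ) (τ x : ℝ) : ℂ :=
  zt f.natDegree ^ ((a + 1) * (i + 1)) * ((x : ℂ) ^ i *
    Complex.exp (-(τ : ℂ) * ray f (a + 1) x)) -
  zt f.natDegree ^ (a * (i + 1)) * ((x : ℂ) ^ i * Complex.exp (-(τ : ℂ) * ray f a x))

theorem norm_zt (p : ℕ) : ‖zt p‖ = 1 := by
  unfold zt
  rw [Complex.norm_exp]
  have : (2 * (Real.pi : ℂ) * Complex.I / (p : ℂ)).re = 0 := by
    have e : (2 * (Real.pi : ℂ) * Complex.I / (p : ℂ)) = ((2 * Real.pi / p : ℝ) : ℂ) *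
      Complex.I := by push_cast; ring
    rw [e, Complex.re_ofReal_mul, Complex.I_re, mul_zero]
  rw [this, Real.exp_zero]

theorem norm_term (f : Polynomial ℚ) (c c₁ : ℝ) (i l m : ℕ)
    (hr : ∀ x : ℝ, 0 ≤ x → c + c₁ * x ^ f.natDegree ≤ (ray f l x).re) (τ x : ℝ)
    (hτ : 0 < τ) (hx : 0 < x) :
    ‖zt f.natDegree ^ m * ((x : ℂ) ^ i * Complex.exp (-(τ : ℂ) * ray f l x))‖ ≤
      Real.exp (-c * τ) * (x ^ i * Real.exp (-(c₁ * τ) * x ^ f.natDegree)) := by
  rw [norm_mul, norm_pow, norm_zt, one_pow, one_mul, norm_mul, norm_pow, Complex.norm_real,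
    Complex.norm_exp, Real.norm_eq_abs, abs_of_pos hx]
  have e : (-(τ : ℂ) * ray f l x).re = -(τ * (ray f l x).re) := by
    rw [← Complex.ofReal_neg, Complex.re_ofReal_mul]; ring
  rw [e]
  have h1 : Real.exp (-c * τ) * (x ^ i * Real.exp (-(c₁ * τ) * x ^ f.natDegree)) =
      x ^ i * Real.exp (-c * τ + -(c₁ * τ) * x ^ f.natDegree) := by
    rw [Real.exp_add]; ring
  rw [h1]
  refine mul_le_mul_of_nonneg_left ?_ (pow_nonneg hx.le _)
  apply Real.exp_le_exp.mpr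
  have h3 := mul_le_mul_of_nonneg_left (hr x hx.le) hτ.le
  linarith

theorem norm_Hf (f : Polynomial ℚ) (c c₁ : ℝ) (i a : ℕ)
    (hr : ∀ (l : ℕ) (x : ℝ), 0 ≤ x → c + c₁ * x ^ f.natDegree ≤ (ray f l x).re) (τ x : ℝ)
    (hτ : 0 < τ) (hx : 0 < x) :
    ‖Hf f i a τ x‖ ≤ 2 * (Real.exp (-c * τ) *
      (x ^ i * Real.exp (-(c₁ * τ) * x ^ f.natDegree))) := by
  unfold Hf
  refine (norm_sub_le _ _).trans ?_
  have h1 := norm_term f c c₁ i (a + 1) ((a + 1) * (i + 1)) (hr (a + 1)) τ x hτ hx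
  have h2 := norm_term f c c₁ i a (a * (i + 1)) (hr a) τ x hτ hx
  linarith

theorem integral_Hf (f : Polynomial ℚ) (hd : 1 ≤ f.natDegree) (c c₁ : ℝ) (hc : 0 < c)
    (hc₁ : 0 < c₁) (i a : ℕ)
    (hr : ∀ (l : ℕ) (x : ℝ), 0 ≤ x → c + c₁ * x ^ f.natDegree ≤ (ray f l x).re) (τ : ℝ)
    (hτ : 0 < τ) : ∫ x in Ioi (0 : ℝ), Hf f i a τ x = J1 f i (a + 1) τ - J1 f i a τ := by
  unfold Hf J1
  rw [integral_sub ((int_ray f hd c c₁ hc hc₁ (a + 1) i (hr (a + 1)) τ hτ).const_mul _)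
    ((int_ray f hd c c₁ hc hc₁ a i (hr a) τ hτ).const_mul _), integral_const_mul,
    integral_const_mul]

theorem prod_Hf {n : ℕ} (f : Fin n → Polynomial ℚ) (I a : Fin n → ℕ) (τ : ℝ) (x : Fin n → ℝ) :
    ∏ j, Hf (f j) (I j) (a j) τ (x j) = ∑ ε : Fin n → Fin 2,
      (∏ j, (-1 : ℂ) ^ (1 + (ε j : ℕ)) *
        zt (f j).natDegree ^ (((a j : ℕ) + (ε j : ℕ)) * ((I j : ℕ) + 1)) * (x j : ℂ) ^ (I j : ℕ)) *
      Complex.exp (-(∑ j, ray (f j) (a j + (ε j : ℕ)) (x j)) * τ) := by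
  have h1 : ∀ j, Hf (f j) (I j) (a j) τ (x j) = ∑ e : Fin 2,
      ((-1 : ℂ) ^ (1 + (e : ℕ)) * zt (f j).natDegree ^ (((a j : ℕ) + (e : ℕ)) *
        ((I j : ℕ) + 1)) * (x j : ℂ) ^ (I j : ℕ)) *
        Complex.exp (-(ray (f j) (a j + (e : ℕ)) (x j)) * τ) := by
    intro j
    rw [Fin.sum_univ_two]
    unfold Hf
    simp only [Fin.val_zero, Fin.val_one, add_zero]
    rw [show -(τ : ℂ) * ray (f j) (a j + 1) (x j) = -ray (f j) (a j + 1) (x j) * τ by ring,
      show -(τ : ℂ) * ray (f j) (a j) (x j) = -ray (f j) (a j) (x j) * τ by ring]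
    ring
  rw [Finset.prod_congr rfl fun j _ => h1 j, Finset.prod_univ_sum, Fintype.piFinset_univ]
  refine Finset.sum_congr rfl fun ε _ => ?_
  rw [Finset.prod_mul_distrib, ← Complex.exp_sum]
  congr 2
  rw [neg_mul, Finset.sum_mul, ← Finset.sum_neg_distrib]
  refine Finset.sum_congr rfl fun j _ => ?_
  ring

/-- The integrand in all variables. -/
def FF {n : ℕ} (f : Fin n → Polynomial ℚ) (t : ℂ) (I a : Fin n → ℕ) (x : Fin n → ℝ) (τ : ℝ) :
    ℂ :=
  (τ : ℂ) ^ (n - 1) * Complex.exp (-t * τ) * ∏ j, Hf (f j) (I j) (a j) τ (x j)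

theorem continuous_FF {n : ℕ} (f : Fin n → Polynomial ℚ) (t : ℂ) (I a : Fin n → ℕ) :
    Continuous (Function.uncurry (FF f t I a)) := by
  have h : ∀ (j : Fin n) (l : ℕ), Continuous (ray (f j) l) := fun j l => continuous_ray _ l
  have h1 : ∀ j : Fin n, Continuous fun p : (Fin n → ℝ) × ℝ =>
      Hf (f j) (I j) (a j) p.2 (p.1 j) := by
    intro j
    unfold Hf
    have h2 : ∀ l : ℕ, Continuous fun p : (Fin n → ℝ) × ℝ => ray (f j) l (p.1 j) :=
      fun l => (h j l).comp (by fun_prop)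
    have h3 := h2 (a j)
    have h4 := h2 (a j + 1)
    fun_prop
  unfold FF Function.uncurry
  fun_prop

theorem integral_FF {n : ℕ} (f : Fin n → Polynomial ℚ) (hn : 0 < n) (t : ℂ) (ht : 0 ≤ t.re)
    (I a : Fin n → ℕ) (x : Fin n → ℝ)
    (hr : ∀ (j : Fin n) (l : ℕ), 0 < (ray (f j) l (x j)).re) :
    ∫ τ in Ioi (0 : ℝ), FF f t I a x τ = ((n - 1).factorial : ℂ) *
      ∑ ε : Fin n → Fin 2, (∏ j, (-1 : ℂ) ^ (1 + (ε j : ℕ)) *
        zt (f j).natDegree ^ (((a j : ℕ) + (ε j : ℕ)) * ((I j : ℕ) + 1)) * (x j : ℂ) ^ (I j : ℕ)) /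
        (∑ j, ray (f j) (a j + (ε j : ℕ)) (x j) + t) ^ n := by
  have hz : ∀ ε : Fin n → Fin 2, 0 < (∑ j, ray (f j) (a j + (ε j : ℕ)) (x j) + t).re := by
    intro ε
    rw [Complex.add_re, Complex.re_sum]
    have : 0 < ∑ j, (ray (f j) (a j + (ε j : ℕ)) (x j)).re :=
      Finset.sum_pos (fun j _ => hr j _) ⟨⟨0, hn⟩, Finset.mem_univ _⟩
    linarith
  have h1 : ∀ τ : ℝ, FF f t I a x τ = ∑ ε : Fin n → Fin 2,
      (∏ j, (-1 : ℂ) ^ (1 + (ε j : ℕ)) *
        zt (f j).natDegree ^ (((a j : ℕ) + (ε j : ℕ)) * ((I j : ℕ) + 1)) * (x j : ℂ) ^ (I j : ℕ)) *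
      ((τ : ℂ) ^ (n - 1) *
        Complex.exp (-(∑ j, ray (f j) (a j + (ε j : ℕ)) (x j) + t) * τ)) := by
    intro τ
    unfold FF
    rw [prod_Hf, Finset.mul_sum]
    refine Finset.sum_congr rfl fun ε _ => ?_
    rw [neg_add, add_mul, Complex.exp_add]
    ring
  simp_rw [h1]
  rw [integral_finsetSum _ fun ε _ => (int_cpow_exp (n - 1) _ (hz ε)).const_mul _,
    Finset.mul_sum]
  refine Finset.sum_congr rfl fun ε _ => ?_
  rw [integral_const_mul, integral_cpow_exp _ _ (hz ε), Nat.sub_add_cancel hn]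
  ring

/-- The bound. -/
def Gb {n : ℕ} (p I : Fin n → ℕ) (c₁ : Fin n → ℝ) (cc : ℝ) (x : Fin n → ℝ) (τ : ℝ) : ℝ :=
  τ ^ (n - 1) * Real.exp (-cc * τ) *
    ∏ j, (2 * (x j ^ (I j) * Real.exp (-(c₁ j * τ) * x j ^ (p j))))

theorem integrable_Gb {n : ℕ} (hn : 0 < n) (p I : Fin n → ℕ) (hI : ∀ j, I j + 1 < p j)
    (c₁ : Fin n → ℝ) (hc₁ : ∀ j, 0 < c₁ j) (cc : ℝ) (hcc : 0 < cc) :
    Integrable (Function.uncurry (Gb p I c₁ cc))
      ((Measure.pi fun _ : Fin n => (volume : Measure ℝ).restrict (Ioi 0)).prod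
        ((volume : Measure ℝ).restrict (Ioi 0))) := by
  have hcont : Continuous (Function.uncurry (Gb p I c₁ cc)) := by
    unfold Gb Function.uncurry
    fun_prop
  rw [integrable_prod_iff' hcont.aestronglyMeasurable]
  have hp : ∀ j, 1 ≤ p j := fun j => by have := hI j; omega
  constructor
  · refine (ae_restrict_mem measurableSet_Ioi).mono fun τ hτ => ?_
    have hτ' : (0 : ℝ) < τ := hτ
    have h := Integrable.fintype_prod (𝕜 := ℝ)
      (f := fun (j : Fin n) (x : ℝ) => 2 * (x ^ (I j) * Real.exp (-(c₁ j * τ) * x ^ (p j))))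
      (μ := fun _ => (volume : Measure ℝ).restrict (Ioi 0)) fun j =>
      (int_pow_exp (p j) (I j) (hp j) (c₁ j * τ) (mul_pos (hc₁ j) hτ')).const_mul 2
    exact h.const_mul (τ ^ (n - 1) * Real.exp (-cc * τ))
  · set s : ℝ := ((n - 1 : ℕ) : ℝ) + ∑ j, (-((I j : ℝ) + 1) / p j) with hs
    have hs1 : -1 < s := by
      have h1 : ∀ j : Fin n, ((I j : ℝ) + 1) / p j < 1 := by
        intro j
        have hpj : (0 : ℝ) < p j := by exact_mod_cast hp j
        rw [div_lt_one hpj]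
        exact_mod_cast hI j
      have h2 : ∑ j, ((I j : ℝ) + 1) / p j < ∑ _j : Fin n, (1 : ℝ) :=
        Finset.sum_lt_sum_of_nonempty ⟨⟨0, hn⟩, Finset.mem_univ _⟩ fun j _ => h1 j
      rw [Finset.sum_const, Finset.card_univ, Fintype.card_fin, nsmul_eq_mul, mul_one] at h2
      have h3 : ((n - 1 : ℕ) : ℝ) = (n : ℝ) - 1 := by
        rw [Nat.cast_sub hn, Nat.cast_one]
      have h4 : ∑ j, (-((I j : ℝ) + 1) / p j) = -∑ j, ((I j : ℝ) + 1) / p j := by
        rw [← Finset.sum_neg_distrib]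
        exact Finset.sum_congr rfl fun j _ => by ring
      rw [hs, h3, h4]
      linarith
    have hint : IntegrableOn (fun τ : ℝ => (∏ j, (2 * (c₁ j ^ (-((I j : ℝ) + 1) / p j) *
        (1 / p j) * Real.Gamma (((I j : ℝ) + 1) / p j)))) * (τ ^ s * Real.exp (-cc * τ)))
        (Ioi 0) := by
      have h := integrableOn_rpow_mul_exp_neg_mul_rpow (p := 1) (s := s) (b := cc) hs1
        one_pos hcc
      simp only [Real.rpow_one] at h
      exact Integrable.const_mul h _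
    refine (integrableOn_congr_fun (fun τ hτ => ?_) measurableSet_Ioi).mp hint
    have hτ' : (0 : ℝ) < τ := hτ
    have h1 : ∀ x : Fin n → ℝ, ‖Function.uncurry (Gb p I c₁ cc) (x, τ)‖ =
        (τ ^ (n - 1) * Real.exp (-cc * τ)) *
        ∏ j, ‖2 * (x j ^ (I j) * Real.exp (-(c₁ j * τ) * x j ^ (p j)))‖ := by
      intro x
      simp only [Function.uncurry, Gb]
      rw [norm_mul, norm_prod, Real.norm_of_nonneg (by positivity)]
    have h2 : ∀ j : Fin n, ∫ x in Ioi (0 : ℝ),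
        ‖2 * (x ^ (I j) * Real.exp (-(c₁ j * τ) * x ^ (p j)))‖ =
        τ ^ (-((I j : ℝ) + 1) / p j) * (2 * (c₁ j ^ (-((I j : ℝ) + 1) / p j) *
        (1 / p j) * Real.Gamma (((I j : ℝ) + 1) / p j))) := by
      intro j
      have h3 : ∫ x in Ioi (0 : ℝ), ‖2 * (x ^ (I j) * Real.exp (-(c₁ j * τ) * x ^ (p j)))‖ =
          ∫ x in Ioi (0 : ℝ), 2 * (x ^ (I j) * Real.exp (-(c₁ j * τ) * x ^ (p j))) := by
        refine setIntegral_congr_fun measurableSet_Ioi fun x hx => ?_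
        have hx' : (0 : ℝ) < x := hx
        exact Real.norm_of_nonneg (by positivity)
      rw [h3, integral_const_mul, integral_pow_exp _ _ (hp j) _ (mul_pos (hc₁ j) hτ'),
        Real.mul_rpow (hc₁ j).le hτ'.le]
      ring
    simp_rw [h1]
    rw [integral_const_mul, integral_fintype_prod_eq_prod (𝕜 := ℝ)
      (f := fun j x => ‖2 * (x ^ (I j) * Real.exp (-(c₁ j * τ) * x ^ (p j)))‖),
      Finset.prod_congr rfl fun j _ => h2 j]
    have h6 : ∏ j, (τ ^ (-((I j : ℝ) + 1) / p j) * (2 * (c₁ j ^ (-((I j : ℝ) + 1) / p j) *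
        (1 / p j) * Real.Gamma (((I j : ℝ) + 1) / p j)))) =
        τ ^ (∑ j, (-((I j : ℝ) + 1) / p j)) * ∏ j, (2 * (c₁ j ^ (-((I j : ℝ) + 1) / p j) *
        (1 / p j) * Real.Gamma (((I j : ℝ) + 1) / p j))) := by
      rw [Real.rpow_sum_of_pos hτ', ← Finset.prod_mul_distrib]
    rw [h6, hs, Real.rpow_add hτ', Real.rpow_natCast]
    ring

theorem norm_FF {n : ℕ} (f : Fin n → Polynomial ℚ) (t : ℂ) (ht : 0 ≤ t.re)
    (I a : Fin n → ℕ) (c c₁ : Fin n → ℝ)
    (hr : ∀ (j : Fin n) (l : ℕ) (x : ℝ), 0 ≤ x →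
      c j + c₁ j * x ^ (f j).natDegree ≤ (ray (f j) l x).re)
    (x : Fin n → ℝ) (hx : ∀ j, 0 < x j) (τ : ℝ) (hτ : 0 < τ) :
    ‖FF f t I a x τ‖ ≤ Gb (fun j => (f j).natDegree) I c₁ (∑ j, c j) x τ := by
  unfold FF Gb
  rw [norm_mul, norm_mul, norm_pow, Complex.norm_real, Real.norm_of_nonneg hτ.le,
    Complex.norm_exp, norm_prod]
  have h1 : Real.exp (-t * (τ : ℂ)).re ≤ 1 := by
    rw [Real.exp_le_one_iff]
    have : (-t * (τ : ℂ)).re = -(t.re * τ) := by simp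
    rw [this]
    have := mul_nonneg ht hτ.le
    linarith
  have h2 : ∏ j, ‖Hf (f j) (I j) (a j) τ (x j)‖ ≤ ∏ j, (2 * (Real.exp (-c j * τ) *
      (x j ^ (I j) * Real.exp (-(c₁ j * τ) * x j ^ (f j).natDegree)))) :=
    Finset.prod_le_prod (fun j _ => norm_nonneg _) fun j _ =>
      norm_Hf (f j) (c j) (c₁ j) (I j) (a j) (hr j) τ (x j) hτ (hx j)
  have h3 : ∏ j, (2 * (Real.exp (-c j * τ) *
      (x j ^ (I j) * Real.exp (-(c₁ j * τ) * x j ^ (f j).natDegree)))) =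
      Real.exp (-(∑ j, c j) * τ) *
      ∏ j, (2 * (x j ^ (I j) * Real.exp (-(c₁ j * τ) * x j ^ (f j).natDegree))) := by
    have h4 : Real.exp (-(∑ j, c j) * τ) = ∏ j, Real.exp (-c j * τ) := by
      rw [← Real.exp_sum]
      congr 1
      rw [neg_mul, Finset.sum_mul, ← Finset.sum_neg_distrib]
      exact Finset.sum_congr rfl fun j _ => by ring
    rw [h4, ← Finset.prod_mul_distrib]
    exact Finset.prod_congr rfl fun j _ => by ring
  have h5 : τ ^ (n - 1) * Real.exp (-t * (τ : ℂ)).re ≤ τ ^ (n - 1) * 1 :=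
    mul_le_mul_of_nonneg_left h1 (pow_nonneg hτ.le _)
  calc τ ^ (n - 1) * Real.exp (-t * (τ : ℂ)).re * ∏ j, ‖Hf (f j) (I j) (a j) τ (x j)‖
      ≤ τ ^ (n - 1) * 1 * ∏ j, (2 * (Real.exp (-c j * τ) *
      (x j ^ (I j) * Real.exp (-(c₁ j * τ) * x j ^ (f j).natDegree)))) :=
        mul_le_mul h5 h2 (Finset.prod_nonneg fun j _ => norm_nonneg _)
          (by positivity)
    _ = _ := by rw [h3]; ring

end

end LAP_

open LAP_ in
theorem lap_proof (hR : Stmt_Ray) : Stmt_Lap := by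
  intro n f hn hm hd hray t ht
  choose c c₁ C hc hc₁ hC hb using fun j => hR (f j) (hm j) (hd j) (hray j)
  ext I a
  set In : Fin n → ℕ := fun j => (I j : ℕ) with hIn
  set an : Fin n → ℕ := fun j => (a j : ℕ) with han
  have hrr : ∀ (j : Fin n) (l : ℕ) (x : ℝ), 0 ≤ x →
      c j + c₁ j * x ^ (f j).natDegree ≤ (ray (f j) l x).re := fun j l x hx => (hb j l x hx).1
  have hS : (volume : Measure (Fin n → ℝ)).restrict {x : Fin n → ℝ | ∀ j, 0 < x j} =
      Measure.pi (fun _ : Fin n => (volume : Measure ℝ).restrict (Ioi 0)) := by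
    have h1 : {x : Fin n → ℝ | ∀ j, 0 < x j} = Set.univ.pi fun _ => Ioi (0 : ℝ) := by
      ext x; simp
    rw [h1, volume_pi, Measure.restrict_pi_pi]
  have hmS : MeasurableSet {x : Fin n → ℝ | ∀ j, 0 < x j} := by
    have h1 : {x : Fin n → ℝ | ∀ j, 0 < x j} = Set.univ.pi fun _ => Ioi (0 : ℝ) := by
      ext x; simp
    rw [h1]
    exact MeasurableSet.univ_pi fun _ => measurableSet_Ioi
  have hcc : 0 < ∑ j, c j := Finset.sum_pos (fun j _ => hc j) ⟨⟨0, hn⟩, Finset.mem_univ _⟩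
  have hFint : Integrable (Function.uncurry (FF f t In an))
      ((Measure.pi fun _ : Fin n => (volume : Measure ℝ).restrict (Ioi 0)).prod
        ((volume : Measure ℝ).restrict (Ioi 0))) := by
    refine Integrable.mono' (integrable_Gb hn (fun j => (f j).natDegree) In
      (fun j => ?_) c₁ hc₁ (∑ j, c j) hcc) (continuous_FF f t In an).aestronglyMeasurable ?_
    · have h1 := (I j).isLt
      have h2 := hd j
      show (I j : ℕ) + 1 < (f j).natDegree
      omega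
    · rw [← hS, Measure.prod_restrict]
      refine (ae_restrict_mem (hmS.prod measurableSet_Ioi)).mono ?_
      rintro ⟨x, τ⟩ ⟨hx, hτ⟩
      exact norm_FF f t ht In an c c₁ hrr x hx τ hτ
  have h1 : ∀ x ∈ {x : Fin n → ℝ | ∀ j, 0 < x j}, integrand f t I a x =
      (1 / ((n - 1).factorial : ℂ)) * ∫ τ in Ioi (0 : ℝ), FF f t In an x τ := by
    intro x hx
    have h2 : ∀ (j : Fin n) (l : ℕ), 0 < (ray (f j) l (x j)).re := fun j l =>
      hray j l (x j) (le_of_lt (hx j))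
    rw [integral_FF f hn t ht In an x h2]
    have h3 : ((n - 1).factorial : ℂ) ≠ 0 := by exact_mod_cast (n - 1).factorial_ne_zero
    rw [← mul_assoc, one_div, inv_mul_cancel₀ h3, one_mul]
    rfl
  have h2 : per f t I a = ∫ x in {x : Fin n → ℝ | ∀ j, 0 < x j}, integrand f t I a x := rfl
  have h3 : LM f t I a = (1 / ((n - 1).factorial : ℂ)) *
    ∫ τ in Ioi (0 : ℝ), (τ : ℂ) ^ (n - 1) * Complex.exp (-t * τ) * GG f τ I a := rfl
  rw [h2, h3, setIntegral_congr_fun hmS h1, integral_const_mul]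
  congr 1
  rw [hS, integral_integral_swap hFint]
  refine setIntegral_congr_fun measurableSet_Ioi fun τ hτ => ?_
  have hτ' : (0 : ℝ) < τ := hτ
  show ∫ x, FF f t In an x τ ∂_ = _
  unfold FF
  rw [integral_const_mul, integral_fintype_prod_eq_prod (𝕜 := ℂ)
    (f := fun j x => Hf (f j) (In j) (an j) τ x)]
  congr 1
  refine Finset.prod_congr rfl fun j _ => ?_
  exact integral_Hf (f j) (by have := hd j; omega) (c j) (c₁ j) (hc j) (hc₁ j) _ _ (hrr j) τ hτ'

end Pool.Agent.EVD
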