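import Pool.Agent.EVD.Stmts

set_option autoImplicit false

/-!
# EVD, module LIA: the Lie algebra of a closed group of isometries is a complex subspace
-/

open scoped BigOperators

namespace Pool.Agent.EVD

noncomputable section

namespace LIA_

variable {ι : Type} [Fintype ι] [DecidableEq ι]

/-- Evaluation of a polynomial at a matrix. -/
def ev (P : MvPolynomial (ι × ι) ℂ) (a : Matrix ι ι ℂ) : ℂ :=
  MvPolynomial.eval (fun p => a p.1 p.2) P

/-- The coordinates of `a * X` as polynomials in the coordinates of `a`. -/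
def lin (X : Matrix ι ι ℂ) : ι × ι → MvPolynomial (ι × ι) ℂ := fun p =>
  ∑ l, MvPolynomial.C (X l p.2) * MvPolynomial.X (p.1, l)

/-- The derivation `D_X`. -/
def DD (X : Matrix ι ι ℂ) : Derivation ℂ (MvPolynomial (ι × ι) ℂ) (MvPolynomial (ι × ι) ℂ) :=
  MvPolynomial.mkDerivation ℂ (lin X)

omit [Fintype ι] [DecidableEq ι] in
lemma ev_C (z : ℂ) (a : Matrix ι ι ℂ) : ev (MvPolynomial.C z) a = z := by simp [ev]

omit [Fintype ι] [DecidableEq ι] in
lemma ev_add (P Q : MvPolynomial (ι × ι) ℂ) (a : Matrix ι ι ℂ) :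
    ev (P + Q) a = ev P a + ev Q a := by simp [ev]

omit [Fintype ι] [DecidableEq ι] in
lemma ev_mul (P Q : MvPolynomial (ι × ι) ℂ) (a : Matrix ι ι ℂ) :
    ev (P * Q) a = ev P a * ev Q a := by simp [ev]

omit [Fintype ι] [DecidableEq ι] in
lemma ev_X (o : ι × ι) (a : Matrix ι ι ℂ) : ev (MvPolynomial.X o) a = a o.1 o.2 := by
  simp [ev]

omit [DecidableEq ι] in
lemma ev_lin (X a : Matrix ι ι ℂ) (o : ι × ι) : ev (lin X o) a = (a * X) o.1 o.2 := by
  simp only [lin, ev, map_sum, map_mul, MvPolynomial.eval_C, MvPolynomial.eval_X,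
    Matrix.mul_apply]
  exact Finset.sum_congr rfl fun l _ => mul_comm _ _

omit [DecidableEq ι] in
/-- The chain rule. -/
lemma chain (X : Matrix ι ι ℂ) (φ : ℂ → Matrix ι ι ℂ)
    (hφ : ∀ t i j, HasDerivAt (fun t => φ t i j) ((φ t * X) i j) t)
    (P : MvPolynomial (ι × ι) ℂ) (t : ℂ) :
    HasDerivAt (fun t => ev P (φ t)) (ev (DD X P) (φ t)) t := by
  induction P using MvPolynomial.induction_on with
  | C z =>
    have h1 : (fun t => ev (MvPolynomial.C z) (φ t)) = fun _ => z := by
      funext t; exact ev_C z _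
    have h2 : DD X (MvPolynomial.C z) = 0 := by
      exact MvPolynomial.derivation_C _ _
    rw [h1, h2]
    have h3 : ev (0 : MvPolynomial (ι × ι) ℂ) (φ t) = 0 := by simp [ev]
    rw [h3]
    exact hasDerivAt_const t z
  | add P Q hP hQ =>
    have h1 : (fun t => ev (P + Q) (φ t)) = fun t => ev P (φ t) + ev Q (φ t) := by
      funext t; exact ev_add _ _ _
    rw [h1, map_add, ev_add]
    exact hP.add hQ
  | mul_X P o hP =>
    have h1 : (fun t => ev (P * MvPolynomial.X o) (φ t)) =
        fun t => ev P (φ t) * φ t o.1 o.2 := by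
      funext t; rw [ev_mul, ev_X]
    have h2 : ev (DD X (P * MvPolynomial.X o)) (φ t) =
        ev (DD X P) (φ t) * φ t o.1 o.2 + ev P (φ t) * (φ t * X) o.1 o.2 := by
      rw [Derivation.leibniz, smul_eq_mul, smul_eq_mul, ev_add, ev_mul, ev_mul, ev_X, DD,
        MvPolynomial.mkDerivation_X, ev_lin]
      ring
    rw [h1, h2]
    exact hP.mul (hφ t o.1 o.2)

open scoped Matrix.Norms.Operator in
set_option backward.isDefEq.respectTransparency false in
lemma exp_entry (M : Matrix ι ι ℂ) (i j : ι) (t : ℂ) :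
    HasDerivAt (fun t : ℂ => NormedSpace.exp (t • M) i j)
      ((NormedSpace.exp (t • M) * M) i j) t := by
  have h := hasDerivAt_exp_smul_const (𝕂 := ℂ) M t
  exact ((Matrix.entryLinearMap ℂ ℂ i j).toContinuousLinearMap.hasFDerivAt.comp_hasDerivAt t h)

lemma curve (h X : Matrix ι ι ℂ) (t : ℂ) (i j : ι) :
    HasDerivAt (fun t => (h * NormedSpace.exp (t • X)) i j)
      ((h * NormedSpace.exp (t • X) * X) i j) t := by
  rw [mul_assoc]
  simp only [Matrix.mul_apply (M := h)]
  exact HasDerivAt.fun_sum fun l _ => (exp_entry X l j t).const_mul (h i l)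

/-- The equations of the group of isometries. -/
def eqn (Q : Matrix ι ι ℂ) (j k : ι) : MvPolynomial (ι × ι) ℂ :=
  (∑ a, (∑ b, MvPolynomial.X (b, j) * MvPolynomial.C (Q b a)) * MvPolynomial.X (a, k)) -
    MvPolynomial.C (Q j k)

omit [DecidableEq ι] in
lemma ev_eqn (Q : Matrix ι ι ℂ) (j k : ι) (a : Matrix ι ι ℂ) :
    ev (eqn Q j k) a = (a.transpose * Q * a) j k - Q j k := by
  simp only [eqn, ev, map_sub, map_sum, map_mul, MvPolynomial.eval_C,
    MvPolynomial.eval_X, Matrix.mul_apply, Matrix.transpose_apply]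

/-- A direction whose derivation preserves the ideal is in the Lie algebra. -/
lemma of_deriv {Q : Matrix ι ι ℂ} {H : Set (Matrix ι ι ℂ)} (hH : ClG Q H) (Z : Matrix ι ι ℂ)
    (hZ : ∀ P : MvPolynomial (ι × ι) ℂ, (∀ h ∈ H, ev P h = 0) → ∀ h ∈ H, ev (DD Z P) h = 0) :
    Z ∈ Lie H := by
  have hall : ∀ n : ℕ, ∀ P : MvPolynomial (ι × ι) ℂ, (∀ h ∈ H, ev P h = 0) →
      ∀ h ∈ H, ev ((fun Q => DD Z Q)^[n] P) h = 0 := by
    intro n
    induction n with
    | zero => intro P hP; exact hP
    | succ n ih =>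
      intro P hP
      rw [Function.iterate_succ_apply]
      exact ih _ (hZ P hP)
  have hc := fun (P : MvPolynomial (ι × ι) ℂ) (t : ℂ) =>
    chain Z (fun t => 1 * NormedSpace.exp (t • Z)) (curve 1 Z) P t
  have hit : ∀ n : ℕ, ∀ P : MvPolynomial (ι × ι) ℂ,
      iteratedDeriv n (fun t : ℂ => ev P (1 * NormedSpace.exp (t • Z))) =
      fun t => ev ((fun Q => DD Z Q)^[n] P) (1 * NormedSpace.exp (t • Z)) := by
    intro n
    induction n with
    | zero => intro P; rw [iteratedDeriv_zero]; rfl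
    | succ n ih =>
      intro P
      rw [iteratedDeriv_succ', Function.iterate_succ_apply]
      have h1 : deriv (fun t : ℂ => ev P (1 * NormedSpace.exp (t • Z))) =
          fun t => ev (DD Z P) (1 * NormedSpace.exp (t • Z)) := by
        funext t
        exact (hc P t).deriv
      rw [h1]
      exact ih _
  have hzero : ∀ P : MvPolynomial (ι × ι) ℂ, (∀ h ∈ H, ev P h = 0) → ∀ t : ℂ,
      ev P (NormedSpace.exp (t • Z)) = 0 := by
    intro P hP t
    have hd : Differentiable ℂ (fun t : ℂ => ev P (1 * NormedSpace.exp (t • Z))) :=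
      fun t => (hc P t).differentiableAt
    have hs := Complex.hasSum_taylorSeries_of_entire hd 0 t
    have h0 : (fun n : ℕ => ((n.factorial : ℂ))⁻¹ • (t - 0) ^ n •
        iteratedDeriv n (fun t : ℂ => ev P (1 * NormedSpace.exp (t • Z))) 0) = fun _ => 0 := by
      funext n
      rw [hit]
      simp only
      rw [zero_smul, NormedSpace.exp_zero, mul_one, hall n P hP 1 hH.one, smul_zero, smul_zero]
    rw [h0] at hs
    have h2 := hs.unique hasSum_zero
    simpa using h2
  intro t
  have hin : Iso Q (NormedSpace.exp (t • Z)) := by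
    unfold Iso
    ext j k
    have h1 := hzero (eqn Q j k) (fun h hh => by
      have h2 := hH.sub h hh
      unfold Iso at h2
      rw [ev_eqn, h2, sub_self]) t
    rw [ev_eqn, sub_eq_zero] at h1
    exact h1
  exact hH.closed _ hin fun P hP => hzero P hP t

lemma deriv_of {Q : Matrix ι ι ℂ} {H : Set (Matrix ι ι ℂ)} (hH : ClG Q H)
    (X : Matrix ι ι ℂ) (hX : X ∈ Lie H)
    (P : MvPolynomial (ι × ι) ℂ) (hP : ∀ h ∈ H, ev P h = 0) : ∀ h ∈ H, ev (DD X P) h = 0 := by
  intro h hh
  have hc := chain X (fun t => h * NormedSpace.exp (t • X)) (curve h X) P 0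
  have h1 : (fun t : ℂ => ev P (h * NormedSpace.exp (t • X))) = fun _ => 0 := by
    funext t
    exact hP _ (hH.mul h hh _ (hX t))
  rw [h1, zero_smul, NormedSpace.exp_zero, mul_one] at hc
  exact (hc.unique (hasDerivAt_const 0 0))

omit [DecidableEq ι] in
lemma lin_add (X Y : Matrix ι ι ℂ) (c : ℂ) (o : ι × ι) :
    lin (X + c • Y) o = lin X o + MvPolynomial.C c * lin Y o := by
  simp only [lin, Matrix.add_apply, Matrix.smul_apply, smul_eq_mul, map_add, map_mul,
    Finset.mul_sum]
  rw [← Finset.sum_add_distrib]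
  exact Finset.sum_congr rfl fun l _ => by ring

omit [DecidableEq ι] in
lemma DD_add (X Y : Matrix ι ι ℂ) (c : ℂ) (P : MvPolynomial (ι × ι) ℂ) :
    DD (X + c • Y) P = DD X P + MvPolynomial.C c * DD Y P := by
  have h : DD (X + c • Y) = DD X + c • DD Y := by
    apply MvPolynomial.derivation_ext
    intro o
    simp only [DD, Derivation.add_apply, Derivation.smul_apply, MvPolynomial.mkDerivation_X]
    rw [lin_add, MvPolynomial.smul_eq_C_mul]
  rw [h, Derivation.add_apply, Derivation.smul_apply, MvPolynomial.smul_eq_C_mul]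

end LIA_

open LIA_ in
theorem lia_proof : Stmt_Lia := by
  intro ι _ _ Q H hH X hX Y hY c
  refine of_deriv hH _ fun P hP h hh => ?_
  rw [DD_add, ev_add, ev_mul, deriv_of hH X hX P hP h hh, deriv_of hH Y hY P hP h hh, mul_zero,
    add_zero]

end

end Pool.Agent.EVD
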