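import Pool.Agent.EVD.Stmts
import Pool.Agent.UBD.UNC
import Pool.Agent.UBD.ONEP

set_option autoImplicit false
set_option linter.unusedSectionVars false

/-!
# EVD: an infinite closed subgroup has a Lie algebra different from zero
-/

open scoped BigOperators Topology
open Filter

namespace Pool.Agent.EVD

noncomputable section

namespace LIB_

attribute [local instance] Matrix.linftyOpNormedRing Matrix.linftyOpNormedAlgebra

variable {ι : Type} [Fintype ι] [DecidableEq ι]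

instance csM : CompleteSpace (Matrix ι ι ℂ) := FiniteDimensional.complete ℂ _

instance scM : SecondCountableTopology (Matrix ι ι ℂ) :=
  inferInstanceAs (SecondCountableTopology (ι → ι → ℂ))

/-- the value of a polynomial at a matrix -/
def ev (P : MvPolynomial (ι × ι) ℂ) (a : Matrix ι ι ℂ) : ℂ :=
  MvPolynomial.eval (fun p => a p.1 p.2) P

/-- the matrix with given entries -/
def toM (x : ι × ι → ℂ) : Matrix ι ι ℂ := Matrix.of fun a b => x (a, b)

lemma ev_toM (P : MvPolynomial (ι × ι) ℂ) (x : ι × ι → ℂ) :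
    ev P (toM x) = MvPolynomial.eval x P := rfl

/-- the equations of the group -/
def eqn (Q : Matrix ι ι ℂ) (j k : ι) : MvPolynomial (ι × ι) ℂ :=
  (∑ b, (∑ a, MvPolynomial.X (a, j) * MvPolynomial.C (Q a b)) * MvPolynomial.X (b, k)) -
    MvPolynomial.C (Q j k)

lemma ev_eqn (Q : Matrix ι ι ℂ) (j k : ι) (a : Matrix ι ι ℂ) :
    ev (eqn Q j k) a = (a.transpose * Q * a) j k - Q j k := by
  unfold ev eqn
  rw [Matrix.mul_apply]
  simp only [map_sub, map_sum, map_mul, MvPolynomial.eval_X, MvPolynomial.eval_C]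
  congr 1

lemma ev_eqn_eq_zero {Q : Matrix ι ι ℂ} {a : Matrix ι ι ℂ} (h : Iso Q a) (j k : ι) :
    ev (eqn Q j k) a = 0 := by
  rw [ev_eqn, sub_eq_zero]
  exact congrFun (congrFun h j) k

/-- a point in the Zariski closure -/
lemma mem_of_zero {Q : Matrix ι ι ℂ} {H : Set (Matrix ι ι ℂ)} (hH : ClG Q H)
    {a : Matrix ι ι ℂ}
    (h : ∀ P : MvPolynomial (ι × ι) ℂ, (∀ h ∈ H, ev P h = 0) → ev P a = 0) : a ∈ H := by
  refine hH.closed a ?_ h
  have h2 : ∀ j k : ι, ev (eqn Q j k) a = 0 := fun j k =>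
    h _ fun b hb => ev_eqn_eq_zero (hH.sub b hb) j k
  show a.transpose * Q * a = Q
  ext j k
  have := h2 j k
  rw [ev_eqn, sub_eq_zero] at this
  exact this

lemma not_countable {Q : Matrix ι ι ℂ} {H : Set (Matrix ι ι ℂ)} (hH : ClG Q H)
    (hinf : ¬ H.Finite) : ¬ H.Countable := by
  intro hc
  apply hinf
  set V : Set (ι × ι → ℂ) := {x | (∀ P ∈ {P : MvPolynomial (ι × ι) ℂ | ∀ h ∈ H, ev P h = 0},
    MvPolynomial.eval x P = 0) ∧ MvPolynomial.eval x (1 : MvPolynomial (ι × ι) ℂ) ≠ 0} with hV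
  have e : ∀ x, x ∈ V ↔ toM x ∈ H := by
    intro x
    constructor
    · rintro ⟨h2, -⟩
      exact mem_of_zero hH fun P hP => h2 P hP
    · intro hx
      refine ⟨fun P hP => hP _ hx, ?_⟩
      rw [map_one]
      exact one_ne_zero
  have hinj : Function.Injective
      (fun a : Matrix ι ι ℂ => (fun p : ι × ι => a p.1 p.2 : ι × ι → ℂ)) := by
    intro a b hab
    ext i j
    exact congrFun hab (i, j)
  have hVe : V = (fun a : Matrix ι ι ℂ => (fun p : ι × ι => a p.1 p.2 : ι × ι → ℂ)) '' H := by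
    ext x
    rw [e]
    constructor
    · intro hx
      exact ⟨_, hx, rfl⟩
    · rintro ⟨a, ha, rfl⟩
      exact ha
  have hVc : V.Countable := by
    rw [hVe]
    exact hc.image _
  have hVf : V.Finite := Pool.Agent.UBD.unc_proof (ι × ι)
    {P : MvPolynomial (ι × ι) ℂ | ∀ h ∈ H, ev P h = 0} 1 hVc
  rw [hVe] at hVf
  exact hVf.of_finite_image hinj.injOn

lemma ev_eq (P : MvPolynomial (ι × ι) ℂ) (a : Matrix ι ι ℂ) :
    ev P a = ∑ d ∈ P.support, P.coeff d * ∏ o, (a o.1 o.2) ^ d o := by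
  unfold ev
  rw [MvPolynomial.eval_eq']

lemma ev_cont (P : MvPolynomial (ι × ι) ℂ) :
    Continuous (ev P : Matrix ι ι ℂ → ℂ) := by
  have : ev P = fun a => ∑ d ∈ P.support, P.coeff d * ∏ o : ι × ι, (a o.1 o.2) ^ d o :=
    funext fun a => ev_eq P a
  rw [this]
  refine continuous_finsetSum _ fun d _ => continuous_const.mul ?_
  exact continuous_finsetProd _ fun o _ => (continuous_id.matrix_elem o.1 o.2).pow _

lemma entry_diff (X : Matrix ι ι ℂ) (o : ι × ι) :
    Differentiable ℂ fun t : ℂ => (NormedSpace.exp (t • X)) o.1 o.2 := by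
  have h1 : Differentiable ℂ fun t : ℂ => NormedSpace.exp (t • X) := fun t =>
    (hasDerivAt_exp_smul_const X t).differentiableAt
  have h2 : Differentiable ℂ fun M : Matrix ι ι ℂ => M o.1 o.2 := by
    have := (LinearMap.toContinuousLinearMap
      (Matrix.entryLinearMap ℂ ℂ o.1 o.2 : Matrix ι ι ℂ →ₗ[ℂ] ℂ)).differentiable
    exact this
  exact h2.comp h1

lemma ev_diff (P : MvPolynomial (ι × ι) ℂ) (X : Matrix ι ι ℂ) :
    Differentiable ℂ fun t : ℂ => ev P (NormedSpace.exp (t • X)) := by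
  have : (fun t : ℂ => ev P (NormedSpace.exp (t • X))) = fun t => ∑ d ∈ P.support, P.coeff d *
      ∏ o : ι × ι, ((NormedSpace.exp (t • X)) o.1 o.2) ^ d o :=
    funext fun t => ev_eq P _
  rw [this]
  refine Differentiable.fun_sum fun d _ => Differentiable.const_mul ?_ _
  have h2 : ∀ s : Finset (ι × ι), Differentiable ℂ
      (fun t : ℂ => ∏ o ∈ s, ((NormedSpace.exp (t • X)) o.1 o.2) ^ d o) := by
    intro s
    induction s using Finset.induction_on with
    | empty =>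
      simp only [Finset.prod_empty]
      exact differentiable_const _
    | insert a s ha ih =>
      simp only [Finset.prod_insert ha]
      exact ((entry_diff X a).fun_pow _).fun_mul ih
  exact h2 Finset.univ

lemma entire_zero {f : ℂ → ℂ} (hf : Differentiable ℂ f) (h : ∀ t : ℝ, 0 ≤ t → f t = 0)
    (t : ℂ) : f t = 0 := by
  have h1 : AnalyticOnNhd ℂ f Set.univ := fun z _ => hf.analyticAt z
  have h2 : Tendsto (fun n : ℕ => ((1 / ((n : ℝ) + 1) : ℝ) : ℂ)) atTop (𝓝[≠] (0 : ℂ)) := by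
    refine tendsto_nhdsWithin_iff.2 ⟨?_, Eventually.of_forall fun n => ?_⟩
    · have := tendsto_one_div_add_atTop_nhds_zero_nat (𝕜 := ℝ)
      have h3 := (Complex.continuous_ofReal.tendsto 0).comp this
      simpa [Function.comp_def] using h3
    · have : (1 / ((n : ℝ) + 1) : ℝ) ≠ 0 := by positivity
      exact Complex.ofReal_ne_zero.2 this
  have h3 : ∃ᶠ z in 𝓝[≠] (0 : ℂ), f z = 0 :=
    h2.frequently (Frequently.of_forall fun n => h _ (by positivity))
  exact h1.eqOn_zero_of_preconnected_of_frequently_eq_zero isPreconnected_univ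
    (Set.mem_univ 0) h3 (Set.mem_univ t)

theorem main {Q : Matrix ι ι ℂ} {H : Set (Matrix ι ι ℂ)} (hH : ClG Q H)
    (hinf : ¬ H.Finite) : ∃ X ∈ Lie H, X ≠ 0 := by
  have hnc := not_countable hH hinf
  have hnd : ¬ IsDiscrete H := fun h =>
    hnc ((HereditarilyLindelofSpace.isLindelof _).countable_of_isDiscrete h)
  rw [isDiscrete_iff_nhdsNE] at hnd
  push Not at hnd
  obtain ⟨h₀, hh₀, hacc⟩ := hnd
  obtain ⟨k, hk, hk1, hk2⟩ := hH.inv h₀ hh₀
  have hclose : ∀ ε : ℝ, 0 < ε → ∃ h ∈ H, h ≠ 1 ∧ ‖h - 1‖ < ε := by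
    intro ε hε
    have hcont : Continuous fun h : Matrix ι ι ℂ => ‖k * h - 1‖ := by fun_prop
    have hev : ∀ᶠ h in 𝓝 h₀, ‖k * h - 1‖ < ε := by
      refine hcont.continuousAt.eventually_lt continuousAt_const ?_
      show ‖k * h₀ - 1‖ < ε
      rw [hk2, sub_self, norm_zero]
      exact hε
    have hne : (𝓝[≠] h₀ ⊓ 𝓟 H).NeBot := hacc
    have hev2 : ∀ᶠ h in 𝓝[≠] h₀ ⊓ 𝓟 H, ‖k * h - 1‖ < ε ∧ h ≠ h₀ ∧ h ∈ H := by
      have e1 : ∀ᶠ h in 𝓝[≠] h₀ ⊓ 𝓟 H, ‖k * h - 1‖ < ε :=
        (hev.filter_mono nhdsWithin_le_nhds).filter_mono inf_le_left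
      have e2 : ∀ᶠ h in 𝓝[≠] h₀ ⊓ 𝓟 H, h ≠ h₀ :=
        Eventually.filter_mono inf_le_left (eventually_mem_nhdsWithin)
      have e3 : ∀ᶠ h in 𝓝[≠] h₀ ⊓ 𝓟 H, h ∈ H :=
        Eventually.filter_mono inf_le_right (mem_principal_self H)
      filter_upwards [e1, e2, e3] with h a1 a2 a3
      exact ⟨a1, a2, a3⟩
    obtain ⟨h, a1, a2, a3⟩ := hev2.exists
    refine ⟨k * h, hH.mul k hk h a3, ?_, a1⟩
    intro hh
    apply a2
    calc h = (h₀ * k) * h := by rw [hk1, one_mul]
      _ = h₀ * (k * h) := by rw [mul_assoc]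
      _ = h₀ := by rw [hh, mul_one]
  obtain ⟨X, hX, hcl⟩ := Pool.Agent.UBD.onep_proof (Matrix ι ι ℂ) H hH.one hH.mul hclose
  refine ⟨X, fun t => ?_, hX⟩
  refine mem_of_zero hH fun P hP => ?_
  refine entire_zero (ev_diff P X) (fun s hs => ?_) t
  have h3 : NormedSpace.exp ((s : ℂ) • X) ∈ closure H := hcl s hs
  have h4 : closure H ⊆ {a | ev P a = 0} :=
    closure_minimal hP (isClosed_eq (ev_cont P) continuous_const)
  exact h4 h3

end LIB_

theorem lib_proof : Stmt_Lib := by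
  intro ι _ _ Q H _ hH hinf
  exact LIB_.main hH hinf

end

end Pool.Agent.EVD
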