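import Pool.Agent.EVD.Stmts

set_option autoImplicit false

/-!
# EVD, module LIC: antisymmetry, conjugation and brackets in the Lie algebra of a closed group
-/

open scoped BigOperators Topology

namespace Pool.Agent.EVD

noncomputable section

namespace LIC_

variable {ι : Type} [Fintype ι] [DecidableEq ι]

open scoped Matrix.Norms.Operator in
set_option backward.isDefEq.respectTransparency false in
lemma exp_deriv (M : Matrix ι ι ℂ) :
    HasDerivAt (fun t : ℂ => NormedSpace.exp (t • M)) M 0 := by
  have h := hasDerivAt_exp_smul_const (𝕂 := ℂ) M 0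
  simpa using h

open scoped Matrix.Norms.Operator in
set_option backward.isDefEq.respectTransparency false in
lemma exp_deriv_neg (M : Matrix ι ι ℂ) :
    HasDerivAt (fun t : ℂ => NormedSpace.exp ((-t) • M)) (-M) 0 := by
  have h := exp_deriv (-M)
  have e : (fun t : ℂ => NormedSpace.exp ((-t) • M)) = fun t : ℂ => NormedSpace.exp (t • (-M)) := by
    funext t
    rw [neg_smul, smul_neg]
  rw [e]
  exact h

open scoped Matrix.Norms.Operator in
set_option backward.isDefEq.respectTransparency false in
lemma transpose_deriv (M : Matrix ι ι ℂ) :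
    HasDerivAt (fun t : ℂ => (NormedSpace.exp (t • M)).transpose) M.transpose 0 := by
  have h := exp_deriv M.transpose
  have e : (fun t : ℂ => (NormedSpace.exp (t • M)).transpose) =
      fun t : ℂ => NormedSpace.exp (t • M.transpose) := by
    funext t
    rw [← Matrix.exp_transpose, Matrix.transpose_smul]
  rw [e]
  exact h

open scoped Matrix.Norms.Operator in
set_option backward.isDefEq.respectTransparency false in
lemma antisym (Q X : Matrix ι ι ℂ)
    (h : ∀ t : ℂ, (NormedSpace.exp (t • X)).transpose * Q * NormedSpace.exp (t • X) = Q) :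
    X.transpose * Q + Q * X = 0 := by
  have h1 : HasDerivAt (fun t : ℂ => (NormedSpace.exp (t • X)).transpose * Q *
      NormedSpace.exp (t • X))
      ((X.transpose * Q) * NormedSpace.exp ((0 : ℂ) • X) +
        ((NormedSpace.exp ((0 : ℂ) • X)).transpose * Q) * X) 0 :=
    ((transpose_deriv X).mul_const Q).mul (exp_deriv X)
  have h2 : (fun t : ℂ => (NormedSpace.exp (t • X)).transpose * Q *
      NormedSpace.exp (t • X)) = fun _ => Q := funext h
  rw [h2] at h1
  have h3 := h1.unique (hasDerivAt_const (0 : ℂ) Q)
  simpa using h3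

open scoped Matrix.Norms.Operator in
set_option backward.isDefEq.respectTransparency false in
lemma bracket (W : Submodule ℂ (Matrix ι ι ℂ)) (X Y : Matrix ι ι ℂ)
    (h : ∀ t : ℂ, NormedSpace.exp (t • X) * Y * NormedSpace.exp ((-t) • X) ∈ W) :
    X * Y - Y * X ∈ W := by
  have h1 : HasDerivAt (fun t : ℂ => NormedSpace.exp (t • X) * Y * NormedSpace.exp ((-t) • X))
      ((X * Y) * NormedSpace.exp ((-(0 : ℂ)) • X) + (NormedSpace.exp ((0 : ℂ) • X) * Y) * (-X)) 0 :=
    ((exp_deriv X).mul_const Y).mul (exp_deriv_neg X)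
  have e : (X * Y) * NormedSpace.exp ((-(0 : ℂ)) • X) +
      (NormedSpace.exp ((0 : ℂ) • X) * Y) * (-X) = X * Y - Y * X := by
    simp [sub_eq_add_neg]
  rw [e, hasDerivAt_iff_tendsto_slope_zero] at h1
  have hcl : IsClosed (W : Set (Matrix ι ι ℂ)) := W.closed_of_finiteDimensional
  refine hcl.mem_of_tendsto h1 (Filter.Eventually.of_forall fun t => ?_)
  exact W.smul_mem _ (W.sub_mem (h _) (h _))

lemma exp_conj (a b X : Matrix ι ι ℂ) (hab : a * b = 1) (hba : b * a = 1) (t : ℂ) :
    NormedSpace.exp (t • (a * X * b)) = a * NormedSpace.exp (t • X) * b := by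
  have hinv : a⁻¹ = b := Matrix.inv_eq_right_inv hab
  have hu : IsUnit a := by
    rw [Matrix.isUnit_iff_isUnit_det]
    exact Matrix.isUnit_det_of_right_inverse hab
  have := Matrix.exp_conj a (t • X) hu
  rw [hinv] at this
  rw [← this]
  congr 1
  rw [Matrix.mul_smul, Matrix.smul_mul]

end LIC_

open LIC_ in
theorem lic_proof (hA : Stmt_Lia) : Stmt_Lic := by
  intro ι _ _ Q H hH
  have conj : ∀ a b : Matrix ι ι ℂ, a * b = 1 → b * a = 1 → (∀ h ∈ H, a * h * b ∈ H) →
      ∀ X ∈ Lie H, a * X * b ∈ Lie H := by
    intro a b hab hba hh X hX t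
    rw [exp_conj a b X hab hba t]
    exact hh _ (hX t)
  refine ⟨?_, conj, ?_⟩
  · intro X hX
    exact antisym Q X fun t => hH.sub _ (hX t)
  · intro X hX Y hY
    have h0 : (0 : Matrix ι ι ℂ) ∈ Lie H := by
      intro t
      rw [smul_zero, NormedSpace.exp_zero]
      exact hH.one
    let W : Submodule ℂ (Matrix ι ι ℂ) :=
      { carrier := Lie H
        add_mem' := by
          intro A B hA' hB'
          have := hA ι Q H hH A hA' B hB' 1
          rwa [one_smul] at this
        zero_mem' := h0
        smul_mem' := by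
          intro c A hA'
          have := hA ι Q H hH 0 h0 A hA' c
          rwa [zero_add] at this }
    refine bracket W X Y fun t => ?_
    have hexp : ∀ s : ℂ, NormedSpace.exp (s • X) * NormedSpace.exp ((-s) • X) = 1 := by
      intro s
      have hc : Commute (s • X) ((-s) • X) :=
        ((Commute.refl X).smul_left s).smul_right (-s)
      rw [← Matrix.exp_add_of_commute _ _ hc, ← add_smul, add_neg_cancel, zero_smul,
        NormedSpace.exp_zero]
    have hexp' : NormedSpace.exp ((-t) • X) * NormedSpace.exp (t • X) = 1 := by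
      have := hexp (-t)
      rwa [neg_neg] at this
    exact conj _ _ (hexp t) hexp' (fun h hh => hH.mul _ (hH.mul _ (hX t) _ hh) _ (hX (-t))) Y hY

end

end Pool.Agent.EVD
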