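import Pool.Agent.EVD.Stmts

set_option autoImplicit false

open scoped BigOperators Topology
open Metric Set MeasureTheory

namespace Pool.Agent.EVD

namespace LMO_

/-- the integrand -/
noncomputable def fk (g : ℝ → ℂ) (k : ℕ) (t : ℂ) (τ : ℝ) : ℂ := (τ : ℂ) ^ k * Complex.exp (-t * τ) * g τ

theorem norm_fk (g : ℝ → ℂ) (C c b : ℝ)
    (hb : ∀ τ : ℝ, 0 < τ → ‖g τ‖ ≤ C * Real.exp (-(c * τ)) * τ ^ (-b)) (k : ℕ) (t : ℂ) (τ : ℝ)
    (hτ : 0 < τ) :
    ‖fk g k t τ‖ ≤ C * (τ ^ ((k : ℝ) - b) * Real.exp (-(c + t.re) * τ)) := by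
  unfold fk
  have h1 : ‖(τ : ℂ) ^ k * Complex.exp (-t * τ)‖ = τ ^ k * Real.exp (-(t.re * τ)) := by
    rw [norm_mul, norm_pow, Complex.norm_real, Real.norm_of_nonneg hτ.le, Complex.norm_exp]
    congr 2
    rw [Complex.mul_re]; simp
  rw [norm_mul, h1]
  have h2 : 0 ≤ τ ^ k * Real.exp (-(t.re * τ)) := by positivity
  refine (mul_le_mul_of_nonneg_left (hb τ hτ) h2).trans (le_of_eq ?_)
  have e1 : τ ^ ((k : ℝ) - b) = τ ^ k * τ ^ (-b) := by
    rw [sub_eq_add_neg, Real.rpow_add hτ, Real.rpow_natCast]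
  have e2 : Real.exp (-(c + t.re) * τ) = Real.exp (-(t.re * τ)) * Real.exp (-(c * τ)) := by
    rw [← Real.exp_add]; congr 1; ring
  rw [e1, e2]; ring

theorem int_bd (s d : ℝ) (hs : -1 < s) (hd : 0 < d) :
    IntegrableOn (fun τ : ℝ => τ ^ s * Real.exp (-d * τ)) (Ioi 0) := by
  have h := integrableOn_rpow_mul_exp_neg_mul_rpow (p := 1) hs one_pos hd
  simpa [Real.rpow_one] using h

theorem meas_fk (g : ℝ → ℂ) (hg : ContinuousOn g (Ioi 0)) (k : ℕ) (t : ℂ) :
    AEStronglyMeasurable (fk g k t) (volume.restrict (Ioi 0)) := by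
  have h1 : ContinuousOn (fk g k t) (Ioi 0) := by
    unfold fk
    refine ContinuousOn.mul ?_ hg
    fun_prop
  exact h1.aestronglyMeasurable measurableSet_Ioi

theorem int_fk (g : ℝ → ℂ) (C c b : ℝ) (hg : ContinuousOn g (Ioi 0))
    (hb : ∀ τ : ℝ, 0 < τ → ‖g τ‖ ≤ C * Real.exp (-(c * τ)) * τ ^ (-b)) (k : ℕ)
    (hk : -1 < (k : ℝ) - b) (t : ℂ) (ht : -c < t.re) :
    IntegrableOn (fk g k t) (Ioi 0) := by
  have hd : 0 < c + t.re := by linarith
  refine Integrable.mono' ((int_bd ((k : ℝ) - b) (c + t.re) hk hd).const_mul C)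
    (meas_fk g hg k t) ?_
  filter_upwards [ae_restrict_mem measurableSet_Ioi] with τ hτ
  exact norm_fk g C c b hb k t τ hτ

theorem nonneg_C (g : ℝ → ℂ) (C c b : ℝ)
    (hb : ∀ τ : ℝ, 0 < τ → ‖g τ‖ ≤ C * Real.exp (-(c * τ)) * τ ^ (-b)) : 0 ≤ C := by
  have h := (norm_nonneg _).trans (hb 1 one_pos)
  rw [Real.one_rpow, mul_one] at h
  have h2 : (0 : ℝ) * Real.exp (-(c * 1)) ≤ C * Real.exp (-(c * 1)) := by rwa [zero_mul]
  exact le_of_mul_le_mul_right h2 (Real.exp_pos _)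

theorem deriv_fk (g : ℝ → ℂ) (C c b : ℝ) (hg : ContinuousOn g (Ioi 0))
    (hb : ∀ τ : ℝ, 0 < τ → ‖g τ‖ ≤ C * Real.exp (-(c * τ)) * τ ^ (-b)) (k : ℕ)
    (hk : -1 < (k : ℝ) - b) (t : ℂ) (ht : -c < t.re) :
    HasDerivAt (fun t => ∫ τ in Ioi (0 : ℝ), fk g k t τ)
      (∫ τ in Ioi (0 : ℝ), -fk g (k + 1) t τ) t := by
  have hC := nonneg_C g C c b hb
  set m : ℝ := (t.re - c) / 2 with hm
  have hm1 : -c < m := by rw [hm]; linarith
  have hm2 : m < t.re := by rw [hm]; linarith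
  have hd : 0 < c + m := by linarith
  have hs : {z : ℂ | m < z.re} ∈ 𝓝 t :=
    (isOpen_lt continuous_const Complex.continuous_re).mem_nhds hm2
  have hk1 : -1 < ((k + 1 : ℕ) : ℝ) - b := by push_cast; linarith
  refine (hasDerivAt_integral_of_dominated_loc_of_deriv_le (F := fun t τ => fk g k t τ)
    (F' := fun t τ => -fk g (k + 1) t τ) (x₀ := t) hs
    (Filter.Eventually.of_forall fun z => meas_fk g hg k z)
    (int_fk g C c b hg hb k hk t ht) (meas_fk g hg (k + 1) t).neg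
    (bound := fun τ => C * (τ ^ (((k + 1 : ℕ) : ℝ) - b) * Real.exp (-(c + m) * τ))) ?_ ?_ ?_).2
  · filter_upwards [ae_restrict_mem measurableSet_Ioi] with τ hτ
    intro z hz
    have hτ' : (0 : ℝ) < τ := hτ
    have hz' : m < z.re := hz
    rw [norm_neg]
    refine (norm_fk g C c b hb (k + 1) z τ hτ').trans ?_
    refine mul_le_mul_of_nonneg_left (mul_le_mul_of_nonneg_left ?_
      (Real.rpow_nonneg hτ'.le _)) hC
    apply Real.exp_le_exp.2
    nlinarith
  · exact (int_bd _ (c + m) hk1 hd).const_mul C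
  · filter_upwards [ae_restrict_mem measurableSet_Ioi] with τ hτ
    intro z _
    unfold fk
    have h1 : HasDerivAt (fun z : ℂ => Complex.exp (-z * τ)) (Complex.exp (-z * τ) * (-1 * τ)) z :=
      ((hasDerivAt_neg z).mul_const (τ : ℂ)).cexp
    have h2 := (h1.const_mul ((τ : ℂ) ^ k)).mul_const (g τ)
    refine h2.congr_deriv ?_
    ring

end LMO_

open LMO_ in
theorem lmo_proof (hGgo : Stmt_Ggo) : Stmt_Lmo := by
  intro n f hn hmon hdeg hray
  obtain ⟨hG, ⟨C, c, hc, hB⟩, -⟩ := hGgo n f hn hmon hdeg hray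
  have hbn : ∀ x : Ix f, ((bI f x : ℚ) : ℝ) < n := by
    intro x
    have h1 : bI f x < ∑ _j : Fin n, (1 : ℚ) := by
      unfold bI
      refine Finset.sum_lt_sum_of_nonempty ⟨⟨0, hn⟩, Finset.mem_univ _⟩ fun j _ => ?_
      have hd : (0 : ℚ) < (f j).natDegree := by
        have := hdeg j
        exact_mod_cast (by omega : 0 < (f j).natDegree)
      rw [div_lt_one hd]
      have := (x j).2
      exact_mod_cast (by omega : ((x j : ℕ)) + 1 < (f j).natDegree)
    have h2 : bI f x < n := by simpa using h1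
    exact_mod_cast h2
  have hcont : ∀ x y : Ix f, ContinuousOn (fun τ => GG f τ x y) (Ioi 0) := fun x y τ hτ =>
    (hG x y τ hτ).continuousAt.continuousWithinAt
  have hn1 : ((n - 1 : ℕ) : ℝ) = n - 1 := by
    rw [Nat.cast_sub (by omega)]; simp
  have hk : ∀ x : Ix f, -1 < ((n - 1 : ℕ) : ℝ) - ((bI f x : ℚ) : ℝ) := by
    intro x; rw [hn1]; have := hbn x; linarith
  have hk' : ∀ x : Ix f, -1 < ((n : ℕ) : ℝ) - ((bI f x : ℚ) : ℝ) := by
    intro x; have := hbn x; linarith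
  have hnn : n - 1 + 1 = n := by omega
  have hbd : ∀ x y : Ix f, ∀ τ : ℝ, 0 < τ → ‖(fun τ => GG f τ x y) τ‖ ≤
      C * Real.exp (-(c * τ)) * τ ^ (-((bI f x : ℚ) : ℝ)) := fun x y τ hτ => hB x y τ hτ
  -- integrals
  have I1 : ∀ (x y : Ix f) (t : ℂ), -c < t.re →
      IntegrableOn (fk (fun τ => GG f τ x y) (n - 1) t) (Ioi 0) := fun x y t ht =>
    int_fk _ C c _ (hcont x y) (hbd x y) (n - 1) (hk x) t ht
  have I2 : ∀ (x y : Ix f) (t : ℂ), -c < t.re →
      IntegrableOn (fk (fun τ => GG f τ x y) n t) (Ioi 0) := fun x y t ht =>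
    int_fk _ C c _ (hcont x y) (hbd x y) n (hk' x) t ht
  have hLM : ∀ (t : ℂ) (x y : Ix f), LM f t x y = (1 / ((n - 1).factorial : ℂ)) *
      ∫ τ in Ioi (0 : ℝ), fk (fun τ => GG f τ x y) (n - 1) t τ := fun t x y => rfl
  -- the key identity
  have key : ∀ (t : ℂ), -c < t.re → ∀ x y : Ix f,
      (n : ℂ) * (∫ τ in Ioi (0 : ℝ), fk (fun τ => GG f τ x y) (n - 1) t τ) -
      t * (∫ τ in Ioi (0 : ℝ), fk (fun τ => GG f τ x y) n t τ) -
      (∑ z, cm (AT f) x z * ∫ τ in Ioi (0 : ℝ), fk (fun τ => GG f τ z y) n t τ) -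
      (∑ z, cm (BT f) x z * ∫ τ in Ioi (0 : ℝ), fk (fun τ => GG f τ z y) (n - 1) t τ) = 0 := by
    intro t ht x y
    have hd : 0 < c + t.re := by linarith
    have hC := nonneg_C _ C c _ (hbd x y)
    set F' : ℝ → ℂ := fun τ => (n : ℂ) * fk (fun τ => GG f τ x y) (n - 1) t τ -
      t * fk (fun τ => GG f τ x y) n t τ -
      (∑ z, cm (AT f) x z * fk (fun τ => GG f τ z y) n t τ) -
      (∑ z, cm (BT f) x z * fk (fun τ => GG f τ z y) (n - 1) t τ) with hF'
    have J1' : IntegrableOn (fun τ => (n : ℂ) * fk (fun τ => GG f τ x y) (n - 1) t τ) (Ioi 0) :=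
      (I1 x y t ht).const_mul _
    have J2 : IntegrableOn (fun τ => t * fk (fun τ => GG f τ x y) n t τ) (Ioi 0) :=
      (I2 x y t ht).const_mul _
    have J3 : ∀ z ∈ (Finset.univ : Finset (Ix f)), Integrable
        (fun τ => cm (AT f) x z * fk (fun τ => GG f τ z y) n t τ)
        (volume.restrict (Ioi (0 : ℝ))) := fun z _ => (I2 z y t ht).const_mul _
    have J4 : ∀ z ∈ (Finset.univ : Finset (Ix f)), Integrable
        (fun τ => cm (BT f) x z * fk (fun τ => GG f τ z y) (n - 1) t τ)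
        (volume.restrict (Ioi (0 : ℝ))) := fun z _ => (I1 z y t ht).const_mul _
    have J3' := integrable_finsetSum (Finset.univ : Finset (Ix f)) J3
    have J4' := integrable_finsetSum (Finset.univ : Finset (Ix f)) J4
    have hint : IntegrableOn F' (Ioi 0) := ((J1'.sub J2).sub J3').sub J4'
    have hval : ∫ τ in Ioi (0 : ℝ), F' τ =
        (n : ℂ) * (∫ τ in Ioi (0 : ℝ), fk (fun τ => GG f τ x y) (n - 1) t τ) -
        t * (∫ τ in Ioi (0 : ℝ), fk (fun τ => GG f τ x y) n t τ) -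
        (∑ z, cm (AT f) x z * ∫ τ in Ioi (0 : ℝ), fk (fun τ => GG f τ z y) n t τ) -
        (∑ z, cm (BT f) x z * ∫ τ in Ioi (0 : ℝ), fk (fun τ => GG f τ z y) (n - 1) t τ) := by
      have a1 := integral_sub ((J1'.sub J2).sub J3') J4'
      have a2 := integral_sub (J1'.sub J2) J3'
      have a3 := integral_sub J1' J2
      have a4 := integral_finsetSum (Finset.univ : Finset (Ix f)) J3
      have a5 := integral_finsetSum (Finset.univ : Finset (Ix f)) J4
      have e1 : ∫ τ in Ioi (0 : ℝ), F' τ = ∫ τ in Ioi (0 : ℝ),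
          (((fun τ => (n : ℂ) * fk (fun τ => GG f τ x y) (n - 1) t τ) -
          (fun τ => t * fk (fun τ => GG f τ x y) n t τ) -
          fun τ => ∑ z, cm (AT f) x z * fk (fun τ => GG f τ z y) n t τ) τ -
          ∑ z, cm (BT f) x z * fk (fun τ => GG f τ z y) (n - 1) t τ) := rfl
      rw [e1, a1, a5]
      have e2 : ∫ τ in Ioi (0 : ℝ),
          ((fun τ => (n : ℂ) * fk (fun τ => GG f τ x y) (n - 1) t τ) -
          (fun τ => t * fk (fun τ => GG f τ x y) n t τ) -
          fun τ => ∑ z, cm (AT f) x z * fk (fun τ => GG f τ z y) n t τ) τ =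
          ∫ τ in Ioi (0 : ℝ),
          (((fun τ => (n : ℂ) * fk (fun τ => GG f τ x y) (n - 1) t τ) -
          (fun τ => t * fk (fun τ => GG f τ x y) n t τ)) τ -
          ∑ z, cm (AT f) x z * fk (fun τ => GG f τ z y) n t τ) := rfl
      rw [e2, a2, a4]
      have e3 : ∫ τ in Ioi (0 : ℝ),
          ((fun τ => (n : ℂ) * fk (fun τ => GG f τ x y) (n - 1) t τ) -
          (fun τ => t * fk (fun τ => GG f τ x y) n t τ)) τ =
          ∫ τ in Ioi (0 : ℝ),
          ((n : ℂ) * fk (fun τ => GG f τ x y) (n - 1) t τ -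
          t * fk (fun τ => GG f τ x y) n t τ) := rfl
      rw [e3, a3, integral_const_mul, integral_const_mul]
      congr 1
      · congr 1
        refine Finset.sum_congr rfl fun z _ => ?_
        rw [integral_const_mul]
      · refine Finset.sum_congr rfl fun z _ => ?_
        rw [integral_const_mul]
    -- the primitive
    have hder : ∀ τ ∈ Ioi (0 : ℝ), HasDerivAt (fk (fun τ => GG f τ x y) n t) (F' τ) τ := by
      intro τ hτ
      have hτ' : (0 : ℝ) < τ := hτ
      have hτc : (τ : ℂ) ≠ 0 := by exact_mod_cast hτ'.ne'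
      have b1 : HasDerivAt (fun τ : ℝ => (τ : ℂ)) 1 τ := by
        simpa using (hasDerivAt_id τ).ofReal_comp
      have b2 : HasDerivAt (fun τ : ℝ => (τ : ℂ) ^ n) ((n : ℂ) * (τ : ℂ) ^ (n - 1) * 1) τ :=
        b1.fun_pow n
      have b3 : HasDerivAt (fun τ : ℝ => Complex.exp (-t * τ))
          (Complex.exp (-t * τ) * (-t * 1)) τ := (b1.const_mul (-t)).cexp
      have b4 := (b2.mul b3).mul (hG x y τ hτ')
      refine HasDerivAt.congr_deriv (f := fk (fun τ => GG f τ x y) n t) b4 ?_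
      have e5 : ((cm (AT f) + ((τ : ℂ))⁻¹ • cm (BT f)) * GG f τ) x y =
          (∑ z, cm (AT f) x z * GG f τ z y) + (τ : ℂ)⁻¹ * ∑ z, cm (BT f) x z * GG f τ z y := by
        rw [Matrix.add_mul, Matrix.smul_mul, Matrix.add_apply, Matrix.smul_apply,
          Matrix.mul_apply, Matrix.mul_apply, smul_eq_mul]
      rw [e5, hF']
      simp only [fk]
      have e6 : ∑ z, cm (AT f) x z * ((τ : ℂ) ^ n * Complex.exp (-t * τ) * GG f τ z y) =
          (τ : ℂ) ^ n * Complex.exp (-t * τ) * ∑ z, cm (AT f) x z * GG f τ z y := by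
        rw [Finset.mul_sum]; refine Finset.sum_congr rfl fun z _ => ?_; ring
      have e7 : ∑ z, cm (BT f) x z * ((τ : ℂ) ^ (n - 1) * Complex.exp (-t * τ) * GG f τ z y) =
          (τ : ℂ) ^ (n - 1) * Complex.exp (-t * τ) * ∑ z, cm (BT f) x z * GG f τ z y := by
        rw [Finset.mul_sum]; refine Finset.sum_congr rfl fun z _ => ?_; ring
      rw [e6, e7]
      have e8 : (τ : ℂ) ^ n = (τ : ℂ) ^ (n - 1) * τ := by
        rw [← pow_succ, hnn]
      simp only [Pi.mul_apply]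
      rw [e8]
      field_simp
      ring
    have hcw : ContinuousWithinAt (fk (fun τ => GG f τ x y) n t) (Ici 0) 0 := by
      have h0 : fk (fun τ => GG f τ x y) n t 0 = 0 := by
        simp only [fk]
        rw [Complex.ofReal_zero, zero_pow (by omega)]; simp
      unfold ContinuousWithinAt
      rw [h0]
      have hs : 0 < (n : ℝ) - ((bI f x : ℚ) : ℝ) := by have := hbn x; linarith
      have hlim : Filter.Tendsto (fun τ : ℝ => C * (τ ^ ((n : ℝ) - ((bI f x : ℚ) : ℝ)) *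
          Real.exp (-(c + t.re) * τ))) (𝓝[≥] 0) (𝓝 0) := by
        have c1 : Filter.Tendsto (fun τ : ℝ => τ ^ ((n : ℝ) - ((bI f x : ℚ) : ℝ))) (𝓝 0) (𝓝 0) := by
          have := (Real.continuousAt_rpow_const 0 ((n : ℝ) - ((bI f x : ℚ) : ℝ))
            (Or.inr hs.le)).tendsto
          rwa [Real.zero_rpow hs.ne'] at this
        have c2 : Filter.Tendsto (fun τ : ℝ => Real.exp (-(c + t.re) * τ)) (𝓝 0) (𝓝 1) := by
          have : Continuous fun τ : ℝ => Real.exp (-(c + t.re) * τ) := by fun_prop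
          have h := this.tendsto 0
          simpa using h
        have c3 := ((c1.mul c2).const_mul C).mono_left (nhdsWithin_le_nhds (s := Ici (0 : ℝ)))
        simpa using c3
      refine squeeze_zero_norm' ?_ hlim
      filter_upwards [self_mem_nhdsWithin] with τ hτ
      rcases (show (0 : ℝ) ≤ τ from hτ).eq_or_lt with h | h
      · rw [← h, h0, norm_zero]
        have : (0 : ℝ) ≤ (0 : ℝ) ^ ((n : ℝ) - ((bI f x : ℚ) : ℝ)) := Real.rpow_nonneg le_rfl _
        positivity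
      · exact norm_fk _ C c _ (hbd x y) n t τ h
    have hinf : Filter.Tendsto (fk (fun τ => GG f τ x y) n t) Filter.atTop (𝓝 0) := by
      have h1 := (tendsto_rpow_mul_exp_neg_mul_atTop_nhds_zero
        ((n : ℝ) - ((bI f x : ℚ) : ℝ)) (c + t.re) hd).const_mul C
      rw [mul_zero] at h1
      refine squeeze_zero_norm' ?_ h1
      filter_upwards [Filter.eventually_gt_atTop 0] with τ hτ
      exact norm_fk _ C c _ (hbd x y) n t τ hτ
    have hfin := integral_Ioi_of_hasDerivAt_of_tendsto hcw hder hint hinf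
    have h0 : fk (fun τ => GG f τ x y) n t 0 = 0 := by
      simp only [fk]
      rw [Complex.ofReal_zero, zero_pow (by omega)]; simp
    rw [h0, sub_zero, hval] at hfin
    exact hfin
  let L' : ℂ → Matrix (Ix f) (Ix f) ℂ := fun t => Matrix.of fun x y =>
    (1 / ((n - 1).factorial : ℂ)) * ∫ τ in Ioi (0 : ℝ), -fk (fun τ => GG f τ x y) n t τ
  refine ⟨c, hc, L', fun t ht => ⟨fun x y => ?_, ?_⟩⟩
  · have h1 := deriv_fk _ C c _ (hcont x y) (hbd x y) (n - 1) (hk x) t ht
    rw [hnn] at h1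
    exact h1.const_mul _
  · ext x y
    have hk0 := key t ht x y
    have e1 : ∀ x y : Ix f, L' t x y =
        -((1 / ((n - 1).factorial : ℂ)) * ∫ τ in Ioi (0 : ℝ), fk (fun τ => GG f τ x y) n t τ) := by
      intro x y
      show (1 / ((n - 1).factorial : ℂ)) *
        ∫ τ in Ioi (0 : ℝ), -fk (fun τ => GG f τ x y) n t τ = _
      rw [integral_neg]; ring
    rw [Matrix.add_mul, Matrix.sub_mul, Matrix.add_apply, Matrix.sub_apply, Matrix.smul_mul,
      Matrix.smul_mul, Matrix.one_mul, Matrix.one_mul, Matrix.smul_apply, Matrix.smul_apply,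
      Matrix.mul_apply, Matrix.mul_apply, e1, smul_eq_mul, smul_eq_mul]
    simp_rw [e1, hLM]
    have s1 : ∑ z, cm (AT f) x z * -((1 / ((n - 1).factorial : ℂ)) *
        ∫ τ in Ioi (0 : ℝ), fk (fun τ => GG f τ z y) n t τ) = -((1 / ((n - 1).factorial : ℂ)) *
        ∑ z, cm (AT f) x z * ∫ τ in Ioi (0 : ℝ), fk (fun τ => GG f τ z y) n t τ) := by
      rw [Finset.mul_sum, ← Finset.sum_neg_distrib]
      refine Finset.sum_congr rfl fun z _ => ?_
      ring
    have s2 : ∑ z, cm (BT f) x z * ((1 / ((n - 1).factorial : ℂ)) *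
        ∫ τ in Ioi (0 : ℝ), fk (fun τ => GG f τ z y) (n - 1) t τ) =
        (1 / ((n - 1).factorial : ℂ)) *
        ∑ z, cm (BT f) x z * ∫ τ in Ioi (0 : ℝ), fk (fun τ => GG f τ z y) (n - 1) t τ := by
      rw [Finset.mul_sum]
      refine Finset.sum_congr rfl fun z _ => ?_
      ring
    rw [s1, s2]
    linear_combination (1 / ((n - 1).factorial : ℂ)) * hk0

end Pool.Agent.EVD
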