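import Pool.Agent.EVD.RPX
import Pool.Agent.Lib70.PiTranscendental

set_option autoImplicit false
set_option linter.unusedSimpArgs false

/-!
# EVD: module LMX
-/

open scoped BigOperators
open MvPolynomial

namespace Pool.Agent.EVD

open RPX_

namespace LMX_

lemma transc : Transcendental Qb (2 * Real.pi * Complex.I : ℂ) := by
  intro h
  have : Algebra.IsAlgebraic ℚ Qb := algebraicClosure.isAlgebraic ℚ ℂ
  have h1 : IsAlgebraic ℚ (2 * Real.pi * Complex.I : ℂ) := h.restrictScalars ℚ
  have h2 : IsAlgebraic ℚ (-(Complex.I) / 2 : ℂ) := by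
    have hI : IsAlgebraic ℚ Complex.I := by
      refine ⟨Polynomial.X ^ 2 + 1, ?_, by simp⟩
      intro h0
      have := congrArg (Polynomial.eval 0) h0
      simp at this
    have h3 : IsAlgebraic ℚ ((algebraMap ℚ ℂ) (-(1 / 2))) := isAlgebraic_algebraMap _
    have h4 := hI.mul h3
    have h5 : Complex.I * (algebraMap ℚ ℂ) (-(1 / 2)) = -(Complex.I) / 2 := by
      simp
      ring
    rwa [h5] at h4
  have h3 := h1.mul h2
  have h4 : (2 * Real.pi * Complex.I : ℂ) * (-(Complex.I) / 2) = ((Real.pi : ℝ) : ℂ) := by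
    linear_combination (-(Real.pi : ℂ)) * Complex.I_sq
  rw [h4] at h3
  apply Pool.Agent.Lib70.PiTr.transcendental_pi
  exact (isAlgebraic_algebraMap_iff (algebraMap ℝ ℂ).injective).1 h3

/-- A polynomial over `Qb` which vanishes at a transcendental point of the first variable. -/
lemma vanish {S : Type} (p : MvPolynomial (Option S) Qb) (t : ℂ) (ht : Transcendental Qb t)
    (h : ∀ u : S → ℂ, aeval (fun o : Option S => o.elim t u) p = (0 : ℂ)) : p = 0 := by
  have key : ∀ (p : MvPolynomial (Option S) Qb) (u : S → ℂ),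
      aeval (fun o : Option S => o.elim t u) p =
        eval u (MvPolynomial.map (Polynomial.aeval t : Polynomial Qb →ₐ[Qb] ℂ).toRingHom
          (optionEquivRight Qb S p)) := by
    intro p u
    induction p using MvPolynomial.induction_on with
    | C a => simp [optionEquivRight_C]
    | add p q hp hq => simp [map_add, hp, hq]
    | mul_X p o hp =>
      rw [map_mul, map_mul, map_mul, map_mul, hp]
      congr 1
      cases o with
      | none => simp [optionEquivRight_X_none]
      | some x => simp [optionEquivRight_X_some]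
  have h1 : MvPolynomial.map (Polynomial.aeval t : Polynomial Qb →ₐ[Qb] ℂ).toRingHom
      (optionEquivRight Qb S p) = 0 := by
    apply MvPolynomial.funext
    intro u
    rw [← key, h u, map_zero]
  have h2 : optionEquivRight Qb S p = 0 := by
    have hinj : Function.Injective (MvPolynomial.map (σ := S)
        (Polynomial.aeval t : Polynomial Qb →ₐ[Qb] ℂ).toRingHom) :=
      MvPolynomial.map_injective _ (transcendental_iff_injective.1 ht)
    apply hinj
    rw [h1, map_zero]
  exact (optionEquivRight Qb S).injective (by rw [h2, map_zero])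

end LMX_

theorem lmx_proof (hP : Stmt_Par) : Stmt_Lmx := by
  intro r ι _ _ _ w Q hQ Y0 P h lam g hg
  set QK : ∀ k, Matrix (ι k) (ι k) Qb := fun k => (Q k).map (algebraMap ℚ Qb) with hQK
  have hQm : ∀ k, (QK k).map (algebraMap Qb ℂ) = cm (Q k) := fun k => by
    ext i j
    simp [hQK, cm]
  have hQc : ∀ k, (cm (Q k)).transpose = cm (Q k) ∧ (cm (Q k)).det ≠ 0 := by
    intro k
    constructor
    · have := (hQ k).1
      unfold cm
      rw [← Matrix.transpose_map, this]
    · have h0 : (cm (Q k)).det = (algebraMap ℚ ℂ) (Q k).det :=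
        (RingHom.map_det (algebraMap ℚ ℂ) (Q k)).symm
      rw [h0]
      simpa using (hQ k).2
  set e : PV ι → Option (PV ι) := some with he
  have hrat : Rt (DP QK e) (fun v : Option (PV ι) → ℂ =>
      aeval (pt (v none) (fun k => (v none) ^ w k •
        (qc (Y0 k) * gp (cm (Q k)) (fun i x => v (some ⟨k, i, x⟩))))) P) := by
    have hf : ∀ t : Option (Σ k, ι k × ι k), Rt (DP QK e)
        (fun v : Option (PV ι) → ℂ => pt (v none) (fun k => (v none) ^ w k •
        (qc (Y0 k) * gp (cm (Q k)) (fun i x => v (some ⟨k, i, x⟩)))) t) := by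
      rintro (_ | ⟨k, i, j⟩)
      · simpa [pt] using Rt.poly (D := DP QK e) (X none)
      · have h0 : Rt (DP QK e) (fun v : Option (PV ι) → ℂ => v none) := by
          simpa using Rt.poly (D := DP QK e) (X none)
        have h1 := RM.smul (Rt.pow h0 (w k)) (RM.mul (RM.const (D := DP QK e) (Y0 k))
          (RM_gp QK e k)) i j
        simpa [pt, hQm, qc, he] using h1
    exact Rt.comp hf P
  obtain ⟨N, p, hp⟩ := hrat
  have hD : ∀ v : Option (PV ι) → ℂ, aeval v (DP QK e) ≠ 0 ↔
      ∀ k i, nr (cm (Q k)) (fun x => v (some ⟨k, i, x⟩)) ≠ 0 := by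
    intro v
    rw [aeval_DP_ne]
    simp only [hQm, he]
  have hz : p * DP QK e = 0 := by
    apply LMX_.vanish _ _ LMX_.transc
    intro u
    rw [map_mul]
    by_cases hv : aeval (fun o : Option (PV ι) => o.elim (2 * Real.pi * Complex.I : ℂ) u)
        (DP QK e) = 0
    · rw [hv, mul_zero]
    · rw [← hp _ hv]
      have h1 := (hD _).1 hv
      have h2 := h (fun k => gp (cm (Q k)) (fun i x => u ⟨k, i, x⟩))
        (fun k => gp_ok _ (hQc k).1 _ (h1 k))
      have h3 := congrArg (fun z : ℂ => (aeval (fun o : Option (PV ι) =>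
        o.elim (2 * Real.pi * Complex.I : ℂ) u) (DP QK e)) ^ N * z *
        (aeval (fun o : Option (PV ι) =>
          o.elim (2 * Real.pi * Complex.I : ℂ) u) (DP QK e))) h2
      simp only [mul_zero, zero_mul] at h3
      exact h3
  obtain ⟨u, hu1, hu2⟩ := par' hP (fun k => cm (Q k)) hQc g hg
  have hv : aeval (fun o : Option (PV ι) => o.elim lam u) (DP QK e) ≠ 0 := (hD _).2 hu1
  have h4 := hp _ hv
  have h5 : aeval (fun o : Option (PV ι) => o.elim lam u) p = 0 := by
    have h6 := congrArg (aeval (fun o : Option (PV ι) => o.elim lam u)) hz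
    rw [map_mul, map_zero] at h6
    exact (mul_eq_zero.1 h6).resolve_right hv
  rw [h5] at h4
  have h7 := (mul_eq_zero.1 h4).resolve_left (pow_ne_zero _ hv)
  have h8 : (fun k => lam ^ w k • (qc (Y0 k) * gp (cm (Q k)) (fun i x => u ⟨k, i, x⟩))) =
      fun k => lam ^ w k • (qc (Y0 k) * g k) := by
    funext k
    rw [hu2 k]
  rw [← h8]
  exact h7

end Pool.Agent.EVD
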