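import Pool.Agent.EVD.Stmts

set_option autoImplicit false

/-!
# EVD, module LOO: the local forms
-/

open scoped BigOperators Topology
open Metric Set

namespace Pool.Agent.EVD

noncomputable section

namespace LOO_

/-- entrywise derivative -/
def MD {κ ι : Type} (W : ℂ → Matrix κ ι ℂ) (W' : Matrix κ ι ℂ) (t : ℂ) : Prop :=
  ∀ k j, HasDerivAt (fun z => W z k j) (W' k j) t

theorem MD.mul {κ ι μ : Type} [Fintype ι] {A : ℂ → Matrix κ ι ℂ} {B : ℂ → Matrix ι μ ℂ}
    {A' : Matrix κ ι ℂ} {B' : Matrix ι μ ℂ} {t : ℂ}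
    (hA : MD A A' t) (hB : MD B B' t) : MD (fun z => A z * B z) (A' * B t + A t * B') t := by
  intro k j
  have h := HasDerivAt.fun_sum (u := Finset.univ) (fun l _ => (hA k l).mul (hB l j))
  simpa [Matrix.mul_apply, Matrix.add_apply, Finset.sum_add_distrib] using h

theorem MD.add {κ ι : Type} {A B : ℂ → Matrix κ ι ℂ} {A' B' : Matrix κ ι ℂ} {t : ℂ}
    (hA : MD A A' t) (hB : MD B B' t) : MD (fun z => A z + B z) (A' + B') t :=
  fun k j => (hA k j).add (hB k j)

theorem MD.sub {κ ι : Type} {A B : ℂ → Matrix κ ι ℂ} {A' B' : Matrix κ ι ℂ} {t : ℂ}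
    (hA : MD A A' t) (hB : MD B B' t) : MD (fun z => A z - B z) (A' - B') t :=
  fun k j => (hA k j).sub (hB k j)

theorem MD.const {κ ι : Type} (A : Matrix κ ι ℂ) (t : ℂ) : MD (fun _ => A) 0 t :=
  fun _ _ => hasDerivAt_const _ _

theorem MD.smul {κ ι : Type} {f : ℂ → ℂ} {f' : ℂ} {t : ℂ} (hf : HasDerivAt f f' t)
    (A : Matrix κ ι ℂ) : MD (fun z => f z • A) (f' • A) t :=
  fun k j => hf.mul_const (A k j)

theorem MD.congr {κ ι : Type} {A : ℂ → Matrix κ ι ℂ} {A' A'' : Matrix κ ι ℂ} {t : ℂ}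
    (hA : MD A A' t) (h : A' = A'') : MD A A'' t := h ▸ hA

theorem holM_mul {κ ι μ : Type} [Fintype ι] {U : Set ℂ} {A : ℂ → Matrix κ ι ℂ}
    {B : ℂ → Matrix ι μ ℂ} (hA : GPH.HolM U A) (hB : GPH.HolM U B) :
    GPH.HolM U (fun z => A z * B z) := by
  intro k j
  have h : DifferentiableOn ℂ (fun z => ∑ l, A z k l * B z l j) U :=
    DifferentiableOn.fun_sum (fun l _ => (hA k l).mul (hB l j))
  exact h.congr (fun z _ => Matrix.mul_apply)

theorem holM_const {κ ι : Type} {U : Set ℂ} (A : Matrix κ ι ℂ) : GPH.HolM U (fun _ => A) :=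
  fun _ _ => differentiableOn_const _

theorem plog_deriv {t : ℂ} (ht : -t ∈ Complex.slitPlane) : HasDerivAt GPH.plog t⁻¹ t := by
  have h1 : HasDerivAt (fun z : ℂ => Complex.log (-z)) ((-t)⁻¹ * (-1)) t :=
    (Complex.hasDerivAt_log ht).comp t (hasDerivAt_neg t)
  have h2 := h1.add_const (Real.pi * Complex.I)
  have e : (-t)⁻¹ * (-1) = t⁻¹ := by
    rw [inv_neg]; ring
  rw [e] at h2
  exact h2

/-- `t ^ (-1/2)` -/
def g (t : ℂ) : ℂ := Complex.exp (-(GPH.plog t) / 2)

theorem g_deriv {t : ℂ} (ht : -t ∈ Complex.slitPlane) :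
    HasDerivAt g (-(1 / 2) * t⁻¹ * g t) t := by
  have h1 := ((plog_deriv ht).neg.div_const 2).cexp
  have e : Complex.exp ((-GPH.plog) t / 2) * (-t⁻¹ / 2) = -(1 / 2) * t⁻¹ * g t := by
    have : Complex.exp ((-GPH.plog) t / 2) = g t := rfl
    rw [this]; ring
  rw [e] at h1
  exact h1

theorem g_ne (t : ℂ) : g t ≠ 0 := Complex.exp_ne_zero _

theorem g_sq {t : ℂ} (ht : t ≠ 0) : g t * g t = t⁻¹ := by
  unfold g
  rw [← Complex.exp_add]
  have : -(GPH.plog t) / 2 + -(GPH.plog t) / 2 = -(GPH.plog t) := by ring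
  rw [this, Complex.exp_neg]
  congr 1
  unfold GPH.plog
  rw [Complex.exp_add, Complex.exp_log (neg_ne_zero.2 ht), Complex.exp_pi_mul_I]
  ring

/-- the slit disc -/
def Slit (r : ℝ) : Set ℂ := {t | t ∈ ball (0:ℂ) r ∧ -t ∈ Complex.slitPlane}

theorem mem_slit {r : ℝ} {t : ℂ} (ht : t ∈ ball (0:ℂ) r) (h : ∀ u : ℝ, 0 ≤ u → t ≠ u) :
    t ∈ Slit r := by
  refine ⟨ht, ?_⟩
  rw [Complex.mem_slitPlane_iff]
  by_contra hc
  push Not at hc
  obtain ⟨h1, h2⟩ := hc
  simp only [Complex.neg_re, Complex.neg_im] at h1 h2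
  exact h t.re (by linarith) (Complex.ext (by simp) (by simp; linarith))

theorem slit_ne {r : ℝ} {t : ℂ} (ht : t ∈ Slit r) : t ≠ 0 := by
  intro h
  have := ht.2
  rw [h, neg_zero] at this
  exact Complex.zero_notMem_slitPlane this

theorem slit_real {r : ℝ} {t : ℂ} (ht : t ∈ Slit r) : ∀ u : ℝ, 0 ≤ u → t ≠ u := by
  intro u hu h
  have h2 := ht.2
  rw [Complex.mem_slitPlane_iff, h] at h2
  simp at h2
  linarith

theorem isOpen_slit (r : ℝ) : IsOpen (Slit r) :=
  isOpen_ball.inter (Complex.isOpen_slitPlane.preimage continuous_neg)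

theorem slit_base {r : ℝ} (hr : 0 < r) : (-(r / 2 : ℝ) : ℂ) ∈ Slit r := by
  refine ⟨?_, ?_⟩
  · rw [mem_ball_zero_iff, norm_neg, Complex.norm_real, Real.norm_eq_abs, abs_of_pos (by linarith)]
    linarith
  · rw [neg_neg, Complex.mem_slitPlane_iff]
    left
    simp only [Complex.ofReal_re]
    linarith

theorem slit_conn {r : ℝ} (hr : 0 < r) : IsPreconnected (Slit r) := by
  have h : StarConvex ℝ (-(r / 2 : ℝ) : ℂ) (Slit r) := by
    intro t ht a b ha hb hab
    refine ⟨(convex_ball (0:ℂ) r) (slit_base hr).1 ht.1 ha hb hab, ?_⟩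
    rcases eq_or_lt_of_le hb with h | h
    · have h1 : a = 1 := by linarith
      rw [← h, h1]
      simpa using (slit_base hr).2
    · have h2 := ht.2
      rw [Complex.mem_slitPlane_iff] at h2 ⊢
      simp only [Complex.neg_re, Complex.neg_im, Complex.add_re, Complex.add_im,
        Complex.real_smul, Complex.mul_re, Complex.mul_im, Complex.ofReal_re, Complex.ofReal_im,
        zero_mul, mul_zero, add_zero, sub_zero, neg_zero, zero_add] at h2 ⊢
      rcases h2 with h2 | h2
      · left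
        have h3 : 0 ≤ a * (r / 2) := mul_nonneg ha (by linarith)
        have h4 : 0 < b * (-t.re) := mul_pos h h2
        nlinarith
      · right
        intro hc
        apply h2
        have : b * t.im = 0 := by linarith
        rcases mul_eq_zero.1 this with h5 | h5
        · linarith
        · rw [h5, neg_zero]
  exact (h.isPathConnected (slit_base hr)).isConnected.isPreconnected

/-- a holomorphic function on the disc which is a multiple of `t ^ (1/2)` on the slit disc -/
theorem sqrt_zero {r : ℝ} (hr : 0 < r) {f : ℂ → ℂ} (hf : DifferentiableOn ℂ f (ball 0 r)) {c : ℂ}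
    (h : ∀ t ∈ Slit r, g t * f t = c) : c = 0 := by
  have h1 : ∀ t ∈ Slit r, f t * f t - c * c * t = 0 := by
    intro t ht
    have h2 := h t ht
    have h3 := g_sq (slit_ne ht)
    have h4 : t * (g t * g t) = 1 := by rw [h3, mul_inv_cancel₀ (slit_ne ht)]
    rw [← h2]
    linear_combination (-(f t * f t)) * h4
  have hF : DifferentiableOn ℂ (fun t => f t * f t - c * c * t) (ball 0 r) :=
    (hf.mul hf).sub (differentiableOn_id.const_mul (c * c))
  have hA : AnalyticOnNhd ℂ (fun t => f t * f t - c * c * t) (ball 0 r) :=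
    hF.analyticOnNhd isOpen_ball
  have h2 : Set.EqOn (fun t => f t * f t - c * c * t) 0 (ball 0 r) := by
    apply hA.eqOn_zero_of_preconnected_of_eventuallyEq_zero (convex_ball (0:ℂ) r).isPreconnected
      (slit_base hr).1
    filter_upwards [(isOpen_slit r).mem_nhds (slit_base hr)] with t ht
    exact h1 t ht
  have h0 : (0:ℂ) ∈ ball (0:ℂ) r := mem_ball_self hr
  have h3 : f 0 = 0 := by
    have := h2 h0
    simpa using this
  have hd : HasDerivAt f (deriv f 0) 0 :=
    ((hf 0 h0).differentiableAt (isOpen_ball.mem_nhds h0)).hasDerivAt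
  have h4 : HasDerivAt (fun t => f t * f t - c * c * t)
      (deriv f 0 * f 0 + f 0 * deriv f 0 - c * c * 1) 0 :=
    (hd.mul hd).sub ((hasDerivAt_id (0:ℂ)).const_mul (c * c))
  have h5 : HasDerivAt (fun t => f t * f t - c * c * t) 0 0 := by
    apply (hasDerivAt_const (0:ℂ) (0:ℂ)).congr_of_eventuallyEq
    filter_upwards [isOpen_ball.mem_nhds h0] with t ht
    exact h2 ht
  have h6 := h4.unique h5
  rw [h3] at h6
  have h7 : c * c = 0 := by linear_combination -h6
  exact mul_self_eq_zero.1 h7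

section alg

variable {ι : Type} [Fintype ι] [DecidableEq ι]

/-- the invertible matrices `1 + (a - 1) P` -/
theorem gp_mul {P : Matrix ι ι ℂ} (hP : P * P = P) (a b : ℂ) :
    (1 + (a - 1) • P) * (1 + (b - 1) • P) = 1 + (a * b - 1) • P := by
  simp only [add_mul, mul_add, Matrix.one_mul, Matrix.mul_one, Matrix.smul_mul, Matrix.mul_smul,
    hP]
  rw [smul_smul, add_assoc, ← add_smul, ← add_smul]
  congr 2
  ring

theorem gp_det {P : Matrix ι ι ℂ} (hP : P * P = P) {a : ℂ} (ha : a ≠ 0) :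
    (1 + (a - 1) • P).det ≠ 0 := by
  intro h
  have h1 := congrArg Matrix.det (gp_mul hP a a⁻¹)
  rw [Matrix.det_mul, h, zero_mul, mul_inv_cancel₀ ha, sub_self, zero_smul, add_zero,
    Matrix.det_one] at h1
  exact zero_ne_one h1

/-- selfadjoint projectors of rank one -/
theorem rank_one {Q : Matrix ι ι ℂ} (hQ : Q.transpose = Q) (hdet : Q.det ≠ 0) {a w : ι → ℂ}
    (hP : Matrix.vecMulVec a w * Matrix.vecMulVec a w = Matrix.vecMulVec a w)
    (hsa : Q * Matrix.vecMulVec a w = (Matrix.vecMulVec a w).transpose * Q)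
    (h0 : Matrix.vecMulVec a w ≠ 0) :
    ∃ v : ι → ℂ, dotProduct v (Q.mulVec v) = 1 ∧ pr Q v = Matrix.vecMulVec a w := by
  have ha : a ≠ 0 := by
    rintro rfl
    exact h0 (by ext i j; simp [Matrix.vecMulVec_apply])
  have hw : w ≠ 0 := by
    rintro rfl
    exact h0 (by ext i j; simp [Matrix.vecMulVec_apply])
  obtain ⟨i0, hi0⟩ := Function.ne_iff.1 ha
  obtain ⟨j0, hj0⟩ := Function.ne_iff.1 hw
  simp only [Pi.zero_apply] at hi0 hj0
  have hwa : dotProduct w a = 1 := by
    rw [Matrix.vecMulVec_mul_vecMulVec] at hP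
    have h1 := congrFun (congrFun hP i0) j0
    simp only [Matrix.vecMulVec_apply, Pi.smul_apply, smul_eq_mul] at h1
    have h2 : a i0 * w j0 * (dotProduct w a - 1) = 0 := by
      linear_combination h1
    rcases mul_eq_zero.1 h2 with h3 | h3
    · exact absurd h3 (mul_ne_zero hi0 hj0)
    · exact sub_eq_zero.1 h3
  -- `Q a = s w`
  have hvec : Matrix.vecMulVec (Q.mulVec a) w = Matrix.vecMulVec w (Q.mulVec a) := by
    rw [Matrix.mul_vecMulVec, Matrix.transpose_vecMulVec, Matrix.vecMulVec_mul] at hsa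
    rw [hsa]
    congr 1
    rw [← Matrix.mulVec_transpose, hQ]
  set s : ℂ := dotProduct a (Q.mulVec a) with hs
  have hQa : Q.mulVec a = s • w := by
    funext i
    have h1 : ∀ j, Q.mulVec a i * w j = w i * Q.mulVec a j := fun j => by
      have := congrFun (congrFun hvec i) j
      simpa [Matrix.vecMulVec_apply] using this
    have h2 : ∑ j, Q.mulVec a i * w j * a j = ∑ j, w i * Q.mulVec a j * a j :=
      Finset.sum_congr rfl (fun j _ => by rw [h1 j])
    have h3 : ∑ j, Q.mulVec a i * w j * a j = Q.mulVec a i * dotProduct w a := by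
      rw [dotProduct, Finset.mul_sum]
      exact Finset.sum_congr rfl (fun j _ => by ring)
    have h4 : ∑ j, w i * Q.mulVec a j * a j = w i * s := by
      rw [hs, dotProduct, Finset.mul_sum]
      exact Finset.sum_congr rfl (fun j _ => by ring)
    rw [h3, h4, hwa, mul_one] at h2
    rw [h2, Pi.smul_apply, smul_eq_mul, mul_comm]
  have hs0 : s ≠ 0 := by
    intro h
    rw [h, zero_smul] at hQa
    apply ha
    exact Matrix.eq_zero_of_mulVec_eq_zero hdet hQa
  obtain ⟨c, hc⟩ := IsAlgClosed.exists_pow_nat_eq s (n := 2) (by norm_num)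
  have hc0 : c ≠ 0 := by
    rintro rfl
    apply hs0
    rw [← hc]; norm_num
  refine ⟨c⁻¹ • a, ?_, ?_⟩
  · rw [Matrix.mulVec_smul, smul_dotProduct, dotProduct_smul, ← hs, smul_eq_mul, smul_eq_mul,
      ← hc]
    field_simp
  · unfold pr
    rw [Matrix.mulVec_smul, hQa]
    ext i j
    simp only [Matrix.vecMulVec_apply, Pi.smul_apply, smul_eq_mul]
    rw [← hc]
    field_simp

end alg

end LOO_

open LOO_ in
theorem loo_proof (hFrt : Stmt_Frt) (hRsq : Stmt_Rsq) (_hFbe : Stmt_Fbe) (hFno : Stmt_Fno)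
    (hUniq : GPH.Stmt_Uniq) (hGeoC : GPH.Stmt_GeoC) : Stmt_Loo := by
  intro ι _ _ κ A B U b i₀ hO e r q T x hS b0 hG Φ hΦ i
  classical
  set Uc : Matrix ι ι ℂ := cm U with hUc
  set Ec : Matrix ι ι ℂ := cm (Eo κ B) with hEc
  set Ac : Matrix ι ι ℂ := cm A with hAc
  set Q : Matrix ι ι ℂ := No Ac Uc e r b0 with hQd
  obtain ⟨-, hQs, hQdet⟩ := hFno ι κ A B U b i₀ hO e r q T x hS b0 hG.1
  obtain ⟨hRR, hR0⟩ := hRsq ι κ A B U b i₀ hO e r q T x hS i
  set D := T i - b0 with hD
  have hD0 : D ≠ 0 := sub_ne_zero.2 (hG.1 i)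
  set R := Ro Uc Ec x i with hRdef
  -- a small disc on which the other cuts are avoided
  obtain ⟨r1, hr1, hr1'⟩ : ∃ r1 : ℝ, 0 < r1 ∧ ∀ t ∈ ball (0:ℂ) r1, ∀ j, j ≠ i →
      T i + t * D ∈ GPH.Cut b0 (fun _ : Fin 1 => T j) := by
    have hopen : ∀ j, IsOpen (GPH.Cut b0 (fun _ : Fin 1 => T j)) := fun j =>
      (hGeoC 1 (fun _ => T j) b0 (fun _ => hG.1 j)).1
    have hV : IsOpen (⋂ j ∈ {j : Fin q | j ≠ i}, GPH.Cut b0 (fun _ : Fin 1 => T j)) :=
      Set.Finite.isOpen_biInter (Set.toFinite _) (fun j _ => hopen j)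
    have hc : Continuous (fun t : ℂ => T i + t * D) := by fun_prop
    have hmem : (0:ℂ) ∈ (fun t : ℂ => T i + t * D) ⁻¹'
        (⋂ j ∈ {j : Fin q | j ≠ i}, GPH.Cut b0 (fun _ : Fin 1 => T j)) := by
      simp only [Set.mem_preimage, zero_mul, add_zero, Set.mem_iInter]
      intro j hj _ u hu h
      have hj' : j ≠ i := hj
      have hu0 : (u : ℂ) ≠ 0 := by
        have : (0:ℝ) < u := by linarith
        exact_mod_cast this.ne'
      apply hG.2 i j (Ne.symm hj') u⁻¹ (by positivity)
      have h1 : T i - b0 = u * (T j - b0) := by rw [h]; ring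
      rw [h1]
      push_cast
      field_simp
    obtain ⟨r1, hr1, hr1'⟩ := Metric.isOpen_iff.1 (hV.preimage hc) 0 hmem
    refine ⟨r1, hr1, fun t ht j hj => ?_⟩
    have := hr1' ht
    simp only [Set.mem_preimage, Set.mem_iInter] at this
    exact this j hj
  have hne : ∀ t ∈ ball (0:ℂ) r1, ∀ j, j ≠ i → T i + t * D - T j ≠ 0 := by
    intro t ht j hj h
    apply hr1' t ht j hj 0 1 le_rfl
    rw [Complex.ofReal_one]
    linear_combination h
  set B1 : ℂ → Matrix ι ι ℂ := fun t =>
    ∑ j ∈ Finset.univ.erase i, (D * (T i + t * D - T j)⁻¹) • Ro Uc Ec x j with hB1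
  have hB1h : GPH.HolM (ball 0 r1) B1 := by
    intro k l
    have h : DifferentiableOn ℂ (fun t => ∑ j ∈ Finset.univ.erase i,
        (D * (T i + t * D - T j)⁻¹) * Ro Uc Ec x j k l) (ball 0 r1) := by
      apply DifferentiableOn.fun_sum
      intro j hj
      have hj' := Finset.ne_of_mem_erase hj
      have h1 : DifferentiableOn ℂ (fun t : ℂ => T i + t * D - T j) (ball 0 r1) := by fun_prop
      exact ((h1.inv (fun t ht => hne t ht j hj')).const_mul D).mul_const _
    refine h.congr (fun t _ => ?_)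
    simp only [hB1, Matrix.sum_apply, Matrix.smul_apply, smul_eq_mul]
  obtain ⟨ρ, H, hρ, hρρ, hHh, hH0, hHdet, hHd⟩ := hFrt ι R hRR r1 B1 hr1 hB1h
  have hHd' : ∀ t ∈ ball (0 : ℂ) ρ, t ≠ 0 →
      MD H (t⁻¹ • (R * H t - H t * R) + B1 t * H t) t := hHd
  have hsub : ball (0:ℂ) ρ ⊆ ball 0 r1 := ball_subset_ball hρρ
  -- the projector
  set P0 : Matrix ι ι ℂ := (-2 : ℂ) • R with hP0
  have hP0P0 : P0 * P0 = P0 := by
    rw [hP0, Matrix.smul_mul, Matrix.mul_smul, hRR, smul_smul, smul_smul]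
    congr 1
    norm_num
  have hRP0 : R * P0 = R := by
    rw [hP0, Matrix.mul_smul, hRR, smul_smul]
    have : (-2 : ℂ) * -(1 / 2) = 1 := by norm_num
    rw [this, one_smul]
  -- local solution
  set G : ℂ → Matrix ι ι ℂ := fun t => 1 + (g t - 1) • P0 with hGdef
  have hGd : ∀ t ∈ Slit ρ, MD G (t⁻¹ • (R * G t)) t := by
    intro t ht
    have h1 := (MD.const (1 : Matrix ι ι ℂ) t).add
      (MD.smul ((g_deriv ht.2).sub_const 1) P0)
    refine h1.congr ?_
    simp only [hGdef, zero_add]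
    rw [Matrix.mul_add, Matrix.mul_one, Matrix.mul_smul, hRP0, hP0]
    rw [smul_smul, ← one_smul ℂ R, smul_smul, smul_smul, ← add_smul, smul_smul]
    congr 1
    ring
  set Φl : ℂ → Matrix ι ι ℂ := fun t => H t * G t with hΦl
  set L : ℂ → Matrix ι ι ℂ := fun t => t⁻¹ • R + B1 t with hL
  have hΦld : ∀ t ∈ Slit ρ, MD Φl (L t * Φl t) t := by
    intro t ht
    have h1 := hHd' t ht.1 (slit_ne ht)
    refine (h1.mul (hGd t ht)).congr ?_
    simp only [hΦl, hL]
    simp only [add_mul, sub_mul, Matrix.smul_mul, Matrix.mul_smul, smul_sub, Matrix.mul_assoc]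
    abel
  -- the slit disc is mapped to the cut plane
  have hcut : ∀ t ∈ Slit ρ, T i + t * D ∈ GPH.Cut b0 T := by
    intro t ht j u hu h
    by_cases hj : j = i
    · subst hj
      have h1 : (t - (u - 1)) * D = 0 := by
        rw [hD] at h ⊢
        linear_combination h
      rcases mul_eq_zero.1 h1 with h2 | h2
      · exact slit_real ht (u - 1) (by linarith) (by push_cast; linear_combination h2)
      · exact hD0 h2
    · exact hr1' t (hsub ht.1) j hj 0 u hu h
  have hΦd : ∀ t ∈ Slit ρ, MD (fun t => Φ (T i + t * D)) (L t * Φ (T i + t * D)) t := by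
    intro t ht k j
    have h1 := hΦ.sol _ (hcut t ht) k j
    have h2 : HasDerivAt (fun t : ℂ => T i + t * D) D t := by
      have := ((hasDerivAt_id t).mul_const D).const_add (T i)
      simpa using this
    have h3 := h1.comp t h2
    have e : (L t * Φ (T i + t * D)) k j =
        (FB T (Ro Uc Ec x) (T i + t * D) * Φ (T i + t * D)) k j * D := by
      have e1 : L t = D • FB T (Ro Uc Ec x) (T i + t * D) := by
        simp only [hL, hB1, FB]
        rw [← Finset.add_sum_erase _ _ (Finset.mem_univ i), smul_add, Finset.smul_sum]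
        congr 1
        · rw [smul_smul]
          congr 1
          have ht0 := slit_ne ht
          have : T i + t * D - T i = t * D := by ring
          rw [this]
          field_simp
        · apply Finset.sum_congr rfl
          intro j _
          rw [smul_smul]
      rw [e1, Matrix.smul_mul, Matrix.smul_apply, smul_eq_mul, mul_comm]
    rw [e]
    exact h3
  -- determinants
  have hΦldet : ∀ t ∈ Slit ρ, (Φl t).det ≠ 0 := by
    intro t ht
    simp only [hΦl, Matrix.det_mul]
    exact mul_ne_zero (hHdet t ht.1) (gp_det hP0P0 (g_ne t))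
  have hΦdet : ∀ z ∈ GPH.Cut b0 T, (Φ z).det ≠ 0 := by
    intro z hz h
    apply hQdet
    rw [← hΦ.iso z hz, Matrix.det_mul, h, mul_zero]
  -- comparison
  set t0 : ℂ := (-(ρ / 2 : ℝ) : ℂ) with ht0
  have ht0s : t0 ∈ Slit ρ := slit_base hρ
  set C : Matrix ι ι ℂ := (Φl t0)⁻¹ * Φ (T i + t0 * D) with hC
  have hC0 : Φl t0 * C = Φ (T i + t0 * D) := by
    rw [hC, ← Matrix.mul_assoc, Matrix.mul_nonsing_inv _ (isUnit_iff_ne_zero.2 (hΦldet t0 ht0s)),
      Matrix.one_mul]
  have hCdet : C.det ≠ 0 := by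
    intro h
    apply hΦdet _ (hcut t0 ht0s)
    rw [← hC0, Matrix.det_mul, h, mul_zero]
  have q1 : C⁻¹ * C = 1 := Matrix.nonsing_inv_mul _ (isUnit_iff_ne_zero.2 hCdet)
  have q2 : C * C⁻¹ = 1 := Matrix.mul_nonsing_inv _ (isUnit_iff_ne_zero.2 hCdet)
  have hLh : GPH.HolM (Slit ρ) L := by
    intro k l
    have h1 : DifferentiableOn ℂ (fun t : ℂ => t⁻¹ * R k l + B1 t k l) (Slit ρ) := by
      apply DifferentiableOn.add
      · exact (differentiableOn_id.inv (fun t ht => slit_ne ht)).mul_const _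
      · exact (hB1h k l).mono (fun t ht => hsub ht.1)
    refine h1.congr (fun t _ => ?_)
    simp only [hL, Matrix.add_apply, Matrix.smul_apply, smul_eq_mul]
  have hcomp : ∀ t ∈ Slit ρ, Φ (T i + t * D) = Φl t * C := by
    intro t ht
    ext k j
    have h1 := hUniq ι (Slit ρ) L (isOpen_slit ρ) (slit_conn hρ) hLh
      (fun t k => (Φ (T i + t * D) - Φl t * C) k j) (fun t ht k => by
        have h2 := (hΦd t ht).sub ((hΦld t ht).mul (MD.const C t))
        have h3 := h2 k j
        have e0 : (L t * Φ (T i + t * D) - (L t * Φl t * C + Φl t * 0) :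
              Matrix ι ι ℂ) = L t * (Φ (T i + t * D) - Φl t * C) := by
          rw [Matrix.mul_zero, add_zero, Matrix.mul_assoc, ← Matrix.mul_sub]
        rw [e0] at h3
        exact h3) t0 ht0s (by
        funext k
        simp only [hC0, sub_self]
        rfl) t ht
    have h4 := congrFun h1 k
    simp only [Matrix.sub_apply, Pi.zero_apply] at h4
    exact sub_eq_zero.1 h4
  -- the projector in the basis at `b0`
  obtain ⟨P, hP⟩ : ∃ P : Matrix ι ι ℂ, P = C⁻¹ * P0 * C := ⟨_, rfl⟩
  have hPP : P * P = P := by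
    calc P * P = C⁻¹ * P0 * (C * C⁻¹) * P0 * C := by rw [hP]; simp only [Matrix.mul_assoc]
      _ = C⁻¹ * (P0 * P0) * C := by rw [q2, Matrix.mul_one]; simp only [Matrix.mul_assoc]
      _ = P := by rw [hP0P0, hP]
  have hform : ∀ t ∈ Slit ρ, Φ (T i + t * D) = (H t * C) * (1 + (g t - 1) • P) := by
    intro t ht
    rw [hcomp t ht]
    simp only [hΦl, hGdef]
    have h0 : C * P = P0 * C := by
      calc C * P = (C * C⁻¹) * (P0 * C) := by rw [hP]; simp only [Matrix.mul_assoc]
        _ = P0 * C := by rw [q2, Matrix.one_mul]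
    have h1 : (C * (1 + (g t - 1) • P) : Matrix ι ι ℂ) = (1 + (g t - 1) • P0) * C := by
      rw [Matrix.mul_add, Matrix.mul_one, Matrix.add_mul, Matrix.one_mul, Matrix.mul_smul,
        Matrix.smul_mul, h0]
    rw [Matrix.mul_assoc, Matrix.mul_assoc, h1]
  have hH1h : GPH.HolM (ball 0 ρ) (fun t => H t * C) := holM_mul hHh (holM_const C)
  have hH1det : ∀ t ∈ ball (0 : ℂ) ρ, (H t * C).det ≠ 0 := by
    intro t ht
    rw [Matrix.det_mul]
    exact mul_ne_zero (hHdet t ht) hCdet
  -- the form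
  have hPQ : Q * P = P.transpose * Q := by
    set M : ℂ → Matrix ι ι ℂ := fun t =>
      (H t * C).transpose * No Ac Uc e r (T i + t * D) * (H t * C) with hM
    have hNh : GPH.HolM (ball 0 ρ) (fun t => No Ac Uc e r (T i + t * D)) := by
      have h1 : GPH.HolM (ball 0 ρ) (fun t : ℂ =>
          (e + r * (T i + t * D)) • (1 : Matrix ι ι ℂ) + Ac) := by
        intro k l
        have : DifferentiableOn ℂ (fun t : ℂ =>
            (e + r * (T i + t * D)) * (1 : Matrix ι ι ℂ) k l + Ac k l) (ball 0 ρ) := by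
          fun_prop
        exact this
      exact holM_mul (holM_const Uc) h1
    have hMh : GPH.HolM (ball 0 ρ) M := by
      have h1 : GPH.HolM (ball 0 ρ) (fun t => (H t * C).transpose) := fun k j => hH1h j k
      exact holM_mul (holM_mul h1 hNh) hH1h
    have hMeq : ∀ t ∈ Slit ρ,
        (1 + (g t - 1) • P).transpose * M t * (1 + (g t - 1) • P) = Q := by
      intro t ht
      have h1 := hΦ.iso _ (hcut t ht)
      rw [hform t ht, Matrix.transpose_mul] at h1
      refine Eq.trans ?_ h1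
      simp only [hM, Matrix.mul_assoc]
    have hkey : ∀ t ∈ Slit ρ, P.transpose * Q * (1 - P) =
        g t • (P.transpose * M t * (1 - P)) := by
      intro t ht
      have e1 : (1 + (g t - 1) • P) * (1 - P) = 1 - P := by
        rw [Matrix.mul_sub, Matrix.mul_one, Matrix.add_mul, Matrix.one_mul, Matrix.smul_mul, hPP]
        abel
      have e2 : P.transpose * (1 + (g t - 1) • P).transpose = g t • P.transpose := by
        rw [← Matrix.transpose_mul, Matrix.add_mul, Matrix.one_mul, Matrix.smul_mul, hPP,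
          ← Matrix.transpose_smul]
        congr 1
        rw [sub_smul, one_smul]
        abel
      rw [← hMeq t ht]
      calc P.transpose * ((1 + (g t - 1) • P).transpose * M t * (1 + (g t - 1) • P)) * (1 - P)
          = (P.transpose * (1 + (g t - 1) • P).transpose) * M t *
            ((1 + (g t - 1) • P) * (1 - P)) := by simp only [Matrix.mul_assoc]
        _ = g t • (P.transpose * M t * (1 - P)) := by
            rw [e1, e2, Matrix.smul_mul, Matrix.smul_mul]
    have hzero : P.transpose * Q * (1 - P) = 0 := by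
      ext k l
      have hf : DifferentiableOn ℂ (fun t => (P.transpose * M t * (1 - P)) k l) (ball 0 ρ) :=
        holM_mul (holM_mul (holM_const P.transpose) hMh) (holM_const (1 - P)) k l
      refine sqrt_zero hρ hf (fun t ht => ?_)
      have := congrFun (congrFun (hkey t ht) k) l
      rw [this, Matrix.smul_apply, smul_eq_mul]
    have h1 : P.transpose * Q = P.transpose * Q * P := by
      rw [Matrix.mul_sub, Matrix.mul_one] at hzero
      exact sub_eq_zero.1 hzero
    have h2 : Q * P = P.transpose * Q * P := by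
      have h3 := congrArg Matrix.transpose h1
      rw [Matrix.transpose_mul, Matrix.transpose_mul (P.transpose * Q) P, Matrix.transpose_mul,
        Matrix.transpose_transpose] at h3
      have hQs' : Q.transpose = Q := hQs
      rw [hQs', ← Matrix.mul_assoc] at h3
      exact h3
    rw [h2, ← h1]
  have hP0iff : P = 0 ↔ x i = 0 := by
    rw [← hR0]
    constructor
    · intro h
      have h1 : C * P * C⁻¹ = P0 := by
        calc C * P * C⁻¹ = (C * C⁻¹) * P0 * (C * C⁻¹) := by
              rw [hP]; simp only [Matrix.mul_assoc]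
          _ = P0 := by rw [q2, Matrix.one_mul, Matrix.mul_one]
      rw [h, Matrix.mul_zero, Matrix.zero_mul] at h1
      have h2 : (-(1/2) : ℂ) • P0 = R := by
        rw [hP0, smul_smul]
        have : (-(1 / 2) : ℂ) * -2 = 1 := by norm_num
        rw [this, one_smul]
      rw [← h2, ← h1, smul_zero]
    · intro h
      rw [hP, hP0, h, smul_zero, Matrix.mul_zero, Matrix.zero_mul]
  -- conclusion
  have hloc : LocO T b0 Φ i P := by
    refine ⟨ρ, fun t => H t * C, hρ, hH1h, hH1det, ?_⟩
    intro t ht hu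
    have hts := mem_slit ht hu
    exact ⟨hcut t hts, hform t hts⟩
  by_cases hx : x i = 0
  · have hPz : P = 0 := hP0iff.2 hx
    refine ⟨0, Or.inl rfl, ⟨fun _ => hx, fun _ => rfl⟩, ?_⟩
    have : pr Q (0 : ι → ℂ) = P := by
      rw [hPz]
      ext k l
      simp [pr, Matrix.vecMulVec_apply]
    rw [this]
    exact hloc
  · have hPz : P ≠ 0 := fun h => hx (hP0iff.1 h)
    set a : ι → ℂ := C⁻¹.mulVec (x i) with ha
    set w : ι → ℂ := (-2 : ℂ) • (Matrix.vecMul (Matrix.vecMul (Uc.mulVec (x i)) Ec) C) with hw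
    have hPaw : P = Matrix.vecMulVec a w := by
      rw [hP, hP0, hRdef]
      unfold Ro
      rw [Matrix.vecMulVec_mul, ha, hw]
      ext k l
      rw [Matrix.mul_smul, Matrix.smul_mul, Matrix.mul_vecMulVec, Matrix.vecMulVec_mul]
      simp only [Matrix.smul_apply, Matrix.vecMulVec_apply, Pi.smul_apply, smul_eq_mul]
      ring
    rw [hPaw] at hPP hPQ hPz
    obtain ⟨v, hv1, hv2⟩ := rank_one hQs hQdet hPP hPQ hPz
    refine ⟨v, Or.inr hv1, ⟨fun h => ?_, fun h => absurd h hx⟩, ?_⟩
    · rw [h] at hv1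
      simp at hv1
    · rw [hv2, ← hPaw]
      exact hloc

end

end Pool.Agent.EVD
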