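import Pool.Agent.EVD.Stmts

set_option autoImplicit false

/-!
# EVD, module MKL: the limits of the period matrices for `t → ∞`
-/

open scoped BigOperators Topology
open Metric Set MeasureTheory Filter

namespace Pool.Agent.EVD

noncomputable section

namespace MKL_

lemma bI_lt {n : ℕ} (f : Fin n → Polynomial ℚ) (hn : 0 < n) (h2 : ∀ j, 2 ≤ (f j).natDegree)
    (x : Ix f) : bI f x < n := by
  have : Nonempty (Fin n) := ⟨⟨0, hn⟩⟩
  have h : bI f x < ∑ _j : Fin n, (1 : ℚ) := by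
    unfold bI
    apply Finset.sum_lt_sum_of_nonempty Finset.univ_nonempty
    intro j _
    have h3 := h2 j
    have h4 := (x j).2
    have h5 : ((x j : ℕ) : ℚ) + 1 < ((f j).natDegree : ℚ) := by
      have h6 : (x j : ℕ) + 1 < (f j).natDegree := by omega
      exact_mod_cast h6
    have h7 : (0 : ℚ) < ((f j).natDegree : ℚ) := by
      have : 0 < (f j).natDegree := by omega
      exact_mod_cast this
    rw [div_lt_one h7]
    exact h5
  simpa using h

/-- The substitution `τ = s / t`. -/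
lemma subst (G : ℝ → ℂ) (β : ℝ) (n : ℕ) (hn : 0 < n) (t : ℝ) (ht : 0 < t) :
    ((t ^ ((n : ℝ) - β) : ℝ) : ℂ) *
      ∫ τ in Ioi (0 : ℝ), (τ : ℂ) ^ (n - 1) * Complex.exp (-(t : ℂ) * τ) * G τ =
    ∫ s in Ioi (0 : ℝ), ((Real.exp (-s) * s ^ ((n : ℝ) - β - 1) : ℝ) : ℂ) *
      ((((s / t) ^ β : ℝ) : ℂ) * G (s / t)) := by
  set h : ℝ → ℂ := fun τ => (τ : ℂ) ^ (n - 1) * Complex.exp (-(t : ℂ) * τ) * G τ with hh
  have h1 : ∫ τ in Ioi (0 : ℝ), h τ = t⁻¹ • ∫ s in Ioi (0 : ℝ), h (s / t) := by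
    have h2 := MeasureTheory.integral_comp_mul_left_Ioi (fun s => h (s / t)) 0 ht
    rw [mul_zero] at h2
    rw [← h2]
    congr 1
    funext τ
    congr 1
    field_simp
  rw [h1, ← integral_smul, ← integral_const_mul]
  apply setIntegral_congr_fun measurableSet_Ioi
  intro s hs
  have hs' : (0 : ℝ) < s := hs
  have hst : 0 < s / t := div_pos hs' ht
  simp only [hh]
  have e1 : Complex.exp (-(t : ℂ) * ((s / t : ℝ) : ℂ)) = ((Real.exp (-s) : ℝ) : ℂ) := by
    rw [Complex.ofReal_exp]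
    congr 1
    push_cast
    have : (t : ℂ) ≠ 0 := by exact_mod_cast ht.ne'
    field_simp
  rw [e1]
  have e2 : t ^ ((n : ℝ) - β) * (t⁻¹ * (s / t) ^ (n - 1)) = s ^ ((n : ℝ) - β - 1) * (s / t) ^ β := by
    have a1 : (s / t) ^ (n - 1) = s ^ ((n : ℝ) - 1) / t ^ ((n : ℝ) - 1) := by
      rw [← Real.rpow_natCast, Real.div_rpow hs'.le ht.le]
      have : ((n - 1 : ℕ) : ℝ) = (n : ℝ) - 1 := by
        rw [Nat.cast_sub (by omega)]; simp
      rw [this]
    rw [a1, Real.div_rpow hs'.le ht.le]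
    have a2 : s ^ ((n : ℝ) - 1) = s ^ ((n : ℝ) - β - 1) * s ^ β := by
      rw [← Real.rpow_add hs']; congr 1; ring
    have a3 : t ^ ((n : ℝ) - β) * t ^ β = t ^ ((n : ℝ) - 1) * t := by
      rw [← Real.rpow_add ht]
      nth_rewrite 3 [← Real.rpow_one t]
      rw [← Real.rpow_add ht]; congr 1; ring
    have p1 : t ^ β ≠ 0 := (Real.rpow_pos_of_pos ht _).ne'
    have p2 : t ^ ((n : ℝ) - 1) ≠ 0 := (Real.rpow_pos_of_pos ht _).ne'
    rw [a2]
    field_simp
    rw [a3]
    ring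
  have e3 : ((t ^ ((n : ℝ) - β) : ℝ) : ℂ) * ((t⁻¹ : ℝ) * ((s / t : ℝ) : ℂ) ^ (n - 1)) =
      ((s ^ ((n : ℝ) - β - 1) : ℝ) : ℂ) * (((s / t) ^ β : ℝ) : ℂ) := by
    exact_mod_cast congrArg (fun r : ℝ => (r : ℂ)) e2
  rw [Complex.real_smul]
  calc ((t ^ ((n : ℝ) - β) : ℝ) : ℂ) * ((t⁻¹ : ℝ) * (((s / t : ℝ) : ℂ) ^ (n - 1) *
        ((Real.exp (-s) : ℝ) : ℂ) * G (s / t))) =
      (((t ^ ((n : ℝ) - β) : ℝ) : ℂ) * ((t⁻¹ : ℝ) * ((s / t : ℝ) : ℂ) ^ (n - 1))) *
        (((Real.exp (-s) : ℝ) : ℂ) * G (s / t)) := by ring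
    _ = _ := by
      rw [e3]
      push_cast
      ring

lemma laplace (G : ℝ → ℂ) (β : ℝ) (n : ℕ) (hn : 0 < n) (hβ : β < n) (C c : ℝ) (hc : 0 < c)
    (hG : ContinuousOn G (Ioi 0))
    (hb : ∀ τ : ℝ, 0 < τ → ‖G τ‖ ≤ C * Real.exp (-(c * τ)) * τ ^ (-β)) (L : ℂ)
    (hL : Tendsto (fun τ : ℝ => ((τ ^ β : ℝ) : ℂ) * G τ) (𝓝[>] 0) (𝓝 L)) :
    Tendsto (fun t : ℝ => ((t ^ ((n : ℝ) - β) : ℝ) : ℂ) * ((1 / ((n - 1).factorial : ℂ)) *
      ∫ τ in Ioi (0 : ℝ), (τ : ℂ) ^ (n - 1) * Complex.exp (-(t : ℂ) * τ) * G τ)) atTop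
      (𝓝 (((Real.Gamma ((n : ℝ) - β) / Real.Gamma (n : ℝ) : ℝ) : ℂ) * L)) := by
  have hpos : 0 < (n : ℝ) - β := by linarith
  have hCC : 0 ≤ C := by
    have h1 := hb 1 one_pos
    rw [Real.one_rpow, mul_one] at h1
    have h2 := (norm_nonneg _).trans h1
    exact nonneg_of_mul_nonneg_left h2 (Real.exp_pos _)
  have hint : IntegrableOn (fun s : ℝ => Real.exp (-s) * s ^ ((n : ℝ) - β - 1)) (Ioi 0) :=
    Real.GammaIntegral_convergent hpos
  have key : Tendsto (fun t : ℝ => ∫ s in Ioi (0 : ℝ),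
      ((Real.exp (-s) * s ^ ((n : ℝ) - β - 1) : ℝ) : ℂ) *
      ((((s / t) ^ β : ℝ) : ℂ) * G (s / t))) atTop
      (𝓝 (∫ s in Ioi (0 : ℝ), ((Real.exp (-s) * s ^ ((n : ℝ) - β - 1) : ℝ) : ℂ) * L)) := by
    apply tendsto_integral_filter_of_dominated_convergence
      (fun s => C * (Real.exp (-s) * s ^ ((n : ℝ) - β - 1)))
    · filter_upwards [eventually_gt_atTop (0 : ℝ)] with t ht
      apply ContinuousOn.aestronglyMeasurable _ measurableSet_Ioi
      apply ContinuousOn.mul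
      · apply Complex.continuous_ofReal.comp_continuousOn
        apply ContinuousOn.mul
        · fun_prop
        · intro s hs
          exact (Real.continuousAt_rpow_const _ _ (Or.inl (ne_of_gt hs))).continuousWithinAt
      · apply ContinuousOn.mul
        · apply Complex.continuous_ofReal.comp_continuousOn
          intro s hs
          have hs' : (0 : ℝ) < s := hs
          have h1 : ContinuousAt (fun s : ℝ => (s / t) ^ β) s :=
            ContinuousAt.comp (f := fun s : ℝ => s / t) (g := fun r : ℝ => r ^ β)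
              (Real.continuousAt_rpow_const _ _ (Or.inl (div_pos hs' ht).ne'))
              (continuousAt_id.div_const t)
          exact h1.continuousWithinAt
        · apply hG.comp (continuous_id.div_const t).continuousOn
          intro s hs
          exact div_pos hs ht
    · filter_upwards [eventually_gt_atTop (0 : ℝ)] with t ht
      filter_upwards [ae_restrict_mem measurableSet_Ioi] with s hs
      have hs' : (0 : ℝ) < s := hs
      have hst : 0 < s / t := div_pos hs' ht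
      rw [norm_mul, norm_mul, Complex.norm_real, Complex.norm_real, Real.norm_eq_abs,
        Real.norm_eq_abs, abs_of_nonneg (by positivity), abs_of_nonneg (by positivity)]
      have h1 := hb (s / t) hst
      have h2 : (s / t) ^ β * ‖G (s / t)‖ ≤ C := by
        calc (s / t) ^ β * ‖G (s / t)‖ ≤
            (s / t) ^ β * (C * Real.exp (-(c * (s / t))) * (s / t) ^ (-β)) :=
              mul_le_mul_of_nonneg_left h1 (by positivity)
          _ = C * Real.exp (-(c * (s / t))) * ((s / t) ^ β * (s / t) ^ (-β)) := by ring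
          _ = C * Real.exp (-(c * (s / t))) := by
              rw [← Real.rpow_add hst, add_neg_cancel, Real.rpow_zero, mul_one]
          _ ≤ C * 1 := by
              apply mul_le_mul_of_nonneg_left _ hCC
              rw [Real.exp_le_one_iff]
              have := mul_pos hc hst
              linarith
          _ = C := mul_one C
      calc Real.exp (-s) * s ^ ((n : ℝ) - β - 1) * ((s / t) ^ β * ‖G (s / t)‖) ≤
          Real.exp (-s) * s ^ ((n : ℝ) - β - 1) * C :=
            mul_le_mul_of_nonneg_left h2 (by positivity)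
        _ = C * (Real.exp (-s) * s ^ ((n : ℝ) - β - 1)) := by ring
    · exact hint.const_mul C
    · filter_upwards [ae_restrict_mem measurableSet_Ioi] with s hs
      have hs' : (0 : ℝ) < s := hs
      apply Tendsto.const_mul
      have h1 : Tendsto (fun t : ℝ => s / t) atTop (𝓝[>] 0) := by
        apply tendsto_nhdsWithin_iff.2 ⟨tendsto_const_nhds.div_atTop tendsto_id, ?_⟩
        filter_upwards [eventually_gt_atTop (0 : ℝ)] with t ht
        exact div_pos hs' ht
      exact hL.comp h1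
  have hval : ∫ s in Ioi (0 : ℝ), ((Real.exp (-s) * s ^ ((n : ℝ) - β - 1) : ℝ) : ℂ) * L =
      ((Real.Gamma ((n : ℝ) - β) : ℝ) : ℂ) * L := by
    rw [integral_mul_const, integral_complex_ofReal, Real.Gamma_eq_integral hpos]
  rw [hval] at key
  have hfac : Real.Gamma (n : ℝ) = ((n - 1).factorial : ℝ) := by
    have h1 := Real.Gamma_nat_eq_factorial (n - 1)
    rw [← h1]
    congr 1
    rw [Nat.cast_sub (by omega)]
    simp
  have key2 := key.const_mul (1 / ((n - 1).factorial : ℂ))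
  have hlim : 1 / ((n - 1).factorial : ℂ) * (((Real.Gamma ((n : ℝ) - β) : ℝ) : ℂ) * L) =
      ((Real.Gamma ((n : ℝ) - β) / Real.Gamma (n : ℝ) : ℝ) : ℂ) * L := by
    rw [hfac]
    push_cast
    ring
  rw [hlim] at key2
  apply key2.congr'
  filter_upwards [eventually_gt_atTop (0 : ℝ)] with t ht
  rw [← subst G β n hn t ht]
  ring

/-- A triangular system: limits of the solution from limits of the right hand side. -/
lemma tri {ι : Type} [Fintype ι] [DecidableEq ι] (B : Matrix ι ι ℂ) (b : ι → ℝ) (l : ℝ)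
    (Bdia : ∀ i, B i i = (b i : ℂ)) (Btri : ∀ i j, i ≠ j → B i j ≠ 0 → b j < b i)
    (bint : ∀ i, b i ≠ l) (M P : ℝ → ι → ℂ) (c : ι → ℂ)
    (hMP : ∀ t, (B - (l : ℂ) • (1 : Matrix ι ι ℂ)).mulVec (M t) = P t)
    (hP : ∀ x, Tendsto (fun t : ℝ => ((t ^ (l - b x) : ℝ) : ℂ) * P t x) atTop (𝓝 (c x))) :
    ∀ x, Tendsto (fun t : ℝ => ((t ^ (l - b x) : ℝ) : ℂ) * M t x) atTop
      (𝓝 (c x / ((b x : ℂ) - l))) := by
  have wf : WellFounded (fun z x : ι => b z < b x) := by
    have : IsTrans ι (fun z x : ι => b z < b x) := ⟨fun _ _ _ h1 h2 => h1.trans h2⟩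
    have : Std.Irrefl (fun z x : ι => b z < b x) := ⟨fun _ => lt_irrefl _⟩
    exact Finite.wellFounded_of_trans_of_irrefl _
  intro x
  induction x using wf.induction with
  | _ x ih =>
    have hne : (b x : ℂ) - l ≠ 0 := by
      have := sub_ne_zero.2 (bint x)
      exact_mod_cast this
    have h1 : ∀ t, M t x = (P t x - ∑ z ∈ Finset.univ.erase x, B x z * M t z) /
        ((b x : ℂ) - l) := by
      intro t
      have h2 := congrFun (hMP t) x
      rw [eq_div_iff hne, ← h2]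
      simp only [Matrix.mulVec, dotProduct, Matrix.sub_apply, Matrix.smul_apply, smul_eq_mul]
      rw [← Finset.add_sum_erase Finset.univ _ (Finset.mem_univ x)]
      have h3 : ∑ z ∈ Finset.univ.erase x, (B x z - (l : ℂ) * (1 : Matrix ι ι ℂ) x z) * M t z =
          ∑ z ∈ Finset.univ.erase x, B x z * M t z := by
        apply Finset.sum_congr rfl
        intro z hz
        rw [Matrix.one_apply_ne (Finset.ne_of_mem_erase hz).symm, mul_zero, sub_zero]
      rw [h3, Matrix.one_apply_eq, Bdia]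
      ring
    have h4 : Tendsto (fun t : ℝ => (((t ^ (l - b x) : ℝ) : ℂ) * P t x -
        ∑ z ∈ Finset.univ.erase x, (B x z * (((t ^ (b z - b x) : ℝ) : ℂ) *
          (((t ^ (l - b z) : ℝ) : ℂ) * M t z)))) / ((b x : ℂ) - l)) atTop
        (𝓝 ((c x - ∑ z ∈ Finset.univ.erase x, (0 : ℂ)) / ((b x : ℂ) - l))) := by
      apply Tendsto.div_const
      apply Tendsto.sub (hP x)
      apply tendsto_finsetSum
      intro z hz
      by_cases hB : B x z = 0
      · simp [hB]
      · have hlt := Btri x z (Finset.ne_of_mem_erase hz).symm hB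
        have h5 := ih z hlt
        have h6 : Tendsto (fun t : ℝ => ((t ^ (b z - b x) : ℝ) : ℂ)) atTop (𝓝 0) := by
          have h7 : Tendsto (fun t : ℝ => t ^ (-(b x - b z))) atTop (𝓝 0) :=
            tendsto_rpow_neg_atTop (by linarith)
          have h8 := (Complex.continuous_ofReal.tendsto 0).comp h7
          simpa [Function.comp_def] using h8
        have h9 := (h6.mul h5).const_mul (B x z)
        simpa using h9
    rw [Finset.sum_const_zero, sub_zero] at h4
    apply h4.congr'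
    filter_upwards [eventually_gt_atTop (0 : ℝ)] with t ht
    rw [h1 t, ← mul_div_assoc]
    congr 1
    rw [mul_sub, Finset.mul_sum]
    congr 1
    apply Finset.sum_congr rfl
    intro z _
    have h10 : t ^ (l - b x) = t ^ (b z - b x) * t ^ (l - b z) := by
      rw [← Real.rpow_add ht]; congr 1; ring
    rw [h10]
    push_cast
    ring

lemma det_ne {ι : Type} [Fintype ι] [DecidableEq ι] (B : Matrix ι ι ℂ) (b : ι → ℝ) (l : ℝ)
    (Bdia : ∀ i, B i i = (b i : ℂ)) (Btri : ∀ i j, i ≠ j → B i j ≠ 0 → b j < b i)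
    (bint : ∀ i, b i ≠ l) : (B - (l : ℂ) • (1 : Matrix ι ι ℂ)).det ≠ 0 := by
  intro h0
  obtain ⟨v, hv, h1⟩ := Matrix.exists_mulVec_eq_zero_iff.2 h0
  apply hv
  have wf : WellFounded (fun z x : ι => b z < b x) := by
    have : IsTrans ι (fun z x : ι => b z < b x) := ⟨fun _ _ _ h1 h2 => h1.trans h2⟩
    have : Std.Irrefl (fun z x : ι => b z < b x) := ⟨fun _ => lt_irrefl _⟩
    exact Finite.wellFounded_of_trans_of_irrefl _
  funext x
  induction x using wf.induction with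
  | _ x ih =>
    have hne : (b x : ℂ) - l ≠ 0 := by
      have := sub_ne_zero.2 (bint x)
      exact_mod_cast this
    have h2 := congrFun h1 x
    simp only [Matrix.mulVec, dotProduct, Matrix.sub_apply, Matrix.smul_apply, smul_eq_mul,
      Pi.zero_apply] at h2
    rw [← Finset.add_sum_erase Finset.univ _ (Finset.mem_univ x)] at h2
    have h3 : ∑ z ∈ Finset.univ.erase x, (B x z - (l : ℂ) * (1 : Matrix ι ι ℂ) x z) * v z = 0 := by
      apply Finset.sum_eq_zero
      intro z hz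
      have hzx := Finset.ne_of_mem_erase hz
      rw [Matrix.one_apply_ne hzx.symm, mul_zero, sub_zero]
      by_cases hB : B x z = 0
      · rw [hB, zero_mul]
      · rw [ih z (Btri x z hzx.symm hB)]
        simp
    rw [h3, Matrix.one_apply_eq, Bdia, add_zero, mul_one] at h2
    rcases mul_eq_zero.1 h2 with h4 | h4
    · exact absurd h4 hne
    · simpa using h4

lemma step {ι : Type} [Fintype ι] [DecidableEq ι] (A B : Matrix ι ι ℂ) (b : ι → ℝ) (l : ℕ)
    (hl : 1 ≤ l) (Bdia : ∀ i, B i i = (b i : ℂ)) (Btri : ∀ i j, i ≠ j → B i j ≠ 0 → b j < b i)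
    (Awt : ∀ i j, A i j ≠ 0 → b j < b i + 1) (bint : ∀ i, b i ≠ (l : ℝ))
    (M : ℝ → Matrix ι ι ℂ) (c : Matrix ι ι ℂ)
    (hM : ∀ x y, Tendsto (fun t : ℝ => ((t ^ (((l + 1 : ℕ) : ℝ) - b x) : ℝ) : ℂ) * M t x y) atTop
      (𝓝 (((Real.Gamma (((l + 1 : ℕ) : ℝ) - b x) / Real.Gamma ((l + 1 : ℕ) : ℝ) : ℝ) : ℂ) *
        c x y))) :
    ∀ x y, Tendsto (fun t : ℝ => ((t ^ ((l : ℝ) - b x) : ℝ) : ℂ) *
      ((-(l : ℂ)) • ((B - (l : ℂ) • (1 : Matrix ι ι ℂ))⁻¹ *
        ((t : ℂ) • (1 : Matrix ι ι ℂ) + A) * M t)) x y) atTop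
      (𝓝 (((Real.Gamma ((l : ℝ) - b x) / Real.Gamma (l : ℝ) : ℝ) : ℂ) * c x y)) := by
  intro x y
  have hdet : IsUnit (B - (l : ℂ) • (1 : Matrix ι ι ℂ)).det := by
    have h := det_ne B b (l : ℝ) Bdia Btri bint
    rw [isUnit_iff_ne_zero]
    simpa using h
  set N : ℝ → Matrix ι ι ℂ := fun t => (-(l : ℂ)) • ((B - (l : ℂ) • (1 : Matrix ι ι ℂ))⁻¹ *
        ((t : ℂ) • (1 : Matrix ι ι ℂ) + A) * M t) with hN
  have hNM : ∀ t, (B - (l : ℂ) • (1 : Matrix ι ι ℂ)) * N t =
      (-(l : ℂ)) • (((t : ℂ) • (1 : Matrix ι ι ℂ) + A) * M t) := by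
    intro t
    simp only [hN]
    rw [Matrix.mul_smul, ← Matrix.mul_assoc, ← Matrix.mul_assoc, Matrix.mul_nonsing_inv _ hdet,
      Matrix.one_mul]
  have hP : ∀ z, Tendsto (fun t : ℝ => ((t ^ ((l : ℝ) - b z) : ℝ) : ℂ) *
      ((-(l : ℂ)) • (((t : ℂ) • (1 : Matrix ι ι ℂ) + A) * M t)) z y) atTop
      (𝓝 ((-(l : ℂ)) * (((Real.Gamma (((l + 1 : ℕ) : ℝ) - b z) /
        Real.Gamma ((l + 1 : ℕ) : ℝ) : ℝ) : ℂ) * c z y))) := by
    intro z
    have h4 : Tendsto (fun t : ℝ => (-(l : ℂ)) *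
        (((t ^ (((l + 1 : ℕ) : ℝ) - b z) : ℝ) : ℂ) * M t z y +
        ∑ w, A z w * (((t ^ (b w - b z - 1) : ℝ) : ℂ) *
          (((t ^ (((l + 1 : ℕ) : ℝ) - b w) : ℝ) : ℂ) * M t w y)))) atTop
        (𝓝 ((-(l : ℂ)) * (((Real.Gamma (((l + 1 : ℕ) : ℝ) - b z) /
        Real.Gamma ((l + 1 : ℕ) : ℝ) : ℝ) : ℂ) * c z y + ∑ w : ι, (0 : ℂ)))) := by
      apply Tendsto.const_mul
      apply Tendsto.add (hM z y)
      apply tendsto_finsetSum
      intro w _
      by_cases hA : A z w = 0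
      · simp [hA]
      · have hlt := Awt z w hA
        have h6 : Tendsto (fun t : ℝ => ((t ^ (b w - b z - 1) : ℝ) : ℂ)) atTop (𝓝 0) := by
          have h7 : Tendsto (fun t : ℝ => t ^ (-(b z + 1 - b w))) atTop (𝓝 0) :=
            tendsto_rpow_neg_atTop (by linarith)
          have h8 := (Complex.continuous_ofReal.tendsto 0).comp h7
          have h9 : ∀ t : ℝ, t ^ (b w - b z - 1) = t ^ (-(b z + 1 - b w)) := by
            intro t; congr 1; ring
          simp only [h9]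
          simpa [Function.comp_def] using h8
        have h9 := (h6.mul (hM w y)).const_mul (A z w)
        simpa using h9
    rw [Finset.sum_const_zero, add_zero] at h4
    apply h4.congr'
    filter_upwards [eventually_gt_atTop (0 : ℝ)] with t ht
    rw [Matrix.smul_apply, smul_eq_mul, Matrix.add_mul, Matrix.add_apply, Matrix.smul_mul,
      Matrix.one_mul, Matrix.smul_apply, smul_eq_mul, Matrix.mul_apply]
    have a1 : t ^ (((l + 1 : ℕ) : ℝ) - b z) = t ^ ((l : ℝ) - b z) * t := by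
      nth_rewrite 3 [← Real.rpow_one t]
      rw [← Real.rpow_add ht]; congr 1; push_cast; ring
    have a2 : ∀ w, t ^ (b w - b z - 1) * t ^ (((l + 1 : ℕ) : ℝ) - b w) = t ^ ((l : ℝ) - b z) := by
      intro w
      rw [← Real.rpow_add ht]; congr 1; push_cast; ring
    have a3 : ∑ w, A z w * (((t ^ (b w - b z - 1) : ℝ) : ℂ) *
          (((t ^ (((l + 1 : ℕ) : ℝ) - b w) : ℝ) : ℂ) * M t w y)) =
        ((t ^ ((l : ℝ) - b z) : ℝ) : ℂ) * ∑ w, A z w * M t w y := by
      rw [Finset.mul_sum]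
      apply Finset.sum_congr rfl
      intro w _
      rw [← a2 w]
      push_cast
      ring
    rw [a3, a1]
    push_cast
    ring
  have h5 := tri B b (l : ℝ) Bdia Btri bint (fun t z => N t z y)
    (fun t z => ((-(l : ℂ)) • (((t : ℂ) • (1 : Matrix ι ι ℂ) + A) * M t)) z y)
    (fun z => (-(l : ℂ)) * (((Real.Gamma (((l + 1 : ℕ) : ℝ) - b z) /
        Real.Gamma ((l + 1 : ℕ) : ℝ) : ℝ) : ℂ) * c z y)) ?_ hP x
  · have hl0 : (l : ℝ) ≠ 0 := by
      have : (0 : ℝ) < (l : ℝ) := by exact_mod_cast hl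
      exact this.ne'
    have hlb : (l : ℝ) - b x ≠ 0 := by
      intro h; exact bint x (by linarith)
    have hG1 : Real.Gamma (((l + 1 : ℕ) : ℝ) - b x) = ((l : ℝ) - b x) *
        Real.Gamma ((l : ℝ) - b x) := by
      rw [← Real.Gamma_add_one hlb]; congr 1; push_cast; ring
    have hG2 : Real.Gamma ((l + 1 : ℕ) : ℝ) = (l : ℝ) * Real.Gamma (l : ℝ) := by
      rw [← Real.Gamma_add_one hl0]; congr 1; push_cast; ring
    have hG3 : Real.Gamma (l : ℝ) ≠ 0 := by
      refine (Real.Gamma_pos_of_pos ?_).ne'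
      exact_mod_cast hl
    have hlim : (-(l : ℂ)) * (((Real.Gamma (((l + 1 : ℕ) : ℝ) - b x) /
        Real.Gamma ((l + 1 : ℕ) : ℝ) : ℝ) : ℂ) * c x y) / ((b x : ℂ) - ((l : ℝ) : ℂ)) =
        ((Real.Gamma ((l : ℝ) - b x) / Real.Gamma (l : ℝ) : ℝ) : ℂ) * c x y := by
      rw [hG1, hG2]
      have c1 : ((l : ℝ) : ℂ) - (b x : ℂ) ≠ 0 := by exact_mod_cast hlb
      have c2 : (b x : ℂ) - ((l : ℝ) : ℂ) ≠ 0 := by
        intro h; apply c1; rw [← neg_sub, h, neg_zero]
      have c3 : ((l : ℝ) : ℂ) ≠ 0 := by exact_mod_cast hl0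
      have c4 : ((Real.Gamma (l : ℝ) : ℝ) : ℂ) ≠ 0 := by exact_mod_cast hG3
      have c5 : (l : ℂ) = ((l : ℝ) : ℂ) := by push_cast; rfl
      rw [c5]
      rw [Complex.ofReal_div, Complex.ofReal_mul, Complex.ofReal_mul, Complex.ofReal_div,
        Complex.ofReal_sub, div_eq_iff c2]
      field_simp
      ring
    rw [hlim] at h5
    exact h5
  · intro t
    funext z
    have h6 := congrFun (congrFun (hNM t) z) y
    rw [← h6]
    simp [Matrix.mulVec, dotProduct, Matrix.mul_apply]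

end MKL_

theorem mkl_proof (hGgo : Stmt_Ggo) (_hMko : Stmt_Mko) (hOka : Stmt_Oka) : Stmt_Mkl := by
  intro n f hn hG1 hcop hray d
  have hmon : ∀ j, (f j).Monic := fun j => (hG1 j).mon
  have htwo : ∀ j, 2 ≤ (f j).natDegree := fun j => (hG1 j).two
  obtain ⟨hder, ⟨C, c, hc, hbd⟩, hlim⟩ := hGgo n f hn hmon htwo hray
  obtain ⟨_, _, _, _, Bdia, Btri, Awt, _, bint⟩ := hOka n f hG1 hcop
  induction d with
  | zero =>
    intro _ x y
    have hb : ((bI f x : ℚ) : ℝ) < (n : ℝ) := by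
      exact_mod_cast MKL_.bI_lt f hn htwo x
    have h := MKL_.laplace (fun τ => GG f τ x y) (bI f x : ℝ) n hn hb C c hc
      (fun τ hτ => (hder x y τ hτ).continuousAt.continuousWithinAt) (hbd x y) _ (hlim x y)
    exact h
  | succ d ih =>
    intro hd x y
    have ih' := ih (by omega)
    obtain ⟨l, hl⟩ : ∃ l : ℕ, l = n - d - 1 := ⟨_, rfl⟩
    have hl1 : 1 ≤ l := by omega
    have hnd : n - d = l + 1 := by omega
    have hnd1 : n - (d + 1) = l := by omega
    rw [hnd] at ih'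
    have h := MKL_.step (cm (AT f)) (cm (BT f)) (fun x => (bI f x : ℝ)) l hl1
      (by intro i; simp [cm, Bdia i])
      (by
        intro i j hij hB
        have h1 : BT f i j ≠ 0 := by
          intro h0; apply hB; simp [cm, h0]
        exact_mod_cast Btri i j hij h1)
      (by
        intro i j hA
        have h1 : AT f i j ≠ 0 := by
          intro h0; apply hA; simp [cm, h0]
        exact_mod_cast Awt i j h1)
      (by
        intro i h0
        apply bint hn i (l : ℤ)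
        have : ((bI f i : ℚ) : ℝ) = ((l : ℚ) : ℝ) := by rw [h0]; simp
        exact_mod_cast this)
      (fun t => MK f d (t : ℂ))
      (fun x y => ∏ j, ((zt (f j).natDegree ^ (((y j : ℕ) + 1) * ((x j : ℕ) + 1)) -
      zt (f j).natDegree ^ ((y j : ℕ) * ((x j : ℕ) + 1))) *
      ((Real.Gamma (((x j : ℕ) + 1 : ℝ) / (f j).natDegree) / (f j).natDegree : ℝ) : ℂ)))
      ih' x y
    rw [hnd1]
    have hMK : ∀ t : ℂ, MK f (d + 1) t = (-(l : ℂ)) • ((cm (BT f) -
        (l : ℂ) • (1 : Matrix (Ix f) (Ix f) ℂ))⁻¹ *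
        (t • (1 : Matrix (Ix f) (Ix f) ℂ) + cm (AT f)) * MK f d t) := by
      intro t
      rw [hl]
      rfl
    simp only [hMK]
    exact h

end

end Pool.Agent.EVD
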