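import Pool.Agent.EVD.Stmts

set_option autoImplicit false

/-!
# EVD, module MKO: the differential equations of the period matrices
-/

open scoped BigOperators Topology
open Metric Set MeasureTheory

namespace Pool.Agent.EVD

noncomputable section

namespace MKO_

/-- A triangular matrix minus a scalar which is not on the diagonal is invertible. -/
lemma det_ne {ι : Type} [Fintype ι] [DecidableEq ι] (B : Matrix ι ι ℚ) (b : ι → ℚ)
    (hd : ∀ x, B x x = b x) (ht : ∀ x y, x ≠ y → B x y ≠ 0 → b y < b x) (k : ℕ)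
    (hk : ∀ x, b x ≠ k) : (cm B - (k : ℂ) • (1 : Matrix ι ι ℂ)).det ≠ 0 := by
  classical
  intro h0
  obtain ⟨v, hv, hM⟩ := Matrix.exists_mulVec_eq_zero_iff.mpr h0
  obtain ⟨x0, hx0⟩ : ∃ x, v x ≠ 0 := by
    by_contra h
    push Not at h
    exact hv (funext h)
  obtain ⟨x, hx, hmin⟩ := Finset.exists_min_image (Finset.univ.filter fun x => v x ≠ 0) b
    ⟨x0, by simp [hx0]⟩
  rw [Finset.mem_filter] at hx
  have h1 := congrFun hM x
  rw [Matrix.mulVec, dotProduct, Finset.sum_eq_single x] at h1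
  · have h2 : (cm B - (k : ℂ) • (1 : Matrix ι ι ℂ)) x x = ((b x - k : ℚ) : ℂ) := by
      simp [cm, hd]
    rw [h2, Pi.zero_apply] at h1
    rcases mul_eq_zero.mp h1 with h3 | h3
    · have h4 : b x - k = 0 := by exact_mod_cast h3
      exact hk x (by linarith)
    · exact hx.2 h3
  · intro y _ hyx
    by_cases hB : B x y = 0
    · simp [cm, hB, Matrix.one_apply_ne (Ne.symm hyx)]
    · have h2 := ht x y (Ne.symm hyx) hB
      have h3 : v y = 0 := by
        by_contra h3
        have := hmin y (by simp [h3])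
        linarith
      rw [h3, mul_zero]
  · intro h
    exact absurd (Finset.mem_univ x) h

lemma hasDerivAt_matmul {ι : Type} [Fintype ι] [DecidableEq ι] (c : ℂ) (G : Matrix ι ι ℂ)
    (A : Matrix ι ι ℂ) (M : ℂ → Matrix ι ι ℂ) (M' : Matrix ι ι ℂ) (t : ℂ)
    (h : ∀ x y, HasDerivAt (fun t => M t x y) (M' x y) t) (x y : ι) :
    HasDerivAt (fun t => (c • (G * (t • (1 : Matrix ι ι ℂ) + A) * M t)) x y)
      ((c • (G * (M t + (t • (1 : Matrix ι ι ℂ) + A) * M'))) x y) t := by
  have h1 : ∀ z, HasDerivAt (fun t => ((t • (1 : Matrix ι ι ℂ) + A) * M t) z y)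
      ((M t + (t • (1 : Matrix ι ι ℂ) + A) * M') z y) t := by
    intro z
    have e1 : (fun t => ((t • (1 : Matrix ι ι ℂ) + A) * M t) z y) =
        fun t => t * M t z y + ∑ w, A z w * M t w y := by
      funext t
      rw [add_mul, smul_mul_assoc, one_mul, Matrix.add_apply, Matrix.smul_apply, smul_eq_mul,
        Matrix.mul_apply]
    rw [e1]
    have h2 := (hasDerivAt_id t).mul (h z y)
    have h3 : HasDerivAt (fun t => ∑ w, A z w * M t w y) (∑ w, A z w * M' w y) t := by
      have := HasDerivAt.sum (u := Finset.univ) (fun w _ => (h w y).const_mul (A z w))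
      refine this.congr_of_eventuallyEq ?_
      filter_upwards with s
      simp
    have e3 : (M t + (t • (1 : Matrix ι ι ℂ) + A) * M') z y =
        M t z y + (t * M' z y + ∑ w, A z w * M' w y) := by
      rw [Matrix.add_apply, Matrix.add_mul, Matrix.smul_mul, Matrix.one_mul, Matrix.add_apply,
        Matrix.smul_apply, smul_eq_mul, Matrix.mul_apply]
    refine (h2.add h3).congr_deriv ?_
    rw [e3]
    simp only [id_eq]
    ring
  have e2 : (fun t => (c • (G * (t • (1 : Matrix ι ι ℂ) + A) * M t)) x y) =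
      fun t => c * ∑ z, G x z * ((t • (1 : Matrix ι ι ℂ) + A) * M t) z y := by
    funext t
    rw [Matrix.smul_apply, smul_eq_mul, Matrix.mul_assoc, Matrix.mul_apply]
  rw [e2, Matrix.smul_apply, smul_eq_mul, Matrix.mul_apply]
  have h3 : HasDerivAt (fun t => ∑ z, G x z * ((t • (1 : Matrix ι ι ℂ) + A) * M t) z y)
      (∑ z, G x z * (M t + (t • (1 : Matrix ι ι ℂ) + A) * M') z y) t := by
    have := HasDerivAt.sum (u := Finset.univ) (fun z _ => (h1 z).const_mul (G x z))
    refine this.congr_of_eventuallyEq ?_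
    filter_upwards with s
    simp
  exact h3.const_mul c

end MKO_

open MKO_ in
theorem mko_proof (hLMO : Stmt_Lmo) (hOKA : Stmt_Oka) : Stmt_Mko := by
  intro n f hn hG hc hr
  obtain ⟨c, hc0, L0, hL0⟩ := hLMO n f hn (fun j => (hG j).mon) (fun j => (hG j).two) hr
  obtain ⟨-, -, -, -, hdia, htri, -, -, hint⟩ := hOKA n f hG hc
  refine ⟨c, hc0, ?_⟩
  intro d
  induction d with
  | zero =>
      intro _
      refine ⟨L0, fun t ht => ?_⟩
      have := hL0 t ht
      rw [Nat.sub_zero]
      exact this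
  | succ d ih =>
      intro hd
      obtain ⟨L', hL'⟩ := ih (by omega)
      set k := n - d - 1 with hk
      have hdet : (cm (BT f) - (k : ℂ) • (1 : Matrix (Ix f) (Ix f) ℂ)).det ≠ 0 :=
        det_ne (BT f) (bI f) hdia htri k (fun x => by
          have := hint hn x (k : ℤ)
          exact_mod_cast this)
      have hu : IsUnit (cm (BT f) - (k : ℂ) • (1 : Matrix (Ix f) (Ix f) ℂ)).det :=
        isUnit_iff_ne_zero.mpr hdet
      refine ⟨fun t => (-(k : ℂ)) • MK f d t, fun t ht => ?_⟩
      obtain ⟨h1, h2⟩ := hL' t ht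
      have hnd : n - d = k + 1 := by omega
      have hnd' : n - (d + 1) = k := by omega
      have hMK : ∀ t, MK f (d + 1) t = (-(k : ℂ)) • ((cm (BT f) -
          (k : ℂ) • (1 : Matrix (Ix f) (Ix f) ℂ))⁻¹ *
          (t • (1 : Matrix (Ix f) (Ix f) ℂ) + cm (AT f)) * MK f d t) := fun t => rfl
      constructor
      · intro x y
        have h3 := hasDerivAt_matmul (-(k : ℂ)) ((cm (BT f) -
          (k : ℂ) • (1 : Matrix (Ix f) (Ix f) ℂ))⁻¹) (cm (AT f)) (MK f d) (L' t) t h1 x y
        have h4 : (fun t => MK f (d + 1) t x y) = fun t => ((-(k : ℂ)) • ((cm (BT f) -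
          (k : ℂ) • (1 : Matrix (Ix f) (Ix f) ℂ))⁻¹ *
          (t • (1 : Matrix (Ix f) (Ix f) ℂ) + cm (AT f)) * MK f d t)) x y := by
          funext t
          rw [hMK]
        rw [h4]
        refine h3.congr_deriv ?_
        have h5 : MK f d t + (t • (1 : Matrix (Ix f) (Ix f) ℂ) + cm (AT f)) * L' t =
            (cm (BT f) - (k : ℂ) • (1 : Matrix (Ix f) (Ix f) ℂ)) * MK f d t := by
          rw [h2, hnd]
          push_cast
          rw [add_smul, one_smul, sub_mul, add_mul, sub_mul, one_mul]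
          abel
        rw [h5, ← Matrix.mul_assoc, Matrix.nonsing_inv_mul _ hu, one_mul]
      · rw [hMK, hnd', Matrix.mul_smul, Matrix.mul_smul, ← Matrix.mul_assoc, ← Matrix.mul_assoc,
          Matrix.mul_nonsing_inv _ hu, one_mul]

end

end Pool.Agent.EVD
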