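import Pool.Agent.EVD.Stmts

set_option autoImplicit false

open scoped BigOperators Topology
open Metric Set

namespace Pool.Agent.EVD

namespace MNO_

theorem evd_diff {σ : Type} (P : MvPolynomial σ ℂ) (U : Set ℂ) (x : ℂ → σ → ℂ)
    (hx : ∀ s, DifferentiableOn ℂ (fun u => x u s) U) :
    DifferentiableOn ℂ (fun u => MvPolynomial.eval (x u) P) U := by
  induction P using MvPolynomial.induction_on with
  | C a => simp
  | add p q hp hq =>
    simp only [map_add]
    exact DifferentiableOn.fun_add hp hq
  | mul_X p s hp =>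
    simp only [map_mul, MvPolynomial.eval_X]
    exact DifferentiableOn.fun_mul hp (hx s)

/-- holomorphy of a matrix product with constants -/
theorem mul_diff {ι : Type} [Fintype ι] (U : Set ℂ) (A B : ℂ → Matrix ι ι ℂ)
    (hA : ∀ i j, DifferentiableOn ℂ (fun z => A z i j) U)
    (hB : ∀ i j, DifferentiableOn ℂ (fun z => B z i j) U) (i j : ι) :
    DifferentiableOn ℂ (fun z => (A z * B z) i j) U := by
  have : (fun z => (A z * B z) i j) = fun z => ∑ k, A z i k * B z k j := by
    funext z; rw [Matrix.mul_apply]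
  rw [this]
  exact DifferentiableOn.fun_sum fun k _ => (hA i k).mul (hB k j)

/-- `plog` on the exponential -/
theorem plog_exp (w : ℂ) (h0 : 0 < w.im) (h1 : w.im < 2 * Real.pi) :
    GPH.plog (Complex.exp w) = w := by
  unfold GPH.plog
  have h : -Complex.exp w = Complex.exp (w - Real.pi * Complex.I) := by
    rw [Complex.exp_sub, Complex.exp_pi_mul_I]; ring
  rw [h, Complex.log_exp]
  · ring
  · simp; linarith
  · simp; linarith

/-- no value of `exp w` on the cut -/
theorem exp_ne_nonneg (w : ℂ) (h0 : 0 < w.im) (h1 : w.im < 2 * Real.pi) (u : ℝ) (hu : 0 ≤ u) :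
    Complex.exp w ≠ u := by
  intro h
  have hne : u ≠ 0 := by
    intro h'; rw [h'] at h; simp at h
  have hpos : 0 < u := lt_of_le_of_ne hu (Ne.symm hne)
  have e1 := plog_exp w h0 h1
  rw [h] at e1
  unfold GPH.plog at e1
  have e2 : (-(u : ℂ)) = ((-u : ℝ) : ℂ) := by push_cast; ring
  have e3 : (Complex.log (-(u : ℂ)) + Real.pi * Complex.I).im = w.im := by rw [e1]
  rw [Complex.add_im, Complex.log_im, e2, Complex.arg_ofReal_of_neg (by linarith)] at e3
  simp at e3
  linarith

theorem matid {ι : Type} [Fintype ι] [DecidableEq ι] (P : Matrix ι ι ℂ) (hP : P * P = P) (a : ℂ) :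
    (1 : Matrix ι ι ℂ) + (-a - 1) • P = (1 + (a - 1) • P) * (1 - (2 : ℂ) • P) := by
  rw [mul_sub, mul_one, add_mul, one_mul]
  simp only [Matrix.smul_mul, Matrix.mul_smul, hP, smul_smul]
  module

end MNO_

open MNO_ in
theorem mno_proof (hG : GPH.Stmt_GeoC) : Stmt_Mno := by
  intro I _ _ ι _ _ q T b0 hgen Φ hΦ j Pk hP hloc P h hrel
  obtain ⟨hopen, hb, hstar, hne⟩ := hG q T b0 hgen.1
  choose ρ H hρ hH hdet hform using hloc
  obtain ⟨k0, hk0⟩ := Finite.exists_min ρ
  set R : ℝ := ρ k0 with hR
  have hRpos : 0 < R := hρ k0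
  have hTb : T j - b0 ≠ 0 := sub_ne_zero.mpr (hgen.1 j)
  -- the function on the half plane
  let c : ℝ := Real.log R / 2
  let U : Set ℂ := {w : ℂ | w.re < c}
  have hUopen : IsOpen U := isOpen_lt Complex.continuous_re continuous_const
  have hUconv : Convex ℝ U := convex_halfSpace_re_lt c
  have hUpre : IsPreconnected U := hUconv.isPreconnected
  have hball : ∀ w ∈ U, Complex.exp (2 * w) ∈ ball (0 : ℂ) R := by
    intro w hw
    rw [mem_ball_zero_iff, Complex.norm_exp]
    have : (2 * w).re = 2 * w.re := by simp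
    rw [this]
    have h2 : 2 * w.re < Real.log R := by
      have : w.re < Real.log R / 2 := hw
      linarith
    calc Real.exp (2 * w.re) < Real.exp (Real.log R) := Real.exp_lt_exp.mpr h2
      _ = R := Real.exp_log hRpos
  have hballk : ∀ k, ∀ w ∈ U, Complex.exp (2 * w) ∈ ball (0 : ℂ) (ρ k) := by
    intro k w hw
    exact ball_subset_ball (hk0 k) (hball w hw)
  let M : ∀ k, ℂ → Matrix (ι k) (ι k) ℂ := fun k w =>
    H k (Complex.exp (2 * w)) * (1 + (Complex.exp (-w) - 1) • Pk k)
  let Z : ℂ → ℂ := fun w => T j + Complex.exp (2 * w) * (T j - b0)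
  let G : ℂ → ℂ := fun w => MvPolynomial.eval (pt (Z w) (fun k => M k w * h k)) P
  have hGd : DifferentiableOn ℂ G U := by
    refine evd_diff P U (fun w => pt (Z w) (fun k => M k w * h k)) ?_
    rintro (_ | ⟨k, a, b⟩)
    · show DifferentiableOn ℂ Z U
      refine DifferentiableOn.add (differentiableOn_const _) (DifferentiableOn.mul ?_
        (differentiableOn_const _))
      exact (Complex.differentiable_exp.comp (differentiable_id.const_mul 2)).differentiableOn
    · show DifferentiableOn ℂ (fun w => (M k w * h k) a b) U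
      refine mul_diff U (M k) (fun _ => h k) ?_ (fun _ _ => differentiableOn_const _) a b
      intro a' b'
      refine mul_diff U (fun w => H k (Complex.exp (2 * w)))
        (fun w => 1 + (Complex.exp (-w) - 1) • Pk k) ?_ ?_ a' b'
      · intro a b
        exact (hH k a b).comp
          (Complex.differentiable_exp.comp (differentiable_id.const_mul 2)).differentiableOn
          (fun w hw => hballk k w hw)
      · intro a b
        simp only [Matrix.add_apply, Matrix.smul_apply, smul_eq_mul]
        refine DifferentiableOn.add (differentiableOn_const _) (DifferentiableOn.mul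
          (DifferentiableOn.sub ?_ (differentiableOn_const _)) (differentiableOn_const _))
        exact (Complex.differentiable_exp.comp differentiable_neg).differentiableOn
  have hkey : ∀ w ∈ U, 0 < w.im → w.im < Real.pi → Z w ∈ GPH.Cut b0 T ∧
      ∀ k, Φ k (Z w) = M k w := by
    intro w hw h0 h1
    have i0 : 0 < (2 * w).im := by simp; linarith
    have i1 : (2 * w).im < 2 * Real.pi := by simp; linarith
    have hnn : ∀ u : ℝ, 0 ≤ u → Complex.exp (2 * w) ≠ u := fun u hu =>
      exp_ne_nonneg (2 * w) i0 i1 u hu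
    refine ⟨(hform k0 _ (hballk k0 w hw) hnn).1, fun k => ?_⟩
    have := (hform k _ (hballk k w hw) hnn).2
    rw [this, plog_exp _ i0 i1]
    show _ = H k (Complex.exp (2 * w)) * (1 + (Complex.exp (-w) - 1) • Pk k)
    congr 4
    ring_nf
  have hG0 : ∀ w ∈ U, 0 < w.im → w.im < Real.pi → G w = 0 := by
    intro w hw h0 h1
    obtain ⟨hz, hk⟩ := hkey w hw h0 h1
    have := hrel (Z w) hz
    have e : (fun k => Φ k (Z w) * h k) = fun k => M k w * h k := by
      funext k; rw [hk k]
    rw [e] at this
    exact this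
  -- the identity theorem on the half plane
  have hGan : AnalyticOnNhd ℂ G U := hGd.analyticOnNhd hUopen
  let w0 : ℂ := ((c - 1 : ℝ) : ℂ) + ((Real.pi / 2 : ℝ) : ℂ) * Complex.I
  have hw0re : w0.re = c - 1 := by simp [w0]
  have hw0im : w0.im = Real.pi / 2 := by simp [w0]
  have hw0 : w0 ∈ U := by show w0.re < c; rw [hw0re]; linarith
  have hpi : 0 < Real.pi := Real.pi_pos
  have hev : G =ᶠ[𝓝 w0] 0 := by
    have hS : IsOpen {w : ℂ | w.re < c ∧ 0 < w.im ∧ w.im < Real.pi} := by
      refine (isOpen_lt Complex.continuous_re continuous_const).inter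
        ((isOpen_lt continuous_const Complex.continuous_im).inter
        (isOpen_lt Complex.continuous_im continuous_const))
    have hmem : w0 ∈ {w : ℂ | w.re < c ∧ 0 < w.im ∧ w.im < Real.pi} := by
      refine ⟨hw0, ?_, ?_⟩
      · rw [hw0im]; linarith
      · rw [hw0im]; linarith
    filter_upwards [hS.mem_nhds hmem] with w hw
    exact hG0 w hw.1 hw.2.1 hw.2.2
  have hGzero : ∀ w ∈ U, G w = 0 := by
    intro w hw
    exact hGan.eqOn_zero_of_preconnected_of_eventuallyEq_zero hUpre hw0 hev hw
  -- the relation at the other value of the root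
  have hrel2 : ∀ w ∈ U, 0 < w.im → w.im < Real.pi →
      MvPolynomial.eval (pt (Z w) (fun k => Φ k (Z w) * ((1 - (2 : ℂ) • Pk k) * h k))) P = 0 := by
    intro w hw h0 h1
    obtain ⟨hz, hk⟩ := hkey w hw h0 h1
    let w' : ℂ := w + Real.pi * Complex.I
    have hw' : w' ∈ U := by
      show (w + Real.pi * Complex.I).re < c
      have : w.re < c := hw
      simpa using this
    have e2 : Complex.exp (2 * w') = Complex.exp (2 * w) := by
      have : 2 * w' = 2 * w + 2 * Real.pi * Complex.I := by simp only [w']; ring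
      rw [this, Complex.exp_add, Complex.exp_two_pi_mul_I, mul_one]
    have e1 : Complex.exp (-w') = -Complex.exp (-w) := by
      have : -w' = -w - Real.pi * Complex.I := by simp only [w']; ring
      rw [this, Complex.exp_sub, Complex.exp_pi_mul_I]; ring
    have hZ : Z w' = Z w := by simp only [Z, e2]
    have hM : ∀ k, M k w' = M k w * (1 - (2 : ℂ) • Pk k) := by
      intro k
      simp only [M, e2, e1]
      rw [matid (Pk k) (hP k) (Complex.exp (-w)), Matrix.mul_assoc]
    have := hGzero w' hw'
    simp only [G] at this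
    rw [hZ] at this
    have e : (fun k => M k w' * h k) = fun k => Φ k (Z w) * ((1 - (2 : ℂ) • Pk k) * h k) := by
      funext k
      rw [hM k, hk k, Matrix.mul_assoc]
    rw [e] at this
    exact this
  -- the identity theorem on the cut plane
  let F : ℂ → ℂ := fun z =>
    MvPolynomial.eval (pt z (fun k => Φ k z * ((1 - (2 : ℂ) • Pk k) * h k))) P
  have hFd : DifferentiableOn ℂ F (GPH.Cut b0 T) := by
    refine evd_diff P _ (fun z => pt z (fun k => Φ k z * ((1 - (2 : ℂ) • Pk k) * h k))) ?_
    rintro (_ | ⟨k, a, b⟩)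
    · exact differentiableOn_id
    · exact mul_diff _ (Φ k) (fun _ => (1 - (2 : ℂ) • Pk k) * h k) (hΦ k)
        (fun _ _ => differentiableOn_const _) a b
  have hFan : AnalyticOnNhd ℂ F (GPH.Cut b0 T) := hFd.analyticOnNhd hopen
  have hpre : IsPreconnected (GPH.Cut b0 T) := (hstar.isPathConnected hb).isConnected.2
  have hz0 : Z w0 ∈ GPH.Cut b0 T := (hkey w0 hw0 (by rw [hw0im]; linarith)
    (by rw [hw0im]; linarith)).1
  have hev2 : F =ᶠ[𝓝 (Z w0)] 0 := by
    -- the inverse map
    let τ : ℂ → ℂ := fun z => (z - T j) / (T j - b0)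
    have hτc : Continuous τ := (continuous_id.sub continuous_const).div_const _
    have hτ0 : τ (Z w0) = Complex.exp (2 * w0) := by
      simp only [τ, Z]; field_simp; ring
    have hτ : ∀ z, T j + τ z * (T j - b0) = z := by
      intro z; simp only [τ]; field_simp; ring
    have hop : IsOpen {t : ℂ | t ∈ ball (0 : ℂ) R ∧ -t ∈ Complex.slitPlane} :=
      isOpen_ball.inter (Complex.isOpen_slitPlane.preimage continuous_neg)
    have hmem : τ (Z w0) ∈ {t : ℂ | t ∈ ball (0 : ℂ) R ∧ -t ∈ Complex.slitPlane} := by
      rw [hτ0]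
      refine ⟨hball w0 hw0, ?_⟩
      have : -Complex.exp (2 * w0) = Complex.exp (2 * w0 - Real.pi * Complex.I) := by
        rw [Complex.exp_sub, Complex.exp_pi_mul_I]; ring
      rw [this]
      have e : 2 * w0 - Real.pi * Complex.I = ((2 * (c - 1) : ℝ) : ℂ) := by
        simp only [w0]; push_cast; ring
      rw [e, ← Complex.ofReal_exp]
      exact Complex.ofReal_mem_slitPlane.mpr (Real.exp_pos _)
    filter_upwards [(hop.preimage hτc).mem_nhds hmem] with z hz
    obtain ⟨hz1, hz2⟩ := hz
    set t : ℂ := τ z with ht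
    have htne : -t ≠ 0 := Complex.slitPlane_ne_zero hz2
    let w : ℂ := (Complex.log (-t) + Real.pi * Complex.I) / 2
    have h2w : 2 * w = Complex.log (-t) + Real.pi * Complex.I := by simp only [w]; ring
    have hexp : Complex.exp (2 * w) = t := by
      rw [h2w, Complex.exp_add, Complex.exp_pi_mul_I, Complex.exp_log htne]; ring
    have hwre : (2 * w).re = Real.log ‖t‖ := by
      rw [h2w, Complex.add_re, Complex.log_re, norm_neg]; simp
    have hwim : (2 * w).im = Complex.arg (-t) + Real.pi := by
      rw [h2w, Complex.add_im, Complex.log_im]; simp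
    have hwU : w ∈ U := by
      show w.re < c
      have h1 : (2 * w).re = 2 * w.re := by simp
      have h2 : Real.log ‖t‖ < Real.log R := by
        apply Real.log_lt_log
        · exact norm_pos_iff.mpr (neg_ne_zero.mp htne)
        · exact mem_ball_zero_iff.mp hz1
      simp only [c]
      linarith
    have hi : (2 * w).im = 2 * w.im := by simp
    have ha1 := Complex.neg_pi_lt_arg (-t)
    have ha2 : Complex.arg (-t) < Real.pi :=
      lt_of_le_of_ne (Complex.arg_le_pi _) (Complex.slitPlane_arg_ne_pi hz2)
    have hr := hrel2 w hwU (by linarith) (by linarith)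
    have hZw : Z w = z := by
      simp only [Z, hexp]; exact hτ z
    rw [hZw] at hr
    exact hr
  intro z hz
  exact hFan.eqOn_zero_of_preconnected_of_eventuallyEq_zero hpre hz0 hev2 hz

end Pool.Agent.EVD
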