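import Pool.Agent.EVD.Stmts
import Pool.Agent.DG2.INDXA

set_option autoImplicit false

/-!
# EVD, module MNP: relations of bounded degree, elimination of the unknown constants
-/

open scoped BigOperators Topology
open Metric Set

namespace Pool.Agent.EVD

open Pool.Agent.DG2.INDX_ (exists_le)

namespace MNP_

/-! ### The statement IDO for an arbitrary finite index set -/

theorem sig_eval {I I' : Type} (e : I' ≃ I) {β : I → Type} (M : ∀ x, Matrix (β x) (β x) ℂ)
    (q : Σ x, β x × β x) :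
    (fun p : Σ k : I', β (e k) × β (e k) => M (e p.1) p.2.1 p.2.2)
      ((Equiv.sigmaCongrLeft (β := fun x => β x × β x) e).symm q) = M q.1 q.2.1 q.2.2 := by
  obtain ⟨p, rfl⟩ := (Equiv.sigmaCongrLeft (β := fun x => β x × β x) e).surjective q
  rw [Equiv.symm_apply_apply]
  rfl

theorem ido_fintype (hIdo : Stmt_Ido) (I : Type) [Fintype I] [DecidableEq I] (ι : I → Type)
    [∀ k, Fintype (ι k)] [∀ k, DecidableEq (ι k)] (κ : I → ℕ)
    (A B U : ∀ k, Matrix (ι k) (ι k) ℚ) (b : ∀ k, ι k → ℚ) (i₀ : ∀ k, ι k)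
    (hO : ∀ k, Oku (κ k) (A k) (B k) (U k) (b k) (i₀ k)) (hA : ∀ k, (A k).det ≠ 0)
    (hG : ∀ k, GTyp (A k) (Eo (κ k) (B k))) (E : ℕ) :
    ∃ δ : ℝ, 0 < δ ∧ ∃ n₀ : ℕ, ∀ n : ℕ, n₀ ≤ n → ∀ ρ : I → ℚ,
    (∀ k, 0 < ρ k ∧ Ht n δ (ρ k)) →
    (∀ k l, k ≠ l → ∃ z : ℂ,
      ¬((((ρ k : ℂ) * z) • (1 : Matrix (ι k) (ι k) ℂ) + cm (A k)).det ≠ 0 ↔
        (((ρ l : ℂ) * z) • (1 : Matrix (ι l) (ι l) ℂ) + cm (A l)).det ≠ 0)) →
    ∀ P : MvPolynomial (Σ k, ι k × ι k) ℚ, P.totalDegree ≤ E →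
    MvPolynomial.aeval (fun p : Σ k, ι k × ι k =>
      Yv (A p.1) (Eo (κ p.1) (B p.1)) ((ρ p.1 : ℝ) / n) p.2.1 p.2.2) P = (0 : ℂ) →
    ∀ a : ∀ k, Matrix (ι k) (ι k) ℂ, (∀ k, Iso (cm (U k * A k)) (a k) ∧ (a k).det = 1) →
    MvPolynomial.aeval (fun p : Σ k, ι k × ι k =>
      (Yv (A p.1) (Eo (κ p.1) (B p.1)) ((ρ p.1 : ℝ) / n) * a p.1) p.2.1 p.2.2) P = (0 : ℂ) := by
  let e : Fin (Fintype.card I) ≃ I := (Fintype.equivFin I).symm
  obtain ⟨δ, hδ, n₀, h⟩ := hIdo (Fintype.card I) (fun k => ι (e k)) (fun k => κ (e k))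
    (fun k => A (e k)) (fun k => B (e k)) (fun k => U (e k)) (fun k => b (e k))
    (fun k => i₀ (e k)) (fun k => hO (e k)) (fun k => hA (e k)) (fun k => hG (e k)) E
  refine ⟨δ, hδ, n₀, ?_⟩
  intro n hn ρ hρ hsep P hP hval a ha
  have h1 := h n hn (fun k => ρ (e k)) (fun k => hρ (e k))
    (fun k l hkl => hsep (e k) (e l) (fun h => hkl (e.injective h)))
    (MvPolynomial.rename (Equiv.sigmaCongrLeft (β := fun x => ι x × ι x) e).symm P)
    (le_trans (MvPolynomial.totalDegree_rename_le _ _) hP)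
    (by
      rw [MvPolynomial.aeval_rename]
      rw [← hval]
      congr 1
      congr 1
      funext q
      exact sig_eval e (fun x => Yv (A x) (Eo (κ x) (B x)) ((ρ x : ℝ) / n)) q)
    (fun k => a (e k)) (fun k => ha (e k))
  rw [MvPolynomial.aeval_rename] at h1
  rw [← h1]
  congr 1
  congr 1
  funext q
  exact (sig_eval e (fun x => Yv (A x) (Eo (κ x) (B x)) ((ρ x : ℝ) / n) * a x) q).symm

/-! ### Expansion in the constants -/

section

variable {r : ℕ} {β : Fin r → Type} [∀ i, Fintype (β i)] [∀ i, DecidableEq (β i)]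

/-- The coefficient at the constant `J` of the variable `v`. -/
noncomputable def ell (v J : Option (Option (Σ i, β i × β i))) :
    MvPolynomial (Σ i, β i × β i) ℚ :=
  match v with
  | none => if J = none then 1 else 0
  | some none => if J = some none then 1 else 0
  | some (some q) => ∑ l, if J = some (some ⟨q.1, (l, q.2.2)⟩) then
      MvPolynomial.X ⟨q.1, (q.2.1, l)⟩ else 0

theorem ell_deg (v J : Option (Option (Σ i, β i × β i))) : (ell v J).totalDegree ≤ 1 := by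
  rcases v with _ | _ | q
  · unfold ell
    split_ifs <;> simp
  · unfold ell
    split_ifs <;> simp
  · unfold ell
    refine le_trans (MvPolynomial.totalDegree_finsetSum _ _) ?_
    apply Finset.sup_le
    intro l _
    split_ifs
    · exact le_of_eq (MvPolynomial.totalDegree_X _)
    · simp

theorem ell_eval (lam : ℂ) (Z θ : ∀ i, Matrix (β i) (β i) ℂ)
    (v : Option (Option (Σ i, β i × β i))) :
    ∑ J, (J.elim 1 (pt lam θ) : ℂ) *
      MvPolynomial.aeval (fun p : Σ i, β i × β i => Z p.1 p.2.1 p.2.2) (ell v J) =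
    v.elim 1 (pt lam (fun i => Z i * θ i)) := by
  rcases v with _ | _ | q
  · have h : ∀ J : Option (Option (Σ i, β i × β i)), (J.elim 1 (pt lam θ) : ℂ) *
        MvPolynomial.aeval (fun p : Σ i, β i × β i => Z p.1 p.2.1 p.2.2) (ell none J) =
        if J = none then 1 else 0 := by
      intro J
      unfold ell
      by_cases hJ : J = none
      · subst hJ; simp
      · simp [hJ]
    rw [Finset.sum_congr rfl (fun J _ => h J)]
    simp
  · have h : ∀ J : Option (Option (Σ i, β i × β i)), (J.elim 1 (pt lam θ) : ℂ) *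
        MvPolynomial.aeval (fun p : Σ i, β i × β i => Z p.1 p.2.1 p.2.2) (ell (some none) J) =
        if J = some none then lam else 0 := by
      intro J
      unfold ell
      by_cases hJ : J = some none
      · subst hJ; simp [pt]
      · simp [hJ]
    rw [Finset.sum_congr rfl (fun J _ => h J)]
    simp [pt]
  · have h : ∀ J : Option (Option (Σ i, β i × β i)), (J.elim 1 (pt lam θ) : ℂ) *
        MvPolynomial.aeval (fun p : Σ i, β i × β i => Z p.1 p.2.1 p.2.2)
          (ell (some (some q)) J) =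
        ∑ l, if J = some (some ⟨q.1, (l, q.2.2)⟩) then
          Z q.1 q.2.1 l * θ q.1 l q.2.2 else 0 := by
      intro J
      unfold ell
      rw [map_sum, Finset.mul_sum]
      apply Finset.sum_congr rfl
      intro l _
      split_ifs with hJ
      · subst hJ
        simp [pt, mul_comm]
      · simp
    rw [Finset.sum_congr rfl (fun J _ => h J), Finset.sum_comm]
    simp [pt, Matrix.mul_apply]

theorem expand (hWord : DGP.Stmt_Word) (D : ℕ)
    (P : MvPolynomial (Option (Σ i, β i × β i)) ℚ) (hP : P.totalDegree ≤ D) :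
    ∃ L : (Fin D → Option (Option (Σ i, β i × β i))) → MvPolynomial (Σ i, β i × β i) ℚ,
    (∀ J, (L J).totalDegree ≤ D) ∧ ∀ (lam : ℂ) (Z θ : ∀ i, Matrix (β i) (β i) ℂ),
    MvPolynomial.aeval (pt lam (fun i => Z i * θ i)) P = ∑ J,
      (∏ e, ((J e).elim 1 (pt lam θ) : ℂ)) *
        MvPolynomial.aeval (fun p : Σ i, β i × β i => Z p.1 p.2.1 p.2.2) (L J) := by
  obtain ⟨a, ha⟩ := hWord (Option (Σ i, β i × β i)) D P hP
  refine ⟨fun J => ∑ w, MvPolynomial.C (a w) * ∏ e, ell (w e) (J e), ?_, ?_⟩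
  · intro J
    refine le_trans (MvPolynomial.totalDegree_finsetSum _ _) ?_
    apply Finset.sup_le
    intro w _
    refine le_trans (MvPolynomial.totalDegree_mul _ _) ?_
    rw [MvPolynomial.totalDegree_C, zero_add]
    refine le_trans (MvPolynomial.totalDegree_finsetProd _ _) ?_
    refine le_trans (Finset.sum_le_sum (fun e _ => ell_deg (w e) (J e))) ?_
    simp
  · intro lam Z θ
    have h1 : MvPolynomial.aeval (pt lam (fun i => Z i * θ i)) P
        = ∑ w, (a w : ℂ) * ∏ e, ((w e).elim 1 (pt lam (fun i => Z i * θ i)) : ℂ) := by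
      conv_lhs => rw [ha]
      rw [map_sum]
      apply Finset.sum_congr rfl
      intro w _
      rw [map_mul, map_prod, MvPolynomial.aeval_C]
      congr 1
      apply Finset.prod_congr rfl
      intro e' _
      cases w e' <;> simp
    rw [h1]
    have h2 : ∀ w : Fin D → Option (Option (Σ i, β i × β i)),
        ∏ e, ((w e).elim 1 (pt lam (fun i => Z i * θ i)) : ℂ) =
        ∑ J : Fin D → Option (Option (Σ i, β i × β i)), ∏ e, (((J e).elim 1 (pt lam θ) : ℂ) *
          MvPolynomial.aeval (fun p : Σ i, β i × β i => Z p.1 p.2.1 p.2.2)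
            (ell (w e) (J e))) := by
      intro w
      have h3 := Finset.prod_univ_sum
        (fun _ : Fin D => (Finset.univ : Finset (Option (Option (Σ i, β i × β i)))))
        (fun e v => ((v.elim 1 (pt lam θ) : ℂ) *
          MvPolynomial.aeval (fun p : Σ i, β i × β i => Z p.1 p.2.1 p.2.2) (ell (w e) v)))
      rw [Fintype.piFinset_univ] at h3
      rw [← h3]
      apply Finset.prod_congr rfl
      intro e _
      exact (ell_eval lam Z θ (w e)).symm
    rw [Finset.sum_congr rfl (fun w _ => by rw [h2 w])]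
    simp only [Finset.mul_sum]
    rw [Finset.sum_comm]
    apply Finset.sum_congr rfl
    intro J _
    rw [map_sum, Finset.mul_sum]
    apply Finset.sum_congr rfl
    intro w _
    rw [map_mul, map_prod, MvPolynomial.aeval_C, Finset.prod_mul_distrib]
    simp only [eq_ratCast]
    ring

end

/-! ### Determinants -/

theorem det_deg {m D : ℕ} {σ : Type} (M : Matrix (Fin m) (Fin m) (MvPolynomial σ ℚ))
    (h : ∀ s t, (M s t).totalDegree ≤ D) : M.det.totalDegree ≤ m * D := by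
  rw [Matrix.det_apply]
  refine le_trans (MvPolynomial.totalDegree_finsetSum _ _) ?_
  apply Finset.sup_le
  intro σ _
  have h1 : (∏ i, M (σ i) i).totalDegree ≤ m * D := by
    refine le_trans (MvPolynomial.totalDegree_finsetProd _ _) ?_
    refine le_trans (Finset.sum_le_sum (fun i _ => h (σ i) i)) ?_
    simp
  rcases Int.units_eq_one_or (Equiv.Perm.sign σ) with h2 | h2
  · rw [h2, one_smul]
    exact h1
  · rw [h2]
    have h3 : ((-1 : ℤˣ) • ∏ i, M (σ i) i) = -(∏ i, M (σ i) i) := by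
      simp
    rw [h3, MvPolynomial.totalDegree_neg]
    exact h1

/-- The elimination step. -/
theorem elim_step {m : ℕ} {J : Type} [Fintype J] (e : J → ℂ) (R : Fin (m + 1) → J → ℂ)
    (c : Fin m → J) (h0 : ∀ s : Fin m, ∑ j, e j * R s.succ j = 0)
    (h1 : (Matrix.of fun s t => R s.succ (c t)).det ≠ 0)
    (h2 : ∀ j, (Matrix.of fun s t => R s ((Fin.cons j c : Fin (m + 1) → J) t)).det = 0) :
    ∑ j, e j * R 0 j = 0 := by
  set Ds : Fin (m + 1) → ℂ := fun s => (Matrix.of fun (s' : Fin m) t => R (s.succAbove s') (c t)).det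
    with hDs
  have h3 : ∀ j, ∑ s : Fin (m + 1), (-1) ^ (s : ℕ) * R s j * Ds s = 0 := by
    intro j
    rw [← h2 j, Matrix.det_succ_column_zero]
    apply Finset.sum_congr rfl
    intro s _
    rfl
  have h4 : ∑ j, e j * ∑ s : Fin (m + 1), (-1) ^ (s : ℕ) * R s j * Ds s = 0 := by
    apply Finset.sum_eq_zero
    intro j _
    rw [h3 j, mul_zero]
  have h5 : ∑ j, e j * ∑ s : Fin (m + 1), (-1) ^ (s : ℕ) * R s j * Ds s
      = ∑ s : Fin (m + 1), (-1) ^ (s : ℕ) * Ds s * ∑ j, e j * R s j := by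
    simp only [Finset.mul_sum]
    rw [Finset.sum_comm]
    apply Finset.sum_congr rfl
    intro s _
    apply Finset.sum_congr rfl
    intro j _
    ring
  rw [h5, Fin.sum_univ_succ] at h4
  have h6 : ∑ s : Fin m, (-1 : ℂ) ^ ((s.succ : Fin (m + 1)) : ℕ) * Ds s.succ *
      ∑ j, e j * R s.succ j = 0 := by
    apply Finset.sum_eq_zero
    intro s _
    rw [h0 s, mul_zero]
  rw [h6, add_zero] at h4
  have h7 : Ds 0 ≠ 0 := by
    rw [hDs]
    simpa [Fin.zero_succAbove] using h1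
  simpa [h7] using h4

end MNP_

open MNP_ in
theorem mnp_proof (hIdo : Stmt_Ido) (hWord : DGP.Stmt_Word) : Stmt_Mnp := by
  classical
  intro nF ι _ _ κ A B U b i₀ hO hA hG hsep θ r φ D
  -- the index set of the constants
  set M : ℕ := Fintype.card (Fin D → Option (Option (Σ i : Fin r, ι (φ i) × ι (φ i)))) with hM
  choose δs hδs ns hns using fun m : ℕ => ido_fintype hIdo (Fin (m + 1) × Fin r)
    (fun x => ι (φ x.2)) (fun x => κ (φ x.2)) (fun x => A (φ x.2)) (fun x => B (φ x.2))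
    (fun x => U (φ x.2)) (fun x => b (φ x.2)) (fun x => i₀ (φ x.2)) (fun x => hO (φ x.2))
    (fun x => hA (φ x.2)) (fun x => hG (φ x.2)) ((m + 1) * D)
  obtain ⟨δ, hδ, hδle⟩ := exists_le (fun m : Fin (M + 1) => δs m) (fun m : Fin (M + 1) => δs m)
    (fun m => hδs m) (fun m => hδs m)
  refine ⟨δ, hδ, M * r, max 1 (∑ m ∈ Finset.range (M + 1), ns m), ?_⟩
  intro n hn
  have hn1 : 1 ≤ n := le_trans (le_max_left _ _) hn
  have hn1R : (1 : ℝ) ≤ n := by exact_mod_cast hn1
  have hn2 : ∀ m ≤ M, ns m ≤ n := by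
    intro m hm
    refine le_trans ?_ (le_trans (le_max_right _ _) hn)
    exact Finset.single_le_sum (f := fun m => ns m) (fun _ _ => Nat.zero_le _)
      (Finset.mem_range.mpr (by omega))
  -- the constants and the values
  set ec : (Fin D → Option (Option (Σ i : Fin r, ι (φ i) × ι (φ i)))) → ℂ := fun J =>
    ∏ e, ((J e).elim 1 (pt (2 * Real.pi * Complex.I) (fun i => θ (φ i))) : ℂ) with hec
  let vl : (Fin r → ℚ) → (Σ i : Fin r, ι (φ i) × ι (φ i)) → ℂ := fun ρ p =>
    Yv (A (φ p.1)) (Eo (κ (φ p.1)) (B (φ p.1))) ((ρ p.1 : ℝ) / n) p.2.1 p.2.2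
  let Good : (Fin r → ℚ) → Prop := fun ρ => (∀ i j, i ≠ j → φ i = φ j → ρ i ≠ ρ j) ∧
    ∀ i, 0 < ρ i ∧ Ht n δ (ρ i)
  let Fam : ℕ → Prop := fun m => ∃ (ρ : Fin m → Fin r → ℚ)
    (L : Fin m → (Fin D → Option (Option (Σ i : Fin r, ι (φ i) × ι (φ i)))) →
      MvPolynomial (Σ i : Fin r, ι (φ i) × ι (φ i)) ℚ)
    (c : Fin m → (Fin D → Option (Option (Σ i : Fin r, ι (φ i) × ι (φ i))))),
    (∀ s, Good (ρ s)) ∧ (∀ s s', s ≠ s' → ∀ i i', ρ s i ≠ ρ s' i') ∧
    (∀ s J, (L s J).totalDegree ≤ D) ∧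
    (∀ s, ∑ J, ec J * MvPolynomial.aeval (vl (ρ s)) (L s J) = 0) ∧
    (Matrix.of fun s t => MvPolynomial.aeval (vl (ρ s)) (L s (c t)) :
      Matrix (Fin m) (Fin m) ℂ).det ≠ 0
  have hFam0 : Fam 0 := ⟨fun s => s.elim0, fun s => s.elim0, fun s => s.elim0, fun s => s.elim0,
    fun s => s.elim0, fun s => s.elim0, fun s => s.elim0, by simp⟩
  have hFamM : ∀ m, Fam m → m ≤ M := by
    rintro m ⟨ρ, L, c, -, -, -, -, hdet⟩
    have hinj : Function.Injective c := by
      intro t t' htt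
      by_contra hne
      apply hdet
      apply Matrix.det_zero_of_column_eq hne
      intro s
      simp [htt]
    have := Fintype.card_le_of_injective c hinj
    rw [Fintype.card_fin] at this
    exact this
  obtain ⟨m, hm, hmax⟩ : ∃ m, Fam m ∧ ¬ Fam (m + 1) := by
    by_contra hcon
    push Not at hcon
    have hall : ∀ m, Fam m := by
      intro m
      induction m with
      | zero => exact hFam0
      | succ m ih => exact hcon m ih
    have := hFamM (M + 1) (hall (M + 1))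
    omega
  have hmM : m ≤ M := hFamM m hm
  obtain ⟨ρs, Ls, cs, hGood, hdisj, hLdeg, hLrel, hdet⟩ := hm
  refine ⟨Finset.univ.biUnion (fun s : Fin m => Finset.univ.image (ρs s)), ?_, ?_⟩
  · refine le_trans Finset.card_biUnion_le ?_
    refine le_trans (Finset.sum_le_sum (fun s _ => Finset.card_image_le)) ?_
    simp only [Finset.card_univ, Fintype.card_fin, Finset.sum_const, smul_eq_mul]
    exact Nat.mul_le_mul_right r hmM
  intro ρ hρd hρ P hPdeg hPval a ha
  obtain ⟨L, hL1, hL2⟩ := expand hWord D P hPdeg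
  have hρS : ∀ i s i', ρ i ≠ ρs s i' := by
    intro i s i' h
    apply (hρ i).2.1
    rw [Finset.mem_biUnion]
    exact ⟨s, Finset.mem_univ _, Finset.mem_image.mpr ⟨i', Finset.mem_univ _, h.symm⟩⟩
  -- the enlarged family
  let ρ' : Fin (m + 1) → Fin r → ℚ := Fin.cons ρ ρs
  let L' : Fin (m + 1) → (Fin D → Option (Option (Σ i : Fin r, ι (φ i) × ι (φ i)))) →
      MvPolynomial (Σ i : Fin r, ι (φ i) × ι (φ i)) ℚ := Fin.cons L Ls
  have hGood' : ∀ s, Good (ρ' s) := by
    intro s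
    refine Fin.cases ?_ (fun s => ?_) s
    · exact ⟨hρd, fun i => ⟨(hρ i).1, (hρ i).2.2⟩⟩
    · exact hGood s
  have hdisj' : ∀ s s', s ≠ s' → ∀ i i', ρ' s i ≠ ρ' s' i' := by
    intro s s'
    refine Fin.cases ?_ (fun s => ?_) s
    · refine Fin.cases ?_ (fun s' => ?_) s'
      · intro h; exact absurd rfl h
      · intro _ i i'
        exact hρS i s' i'
    · refine Fin.cases ?_ (fun s' => ?_) s'
      · intro _ i i' h
        exact hρS i' s i h.symm
      · intro h i i'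
        exact hdisj s s' (fun h' => h (by rw [h'])) i i'
  have hLdeg' : ∀ s J, (L' s J).totalDegree ≤ D := by
    intro s
    refine Fin.cases ?_ (fun s => ?_) s
    · exact hL1
    · exact hLdeg s
  have hrel0 : ∑ J, ec J * MvPolynomial.aeval (vl ρ) (L J) = 0 := by
    have h1 := hL2 (2 * Real.pi * Complex.I)
      (fun i => Yv (A (φ i)) (Eo (κ (φ i)) (B (φ i))) ((ρ i : ℝ) / n)) (fun i => θ (φ i))
    rw [hPval] at h1
    exact h1.symm
  have hLrel' : ∀ s, ∑ J, ec J * MvPolynomial.aeval (vl (ρ' s)) (L' s J) = 0 := by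
    intro s
    refine Fin.cases ?_ (fun s => ?_) s
    · exact hrel0
    · exact hLrel s
  have hzero : ∀ J, (Matrix.of fun s t => MvPolynomial.aeval (vl (ρ' s))
      (L' s ((Fin.cons J cs : Fin (m + 1) → _) t)) :
      Matrix (Fin (m + 1)) (Fin (m + 1)) ℂ).det = 0 := by
    intro J
    by_contra hne
    exact hmax ⟨ρ', L', Fin.cons J cs, hGood', hdisj', hLdeg', hLrel', hne⟩
  -- the polynomials
  let QJ : (Fin D → Option (Option (Σ i : Fin r, ι (φ i) × ι (φ i)))) →
      MvPolynomial (Σ x : Fin (m + 1) × Fin r, ι (φ x.2) × ι (φ x.2)) ℚ := fun J =>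
    (Matrix.of fun s t => MvPolynomial.rename
      (fun p : Σ i : Fin r, ι (φ i) × ι (φ i) =>
        (⟨(s, p.1), p.2⟩ : Σ x : Fin (m + 1) × Fin r, ι (φ x.2) × ι (φ x.2)))
      (L' s ((Fin.cons J cs : Fin (m + 1) → _) t)) :
      Matrix (Fin (m + 1)) (Fin (m + 1)) (MvPolynomial _ ℚ)).det
  have hQdeg : ∀ J, (QJ J).totalDegree ≤ (m + 1) * D := by
    intro J
    apply det_deg
    intro s t
    exact le_trans (MvPolynomial.totalDegree_rename_le _ _) (hLdeg' _ _)
  have hQev : ∀ (y : (Σ x : Fin (m + 1) × Fin r, ι (φ x.2) × ι (φ x.2)) → ℂ) J,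
      MvPolynomial.aeval y (QJ J) = (Matrix.of fun s t => MvPolynomial.aeval
        (fun p : Σ i : Fin r, ι (φ i) × ι (φ i) => y ⟨(s, p.1), p.2⟩)
        (L' s ((Fin.cons J cs : Fin (m + 1) → _) t)) :
        Matrix (Fin (m + 1)) (Fin (m + 1)) ℂ).det := by
    intro y J
    simp only [QJ]
    rw [AlgHom.map_det]
    congr 1
    ext s t
    simp only [AlgHom.mapMatrix_apply, Matrix.map_apply, Matrix.of_apply]
    rw [MvPolynomial.aeval_rename]
    rfl
  -- the separation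
  have hsep' : ∀ x y : Fin (m + 1) × Fin r, x ≠ y → ∃ z : ℂ,
      ¬((((ρ' x.1 x.2 : ℂ) * z) • (1 : Matrix (ι (φ x.2)) (ι (φ x.2)) ℂ) +
          cm (A (φ x.2))).det ≠ 0 ↔
        (((ρ' y.1 y.2 : ℂ) * z) • (1 : Matrix (ι (φ y.2)) (ι (φ y.2)) ℂ) +
          cm (A (φ y.2))).det ≠ 0) := by
    intro x y hxy
    have hx0 := ((hGood' x.1).2 x.2).1
    have hy0 := ((hGood' y.1).2 y.2).1
    obtain ⟨z, hz⟩ := hsep (φ x.2) (φ y.2) (ρ' y.1 y.2 / ρ' x.1 x.2) (div_pos hy0 hx0) (by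
      by_contra hcon
      push Not at hcon
      obtain ⟨h1, h2⟩ := hcon
      have h3 : ρ' y.1 y.2 = ρ' x.1 x.2 := by
        rw [div_eq_iff hx0.ne', one_mul] at h2
        exact h2
      by_cases hs : x.1 = y.1
      · have h4 : x.2 ≠ y.2 := by
          intro h5
          exact hxy (Prod.ext hs h5)
        apply (hGood' x.1).1 x.2 y.2 h4 h1
        rw [← h3, hs]
      · exact hdisj' x.1 y.1 hs x.2 y.2 h3.symm)
    have hxC : ((ρ' x.1 x.2 : ℚ) : ℂ) ≠ 0 := by exact_mod_cast hx0.ne'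
    refine ⟨z / (ρ' x.1 x.2 : ℂ), ?_⟩
    have h4 : (ρ' x.1 x.2 : ℂ) * (z / (ρ' x.1 x.2 : ℂ)) = z := by
      field_simp
    have h5 : (ρ' y.1 y.2 : ℂ) * (z / (ρ' x.1 x.2 : ℂ))
        = ((ρ' y.1 y.2 / ρ' x.1 x.2 : ℚ) : ℂ) * z := by
      push_cast
      field_simp
    rw [h4, h5]
    exact hz
  have hht : ∀ x : Fin (m + 1) × Fin r, 0 < ρ' x.1 x.2 ∧ Ht n (δs m) (ρ' x.1 x.2) := by
    intro x
    obtain ⟨h1, h2, h3⟩ := (hGood' x.1).2 x.2
    have h4 : (n : ℝ) ^ δ ≤ (n : ℝ) ^ (δs m) :=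
      Real.rpow_le_rpow_of_exponent_le hn1R (hδle ⟨m, by omega⟩).1
    exact ⟨h1, le_trans h2 h4, le_trans h3 h4⟩
  -- the isometries
  let a' : ∀ x : Fin (m + 1) × Fin r, Matrix (ι (φ x.2)) (ι (φ x.2)) ℂ := fun x =>
    Fin.cases (motive := fun _ => Matrix (ι (φ x.2)) (ι (φ x.2)) ℂ) (a x.2) (fun _ => 1) x.1
  have ha' : ∀ x, Iso (cm (U (φ x.2) * A (φ x.2))) (a' x) ∧ (a' x).det = 1 := by
    rintro ⟨s, i⟩
    refine Fin.cases ?_ (fun s => ?_) s
    · exact ha i
    · refine ⟨?_, Matrix.det_one⟩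
      show Matrix.transpose 1 * cm (U (φ i) * A (φ i)) * 1 = cm (U (φ i) * A (φ i))
      rw [Matrix.transpose_one, Matrix.one_mul, Matrix.mul_one]
  have hfin : ∀ J, (Matrix.of fun s t => MvPolynomial.aeval
      (fun p : Σ i : Fin r, ι (φ i) × ι (φ i) =>
        (Yv (A (φ p.1)) (Eo (κ (φ p.1)) (B (φ p.1))) ((ρ' s p.1 : ℝ) / n) *
          a' (s, p.1)) p.2.1 p.2.2)
      (L' s ((Fin.cons J cs : Fin (m + 1) → _) t)) :
      Matrix (Fin (m + 1)) (Fin (m + 1)) ℂ).det = 0 := by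
    intro J
    have h1 := hns m n (hn2 m hmM) (fun x => ρ' x.1 x.2) hht hsep' (QJ J) (hQdeg J)
      (by
        rw [hQev]
        exact hzero J) a' ha'
    rw [hQev] at h1
    exact h1
  -- elimination
  have hstep := elim_step ec (fun s J => MvPolynomial.aeval
      (fun p : Σ i : Fin r, ι (φ i) × ι (φ i) =>
        (Yv (A (φ p.1)) (Eo (κ (φ p.1)) (B (φ p.1))) ((ρ' s p.1 : ℝ) / n) *
          a' (s, p.1)) p.2.1 p.2.2) (L' s J)) cs
    (by
      intro s
      have h1 : (fun p : Σ i : Fin r, ι (φ i) × ι (φ i) =>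
        (Yv (A (φ p.1)) (Eo (κ (φ p.1)) (B (φ p.1))) ((ρ' s.succ p.1 : ℝ) / n) *
          a' (s.succ, p.1)) p.2.1 p.2.2) = vl (ρs s) := by
        funext p
        show (Yv (A (φ p.1)) (Eo (κ (φ p.1)) (B (φ p.1))) ((ρs s p.1 : ℝ) / n) *
          (1 : Matrix (ι (φ p.1)) (ι (φ p.1)) ℂ)) p.2.1 p.2.2 = _
        rw [Matrix.mul_one]
      rw [h1]
      exact hLrel s)
    (by
      have h1 : ∀ s : Fin m, (fun p : Σ i : Fin r, ι (φ i) × ι (φ i) =>
        (Yv (A (φ p.1)) (Eo (κ (φ p.1)) (B (φ p.1))) ((ρ' s.succ p.1 : ℝ) / n) *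
          a' (s.succ, p.1)) p.2.1 p.2.2) = vl (ρs s) := by
        intro s
        funext p
        show (Yv (A (φ p.1)) (Eo (κ (φ p.1)) (B (φ p.1))) ((ρs s p.1 : ℝ) / n) *
          (1 : Matrix (ι (φ p.1)) (ι (φ p.1)) ℂ)) p.2.1 p.2.2 = _
        rw [Matrix.mul_one]
      simp only [h1]
      exact hdet)
    hfin
  have h9 := hL2 (2 * Real.pi * Complex.I)
    (fun i => Yv (A (φ i)) (Eo (κ (φ i)) (B (φ i))) ((ρ i : ℝ) / n) * a i) (fun i => θ (φ i))
  rw [h9]
  exact hstep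

end Pool.Agent.EVD
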