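import Pool.Agent.EVD.Stmts

set_option autoImplicit false

/-!
# EVD, module NDG: the intersection matrix is symmetric and not degenerate
-/

open scoped BigOperators Topology
open Metric Set MeasureTheory

namespace Pool.Agent.EVD

noncomputable section

namespace NDG_

theorem prim (p : ℕ) (hp : p ≠ 0) : IsPrimitiveRoot (zt p) p := by
  have := Complex.isPrimitiveRoot_exp p hp
  exact this

/-- The product of the roots of unity is not one. -/
theorem Zne {n : ℕ} (p : Fin n → ℕ) (hn : 0 < n) (hp : ∀ j, 2 ≤ p j)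
    (hc : ∀ j l, j ≠ l → Nat.Coprime (p j) (p l)) (x : ∀ j, Fin (p j - 1)) :
    ∏ j, zt (p j) ^ ((x j : ℕ) + 1) ≠ 1 := by
  intro h
  set j0 : Fin n := ⟨0, hn⟩
  set M := ∏ l ∈ Finset.univ.erase j0, p l with hM
  have h1 : (∏ j, zt (p j) ^ ((x j : ℕ) + 1)) ^ M = (zt (p j0) ^ ((x j0 : ℕ) + 1)) ^ M := by
    rw [← Finset.prod_pow, ← Finset.mul_prod_erase Finset.univ _ (Finset.mem_univ j0)]
    rw [Finset.prod_eq_one, mul_one]
    intro l hl
    obtain ⟨c, hc⟩ : p l ∣ M := Finset.dvd_prod_of_mem _ hl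
    have hpl : p l ≠ 0 := by have := hp l; omega
    rw [hc, ← pow_mul, show ((x l : ℕ) + 1) * (p l * c) = p l * (((x l : ℕ) + 1) * c) by ring,
      pow_mul, (prim (p l) hpl).pow_eq_one, one_pow]
  rw [h, one_pow] at h1
  have hp0 : p j0 ≠ 0 := by have := hp j0; omega
  have h2 : zt (p j0) ^ (((x j0 : ℕ) + 1) * M) = 1 := by rw [pow_mul]; exact h1.symm
  have h3 := ((prim (p j0) hp0).pow_eq_one_iff_dvd _).1 h2
  have h4 : Nat.Coprime (p j0) M := by
    rw [hM]
    apply Nat.Coprime.prod_right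
    intro l hl
    exact hc _ _ (Finset.ne_of_mem_erase hl).symm
  have h5 := (h4.dvd_mul_right).1 h3
  have h6 := Nat.le_of_dvd (Nat.succ_pos _) h5
  have h7 := (x j0).2
  omega

/-- The exponents are not integers. -/
theorem bne {n : ℕ} (f : Fin n → Polynomial ℚ) (hn : 0 < n) (hp : ∀ j, 2 ≤ (f j).natDegree)
    (hc : ∀ j l, j ≠ l → Nat.Coprime (f j).natDegree (f l).natDegree) (x : Ix f) (z : ℤ) :
    (bI f x : ℝ) ≠ z := by
  intro h
  apply Zne (fun j => (f j).natDegree) hn hp hc x
  have h1 : ∏ j, zt (f j).natDegree ^ ((x j : ℕ) + 1) =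
      Complex.exp (((bI f x : ℝ) : ℂ) * (2 * Real.pi * Complex.I)) := by
    have h2 : ∀ j, zt (f j).natDegree ^ ((x j : ℕ) + 1) =
        Complex.exp ((((x j : ℕ) : ℂ) + 1) / (f j).natDegree * (2 * Real.pi * Complex.I)) := by
      intro j
      rw [zt, ← Complex.exp_nat_mul]
      congr 1
      push_cast
      ring
    rw [Finset.prod_congr rfl fun j _ => h2 j, ← Complex.exp_sum]
    congr 1
    rw [bI]
    push_cast
    rw [Finset.sum_mul]
  rw [h1, h]
  have := Complex.exp_int_mul_two_pi_mul_I z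
  push_cast
  exact this

/-- Products of Kronecker products. -/
theorem kmul {n : ℕ} {α : Fin n → Type} [∀ j, Fintype (α j)] [∀ j, DecidableEq (α j)]
    (X Y : ∀ j, Matrix (α j) (α j) ℂ) : kprod X * kprod Y = kprod fun j => X j * Y j := by
  ext x y
  rw [Matrix.mul_apply]
  simp only [kprod, Matrix.of_apply, Matrix.mul_apply]
  rw [Finset.prod_univ_sum, Fintype.piFinset_univ]
  exact Finset.sum_congr rfl fun z _ => by rw [Finset.prod_mul_distrib]

theorem kone {n : ℕ} {α : Fin n → Type} [∀ j, DecidableEq (α j)] :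
    kprod (fun j => (1 : Matrix (α j) (α j) ℂ)) = 1 := by
  ext x y
  simp only [kprod, Matrix.of_apply]
  by_cases h : x = y
  · subst h
    simp
  · rw [Matrix.one_apply_ne h]
    obtain ⟨j, hj⟩ := Function.ne_iff.1 h
    exact Finset.prod_eq_zero (Finset.mem_univ j) (Matrix.one_apply_ne hj)

theorem kdet {n : ℕ} {α : Fin n → Type} [∀ j, Fintype (α j)] [∀ j, DecidableEq (α j)]
    (X : ∀ j, Matrix (α j) (α j) ℂ) (h : ∀ j, (X j).det ≠ 0) : (kprod X).det ≠ 0 := by
  have h1 : kprod X * kprod (fun j => (X j)⁻¹) = 1 := by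
    rw [kmul, ← kone]
    congr 1
    funext j
    exact Matrix.mul_nonsing_inv _ (isUnit_iff_ne_zero.2 (h j))
  have h2 := congrArg Matrix.det h1
  rw [Matrix.det_mul, Matrix.det_one] at h2
  exact left_ne_zero_of_mul_eq_one h2

/-- The one variable matrices are invertible. -/
theorem vdm (p : ℕ) (z : ℂ) (hz : IsPrimitiveRoot z p) :
    (Matrix.of fun (x a : Fin (p - 1)) =>
      z ^ (((a : ℕ) + 1) * ((x : ℕ) + 1)) - z ^ ((a : ℕ) * ((x : ℕ) + 1))).det ≠ 0 := by
  have h1 : (Matrix.of fun (x a : Fin (p - 1)) =>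
      z ^ (((a : ℕ) + 1) * ((x : ℕ) + 1)) - z ^ ((a : ℕ) * ((x : ℕ) + 1))) =
      Matrix.diagonal (fun x : Fin (p - 1) => z ^ ((x : ℕ) + 1) - 1) *
      Matrix.vandermonde (fun x : Fin (p - 1) => z ^ ((x : ℕ) + 1)) := by
    ext x a
    rw [Matrix.diagonal_mul, Matrix.vandermonde_apply, Matrix.of_apply]
    ring
  rw [h1, Matrix.det_mul, Matrix.det_diagonal]
  apply mul_ne_zero
  · rw [Finset.prod_ne_zero_iff]
    intro x _ h
    rw [sub_eq_zero, hz.pow_eq_one_iff_dvd] at h
    have h6 := Nat.le_of_dvd (Nat.succ_pos _) h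
    have h7 := x.2
    omega
  · rw [Matrix.det_vandermonde_ne_zero_iff]
    intro x y h
    simp only at h
    have h7 := x.2
    have h8 := y.2
    have h9 := hz.pow_inj (by omega) (by omega) h
    exact Fin.ext (by omega)

end NDG_

theorem ndg_proof (hT : Stmt_Trg) : Stmt_Ndg := by
  intro k f hk hp hc
  have hp0 : ∀ j, (f j).natDegree ≠ 0 := fun j => by have := hp j; omega
  set c : ℂ := (2 * Real.pi * Complex.I) ^ (2 * k + 2) * ((-1) ^ k / (k.factorial : ℂ) ^ 2) with hcd
  have hc0 : c ≠ 0 := by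
    apply mul_ne_zero
    · exact pow_ne_zero _ Complex.two_pi_I_ne_zero
    · apply div_ne_zero (pow_ne_zero _ (by norm_num))
      apply pow_ne_zero
      exact_mod_cast Nat.factorial_ne_zero k
  have hK : ∀ a a', K0 f (k + 1) a a' = c * ((inter f a a' : ℚ) : ℂ) := hT k f hk hp hc
  constructor
  · set C : Matrix (Ix f) (Ix f) ℂ := kprod fun j => Matrix.of fun
      (x a : Fin ((f j).natDegree - 1)) => zt (f j).natDegree ^ (((a : ℕ) + 1) * ((x : ℕ) + 1)) -
        zt (f j).natDegree ^ ((a : ℕ) * ((x : ℕ) + 1)) with hC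
    set C' : Matrix (Ix f) (Ix f) ℂ := kprod fun j => Matrix.of fun
      (x a : Fin ((f j).natDegree - 1)) => (zt (f j).natDegree)⁻¹ ^ (((a : ℕ) + 1) *
        ((x : ℕ) + 1)) - (zt (f j).natDegree)⁻¹ ^ ((a : ℕ) * ((x : ℕ) + 1)) with hC'
    have hCd : C.det ≠ 0 := NDG_.kdet _ fun j => NDG_.vdm _ _ (NDG_.prim _ (hp0 j))
    have hCd' : C'.det ≠ 0 := NDG_.kdet _ fun j => NDG_.vdm _ _ (NDG_.prim _ (hp0 j)).inv
    set D : Ix f → ℂ := fun x => ((Real.Gamma (((k + 1 : ℕ) : ℝ) - (bI f x : ℝ)) *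
      Real.Gamma ((bI f x : ℝ) + 1 - ((k + 1 : ℕ) : ℝ)) / Real.Gamma ((k + 1 : ℕ) : ℝ) ^ 2 : ℝ) : ℂ)
      * ∏ j, ((((f j).natDegree : ℂ))⁻¹ *
      ((Real.Gamma (((x j : ℕ) + 1 : ℝ) / (f j).natDegree) *
        Real.Gamma (1 - ((x j : ℕ) + 1 : ℝ) / (f j).natDegree) : ℝ) : ℂ)) with hD
    have hDd : ∀ x, D x ≠ 0 := by
      intro x
      simp only [hD]
      apply mul_ne_zero
      · have hb := NDG_.bne f (Nat.succ_pos _) hp hc x
        have h1 : Real.Gamma (((k + 1 : ℕ) : ℝ) - (bI f x : ℝ)) ≠ 0 := by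
          apply Real.Gamma_ne_zero
          intro m h
          apply hb ((k : ℤ) + 1 + m)
          push_cast at h ⊢
          linarith
        have h2 : Real.Gamma ((bI f x : ℝ) + 1 - ((k + 1 : ℕ) : ℝ)) ≠ 0 := by
          apply Real.Gamma_ne_zero
          intro m h
          apply hb ((k : ℤ) - m)
          push_cast at h ⊢
          linarith
        have h3 : Real.Gamma ((k + 1 : ℕ) : ℝ) ≠ 0 := by
          apply Real.Gamma_ne_zero
          intro m h
          have : ((k + 1 : ℕ) : ℝ) > 0 := by positivity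
          have h4 : (m : ℝ) ≥ 0 := Nat.cast_nonneg _
          linarith
        exact_mod_cast div_ne_zero (mul_ne_zero h1 h2) (pow_ne_zero 2 h3)
      · rw [Finset.prod_ne_zero_iff]
        intro j _
        have hpj : (0 : ℝ) < (f j).natDegree := by
          have := hp j
          exact_mod_cast (by omega : 0 < (f j).natDegree)
        apply mul_ne_zero
        · exact inv_ne_zero (by exact_mod_cast hp0 j)
        · have hx : ((x j : ℕ) : ℝ) + 1 < (f j).natDegree := by
            have := (x j).2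
            exact_mod_cast (by omega : (x j : ℕ) + 1 < (f j).natDegree)
          have h1 : 0 < Real.Gamma (((x j : ℕ) + 1 : ℝ) / (f j).natDegree) :=
            Real.Gamma_pos_of_pos (by positivity)
          have h2 : 0 < Real.Gamma (1 - ((x j : ℕ) + 1 : ℝ) / (f j).natDegree) := by
            apply Real.Gamma_pos_of_pos
            rw [sub_pos, div_lt_one hpj]
            exact hx
          exact_mod_cast (mul_pos h1 h2).ne'
    have hN : c • cm (inter f) = C.transpose * Matrix.diagonal D * C' := by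
      ext a a'
      rw [Matrix.smul_apply, cm, Matrix.map_apply, smul_eq_mul, ← hK, Matrix.mul_apply]
      simp only [Matrix.mul_diagonal, Matrix.transpose_apply]
      rw [K0]
      refine Finset.sum_congr rfl fun x _ => ?_
      simp only [hC, hC', hD, kprod, Matrix.of_apply]
      rw [Finset.prod_mul_distrib, Finset.prod_mul_distrib]
      ring
    have h1 := congrArg Matrix.det hN
    rw [Matrix.det_mul, Matrix.det_mul, Matrix.det_transpose, Matrix.det_diagonal] at h1
    intro h2
    have h3 : (cm (inter f)).det = (((inter f).det : ℚ) : ℂ) := by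
      have := RingHom.map_det (Rat.castHom ℂ) (inter f)
      rw [cm]
      exact this.symm
    rw [Matrix.det_smul, h3, h2, Rat.cast_zero, mul_zero] at h1
    exact mul_ne_zero (mul_ne_zero hCd (Finset.prod_ne_zero_iff.2 fun x _ => hDd x)) hCd' h1.symm
  · ext a a'
    rw [Matrix.transpose_apply]
    have h1 : K0 f (k + 1) a' a = K0 f (k + 1) a a' := by
      rw [K0, K0]
      refine Fintype.sum_equiv (Equiv.piCongrRight fun j => Fin.revPerm) _ _ fun x => ?_
      have hx : ∀ j, (x j : ℕ) + 1 < (f j).natDegree := fun j => by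
        have := (x j).2
        omega
      have hr : ∀ j, (((Equiv.piCongrRight fun j => Fin.revPerm) x : Ix f) j : ℕ) + 1 =
          (f j).natDegree - ((x j : ℕ) + 1) := by
        intro j
        have := hx j
        simp only [Equiv.piCongrRight_apply, Pi.map_apply, Fin.revPerm_apply, Fin.val_rev]
        omega
      have hrr : ∀ j, ((((Equiv.piCongrRight fun j => Fin.revPerm) x : Ix f) j : ℕ) : ℝ) + 1 =
          (f j).natDegree - ((x j : ℕ) + 1) := by
        intro j
        have h2 := hr j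
        have h3 := hx j
        have h4 : (((((Equiv.piCongrRight fun j => Fin.revPerm) x : Ix f) j : ℕ) + 1 : ℕ) : ℝ) =
          (((f j).natDegree - ((x j : ℕ) + 1) : ℕ) : ℝ) := by rw [h2]
        rw [Nat.cast_sub h3.le] at h4
        push_cast at h4
        exact h4
      have hb : (bI f ((Equiv.piCongrRight fun j => Fin.revPerm) x : Ix f) : ℝ) =
          (2 * k + 1 : ℕ) - (bI f x : ℝ) := by
        rw [bI, bI]
        push_cast
        have h5 : ∀ j, (((((Equiv.piCongrRight fun j => Fin.revPerm) x : Ix f) j : ℕ) : ℝ) + 1) /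
            ((f j).natDegree : ℝ) = 1 - (((x j : ℕ) : ℝ) + 1) / (f j).natDegree := by
          intro j
          have : ((f j).natDegree : ℝ) ≠ 0 := by exact_mod_cast hp0 j
          rw [hrr j]
          field_simp
        rw [Finset.sum_congr rfl fun j _ => h5 j, Finset.sum_sub_distrib]
        simp
      have hz : ∀ j (e : ℕ), zt (f j).natDegree ^ (e *
          ((((Equiv.piCongrRight fun j => Fin.revPerm) x : Ix f) j : ℕ) + 1)) =
          (zt (f j).natDegree)⁻¹ ^ (e * ((x j : ℕ) + 1)) := by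
        intro j e
        have h6 : zt (f j).natDegree ^ (e * ((f j).natDegree - ((x j : ℕ) + 1))) *
            zt (f j).natDegree ^ (e * ((x j : ℕ) + 1)) = 1 := by
          rw [← pow_add, ← mul_add, Nat.sub_add_cancel (hx j).le, mul_comm, pow_mul,
            (NDG_.prim _ (hp0 j)).pow_eq_one, one_pow]
        rw [hr j, inv_pow]
        exact eq_inv_of_mul_eq_one_left h6
      have hz' : ∀ j (e : ℕ), (zt (f j).natDegree)⁻¹ ^ (e *
          ((((Equiv.piCongrRight fun j => Fin.revPerm) x : Ix f) j : ℕ) + 1)) =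
          (zt (f j).natDegree) ^ (e * ((x j : ℕ) + 1)) := by
        intro j e
        rw [inv_pow, hz j e, inv_pow, inv_inv]
      have hg : ∀ j, (((((Equiv.piCongrRight fun j => Fin.revPerm) x : Ix f) j : ℕ) : ℝ) + 1) /
            ((f j).natDegree : ℝ) = 1 - (((x j : ℕ) : ℝ) + 1) / (f j).natDegree := by
        intro j
        have : ((f j).natDegree : ℝ) ≠ 0 := by exact_mod_cast hp0 j
        rw [hrr j]
        field_simp
      rw [hb]
      simp only [hz, hz', hg]
      have e1 : ((k + 1 : ℕ) : ℝ) - (((2 * k + 1 : ℕ) : ℝ) - (bI f x : ℝ)) =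
          (bI f x : ℝ) + 1 - ((k + 1 : ℕ) : ℝ) := by
        push_cast
        ring
      have e2 : (((2 * k + 1 : ℕ) : ℝ) - (bI f x : ℝ)) + 1 - ((k + 1 : ℕ) : ℝ) =
          ((k + 1 : ℕ) : ℝ) - (bI f x : ℝ) := by
        push_cast
        ring
      rw [e1, e2]
      congr 1
      · rw [mul_comm (Real.Gamma ((bI f x : ℝ) + 1 - ((k + 1 : ℕ) : ℝ)))]
      · refine Finset.prod_congr rfl fun j _ => ?_
        rw [sub_sub_cancel, Complex.ofReal_mul, Complex.ofReal_mul]
        ring
    rw [hK, hK] at h1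
    exact_mod_cast mul_left_cancel₀ hc0 h1

end

end Pool.Agent.EVD
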