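import Pool.Agent.EVD.NFOA

set_option autoImplicit false

/-!
# EVD, module NFO: from relations with coefficients in a number field to relations with rational
coefficients, the proof
-/

open scoped BigOperators Topology
open MvPolynomial

namespace Pool.Agent.EVD

noncomputable section

namespace NFO_

/-- The inverse of an isometry of determinant one. -/
theorem iso_inv {ι : Type} [Fintype ι] [DecidableEq ι] {Q g : Matrix ι ι ℂ} (h : Iso Q g)
    (hd : g.det = 1) : Iso Q g⁻¹ ∧ (g⁻¹).det = 1 ∧ g * g⁻¹ = 1 := by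
  have hu : IsUnit g.det := by rw [hd]; exact isUnit_one
  have h1 : g * g⁻¹ = 1 := Matrix.mul_nonsing_inv _ hu
  refine ⟨?_, ?_, h1⟩
  · unfold Iso at h ⊢
    calc (g⁻¹).transpose * Q * g⁻¹ = (g⁻¹).transpose * (g.transpose * Q * g) * g⁻¹ := by rw [h]
      _ = (g * g⁻¹).transpose * Q * (g * g⁻¹) := by
        rw [Matrix.transpose_mul]
        simp only [Matrix.mul_assoc]
      _ = Q := by rw [h1, Matrix.transpose_one, Matrix.one_mul, Matrix.mul_one]
  · have h2 := congrArg Matrix.det h1
    rw [Matrix.det_mul, hd, one_mul, Matrix.det_one] at h2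
    exact h2

theorem iso_mul {ι : Type} [Fintype ι] [DecidableEq ι] {Q g h : Matrix ι ι ℂ} (hg : Iso Q g)
    (hh : Iso Q h) : Iso Q (g * h) := by
  unfold Iso at hg hh ⊢
  calc (g * h).transpose * Q * (g * h) = h.transpose * (g.transpose * Q * g) * h := by
        rw [Matrix.transpose_mul]
        simp only [Matrix.mul_assoc]
    _ = Q := by rw [hg, hh]

end NFO_

open NFO_ in
theorem nfo_proof (hIrx : Stmt_Irx) (hLmx : Stmt_Lmx) (hGlx : Stmt_Glx) (hYzx : Stmt_Yzx) :
    Stmt_Nfo := by
  classical
  intro r ι _ _ _ w D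
  refine ⟨D * 2 ^ r * (D + ∑ k, (Fintype.card (ι k) + mk ι w k)), ?_⟩
  intro N Q c M hM L hfin hfr P hPdeg hP0 hPne
  have hpi : (2 * Real.pi * Complex.I : ℂ) ≠ 0 := by
    simp [Real.pi_ne_zero, Complex.I_ne_zero]
  choose Y0 g0 hY0 hg0 hg0d hMY hδ using fun k => hYzx (ι k) (w k) (N k) (Q k) (c k) (M k)
    (hM k).1 (hM k).2.1 (hM k).2.2.1 (hM k).2.2.2.1 (hM k).2.2.2.2.1 (hM k).2.2.2.2.2
  -- the determinants
  set δ : Fin r → Qb := fun k => (Y0 k).det with hδdef
  have hQ' : ∀ k, (cm (Q k)).transpose = cm (Q k) ∧ (cm (Q k)).det ≠ 0 := by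
    intro k
    constructor
    · ext i j
      have h1 : (Q k) j i = (Q k) i j := congrFun (congrFun (hM k).2.2.1 i) j
      show ((Q k j i : ℚ) : ℂ) = ((Q k i j : ℚ) : ℂ)
      rw [h1]
    · intro h0
      apply (hM k).2.2.2.1
      have h1 : (cm (Q k)).det = ((Q k).det : ℂ) := by
        unfold cm
        have h2 := (RingHom.map_det (algebraMap ℚ ℂ) (Q k)).symm
        exact h2
      rw [h1] at h0
      exact_mod_cast h0
  have hδ0 : ∀ k, δ k ≠ 0 := by
    intro k h0
    have h1 := congrArg Matrix.det (hY0 k)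
    rw [Matrix.det_mul, Matrix.det_mul, Matrix.det_smul] at h1
    have h2 : (qc (Y0 k)).det = 0 := by
      unfold qc
      rw [← RingHom.mapMatrix_apply, ← RingHom.map_det]
      show algebraMap Qb ℂ (δ k) = 0
      rw [h0, map_zero]
    rw [h2, mul_zero] at h1
    have h3 : ((c k : ℚ) : ℂ) ≠ 0 := by exact_mod_cast (hM k).2.2.2.2.1
    exact (mul_ne_zero (pow_ne_zero _ h3) (hQ' k).2) h1.symm
  -- the inclusion
  have hLQ : L ≤ Qb := by
    intro x hx
    rw [mem_algebraicClosure_iff]
    have h1 : IsAlgebraic ℚ (⟨x, hx⟩ : L) := IsAlgebraic.of_finite ℚ _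
    exact IsAlgebraic.algHom L.val h1
  let inc : L →ₐ[ℚ] Qb := IntermediateField.inclusion hLQ
  have hinc : (algebraMap Qb ℂ).comp (inc : L →+* Qb) = algebraMap L ℂ := by
    ext x
    rfl
  have : Finite (L →ₐ[ℚ] Qb) := inferInstance
  have hPinc : ∀ y : Option (Σ k, ι k × ι k) → ℂ,
      aeval y (MvPolynomial.map (inc : L →+* Qb) P) = (aeval y P : ℂ) := by
    intro y
    rw [aeval_def, eval₂_map, hinc, aeval_def]
  obtain ⟨R, hR⟩ := exists_rational L inc δ hδ w P
  -- evaluation of R
  have hRev : ∀ y : Option (Σ k, ι k × ι k) → ℂ, (aeval y R : ℂ) =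
      ∏ x ∈ Orb L inc δ, aeval y (Fx w (MvPolynomial.map (x.1 : L →+* Qb) P) x.2) := by
    intro y
    rw [← map_prod, ← hR, aeval_def, aeval_def, eval₂_map]
    congr 1
  -- values on the torsor
  have hval : ∀ (P' : MvPolynomial (Option (Σ k, ι k × ι k)) Qb) (η : Fin r → Qb) (lam : ℂ)
      (g : ∀ k, Matrix (ι k) (ι k) ℂ), (∀ k, Iso (cm (Q k)) (g k) ∧ (g k).det = 1) →
      aeval (pt lam (fun k => lam ^ w k • (qc (Y0 k) * g k))) (Fx w P' η) =
        aeval (pt lam (fun k => lam ^ w k • (qc (Y0 k) * g k))) P' *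
        ∏ k, (((δ k : ℂ) + (η k : ℂ)) * lam ^ mk ι w k) +
        ∑ k, ((η k : ℂ))⁻¹ * ((δ k : ℂ) - (η k : ℂ)) * lam ^ (∑ l, mk ι w l) := by
    intro P' η lam g hg
    rw [Fx_eval]
    congr 1
    · congr 1
      apply Finset.prod_congr rfl
      intro k _
      rw [det_torsor w Q Y0 lam g hg k]
      ring
    · apply Finset.sum_congr rfl
      intro k _
      rw [det_torsor w Q Y0 lam g hg k]
      have h1 : mk ι w k ≤ ∑ l, mk ι w l :=
        Finset.single_le_sum (f := fun l => mk ι w l) (fun _ _ => Nat.zero_le _)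
          (Finset.mem_univ k)
      have h2 : lam ^ (∑ l, mk ι w l) = lam ^ ((∑ l, mk ι w l) - mk ι w k) * lam ^ mk ι w k := by
        rw [← pow_add]
        congr 1
        omega
      rw [h2]
      ring
  have hMeq : (fun k => M k) = fun k => (2 * Real.pi * Complex.I : ℂ) ^ w k •
      (qc (Y0 k) * g0 k) := funext hMY
  have hg0' : ∀ k, Iso (cm (Q k)) (g0 k) ∧ (g0 k).det = 1 := fun k => ⟨hg0 k, hg0d k⟩
  have hone : ((1 : Qb ≃ₐ[ℚ] Qb) : Qb →ₐ[ℚ] Qb).comp inc = inc := by
    ext x
    rfl
  refine ⟨R, ?_, ?_, ?_⟩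
  · -- the degree
    rw [← totalDegree_map_eq, hR]
    refine le_trans (totalDegree_finsetProd _ _) ?_
    refine le_trans (Finset.sum_le_sum (g := fun _ =>
      D + ∑ k, (Fintype.card (ι k) + mk ι w k)) (fun x _ => ?_)) ?_
    · refine le_trans (Fx_deg w _ _) ?_
      apply Nat.add_le_add_right
      exact le_trans (totalDegree_map_le' _ _) hPdeg
    · rw [Finset.sum_const, smul_eq_mul]
      apply Nat.mul_le_mul_right
      exact le_trans (card_Orb L inc δ) (Nat.mul_le_mul_right _ hfr)
  · -- the relation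
    rw [hRev]
    apply Finset.prod_eq_zero (i := (inc, δ))
    · rw [mem_Orb L inc δ hδ]
      refine ⟨1, ?_⟩
      rw [hone]
      rfl
    · have h1 := hval (MvPolynomial.map (inc : L →+* Qb) P) δ (2 * Real.pi * Complex.I) g0 hg0'
      have h2 : (pt (2 * Real.pi * Complex.I : ℂ) M) = pt (2 * Real.pi * Complex.I)
          (fun k => (2 * Real.pi * Complex.I : ℂ) ^ w k • (qc (Y0 k) * g0 k)) := by
        congr 1
      rw [h2, h1, hPinc, ← h2, hP0, zero_mul, zero_add]
      apply Finset.sum_eq_zero
      intro k _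
      rw [sub_self, mul_zero, zero_mul]
  · -- nonvanishing
    have hfac : ∀ x ∈ Orb L inc δ, ∃ g : ∀ k, Matrix (ι k) (ι k) ℂ,
        (∀ k, Iso (cm (Q k)) (g k) ∧ (g k).det = 1) ∧
        MvPolynomial.eval (pt (2 * Real.pi * Complex.I)
          (fun k => ((2 * Real.pi * Complex.I : ℂ) ^ w k • qc (Y0 k)) * g k))
          (MvPolynomial.map (algebraMap Qb ℂ)
            (Fx w (MvPolynomial.map (x.1 : L →+* Qb) P) x.2)) ≠ 0 := by
      intro x hx
      obtain ⟨τ, hτ⟩ := (mem_Orb L inc δ hδ x).mp hx
      by_contra hcon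
      push Not at hcon
      have hcon' : ∀ g : ∀ k, Matrix (ι k) (ι k) ℂ,
          (∀ k, Iso (cm (Q k)) (g k) ∧ (g k).det = 1) →
          aeval (pt (2 * Real.pi * Complex.I) (fun k => (2 * Real.pi * Complex.I : ℂ) ^ w k •
            (qc (Y0 k) * g k))) (Fx w (MvPolynomial.map (x.1 : L →+* Qb) P) x.2) = (0 : ℂ) := by
        intro g hg
        have h1 := hcon g hg
        rw [MvPolynomial.eval_map] at h1
        simp only [Matrix.smul_mul] at h1
        exact h1
      have hall := hLmx r ι w Q (fun k => ⟨(hM k).2.2.1, (hM k).2.2.2.1⟩) Y0 _ hcon'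
      have h1g : ∀ k, Iso (cm (Q k)) ((fun _ => 1 : ∀ k, Matrix (ι k) (ι k) ℂ) k) ∧
          ((fun _ => 1 : ∀ k, Matrix (ι k) (ι k) ℂ) k).det = 1 := by
        intro k
        refine ⟨?_, Matrix.det_one⟩
        unfold Iso
        rw [Matrix.transpose_one, Matrix.one_mul, Matrix.mul_one]
      have hx2 : x.2 = fun i => τ (δ i) := by rw [hτ]
      have hx1 : x.1 = (τ : Qb →ₐ[ℚ] Qb).comp inc := by rw [hτ]
      by_cases hτδ : ∀ i, τ (δ i) = δ i
      · -- the automorphism fixes the determinants
        obtain ⟨mu, g, hmu, hg, hgne⟩ := hPne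
        have hx2' : x.2 = δ := by rw [hx2]; funext i; exact hτδ i
        have hmap : MvPolynomial.map (x.1 : L →+* Qb) P =
            MvPolynomial.map (τ : Qb →+* Qb) (MvPolynomial.map (inc : L →+* Qb) P) := by
          rw [MvPolynomial.map_map, hx1]
          rfl
        have hvan : ∀ (lam : ℂ) (g : ∀ k, Matrix (ι k) (ι k) ℂ),
            (∀ k, Iso (cm (Q k)) (g k) ∧ (g k).det = 1) →
            aeval (pt lam (fun k => lam ^ w k • (qc (Y0 k) * g k)))
              (MvPolynomial.map (τ : Qb →+* Qb) (MvPolynomial.map (inc : L →+* Qb) P))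
              = (0 : ℂ) := by
          intro lam g hg
          apply vanish_zero w (fun k => qc (Y0 k)) g
          intro lam hlam
          have h1 := hall lam g hg
          rw [hval _ _ _ _ hg, hx2', hmap] at h1
          have h2 : ∑ k, ((δ k : ℂ))⁻¹ * ((δ k : ℂ) - (δ k : ℂ)) * lam ^ (∑ l, mk ι w l) = 0 := by
            apply Finset.sum_eq_zero
            intro k _
            rw [sub_self, mul_zero, zero_mul]
          rw [h2, add_zero] at h1
          rcases mul_eq_zero.mp h1 with h3 | h3
          · exact h3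
          · exfalso
            rw [Finset.prod_eq_zero_iff] at h3
            obtain ⟨k, -, hk⟩ := h3
            rcases mul_eq_zero.mp hk with h4 | h4
            · have h5 : (δ k : ℂ) = 0 := by
                have h6 : (2 : ℂ) * (δ k : ℂ) = 0 := by rw [two_mul]; exact h4
                rcases mul_eq_zero.mp h6 with h7 | h7
                · norm_num at h7
                · exact h7
              exact hδ0 k (by exact_mod_cast h5)
            · exact pow_ne_zero _ hlam h4
        have hT := hGlx r ι w N Q c Y0 (fun k => ⟨(hM k).2.2.1, (hM k).2.2.2.1,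
          (hM k).2.2.2.2.1, hY0 k⟩) τ hτδ _ hvan
        -- the point of the hypothesis is on the torsor
        apply hgne
        rw [← hPinc]
        have hmw : ∀ k, mu ^ w k ≠ 0 := fun k => pow_ne_zero _ hmu
        have hpt : (fun k => M k * g k) = fun k => (mu * (2 * Real.pi * Complex.I)) ^ w k •
            (qc (Y0 k) * ((mu ^ w k)⁻¹ • (g0 k * g k))) := by
          funext k
          rw [hMY k, Matrix.mul_smul, smul_smul, Matrix.smul_mul, Matrix.mul_assoc, mul_pow]
          congr 1
          have := hmw k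
          field_simp
          simp only [mul_pow]
          ring
        rw [hpt]
        apply hT
        intro k
        obtain ⟨hg1, hg2⟩ := hg k
        have h2w : 2 * w k / 2 = w k := by omega
        rw [h2w] at hg2
        constructor
        · unfold Iso
          have h5 := hg0 k
          unfold Iso at h5
          rw [Matrix.transpose_smul, Matrix.smul_mul, Matrix.smul_mul, Matrix.mul_smul,
            smul_smul, Matrix.transpose_mul]
          have h6 : (g k).transpose * (g0 k).transpose * cm (Q k) * (g0 k * g k)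
              = (g k).transpose * ((g0 k).transpose * cm (Q k) * g0 k) * g k := by
            simp only [Matrix.mul_assoc]
          rw [h6, h5]
          have h7 : (g k).transpose * cm (Q k) * g k = mu ^ (2 * w k) • cm (Q k) := hg1
          rw [h7, smul_smul]
          have h8 : (mu ^ w k)⁻¹ * (mu ^ w k)⁻¹ * mu ^ (2 * w k) = 1 := by
            have h9 : mu ^ (2 * w k) = mu ^ w k * mu ^ w k := by rw [two_mul, pow_add]
            rw [h9]
            have := hmw k
            field_simp
          rw [h8, one_smul]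
        · rw [Matrix.det_smul, Matrix.det_mul, hg0d k, one_mul, hg2, inv_pow, ← pow_mul]
          exact inv_mul_cancel₀ (pow_ne_zero _ hmu)
      · -- some determinant changes its sign
        push Not at hτδ
        obtain ⟨i, hi⟩ := hτδ
        have h1 := hall 1 (fun _ => 1) h1g
        rw [hval _ _ _ _ h1g] at h1
        have hneg : ∀ k, τ (δ k) = δ k ∨ τ (δ k) = -δ k := fun k => conj_delta (hδ k) τ
        have h2 : ∏ k, (((δ k : ℂ) + (x.2 k : ℂ)) * (1 : ℂ) ^ mk ι w k) = 0 := by
          apply Finset.prod_eq_zero (Finset.mem_univ i)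
          rw [hx2]
          rcases hneg i with h3 | h3
          · exact absurd h3 hi
          · show ((δ i : ℂ) + ((τ (δ i) : Qb) : ℂ)) * (1 : ℂ) ^ mk ι w i = 0
            rw [h3]
            push_cast
            ring
        rw [h2, mul_zero, zero_add] at h1
        have h3 : ∀ k, ((x.2 k : ℂ))⁻¹ * ((δ k : ℂ) - (x.2 k : ℂ)) *
            (1 : ℂ) ^ (∑ l, mk ι w l) = if τ (δ k) = δ k then 0 else -2 := by
          intro k
          have h5 : (δ k : ℂ) ≠ 0 := by
            intro h6
            exact hδ0 k (by exact_mod_cast h6)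
          have h4 : x.2 k = τ (δ k) := by rw [hx2]
          rw [h4, one_pow, mul_one]
          split_ifs with h6
          · rw [h6, sub_self, mul_zero]
          · rcases hneg k with h7 | h7
            · exact absurd h7 h6
            · rw [h7]
              push_cast
              field_simp
              ring
        rw [Finset.sum_congr rfl (fun k _ => h3 k), Finset.sum_ite, Finset.sum_const_zero,
          zero_add, Finset.sum_const, nsmul_eq_mul] at h1
        rcases mul_eq_zero.mp h1 with h4 | h4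
        · have h5 : (Finset.univ.filter (fun k => ¬ τ (δ k) = δ k)).card = 0 := by
            exact_mod_cast h4
          rw [Finset.card_eq_zero] at h5
          have h6 : i ∈ Finset.univ.filter (fun k => ¬ τ (δ k) = δ k) := by
            rw [Finset.mem_filter]
            exact ⟨Finset.mem_univ _, hi⟩
          rw [h5] at h6
          simp at h6
        · norm_num at h4
    obtain ⟨g', hg', hne⟩ := irx_prod hIrx (fun k => cm (Q k)) hQ' (2 * Real.pi * Complex.I)
      (fun k => (2 * Real.pi * Complex.I : ℂ) ^ w k • qc (Y0 k)) (Orb L inc δ)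
      (fun x => MvPolynomial.map (algebraMap Qb ℂ)
        (Fx w (MvPolynomial.map (x.1 : L →+* Qb) P) x.2)) hfac
    refine ⟨fun k => (g0 k)⁻¹ * g' k, ?_, ?_⟩
    · intro k
      obtain ⟨h1, h2, -⟩ := iso_inv (hg0 k) (hg0d k)
      refine ⟨iso_mul h1 (hg' k).1, ?_⟩
      rw [Matrix.det_mul, h2, (hg' k).2, mul_one]
    · rw [hRev]
      have h1 : (fun k => M k * ((g0 k)⁻¹ * g' k)) =
          fun k => ((2 * Real.pi * Complex.I : ℂ) ^ w k • qc (Y0 k)) * g' k := by
        funext k
        obtain ⟨-, -, h3⟩ := iso_inv (hg0 k) (hg0d k)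
        rw [hMY k, Matrix.smul_mul, Matrix.smul_mul, Matrix.mul_assoc, ← Matrix.mul_assoc (g0 k),
          h3, Matrix.one_mul]
      rw [h1]
      rw [map_prod] at hne
      intro h0
      apply hne
      rw [← h0]
      apply Finset.prod_congr rfl
      intro x _
      rw [MvPolynomial.eval_map]
      rfl

end

end Pool.Agent.EVD
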