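import Pool.Agent.EVD.Stmts

set_option autoImplicit false

/-!
# EVD, module OKA: the algebraic relations in several variables
-/

open scoped BigOperators

namespace Pool.Agent.EVD

namespace OKA_

theorem kprod_update_add {n : ℕ} {α : Fin n → Type} {R : Type} [CommRing R]
    (U : ∀ j, Matrix (α j) (α j) R) (j : Fin n) (X Y : Matrix (α j) (α j) R) :
    kprod (Function.update U j X) + kprod (Function.update U j Y) =
      kprod (Function.update U j (X + Y)) := by
  ext x y
  simp only [kprod, Matrix.add_apply, Matrix.of_apply]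
  rw [← Finset.mul_prod_erase _ _ (Finset.mem_univ j), ← Finset.mul_prod_erase _ _
    (Finset.mem_univ j), ← Finset.mul_prod_erase _ _ (Finset.mem_univ j)]
  have h : ∀ Z : Matrix (α j) (α j) R,
      ∏ l ∈ Finset.univ.erase j, Function.update U j Z l (x l) (y l) =
        ∏ l ∈ Finset.univ.erase j, U l (x l) (y l) := by
    intro Z
    apply Finset.prod_congr rfl
    intro l hl
    rw [Function.update_of_ne (Finset.ne_of_mem_erase hl)]
  rw [h, h, h]
  simp only [Function.update_self, Matrix.add_apply]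
  ring

theorem dvd_of_sum {n : ℕ} (p : Fin n → ℕ) (hp : ∀ j, 0 < p j)
    (hc : ∀ j l, j ≠ l → Nat.Coprime (p j) (p l)) (c : Fin n → ℤ) (z : ℤ)
    (h : ∑ j, (c j : ℚ) / (p j : ℚ) = z) (j : Fin n) : (p j : ℤ) ∣ c j := by
  have hp' : ∀ l, (p l : ℚ) ≠ 0 := fun l => by
    have := hp l
    exact_mod_cast this.ne'
  have h1 : (c j : ℚ) * ∏ l ∈ Finset.univ.erase j, (p l : ℚ) =
      p j * (z * ∏ l ∈ Finset.univ.erase j, (p l : ℚ) -
        ∑ l ∈ Finset.univ.erase j, (c l : ℚ) * ∏ m ∈ (Finset.univ.erase j).erase l, (p m : ℚ)) := by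
    have h2 : ∑ l ∈ Finset.univ.erase j, (c l : ℚ) * ∏ m ∈ (Finset.univ.erase j).erase l, (p m : ℚ)
        = (∑ l ∈ Finset.univ.erase j, (c l : ℚ) / (p l : ℚ)) *
          ∏ l ∈ Finset.univ.erase j, (p l : ℚ) := by
      rw [Finset.sum_mul]
      apply Finset.sum_congr rfl
      intro l hl
      rw [← Finset.mul_prod_erase _ _ hl]
      have := hp' l
      field_simp
    have h3 : (c j : ℚ) / (p j : ℚ) + ∑ l ∈ Finset.univ.erase j, (c l : ℚ) / (p l : ℚ) = z := by
      rw [← h]
      exact Finset.add_sum_erase _ (fun l => (c l : ℚ) / (p l : ℚ)) (Finset.mem_univ j)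
    rw [h2]
    have h4 : (c j : ℚ) = p j * (z - ∑ l ∈ Finset.univ.erase j, (c l : ℚ) / (p l : ℚ)) := by
      have := hp' j
      rw [← h3]
      field_simp
      ring
    rw [h4]
    ring
  have h5 : (c j : ℤ) * ∏ l ∈ Finset.univ.erase j, (p l : ℤ) =
      p j * (z * ∏ l ∈ Finset.univ.erase j, (p l : ℤ) -
        ∑ l ∈ Finset.univ.erase j, (c l : ℤ) * ∏ m ∈ (Finset.univ.erase j).erase l, (p m : ℤ)) := by
    exact_mod_cast h1
  have h6 : (p j : ℤ) ∣ c j * ∏ l ∈ Finset.univ.erase j, (p l : ℤ) := ⟨_, h5⟩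
  have h7 : IsCoprime (p j : ℤ) (∏ l ∈ Finset.univ.erase j, (p l : ℤ)) := by
    apply IsCoprime.prod_right
    intro l hl
    rw [Nat.isCoprime_iff_coprime]
    exact hc j l (Finset.ne_of_mem_erase hl).symm
  exact h7.dvd_of_dvd_mul_right h6

theorem ksum_ne {n : ℕ} {α : Fin n → Type} [∀ j, DecidableEq (α j)] {R : Type} [CommRing R]
    (A : ∀ j, Matrix (α j) (α j) R) (x y : ∀ j, α j) (h : ksum A x y ≠ 0) :
    ∃ j, (∀ l, l ≠ j → x l = y l) ∧ A j (x j) (y j) ≠ 0 := by
  unfold ksum at h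
  rw [Matrix.of_apply] at h
  obtain ⟨j, _, hj⟩ := Finset.exists_ne_zero_of_sum_ne_zero h
  refine ⟨j, ?_⟩
  split_ifs at hj with h1
  · exact ⟨h1, hj⟩
  · exact absurd rfl hj

theorem bI_sub {n : ℕ} (f : Fin n → Polynomial ℚ) (x y : Ix f) (j : Fin n)
    (h : ∀ l, l ≠ j → x l = y l) :
    bI f y - bI f x = (((y j : ℕ) : ℚ) - ((x j : ℕ) : ℚ)) / (f j).natDegree := by
  unfold bI
  rw [← Finset.add_sum_erase _ _ (Finset.mem_univ j), ← Finset.add_sum_erase _ _
    (Finset.mem_univ j)]
  have : ∑ l ∈ Finset.univ.erase j, ((y l : ℕ) + 1 : ℚ) / (f l).natDegree =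
      ∑ l ∈ Finset.univ.erase j, ((x l : ℕ) + 1 : ℚ) / (f l).natDegree := by
    apply Finset.sum_congr rfl
    intro l hl
    rw [h l (Finset.ne_of_mem_erase hl)]
  rw [this]
  ring

end OKA_

open OKA_ in
theorem oka_proof (hB : Stmt_Btr) (hU : Stmt_Uon) (hK : Stmt_Ksp) : Stmt_Oka := by
  intro n f hf hc
  have hU' := fun j => hU (f j) (hf j).mon (hf j).two
  have hB' := fun j => hB (f j) (hf j).mon (hf j).two
  have hpos : ∀ j, 0 < (f j).natDegree := fun j => by have := (hf j).two; omega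
  have K := fun (X Y Z : ∀ j, Matrix (Fin ((f j).natDegree - 1)) (Fin ((f j).natDegree - 1)) ℚ) =>
    hK n (fun j => Fin ((f j).natDegree - 1)) ℚ X Y Z (fun _ _ => 0)
  refine ⟨?_, ?_, ?_, ?_, ?_, ?_, ?_, ?_, ?_⟩
  · have := (K (fun j => U1 (f j)) (fun j => U1 (f j)) (fun j => U1 (f j))).2.2.1
    unfold UT
    rw [this]
    congr 1
    funext j
    exact (hU' j).1
  · have h1 := (K (fun j => U1 (f j)) (fun j => U1 (f j)) (fun j => (U1 (f j))⁻¹)).2.2.2.2.1
    have h2 := (K (fun j => U1 (f j)) (fun j => U1 (f j)) (fun j => (U1 (f j))⁻¹)).2.2.2.2.2.1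
    have h3 : (fun j => U1 (f j) * (U1 (f j))⁻¹) =
        fun j => (1 : Matrix (Fin ((f j).natDegree - 1)) (Fin ((f j).natDegree - 1)) ℚ) := by
      funext j
      exact Matrix.mul_nonsing_inv _ ((isUnit_iff_ne_zero).mpr (hU' j).2.1)
    rw [h3, h2] at h1
    intro h4
    have h5 := congrArg Matrix.det h1
    rw [Matrix.det_mul] at h5
    unfold UT at h4
    rw [h4, zero_mul, Matrix.det_one] at h5
    exact zero_ne_one h5
  · have h1 := (K (fun j => A1 (f j)) (fun j => U1 (f j)) (fun j => U1 (f j))).2.1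
    have h2 := (K (fun j => (A1 (f j)).transpose) (fun j => U1 (f j)) (fun j => U1 (f j))).1
    have h3 := (K (fun j => A1 (f j)) (fun j => U1 (f j)) (fun j => U1 (f j))).2.2.2.1
    unfold UT AT
    rw [h1, h3, h2]
    apply Finset.sum_congr rfl
    intro j _
    rw [(hU' j).2.2.1]
  · have h1 := (K (fun j => B1 (f j)) (fun j => U1 (f j)) (fun j => U1 (f j))).2.1
    have h2 := (K (fun j => (B1 (f j)).transpose) (fun j => U1 (f j)) (fun j => U1 (f j))).1
    have h3 := (K (fun j => B1 (f j)) (fun j => U1 (f j)) (fun j => U1 (f j))).2.2.2.1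
    unfold UT BT
    rw [h1, h3, h2, ← Finset.sum_add_distrib]
    have h4 : ∀ j ∈ (Finset.univ : Finset (Fin n)),
        kprod (Function.update (fun j => U1 (f j)) j (U1 (f j) * B1 (f j))) +
          kprod (Function.update (fun j => U1 (f j)) j ((B1 (f j)).transpose * U1 (f j))) =
        kprod (fun j => U1 (f j)) := by
      intro j _
      rw [kprod_update_add, (hU' j).2.2.2]
      congr 1
      exact Function.update_eq_self j _
    rw [Finset.sum_congr rfl h4]
    rw [Finset.sum_const, Finset.card_univ, Fintype.card_fin, ← Nat.cast_smul_eq_nsmul ℚ]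
  · intro x
    unfold BT ksum bI
    rw [Matrix.of_apply]
    apply Finset.sum_congr rfl
    intro j _
    rw [if_pos (fun l _ => rfl)]
    exact (hB' j).2 (x j)
  · intro x y hxy h
    obtain ⟨j, h1, h2⟩ := ksum_ne _ _ _ h
    have h3 : x j ≠ y j := by
      intro h4
      apply hxy
      funext l
      by_cases hl : l = j
      · rw [hl]; exact h4
      · exact h1 l hl
    have h5 : y j < x j := by
      rcases lt_trichotomy (x j) (y j) with h6 | h6 | h6
      · exact absurd ((hB' j).1 _ _ h6) h2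
      · exact absurd h6 h3
      · exact h6
    have h7 := bI_sub f x y j h1
    have h8 : (0 : ℚ) < (f j).natDegree := by exact_mod_cast hpos j
    have h9 : ((y j : ℕ) : ℚ) - ((x j : ℕ) : ℚ) < 0 := by
      have : ((y j : ℕ) : ℚ) < ((x j : ℕ) : ℚ) := by exact_mod_cast h5
      linarith
    have h10 := div_neg_of_neg_of_pos h9 h8
    rw [← h7] at h10
    linarith
  · intro x y h
    obtain ⟨j, h1, h2⟩ := ksum_ne _ _ _ h
    have h7 := bI_sub f x y j h1
    have h8 : (0 : ℚ) < (f j).natDegree := by exact_mod_cast hpos j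
    have h9 : ((y j : ℕ) : ℚ) - ((x j : ℕ) : ℚ) < (f j).natDegree := by
      have h10 : (y j : ℕ) < (f j).natDegree := by
        have := (y j).isLt
        omega
      have h11 : ((y j : ℕ) : ℚ) < (f j).natDegree := by exact_mod_cast h10
      have h12 : (0 : ℚ) ≤ ((x j : ℕ) : ℚ) := Nat.cast_nonneg _
      linarith
    have h10 : (((y j : ℕ) : ℚ) - ((x j : ℕ) : ℚ)) / (f j).natDegree < 1 := by
      rw [div_lt_one h8]
      exact h9
    rw [← h7] at h10
    linarith
  · intro x y hxy z hz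
    apply hxy
    funext j
    have h1 := dvd_of_sum (fun j => (f j).natDegree) hpos hc
      (fun j => ((x j : ℕ) : ℤ) - ((y j : ℕ) : ℤ)) z (by
        rw [← hz]
        unfold bI
        rw [← Finset.sum_sub_distrib]
        apply Finset.sum_congr rfl
        intro l _
        push_cast
        ring) j
    have h2 := (x j).isLt
    have h3 := (y j).isLt
    have h4 := hpos j
    have h5 : ((x j : ℕ) : ℤ) - ((y j : ℕ) : ℤ) = 0 := by
      apply Int.eq_zero_of_abs_lt_dvd h1
      rw [abs_lt]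
      constructor <;> omega
    apply Fin.ext
    omega
  · intro hn x z hz
    have h1 := dvd_of_sum (fun j => (f j).natDegree) hpos hc
      (fun j => ((x j : ℕ) : ℤ) + 1) z (by
        rw [← hz]
        unfold bI
        apply Finset.sum_congr rfl
        intro l _
        push_cast
        rfl) ⟨0, hn⟩
    have h2 := (x ⟨0, hn⟩).isLt
    have h5 : ((x ⟨0, hn⟩ : ℕ) : ℤ) + 1 = 0 := by
      apply Int.eq_zero_of_abs_lt_dvd h1
      rw [abs_lt]
      constructor <;> omega
    omega

end Pool.Agent.EVD
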