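import Pool.Agent.EVD.Stmts

set_option autoImplicit false

open scoped BigOperators

namespace Pool.Agent.EVD

namespace OKB_

lemma cm_ksum {n : ℕ} {α : Fin n → Type} [∀ j, DecidableEq (α j)]
    (A : ∀ j, Matrix (α j) (α j) ℚ) : cm (ksum A) = ksum (fun j => cm (A j)) := by
  ext x y
  show (((∑ j, if (∀ l, l ≠ j → x l = y l) then A j (x j) (y j) else 0 : ℚ)) : ℂ) =
    ∑ j, if (∀ l, l ≠ j → x l = y l) then ((A j (x j) (y j) : ℚ) : ℂ) else 0
  rw [Rat.cast_sum]
  refine Finset.sum_congr rfl fun j _ => ?_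
  split_ifs
  · rfl
  · exact Rat.cast_zero

/-- The critical points of one polynomial. -/
noncomputable def Zs (f : Polynomial ℚ) : Finset ℂ :=
  ((Polynomial.derivative f).map (algebraMap ℚ ℂ)).roots.toFinset

lemma der_ne (f : Polynomial ℚ) (h2 : 2 ≤ f.natDegree) : Polynomial.derivative f ≠ 0 := by
  intro h
  have := Polynomial.natDegree_eq_zero_of_derivative_eq_zero h
  omega

lemma mem_Zs (f : Polynomial ℚ) (h2 : 2 ≤ f.natDegree) (z : ℂ) :
    z ∈ Zs f ↔ Polynomial.aeval z (Polynomial.derivative f) = 0 := by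
  unfold Zs
  rw [Multiset.mem_toFinset, Polynomial.mem_roots_map (der_ne f h2)]
  rfl

lemma card_Zs (f : Polynomial ℚ) : (Zs f).card ≤ f.natDegree - 1 := by
  unfold Zs
  refine le_trans (Multiset.toFinset_card_le _) ?_
  refine le_trans (Polynomial.card_roots' _) ?_
  refine le_trans Polynomial.natDegree_map_le ?_
  exact Polynomial.natDegree_derivative_le f

lemma crit_eq {n : ℕ} (f : Fin n → Polynomial ℚ) (h2 : ∀ j, 2 ≤ (f j).natDegree) :
    crit f = ((Fintype.piFinset fun j => Zs (f j)).image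
      (fun z : Fin n → ℂ => ∑ j, Polynomial.aeval (z j) (f j)) : Finset ℂ) := by
  ext v
  constructor
  · rintro ⟨z, hz, rfl⟩
    rw [Finset.mem_coe, Finset.mem_image]
    refine ⟨z, ?_, rfl⟩
    rw [Fintype.mem_piFinset]
    intro j
    rw [mem_Zs _ (h2 j)]
    exact hz j
  · intro hv
    rw [Finset.mem_coe, Finset.mem_image] at hv
    obtain ⟨z, hz, rfl⟩ := hv
    rw [Fintype.mem_piFinset] at hz
    refine ⟨z, fun j => ?_, rfl⟩
    have := hz j
    rwa [mem_Zs _ (h2 j)] at this

lemma card_facts {n : ℕ} (f : Fin n → Polynomial ℚ) (h2 : ∀ j, 2 ≤ (f j).natDegree)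
    (hc : (crit f).ncard = ∏ j, ((f j).natDegree - 1)) :
    (∀ j, (Zs (f j)).card = (f j).natDegree - 1) ∧
    Set.InjOn (fun z : Fin n → ℂ => ∑ j, Polynomial.aeval (z j) (f j))
      (Fintype.piFinset fun j => Zs (f j) : Finset (Fin n → ℂ)) := by
  rw [crit_eq f h2, Set.ncard_coe_finset] at hc
  have h1 := Finset.card_image_le (s := Fintype.piFinset fun j => Zs (f j))
    (f := fun z : Fin n → ℂ => ∑ j, Polynomial.aeval (z j) (f j))
  rw [hc, Fintype.card_piFinset] at h1
  have h3 : ∏ j, (Zs (f j)).card ≤ ∏ j, ((f j).natDegree - 1) :=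
    Finset.prod_le_prod' fun j _ => card_Zs (f j)
  have h4 : ∏ j, (Zs (f j)).card = ∏ j, ((f j).natDegree - 1) := le_antisymm h3 h1
  have hpos : 0 < ∏ j, (Zs (f j)).card := by
    rw [h4]
    apply Finset.prod_pos
    intro j _
    have := h2 j
    omega
  have h5 : ∀ j, (Zs (f j)).card = (f j).natDegree - 1 := by
    intro j
    by_contra hne
    have h6 : (Zs (f j)).card < (f j).natDegree - 1 := lt_of_le_of_ne (card_Zs (f j)) hne
    have h7 : ∏ j, (Zs (f j)).card < ∏ j, ((f j).natDegree - 1) := by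
      apply Finset.prod_lt_prod
      · intro i hi
        by_contra h0
        have h8 : (fun j => (Zs (f j)).card) i = 0 := by
          show (Zs (f i)).card = 0
          omega
        have h9 : ∏ j, (Zs (f j)).card = 0 :=
          Finset.prod_eq_zero (f := fun j => (Zs (f j)).card) hi h8
        omega
      · intro i _
        exact card_Zs (f i)
      · exact ⟨j, Finset.mem_univ j, h6⟩
    omega
  refine ⟨h5, ?_⟩
  rw [← Finset.card_image_iff, hc, Fintype.card_piFinset, h4]

end OKB_

open OKB_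

theorem okb_proof (hBtr : Stmt_Btr) (hEvo : Stmt_Evo) (hKsp : Stmt_Ksp) : Stmt_Okb := by
  intro n f hG _ hc
  have h2 : ∀ j, 2 ≤ (f j).natDegree := fun j => (hG j).two
  obtain ⟨hcard, hinj⟩ := card_facts f h2 hc
  -- enumeration of the critical points
  let e : ∀ j, (Zs (f j)) ≃ Fin ((f j).natDegree - 1) := fun j =>
    (Zs (f j)).equivFinOfCardEq (hcard j)
  let ζ : ∀ j, Fin ((f j).natDegree - 1) → ℂ := fun j k => ((e j).symm k : ℂ)
  have hζmem : ∀ j k, ζ j k ∈ Zs (f j) := fun j k => ((e j).symm k).2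
  have hζinj : ∀ j, Function.Injective (ζ j) := by
    intro j a b hab
    exact (e j).symm.injective (Subtype.ext hab)
  have hζsurj : ∀ j, ∀ z ∈ Zs (f j), ∃ k, ζ j k = z := by
    intro j z hz
    refine ⟨e j ⟨z, hz⟩, ?_⟩
    show (((e j).symm (e j ⟨z, hz⟩) : Zs (f j)) : ℂ) = z
    rw [Equiv.symm_apply_apply]
  have hζroot : ∀ j k, Polynomial.aeval (ζ j k) (Polynomial.derivative (f j)) = 0 := by
    intro j k
    rw [← mem_Zs _ (h2 j)]
    exact hζmem j k
  let ev : Ix f → ℂ := fun x => ∑ j, Polynomial.aeval (ζ j (x j)) (f j)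
  have hevinj : Function.Injective ev := by
    intro x y hxy
    have h3 := hinj (x₁ := fun j => ζ j (x j)) (x₂ := fun j => ζ j (y j))
      (by
        rw [Finset.mem_coe, Fintype.mem_piFinset]
        exact fun j => hζmem j _)
      (by
        rw [Finset.mem_coe, Fintype.mem_piFinset]
        exact fun j => hζmem j _) hxy
    funext j
    exact hζinj j (congrFun h3 j)
  have hevrange : Set.range ev = crit f := by
    rw [crit_eq f h2]
    ext v
    rw [Finset.mem_coe, Finset.mem_image]
    constructor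
    · rintro ⟨x, rfl⟩
      refine ⟨fun j => ζ j (x j), ?_, rfl⟩
      rw [Fintype.mem_piFinset]
      exact fun j => hζmem j _
    · rintro ⟨z, hz, rfl⟩
      rw [Fintype.mem_piFinset] at hz
      choose x hx using fun j => hζsurj j (z j) (hz j)
      refine ⟨x, ?_⟩
      show ∑ j, Polynomial.aeval (ζ j (x j)) (f j) = ∑ j, Polynomial.aeval (z j) (f j)
      refine Finset.sum_congr rfl fun j _ => ?_
      rw [hx j]
  -- the eigenvectors
  let V : ∀ j, Matrix (Fin ((f j).natDegree - 1)) (Fin ((f j).natDegree - 1)) ℂ := fun j =>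
    Matrix.of fun i k => ζ j k ^ (i : ℕ)
  have hVdet : ∀ j, (V j).det ≠ 0 := by
    intro j
    have h3 : V j = (Matrix.vandermonde (ζ j)).transpose := by
      ext i k
      rfl
    rw [h3, Matrix.det_transpose]
    exact Matrix.det_vandermonde_ne_zero_iff.2 (hζinj j)
  have hAV : ∀ j, cm (A1 (f j)) * V j =
      V j * Matrix.diagonal (fun k => Polynomial.aeval (ζ j k) (f j)) := by
    intro j
    ext i k
    rw [Matrix.mul_diagonal, Matrix.mul_apply]
    have := hEvo (f j) (hG j).mon (h2 j) (ζ j k) (hζroot j k) i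
    show ∑ l, ((A1 (f j) i l : ℚ) : ℂ) * ζ j k ^ (l : ℕ) = ζ j k ^ (i : ℕ) * _
    rw [this, mul_comm]
  let P : Matrix (Ix f) (Ix f) ℂ := kprod V
  have hK := hKsp n (fun j => Fin ((f j).natDegree - 1)) ℂ
  have hPdet : P.det ≠ 0 := by
    have h3 : P * kprod (fun j => (V j)⁻¹) = 1 := by
      have h4 := (hK (fun j => 0) V (fun j => (V j)⁻¹) (fun j _ => 0)).2.2.2.2.1
      have h5 := (hK (fun j => 0) V (fun j => (V j)⁻¹) (fun j _ => 0)).2.2.2.2.2.1
      show kprod V * kprod (fun j => (V j)⁻¹) = 1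
      rw [h4, ← h5]
      congr 1
      funext j
      exact Matrix.mul_nonsing_inv _ (isUnit_iff_ne_zero.2 (hVdet j))
    intro h0
    have h4 := congrArg Matrix.det h3
    rw [Matrix.det_mul, h0, zero_mul, Matrix.det_one] at h4
    exact zero_ne_one h4
  have hAP : cm (AT f) * P = P * Matrix.diagonal ev := by
    have h3 := (hK (fun j => cm (A1 (f j))) V V (fun j _ => 0)).1
    have h4 := (hK (fun j => Matrix.diagonal (fun k => Polynomial.aeval (ζ j k) (f j))) V V
      (fun j k => Polynomial.aeval (ζ j k) (f j))).2.1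
    have h5 := (hK (fun j => Matrix.diagonal (fun k => Polynomial.aeval (ζ j k) (f j))) V V
      (fun j k => Polynomial.aeval (ζ j k) (f j))).2.2.2.2.2.2
    have h6 : Matrix.diagonal ev = ksum (fun j => Matrix.diagonal
        (fun k : Fin ((f j).natDegree - 1) => Polynomial.aeval (ζ j k) (f j))) := h5.symm
    show cm (AT f) * kprod V = kprod V * Matrix.diagonal ev
    rw [h6, h4]
    have h7 : cm (AT f) = ksum (fun j => cm (A1 (f j))) := cm_ksum _
    rw [h7, h3]
    refine Finset.sum_congr rfl fun j _ => ?_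
    rw [hAV j]
  refine ⟨⟨ev, P, hevinj, hPdet, hAP, hevrange⟩, ?_⟩
  -- the commutant
  intro Z hZA hZB
  have hPu : IsUnit P.det := isUnit_iff_ne_zero.2 hPdet
  set D : Matrix (Ix f) (Ix f) ℂ := P⁻¹ * Z * P with hD
  have hAeq : cm (AT f) = P * Matrix.diagonal ev * P⁻¹ := by
    rw [← hAP, mul_assoc, Matrix.mul_nonsing_inv _ hPu, mul_one]
  have hDcomm : D * Matrix.diagonal ev = Matrix.diagonal ev * D := by
    have h3 : P⁻¹ * (Z * cm (AT f)) * P = P⁻¹ * (cm (AT f) * Z) * P := by rw [hZA]
    have h4 : P⁻¹ * (Z * cm (AT f)) * P = D * Matrix.diagonal ev := by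
      rw [hAeq, hD]
      simp only [mul_assoc]
      rw [Matrix.nonsing_inv_mul _ hPu, mul_one]
    have h5 : P⁻¹ * (cm (AT f) * Z) * P = Matrix.diagonal ev * D := by
      rw [hAeq, hD]
      simp only [← mul_assoc]
      rw [Matrix.nonsing_inv_mul _ hPu, one_mul]
    rw [← h4, ← h5, h3]
  have hDdiag : ∀ x y, x ≠ y → D x y = 0 := by
    intro x y hxy
    have h3 := congrFun (congrFun hDcomm x) y
    rw [Matrix.mul_diagonal, Matrix.diagonal_mul] at h3
    have h4 : (ev y - ev x) * D x y = 0 := by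
      rw [sub_mul, mul_comm (ev y), h3, sub_self]
    have h5 : ev y - ev x ≠ 0 := by
      intro h
      exact hxy (hevinj (sub_eq_zero.1 h)).symm
    exact (mul_eq_zero.1 h4).resolve_left h5
  have hZP : Z * P = P * D := by
    rw [hD, ← mul_assoc, ← mul_assoc, Matrix.mul_nonsing_inv _ hPu, one_mul]
  -- the base index
  let o : Ix f := fun j => ⟨0, by have := h2 j; omega⟩
  have hbo : ∀ x : Ix f, x ≠ o → bI f o < bI f x := by
    intro x hx
    obtain ⟨j, hj⟩ := Function.ne_iff.1 hx
    have hposp : ∀ j, (0 : ℚ) < (f j).natDegree := by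
      intro j
      have := h2 j
      have h3 : 0 < (f j).natDegree := by omega
      exact_mod_cast h3
    apply Finset.sum_lt_sum
    · intro i _
      apply div_le_div_of_nonneg_right _ (hposp i).le
      show ((0 : ℕ) : ℚ) + 1 ≤ ((x i : ℕ) : ℚ) + 1
      have : (0 : ℚ) ≤ ((x i : ℕ) : ℚ) := Nat.cast_nonneg _
      push_cast
      linarith
    · refine ⟨j, Finset.mem_univ j, ?_⟩
      apply div_lt_div_of_pos_right _ (hposp j)
      show ((0 : ℕ) : ℚ) + 1 < ((x j : ℕ) : ℚ) + 1
      have h3 : (x j : ℕ) ≠ 0 := by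
        intro h
        exact hj (Fin.ext h)
      have h4 : (0 : ℚ) < ((x j : ℕ) : ℚ) := by exact_mod_cast Nat.pos_of_ne_zero h3
      push_cast
      linarith
  have hBtri : ∀ x y : Ix f, x ≠ y → BT f x y ≠ 0 → bI f y < bI f x := by
    intro x y hxy hB
    have hB' : ∑ j, (if (∀ l, l ≠ j → x l = y l) then B1 (f j) (x j) (y j) else 0) ≠ 0 := hB
    obtain ⟨j, _, hj⟩ := Finset.exists_ne_zero_of_sum_ne_zero hB'
    have hl : ∀ l, l ≠ j → x l = y l := by
      by_contra h
      rw [if_neg h] at hj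
      exact hj rfl
    rw [if_pos hl] at hj
    have hne : x j ≠ y j := by
      intro h
      apply hxy
      funext l
      by_cases hlj : l = j
      · rw [hlj, h]
      · exact hl l hlj
    have hlt : y j < x j := by
      rcases lt_trichotomy (x j) (y j) with h | h | h
      · exact absurd ((hBtr (f j) (hG j).mon (h2 j)).1 _ _ h) hj
      · exact absurd h hne
      · exact h
    have hposp : ∀ j, (0 : ℚ) < (f j).natDegree := by
      intro j
      have := h2 j
      have h3 : 0 < (f j).natDegree := by omega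
      exact_mod_cast h3
    apply Finset.sum_lt_sum
    · intro i _
      apply div_le_div_of_nonneg_right _ (hposp i).le
      by_cases hij : i = j
      · subst hij
        have h3 : ((y i : ℕ) : ℚ) ≤ ((x i : ℕ) : ℚ) := by exact_mod_cast (Fin.lt_def.1 hlt).le
        linarith
      · rw [hl i hij]
    · refine ⟨j, Finset.mem_univ j, ?_⟩
      apply div_lt_div_of_pos_right _ (hposp j)
      have h3 : ((y j : ℕ) : ℚ) < ((x j : ℕ) : ℚ) := by exact_mod_cast Fin.lt_def.1 hlt
      linarith
  have hBdia : ∀ x : Ix f, BT f x x = bI f x := by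
    intro x
    show ∑ j, (if (∀ l, l ≠ j → x l = x l) then B1 (f j) (x j) (x j) else 0) = _
    refine Finset.sum_congr rfl fun j _ => ?_
    rw [if_pos (fun l _ => rfl)]
    exact (hBtr (f j) (hG j).mon (h2 j)).2 (x j)
  have hBo : ∀ y : Ix f, y ≠ o → BT f o y = 0 := by
    intro y hy
    by_contra h
    have h3 := hBtri o y hy.symm h
    have h4 := hbo y hy
    exact absurd h3 (not_lt.2 h4.le)
  -- the row of `Z`
  have hrow : ∀ y, ∑ x, Z o x * cm (BT f) x y = (bI f o : ℂ) * Z o y := by
    intro y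
    have h3 := congrFun (congrFun hZB o) y
    rw [Matrix.mul_apply, Matrix.mul_apply] at h3
    rw [h3, Finset.sum_eq_single o]
    · show ((BT f o o : ℚ) : ℂ) * Z o y = _
      rw [hBdia]
    · intro b _ hb
      show ((BT f o b : ℚ) : ℂ) * Z b y = 0
      rw [hBo b hb, Rat.cast_zero, zero_mul]
    · intro h
      exact absurd (Finset.mem_univ o) h
  have hrow0 : ∀ y, y ≠ o → Z o y = 0 := by
    by_contra hcon
    push Not at hcon
    obtain ⟨y0, hy0, hZy0⟩ := hcon
    obtain ⟨y, hy, hmax⟩ := Finset.exists_max_image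
      (Finset.univ.filter fun y : Ix f => Z o y ≠ 0) (fun y => bI f y)
      ⟨y0, Finset.mem_filter.2 ⟨Finset.mem_univ _, hZy0⟩⟩
    rw [Finset.mem_filter] at hy
    have h3 := hrow y
    rw [Finset.sum_eq_single y] at h3
    · have h4 : ((bI f y : ℚ) : ℂ) = ((bI f o : ℚ) : ℂ) := by
        have h5 : Z o y * ((BT f y y : ℚ) : ℂ) = (bI f o : ℂ) * Z o y := h3
        rw [hBdia, mul_comm] at h5
        exact mul_right_cancel₀ hy.2 h5
      have h5 : bI f y = bI f o := by exact_mod_cast h4
      have h6 := hmax y0 (Finset.mem_filter.2 ⟨Finset.mem_univ _, hZy0⟩)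
      have h7 := hbo y0 hy0
      rw [h5] at h6
      exact absurd h7 (not_lt.2 h6)
    · intro x _ hxy
      by_cases hZx : Z o x = 0
      · rw [hZx, zero_mul]
      · have h6 := hmax x (Finset.mem_filter.2 ⟨Finset.mem_univ _, hZx⟩)
        have h7 : BT f x y = 0 := by
          by_contra h
          exact absurd (hBtri x y hxy h) (not_lt.2 h6)
        show Z o x * ((BT f x y : ℚ) : ℂ) = 0
        rw [h7, Rat.cast_zero, mul_zero]
    · intro h
      exact absurd (Finset.mem_univ y) h
  have hPo : ∀ y, P o y = 1 := by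
    intro y
    show ∏ j, ζ j (y j) ^ (0 : ℕ) = 1
    simp
  have hDyy : ∀ y, D y y = Z o o := by
    intro y
    have h3 := congrFun (congrFun hZP o) y
    rw [Matrix.mul_apply, Matrix.mul_apply, Finset.sum_eq_single o, Finset.sum_eq_single y] at h3
    · rw [hPo, one_mul, mul_one] at h3
      exact h3.symm
    · intro x _ hxy
      rw [hDdiag x y hxy, mul_zero]
    · intro h
      exact absurd (Finset.mem_univ y) h
    · intro x _ hx
      rw [hrow0 x hx, zero_mul]
    · intro h
      exact absurd (Finset.mem_univ o) h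
  have hDc : D = (Z o o) • (1 : Matrix (Ix f) (Ix f) ℂ) := by
    ext x y
    by_cases hxy : x = y
    · subst hxy
      rw [hDyy, Matrix.smul_apply, Matrix.one_apply_eq, smul_eq_mul, mul_one]
    · rw [hDdiag x y hxy, Matrix.smul_apply, Matrix.one_apply_ne hxy, smul_zero]
  refine ⟨Z o o, ?_⟩
  have h3 : Z = P * D * P⁻¹ := by
    rw [← hZP, mul_assoc, Matrix.mul_nonsing_inv _ hPu, mul_one]
  generalize Z o o = c at hDc
  rw [h3, hDc, mul_smul_comm, mul_one, smul_mul_assoc, Matrix.mul_nonsing_inv _ hPu]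

end Pool.Agent.EVD
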