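import Pool.Agent.EVD.Stmts

set_option autoImplicit false

/-!
# EVD, module OKT: the system attached to `f`
-/

open scoped BigOperators

namespace Pool.Agent.EVD

namespace OKT_

theorem three_le (a b c : ℕ) (ha : 1 ≤ a) (hb : 1 ≤ b) (hc : 1 ≤ c) (hab : a ≠ b) (hac : a ≠ c)
    (hbc : b ≠ c) : 3 ≤ a * b * c := by
  by_contra h
  have h1 : a ≤ a * b * c := by
    calc a = a * 1 * 1 := by ring
      _ ≤ a * b * c := by gcongr
  have h2 : b ≤ a * b * c := by
    calc b = 1 * b * 1 := by ring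
      _ ≤ a * b * c := by gcongr
  have h3 : c ≤ a * b * c := by
    calc c = 1 * 1 * c := by ring
      _ ≤ a * b * c := by gcongr
  omega

theorem card_ge {k : ℕ} (f : Fin (2 * k + 1) → Polynomial ℚ) (hk : 1 ≤ k) (hf : Adm f) :
    3 ≤ Fintype.card (Ix f) := by
  have hc : Fintype.card (Ix f) = ∏ j, ((f j).natDegree - 1) := by
    rw [Fintype.card_pi]
    simp
  rw [hc]
  let a : Fin (2 * k + 1) := ⟨0, by omega⟩
  let b : Fin (2 * k + 1) := ⟨1, by omega⟩
  let c : Fin (2 * k + 1) := ⟨2, by omega⟩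
  have hab : a ≠ b := by intro h; have := congrArg Fin.val h; simp [a, b] at this
  have hac : a ≠ c := by intro h; have := congrArg Fin.val h; simp [a, c] at this
  have hbc : b ≠ c := by intro h; have := congrArg Fin.val h; simp [b, c] at this
  have key : ∀ i j, i ≠ j → (f i).natDegree - 1 ≠ (f j).natDegree - 1 := by
    intro i j hij h
    have h1 := hf.two i
    have h2 := hf.two j
    have h3 : (f i).natDegree = (f j).natDegree := by omega
    have h4 := hf.cop i j hij
    rw [h3, Nat.coprime_self] at h4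
    omega
  have h1 : ∀ j, 1 ≤ (f j).natDegree - 1 := fun j => by have := hf.two j; omega
  have hsub : ∏ j ∈ ({a, b, c} : Finset (Fin (2 * k + 1))), ((f j).natDegree - 1) ≤
      ∏ j, ((f j).natDegree - 1) :=
    Finset.prod_le_prod_of_subset_of_one_le' (Finset.subset_univ _) (fun j _ _ => h1 j)
  have hprod : ∏ j ∈ ({a, b, c} : Finset (Fin (2 * k + 1))), ((f j).natDegree - 1) =
      ((f a).natDegree - 1) * ((f b).natDegree - 1) * ((f c).natDegree - 1) := by
    rw [Finset.prod_insert (by simp [hab, hac]), Finset.prod_insert (by simp [hbc]),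
      Finset.prod_singleton, mul_assoc]
  rw [hprod] at hsub
  exact le_trans (three_le _ _ _ (h1 a) (h1 b) (h1 c) (key a b hab) (key a c hac) (key b c hbc))
    hsub

/-- the smallest index -/
def i0 {n : ℕ} (f : Fin n → Polynomial ℚ) (h : ∀ j, 2 ≤ (f j).natDegree) : Ix f :=
  fun j => ⟨0, by have := h j; omega⟩

theorem bI_i0 {n : ℕ} (f : Fin n → Polynomial ℚ) (h : ∀ j, 2 ≤ (f j).natDegree) :
    bI f (i0 f h) = ∑ j, 1 / ((f j).natDegree : ℚ) := by
  unfold bI i0
  simp

theorem bI_min {n : ℕ} (f : Fin n → Polynomial ℚ) (h : ∀ j, 2 ≤ (f j).natDegree) (x : Ix f) :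
    bI f (i0 f h) ≤ bI f x := by
  rw [bI_i0]
  unfold bI
  apply Finset.sum_le_sum
  intro j _
  have h1 : (0 : ℚ) < (f j).natDegree := by
    have := h j
    exact_mod_cast (by omega : 0 < (f j).natDegree)
  apply div_le_div_of_nonneg_right _ h1.le
  have : (0 : ℚ) ≤ ((x j : ℕ) : ℚ) := Nat.cast_nonneg _
  linarith

/-- the complement -/
def cpl {n : ℕ} (f : Fin n → Polynomial ℚ) (x : Ix f) : Ix f :=
  fun j => ⟨(f j).natDegree - 2 - (x j : ℕ), by have := (x j).isLt; omega⟩

theorem bI_cpl {n : ℕ} (f : Fin n → Polynomial ℚ) (x : Ix f) :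
    bI f x + bI f (cpl f x) = n := by
  unfold bI
  rw [← Finset.sum_add_distrib]
  have : ∀ j ∈ (Finset.univ : Finset (Fin n)), ((x j : ℕ) + 1 : ℚ) / (f j).natDegree +
      ((cpl f x j : ℕ) + 1 : ℚ) / (f j).natDegree = 1 := by
    intro j _
    have hlt := (x j).isLt
    have h0 : ((f j).natDegree : ℚ) ≠ 0 := by
      have : (f j).natDegree ≠ 0 := by omega
      exact_mod_cast this
    rw [← add_div, div_eq_one_iff_eq h0]
    have : (x j : ℕ) + 1 + ((cpl f x j : ℕ) + 1) = (f j).natDegree := by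
      simp only [cpl]
      omega
    exact_mod_cast this
  rw [Finset.sum_congr rfl this]
  simp

theorem det_shift {ι : Type} [Fintype ι] [DecidableEq ι] (A P : Matrix ι ι ℂ) (ev : ι → ℂ)
    (hP : P.det ≠ 0) (h : A * P = P * Matrix.diagonal ev) (z : ℂ) :
    (z • (1 : Matrix ι ι ℂ) + A).det ≠ 0 ↔ -z ∉ Set.range ev := by
  have h1 : (z • (1 : Matrix ι ι ℂ) + A) * P = P * Matrix.diagonal fun i => z + ev i := by
    have h2 : (Matrix.diagonal fun i => z + ev i) =
        z • (1 : Matrix ι ι ℂ) + Matrix.diagonal ev := by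
      rw [← Matrix.diagonal_add, Matrix.smul_one_eq_diagonal]
    rw [h2, Matrix.add_mul, Matrix.mul_add, h]
    simp
  have h3 : (z • (1 : Matrix ι ι ℂ) + A).det = ∏ i, (z + ev i) := by
    have h4 := congrArg Matrix.det h1
    rw [Matrix.det_mul, Matrix.det_mul, Matrix.det_diagonal, mul_comm] at h4
    exact mul_left_cancel₀ hP h4
  rw [h3, Finset.prod_ne_zero_iff]
  constructor
  · rintro h5 ⟨i, hi⟩
    exact h5 i (Finset.mem_univ i) (by rw [hi]; ring)
  · intro h5 i _ h6
    exact h5 ⟨i, by linear_combination h6⟩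

end OKT_

open OKT_ in
theorem okt_proof (hA : Stmt_Oka) (hB : Stmt_Okb) : Stmt_Okt := by
  intro k f hk hf
  have hG : ∀ j, G1 (f j) := fun j => ⟨hf.mon j, hf.two j, hf.sub j⟩
  obtain ⟨a1, a2, a3, a4, a5, a6, a7, a8, a9⟩ := hA (2 * k + 1) f hG hf.cop
  obtain ⟨⟨ev, P, e1, e2, e3, e4⟩, hc⟩ := hB (2 * k + 1) f hG hf.cop hf.car
  refine ⟨⟨i0 f hf.two, ?_⟩, ?_⟩
  · refine
      { two := by omega
        three := card_ge f hk hf
        Usym := a1
        Udet := a2
        UA := a3
        UB := ?_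
        Bdia := a5
        Btri := a6
        Awt := a7
        bdif := a8
        bint := a9 (by omega)
        bsym := ?_
        b0 := ?_
        B0 := ?_
        eig := ⟨ev, P, e1, e2, e3⟩
        comm := hc }
    · rw [a4]
      congr 1
      push_cast
      ring
    · intro x
      refine ⟨cpl f x, ?_⟩
      rw [bI_cpl]
      push_cast
      ring
    · rw [bI_i0]
      exact hf.sum
    · intro y hy
      by_contra h
      have := a6 _ _ (Ne.symm hy) h
      exact absurd this (not_lt.mpr (bI_min f hf.two y))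
  · intro z
    rw [← e4]
    exact det_shift _ P ev e2 e3 z

end Pool.Agent.EVD
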