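import Pool.Agent.EVD.Stmts

/-!
# EVD: module ORT
-/

set_option autoImplicit false

open scoped BigOperators
open Matrix

namespace Pool.Agent.EVD

theorem ort_proof : Stmt_Ort := by
  intro ι _ _ Q h hQ
  have happ : ∀ x y, Matrix.toBilin' Q x y = x ⬝ᵥ Q.mulVec y := fun x y =>
    Matrix.toBilin'_apply' Q x y
  have hsym : LinearMap.IsSymm (Matrix.toBilin' Q) := by
    refine ⟨fun x y => ?_⟩
    rw [RingHom.id_apply, happ, happ, Matrix.dotProduct_mulVec, ← Matrix.mulVec_transpose, h,
      dotProduct_comm]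
  obtain ⟨v, hv⟩ := LinearMap.BilinForm.exists_orthogonal_basis hsym
  have hne : ∀ i, Matrix.toBilin' Q (v i) (v i) ≠ 0 := by
    intro i h0
    have h1 : Matrix.toBilin' Q (v i) = 0 := by
      apply v.ext
      intro j
      by_cases hij : i = j
      · rw [← hij, h0]
        rfl
      · exact hv hij
    have h2 : (v i) ᵥ* Q = 0 := by
      ext j
      have := congrArg (fun f => f (Pi.single j 1)) h1
      simp only [happ, LinearMap.zero_apply] at this
      rw [Matrix.dotProduct_mulVec] at this
      simpa using this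
    exact v.ne_zero i (Matrix.eq_zero_of_vecMul_eq_zero hQ h2)
  choose r hr using fun i => IsAlgClosed.exists_pow_nat_eq (Matrix.toBilin' Q (v i) (v i))
    (n := 2) (by norm_num)
  have hr0 : ∀ i, r i ≠ 0 := by
    intro i h0
    apply hne i
    rw [← hr i, h0]
    norm_num
  let σ : ι ≃ Fin (Module.finrank ℂ (ι → ℂ)) := Fintype.equivFinOfCardEq (by simp)
  let M : Matrix ι ι ℂ := Matrix.of fun j i => (r (σ i))⁻¹ * v (σ i) j
  have hM : M.transpose * Q * M = 1 := by
    ext i k
    have e1 : (M.transpose * Q * M) i k =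
        (fun j => M j i) ⬝ᵥ Q.mulVec (fun l => M l k) := by
      rw [Matrix.mul_assoc]
      rfl
    have e2 : ∀ i, (fun j => M j i) = (r (σ i))⁻¹ • v (σ i) := by
      intro i
      rfl
    rw [e1, e2, e2, Matrix.mulVec_smul, smul_dotProduct, dotProduct_smul, ← happ, Matrix.one_apply,
      smul_eq_mul, smul_eq_mul]
    by_cases hik : i = k
    · subst hik
      rw [if_pos rfl, ← hr]
      have := hr0 (σ i)
      field_simp
    · rw [if_neg hik]
      have h3 : Matrix.toBilin' Q (v (σ i)) (v (σ k)) = 0 :=
        hv (fun hh => hik (σ.injective hh))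
      rw [h3, mul_zero, mul_zero]
  refine ⟨M, ?_, hM⟩
  intro h0
  have := congrArg Matrix.det hM
  rw [Matrix.det_mul, h0, mul_zero, Matrix.det_one] at this
  exact zero_ne_one this

end Pool.Agent.EVD
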