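import Pool.Agent.EVD.Stmts

/-!
# EVD: module PAR
-/

set_option autoImplicit false

open scoped BigOperators
open Matrix

namespace Pool.Agent.EVD

namespace PAR_

variable {ι : Type} [Fintype ι] [DecidableEq ι]

/-- the bilinear form -/
noncomputable def B (Q : Matrix ι ι ℂ) (x y : ι → ℂ) : ℂ := dotProduct x (Q.mulVec y)

theorem B_sym {Q : Matrix ι ι ℂ} (h : Q.transpose = Q) (x y : ι → ℂ) : B Q x y = B Q y x := by
  unfold B
  rw [Matrix.dotProduct_mulVec, ← Matrix.mulVec_transpose, h, dotProduct_comm]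

theorem B_add_left (Q : Matrix ι ι ℂ) (x y z : ι → ℂ) : B Q (x + y) z = B Q x z + B Q y z := by
  unfold B
  rw [add_dotProduct]

theorem B_sub_left (Q : Matrix ι ι ℂ) (x y z : ι → ℂ) : B Q (x - y) z = B Q x z - B Q y z := by
  unfold B
  rw [sub_dotProduct]

theorem B_smul_left (Q : Matrix ι ι ℂ) (c : ℂ) (x z : ι → ℂ) : B Q (c • x) z = c * B Q x z := by
  unfold B
  rw [smul_dotProduct, smul_eq_mul]

theorem B_add_right (Q : Matrix ι ι ℂ) (x y z : ι → ℂ) : B Q x (y + z) = B Q x y + B Q x z := by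
  unfold B
  rw [Matrix.mulVec_add, dotProduct_add]

theorem B_sub_right (Q : Matrix ι ι ℂ) (x y z : ι → ℂ) : B Q x (y - z) = B Q x y - B Q x z := by
  unfold B
  rw [Matrix.mulVec_sub, dotProduct_sub]

theorem B_smul_right (Q : Matrix ι ι ℂ) (c : ℂ) (x z : ι → ℂ) : B Q x (c • z) = c * B Q x z := by
  unfold B
  rw [Matrix.mulVec_smul, dotProduct_smul, smul_eq_mul]

theorem B_neg_right (Q : Matrix ι ι ℂ) (x y : ι → ℂ) : B Q x (-y) = -B Q x y := by
  unfold B
  rw [Matrix.mulVec_neg, dotProduct_neg]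

theorem refl_mulVec {Q : Matrix ι ι ℂ} (h : Q.transpose = Q) (u x : ι → ℂ) :
    (refl Q u).mulVec x = x - ((2 / B Q u u) * B Q u x) • u := by
  have e : (pr Q u).mulVec x = (B Q u x) • u := by
    rw [pr, Matrix.vecMulVec_mulVec]
    have : Q.mulVec u ⬝ᵥ x = B Q u x := by
      rw [B_sym h u x, B, dotProduct_comm]
    rw [this]
    ext i
    simp [mul_comm]
  rw [refl, Matrix.sub_mulVec, Matrix.one_mulVec, Matrix.smul_mulVec, e, smul_smul]
  rfl

theorem refl_B {Q : Matrix ι ι ℂ} (h : Q.transpose = Q) {u : ι → ℂ} (hu : B Q u u ≠ 0)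
    (x y : ι → ℂ) : B Q ((refl Q u).mulVec x) ((refl Q u).mulVec y) = B Q x y := by
  rw [refl_mulVec h, refl_mulVec h, B_sub_left, B_sub_right, B_sub_right, B_smul_left,
    B_smul_right, B_smul_right, B_smul_left, B_sym h x u]
  field_simp
  ring

theorem ext_mulVec {a b : Matrix ι ι ℂ} (h : ∀ x, a.mulVec x = b.mulVec x) : a = b := by
  apply Matrix.ext_of_mulVec_single
  intro i
  exact h _

theorem refl_sq {Q : Matrix ι ι ℂ} (h : Q.transpose = Q) {u : ι → ℂ} (hu : B Q u u ≠ 0) :
    refl Q u * refl Q u = 1 := by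
  apply ext_mulVec
  intro x
  rw [← Matrix.mulVec_mulVec, refl_mulVec h, refl_mulVec h, B_sub_right, B_smul_right,
    Matrix.one_mulVec]
  have e : 2 / B Q u u * B Q u x * B Q u u = 2 * B Q u x := by
    field_simp
  rw [e, sub_sub, ← add_smul]
  have e2 : 2 / B Q u u * B Q u x + 2 / B Q u u * (B Q u x - 2 * B Q u x) = 0 := by ring
  rw [e2, zero_smul, sub_zero]

theorem refl_det {Q : Matrix ι ι ℂ} (h : Q.transpose = Q) {u : ι → ℂ} (hu : B Q u u ≠ 0) :
    (refl Q u).det = -1 := by
  have e : refl Q u = 1 + Matrix.replicateCol Unit ((-(2 / B Q u u)) • u) *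
      Matrix.replicateRow Unit (Q.mulVec u) := by
    ext i j
    simp only [refl, pr, Matrix.sub_apply, Matrix.smul_apply, Matrix.vecMulVec_apply,
      Matrix.add_apply, Matrix.mul_apply, Matrix.replicateCol_apply, Matrix.replicateRow_apply,
      Finset.univ_unique, Finset.sum_singleton, Pi.smul_apply, smul_eq_mul]
    show _ = _ + -(2 / dotProduct u (Q.mulVec u)) * u i * Q.mulVec u j
    ring
  rw [e, Matrix.det_one_add_replicateCol_mul_replicateRow, dotProduct_smul, smul_eq_mul]
  have e2 : Q.mulVec u ⬝ᵥ u = B Q u u := by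
    rw [dotProduct_comm]; rfl
  rw [e2]
  field_simp
  ring

/-- product of reflections -/
noncomputable def P (Q : Matrix ι ι ℂ) (L : List (ι → ℂ)) : Matrix ι ι ℂ := (L.map (refl Q)).prod

theorem P_cons (Q : Matrix ι ι ℂ) (u : ι → ℂ) (L : List (ι → ℂ)) :
    P Q (u :: L) = refl Q u * P Q L := by
  simp [P]

theorem P_append (Q : Matrix ι ι ℂ) (L L' : List (ι → ℂ)) :
    P Q (L ++ L') = P Q L * P Q L' := by
  simp [P]

theorem P_det {Q : Matrix ι ι ℂ} (h : Q.transpose = Q) (L : List (ι → ℂ))
    (hL : ∀ u ∈ L, B Q u u ≠ 0) : (P Q L).det = (-1) ^ L.length := by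
  induction L with
  | nil => simp [P]
  | cons u L ih =>
    rw [P_cons, Matrix.det_mul, refl_det h (hL u (by simp)), ih (fun v hv => hL v (by simp [hv])),
      List.length_cons, pow_succ]
    ring

theorem P_reverse {Q : Matrix ι ι ℂ} (h : Q.transpose = Q) (L : List (ι → ℂ))
    (hL : ∀ u ∈ L, B Q u u ≠ 0) : P Q L.reverse * P Q L = 1 := by
  induction L with
  | nil => simp [P]
  | cons u L ih =>
    have e : P Q [u] = refl Q u := by simp [P]
    rw [List.reverse_cons, P_append, e, P_cons, mul_assoc, ← mul_assoc (refl Q u),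
      refl_sq h (hL u (by simp)), one_mul, ih (fun v hv => hL v (by simp [hv]))]

theorem P_replicate {Q : Matrix ι ι ℂ} (h : Q.transpose = Q) {u : ι → ℂ} (hu : B Q u u ≠ 0)
    (k : ℕ) : P Q (List.replicate (2 * k) u) = 1 := by
  induction k with
  | zero => simp [P]
  | succ k ih =>
    rw [show 2 * (k + 1) = 2 * k + 1 + 1 from by ring, List.replicate_succ, List.replicate_succ,
      P_cons, P_cons, ih, mul_one, refl_sq h hu]

theorem P_B {Q : Matrix ι ι ℂ} (h : Q.transpose = Q) (L : List (ι → ℂ))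
    (hL : ∀ u ∈ L, B Q u u ≠ 0) (x y : ι → ℂ) :
    B Q ((P Q L).mulVec x) ((P Q L).mulVec y) = B Q x y := by
  induction L with
  | nil => simp [P]
  | cons u L ih =>
    rw [P_cons, ← Matrix.mulVec_mulVec, ← Matrix.mulVec_mulVec, refl_B h (hL u (by simp)),
      ih (fun v hv => hL v (by simp [hv]))]

theorem refl_fix {Q : Matrix ι ι ℂ} (h : Q.transpose = Q) {u x : ι → ℂ} (hx : B Q u x = 0) :
    (refl Q u).mulVec x = x := by
  rw [refl_mulVec h, hx, mul_zero, zero_smul, sub_zero]

/-- one or two reflections move `w` to `v` -/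
theorem move {Q : Matrix ι ι ℂ} (h : Q.transpose = Q) {v w : ι → ℂ} (hv : B Q v v = 1)
    (hw : B Q w w = 1) : ∃ L : List (ι → ℂ), (∀ u ∈ L, B Q u u ≠ 0) ∧ L.length ≤ 2 ∧
      (P Q L).mulVec w = v ∧ ∀ x, B Q v x = 0 → B Q w x = 0 → (P Q L).mulVec x = x := by
  have hs : B Q w v = B Q v w := B_sym h w v
  by_cases hp : B Q (w - v) (w - v) = 0
  · have hp' : 2 - 2 * B Q v w = 0 := by
      rw [B_sub_left, B_sub_right, B_sub_right, hv, hw, hs] at hp
      linear_combination hp
    have hvw : B Q v w = 1 := by linear_combination (-1 / 2) * hp'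
    have hq : B Q (w + v) (w + v) = 4 := by
      rw [B_add_left, B_add_right, B_add_right, hv, hw, hs, hvw]
      ring
    refine ⟨[v, w + v], ?_, by simp, ?_, ?_⟩
    · intro u hu
      simp only [List.mem_cons, List.not_mem_nil, or_false] at hu
      rcases hu with rfl | rfl
      · rw [hv]; exact one_ne_zero
      · rw [hq]; norm_num
    · have e1 : (refl Q (w + v)).mulVec w = -v := by
        rw [refl_mulVec h, hq, B_add_left, hw, hvw]
        norm_num
      have e2 : P Q [v, w + v] = refl Q v * refl Q (w + v) := by simp [P]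
      rw [e2, ← Matrix.mulVec_mulVec, e1, refl_mulVec h, B_neg_right, hv]
      ext i
      simp only [Pi.sub_apply, Pi.neg_apply, Pi.smul_apply, smul_eq_mul]
      ring
    · intro x h1 h2
      have e2 : P Q [v, w + v] = refl Q v * refl Q (w + v) := by simp [P]
      have e3 : B Q (w + v) x = 0 := by rw [B_add_left, h1, h2, add_zero]
      rw [e2, ← Matrix.mulVec_mulVec, refl_fix h e3, refl_fix h h1]
  · refine ⟨[w - v], ?_, by simp, ?_, ?_⟩
    · intro u hu
      simp only [List.mem_singleton] at hu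
      rw [hu]
      exact hp
    · have e1 : P Q [w - v] = refl Q (w - v) := by simp [P]
      have e3 : B Q (w - v) (w - v) = 2 * B Q (w - v) w := by
        rw [B_sub_left, B_sub_right, B_sub_right, B_sub_left, hv, hw, hs]
        ring
      have e4 : B Q (w - v) w ≠ 0 := by
        intro h0
        rw [e3, h0, mul_zero] at hp
        exact hp rfl
      rw [e1, refl_mulVec h, e3]
      have e5 : 2 / (2 * B Q (w - v) w) * B Q (w - v) w = 1 := by
        field_simp
      rw [e5, one_smul, sub_sub_cancel]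
    · intro x h1 h2
      have e1 : P Q [w - v] = refl Q (w - v) := by simp [P]
      have e3 : B Q (w - v) x = 0 := by rw [B_sub_left, h1, h2, sub_zero]
      rw [e1, refl_fix h e3]

theorem exists_ofFn {α : Type} (n : ℕ) (L : List α) (h : L.length = n) :
    ∃ u : Fin n → α, List.ofFn u = L := by
  subst h
  exact ⟨L.get, List.ofFn_get L⟩

/-- fix a set of basis vectors -/
theorem fix_set {Q : Matrix ι ι ℂ} (h : Q.transpose = Q) {a : Matrix ι ι ℂ}
    (ha : ∀ x y, B Q (a.mulVec x) (a.mulVec y) = B Q x y) (e : ι → ι → ℂ)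
    (he : ∀ i j, B Q (e i) (e j) = if i = j then 1 else 0) (S : Finset ι) :
    ∃ L : List (ι → ℂ), (∀ u ∈ L, B Q u u ≠ 0) ∧ L.length ≤ 2 * S.card ∧
      ∀ j ∈ S, (P Q L).mulVec (a.mulVec (e j)) = e j := by
  induction S using Finset.induction_on with
  | empty => exact ⟨[], by simp, by simp, by simp⟩
  | insert k S hk ih =>
    obtain ⟨L, hL, hlen, hfix⟩ := ih
    have hPB : ∀ x y, B Q ((P Q L).mulVec (a.mulVec x)) ((P Q L).mulVec (a.mulVec y)) =
        B Q x y := by
      intro x y
      rw [P_B h L hL, ha]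
    have hv : B Q (e k) (e k) = 1 := by rw [he, if_pos rfl]
    have hw : B Q ((P Q L).mulVec (a.mulVec (e k))) ((P Q L).mulVec (a.mulVec (e k))) = 1 := by
      rw [hPB, hv]
    obtain ⟨L', hL', hlen', hmv, hfx⟩ := move h hv hw
    refine ⟨L' ++ L, ?_, ?_, ?_⟩
    · intro u hu
      rcases List.mem_append.1 hu with hu | hu
      · exact hL' u hu
      · exact hL u hu
    · rw [List.length_append, Finset.card_insert_of_notMem hk]
      omega
    · intro j hj
      rw [P_append, ← Matrix.mulVec_mulVec]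
      rcases Finset.mem_insert.1 hj with rfl | hj
      · exact hmv
      · have hkj : k ≠ j := fun hh => hk (hh ▸ hj)
        rw [hfix j hj]
        apply hfx
        · rw [he, if_neg hkj]
        · have := hPB (e k) (e j)
          rw [hfix j hj, he, if_neg hkj] at this
          exact this

end PAR_

open PAR_ in
theorem par_proof (hOrt : Stmt_Ort) : Stmt_Par := by
  intro ι _ _ _ Q h hQ a ha hdet
  obtain ⟨M, hM, hMQ⟩ := hOrt ι Q h hQ
  have haB : ∀ x y, B Q (a.mulVec x) (a.mulVec y) = B Q x y := by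
    intro x y
    have e1 : a.mulVec x ⬝ᵥ Q.mulVec (a.mulVec y) =
        x ⬝ᵥ (a.transpose * Q * a).mulVec y := by
      rw [← Matrix.mulVec_mulVec, ← Matrix.mulVec_mulVec, Matrix.dotProduct_mulVec x,
        Matrix.vecMul_transpose]
    show a.mulVec x ⬝ᵥ Q.mulVec (a.mulVec y) = x ⬝ᵥ Q.mulVec y
    rw [e1]
    have ha' : a.transpose * Q * a = Q := ha
    rw [ha']
  -- the orthonormal basis
  have he : ∀ i j, B Q (M.mulVec (Pi.single i 1)) (M.mulVec (Pi.single j 1)) =
      if i = j then 1 else 0 := by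
    intro i j
    have e1 : M.mulVec (Pi.single i 1) ⬝ᵥ Q.mulVec (M.mulVec (Pi.single j 1)) =
        (Pi.single i 1 : ι → ℂ) ⬝ᵥ (M.transpose * Q * M).mulVec (Pi.single j 1) := by
      rw [← Matrix.mulVec_mulVec, ← Matrix.mulVec_mulVec,
        Matrix.dotProduct_mulVec (Pi.single i 1 : ι → ℂ), Matrix.vecMul_transpose]
    show M.mulVec (Pi.single i 1) ⬝ᵥ Q.mulVec (M.mulVec (Pi.single j 1)) = _
    rw [e1, hMQ, Matrix.one_mulVec, single_dotProduct, one_mul, Pi.single_apply]
  obtain ⟨L, hL, hlen, hfix⟩ := fix_set h haB (fun i => M.mulVec (Pi.single i 1)) he Finset.univ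
  have h1 : P Q L * a * M = M := by
    apply ext_mulVec
    intro x
    have hx : x = ∑ i, x i • (Pi.single i 1 : ι → ℂ) := by
      ext j
      simp [Finset.sum_apply, Pi.single_apply]
    rw [hx, Matrix.mulVec_sum, Matrix.mulVec_sum]
    apply Finset.sum_congr rfl
    intro i _
    rw [Matrix.mulVec_smul, Matrix.mulVec_smul, ← Matrix.mulVec_mulVec, ← Matrix.mulVec_mulVec]
    rw [hfix i (Finset.mem_univ i)]
  have hMu : IsUnit M.det := isUnit_iff_ne_zero.2 hM
  have h2 : P Q L * a = 1 := by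
    have := congrArg (fun X => X * M⁻¹) h1
    simp only [mul_assoc, Matrix.mul_nonsing_inv M hMu, mul_one] at this
    exact this
  have h3 : a = P Q L.reverse := by
    have := congrArg (fun X => P Q L.reverse * X) h2
    simp only [← mul_assoc, P_reverse h L hL, one_mul, mul_one] at this
    exact this
  have hLr : ∀ u ∈ L.reverse, B Q u u ≠ 0 := fun u hu => hL u (List.mem_reverse.1 hu)
  have heven : Even L.length := by
    have := P_det h L.reverse hLr
    rw [← h3, hdet, List.length_reverse] at this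
    rcases Nat.even_or_odd L.length with he' | ho
    · exact he'
    · rw [ho.neg_one_pow] at this
      norm_num at this
  obtain ⟨k, hk⟩ := heven
  have hcard : L.length ≤ 2 * Fintype.card ι := by
    rw [Finset.card_univ] at hlen
    exact hlen
  obtain ⟨i0⟩ := ‹Nonempty ι›
  have hu0 : B Q (M.mulVec (Pi.single i0 1)) (M.mulVec (Pi.single i0 1)) ≠ 0 := by
    rw [he, if_pos rfl]
    exact one_ne_zero
  obtain ⟨u, hu⟩ := exists_ofFn (2 * Fintype.card ι) (L.reverse ++
    List.replicate (2 * (Fintype.card ι - k)) (M.mulVec (Pi.single i0 1))) (by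
      rw [List.length_append, List.length_reverse, List.length_replicate]
      omega)
  refine ⟨u, ?_, ?_⟩
  · intro i
    have hmem : u i ∈ List.ofFn u := List.mem_ofFn.2 ⟨i, rfl⟩
    rw [hu] at hmem
    rcases List.mem_append.1 hmem with hm | hm
    · exact hLr _ hm
    · rw [List.eq_of_mem_replicate hm]
      exact hu0
  · have e1 : (List.ofFn fun i => refl Q (u i)) = (List.ofFn u).map (refl Q) := by
      rw [List.map_ofFn]
      rfl
    rw [e1, hu]
    show a = P Q _
    rw [P_append, P_replicate h hu0, mul_one]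
    exact h3

end Pool.Agent.EVD
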