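import Pool.Agent.EVD.Stmts

set_option autoImplicit false

open scoped BigOperators Topology Nat
open Metric Set

namespace Pool.Agent.EVD

namespace PLG_

lemma deriv_zero (F : ℂ → ℂ) (C : ℝ) (M : ℕ) (hF : Differentiable ℂ F)
    (hC : ∀ z, ‖F z‖ ≤ C * (1 + ‖z‖) ^ M) (n : ℕ) (hn : M < n) : iteratedDeriv n F 0 = 0 := by
  have hC0 : 0 ≤ C := by
    have h := hC 0
    have h1 : ‖F 0‖ ≤ C := by simpa using h
    exact le_trans (norm_nonneg _) h1
  have hbound : ∀ R : ℝ, 1 ≤ R → ‖iteratedDeriv n F 0‖ ≤ (n ! : ℝ) * (C * 2 ^ M) / R := by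
    intro R hR
    have hR0 : 0 < R := by linarith
    have h1 := Complex.norm_iteratedDeriv_le_of_forall_mem_sphere_norm_le (c := (0 : ℂ)) (R := R)
      (C := C * (2 * R) ^ M) (f := F) n hR0 hF.diffContOnCl (by
        intro z hz
        rw [mem_sphere_iff_norm, sub_zero] at hz
        refine le_trans (hC z) ?_
        rw [hz]
        apply mul_le_mul_of_nonneg_left _ hC0
        apply pow_le_pow_left₀ (by linarith)
        linarith)
    refine le_trans h1 ?_
    rw [div_le_div_iff₀ (pow_pos hR0 n) hR0, mul_pow]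
    have h2 : R ^ M * R ≤ R ^ n := by
      rw [← pow_succ]
      exact pow_le_pow_right₀ hR hn
    have h3 : 0 ≤ (n ! : ℝ) * (C * 2 ^ M) := by positivity
    calc (n ! : ℝ) * (C * (2 ^ M * R ^ M)) * R = (n ! : ℝ) * (C * 2 ^ M) * (R ^ M * R) := by ring
      _ ≤ (n ! : ℝ) * (C * 2 ^ M) * R ^ n := mul_le_mul_of_nonneg_left h2 h3
  have hle : ‖iteratedDeriv n F 0‖ ≤ 0 := by
    have hlim : Filter.Tendsto (fun R : ℝ => (n ! : ℝ) * (C * 2 ^ M) / R) Filter.atTop (𝓝 0) :=
      tendsto_const_nhds.div_atTop Filter.tendsto_id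
    refine ge_of_tendsto hlim ?_
    filter_upwards [Filter.eventually_ge_atTop (1 : ℝ)] with R hR
    exact hbound R hR
  exact norm_le_zero_iff.1 hle

end PLG_

open PLG_

theorem plg_proof : Stmt_Plg := by
  intro F C M hF hC
  refine ⟨∑ n ∈ Finset.range (M + 1), Polynomial.monomial n ((n ! : ℂ)⁻¹ * iteratedDeriv n F 0),
    ?_, ?_⟩
  · apply Polynomial.natDegree_sum_le_of_forall_le
    intro n hn
    refine le_trans (Polynomial.natDegree_monomial_le _) ?_
    rw [Finset.mem_range] at hn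
    omega
  · intro z
    have h1 := Complex.taylorSeries_eq_of_entire' (c := 0) (z := z) hF
    rw [← h1, tsum_eq_sum (s := Finset.range (M + 1)), Polynomial.eval_finsetSum]
    · refine Finset.sum_congr rfl fun n _ => ?_
      rw [Polynomial.eval_monomial, sub_zero]
    · intro n hn
      rw [Finset.mem_range] at hn
      rw [deriv_zero F C M hF hC n (by omega)]
      ring

end Pool.Agent.EVD
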