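import Pool.Agent.EVD.Stmts

set_option autoImplicit false

open scoped BigOperators
open Polynomial

namespace Pool.Agent.EVD
namespace REC_

/-- The terms of `J_{M-1}[h]`. -/
noncomputable def T (b : ℚ) (g : ℚ[X]) (p k M : ℕ) (h : ℚ[X]) (l : ℕ) : ℚ :=
  if M ≤ l + 1 then (-1 : ℚ) ^ l * poch b (l + 1 - M) / (l.factorial : ℚ) *
    (h * g ^ l).coeff (k + p * (l + 1 - M)) else 0

theorem poch_succ (b : ℚ) (r : ℕ) : poch b (r + 1) = poch b r * (b + r) := by
  unfold poch
  rw [Finset.prod_range_succ]

theorem T_add (b : ℚ) (g : ℚ[X]) (p k M : ℕ) (h h' : ℚ[X]) (l : ℕ) :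
    T b g p k M (h + h') l = T b g p k M h l + T b g p k M h' l := by
  unfold T
  split_ifs
  · rw [add_mul, coeff_add]; ring
  · ring

theorem T_C_mul (b : ℚ) (g : ℚ[X]) (p k M : ℕ) (c : ℚ) (h : ℚ[X]) (l : ℕ) :
    T b g p k M (C c * h) l = c * T b g p k M h l := by
  unfold T
  split_ifs
  · rw [mul_assoc, coeff_C_mul]; ring
  · ring

theorem T_zero (b : ℚ) (g : ℚ[X]) (p k M : ℕ) (l : ℕ) : T b g p k M 0 l = 0 := by
  unfold T
  split_ifs
  · simp
  · rfl

theorem T_sum {ι : Type} (b : ℚ) (g : ℚ[X]) (p k M : ℕ) (s : Finset ι) (h : ι → ℚ[X]) (l : ℕ) :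
    T b g p k M (∑ i ∈ s, h i) l = ∑ i ∈ s, T b g p k M (h i) l := by
  classical
  induction s using Finset.induction_on with
  | empty => simp [T_zero]
  | insert a s ha ih => rw [Finset.sum_insert ha, Finset.sum_insert ha, T_add, ih]

/-- Degrees. -/
theorem T_big (b : ℚ) (g : ℚ[X]) (p k M : ℕ) (h : ℚ[X]) (l : ℕ) (hp : 2 ≤ p)
    (hg : g.natDegree ≤ p - 2) (hl : h.natDegree + p * M < 2 * l + p) : T b g p k M h l = 0 := by
  unfold T
  split_ifs with hM
  · have hdeg : (h * g ^ l).natDegree < k + p * (l + 1 - M) := by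
      have h1 : (h * g ^ l).natDegree ≤ h.natDegree + l * (p - 2) := by
        refine natDegree_mul_le.trans (add_le_add le_rfl ?_)
        exact natDegree_pow_le.trans (Nat.mul_le_mul_left _ hg)
      obtain ⟨r, hr⟩ := Nat.exists_eq_add_of_le hM
      obtain ⟨s, rfl⟩ := Nat.exists_eq_add_of_le hp
      have h2 : l + 1 - M = r := by omega
      rw [h2]
      have h3 : 2 + s - 2 = s := by omega
      rw [h3] at h1
      have h4 : (2 + s) * M + (2 + s) * r = (2 + s) * (l + 1) := by rw [hr]; ring
      have h5 : (2 + s) * (l + 1) = 2 * l + l * s + (2 + s) := by ring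
      omega
    rw [coeff_eq_zero_of_natDegree_lt hdeg, mul_zero]
  · rfl

theorem sum_shift (a c : ℕ → ℚ) (N : ℕ) (h0 : c 0 = 0) (hN : c N = 0) :
    ∑ l ∈ Finset.range N, (a l + c l) = ∑ l ∈ Finset.range N, (a l + c (l + 1)) := by
  rw [Finset.sum_add_distrib, Finset.sum_add_distrib]
  congr 1
  have h1 := Finset.sum_range_succ c N
  have h2 := Finset.sum_range_succ' c N
  rw [h0, add_zero] at h2
  rw [hN, add_zero] at h1
  rw [← h1, ← h2]

/-- `J_m[h'] = J_{m-1}[f' h]`, with `g' = f' - p x^(p-1)`. -/
theorem id1 (b : ℚ) (g : ℚ[X]) (p k m : ℕ) (h : ℚ[X]) (N : ℕ) (hp : 2 ≤ p)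
    (hg : g.natDegree ≤ p - 2) (hk : k < p - 1) (hb : b * p = k + 1)
    (hN : h.natDegree + p * (m + 2) ≤ N) :
    ∑ l ∈ Finset.range N, T b g p k (m + 1) (derivative h) l =
      ∑ l ∈ Finset.range N, T b g p k m ((C (p : ℚ) * X ^ (p - 1) + derivative g) * h) l := by
  have key := sum_shift
    (fun l => if m ≤ l then (-1 : ℚ) ^ l * ((p : ℚ) * poch b (l - m + 1)) / (l.factorial : ℚ) *
      (h * g ^ l).coeff (k + 1 + p * (l - m)) else 0)
    (fun l => if m ≤ l then -((-1 : ℚ) ^ l * poch b (l - m) / (l.factorial : ℚ) * l *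
      (h * (g ^ (l - 1) * derivative g)).coeff (k + p * (l - m))) else 0) N ?_ ?_
  · convert key using 1
    · refine Finset.sum_congr rfl fun l _ => ?_
      by_cases hl : m ≤ l
      · have hl' : m + 1 ≤ l + 1 := by omega
        simp only [T, if_pos hl, if_pos hl', Nat.add_sub_add_right]
        have h1 : derivative h * g ^ l = derivative (h * g ^ l) -
            C (l : ℚ) * (h * (g ^ (l - 1) * derivative g)) := by
          rw [derivative_mul, derivative_pow]
          simp only [map_natCast]
          ring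
        rw [h1, coeff_sub, coeff_derivative, coeff_C_mul, poch_succ]
        have h2 : k + p * (l - m) + 1 = k + 1 + p * (l - m) := by ring
        rw [h2]
        have h3 : ((k + p * (l - m) : ℕ) : ℚ) + 1 = p * (b + ((l - m : ℕ) : ℚ)) := by
          push_cast
          rw [mul_add, mul_comm (p : ℚ) b, hb]
          ring
        rw [h3]
        ring
      · have hl' : ¬ (m + 1 ≤ l + 1) := by omega
        simp only [T, if_neg hl, if_neg hl']
        ring
    · refine Finset.sum_congr rfl fun l _ => ?_
      rw [add_mul, T_add]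
      congr 1
      · by_cases hl : m ≤ l
        · have hl' : m ≤ l + 1 := by omega
          obtain ⟨s, rfl⟩ := Nat.exists_eq_add_of_le hl
          have h1 : m + s + 1 - m = s + 1 := by omega
          have h2 : m + s - m = s := by omega
          simp only [T, if_pos hl, if_pos hl', h1, h2]
          have h3 : k + p * (s + 1) = (k + 1 + p * s) + (p - 1) := by
            obtain ⟨q, rfl⟩ := Nat.exists_eq_add_of_le hp
            have : 2 + q - 1 = q + 1 := by omega
            rw [this]; ring
          rw [h3, mul_assoc (C (p : ℚ)), mul_assoc (C (p : ℚ)), coeff_C_mul, mul_assoc (X ^ (p - 1)),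
            coeff_X_pow_mul]
          ring
        · by_cases hl' : m ≤ l + 1
          · have h1 : l + 1 - m = 0 := by omega
            simp only [T, if_neg hl, if_pos hl', h1]
            rw [mul_assoc (C (p : ℚ)), mul_assoc (C (p : ℚ)), coeff_C_mul, mul_assoc (X ^ (p - 1)),
              coeff_X_pow_mul', if_neg (by omega)]
            ring
          · simp only [T, if_neg hl, if_neg hl']
      · by_cases hl' : m ≤ l + 1
        · simp only [T, if_pos hl', Nat.add_sub_cancel]
          rw [show derivative g * h * g ^ l = h * (g ^ l * derivative g) by ring, pow_succ,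
            Nat.factorial_succ]
          have h1 : ((l : ℚ) + 1) ≠ 0 := by positivity
          have h2 : (l.factorial : ℚ) ≠ 0 := by positivity
          push_cast
          field_simp
          try ring
        · simp only [T, if_neg hl']
  · simp
  · by_cases hl : m ≤ N
    · simp only [if_pos hl]
      have h1 : (h * (g ^ (N - 1) * derivative g)).coeff (k + p * (N - m)) = 0 := by
        apply coeff_eq_zero_of_natDegree_lt
        have h1 : (h * (g ^ (N - 1) * derivative g)).natDegree ≤ h.natDegree +
            ((N - 1) * (p - 2) + (p - 2)) := by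
          refine natDegree_mul_le.trans (add_le_add le_rfl ?_)
          refine natDegree_mul_le.trans (add_le_add ?_ ?_)
          · exact natDegree_pow_le.trans (Nat.mul_le_mul_left _ hg)
          · exact (natDegree_derivative_le g).trans (by omega)
        refine lt_of_le_of_lt h1 ?_
        obtain ⟨s, rfl⟩ := Nat.exists_eq_add_of_le hp
        obtain ⟨r, rfl⟩ := Nat.exists_eq_add_of_le hl
        have h2 : 1 ≤ m + r := by
          have : 0 < (2 + s) * (m + 2) := by positivity
          omega
        obtain ⟨n, hn⟩ := Nat.exists_eq_add_of_le h2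
        have h3 : m + r - 1 = n := by omega
        have h4 : m + r - m = r := by omega
        have h5 : 2 + s - 2 = s := by omega
        rw [h3, h4, h5]
        have h6 : (2 + s) * (m + 2) = (2 + s) * m + (4 + 2 * s) := by ring
        have h7 : (2 + s) * (m + r) = 2 * (m + r) + n * s + s := by rw [hn]; ring
        have h8 : (2 + s) * (m + r) = (2 + s) * m + (2 + s) * r := by ring
        omega
      rw [h1]; ring
    · simp only [if_neg hl]

/-- `J_{m-1}[f h] = (b - m) J_m[h]`, with `f = x^p + g`. -/
theorem id2 (b : ℚ) (g : ℚ[X]) (p k m : ℕ) (h : ℚ[X]) (N : ℕ) (hp : 2 ≤ p)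
    (hg : g.natDegree ≤ p - 2) (hk : k < p - 1)
    (hN : h.natDegree + p * (m + 2) ≤ N) :
    (b - m) * ∑ l ∈ Finset.range N, T b g p k (m + 1) h l =
      ∑ l ∈ Finset.range N, T b g p k m ((X ^ p + g) * h) l := by
  have key := sum_shift
    (fun l => if m ≤ l then (-1 : ℚ) ^ l * poch b (l - m + 1) / (l.factorial : ℚ) *
      (h * g ^ l).coeff (k + p * (l - m)) else 0)
    (fun l => if m ≤ l then -((-1 : ℚ) ^ l * poch b (l - m) / (l.factorial : ℚ) * l *
      (h * g ^ l).coeff (k + p * (l - m))) else 0) N ?_ ?_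
  · rw [Finset.mul_sum]
    convert key using 1
    · refine Finset.sum_congr rfl fun l _ => ?_
      by_cases hl : m ≤ l
      · have hl' : m + 1 ≤ l + 1 := by omega
        simp only [T, if_pos hl, if_pos hl', Nat.add_sub_add_right]
        rw [poch_succ]
        have h3 : ((l - m : ℕ) : ℚ) = (l : ℚ) - m := by
          push_cast [Nat.cast_sub hl]; ring
        rw [h3]
        ring
      · have hl' : ¬ (m + 1 ≤ l + 1) := by omega
        simp only [T, if_neg hl, if_neg hl']
        ring
    · refine Finset.sum_congr rfl fun l _ => ?_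
      rw [add_mul, T_add]
      congr 1
      · by_cases hl : m ≤ l
        · have hl' : m ≤ l + 1 := by omega
          obtain ⟨s, rfl⟩ := Nat.exists_eq_add_of_le hl
          have h1 : m + s + 1 - m = s + 1 := by omega
          have h2 : m + s - m = s := by omega
          simp only [T, if_pos hl, if_pos hl', h1, h2]
          have h3 : k + p * (s + 1) = (k + p * s) + p := by ring
          rw [h3, mul_assoc (X ^ p), coeff_X_pow_mul]
        · by_cases hl' : m ≤ l + 1
          · have h1 : l + 1 - m = 0 := by omega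
            simp only [T, if_neg hl, if_pos hl', h1]
            rw [mul_assoc (X ^ p), coeff_X_pow_mul', if_neg (by omega)]
            ring
          · simp only [T, if_neg hl, if_neg hl']
      · by_cases hl' : m ≤ l + 1
        · simp only [T, if_pos hl']
          rw [show g * h * g ^ l = h * g ^ (l + 1) by ring, pow_succ (-1 : ℚ),
            Nat.factorial_succ]
          have h1 : ((l : ℚ) + 1) ≠ 0 := by positivity
          have h2 : (l.factorial : ℚ) ≠ 0 := by positivity
          push_cast
          field_simp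
          try ring
        · simp only [T, if_neg hl']
  · simp
  · by_cases hl : m ≤ N
    · simp only [if_pos hl]
      have h1 : (h * g ^ N).coeff (k + p * (N - m)) = 0 := by
        apply coeff_eq_zero_of_natDegree_lt
        have h1 : (h * g ^ N).natDegree ≤ h.natDegree + N * (p - 2) := by
          refine natDegree_mul_le.trans (add_le_add le_rfl ?_)
          exact natDegree_pow_le.trans (Nat.mul_le_mul_left _ hg)
        refine lt_of_le_of_lt h1 ?_
        obtain ⟨s, rfl⟩ := Nat.exists_eq_add_of_le hp
        obtain ⟨r, rfl⟩ := Nat.exists_eq_add_of_le hl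
        have h4 : m + r - m = r := by omega
        have h5 : 2 + s - 2 = s := by omega
        rw [h4, h5]
        have h6 : (2 + s) * (m + 2) = (2 + s) * m + (4 + 2 * s) := by ring
        have h7 : (2 + s) * (m + r) = 2 * (m + r) + (m + r) * s := by ring
        have h8 : (2 + s) * (m + r) = (2 + s) * m + (2 + s) * r := by ring
        omega
      rw [h1]; ring
    · simp only [if_neg hl]

theorem E1_eq (f : ℚ[X]) (hf : G1 f) (hg : (f - X ^ f.natDegree).natDegree ≤ f.natDegree - 2)
    (m N : ℕ) (i i' : Fin (f.natDegree - 1)) (hN : f.natDegree * (m + 1) + 1 ≤ N) :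
    E1 f m i i' = ∑ l ∈ Finset.range N, T (((i' : ℕ) + 1 : ℚ) / f.natDegree)
      (f - X ^ f.natDegree) f.natDegree i' (m + 1) (X ^ (i : ℕ)) l := by
  unfold E1
  rw [Matrix.of_apply]
  have hsub : Finset.Icc m (f.natDegree * (m + 1)) ⊆ Finset.range N := by
    intro l hl
    rw [Finset.mem_Icc] at hl
    rw [Finset.mem_range]
    omega
  rw [← Finset.sum_subset hsub]
  · refine Finset.sum_congr rfl fun l hl => ?_
    rw [Finset.mem_Icc] at hl
    have hl' : m + 1 ≤ l + 1 := by omega
    simp only [T, if_pos hl', Nat.add_sub_add_right]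
  · intro l _ hl
    rw [Finset.mem_Icc, not_and_or] at hl
    rcases hl with hl | hl
    · have hl' : ¬ (m + 1 ≤ l + 1) := by omega
      simp only [T, if_neg hl']
    · apply T_big _ _ _ _ _ _ _ hf.two hg
      rw [natDegree_X_pow]
      have := i.2
      omega

end REC_

open REC_ in
theorem rec_proof (hD : Stmt_Div) : Stmt_Rec := by
  intro f hf
  set p := f.natDegree with hp_def
  have hp2 : 2 ≤ p := hf.two
  have hg : (f - X ^ p).natDegree ≤ p - 2 := by
    rw [natDegree_le_iff_coeff_eq_zero]
    intro n hn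
    rw [coeff_sub, coeff_X_pow]
    by_cases h1 : n = p
    · rw [if_pos h1, h1]
      have : f.coeff p = 1 := hf.mon.coeff_natDegree
      rw [this]; ring
    · rw [if_neg h1, sub_zero]
      by_cases h2 : n = p - 1
      · rw [h2]; exact hf.sub
      · apply coeff_eq_zero_of_natDegree_lt
        omega
  have hfg : X ^ p + (f - X ^ p) = f := by ring
  have hder : C (p : ℚ) * X ^ (p - 1) + derivative (f - X ^ p) = derivative f := by
    rw [derivative_sub, derivative_X_pow]
    ring
  -- the main identity, with `M = m`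
  have main : ∀ (M N : ℕ) (i i' : Fin (p - 1)), 3 * p + p * (M + 2) ≤ N →
      ((((i' : ℕ) + 1 : ℚ) / p) - M) * E1 f M i i' = (B1 f * E1 f M) i i' +
        ∑ j : Fin (p - 1), A1 f i j * ∑ l ∈ Finset.range N, T (((i' : ℕ) + 1 : ℚ) / p)
          (f - X ^ p) p i' M (X ^ (j : ℕ)) l := by
    intro M N i i' hN
    obtain ⟨q, hq1, hq2, hq3⟩ := hD f hf.mon hf.two i
    have hi := i.2
    have hi' := i'.2
    have hb : (((i' : ℕ) + 1 : ℚ) / p) * p = (i' : ℕ) + 1 := by
      have : (p : ℚ) ≠ 0 := by
        have : p ≠ 0 := by omega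
        exact_mod_cast this
      field_simp
    have e2 := id2 (((i' : ℕ) + 1 : ℚ) / p) (f - X ^ p) p i' M (X ^ (i : ℕ)) N hp2 hg hi'
      (by rw [natDegree_X_pow]; omega)
    have e1 := id1 (((i' : ℕ) + 1 : ℚ) / p) (f - X ^ p) p i' M q N hp2 hg hi' hb (by omega)
    have hN' : p * (M + 1) + 1 ≤ N := by
      have : p * (M + 2) = p * (M + 1) + p := by ring
      omega
    rw [← E1_eq f hf hg M N i i' hN', hfg] at e2
    rw [hder] at e1
    rw [e2, mul_comm f (X ^ (i : ℕ)), hq2, mul_comm q]
    have e3 : ∀ l, T (((i' : ℕ) + 1 : ℚ) / p) (f - X ^ p) p i' M (derivative f * q +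
        ∑ j : Fin (f.natDegree - 1), C (A1 f i j) * X ^ (j : ℕ)) l =
        T (((i' : ℕ) + 1 : ℚ) / p) (f - X ^ p) p i' M (derivative f * q) l +
        ∑ j : Fin (f.natDegree - 1), A1 f i j *
          T (((i' : ℕ) + 1 : ℚ) / p) (f - X ^ p) p i' M (X ^ (j : ℕ)) l := by
      intro l
      rw [T_add, T_sum]
      simp only [T_C_mul]
    simp only [e3]
    rw [Finset.sum_add_distrib, ← e1, hq3]
    congr 1
    · rw [Matrix.mul_apply]
      simp only [T_sum, T_C_mul]
      rw [Finset.sum_comm]
      refine Finset.sum_congr rfl fun j _ => ?_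
      rw [E1_eq f hf hg M N j i' hN', Finset.mul_sum]
    · rw [Finset.sum_comm]
      refine Finset.sum_congr rfl fun j _ => ?_
      rw [Finset.mul_sum]
  refine ⟨fun i i' => ?_, fun m i i' => ?_⟩
  · have h := main 0 (3 * p + p * (0 + 2)) i i' le_rfl
    have hz : ∀ j : Fin (p - 1), ∑ l ∈ Finset.range (3 * p + p * (0 + 2)),
        T (((i' : ℕ) + 1 : ℚ) / p) (f - X ^ p) p i' 0 (X ^ (j : ℕ)) l = 0 := by
      intro j
      refine Finset.sum_eq_zero fun l _ => ?_
      apply T_big _ _ _ _ _ _ _ hp2 hg
      rw [natDegree_X_pow]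
      have := j.2
      omega
    simp only [hz, mul_zero, Finset.sum_const_zero, add_zero] at h
    rw [← h]
    push_cast
    ring
  · have hN : 3 * p + p * (m + 1 + 2) ≤ 3 * p + p * (m + 1 + 2) := le_rfl
    have h := main (m + 1) (3 * p + p * (m + 1 + 2)) i i' hN
    have hN' : p * (m + 1) + 1 ≤ 3 * p + p * (m + 1 + 2) := by
      have : p * (m + 1 + 2) = p * (m + 1) + 2 * p := by ring
      omega
    have hA : (A1 f * E1 f m) i i' = ∑ j : Fin (p - 1), A1 f i j *
        ∑ l ∈ Finset.range (3 * p + p * (m + 1 + 2)), T (((i' : ℕ) + 1 : ℚ) / p)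
          (f - X ^ p) p i' (m + 1) (X ^ (j : ℕ)) l := by
      rw [Matrix.mul_apply]
      refine Finset.sum_congr rfl fun j _ => ?_
      rw [E1_eq f hf hg m _ j i' hN']
    rw [← hA] at h
    push_cast at h
    linarith

end Pool.Agent.EVD
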