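import Pool.Agent.EVD.Stmts

set_option autoImplicit false

open scoped BigOperators
open Polynomial

namespace Pool.Agent.EVD

namespace REV_

/-- `P` is the reflection of `Q` in degree `n`. -/
def Rr (n : ℕ) (P Q : Polynomial ℚ) : Prop := Q.natDegree ≤ n ∧ P = reflect n Q

theorem rr_zero (n : ℕ) : Rr n 0 0 := by
  refine ⟨by simp, by simp⟩

theorem rr_add {n : ℕ} {P Q P' Q' : Polynomial ℚ} (h : Rr n P Q) (h' : Rr n P' Q') :
    Rr n (P + P') (Q + Q') := by
  refine ⟨(natDegree_add_le _ _).trans (max_le h.1 h'.1), ?_⟩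
  rw [reflect_add, ← h.2, ← h'.2]

theorem rr_sum {α : Type} (s : Finset α) {n : ℕ} {P Q : α → Polynomial ℚ}
    (h : ∀ a ∈ s, Rr n (P a) (Q a)) : Rr n (∑ a ∈ s, P a) (∑ a ∈ s, Q a) := by
  classical
  induction s using Finset.induction_on with
  | empty => simpa using rr_zero n
  | insert a s ha ih =>
    rw [Finset.sum_insert ha, Finset.sum_insert ha]
    exact rr_add (h a (Finset.mem_insert_self a s))
      (ih fun b hb => h b (Finset.mem_insert_of_mem hb))

theorem rr_mul {m n : ℕ} {P Q P' Q' : Polynomial ℚ} (h : Rr m P Q) (h' : Rr n P' Q') :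
    Rr (m + n) (P * P') (Q * Q') := by
  refine ⟨natDegree_mul_le.trans (add_le_add h.1 h'.1), ?_⟩
  rw [reflect_mul _ _ h.1 h'.1, ← h.2, ← h'.2]

theorem rr_C (c : ℚ) : Rr 0 (C c) (C c) := by
  refine ⟨by simp, ?_⟩
  rw [reflect_C]
  simp

theorem rr_prod {α : Type} (s : Finset α) {n : α → ℕ} {P Q : α → Polynomial ℚ}
    (h : ∀ a ∈ s, Rr (n a) (P a) (Q a)) :
    Rr (∑ a ∈ s, n a) (∏ a ∈ s, P a) (∏ a ∈ s, Q a) := by
  classical
  induction s using Finset.induction_on with
  | empty => simpa using rr_C 1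
  | insert a s ha ih =>
    rw [Finset.sum_insert ha, Finset.prod_insert ha, Finset.prod_insert ha]
    exact rr_mul (h a (Finset.mem_insert_self a s))
      (ih fun b hb => h b (Finset.mem_insert_of_mem hb))

theorem rr_lin (a c : ℚ) : Rr 1 (X * C a + C c) (C a + X * C c) := by
  refine ⟨?_, ?_⟩
  · compute_degree
  · have h1 : reflect 1 (C a + X * C c) = reflect 1 (C a * X ^ 0) + reflect 1 (C c * X ^ 1) := by
      rw [← reflect_add]
      congr 1
      ring
    rw [h1, reflect_C_mul_X_pow, reflect_C_mul_X_pow]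
    have h2 : revAt 1 0 = 1 := by rw [revAt_le (by norm_num)]
    have h3 : revAt 1 1 = 0 := by rw [revAt_le le_rfl]
    rw [h2, h3]
    ring

theorem rr_S {ι : Type} [Fintype ι] [DecidableEq ι] (A : Matrix ι ι ℚ) (i j : ι) :
    Rr 1 (Sm A i j) (((1 : Matrix ι ι (Polynomial ℚ)) + (Polynomial.X : Polynomial ℚ) •
        A.map Polynomial.C) i j) := by
  have h := rr_lin (if i = j then 1 else 0) (A i j)
  have e1 : Sm A i j = X * C (if i = j then (1 : ℚ) else 0) + C (A i j) := by
    simp only [Sm, Matrix.add_apply, Matrix.smul_apply, Matrix.map_apply, Matrix.one_apply,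
      smul_eq_mul]
    split_ifs <;> simp
  have e2 : ((1 : Matrix ι ι (Polynomial ℚ)) + (Polynomial.X : Polynomial ℚ) •
        A.map Polynomial.C) i j = C (if i = j then (1 : ℚ) else 0) + X * C (A i j) := by
    simp only [Matrix.add_apply, Matrix.smul_apply, Matrix.map_apply, Matrix.one_apply,
      smul_eq_mul]
    split_ifs <;> simp
  rw [e1, e2]
  exact h

theorem rr_det {ι : Type} [Fintype ι] [DecidableEq ι] (n : ι → ℕ)
    (M N : Matrix ι ι (Polynomial ℚ)) (h : ∀ i j, Rr (n i) (M i j) (N i j)) :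
    Rr (∑ i, n i) M.det N.det := by
  rw [← Matrix.det_transpose M, ← Matrix.det_transpose N]
  rw [Matrix.det_apply, Matrix.det_apply]
  refine rr_sum _ fun σ _ => ?_
  have h1 : Rr (∑ i, n i) (∏ i, M.transpose (σ i) i) (∏ i, N.transpose (σ i) i) := by
    refine rr_prod _ fun i _ => ?_
    exact h i (σ i)
  have h2 := rr_mul (rr_C ((Equiv.Perm.sign σ : ℤ) : ℚ)) h1
  rw [zero_add] at h2
  have e : ∀ P : Polynomial ℚ, Equiv.Perm.sign σ • P = C ((Equiv.Perm.sign σ : ℤ) : ℚ) * P := by
    intro P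
    rw [Units.smul_def, zsmul_eq_mul]
    simp
  rw [e, e]
  exact h2

theorem rr_adj {ι : Type} [Fintype ι] [DecidableEq ι]
    (M N : Matrix ι ι (Polynomial ℚ)) (h : ∀ i j, Rr 1 (M i j) (N i j)) (i j : ι) :
    Rr (Fintype.card ι - 1) (M.adjugate i j) (N.adjugate i j) := by
  rw [Matrix.adjugate_apply, Matrix.adjugate_apply]
  have hn : ∑ l : ι, (if l = j then 0 else 1) = Fintype.card ι - 1 := by
    have h1 : ∑ l : ι, (if l = j then 0 else 1) = ((Finset.univ : Finset ι).erase j).card := by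
      rw [Finset.card_eq_sum_ones, ← Finset.add_sum_erase _ _ (Finset.mem_univ j), if_pos rfl,
        zero_add]
      exact Finset.sum_congr rfl fun a ha => if_neg (Finset.ne_of_mem_erase ha)
    rw [h1, Finset.card_erase_of_mem (Finset.mem_univ j)]
    rfl
  have := rr_det (fun l => if l = j then 0 else 1) (M.updateRow j (Pi.single i 1))
    (N.updateRow j (Pi.single i 1)) ?_
  · rw [hn] at this
    exact this
  · intro a b
    by_cases ha : a = j
    · subst ha
      simp only [Matrix.updateRow_self, if_true]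
      by_cases hb : b = i
      · subst hb
        simpa using rr_C 1
      · rw [Pi.single_eq_of_ne hb]
        exact rr_zero 0
    · simp only [ha, if_false]
      rw [Matrix.updateRow_ne ha, Matrix.updateRow_ne ha]
      exact h a b

theorem rr_matmul {ι : Type} [Fintype ι] {m n : ℕ} (M N M' N' : Matrix ι ι (Polynomial ℚ))
    (h : ∀ i j, Rr m (M i j) (N i j)) (h' : ∀ i j, Rr n (M' i j) (N' i j)) (i j : ι) :
    Rr (m + n) ((M * M') i j) ((N * N') i j) := by
  rw [Matrix.mul_apply, Matrix.mul_apply]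
  exact rr_sum _ fun a _ => rr_mul (h i a) (h' a j)

theorem rr_main {ι : Type} [Fintype ι] [DecidableEq ι]
    (A E : Matrix ι ι ℚ) : ∀ (k : ℕ) (i j : ι),
    Rr ((Fintype.card ι - 1) * k) (Bt A E k i j) (Bh A E k i j) := by
  intro k
  induction k with
  | zero =>
    intro i j
    rw [Nat.mul_zero]
    show Rr 0 ((1 : Matrix ι ι (Polynomial ℚ)) i j) ((1 : Matrix ι ι (Polynomial ℚ)) i j)
    rw [Matrix.one_apply]
    split_ifs
    · simpa using rr_C 1
    · exact rr_zero 0
  | succ k ih =>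
    intro i j
    have h1 : ∀ i j, Rr ((Fintype.card ι - 1) + 0 + (Fintype.card ι - 1) * k)
        (((Sm A).adjugate * ((E - (k : ℚ) • (1 : Matrix ι ι ℚ)).map Polynomial.C) *
          Bt A E k) i j)
        ((((1 : Matrix ι ι (Polynomial ℚ)) + (Polynomial.X : Polynomial ℚ) •
        A.map Polynomial.C).adjugate *
          ((E - (k : ℚ) • (1 : Matrix ι ι ℚ)).map Polynomial.C) * Bh A E k) i j) := by
      refine rr_matmul _ _ _ _ (rr_matmul _ _ _ _ (rr_adj _ _ (rr_S A)) ?_) ih
      intro a b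
      rw [Matrix.map_apply]
      exact rr_C _
    have h2 := rr_mul (rr_C (1 / ((k : ℚ) + 1))) (h1 i j)
    have e : 0 + ((Fintype.card ι - 1) + 0 + (Fintype.card ι - 1) * k) =
        (Fintype.card ι - 1) * (k + 1) := by ring
    rw [e] at h2
    exact h2

end REV_

theorem rev_proof : Stmt_Rev := by
  intro ι _ _ _ A E k i j l
  obtain ⟨h1, h2⟩ := REV_.rr_main A E k i j
  rw [h2, coeff_reflect]
  split_ifs with h
  · rw [revAt_le h]
  · push Not at h
    rw [revAt_eq_self_of_lt h]
    exact coeff_eq_zero_of_natDegree_lt (lt_of_le_of_lt h1 h)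

end Pool.Agent.EVD
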