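import Pool.Agent.EVD.Stmts

set_option autoImplicit false

open scoped BigOperators Topology
open Matrix

namespace Pool.Agent.EVD

namespace RSQ_

variable {ι : Type} [Fintype ι] [DecidableEq ι]

lemma key {κ : ℕ} {A B U : Matrix ι ι ℚ} {b : ι → ℚ} {i₀ : ι} (h : Oku κ A B U b i₀)
    (x : ι → ℂ) (hx : dotProduct x ((cm U).mulVec x) = 1) :
    dotProduct ((cm U).mulVec x) ((cm (Eo κ B)).mulVec x) = -(1 / 2) := by
  have hUs : (cm U).transpose = cm U := by
    ext i j
    have h1 := congrFun (congrFun h.Usym i) j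
    simp only [cm, transpose_apply, map_apply] at h1 ⊢
    rw [h1]
  have hUB : cm U * cm B + (cm B).transpose * cm U = ((2 * (κ : ℂ) - 1)) • cm U := by
    have h1 := h.UB
    ext i j
    have h2 := congrArg (fun q : ℚ => (q : ℂ)) (congrFun (congrFun h1 i) j)
    simp only [Matrix.add_apply, Matrix.mul_apply, Matrix.smul_apply, transpose_apply,
      smul_eq_mul] at h2
    push_cast at h2
    simp only [Matrix.add_apply, Matrix.mul_apply, Matrix.smul_apply, transpose_apply, cm,
      map_apply, smul_eq_mul]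
    exact h2
  have hE : cm (Eo κ B) = cm B - (κ : ℂ) • (1 : Matrix ι ι ℂ) := by
    ext i j
    by_cases hij : i = j
    · subst hij
      simp [cm, Eo]
    · simp [cm, Eo, Matrix.one_apply_ne hij]
  have h1 : dotProduct x ((cm U * cm B).mulVec x) = dotProduct x (((cm B).transpose * cm U).mulVec x) := by
    rw [dotProduct_mulVec x ((cm B).transpose * cm U) x, ← mulVec_transpose, dotProduct_comm]
    congr 2
    rw [transpose_mul, transpose_transpose, hUs]
  have h2 : dotProduct x ((cm U * cm B).mulVec x) * 2 = 2 * (κ : ℂ) - 1 := by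
    have h3 := congrArg (fun M : Matrix ι ι ℂ => dotProduct x (M.mulVec x)) hUB
    simp only [add_mulVec, dotProduct_add, smul_mulVec, dotProduct_smul, hx] at h3
    rw [← h1] at h3
    rw [smul_eq_mul, mul_one] at h3
    rw [← h3]
    ring
  have h4 : dotProduct ((cm U).mulVec x) ((cm (Eo κ B)).mulVec x) =
      dotProduct x ((cm U * cm (Eo κ B)).mulVec x) := by
    rw [← mulVec_mulVec, dotProduct_mulVec x (cm U), ← mulVec_transpose, hUs]
  rw [h4, hE, Matrix.mul_sub, sub_mulVec, dotProduct_sub, Matrix.mul_smul, Matrix.mul_one,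
    smul_mulVec, dotProduct_smul, hx, smul_eq_mul, mul_one]
  linear_combination (1 / 2) * h2

end RSQ_

open RSQ_ in
theorem rsq_proof : Stmt_Rsq := by
  intro ι _ _ κ A B U b i₀ h e r q T x hS j
  rcases hS.nrm j with hj | hj
  · have h0 : Ro (cm U) (cm (Eo κ B)) x j = 0 := by
      unfold Ro
      rw [hj]
      have : vecMulVec (0 : ι → ℂ) ((cm U).mulVec 0) = 0 := by
        ext a c
        simp [vecMulVec_apply]
      rw [this, Matrix.zero_mul]
    rw [h0]
    refine ⟨by simp, fun _ => hj, fun _ => rfl⟩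
  · have hk := key h (x j) hj
    have hmv : ∀ y : ι → ℂ, (Ro (cm U) (cm (Eo κ B)) x j).mulVec y =
        (dotProduct ((cm U).mulVec (x j)) ((cm (Eo κ B)).mulVec y)) • x j := by
      intro y
      unfold Ro
      rw [← mulVec_mulVec, vecMulVec_mulVec]
      simp
    have hsq : Ro (cm U) (cm (Eo κ B)) x j * Ro (cm U) (cm (Eo κ B)) x j =
        (-(1 / 2) : ℂ) • Ro (cm U) (cm (Eo κ B)) x j := by
      apply Matrix.mulVec_injective
      funext y
      rw [← mulVec_mulVec, hmv y, mulVec_smul, hmv (x j), hk, smul_mulVec, hmv y, smul_comm]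
    refine ⟨hsq, fun h0 => ?_, fun h0 => ?_⟩
    · have h1 := hmv (x j)
      rw [h0, zero_mulVec, hk] at h1
      have h2 := h1.symm
      rcases smul_eq_zero.1 h2 with h3 | h3
      · norm_num at h3
      · exact h3
    · rw [h0] at hj
      simp at hj

end Pool.Agent.EVD
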