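import Pool.Agent.EVD.Stmts

set_option autoImplicit false

/-!
# EVD: module SGL, Lie algebras stable under an irreducible system of reflections
-/

namespace Pool.Agent.EVD

namespace SGL_

set_option linter.unusedSectionVars false

variable {ι : Type} [Fintype ι] [DecidableEq ι]

/-- the bilinear form -/
noncomputable def bf (Q : Matrix ι ι ℂ) (x y : ι → ℂ) : ℂ := dotProduct x (Q.mulVec y)

theorem bf_symm (Q : Matrix ι ι ℂ) (hQ : Q.transpose = Q) (x y : ι → ℂ) : bf Q x y = bf Q y x := by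
  unfold bf
  rw [Matrix.dotProduct_mulVec, dotProduct_comm]
  congr 1
  rw [← Matrix.mulVec_transpose, hQ]

theorem bf_add_left (Q : Matrix ι ι ℂ) (x y z : ι → ℂ) : bf Q (x + y) z = bf Q x z + bf Q y z := by
  unfold bf; rw [add_dotProduct]

theorem bf_add_right (Q : Matrix ι ι ℂ) (x y z : ι → ℂ) : bf Q x (y + z) = bf Q x y + bf Q x z := by
  unfold bf; rw [Matrix.mulVec_add, dotProduct_add]

theorem bf_smul_left (Q : Matrix ι ι ℂ) (c : ℂ) (x y : ι → ℂ) : bf Q (c • x) y = c * bf Q x y := by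
  unfold bf; rw [smul_dotProduct, smul_eq_mul]

theorem bf_smul_right (Q : Matrix ι ι ℂ) (c : ℂ) (x y : ι → ℂ) : bf Q x (c • y) = c * bf Q x y := by
  unfold bf; rw [Matrix.mulVec_smul, dotProduct_smul, smul_eq_mul]

theorem bf_sub_left (Q : Matrix ι ι ℂ) (x y z : ι → ℂ) : bf Q (x - y) z = bf Q x z - bf Q y z := by
  unfold bf; rw [sub_dotProduct]

theorem bf_sub_right (Q : Matrix ι ι ℂ) (x y z : ι → ℂ) : bf Q x (y - z) = bf Q x y - bf Q x z := by
  unfold bf; rw [Matrix.mulVec_sub, dotProduct_sub]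

theorem bf_zero_left (Q : Matrix ι ι ℂ) (x : ι → ℂ) : bf Q 0 x = 0 := by
  unfold bf; rw [zero_dotProduct]

theorem bf_zero_right (Q : Matrix ι ι ℂ) (x : ι → ℂ) : bf Q x 0 = 0 := by
  unfold bf; rw [Matrix.mulVec_zero, dotProduct_zero]

theorem bf_nondeg (Q : Matrix ι ι ℂ) (hd : Q.det ≠ 0) (y : ι → ℂ) (h : ∀ x, bf Q x y = 0) :
    y = 0 := by
  apply Matrix.eq_zero_of_mulVec_eq_zero hd
  funext i
  have := h (Pi.single i 1)
  unfold bf at this
  rw [single_dotProduct, one_mul] at this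
  exact this

theorem pr_mulVec (Q : Matrix ι ι ℂ) (hQ : Q.transpose = Q) (v x : ι → ℂ) :
    (pr Q v).mulVec x = bf Q v x • v := by
  unfold pr
  rw [Matrix.vecMulVec_mulVec, bf_symm Q hQ]
  unfold bf
  rw [dotProduct_comm]
  funext i
  simp [mul_comm]

theorem wed_mulVec (Q : Matrix ι ι ℂ) (hQ : Q.transpose = Q) (u w x : ι → ℂ) :
    (wed Q u w).mulVec x = bf Q w x • u - bf Q u x • w := by
  unfold wed
  rw [Matrix.sub_mulVec, Matrix.vecMulVec_mulVec, Matrix.vecMulVec_mulVec, bf_symm Q hQ w x,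
    bf_symm Q hQ u x]
  unfold bf
  rw [dotProduct_comm (Q.mulVec w) x, dotProduct_comm (Q.mulVec u) x]
  funext i
  simp [mul_comm]

theorem ext_mulVec (A B : Matrix ι ι ℂ) (h : ∀ x, A.mulVec x = B.mulVec x) : A = B := by
  apply Matrix.mulVec_injective
  funext x
  exact h x

theorem skew (Q X : Matrix ι ι ℂ) (hX : X.transpose * Q + Q * X = 0)
    (x y : ι → ℂ) : bf Q (X.mulVec x) y = -bf Q x (X.mulVec y) := by
  have h1 : bf Q (X.mulVec x) y = dotProduct x ((X.transpose * Q).mulVec y) := by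
    unfold bf
    rw [← Matrix.mulVec_mulVec, dotProduct_comm, Matrix.dotProduct_mulVec, ← Matrix.mulVec_transpose,
      dotProduct_comm]
  have h2 : X.transpose * Q = -(Q * X) := eq_neg_of_add_eq_zero_left hX
  rw [h1, h2, Matrix.neg_mulVec, dotProduct_neg, ← Matrix.mulVec_mulVec]
  rfl

/-- the hypotheses -/
structure Hyp {q : ℕ} (Q : Matrix ι ι ℂ) (v : Fin q → ι → ℂ) (W : Set (Matrix ι ι ℂ)) : Prop where
  rts : Rts Q v
  lin : ∀ X ∈ W, ∀ Y ∈ W, ∀ c : ℂ, X + c • Y ∈ W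
  sk : ∀ X ∈ W, X.transpose * Q + Q * X = 0
  cj : ∀ j, ∀ X ∈ W, (1 - (2 : ℂ) • pr Q (v j)) * X * (1 - (2 : ℂ) • pr Q (v j)) ∈ W
  br : ∀ X ∈ W, ∀ Y ∈ W, X * Y - Y * X ∈ W
  ne : ∃ X ∈ W, X ≠ 0

variable {q : ℕ} {Q : Matrix ι ι ℂ} {v : Fin q → ι → ℂ} {W : Set (Matrix ι ι ℂ)}

theorem Hyp.zero (h : Hyp Q v W) : (0 : Matrix ι ι ℂ) ∈ W := by
  obtain ⟨X, hX, _⟩ := h.ne
  have := h.lin X hX X hX (-1)
  simpa using this

theorem Hyp.smul (h : Hyp Q v W) (c : ℂ) {X : Matrix ι ι ℂ} (hX : X ∈ W) : c • X ∈ W := by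
  have := h.lin 0 h.zero X hX c
  simpa using this

theorem Hyp.add (h : Hyp Q v W) {X Y : Matrix ι ι ℂ} (hX : X ∈ W) (hY : Y ∈ W) : X + Y ∈ W := by
  have := h.lin X hX Y hY 1
  simpa using this

/-- the vectors `X v`, `X ∈ W` -/
def Wv (W : Set (Matrix ι ι ℂ)) (v w : ι → ℂ) : Prop := ∃ X ∈ W, X.mulVec v = w

theorem Hyp.wv_zero (h : Hyp Q v W) (u : ι → ℂ) : Wv W u 0 := ⟨0, h.zero, by simp⟩

theorem Hyp.wv_add (h : Hyp Q v W) {u w w' : ι → ℂ} (hw : Wv W u w) (hw' : Wv W u w') :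
    Wv W u (w + w') := by
  obtain ⟨X, hX, rfl⟩ := hw
  obtain ⟨Y, hY, rfl⟩ := hw'
  exact ⟨X + Y, h.add hX hY, by rw [Matrix.add_mulVec]⟩

theorem Hyp.wv_smul (h : Hyp Q v W) (c : ℂ) {u w : ι → ℂ} (hw : Wv W u w) : Wv W u (c • w) := by
  obtain ⟨X, hX, rfl⟩ := hw
  exact ⟨c • X, h.smul c hX, by rw [Matrix.smul_mulVec]⟩

theorem Hyp.orth (h : Hyp Q v W) {u w : ι → ℂ} (hw : Wv W u w) : bf Q u w = 0 := by
  obtain ⟨X, hX, rfl⟩ := hw
  have h1 := skew Q X (h.sk X hX) u u
  have h2 := bf_symm Q h.rts.sym (X.mulVec u) u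
  rw [h2] at h1
  have h3 : 2 * bf Q u (X.mulVec u) = 0 := by linear_combination h1
  simpa using h3

theorem Hyp.nrm (h : Hyp Q v W) {j : Fin q} (hj : v j ≠ 0) : bf Q (v j) (v j) = 1 := by
  rcases h.rts.nrm j with h1 | h1
  · exact absurd h1 hj
  · exact h1

theorem Hyp.wed_mem (h : Hyp Q v W) {j : Fin q} (hj : v j ≠ 0) {w : ι → ℂ}
    (hw : Wv W (v j) w) : wed Q w (v j) ∈ W := by
  have horth := h.orth hw
  obtain ⟨X, hX, rfl⟩ := hw
  have hn := h.nrm hj
  have hs := h.rts.sym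
  have h1 := h.lin X hX _ (h.cj j X hX) (-1)
  have e1 : X + (-1 : ℂ) • ((1 - (2 : ℂ) • pr Q (v j)) * X * (1 - (2 : ℂ) • pr Q (v j))) =
      (2 : ℂ) • wed Q (X.mulVec (v j)) (v j) := by
    apply ext_mulVec
    intro x
    have h2 : bf Q (v j) (X.mulVec x) = -bf Q (X.mulVec (v j)) x := by
      rw [skew Q X (h.sk X hX) (v j) x]
      ring
    rw [Matrix.add_mulVec, Matrix.smul_mulVec, ← Matrix.mulVec_mulVec, ← Matrix.mulVec_mulVec,
      Matrix.smul_mulVec, wed_mulVec Q hs]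
    simp only [Matrix.sub_mulVec, Matrix.one_mulVec, Matrix.smul_mulVec, pr_mulVec Q hs,
      Matrix.mulVec_sub, Matrix.mulVec_smul, horth, h2]
    funext i
    simp only [Pi.add_apply, Pi.smul_apply, Pi.sub_apply, smul_eq_mul]
    ring
  rw [e1] at h1
  have h2 := h.smul (1 / 2) h1
  rw [smul_smul] at h2
  norm_num at h2
  exact h2

theorem wed_neg (u w : ι → ℂ) : wed Q u w = (-1 : ℂ) • wed Q w u := by
  unfold wed
  rw [smul_sub, neg_one_smul, neg_one_smul]
  abel

theorem Hyp.wed_mem' (h : Hyp Q v W) {j : Fin q} (hj : v j ≠ 0) {w : ι → ℂ}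
    (hw : Wv W (v j) w) : wed Q (v j) w ∈ W := by
  rw [wed_neg]
  exact h.smul _ (h.wed_mem hj hw)

/-- the map along an edge -/
theorem Hyp.edge (h : Hyp Q v W) {i j : Fin q} (hi : v i ≠ 0) {w : ι → ℂ}
    (hw : Wv W (v i) w) : Wv W (v j) (bf Q w (v j) • v i - bf Q (v i) (v j) • w) :=
  ⟨wed Q (v i) w, h.wed_mem' hi hw, by rw [wed_mulVec Q h.rts.sym]⟩

theorem Hyp.orth_roots (h : Hyp Q v W) (y : ι → ℂ) (hy : ∀ j, bf Q (v j) y = 0) : y = 0 := by
  have hs := h.rts.sym
  obtain ⟨c, hc⟩ := h.rts.comm (pr Q y) (by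
    intro j
    apply ext_mulVec
    intro x
    rw [← Matrix.mulVec_mulVec, ← Matrix.mulVec_mulVec, pr_mulVec Q hs, pr_mulVec Q hs,
      pr_mulVec Q hs, pr_mulVec Q hs, bf_smul_right, bf_smul_right, bf_symm Q hs y (v j), hy j]
    simp)
  have hZ : ∀ x, bf Q y x • y = c • x := by
    intro x
    have := congrArg (fun A => A.mulVec x) hc
    simp only [pr_mulVec Q hs, Matrix.smul_mulVec, Matrix.one_mulVec] at this
    exact this
  have hcard := h.rts.card
  have h2 : 1 < Fintype.card ι := by omega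
  obtain ⟨a, b, hab⟩ := Fintype.one_lt_card_iff.mp h2
  have hx : ∃ x : ι → ℂ, x ≠ 0 ∧ bf Q x y = 0 := by
    by_cases ha : Q.mulVec y a = 0
    · refine ⟨Pi.single a 1, ?_, ?_⟩
      · intro h0
        have := congrFun h0 a
        simp at this
      · unfold bf
        rw [single_dotProduct, one_mul, ha]
    · refine ⟨(Q.mulVec y b) • Pi.single a 1 - (Q.mulVec y a) • Pi.single b 1, ?_, ?_⟩
      · intro h0
        have := congrFun h0 b
        simp [hab] at this
        exact ha this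
      · rw [bf_sub_left, bf_smul_left, bf_smul_left]
        unfold bf
        rw [single_dotProduct, single_dotProduct]
        ring
  obtain ⟨x, hx0, hxy⟩ := hx
  have h3 := hZ x
  rw [bf_symm Q hs y x, hxy, zero_smul] at h3
  have hc0 : c = 0 := by
    by_contra hne
    exact hx0 ((smul_eq_zero.mp h3.symm).resolve_left hne)
  by_contra hy0
  apply hy0
  apply bf_nondeg Q h.rts.det
  intro x
  have h4 := hZ x
  rw [hc0, zero_smul] at h4
  rw [bf_symm Q hs]
  exact (smul_eq_zero.mp h4).resolve_right hy0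

theorem Hyp.span (h : Hyp Q v W) : Submodule.span ℂ (Set.range v) = ⊤ := by
  by_contra hne
  obtain ⟨f, hf0, hf⟩ := Submodule.exists_le_ker_of_lt_top _ (lt_top_iff_ne_top.mpr hne)
  apply hf0
  set g : ι → ℂ := fun i => f (Pi.single i 1) with hg
  have hfx : ∀ x, f x = dotProduct x g := by
    intro x
    have h1 : x = ∑ i, x i • (Pi.single i 1 : ι → ℂ) := by
      funext k
      simp [Finset.sum_apply, Pi.single_apply]
    conv_lhs => rw [h1]
    rw [map_sum]
    simp only [map_smul, smul_eq_mul, dotProduct, hg]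
  have hdet : IsUnit Q.det := isUnit_iff_ne_zero.mpr h.rts.det
  have hy : Q.mulVec (Q⁻¹.mulVec g) = g := by
    rw [Matrix.mulVec_mulVec, Matrix.mul_nonsing_inv Q hdet, Matrix.one_mulVec]
  have h0 : Q⁻¹.mulVec g = 0 := by
    apply h.orth_roots
    intro j
    unfold bf
    rw [hy, ← hfx]
    exact hf (Submodule.subset_span ⟨j, rfl⟩)
  have hg0 : g = 0 := by rw [← hy, h0, Matrix.mulVec_zero]
  ext x
  simp [hfx, hg0]

/-- all vectors are reached from the roots -/
theorem Hyp.span_ind (h : Hyp Q v W) (P : (ι → ℂ) → Prop) (h1 : ∀ j, P (v j)) (h0 : P 0)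
    (h2 : ∀ x y, P x → P y → P (x + y)) (h3 : ∀ (c : ℂ) x, P x → P (c • x)) (x : ι → ℂ) :
    P x := by
  have hx : x ∈ Submodule.span ℂ (Set.range v) := by rw [h.span]; trivial
  induction hx using Submodule.span_induction with
  | mem x hx => obtain ⟨j, rfl⟩ := hx; exact h1 j
  | zero => exact h0
  | add x y _ _ hx hy => exact h2 x y hx hy
  | smul c x _ hx => exact h3 c x hx

/-- connectedness of the graph of the roots -/
theorem Hyp.ind (h : Hyp Q v W) (P : Fin q → Prop) (j0 : Fin q) (hj0 : v j0 ≠ 0) (hP0 : P j0)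
    (hstep : ∀ i j, v i ≠ 0 → v j ≠ 0 → bf Q (v i) (v j) ≠ 0 → P i → P j) :
    ∀ j, v j ≠ 0 → P j := by
  classical
  have hs := h.rts.sym
  set V1 := Submodule.span ℂ (v '' {i | P i}) with hV1
  set V2 := Submodule.span ℂ (v '' {i | ¬ P i}) with hV2
  have horth : ∀ x ∈ V1, ∀ y ∈ V2, bf Q x y = 0 := by
    intro x hx y hy
    induction hx using Submodule.span_induction with
    | mem x hx =>
      obtain ⟨i, hi, rfl⟩ := hx
      induction hy using Submodule.span_induction with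
      | mem y hy =>
        obtain ⟨j, hj, rfl⟩ := hy
        by_cases hi0 : v i = 0
        · rw [hi0, bf_zero_left]
        · by_cases hj0 : v j = 0
          · rw [hj0, bf_zero_right]
          · by_contra hne
            exact hj (hstep i j hi0 hj0 hne hi)
      | zero => exact bf_zero_right _ _
      | add y z _ _ hy hz => rw [bf_add_right, hy, hz, add_zero]
      | smul c y _ hy => rw [bf_smul_right, hy, mul_zero]
    | zero => exact bf_zero_left _ _
    | add x z _ _ hx hz => rw [bf_add_left, hx, hz, add_zero]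
    | smul c x _ hx => rw [bf_smul_left, hx, mul_zero]
  have hcompl : IsCompl V1 V2 := by
    constructor
    · rw [Submodule.disjoint_def]
      intro x hx1 hx2
      apply h.orth_roots
      intro j
      by_cases hj : P j
      · exact horth _ (Submodule.subset_span ⟨j, hj, rfl⟩) x hx2
      · rw [bf_symm Q hs]
        exact horth x hx1 _ (Submodule.subset_span ⟨j, hj, rfl⟩)
    · rw [codisjoint_iff, eq_top_iff, ← h.span, Submodule.span_le]
      rintro x ⟨j, rfl⟩
      by_cases hj : P j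
      · exact Submodule.mem_sup_left (Submodule.subset_span ⟨j, hj, rfl⟩)
      · exact Submodule.mem_sup_right (Submodule.subset_span ⟨j, hj, rfl⟩)
  set f : (ι → ℂ) →ₗ[ℂ] (ι → ℂ) := V1.subtype ∘ₗ Submodule.projectionOnto V1 V2 hcompl with hf
  have hf1 : ∀ x ∈ V1, f x = x := by
    intro x hx
    simp only [hf, LinearMap.comp_apply, Submodule.subtype_apply]
    have := Submodule.projectionOnto_apply_left hcompl ⟨x, hx⟩
    rw [this]
  have hf2 : ∀ x ∈ V2, f x = 0 := by
    intro x hx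
    simp only [hf, LinearMap.comp_apply, Submodule.subtype_apply]
    have := Submodule.projectionOnto_apply_right hcompl ⟨x, hx⟩
    rw [this]
    rfl
  have hfm : ∀ x, f x ∈ V1 := by
    intro x
    simp only [hf, LinearMap.comp_apply, Submodule.subtype_apply]
    exact Submodule.coe_mem _
  have hfs : ∀ x, x - f x ∈ V2 := by
    intro x
    have hx : x ∈ V1 ⊔ V2 := by rw [hcompl.sup_eq_top]; trivial
    obtain ⟨y, hy, z, hz, rfl⟩ := Submodule.mem_sup.mp hx
    rw [map_add, hf1 y hy, hf2 z hz, add_zero, add_sub_cancel_left]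
    exact hz
  obtain ⟨c, hc⟩ := h.rts.comm (LinearMap.toMatrix' f) (by
    intro j
    apply ext_mulVec
    intro x
    rw [← Matrix.mulVec_mulVec, ← Matrix.mulVec_mulVec, pr_mulVec Q hs, pr_mulVec Q hs,
      Matrix.mulVec_smul, LinearMap.toMatrix'_mulVec, LinearMap.toMatrix'_mulVec]
    by_cases hj : P j
    · have hvj : v j ∈ V1 := Submodule.subset_span ⟨j, hj, rfl⟩
      rw [hf1 _ hvj]
      have h1 := horth _ hvj _ (hfs x)
      rw [bf_sub_right, sub_eq_zero] at h1
      rw [h1]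
    · have hvj : v j ∈ V2 := Submodule.subset_span ⟨j, hj, rfl⟩
      rw [hf2 _ hvj, bf_symm Q hs, bf_symm Q hs (v j) (f x), horth _ (hfm x) _ hvj, zero_smul,
        smul_zero])
  have hfc : ∀ x, f x = c • x := by
    intro x
    rw [← LinearMap.toMatrix'_mulVec, hc, Matrix.smul_mulVec, Matrix.one_mulVec]
  have hc1 : c = 1 := by
    have h1 := hfc (v j0)
    rw [hf1 _ (Submodule.subset_span ⟨j0, hP0, rfl⟩)] at h1
    have h2 : (1 - c) • v j0 = 0 := by rw [sub_smul, one_smul, ← h1, sub_self]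
    have h3 := (smul_eq_zero.mp h2).resolve_right hj0
    linear_combination -h3
  intro j hj
  by_contra hPj
  have h1 := hfc (v j)
  rw [hf2 _ (Submodule.subset_span ⟨j, hPj, rfl⟩), hc1, one_smul] at h1
  exact hj h1.symm

/-- not totally isotropic -/
def NI (Q : Matrix ι ι ℂ) (W : Set (Matrix ι ι ℂ)) (u : ι → ℂ) : Prop :=
  ∃ w1 w2, Wv W u w1 ∧ Wv W u w2 ∧ bf Q w1 w2 ≠ 0

/-- the space `W_u + C u` -/
def Um (W : Set (Matrix ι ι ℂ)) (u x : ι → ℂ) : Prop := ∃ w, ∃ c : ℂ, Wv W u w ∧ x = w + c • u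

theorem Hyp.exists_NI (h : Hyp Q v W) : ∃ j, v j ≠ 0 ∧ NI Q W (v j) := by
  have hs := h.rts.sym
  by_contra hcon
  have hiso : ∀ j, v j ≠ 0 → ∀ w1 w2, Wv W (v j) w1 → Wv W (v j) w2 → bf Q w1 w2 = 0 := by
    intro j hj w1 w2 h1 h2
    by_contra h3
    exact hcon ⟨j, hj, w1, w2, h1, h2, h3⟩
  obtain ⟨X, hX, hX0⟩ := h.ne
  have hj1 : ∃ j, X.mulVec (v j) ≠ 0 := by
    by_contra hall
    push Not at hall
    apply hX0
    apply ext_mulVec
    intro x
    rw [Matrix.zero_mulVec]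
    apply h.span_ind (fun x => X.mulVec x = 0) hall
    · simp
    · intro x y hx hy
      rw [Matrix.mulVec_add, hx, hy, add_zero]
    · intro c x hx
      rw [Matrix.mulVec_smul, hx, smul_zero]
  obtain ⟨j1, hj1⟩ := hj1
  have hvj1 : v j1 ≠ 0 := by
    intro h0
    rw [h0, Matrix.mulVec_zero] at hj1
    exact hj1 rfl
  set w0 := X.mulVec (v j1) with hw0
  have hall : ∀ j, v j ≠ 0 → Wv W (v j) w0 := by
    apply h.ind (fun j => Wv W (v j) w0) j1 hvj1 ⟨X, hX, rfl⟩
    intro i j hi hj hb hP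
    have h1 := h.edge (j := j) hi hP
    have h2 := hiso j hj _ _ h1 h1
    have h3 := h.orth hP
    have h4 := hiso i hi _ _ hP hP
    rw [bf_sub_left, bf_sub_right, bf_sub_right] at h2
    simp only [bf_smul_left, bf_smul_right, h.nrm hi, h3, h4, bf_symm Q hs w0 (v i)] at h2
    have h5 : bf Q w0 (v j) = 0 := by
      have : bf Q w0 (v j) * bf Q w0 (v j) = 0 := by linear_combination h2
      exact mul_self_eq_zero.mp this
    rw [h5, zero_smul, zero_sub] at h1
    have h6 := h.wv_smul (-(bf Q (v i) (v j))⁻¹) h1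
    have e : (-(bf Q (v i) (v j))⁻¹) • -(bf Q (v i) (v j) • w0) = w0 := by
      rw [smul_neg, neg_smul, neg_neg, smul_smul, inv_mul_cancel₀ hb, one_smul]
    rw [e] at h6
    exact h6
  apply hj1
  apply h.orth_roots
  intro j
  by_cases hj : v j = 0
  · rw [hj, bf_zero_left]
  · exact h.orth (hall j hj)

/-- a neighbour lies in the space `W_v + C v` -/
theorem Hyp.nbr (h : Hyp Q v W) {i j : Fin q} (hi : v i ≠ 0) (hj : v j ≠ 0)
    (hb : bf Q (v i) (v j) ≠ 0) (hNI : NI Q W (v i)) :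
    ∃ w0, Wv W (v i) w0 ∧ v j = w0 + bf Q (v i) (v j) • v i := by
  have hs := h.rts.sym
  set b := bf Q (v i) (v j) with hbb
  by_cases hc : ∃ w, Wv W (v i) w ∧ bf Q w (v j) ≠ 0
  · obtain ⟨w, hw, ha⟩ := hc
    set a := bf Q w (v j) with haa
    have h1 := h.edge (j := j) hi hw
    rw [← haa, ← hbb] at h1
    have h2 : wed Q (v j) (a • v i - b • w) ∈ W := h.wed_mem' hj h1
    have h3 : Wv W (v i) ((wed Q (v j) (a • v i - b • w)).mulVec (v i)) := ⟨_, h2, rfl⟩
    have h4 := h.orth hw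
    rw [wed_mulVec Q hs, bf_sub_left, bf_smul_left, bf_smul_left, h.nrm hi, bf_symm Q hs w (v i), h4,
      bf_symm Q hs (v j) (v i), ← hbb] at h3
    have h5 := h.wv_add (h.wv_smul a⁻¹ h3) (h.wv_smul (-(b * b) * a⁻¹) hw)
    refine ⟨_, h5, ?_⟩
    funext k
    simp only [Pi.add_apply, Pi.smul_apply, Pi.sub_apply, smul_eq_mul]
    field_simp
    ring
  · push Not at hc
    obtain ⟨w1, w2, hw1, hw2, hne⟩ := hNI
    have h1 := h.edge (j := j) hi hw2
    rw [hc w2 hw2, ← hbb, zero_smul, zero_sub] at h1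
    have h2 : Wv W (v j) w2 := by
      have h6 := h.wv_smul (-b⁻¹) h1
      have e : (-b⁻¹) • -(b • w2) = w2 := by
        rw [smul_neg, neg_smul, neg_neg, smul_smul, inv_mul_cancel₀ hb, one_smul]
      rw [e] at h6
      exact h6
    have hX := h.wed_mem' hi hw1
    have hY := h.wed_mem' hj h2
    have h3 : Wv W (v i) ((wed Q (v i) w1 * wed Q (v j) w2 - wed Q (v j) w2 * wed Q (v i) w1).mulVec
        (v i)) := ⟨_, h.br _ hX _ hY, rfl⟩
    have o1 := h.orth hw1
    have o2 := h.orth hw2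
    have c1 : bf Q (v j) w1 = 0 := by rw [bf_symm Q hs]; exact hc w1 hw1
    rw [Matrix.sub_mulVec, ← Matrix.mulVec_mulVec, ← Matrix.mulVec_mulVec] at h3
    simp only [wed_mulVec Q hs, bf_sub_right, bf_smul_right, h.nrm hi, o1, o2, c1,
      bf_symm Q hs w1 (v i), bf_symm Q hs w2 (v i), bf_symm Q hs (v j) (v i),
      bf_symm Q hs w2 w1, ← hbb] at h3
    set d := bf Q w1 w2 with hd
    have h5 := h.wv_smul d⁻¹ h3
    refine ⟨_, h5, ?_⟩
    funext k
    simp only [Pi.add_apply, Pi.smul_apply, Pi.sub_apply, smul_eq_mul]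
    field_simp
    ring

theorem Hyp.NI_step (h : Hyp Q v W) {i j : Fin q} (hi : v i ≠ 0) (hj : v j ≠ 0)
    (hb : bf Q (v i) (v j) ≠ 0) (hNI : NI Q W (v i)) : NI Q W (v j) := by
  have hs := h.rts.sym
  obtain ⟨w0, hw0, hj0⟩ := h.nbr hi hj hb hNI
  set b := bf Q (v i) (v j) with hbb
  by_contra hcon
  have hiso : ∀ w1 w2, Wv W (v j) w1 → Wv W (v j) w2 → bf Q w1 w2 = 0 := by
    intro w1 w2 h1 h2
    by_contra h3
    exact hcon ⟨w1, w2, h1, h2, h3⟩
  have hval : ∀ w, Wv W (v i) w → bf Q w (v j) = bf Q w w0 := by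
    intro w hw
    conv_lhs => rw [hj0]
    rw [bf_add_right, bf_smul_right, bf_symm Q hs w (v i), h.orth hw, mul_zero, add_zero]
  have hkey : ∀ w1 w2, Wv W (v i) w1 → Wv W (v i) w2 →
      bf Q w1 w0 * bf Q w2 w0 + b * b * bf Q w1 w2 = 0 := by
    intro w1 w2 h1 h2
    have h3 := hiso _ _ (h.edge (j := j) hi h1) (h.edge (j := j) hi h2)
    rw [hval w1 h1, hval w2 h2, ← hbb] at h3
    simp only [bf_sub_left, bf_sub_right, bf_smul_left, bf_smul_right, h.nrm hi, h.orth h2,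
      bf_symm Q hs w1 (v i), h.orth h1] at h3
    linear_combination h3
  have hone : bf Q w0 w0 + b * b = 1 := by
    have h1 := h.nrm hj
    rw [hj0] at h1
    simp only [bf_add_left, bf_add_right, bf_smul_left, bf_smul_right, h.nrm hi, h.orth hw0,
      bf_symm Q hs w0 (v i)] at h1
    linear_combination h1
  have hs0 : bf Q w0 w0 = 0 := by
    have h1 := hkey w0 w0 hw0 hw0
    linear_combination h1 - bf Q w0 w0 * hone
  have hb1 : b * b = 1 := by rw [hs0] at hone; linear_combination hone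
  have hw10 : ∀ w, Wv W (v i) w → bf Q w w0 = 0 := by
    intro w hw
    have h1 := hkey w w0 hw hw0
    rw [hs0, hb1] at h1
    linear_combination h1
  obtain ⟨w1, w2, h1, h2, hne⟩ := hNI
  apply hne
  have h3 := hkey w1 w2 h1 h2
  rw [hw10 w1 h1, hb1] at h3
  linear_combination h3

theorem Hyp.Um_step (h : Hyp Q v W) {i j : Fin q} (hi : v i ≠ 0) (hj : v j ≠ 0)
    (hb : bf Q (v i) (v j) ≠ 0) (hNI : NI Q W (v i)) (x : ι → ℂ) (hx : Um W (v j) x) :
    Um W (v i) x := by
  have hs := h.rts.sym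
  obtain ⟨w0, hw0, hj0⟩ := h.nbr hi hj hb hNI
  obtain ⟨w, c, hw, rfl⟩ := hx
  set b := bf Q (v i) (v j) with hbb
  have h1 := h.edge (j := i) hj hw
  rw [bf_symm Q hs (v j) (v i), ← hbb] at h1
  set a := bf Q w (v i) with ha
  -- `w'' = a v_j - b w` lies in `W_i`
  have h2 := h.wv_add (h.wv_smul (-b⁻¹) h1) (h.wv_smul (b⁻¹ * a + c) hw0)
  refine ⟨_, (b⁻¹ * a + c) * b, h2, ?_⟩
  have h3 : w + c • v j = (-b⁻¹) • (a • v j - b • w) + (b⁻¹ * a + c) • v j := by
    funext k
    simp only [Pi.add_apply, Pi.smul_apply, Pi.sub_apply, smul_eq_mul]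
    field_simp
    ring
  rw [h3]
  rw [add_assoc]
  congr 1
  conv_lhs => rw [hj0]
  rw [smul_add, smul_smul]

theorem Hyp.wed_root (h : Hyp Q v W) (j : Fin q) (x : ι → ℂ) : wed Q x (v j) ∈ W := by
  have hs := h.rts.sym
  by_cases hj : v j = 0
  · have e : wed Q x (v j) = 0 := by
      apply ext_mulVec
      intro y
      rw [wed_mulVec Q hs, hj, bf_zero_left, zero_smul, smul_zero, sub_zero, Matrix.zero_mulVec]
    rw [e]
    exact h.zero
  · obtain ⟨j0, hj0, hNI0⟩ := h.exists_NI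
    have hNI : ∀ i, v i ≠ 0 → NI Q W (v i) :=
      h.ind (fun i => NI Q W (v i)) j0 hj0 hNI0 (fun i k hi hk hb hP => h.NI_step hi hk hb hP)
    have hU : ∀ i, v i ≠ 0 → ∀ y, Um W (v i) y → Um W (v j) y :=
      h.ind (fun i => ∀ y, Um W (v i) y → Um W (v j) y) j hj (fun y hy => hy)
        (fun i k hi hk hb hP y hy => hP y (h.Um_step hi hk hb (hNI i hi) y hy))
    have hall : ∀ y, Um W (v j) y := by
      apply h.span_ind
      · intro i
        by_cases hi : v i = 0
        · rw [hi]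
          exact ⟨0, 0, h.wv_zero _, by simp⟩
        · exact hU i hi (v i) ⟨0, 1, h.wv_zero _, by simp⟩
      · exact ⟨0, 0, h.wv_zero _, by simp⟩
      · rintro x y ⟨w, c, hw, rfl⟩ ⟨w', c', hw', rfl⟩
        exact ⟨w + w', c + c', h.wv_add hw hw', by rw [add_smul]; abel⟩
      · rintro c x ⟨w, c', hw, rfl⟩
        exact ⟨c • w, c * c', h.wv_smul c hw, by rw [smul_add, smul_smul]⟩
    obtain ⟨w, c, hw, rfl⟩ := hall x
    have h1 := h.wed_mem hj hw
    have e : wed Q (w + c • v j) (v j) = wed Q w (v j) := by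
      apply ext_mulVec
      intro y
      rw [wed_mulVec Q hs, wed_mulVec Q hs, bf_add_left, bf_smul_left]
      funext k
      simp only [Pi.add_apply, Pi.smul_apply, Pi.sub_apply, smul_eq_mul]
      ring
    rw [e]
    exact h1

theorem Hyp.final (h : Hyp Q v W) (u w : ι → ℂ) : wed Q u w ∈ W := by
  have hs := h.rts.sym
  apply h.span_ind (fun w => wed Q u w ∈ W) (fun j => h.wed_root j u)
  · have e : wed Q u 0 = 0 := by
      apply ext_mulVec
      intro y
      rw [wed_mulVec Q hs, bf_zero_left, zero_smul, smul_zero, sub_zero, Matrix.zero_mulVec]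
    rw [e]
    exact h.zero
  · intro x y hx hy
    have e : wed Q u (x + y) = wed Q u x + wed Q u y := by
      apply ext_mulVec
      intro z
      rw [Matrix.add_mulVec, wed_mulVec Q hs, wed_mulVec Q hs, wed_mulVec Q hs, bf_add_left]
      funext k
      simp only [Pi.add_apply, Pi.smul_apply, Pi.sub_apply, smul_eq_mul]
      ring
    rw [e]
    exact h.add hx hy
  · intro c x hx
    have e : wed Q u (c • x) = c • wed Q u x := by
      apply ext_mulVec
      intro z
      rw [Matrix.smul_mulVec, wed_mulVec Q hs, wed_mulVec Q hs, bf_smul_left]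
      funext k
      simp only [Pi.smul_apply, Pi.sub_apply, smul_eq_mul]
      ring
    rw [e]
    exact h.smul c hx

end SGL_

theorem sgl_proof : Stmt_Sgl := by
  intro ι _ _ q Q v hR W hlin hsk hcj hbr hne u w
  exact SGL_.Hyp.final ⟨hR, hlin, hsk, hcj, hbr, hne⟩ u w

end Pool.Agent.EVD
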