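import Pool.Agent.EVD.Stmts

set_option autoImplicit false

/-!
# EVD, module SRO: the power series at the base point, as holomorphic functions
-/

open scoped BigOperators Topology
open Metric Set

namespace Pool.Agent.EVD

open Pool.Agent.DGP (val Conv)

namespace SRO_

lemma diffOn_iter {f : ℂ → ℂ} {U : Set ℂ} (hU : IsOpen U) (hf : DifferentiableOn ℂ f U)
    (n : ℕ) : DifferentiableOn ℂ (iteratedDeriv n f) U := by
  induction n with
  | zero => simpa using hf
  | succ n ih =>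
    rw [iteratedDeriv_succ]
    exact ih.deriv hU

lemma hasDeriv_iter {f : ℂ → ℂ} {U : Set ℂ} (hU : IsOpen U) (hf : DifferentiableOn ℂ f U)
    (n : ℕ) {z : ℂ} (hz : z ∈ U) :
    HasDerivAt (iteratedDeriv n f) (iteratedDeriv (n + 1) f z) z := by
  rw [iteratedDeriv_succ]
  exact ((diffOn_iter hU hf n).differentiableAt (hU.mem_nhds hz)).hasDerivAt

/-- the recursion of the derivatives -/
lemma iter_rec {ι κ : Type} [Fintype ι] (A E : Matrix ι ι ℂ)
    (W : ℂ → Matrix ι κ ℂ) {U : Set ℂ} (hU : IsOpen U)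
    (hW : ∀ i j, DifferentiableOn ℂ (fun z => W z i j) U)
    (hode : ∀ z ∈ U, ∀ i j, z * deriv (fun z => W z i j) z +
      ∑ k, A i k * deriv (fun z => W z k j) z = ∑ k, E i k * W z k j) (n : ℕ) :
    ∀ z ∈ U, ∀ i j, z * iteratedDeriv (n + 1) (fun z => W z i j) z +
      ∑ k, A i k * iteratedDeriv (n + 1) (fun z => W z k j) z +
      n * iteratedDeriv n (fun z => W z i j) z =
      ∑ k, E i k * iteratedDeriv n (fun z => W z k j) z := by
  induction n with
  | zero =>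
    intro z hz i j
    simp only [zero_add, iteratedDeriv_one, iteratedDeriv_zero, Nat.cast_zero, zero_mul, add_zero]
    exact hode z hz i j
  | succ n ih =>
    intro z hz i j
    have hd : ∀ (l : ℕ) (k : ι), HasDerivAt (iteratedDeriv l (fun z => W z k j))
        (iteratedDeriv (l + 1) (fun z => W z k j) z) z := fun l k =>
      hasDeriv_iter hU (hW k j) l hz
    have h1 : HasDerivAt (fun z => z * iteratedDeriv (n + 1) (fun z => W z i j) z +
        ∑ k, A i k * iteratedDeriv (n + 1) (fun z => W z k j) z +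
        n * iteratedDeriv n (fun z => W z i j) z)
        ((1 * iteratedDeriv (n + 1) (fun z => W z i j) z +
          z * iteratedDeriv (n + 1 + 1) (fun z => W z i j) z) +
          ∑ k, A i k * iteratedDeriv (n + 1 + 1) (fun z => W z k j) z +
          n * iteratedDeriv (n + 1) (fun z => W z i j) z) z := by
      refine HasDerivAt.add (HasDerivAt.add ?_ ?_) ?_
      · exact (hasDerivAt_id z).mul (hd (n + 1) i)
      · exact HasDerivAt.fun_sum (fun k _ => (hd (n + 1) k).const_mul (A i k))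
      · exact (hd n i).const_mul _
    have h2 : HasDerivAt (fun z => ∑ k, E i k * iteratedDeriv n (fun z => W z k j) z)
        (∑ k, E i k * iteratedDeriv (n + 1) (fun z => W z k j) z) z :=
      HasDerivAt.fun_sum (fun k _ => (hd n k).const_mul (E i k))
    have h3 : (fun z => z * iteratedDeriv (n + 1) (fun z => W z i j) z +
        ∑ k, A i k * iteratedDeriv (n + 1) (fun z => W z k j) z +
        n * iteratedDeriv n (fun z => W z i j) z) =ᶠ[𝓝 z]
        (fun z => ∑ k, E i k * iteratedDeriv n (fun z => W z k j) z) := by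
      filter_upwards [hU.mem_nhds hz] with y hy
      exact ih y hy i j
    have h4 := (h1.congr_of_eventuallyEq h3.symm).unique h2
    push_cast
    linear_combination h4

variable {ι : Type} [Fintype ι] [DecidableEq ι]

omit [DecidableEq ι] in
lemma cm_mul (M N : Matrix ι ι ℚ) : cm (M * N) = cm M * cm N := by
  ext i j
  simp only [cm, Matrix.map_apply, Matrix.mul_apply]
  push_cast
  rfl

omit [Fintype ι] in
lemma cm_sub (E : Matrix ι ι ℚ) (n : ℕ) :
    cm (E - (n : ℚ) • (1 : Matrix ι ι ℚ)) = cm E - (n : ℂ) • (1 : Matrix ι ι ℂ) := by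
  ext i j
  simp only [cm, Matrix.map_apply, Matrix.sub_apply, Matrix.smul_apply, smul_eq_mul,
    Matrix.one_apply]
  by_cases h : i = j
  · simp [h]
  · simp [h]

lemma cm_det (A : Matrix ι ι ℚ) (hA : A.det ≠ 0) : (cm A).det ≠ 0 := by
  have h1 : (cm A).det = ((A.det : ℚ) : ℂ) := by
    have h := RingHom.map_det (Rat.castHom ℂ) A
    exact h.symm
  rw [h1]
  exact_mod_cast hA

/-- the recursion over `ℚ` -/
lemma Yc_rec (A E : Matrix ι ι ℚ) (hA : A.det ≠ 0) (n : ℕ) :
    ((n : ℚ) + 1) • (A * Yc A E (n + 1)) = (E - (n : ℚ) • (1 : Matrix ι ι ℚ)) * Yc A E n := by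
  have hn : ((n : ℚ) + 1) ≠ 0 := by positivity
  rw [Yc, Matrix.mul_smul, smul_smul, mul_one_div_cancel hn, one_smul, ← Matrix.mul_assoc,
    ← Matrix.mul_assoc, Matrix.mul_nonsing_inv _ (isUnit_iff_ne_zero.mpr hA), Matrix.one_mul]

lemma YcC_rec (A E : Matrix ι ι ℚ) (hA : A.det ≠ 0) (n : ℕ) :
    ((n : ℂ) + 1) • (cm A * cm (Yc A E (n + 1))) =
      (cm E - (n : ℂ) • (1 : Matrix ι ι ℂ)) * cm (Yc A E n) := by
  have h := congrArg cm (Yc_rec A E hA n)
  rw [cm_mul, cm_sub] at h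
  rw [← h, ← cm_mul]
  ext i j
  simp only [cm, Matrix.map_apply, Matrix.smul_apply, smul_eq_mul]
  push_cast
  rfl

/-- geometric bound -/
lemma bound (A E : Matrix ι ι ℚ) : ∃ K : ℝ, 0 ≤ K ∧ ∀ n i j, ‖cm (Yc A E n) i j‖ ≤ K ^ n := by
  let a : ι → ι → ℝ := fun i k => ‖cm (A⁻¹ * E) i k‖ + ‖cm A⁻¹ i k‖
  have ha : ∀ i k, 0 ≤ a i k := fun i k => by positivity
  refine ⟨∑ i, ∑ k, a i k, Finset.sum_nonneg fun i _ => Finset.sum_nonneg fun k _ => ha i k, ?_⟩
  intro n
  induction n with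
  | zero =>
    intro i j
    simp only [Yc, cm, Matrix.map_apply, pow_zero, Matrix.one_apply]
    split_ifs <;> simp
  | succ n ih =>
    intro i j
    have hn : (0 : ℝ) < (n : ℝ) + 1 := by positivity
    have h1 : cm (Yc A E (n + 1)) i j = (1 / ((n : ℂ) + 1)) *
        ∑ k, cm (A⁻¹ * (E - (n : ℚ) • (1 : Matrix ι ι ℚ))) i k * cm (Yc A E n) k j := by
      simp only [Yc, cm, Matrix.map_apply, Matrix.smul_apply, smul_eq_mul]
      rw [Matrix.mul_apply]
      push_cast
      rfl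
    have h2 : ∀ k, ‖cm (A⁻¹ * (E - (n : ℚ) • (1 : Matrix ι ι ℚ))) i k‖ ≤
        ((n : ℝ) + 1) * a i k := by
      intro k
      have h3 : cm (A⁻¹ * (E - (n : ℚ) • (1 : Matrix ι ι ℚ))) i k =
          cm (A⁻¹ * E) i k - (n : ℂ) * cm A⁻¹ i k := by
        rw [Matrix.mul_sub, Matrix.mul_smul, Matrix.mul_one]
        simp only [cm, Matrix.map_apply, Matrix.sub_apply, Matrix.smul_apply, smul_eq_mul]
        push_cast
        rfl
      rw [h3]
      calc ‖cm (A⁻¹ * E) i k - (n : ℂ) * cm A⁻¹ i k‖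
          ≤ ‖cm (A⁻¹ * E) i k‖ + ‖(n : ℂ) * cm A⁻¹ i k‖ := norm_sub_le _ _
        _ = ‖cm (A⁻¹ * E) i k‖ + n * ‖cm A⁻¹ i k‖ := by
            rw [norm_mul, Complex.norm_natCast]
        _ ≤ ((n : ℝ) + 1) * a i k := by
            have h4 := norm_nonneg (cm (A⁻¹ * E) i k)
            have h5 := norm_nonneg (cm A⁻¹ i k)
            have h6 : (0 : ℝ) ≤ n := by positivity
            have h7 := mul_nonneg h6 h4
            simp only [a]
            nlinarith
    rw [h1, norm_mul]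
    have h8 : ‖(1 / ((n : ℂ) + 1))‖ = 1 / ((n : ℝ) + 1) := by
      rw [norm_div, norm_one]
      congr 1
      have : ((n : ℂ) + 1) = ((n + 1 : ℕ) : ℂ) := by push_cast; ring
      rw [this, Complex.norm_natCast]
      push_cast; ring
    rw [h8]
    have h9 : ‖∑ k, cm (A⁻¹ * (E - (n : ℚ) • (1 : Matrix ι ι ℚ))) i k * cm (Yc A E n) k j‖ ≤
        ∑ k, ((n : ℝ) + 1) * a i k * (∑ i, ∑ k, a i k) ^ n := by
      refine (norm_sum_le _ _).trans (Finset.sum_le_sum fun k _ => ?_)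
      rw [norm_mul]
      exact mul_le_mul (h2 k) (ih k j) (norm_nonneg _) (mul_nonneg hn.le (ha i k))
    have h10 : ∑ k, a i k ≤ ∑ i, ∑ k, a i k :=
      Finset.single_le_sum (f := fun i => ∑ k, a i k)
        (fun i _ => Finset.sum_nonneg fun k _ => ha i k) (Finset.mem_univ i)
    have h11 : (0 : ℝ) ≤ (∑ i, ∑ k, a i k) ^ n :=
      pow_nonneg (Finset.sum_nonneg fun i _ => Finset.sum_nonneg fun k _ => ha i k) n
    calc 1 / ((n : ℝ) + 1) *
          ‖∑ k, cm (A⁻¹ * (E - (n : ℚ) • (1 : Matrix ι ι ℚ))) i k * cm (Yc A E n) k j‖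
        ≤ 1 / ((n : ℝ) + 1) * ∑ k, ((n : ℝ) + 1) * a i k * (∑ i, ∑ k, a i k) ^ n :=
          mul_le_mul_of_nonneg_left h9 (by positivity)
      _ = (∑ k, a i k) * (∑ i, ∑ k, a i k) ^ n := by
          rw [← Finset.sum_mul, ← Finset.mul_sum]
          field_simp
      _ ≤ (∑ i, ∑ k, a i k) * (∑ i, ∑ k, a i k) ^ n := mul_le_mul_of_nonneg_right h10 h11
      _ = (∑ i, ∑ k, a i k) ^ (n + 1) := by rw [pow_succ]; ring

/-- the convergent power series -/
lemma ser (A E : Matrix ι ι ℚ) : ∃ (ρ : ℝ) (Y Y' : ι → ι → ℂ → ℂ), 0 < ρ ∧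
    (∀ z ∈ ball (0 : ℂ) ρ, ∀ i j, HasDerivAt (Y i j) (Y' i j z) z) ∧
    (∀ z ∈ ball (0 : ℂ) ρ, ∀ i j, Summable fun n : ℕ => ‖cm (Yc A E n) i j * z ^ n‖) ∧
    (∀ z ∈ ball (0 : ℂ) ρ, ∀ i j, HasSum (fun n : ℕ => cm (Yc A E n) i j * z ^ n) (Y i j z)) ∧
    (∀ z ∈ ball (0 : ℂ) ρ, ∀ i j, HasSum
      (fun n : ℕ => cm (Yc A E n) i j * ((n : ℂ) * z ^ (n - 1))) (Y' i j z)) := by
  obtain ⟨K, hK, hb⟩ := bound A E
  have hρ : 0 < 1 / (2 * (K + 1)) := by positivity
  have hρ2 : K * (1 / (2 * (K + 1))) ≤ 1 / 2 := by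
    calc K * (1 / (2 * (K + 1))) ≤ (K + 1) * (1 / (2 * (K + 1))) :=
          mul_le_mul_of_nonneg_right (by linarith) (by positivity)
      _ = 1 / 2 := by field_simp
  have hpow : ∀ (n : ℕ) (z : ℂ), z ∈ ball (0 : ℂ) (1 / (2 * (K + 1))) →
      K ^ n * ‖z‖ ^ n ≤ (1 / 2 : ℝ) ^ n := by
    intro n z hz
    rw [mem_ball_zero_iff] at hz
    rw [← mul_pow]
    apply pow_le_pow_left₀ (by positivity)
    exact (mul_le_mul_of_nonneg_left hz.le hK).trans hρ2
  -- summability
  have hs00 : ∀ i j, ∀ z ∈ ball (0 : ℂ) (1 / (2 * (K + 1))),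
      Summable fun n : ℕ => ‖cm (Yc A E n) i j * z ^ n‖ := by
    intro i j z hz
    refine Summable.of_nonneg_of_le (fun n => norm_nonneg _) (fun n => ?_)
      (summable_geometric_of_lt_one (r := (1 / 2 : ℝ)) (by norm_num) (by norm_num))
    rw [norm_mul, norm_pow]
    exact (mul_le_mul_of_nonneg_right (hb n i j) (by positivity)).trans (hpow n z hz)
  have hs0 : ∀ i j, ∀ z ∈ ball (0 : ℂ) (1 / (2 * (K + 1))),
      Summable fun n : ℕ => cm (Yc A E n) i j * z ^ n := fun i j z hz => (hs00 i j z hz).of_norm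
  have hhalf : ‖(1 / 2 : ℝ)‖ < 1 := by
    rw [Real.norm_eq_abs, abs_of_pos (by norm_num)]
    norm_num
  have hu0 : Summable fun n : ℕ => ((n : ℝ) ^ 1 * (1 / 2 : ℝ) ^ n) :=
    summable_pow_mul_geometric_of_norm_lt_one 1 hhalf
  have hu : Summable fun n : ℕ => 2 * (K + 1) * ((n : ℝ) ^ 1 * (1 / 2 : ℝ) ^ n) :=
    Summable.mul_left (2 * (K + 1)) hu0
  have hbd : ∀ i j, ∀ (n : ℕ), ∀ z ∈ ball (0 : ℂ) (1 / (2 * (K + 1))),
      ‖cm (Yc A E n) i j * ((n : ℂ) * z ^ (n - 1))‖ ≤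
        2 * (K + 1) * ((n : ℝ) ^ 1 * (1 / 2 : ℝ) ^ n) := by
    intro i j n z hz
    rcases n with _ | n
    · simp
    · rw [norm_mul, norm_mul, norm_pow, Complex.norm_natCast, Nat.add_sub_cancel, pow_one]
      have h1 := hb (n + 1) i j
      have h2 := hpow n z hz
      have h3 : ‖cm (Yc A E (n + 1)) i j‖ * ((((n + 1 : ℕ) : ℝ)) * ‖z‖ ^ n) ≤
          K ^ (n + 1) * ((((n + 1 : ℕ) : ℝ)) * ‖z‖ ^ n) :=
        mul_le_mul_of_nonneg_right h1 (by positivity)
      refine h3.trans ?_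
      have h4 : K ^ (n + 1) * ((((n + 1 : ℕ) : ℝ)) * ‖z‖ ^ n) =
          K * (((n + 1 : ℕ) : ℝ)) * (K ^ n * ‖z‖ ^ n) := by ring
      have h5 : 2 * (K + 1) * ((((n + 1 : ℕ) : ℝ)) * (1 / 2 : ℝ) ^ (n + 1)) =
          (K + 1) * (((n + 1 : ℕ) : ℝ)) * (1 / 2 : ℝ) ^ n := by
        rw [pow_succ]; ring
      rw [h4, h5]
      apply mul_le_mul _ h2 (by positivity) (by positivity)
      apply mul_le_mul_of_nonneg_right (by linarith) (by positivity)
  have h0 : (0 : ℂ) ∈ ball (0 : ℂ) (1 / (2 * (K + 1))) := mem_ball_self hρ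
  refine ⟨1 / (2 * (K + 1)), fun i j z => ∑' n : ℕ, cm (Yc A E n) i j * z ^ n,
    fun i j z => ∑' n : ℕ, cm (Yc A E n) i j * ((n : ℂ) * z ^ (n - 1)), hρ, ?_, ?_, ?_, ?_⟩
  · intro z hz i j
    exact hasDerivAt_tsum_of_isPreconnected hu isOpen_ball
      (convex_ball (0 : ℂ) (1 / (2 * (K + 1)))).isPreconnected
      (fun n y _ => ((hasDerivAt_pow n y).const_mul (cm (Yc A E n) i j))) (hbd i j) h0
      (hs0 i j 0 h0) hz
  · exact fun z hz i j => hs00 i j z hz
  · exact fun z hz i j => (hs0 i j z hz).hasSum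
  · exact fun z hz i j => (Summable.of_norm_bounded hu (fun n => hbd i j n z hz)).hasSum

/-- the differential equation for the power series -/
lemma ode (A E : Matrix ι ι ℚ) (hA : A.det ≠ 0) (z : ℂ) (Y Y' : ι → ι → ℂ)
    (h0 : ∀ i j, HasSum (fun n : ℕ => cm (Yc A E n) i j * z ^ n) (Y i j))
    (h1 : ∀ i j, HasSum (fun n : ℕ => cm (Yc A E n) i j * ((n : ℂ) * z ^ (n - 1))) (Y' i j)) :
    (z • (1 : Matrix ι ι ℂ) + cm A) * Matrix.of Y' = cm E * Matrix.of Y := by
  have hs2 : ∀ i j, HasSum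
      (fun n : ℕ => ((n : ℂ) + 1) * cm (Yc A E (n + 1)) i j * z ^ n) (Y' i j) := by
    intro i j
    have h2 := (hasSum_nat_add_iff'
      (f := fun n : ℕ => cm (Yc A E n) i j * ((n : ℂ) * z ^ (n - 1))) 1).mpr (h1 i j)
    simp only [Finset.range_one, Finset.sum_singleton, Nat.cast_zero, zero_mul, mul_zero,
      sub_zero, Nat.add_sub_cancel] at h2
    have h3 : (fun n : ℕ => ((n : ℂ) + 1) * cm (Yc A E (n + 1)) i j * z ^ n) =
        fun n : ℕ => cm (Yc A E (n + 1)) i j * (((n + 1 : ℕ) : ℂ) * z ^ n) := by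
      funext n
      push_cast
      ring
    rw [h3]
    exact h2
  have hs3 : ∀ i j, HasSum
      (fun n : ℕ => (n : ℂ) * cm (Yc A E n) i j * z ^ n) (z * Y' i j) := by
    intro i j
    have h2 := (h1 i j).mul_left z
    have h3 : (fun n : ℕ => z * (cm (Yc A E n) i j * ((n : ℂ) * z ^ (n - 1)))) =
        fun n : ℕ => (n : ℂ) * cm (Yc A E n) i j * z ^ n := by
      funext n
      rcases n with _ | n
      · simp
      · rw [Nat.add_sub_cancel, pow_succ]; ring
    rwa [h3] at h2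
  ext i j
  have hl : HasSum (fun n : ℕ => (n : ℂ) * cm (Yc A E n) i j * z ^ n +
      ∑ k, cm A i k * (((n : ℂ) + 1) * cm (Yc A E (n + 1)) k j * z ^ n))
      (z * Y' i j + ∑ k, cm A i k * Y' k j) :=
    (hs3 i j).add (hasSum_sum fun k _ => (hs2 k j).mul_left (cm A i k))
  have hr : HasSum (fun n : ℕ => ∑ k, cm E i k * (cm (Yc A E n) k j * z ^ n))
      (∑ k, cm E i k * Y k j) := hasSum_sum fun k _ => (h0 k j).mul_left (cm E i k)
  have he : (fun n : ℕ => (n : ℂ) * cm (Yc A E n) i j * z ^ n +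
      ∑ k, cm A i k * (((n : ℂ) + 1) * cm (Yc A E (n + 1)) k j * z ^ n)) =
      fun n : ℕ => ∑ k, cm E i k * (cm (Yc A E n) k j * z ^ n) := by
    funext n
    have h2 := congrFun (congrFun (YcC_rec A E hA n) i) j
    rw [Matrix.smul_apply, Matrix.mul_apply, Matrix.sub_mul, Matrix.smul_mul, Matrix.one_mul,
      Matrix.sub_apply, Matrix.smul_apply, Matrix.mul_apply, smul_eq_mul, smul_eq_mul] at h2
    have h3 : ∑ k, cm A i k * (((n : ℂ) + 1) * cm (Yc A E (n + 1)) k j * z ^ n) =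
        (((n : ℂ) + 1) * ∑ k, cm A i k * cm (Yc A E (n + 1)) k j) * z ^ n := by
      rw [Finset.mul_sum, Finset.sum_mul]
      exact Finset.sum_congr rfl fun k _ => by ring
    have h4 : ∑ k, cm E i k * (cm (Yc A E n) k j * z ^ n) =
        (∑ k, cm E i k * cm (Yc A E n) k j) * z ^ n := by
      rw [Finset.sum_mul]
      exact Finset.sum_congr rfl fun k _ => by ring
    rw [h3, h4, h2]
    ring
  rw [he] at hl
  have h5 := hl.unique hr
  rw [Matrix.add_mul, Matrix.smul_mul, Matrix.one_mul, Matrix.add_apply, Matrix.smul_apply,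
    smul_eq_mul, Matrix.mul_apply, Matrix.mul_apply]
  exact h5

/-- uniqueness, by Taylor expansions -/
lemma uniq (A E : Matrix ι ι ℚ) (hA : A.det ≠ 0) (R : ℝ) (hR : 0 < R)
    (M M' : ℂ → Matrix ι ι ℂ)
    (hM : ∀ z ∈ ball (0 : ℂ) R, (∀ i j, HasDerivAt (fun z => M z i j) (M' z i j) z) ∧
      (z • (1 : Matrix ι ι ℂ) + cm A) * M' z = cm E * M z) (z : ℂ) (hz : z ∈ ball (0 : ℂ) R)
    (Y : Matrix ι ι ℂ)
    (h0 : ∀ i j, HasSum (fun n : ℕ => cm (Yc A E n) i j * z ^ n) (Y i j)) :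
    M z = Y * M 0 := by
  have hAC := cm_det A hA
  have hs : (0 : ℂ) ∈ ball (0 : ℂ) R := mem_ball_self hR
  have hdiff : ∀ i j, DifferentiableOn ℂ (fun z => M z i j) (ball (0 : ℂ) R) :=
    fun i j z hz => ((hM z hz).1 i j).differentiableAt.differentiableWithinAt
  have hode' : ∀ z ∈ ball (0 : ℂ) R, ∀ i j, z * deriv (fun z => M z i j) z +
      ∑ k, cm A i k * deriv (fun z => M z k j) z = ∑ k, cm E i k * M z k j := by
    intro z hz i j
    have h1 := congrFun (congrFun (hM z hz).2 i) j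
    rw [Matrix.add_mul, Matrix.smul_mul, Matrix.one_mul, Matrix.add_apply, Matrix.smul_apply,
      smul_eq_mul, Matrix.mul_apply, Matrix.mul_apply] at h1
    rw [((hM z hz).1 i j).deriv]
    have h2 : ∀ k, deriv (fun z => M z k j) z = M' z k j := fun k => ((hM z hz).1 k j).deriv
    simp only [h2]
    exact h1
  have hrec := iter_rec (cm A) (cm E) M isOpen_ball hdiff hode'
  let D : ℕ → Matrix ι ι ℂ := fun n => Matrix.of fun i j =>
    iteratedDeriv n (fun z => M z i j) (0 : ℂ)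
  have hD0 : D 0 = M 0 := by
    ext i j
    simp [D]
  have hDrec : ∀ n, cm A * D (n + 1) = (cm E - (n : ℂ) • (1 : Matrix ι ι ℂ)) * D n := by
    intro n
    ext i j
    have h1 := hrec n 0 hs i j
    rw [Matrix.mul_apply, Matrix.sub_mul, Matrix.smul_mul, Matrix.one_mul,
      Matrix.sub_apply, Matrix.smul_apply, smul_eq_mul, Matrix.mul_apply]
    simp only [D, Matrix.of_apply]
    linear_combination h1
  have hD : ∀ n, D n = (n.factorial : ℂ) • (cm (Yc A E n) * M 0) := by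
    intro n
    induction n with
    | zero =>
      rw [hD0]
      have h1 : cm (Yc A E 0) = 1 := by
        ext i j
        simp only [Yc, cm, Matrix.map_apply, Matrix.one_apply]
        split_ifs <;> simp
      rw [h1]
      simp
    | succ n ih =>
      have h1 := hDrec n
      have h2 := YcC_rec A E hA n
      have h3 : cm A * D (n + 1) =
          cm A * (((n + 1).factorial : ℂ) • (cm (Yc A E (n + 1)) * M 0)) := by
        rw [h1, ih, Matrix.mul_smul, ← Matrix.mul_assoc, ← h2, Matrix.mul_smul,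
          ← Matrix.mul_assoc, Matrix.smul_mul, smul_smul, Nat.factorial_succ]
        congr 1
        push_cast
        ring
      have h4 := congrArg (fun N => (cm A)⁻¹ * N) h3
      rw [← Matrix.mul_assoc, ← Matrix.mul_assoc,
        Matrix.nonsing_inv_mul _ (isUnit_iff_ne_zero.mpr hAC), Matrix.one_mul,
        Matrix.one_mul] at h4
      exact h4
  ext i j
  have h1 := Complex.hasSum_taylorSeries_on_ball (hdiff i j) hz
  have h4 : (fun n : ℕ => ∑ k, cm (Yc A E n) i k * z ^ n * M 0 k j) =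
      fun n : ℕ => (n.factorial : ℂ)⁻¹ • (z - 0) ^ n •
        iteratedDeriv n (fun z => M z i j) (0 : ℂ) := by
    funext n
    have h2 : iteratedDeriv n (fun z => M z i j) (0 : ℂ) = D n i j := rfl
    rw [h2, hD n, Matrix.smul_apply, sub_zero, Matrix.mul_apply]
    simp only [smul_eq_mul]
    have h3 : ((n.factorial : ℕ) : ℂ) ≠ 0 := by exact_mod_cast n.factorial_ne_zero
    have h5 : ∑ k, cm (Yc A E n) i k * z ^ n * M 0 k j =
        z ^ n * ∑ k, cm (Yc A E n) i k * M 0 k j := by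
      rw [Finset.mul_sum]
      exact Finset.sum_congr rfl fun k _ => by ring
    rw [h5]
    field_simp
  have h6 : HasSum (fun n : ℕ => ∑ k, cm (Yc A E n) i k * z ^ n * M 0 k j)
      (∑ k, Y i k * M 0 k j) := hasSum_sum fun k _ => (h0 i k).mul_right (M 0 k j)
  rw [h4] at h6
  rw [Matrix.mul_apply]
  exact h1.unique h6

end SRO_

open SRO_ in
theorem sro_proof : Stmt_Sro := by
  intro ι _ _ A E hA
  obtain ⟨ρ₁, Y, Y', hρ₁, hder, hsn, hs0, hs1⟩ := ser A E
  have hAC := cm_det A hA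
  -- the determinant
  have hcont : Continuous fun z : ℂ => (z • (1 : Matrix ι ι ℂ) + cm A).det := by
    apply Continuous.matrix_det
    fun_prop
  have hev : ∀ᶠ z in 𝓝 (0 : ℂ), (z • (1 : Matrix ι ι ℂ) + cm A).det ≠ 0 := by
    apply hcont.continuousAt.eventually_ne
    simpa using hAC
  obtain ⟨ρ₀, hρ₀, hdet⟩ := Metric.eventually_nhds_iff_ball.mp hev
  have hsub1 : ball (0 : ℂ) (min ρ₀ ρ₁) ⊆ ball (0 : ℂ) ρ₁ := ball_subset_ball (min_le_right _ _)
  have hsub0 : ball (0 : ℂ) (min ρ₀ ρ₁) ⊆ ball (0 : ℂ) ρ₀ := ball_subset_ball (min_le_left _ _)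
  have hmin : 0 < min ρ₀ ρ₁ := lt_min hρ₀ hρ₁
  refine ⟨min ρ₀ ρ₁, fun z => Matrix.of fun i j => Y i j z, fun z => Matrix.of fun i j => Y' i j z,
    hmin, ?_, ?_, ?_, ?_⟩
  · ext i j
    change Y i j 0 = _
    have h1 := hs0 0 (mem_ball_self hρ₁) i j
    have h2 : HasSum (fun n : ℕ => cm (Yc A E n) i j * (0 : ℂ) ^ n)
        (cm (Yc A E 0) i j * (0 : ℂ) ^ 0) := by
      apply hasSum_single
      intro n hn
      rw [zero_pow hn, mul_zero]
    have h3 := h1.unique h2
    rw [h3, pow_zero, mul_one]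
    simp only [Yc, cm, Matrix.map_apply, Matrix.one_apply]
    split_ifs <;> simp
  · intro z hz
    refine ⟨hdet z (hsub0 hz), fun i j => hder z (hsub1 hz) i j, ?_⟩
    exact ode A E hA z (fun i j => Y i j z) (fun i j => Y' i j z) (hs0 z (hsub1 hz))
      (hs1 z (hsub1 hz))
  · intro w hw
    have hwb : (w : ℂ) ∈ ball (0 : ℂ) (min ρ₀ ρ₁) := by
      rw [mem_ball_zero_iff, Complex.norm_real, Real.norm_eq_abs]
      exact hw
    have hcoeff : ∀ (p : ι × ι) (n : ℕ),
        ((PowerSeries.coeff n (Ys A E p) : ℚ) : ℝ) = ((Yc A E n p.1 p.2 : ℚ) : ℝ) := by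
      intro p n
      unfold Ys
      rw [PowerSeries.coeff_mk]
    constructor
    · intro p
      have h1 := hsn w (hsub1 hwb) p.1 p.2
      unfold Conv
      refine h1.congr ?_
      intro n
      rw [hcoeff, norm_mul, norm_pow, Complex.norm_real, Real.norm_eq_abs]
      congr 1
      rw [cm, Matrix.map_apply, ← Complex.ofReal_ratCast, Complex.norm_real, Real.norm_eq_abs]
    · ext i j
      change Y i j w = _
      rw [← (hs0 w (hsub1 hwb) i j).tsum_eq]
      unfold Yv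
      rw [Matrix.of_apply]
      unfold val
      rw [Complex.ofReal_tsum]
      apply tsum_congr
      intro n
      rw [hcoeff, cm, Matrix.map_apply]
      push_cast
      ring
  · intro R hR M M' hM z hz
    have hzR : z ∈ ball (0 : ℂ) R := ball_subset_ball (min_le_right _ _) hz
    have hz1 : z ∈ ball (0 : ℂ) ρ₁ :=
      hsub1 (ball_subset_ball (min_le_left _ _) hz)
    exact uniq A E hA R hR M M' hM z hzR _ (hs0 z hz1)

end Pool.Agent.EVD
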