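import Pool.Agent.EVD.Stmts

set_option autoImplicit false

/-!
# EVD, TFO: facts on the polynomial `T = det (X + A)`
-/

open Finset

namespace Pool.Agent.EVD

namespace TFO_

open Pool.Agent.DGP (IsZ)

variable {ι : Type} [Fintype ι] [DecidableEq ι]

lemma sm_eq (A : Matrix ι ι ℚ) : Sm A = Matrix.charmatrix (-A) := by
  ext i j
  by_cases h : i = j
  · subst h
    simp [Sm, Matrix.charmatrix_apply_eq]
  · simp [Sm, Matrix.charmatrix_apply_ne _ _ _ h, Matrix.one_apply_ne h]

lemma tp_eq (A : Matrix ι ι ℚ) : Tp A = (-A).charpoly := by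
  unfold Tp Matrix.charpoly
  rw [sm_eq]

lemma eval_eq (A : Matrix ι ι ℚ) (s : ℚ) : (Tp A).eval s =
    (s • (1 : Matrix ι ι ℚ) + A).det := by
  unfold Tp
  have h := RingHom.map_det (Polynomial.evalRingHom s) (Sm A)
  rw [Polynomial.coe_evalRingHom] at h
  rw [h]
  congr 1
  ext i j
  by_cases hij : i = j
  · subst hij
    simp [Sm]
  · simp [Sm, Matrix.one_apply_ne hij]

lemma natDeg (A : Matrix ι ι ℚ) : (Tp A).natDegree = Fintype.card ι := by
  rw [tp_eq, Matrix.charpoly_natDegree_eq_dim]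

end TFO_

open TFO_ in
theorem tfo_proof : Stmt_Tfo := by
  intro ι _ _ A
  refine ⟨?_, natDeg A, eval_eq A, ?_, ?_⟩
  · rw [tp_eq]
    exact Matrix.charpoly_monic _
  · unfold kap
    exact Nat.one_le_iff_ne_zero.2 (Finset.prod_ne_zero_iff.2 (fun l _ => Rat.den_nz _))
  · intro l
    by_cases hl : l ∈ range (Fintype.card ι + 1)
    · obtain ⟨b, hb⟩ := Finset.dvd_prod_of_mem (fun l => ((Tp A).coeff l).den) hl
      refine ⟨(b : ℤ) * ((Tp A).coeff l).num, ?_⟩
      have h1 : (kap A : ℚ) = (((Tp A).coeff l).den : ℚ) * (b : ℚ) := by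
        unfold kap
        rw [hb]
        push_cast
        ring
      rw [h1]
      have h2 := Rat.mul_den_eq_num ((Tp A).coeff l)
      push_cast
      rw [← h2]
      ring
    · have h0 : (Tp A).coeff l = 0 := by
        refine Polynomial.coeff_eq_zero_of_natDegree_lt ?_
        rw [natDeg]
        rw [Finset.mem_range, not_lt] at hl
        omega
      rw [h0]
      exact ⟨0, by simp⟩

end Pool.Agent.EVD
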