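import Pool.Agent.EVD.Stmts

set_option autoImplicit false

/-!
# EVD, module THO: polynomial relations between the solutions of several systems
-/

open scoped BigOperators Topology
open Metric Set MeasureTheory

namespace Pool.Agent.EVD

noncomputable section

namespace THO_

lemma diff_eval {I : Type} {ι : I → Type} {S : Set ℂ} (M : ℂ → ∀ k, Matrix (ι k) (ι k) ℂ)
    (hf : ∀ k i j, DifferentiableOn ℂ (fun z => M z k i j) S)
    (P : MvPolynomial (Option (Σ k, ι k × ι k)) ℂ) :
    DifferentiableOn ℂ (fun t => MvPolynomial.eval (pt t (M t)) P) S := by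
  induction P using MvPolynomial.induction_on with
  | C c => simp
  | add p q hp hq =>
    simp only [map_add]
    exact hp.add hq
  | mul_X p i hp =>
    simp only [map_mul, MvPolynomial.eval_X]
    refine hp.mul ?_
    cases i with
    | none => exact differentiableOn_id
    | some i => exact hf i.1 i.2.1 i.2.2

/-- A holomorphic function on a preconnected open set which vanishes near a point. -/
lemma ident {U : Set ℂ} (hU : IsOpen U) (hc : IsPreconnected U) {f : ℂ → ℂ}
    (hf : DifferentiableOn ℂ f U) {b : ℂ} {r : ℝ} (hr : 0 < r) (hb : b ∈ U)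
    (h0 : ∀ s ∈ ball b r, f s = 0) : ∀ s ∈ U, f s = 0 := by
  intro s hs
  have ha : AnalyticOnNhd ℂ f U := hf.analyticOnNhd hU
  have h1 : f =ᶠ[𝓝 b] 0 := by
    filter_upwards [ball_mem_nhds b hr] with z hz
    exact h0 z hz
  exact ha.eqOn_zero_of_preconnected_of_eventuallyEq_zero hc hb h1 hs

lemma hol_mul {ι : Type} [Fintype ι] {S : Set ℂ} {Φ : ℂ → Matrix ι ι ℂ}
    (hΦ : ∀ i j, DifferentiableOn ℂ (fun z => Φ z i j) S) (h : Matrix ι ι ℂ) (i j : ι) :
    DifferentiableOn ℂ (fun z => (Φ z * h) i j) S := by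
  simp only [Matrix.mul_apply]
  exact DifferentiableOn.fun_sum fun k _ => (hΦ i k).mul_const _

/-- `W = Φ W(b)` near `b`. -/
lemma eq_fund (hUn : GPH.Stmt_Uniq) {ι : Type} [Fintype ι] [DecidableEq ι] {q : ℕ}
    (T : Fin q → ℂ) (R : Fin q → Matrix ι ι ℂ) (b : ℂ) (Φ W : ℂ → Matrix ι ι ℂ) (r : ℝ)
    (hr : 0 < r) (hoff : ∀ z ∈ ball b r, ∀ i, z ≠ T i) (hΦ : GPH.MSol (ball b r) (FB T R) Φ)
    (h1 : Φ b = 1) (hW : GPH.MSol (ball b r) (FB T R) W) :
    ∀ z ∈ ball b r, W z = Φ z * W b := by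
  have hcol : ∀ j, ∀ z ∈ ball b r, (fun k => W z k j - (Φ z * W b) k j) = 0 := by
    intro j
    refine hUn ι (ball b r) (FB T R) isOpen_ball
      (convex_ball b r).isPreconnected ?_ (fun z k => W z k j - (Φ z * W b) k j) ?_ b
      (mem_ball_self hr) ?_
    · intro k l z hz
      have hz' := hoff z hz
      unfold FB
      simp only [Matrix.sum_apply, Matrix.smul_apply, smul_eq_mul]
      refine DifferentiableAt.differentiableWithinAt ?_
      refine DifferentiableAt.fun_sum fun i _ => ?_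
      refine DifferentiableAt.mul_const ?_ _
      exact ((differentiableAt_id.sub_const _).inv (sub_ne_zero.mpr (hz' i)))
    · intro z hz k
      have h1 := hW z hz k j
      have h2 : HasDerivAt (fun z => (Φ z * W b) k j) ((FB T R z * (Φ z * W b)) k j) z := by
        have h3 : ∀ l, HasDerivAt (fun z => Φ z k l * W b l j)
            ((FB T R z * Φ z) k l * W b l j) z := fun l => (hΦ z hz k l).mul_const _
        have h4 := HasDerivAt.fun_sum (u := Finset.univ) fun l _ => h3 l
        rw [← Matrix.mul_assoc]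
        simp only [Matrix.mul_apply] at h4 ⊢
        exact h4
      have h5 := h1.sub h2
      refine h5.congr_deriv ?_
      simp only [Matrix.mulVec, dotProduct, Matrix.mul_apply (M := FB T R z)]
      rw [← Finset.sum_sub_distrib]
      exact Finset.sum_congr rfl fun l _ => by ring
    · funext k
      simp [h1]
  intro z hz
  ext k j
  have := congrFun (hcol j z hz) k
  simpa [sub_eq_zero] using this

/-- `P (z, Φ_k γ_k h_k)` as a polynomial in `γ`. -/
lemma poly {I : Type} {ι : I → Type} [∀ k, Fintype (ι k)] (z : ℂ)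
    (Φ h : ∀ k, Matrix (ι k) (ι k) ℂ) (P : MvPolynomial (Option (Σ k, ι k × ι k)) ℂ) :
    ∃ P' : MvPolynomial (Σ k, ι k × ι k) ℂ, ∀ γ : ∀ k, Matrix (ι k) (ι k) ℂ,
      MvPolynomial.eval (fun p => γ p.1 p.2.1 p.2.2) P' =
        MvPolynomial.eval (pt z (fun k => Φ k * (γ k * h k))) P := by
  induction P using MvPolynomial.induction_on with
  | C c => exact ⟨MvPolynomial.C c, fun γ => by simp⟩
  | add p q hp hq =>
    obtain ⟨p', hp'⟩ := hp
    obtain ⟨q', hq'⟩ := hq
    exact ⟨p' + q', fun γ => by rw [map_add, map_add, hp', hq']⟩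
  | mul_X p i hp =>
    obtain ⟨p', hp'⟩ := hp
    cases i with
    | none => exact ⟨p' * MvPolynomial.C z, fun γ => by
        rw [map_mul, map_mul, hp', MvPolynomial.eval_C, MvPolynomial.eval_X]; rfl⟩
    | some i =>
      refine ⟨p' * ∑ a, MvPolynomial.C (Φ i.1 i.2.1 a) * ∑ b,
        MvPolynomial.X ⟨i.1, (a, b)⟩ * MvPolynomial.C (h i.1 b i.2.2), fun γ => ?_⟩
      rw [map_mul, map_mul, hp', MvPolynomial.eval_X]
      congr 1
      simp only [map_sum, map_mul, MvPolynomial.eval_C, MvPolynomial.eval_X]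
      rfl

lemma pr_sq {ι : Type} [Fintype ι] [DecidableEq ι] (Q : Matrix ι ι ℂ) (v : ι → ℂ)
    (h : v = 0 ∨ dotProduct v (Q.mulVec v) = 1) : pr Q v * pr Q v = pr Q v := by
  rcases h with h | h
  · subst h
    simp [pr]
  · rw [pr, Matrix.vecMulVec_mul_vecMulVec, dotProduct_comm, h, one_smul]

lemma msol {ι : Type} [Fintype ι] [DecidableEq ι] (hFb : Stmt_Fbe) (A U E : Matrix ι ι ℂ)
    (e r : ℂ) (q : ℕ) (T : Fin q → ℂ) (x : Fin q → ι → ℂ) (hU : U.transpose = U)
    (hS : Sy A U e r T x) (V : Set ℂ) (hV : ∀ z ∈ V, ∀ j, z ≠ T j)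
    (hd : ∀ z ∈ V, ((e + r * z) • (1 : Matrix ι ι ℂ) + A).det ≠ 0) (W W' : ℂ → Matrix ι ι ℂ)
    (hW : ∀ z ∈ V, (∀ i j, HasDerivAt (fun z => W z i j) (W' z i j) z) ∧
      ((e + r * z) • (1 : Matrix ι ι ℂ) + A) * W' z = r • (E * W z)) :
    GPH.MSol V (FB T (Ro U E x)) W := by
  intro z hz k j
  have h1 := (hFb ι A U E e r q T x hU hS).2 z (hV z hz)
  have h2 : W' z = FB T (Ro U E x) z * W z := by
    have hu : IsUnit ((e + r * z) • (1 : Matrix ι ι ℂ) + A).det :=
      isUnit_iff_ne_zero.2 (hd z hz)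
    have h3 : ((e + r * z) • (1 : Matrix ι ι ℂ) + A) * W' z =
        ((e + r * z) • (1 : Matrix ι ι ℂ) + A) * (FB T (Ro U E x) z * W z) := by
      rw [(hW z hz).2, ← Matrix.mul_assoc, h1, Matrix.smul_mul]
    have h4 := congrArg (fun M => ((e + r * z) • (1 : Matrix ι ι ℂ) + A)⁻¹ * M) h3
    simp only [← Matrix.mul_assoc, Matrix.nonsing_inv_mul _ hu, Matrix.one_mul] at h4
    exact h4
  rw [← h2]
  exact (hW z hz).1 k j

end THO_

open THO_ in
theorem tho_proof (hCmn : Stmt_Cmn) (hFbe : Stmt_Fbe) (_hRsq : Stmt_Rsq) (hFno : Stmt_Fno)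
    (hLoo : Stmt_Loo) (hMno : Stmt_Mno) (hCmo : Stmt_Cmo) (hIno : Stmt_Ino) (hDnp : Stmt_Dnp)
    (hGB : GPH.Stmt_GeoB) (hGC : GPH.Stmt_GeoC) (hUn : GPH.Stmt_Uniq) : Stmt_Tho := by
  intro I _ _ ι _ _ κ A B U b i₀ hO e r hr hsep z0 ρ hρ hdet W W' hW0 hW P hP z hz a ha
  rcases isEmpty_or_nonempty I with hI | hI
  · have h1 := hP z hz
    have h2 : (fun k => W k z * a k) = fun k => W k z := by
      funext k
      exact (hI.false k).elim
    rw [h2]
    exact h1
  obtain ⟨q, T, x, hSy, hxs, hxn⟩ := hCmn I ι κ A B U b i₀ hO e r hr hsep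
  obtain ⟨k0⟩ := id hI
  obtain ⟨b0, hb, hpos⟩ := hGB q T (hSy k0).inj z0 ρ hρ
  obtain ⟨hCopen, hbC, hCstar, hCoff⟩ := hGC q T b0 hpos.1
  have hCpre : IsPreconnected (GPH.Cut b0 T) :=
    (hCstar.isPathConnected hbC).isConnected.isPreconnected
  have hUs : ∀ k, (cm (U k)).transpose = cm (U k) := by
    intro k
    rw [cm, ← Matrix.transpose_map, (hO k).Usym]
  -- the ball does not contain the points `T j`
  have hoffB : ∀ z ∈ ball z0 ρ, ∀ j, z ≠ T j := by
    intro z hz j
    obtain ⟨k, hk⟩ := hxn j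
    exact ((hFbe (ι k) (cm (A k)) (cm (U k)) (cm (Eo (κ k) (B k))) (e k) (r k) q T (x k)
      (hUs k) (hSy k)).1 z).1 (hdet k z hz) j hk
  have hWm : ∀ k, GPH.MSol (ball z0 ρ) (FB T (Ro (cm (U k)) (cm (Eo (κ k) (B k))) (x k)))
      (W k) := fun k => msol hFbe (cm (A k)) (cm (U k)) (cm (Eo (κ k) (B k))) (e k) (r k) q T
        (x k) (hUs k) (hSy k) (ball z0 ρ) hoffB (hdet k) (W k) (W' k) (hW k)
  have hF := fun k => hFno (ι k) (κ k) (A k) (B k) (U k) (b k) (i₀ k) (hO k) (e k) (r k) q T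
    (x k) (hSy k) b0 hpos.1
  choose Φ hΦ using fun k => (hF k).1
  choose v hv hvx hvL using fun k j => hLoo (ι k) (κ k) (A k) (B k) (U k) (b k) (i₀ k) (hO k)
    (e k) (r k) q T (x k) (hSy k) b0 hpos (Φ k) (hΦ k) j
  set Q : ∀ k, Matrix (ι k) (ι k) ℂ := fun k => No (cm (A k)) (cm (U k)) (e k) (r k) b0 with hQ
  have hRts : ∀ k, Rts (Q k) (v k) := fun k => ⟨(hO k).three, (hF k).2.1, (hF k).2.2, hv k,
    hCmo (ι k) (κ k) (A k) (B k) (U k) (b k) (i₀ k) (hO k) (e k) (r k) q T (x k) (hSy k) b0 hpos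
      (Φ k) (hΦ k) (v k) (hv k) (hvL k)⟩
  have hsv : ∀ k l, k ≠ l → ∃ j, ¬(v k j = 0 ↔ v l j = 0) := by
    intro k l hkl
    obtain ⟨j, hj⟩ := hxs k l hkl
    refine ⟨j, ?_⟩
    rw [hvx k j, hvx l j]
    exact hj
  have hinf := fun k => hIno (ι k) (κ k) (A k) (B k) (U k) (b k) (i₀ k) (hO k) (e k) (r k) q T
    (x k) (hSy k) b0 hpos (Φ k) (hΦ k) (v k) (hv k) (hvL k)
  have hden := hDnp I ι q Q v hRts hsv hinf
  have hΦd : ∀ k i j, DifferentiableOn ℂ (fun z => Φ k z i j) (GPH.Cut b0 T) :=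
    fun k i j z hz => ((hΦ k).sol z hz i j).differentiableAt.differentiableWithinAt
  have hWd : ∀ k i j, DifferentiableOn ℂ (fun z => W k z i j) (ball z0 ρ) :=
    fun k i j z hz => ((hW k z hz).1 i j).differentiableAt.differentiableWithinAt
  -- a small ball around `b0`
  obtain ⟨r1, hr1, hr1s⟩ := Metric.isOpen_iff.mp hCopen b0 hbC
  obtain ⟨r2, hr2, hr2s⟩ := Metric.isOpen_iff.mp isOpen_ball b0 hb
  set s := min r1 r2 with hs
  have hspos : 0 < s := lt_min hr1 hr2
  have hsC : ball b0 s ⊆ GPH.Cut b0 T := (ball_subset_ball (min_le_left _ _)).trans hr1s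
  have hsB : ball b0 s ⊆ ball z0 ρ := (ball_subset_ball (min_le_right _ _)).trans hr2s
  have hWΦ : ∀ k, ∀ z ∈ ball b0 s, W k z = Φ k z * W k b0 := fun k =>
    eq_fund hUn T (Ro (cm (U k)) (cm (Eo (κ k) (B k))) (x k)) b0 (Φ k) (W k) s hspos
      (fun z hz => hCoff z (hsC hz)) (fun z hz => (hΦ k).sol z (hsC hz)) (hΦ k).one
      (fun z hz => hWm k z (hsB hz))
  -- the relation on the cut plane
  have hQ0 : ∀ z ∈ GPH.Cut b0 T, MvPolynomial.eval (pt z (fun k => Φ k z * W k b0)) P = 0 := by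
    have hd := diff_eval (S := GPH.Cut b0 T) (fun z k => Φ k z * W k b0)
      (fun k => hol_mul (hΦd k) (W k b0)) P
    refine ident hCopen hCpre hd hspos hbC ?_
    intro z hz
    have h1 := hP z (hsB hz)
    have h2 : (fun k => W k z) = fun k => Φ k z * W k b0 := by
      funext k
      exact hWΦ k z hz
    rw [h2] at h1
    exact h1
  have hcl : ∀ γ ∈ Submonoid.closure (RF Q v), ∀ h : ∀ k, Matrix (ι k) (ι k) ℂ,
      (∀ z ∈ GPH.Cut b0 T, MvPolynomial.eval (pt z (fun k => Φ k z * h k)) P = 0) →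
      ∀ z ∈ GPH.Cut b0 T, MvPolynomial.eval (pt z (fun k => Φ k z * (γ k * h k))) P = 0 := by
    intro γ hγ
    induction hγ using Submonoid.closure_induction with
    | mem γ hγ =>
      obtain ⟨j, rfl⟩ := hγ
      intro h hh z hz
      exact hMno I ι q T b0 hpos Φ hΦd j (fun k => pr (Q k) (v k j))
        (fun k => pr_sq _ _ (hv k j)) (fun k => hvL k j) P h hh z hz
    | one =>
      intro h hh z hz
      simp only [Pi.one_apply, Matrix.one_mul]
      exact hh z hz
    | mul γ1 γ2 _ _ ih1 ih2 =>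
      intro h hh z hz
      simp only [Pi.mul_apply, Matrix.mul_assoc]
      exact ih1 (fun k => γ2 k * h k) (ih2 h hh) z hz
  have hall : ∀ z ∈ GPH.Cut b0 T, ∀ a' : ∀ k, Matrix (ι k) (ι k) ℂ,
      (∀ k, Iso (Q k) (a' k) ∧ (a' k).det = 1) →
      MvPolynomial.eval (pt z (fun k => Φ k z * (a' k * W k b0))) P = 0 := by
    intro z hz a' ha'
    obtain ⟨P', hP'⟩ := poly z (fun k => Φ k z) (fun k => W k b0) P
    rw [← hP' a']
    refine hden P' (fun γ hγ => ?_) a' ha'
    rw [hP' γ]
    exact hcl γ hγ (fun k => W k b0) hQ0 z hz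
  -- the form is constant along `W`
  have hform : ∀ k, (W k b0).transpose * Q k * W k b0 =
      No (cm (A k)) (cm (U k)) (e k) (r k) z0 := by
    intro k
    have h1 : ∀ i j, ∀ z ∈ ball z0 ρ, ((W k z).transpose *
        No (cm (A k)) (cm (U k)) (e k) (r k) z * W k z) i j -
        ((W k b0).transpose * Q k * W k b0) i j = 0 := by
      intro i j
      refine ident isOpen_ball (convex_ball z0 ρ).isPreconnected ?_ hspos hb ?_
      · refine DifferentiableOn.sub ?_ (differentiableOn_const _)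
        simp only [Matrix.mul_apply]
        refine DifferentiableOn.fun_sum fun l _ => DifferentiableOn.mul ?_ (hWd k l j)
        refine DifferentiableOn.fun_sum fun m _ => DifferentiableOn.mul ?_ ?_
        · simp only [Matrix.transpose_apply]
          exact hWd k m i
        · simp only [No, Matrix.mul_apply, Matrix.add_apply, Matrix.smul_apply, smul_eq_mul]
          refine DifferentiableOn.fun_sum fun c _ => DifferentiableOn.mul
            (differentiableOn_const _) ?_
          refine DifferentiableOn.add (DifferentiableOn.mul ?_ (differentiableOn_const _))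
            (differentiableOn_const _)
          exact (differentiableOn_const _).add ((differentiableOn_const _).mul differentiableOn_id)
      · intro z hz
        rw [hWΦ k z hz, Matrix.transpose_mul]
        have h2 := (hΦ k).iso z (hsC hz)
        have h3 : (W k b0).transpose * (Φ k z).transpose *
            No (cm (A k)) (cm (U k)) (e k) (r k) z * (Φ k z * W k b0) =
            (W k b0).transpose * ((Φ k z).transpose *
            No (cm (A k)) (cm (U k)) (e k) (r k) z * Φ k z) * W k b0 := by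
          simp only [Matrix.mul_assoc]
        rw [h3, h2, sub_self]
    ext i j
    have h2 := h1 i j z0 (mem_ball_self hρ)
    rw [hW0 k, Matrix.transpose_one, Matrix.one_mul, Matrix.mul_one] at h2
    exact (sub_eq_zero.1 h2).symm
  have hWu : ∀ k, IsUnit (W k b0).det := by
    intro k
    rw [isUnit_iff_ne_zero]
    intro h0
    have h1 := congrArg Matrix.det (hform k)
    rw [Matrix.det_mul, h0, mul_zero] at h1
    have h2 : (No (cm (A k)) (cm (U k)) (e k) (r k) z0).det ≠ 0 := by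
      rw [No, Matrix.det_mul]
      refine mul_ne_zero ?_ (hdet k z0 (mem_ball_self hρ))
      have h3 : (cm (U k)).det = (((U k).det : ℚ) : ℂ) := by
        have := RingHom.map_det (Rat.castHom ℂ) (U k)
        rw [cm]
        exact this.symm
      rw [h3]
      exact_mod_cast (hO k).Udet
    exact h2 h1.symm
  -- the last step
  have hd := diff_eval (S := ball z0 ρ) (fun z k => W k z * a k)
    (fun k => hol_mul (hWd k) (a k)) P
  refine ident isOpen_ball (convex_ball z0 ρ).isPreconnected hd hspos hb ?_ z hz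
  intro z hz
  have h1 := hall z (hsC hz) (fun k => W k b0 * a k * (W k b0)⁻¹) ?_
  · have h2 : (fun k => Φ k z * (W k b0 * a k * (W k b0)⁻¹ * W k b0)) = fun k => W k z * a k := by
      funext k
      rw [Matrix.mul_assoc (W k b0 * a k), Matrix.nonsing_inv_mul _ (hWu k), Matrix.mul_one,
        ← Matrix.mul_assoc, ← hWΦ k z hz]
    rw [h2] at h1
    exact h1
  · intro k
    have hinv1 : W k b0 * (W k b0)⁻¹ = 1 := Matrix.mul_nonsing_inv _ (hWu k)
    have hinv2 : ((W k b0)⁻¹).transpose * (W k b0).transpose = 1 := by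
      rw [← Matrix.transpose_mul, hinv1, Matrix.transpose_one]
    constructor
    · have h3 : (W k b0 * a k * (W k b0)⁻¹).transpose * Q k * (W k b0 * a k * (W k b0)⁻¹) =
          ((W k b0)⁻¹).transpose * ((a k).transpose * ((W k b0).transpose * Q k * W k b0) *
            a k) * (W k b0)⁻¹ := by
        simp only [Matrix.transpose_mul, Matrix.mul_assoc]
      have h4 := (ha k).1
      unfold Iso at h4 ⊢
      rw [h3, hform k, h4, ← hform k]
      calc ((W k b0)⁻¹).transpose * ((W k b0).transpose * Q k * W k b0) * (W k b0)⁻¹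
          = (((W k b0)⁻¹).transpose * (W k b0).transpose) * Q k * (W k b0 * (W k b0)⁻¹) := by
            simp only [Matrix.mul_assoc]
        _ = Q k := by rw [hinv1, hinv2, Matrix.one_mul, Matrix.mul_one]
    · have h5 : (W k b0).det * ((W k b0)⁻¹).det = 1 := by
        rw [← Matrix.det_mul, hinv1, Matrix.det_one]
      rw [Matrix.det_mul, Matrix.det_mul, (ha k).2, mul_one, h5]

end

end Pool.Agent.EVD
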