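import Pool.Agent.EVD.Stmts

set_option autoImplicit false

/-!
# EVD, module TRG: the value of `K0`
-/

open scoped BigOperators Topology
open Metric Set MeasureTheory

namespace Pool.Agent.EVD

noncomputable section

namespace TRG_

/-- Euler's reflection formula in terms of `w = exp (π i β)`. -/
theorem gam (β : ℝ) (w : ℂ) (hw : w = Complex.exp (Real.pi * β * Complex.I)) :
    ((Real.Gamma β * Real.Gamma (1 - β) : ℝ) : ℂ) =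
      Real.pi / ((w⁻¹ - w) * Complex.I / 2) := by
  rw [Real.Gamma_mul_Gamma_one_sub]
  push_cast
  congr 1
  rw [Complex.sin, hw, ← Complex.exp_neg]
  congr 3
  · congr 1
    ring_nf

theorem fac (p : ℂ) (w : ℂ) (hw : w ≠ 0) (hw2 : w ^ 2 ≠ 1) (a a' : ℕ) :
    p⁻¹ * (Real.pi / ((w⁻¹ - w) * Complex.I / 2)) * ((w ^ 2) ^ (a + 1) - (w ^ 2) ^ a) *
      (((w ^ 2)⁻¹) ^ (a' + 1) - ((w ^ 2)⁻¹) ^ a') =
    (2 * Real.pi * (-Complex.I)) * w⁻¹ * (p⁻¹ * (w ^ 2 - 1) * (w ^ 2) ^ a * ((w ^ 2)⁻¹) ^ a') := by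
  have h1 : (w⁻¹ - w) ≠ 0 := by
    intro h
    apply hw2
    have : w * (w⁻¹ - w) = 0 := by rw [h]; ring
    rw [mul_sub, mul_inv_cancel₀ hw] at this
    linear_combination -this
  have h2 : (w⁻¹ - w) * Complex.I / 2 ≠ 0 := by
    apply div_ne_zero (mul_ne_zero h1 Complex.I_ne_zero) two_ne_zero
  have e1 : (w ^ 2) ^ (a + 1) - (w ^ 2) ^ a = (w ^ 2) ^ a * (w ^ 2 - 1) := by ring
  have e2 : ((w ^ 2)⁻¹) ^ (a' + 1) - ((w ^ 2)⁻¹) ^ a' = ((w ^ 2)⁻¹) ^ a' * ((w ^ 2)⁻¹ - 1) := by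
    ring
  have e3 : (Real.pi : ℂ) / ((w⁻¹ - w) * Complex.I / 2) * ((w ^ 2)⁻¹ - 1) =
      (2 * Real.pi * (-Complex.I)) * w⁻¹ := by
    rw [div_mul_eq_mul_div, div_eq_iff h2]
    have hI : Complex.I * Complex.I = -1 := Complex.I_mul_I
    have hw3 : (w ^ 2)⁻¹ = w⁻¹ * w⁻¹ := by rw [pow_two, mul_inv]
    rw [hw3]
    have hw4 : w⁻¹ * w = 1 := inv_mul_cancel₀ hw
    linear_combination ((Real.pi : ℂ) * w⁻¹ * (w⁻¹ - w)) * hI + (Real.pi : ℂ) * hw4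
  rw [e1, e2]
  linear_combination (p⁻¹ * (w ^ 2) ^ a * (w ^ 2 - 1) * ((w ^ 2)⁻¹) ^ a') * e3

/-- The values of the characters, in terms of the angle. -/
theorem zt_pow (p x : ℕ) (hp : p ≠ 0) : zt p ^ (x + 1) =
    (Complex.exp (Real.pi * (((x : ℕ) + 1 : ℝ) / p : ℝ) * Complex.I)) ^ 2 := by
  rw [zt, ← Complex.exp_nat_mul, ← Complex.exp_nat_mul]
  congr 1
  have : (p : ℂ) ≠ 0 := by exact_mod_cast hp
  push_cast
  field_simp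

theorem prim (p : ℕ) (hp : p ≠ 0) : IsPrimitiveRoot (zt p) p := by
  have := Complex.isPrimitiveRoot_exp p hp
  exact this

/-- Orthogonality. -/
theorem geo (p : ℕ) (hp : p ≠ 0) (e : ℤ) :
    ∑ y ∈ Finset.range p, (zt p ^ e) ^ y = if (p : ℤ) ∣ e then (p : ℂ) else 0 := by
  have hz := prim p hp
  split_ifs with h
  · rw [(hz.zpow_eq_one_iff_dvd e).2 h]
    simp
  · have h1 : zt p ^ e ≠ 1 := fun h2 => h ((hz.zpow_eq_one_iff_dvd e).1 h2)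
    rw [geom_sum_eq h1]
    have : (zt p ^ e) ^ p = 1 := by
      rw [← zpow_natCast, ← zpow_mul, mul_comm, zpow_mul, zpow_natCast, hz.pow_eq_one, one_zpow]
    rw [this]
    simp

theorem inner (p : ℕ) (hp : 2 ≤ p) (a a' m : ℕ) :
    ∑ x : Fin (p - 1), (zt p ^ ((x : ℕ) + 1) - 1) * (zt p ^ ((x : ℕ) + 1)) ^ a *
      ((zt p ^ ((x : ℕ) + 1))⁻¹) ^ a' * (zt p ^ ((x : ℕ) + 1)) ^ m =
    (p : ℂ) * ((if (p : ℤ) ∣ (a : ℤ) - a' + m + 1 then (1 : ℂ) else 0) -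
      (if (p : ℤ) ∣ (a : ℤ) - a' + m then (1 : ℂ) else 0)) := by
  have hp0 : p ≠ 0 := by omega
  have hz := prim p hp0
  have hz0 : zt p ≠ 0 := hz.ne_zero hp0
  have h1 : ∀ x : ℕ, (zt p ^ (x + 1) - 1) * (zt p ^ (x + 1)) ^ a *
      ((zt p ^ (x + 1))⁻¹) ^ a' * (zt p ^ (x + 1)) ^ m =
      (zt p ^ ((a : ℤ) - a' + m + 1)) ^ (x + 1) - (zt p ^ ((a : ℤ) - a' + m)) ^ (x + 1) := by
    intro x
    have hy : zt p ^ (x + 1) ≠ 0 := pow_ne_zero _ hz0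
    have e1 : ∀ e : ℤ, (zt p ^ e) ^ (x + 1) = (zt p ^ (x + 1)) ^ e := by
      intro e
      rw [← zpow_natCast, ← zpow_natCast, ← zpow_mul, ← zpow_mul, mul_comm]
    rw [e1, e1]
    set y := zt p ^ (x + 1)
    rw [zpow_add₀ hy, zpow_add₀ hy, zpow_sub₀ hy, zpow_natCast, zpow_natCast, zpow_natCast, zpow_one]
    rw [inv_pow]
    ring
  have h2 : ∑ x : Fin (p - 1), (zt p ^ ((x : ℕ) + 1) - 1) * (zt p ^ ((x : ℕ) + 1)) ^ a *
      ((zt p ^ ((x : ℕ) + 1))⁻¹) ^ a' * (zt p ^ ((x : ℕ) + 1)) ^ m =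
      ∑ x ∈ Finset.range (p - 1), ((zt p ^ ((a : ℤ) - a' + m + 1)) ^ (x + 1) -
        (zt p ^ ((a : ℤ) - a' + m)) ^ (x + 1)) := by
    rw [Finset.sum_range]
    exact Finset.sum_congr rfl fun x _ => h1 x
  rw [h2]
  have h3 : ∑ y ∈ Finset.range p, ((zt p ^ ((a : ℤ) - a' + m + 1)) ^ y -
        (zt p ^ ((a : ℤ) - a' + m)) ^ y) =
      ∑ x ∈ Finset.range (p - 1), ((zt p ^ ((a : ℤ) - a' + m + 1)) ^ (x + 1) -
        (zt p ^ ((a : ℤ) - a' + m)) ^ (x + 1)) := by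
    obtain ⟨q, rfl⟩ : ∃ q, p = q + 1 := ⟨p - 1, by omega⟩
    rw [Finset.sum_range_succ']
    simp
  rw [← h3, Finset.sum_sub_distrib, geo p hp0, geo p hp0]
  split_ifs <;> ring

/-- The inverse of `1 - Z`. -/
theorem invZ (P : ℕ) (hP : P ≠ 0) (Z : ℂ) (hZ : Z ^ P = 1) (hZ1 : Z ≠ 1) :
    (Z - 1)⁻¹ = (P : ℂ)⁻¹ * ∑ m ∈ Finset.range P, (m : ℂ) * Z ^ m := by
  have h1 : ∀ P : ℕ, (Z - 1) * ∑ m ∈ Finset.range P, (m : ℂ) * Z ^ m =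
      (P : ℂ) * Z ^ P - ∑ m ∈ Finset.range P, Z ^ (m + 1) := by
    intro P
    induction P with
    | zero => simp
    | succ P ih =>
      rw [Finset.sum_range_succ, mul_add, ih, Finset.sum_range_succ]
      push_cast
      ring
  have h2 : ∑ m ∈ Finset.range P, Z ^ (m + 1) = 0 := by
    have : ∑ m ∈ Finset.range P, Z ^ (m + 1) = Z * ∑ m ∈ Finset.range P, Z ^ m := by
      rw [Finset.mul_sum]
      exact Finset.sum_congr rfl fun m _ => by ring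
    rw [this, geom_sum_eq hZ1, hZ]
    simp
  have h3 := h1 P
  rw [h2, hZ, mul_one, sub_zero] at h3
  have hP' : (P : ℂ) ≠ 0 := by exact_mod_cast hP
  have hZ' : Z - 1 ≠ 0 := sub_ne_zero.2 hZ1
  rw [inv_eq_iff_eq_inv, mul_inv_rev, inv_inv]
  have h4 : ∑ m ∈ Finset.range P, (m : ℂ) * Z ^ m ≠ 0 := by
    intro h
    rw [h, mul_zero] at h3
    exact hP' h3.symm
  field_simp
  linear_combination h3

/-- The product of the roots of unity is not one. -/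
theorem Zne {n : ℕ} (p : Fin n → ℕ) (hn : 0 < n) (hp : ∀ j, 2 ≤ p j)
    (hc : ∀ j l, j ≠ l → Nat.Coprime (p j) (p l)) (x : ∀ j, Fin (p j - 1)) :
    ∏ j, zt (p j) ^ ((x j : ℕ) + 1) ≠ 1 := by
  intro h
  set j0 : Fin n := ⟨0, hn⟩
  set M := ∏ l ∈ Finset.univ.erase j0, p l with hM
  have h1 : (∏ j, zt (p j) ^ ((x j : ℕ) + 1)) ^ M = (zt (p j0) ^ ((x j0 : ℕ) + 1)) ^ M := by
    rw [← Finset.prod_pow, ← Finset.mul_prod_erase Finset.univ _ (Finset.mem_univ j0)]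
    rw [Finset.prod_eq_one, mul_one]
    intro l hl
    obtain ⟨c, hc⟩ : p l ∣ M := Finset.dvd_prod_of_mem _ hl
    have hpl : p l ≠ 0 := by have := hp l; omega
    rw [hc, ← pow_mul, show ((x l : ℕ) + 1) * (p l * c) = p l * (((x l : ℕ) + 1) * c) by ring,
      pow_mul, (prim (p l) hpl).pow_eq_one, one_pow]
  rw [h, one_pow] at h1
  have hp0 : p j0 ≠ 0 := by have := hp j0; omega
  have h2 : zt (p j0) ^ (((x j0 : ℕ) + 1) * M) = 1 := by rw [pow_mul]; exact h1.symm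
  have h3 := ((prim (p j0) hp0).pow_eq_one_iff_dvd _).1 h2
  have h4 : Nat.Coprime (p j0) M := by
    rw [hM]
    apply Nat.Coprime.prod_right
    intro l hl
    exact hc _ _ (Finset.ne_of_mem_erase hl).symm
  have h5 := (h4.dvd_mul_right).1 h3
  have h6 := Nat.le_of_dvd (Nat.succ_pos _) h5
  have h7 := (x j0).2
  omega

/-- The angle of a character. -/
def wj (p x : ℕ) : ℂ := Complex.exp (Real.pi * (((x : ℕ) + 1 : ℝ) / p : ℝ) * Complex.I)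

/-- The Gamma factor of the sum. -/
theorem gk (k : ℕ) (b : ℝ) (W : ℂ) (hW : W = Complex.exp (Real.pi * b * Complex.I))
    (h1 : W ^ 2 ≠ 1) :
    ((Real.Gamma (((k + 1 : ℕ) : ℝ) - b) * Real.Gamma (b + 1 - ((k + 1 : ℕ) : ℝ)) /
      Real.Gamma ((k + 1 : ℕ) : ℝ) ^ 2 : ℝ) : ℂ) =
      (1 / (k.factorial : ℂ) ^ 2) * ((-1) ^ k * (2 * Real.pi * Complex.I) * W / (W ^ 2 - 1)) := by
  have hW0 : W ≠ 0 := by rw [hW]; exact Complex.exp_ne_zero _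
  have e1 : b + 1 - ((k + 1 : ℕ) : ℝ) = 1 - (((k + 1 : ℕ) : ℝ) - b) := by ring
  have e2 : Real.Gamma ((k + 1 : ℕ) : ℝ) = (k.factorial : ℝ) := by
    push_cast
    exact Real.Gamma_nat_eq_factorial k
  rw [e1, e2]
  push_cast
  have e3 := gam (((k + 1 : ℕ) : ℝ) - b) _ rfl
  push_cast at e3
  rw [e3]
  have e4 : Complex.exp (Real.pi * ((k : ℂ) + 1 - b) * Complex.I) = (-1) ^ (k + 1) * W⁻¹ := by
    rw [hW, ← Complex.exp_neg, ← Complex.exp_pi_mul_I, ← Complex.exp_nat_mul, ← Complex.exp_add]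
    congr 1
    push_cast
    ring
  rw [e4]
  have hm : ((-1 : ℂ) ^ k) * ((-1 : ℂ) ^ k) = 1 := by
    rw [← mul_pow]; simp
  have hinv : ((-1 : ℂ) ^ (k + 1) * W⁻¹)⁻¹ = (-1) ^ (k + 1) * W := by
    rw [mul_inv, inv_inv, ← inv_pow]
    congr 2
    norm_num
  rw [hinv]
  have h2 : W ^ 2 - 1 ≠ 0 := sub_ne_zero.2 h1
  have h3 : ((-1 : ℂ) ^ (k + 1) * W - (-1) ^ (k + 1) * W⁻¹) * Complex.I / 2 =
      -(-1) ^ k * (W ^ 2 - 1) * Complex.I / (2 * W) := by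
    field_simp
    ring
  rw [h3]
  have h4 : ((-1 : ℂ) ^ k) ≠ 0 := pow_ne_zero _ (by norm_num)
  have hf : (k.factorial : ℂ) ≠ 0 := by exact_mod_cast Nat.factorial_ne_zero k
  have hI := Complex.I_mul_I
  have hI0 := Complex.I_ne_zero
  have h5 : (Real.pi : ℂ) / (-(-1) ^ k * (W ^ 2 - 1) * Complex.I / (2 * W)) =
      (-1) ^ k * (2 * Real.pi * Complex.I) * W / (W ^ 2 - 1) := by
    rw [div_eq_div_iff (by
      apply div_ne_zero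
      · exact mul_ne_zero (mul_ne_zero (neg_ne_zero.2 h4) h2) hI0
      · exact mul_ne_zero two_ne_zero hW0) h2]
    have h6 : (-1) ^ k * (2 * (Real.pi : ℂ) * Complex.I) * W *
        (-(-1) ^ k * (W ^ 2 - 1) * Complex.I / (2 * W)) =
        -(((-1 : ℂ) ^ k) * ((-1 : ℂ) ^ k)) * (Complex.I * Complex.I) * Real.pi * (W ^ 2 - 1) := by
      field_simp
    rw [h6, hm, hI]
    ring
  rw [h5]
  ring

theorem term (k : ℕ) (p : Fin (2 * k + 1) → ℕ) (hp : ∀ j, 2 ≤ p j)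
    (hc : ∀ j l, j ≠ l → Nat.Coprime (p j) (p l)) (a a' x : ∀ j, Fin (p j - 1)) :
    ((Real.Gamma (((k + 1 : ℕ) : ℝ) - ((∑ j, (((x j : ℕ) + 1 : ℚ) / (p j)) : ℚ) : ℝ)) *
      Real.Gamma (((∑ j, (((x j : ℕ) + 1 : ℚ) / (p j)) : ℚ) : ℝ) + 1 - ((k + 1 : ℕ) : ℝ)) /
      Real.Gamma ((k + 1 : ℕ) : ℝ) ^ 2 : ℝ) : ℂ) *
    ∏ j, (((p j : ℂ))⁻¹ *
      ((Real.Gamma (((x j : ℕ) + 1 : ℝ) / (p j)) *
        Real.Gamma (1 - ((x j : ℕ) + 1 : ℝ) / (p j)) : ℝ) : ℂ) *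
      (zt (p j) ^ (((a j : ℕ) + 1) * ((x j : ℕ) + 1)) -
        zt (p j) ^ ((a j : ℕ) * ((x j : ℕ) + 1))) *
      ((zt (p j))⁻¹ ^ (((a' j : ℕ) + 1) * ((x j : ℕ) + 1)) -
        (zt (p j))⁻¹ ^ ((a' j : ℕ) * ((x j : ℕ) + 1)))) =
    (1 / (k.factorial : ℂ) ^ 2) * ((-1) ^ k * (2 * Real.pi * Complex.I)) *
      (2 * Real.pi * (-Complex.I)) ^ (2 * k + 1) *
      ((∏ j, zt (p j) ^ ((x j : ℕ) + 1)) - 1)⁻¹ *
      ∏ j, ((p j : ℂ)⁻¹ * (zt (p j) ^ ((x j : ℕ) + 1) - 1) * (zt (p j) ^ ((x j : ℕ) + 1)) ^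
        (a j : ℕ) * ((zt (p j) ^ ((x j : ℕ) + 1))⁻¹) ^ (a' j : ℕ)) := by
  have hp0 : ∀ j, p j ≠ 0 := fun j => by have := hp j; omega
  set w : Fin (2 * k + 1) → ℂ := fun j => wj (p j) (x j) with hw
  have hw0 : ∀ j, w j ≠ 0 := fun j => Complex.exp_ne_zero _
  have hz : ∀ j, zt (p j) ^ ((x j : ℕ) + 1) = w j ^ 2 := fun j => zt_pow _ _ (hp0 j)
  have hz1 : ∀ j, w j ^ 2 ≠ 1 := by
    intro j h
    rw [← hz j, (prim (p j) (hp0 j)).pow_eq_one_iff_dvd] at h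
    have h6 := Nat.le_of_dvd (Nat.succ_pos _) h
    have h7 := (x j).2
    omega
  have hZ : ∏ j, zt (p j) ^ ((x j : ℕ) + 1) = (∏ j, w j) ^ 2 := by
    rw [← Finset.prod_pow]
    exact Finset.prod_congr rfl fun j _ => hz j
  have hZ1 : (∏ j, w j) ^ 2 ≠ 1 := by
    rw [← hZ]
    exact Zne p (Nat.succ_pos _) hp hc x
  have hW : ∏ j, w j = Complex.exp (Real.pi *
      (((∑ j, (((x j : ℕ) + 1 : ℚ) / (p j)) : ℚ) : ℝ) : ℂ) * Complex.I) := by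
    rw [hw]
    simp only [wj]
    rw [← Complex.exp_sum]
    congr 1
    push_cast
    rw [Finset.mul_sum, Finset.sum_mul]
  rw [gk k _ (∏ j, w j) (by rw [hW]) hZ1]
  have h1 : ∀ j, (((p j : ℂ))⁻¹ *
      ((Real.Gamma (((x j : ℕ) + 1 : ℝ) / (p j)) *
        Real.Gamma (1 - ((x j : ℕ) + 1 : ℝ) / (p j)) : ℝ) : ℂ) *
      (zt (p j) ^ (((a j : ℕ) + 1) * ((x j : ℕ) + 1)) -
        zt (p j) ^ ((a j : ℕ) * ((x j : ℕ) + 1))) *
      ((zt (p j))⁻¹ ^ (((a' j : ℕ) + 1) * ((x j : ℕ) + 1)) -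
        (zt (p j))⁻¹ ^ ((a' j : ℕ) * ((x j : ℕ) + 1)))) =
      (2 * Real.pi * (-Complex.I)) * (w j)⁻¹ * ((p j : ℂ)⁻¹ * (zt (p j) ^ ((x j : ℕ) + 1) - 1) *
        (zt (p j) ^ ((x j : ℕ) + 1)) ^ (a j : ℕ) *
        ((zt (p j) ^ ((x j : ℕ) + 1))⁻¹) ^ (a' j : ℕ)) := by
    intro j
    have e1 : ∀ c : ℕ, zt (p j) ^ (c * ((x j : ℕ) + 1)) = (w j ^ 2) ^ c := by
      intro c
      rw [mul_comm, pow_mul, hz]
    have e2 : ∀ c : ℕ, (zt (p j))⁻¹ ^ (c * ((x j : ℕ) + 1)) = ((w j ^ 2)⁻¹) ^ c := by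
      intro c
      rw [mul_comm, pow_mul, inv_pow, hz]
    rw [e1, e1, e2, e2, gam _ (w j) rfl, hz]
    exact fac _ _ (hw0 j) (hz1 j) _ _
  rw [Finset.prod_congr rfl fun j _ => h1 j, Finset.prod_mul_distrib, Finset.prod_mul_distrib,
    Finset.prod_const, Finset.prod_inv_distrib, hZ]
  have hWn : ∏ j, w j ≠ 0 := Finset.prod_ne_zero_iff.2 fun j _ => hw0 j
  rw [Finset.card_univ, Fintype.card_fin]
  have h2 : (∏ j, w j) * (∏ j, w j)⁻¹ = 1 := mul_inv_cancel₀ hWn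
  set W := ∏ j, w j
  set R := ∏ j, ((p j : ℂ)⁻¹ * (zt (p j) ^ ((x j : ℕ) + 1) - 1) *
        (zt (p j) ^ ((x j : ℕ) + 1)) ^ (a j : ℕ) *
        ((zt (p j) ^ ((x j : ℕ) + 1))⁻¹) ^ (a' j : ℕ))
  rw [div_eq_mul_inv _ (W ^ 2 - 1)]
  linear_combination (1 / (k.factorial : ℂ) ^ 2 * ((-1) ^ k * (2 * Real.pi * Complex.I) *
    (W ^ 2 - 1)⁻¹) * (2 * Real.pi * (-Complex.I)) ^ (2 * k + 1) * R) * h2

end TRG_

theorem trg_proof : Stmt_Trg := by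
  intro k f hk hp hc a a'
  set p : Fin (2 * k + 1) → ℕ := fun j => (f j).natDegree with hpdef
  have hp0 : ∀ j, p j ≠ 0 := fun j => by have := hp j; simp only [hpdef]; omega
  set P := ∏ j, p j with hP
  have hP0 : P ≠ 0 := Finset.prod_ne_zero_iff.2 fun j _ => hp0 j
  have h1 : K0 f (k + 1) a a' = ∑ x : Ix f, (1 / (k.factorial : ℂ) ^ 2) *
      ((-1) ^ k * (2 * Real.pi * Complex.I)) *
      (2 * Real.pi * (-Complex.I)) ^ (2 * k + 1) *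
      ((P : ℂ)⁻¹ * ∑ m ∈ Finset.range P, (m : ℂ) * (∏ j, zt (p j) ^ ((x j : ℕ) + 1)) ^ m) *
      ∏ j, ((p j : ℂ)⁻¹ * (zt (p j) ^ ((x j : ℕ) + 1) - 1) * (zt (p j) ^ ((x j : ℕ) + 1)) ^
        (a j : ℕ) * ((zt (p j) ^ ((x j : ℕ) + 1))⁻¹) ^ (a' j : ℕ)) := by
    refine Finset.sum_congr rfl fun x _ => ?_
    rw [← TRG_.invZ P hP0 _ ?_ (TRG_.Zne p (Nat.succ_pos _) hp hc x)]
    · exact TRG_.term k p hp hc a a' x
    · rw [← Finset.prod_pow]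
      refine Finset.prod_eq_one fun j _ => ?_
      obtain ⟨c, hc⟩ : p j ∣ P := Finset.dvd_prod_of_mem _ (Finset.mem_univ j)
      rw [hc, ← pow_mul, show ((x j : ℕ) + 1) * (p j * c) = p j * (((x j : ℕ) + 1) * c) by ring,
        pow_mul, (TRG_.prim (p j) (hp0 j)).pow_eq_one, one_pow]
  have h2 : ∀ m : ℕ, ∑ x : Ix f, (∏ j, zt (p j) ^ ((x j : ℕ) + 1)) ^ m *
      ∏ j, ((p j : ℂ)⁻¹ * (zt (p j) ^ ((x j : ℕ) + 1) - 1) * (zt (p j) ^ ((x j : ℕ) + 1)) ^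
        (a j : ℕ) * ((zt (p j) ^ ((x j : ℕ) + 1))⁻¹) ^ (a' j : ℕ)) =
      ∏ j, ((if (p j : ℤ) ∣ (a j : ℤ) - (a' j : ℤ) + m + 1 then (1 : ℂ) else 0) -
      (if (p j : ℤ) ∣ (a j : ℤ) - (a' j : ℤ) + m then (1 : ℂ) else 0)) := by
    intro m
    have h3 : ∀ j, ∑ x : Fin (p j - 1), ((p j : ℂ)⁻¹ * ((zt (p j) ^ ((x : ℕ) + 1) - 1) *
        (zt (p j) ^ ((x : ℕ) + 1)) ^ (a j : ℕ) * ((zt (p j) ^ ((x : ℕ) + 1))⁻¹) ^ (a' j : ℕ) *
        (zt (p j) ^ ((x : ℕ) + 1)) ^ m)) =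
        ((if (p j : ℤ) ∣ (a j : ℤ) - (a' j : ℤ) + m + 1 then (1 : ℂ) else 0) -
      (if (p j : ℤ) ∣ (a j : ℤ) - (a' j : ℤ) + m then (1 : ℂ) else 0)) := by
      intro j
      have hpj : (p j : ℂ) ≠ 0 := by exact_mod_cast hp0 j
      rw [← Finset.mul_sum, TRG_.inner (p j) (hp j), ← mul_assoc, inv_mul_cancel₀ hpj, one_mul]
    rw [← Finset.prod_congr rfl fun j _ => h3 j, Finset.prod_univ_sum, Fintype.piFinset_univ]
    refine Finset.sum_congr rfl fun x _ => ?_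
    rw [← Finset.prod_pow, ← Finset.prod_mul_distrib]
    refine Finset.prod_congr rfl fun j _ => ?_
    ring
  have h4 : K0 f (k + 1) a a' = (1 / (k.factorial : ℂ) ^ 2) *
      ((-1) ^ k * (2 * Real.pi * Complex.I)) *
      (2 * Real.pi * (-Complex.I)) ^ (2 * k + 1) * ((P : ℂ)⁻¹ * ∑ m ∈ Finset.range P, (m : ℂ) *
      ∏ j, ((if (p j : ℤ) ∣ (a j : ℤ) - (a' j : ℤ) + m + 1 then (1 : ℂ) else 0) -
      (if (p j : ℤ) ∣ (a j : ℤ) - (a' j : ℤ) + m then (1 : ℂ) else 0))) := by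
    have h7 : ∑ m ∈ Finset.range P, (m : ℂ) *
      ∏ j, ((if (p j : ℤ) ∣ (a j : ℤ) - (a' j : ℤ) + m + 1 then (1 : ℂ) else 0) -
      (if (p j : ℤ) ∣ (a j : ℤ) - (a' j : ℤ) + m then (1 : ℂ) else 0)) =
      ∑ m ∈ Finset.range P, (m : ℂ) * ∑ x : Ix f, (∏ j, zt (p j) ^ ((x j : ℕ) + 1)) ^ m *
      ∏ j, ((p j : ℂ)⁻¹ * (zt (p j) ^ ((x j : ℕ) + 1) - 1) * (zt (p j) ^ ((x j : ℕ) + 1)) ^
        (a j : ℕ) * ((zt (p j) ^ ((x j : ℕ) + 1))⁻¹) ^ (a' j : ℕ)) :=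
      Finset.sum_congr rfl fun m _ => by rw [h2 m]
    rw [h1, h7]
    simp only [Finset.mul_sum, Finset.sum_mul]
    rw [Finset.sum_comm]
    refine Finset.sum_congr rfl fun m _ => Finset.sum_congr rfl fun x _ => ?_
    ring
  have h5 : ((inter f a a' : ℚ) : ℂ) = -(∑ m ∈ Finset.range P, (m : ℂ) *
      ∏ j, ((if (p j : ℤ) ∣ (a j : ℤ) - (a' j : ℤ) + m + 1 then (1 : ℂ) else 0) -
      (if (p j : ℤ) ∣ (a j : ℤ) - (a' j : ℤ) + m then (1 : ℂ) else 0))) / (P : ℂ) := by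
    rw [inter]
    simp only [Matrix.of_apply]
    rw [Rat.cast_div, Rat.cast_neg, Rat.cast_sum, Rat.cast_natCast]
    congr 2
    refine Finset.sum_congr rfl fun m _ => ?_
    rw [Rat.cast_mul, Rat.cast_natCast, Rat.cast_prod]
    congr 1
    refine Finset.prod_congr rfl fun j _ => ?_
    rw [Rat.cast_sub]
    congr 1 <;> split_ifs <;> simp
  rw [h4, h5]
  have h6 : (2 * (Real.pi : ℂ) * (-Complex.I)) ^ (2 * k + 1) =
      -(2 * Real.pi * Complex.I) ^ (2 * k + 1) := by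
    rw [mul_neg, Odd.neg_pow ⟨k, rfl⟩]
  rw [h6]
  ring

end

end Pool.Agent.EVD
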