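import Pool.Agent.EVD.Stmts

/-!
Module UON: the inverse residue matrix.
-/

set_option autoImplicit false

namespace Pool.Agent.EVD

namespace UON_

open Polynomial

/-- divide by `X ^ m` -/
noncomputable def T (m : ℕ) (g : Polynomial ℚ) : Polynomial ℚ := (Polynomial.divX)^[m] g

theorem T_coeff (m : ℕ) (g : Polynomial ℚ) (n : ℕ) : (T m g).coeff n = g.coeff (n + m) := by
  induction m generalizing n with
  | zero => rfl
  | succ m ih =>
    have h1 : T (m + 1) g = Polynomial.divX (T m g) := by
      unfold T
      rw [Function.iterate_succ_apply']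
    rw [h1, Polynomial.coeff_divX, ih]
    congr 1
    omega

/-- antisymmetric terms -/
noncomputable def t (f g : Polynomial ℚ) (N a : ℕ) : ℚ :=
  f.coeff a * g.coeff (N - a) - g.coeff a * f.coeff (N - a)

noncomputable def S (f g : Polynomial ℚ) (k n : ℕ) : ℚ :=
  ∑ a ∈ Finset.range (n + 1), t f g (n + k + 1) a

theorem S_coeff (f g : Polynomial ℚ) (k n : ℕ) :
    (f * T (k + 1) g - g * T (k + 1) f).coeff n = S f g k n := by
  have key : ∀ u v : Polynomial ℚ, (u * T (k + 1) v).coeff n =
      ∑ a ∈ Finset.range (n + 1), u.coeff a * v.coeff (n + k + 1 - a) := by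
    intro u v
    rw [Polynomial.coeff_mul, Finset.Nat.sum_antidiagonal_eq_sum_range_succ
      (fun a b => u.coeff a * (T (k + 1) v).coeff b)]
    apply Finset.sum_congr rfl
    intro a ha
    have ha' : a < n + 1 := Finset.mem_range.1 ha
    have h2 : n - a + (k + 1) = n + k + 1 - a := by omega
    rw [T_coeff, h2]
  rw [Polynomial.coeff_sub, key, key, ← Finset.sum_sub_distrib]
  rfl

theorem t_anti (f g : Polynomial ℚ) (N a : ℕ) (h : a ≤ N) : t f g N (N - a) = - t f g N a := by
  have h1 : N - (N - a) = a := by omega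
  unfold t
  rw [h1]
  ring

theorem S_symm_aux (f g : Polynomial ℚ) (k n : ℕ) (h : k ≤ n) : S f g k n = S f g n k := by
  have h0 : k + n + 1 = n + k + 1 := by omega
  unfold S
  rw [h0, ← Finset.sum_range_add_sum_Ico (t f g (n + k + 1)) (show k + 1 ≤ n + 1 by omega)]
  have h1 := Finset.sum_Ico_reflect (t f g (n + k + 1)) (k + 1) (m := n + 1) (n := n + k + 1)
    (by omega)
  have h2 : n + k + 1 + 1 - (n + 1) = k + 1 := by omega
  have h3 : n + k + 1 + 1 - (k + 1) = n + 1 := by omega
  rw [h2, h3] at h1
  have h4 : ∑ j ∈ Finset.Ico (k + 1) (n + 1), t f g (n + k + 1) (n + k + 1 - j) =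
      - ∑ j ∈ Finset.Ico (k + 1) (n + 1), t f g (n + k + 1) j := by
    rw [← Finset.sum_neg_distrib]
    apply Finset.sum_congr rfl
    intro j hj
    have hj' := Finset.mem_Ico.1 hj
    exact t_anti f g _ j (by omega)
  rw [h4] at h1
  have h5 : ∑ j ∈ Finset.Ico (k + 1) (n + 1), t f g (n + k + 1) j = 0 := by linarith
  rw [h5, add_zero]

theorem S_symm (f g : Polynomial ℚ) (k n : ℕ) : S f g k n = S f g n k := by
  rcases le_total k n with h | h
  · exact S_symm_aux f g k n h
  · exact (S_symm_aux f g n k h).symm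

theorem coeff_fin_sum {m : ℕ} (a : Fin m → ℚ) (n : ℕ) :
    (∑ j : Fin m, Polynomial.C (a j) * Polynomial.X ^ (j : ℕ)).coeff n =
      if h : n < m then a ⟨n, h⟩ else 0 := by
  rw [Polynomial.finsetSum_coeff]
  simp only [Polynomial.coeff_C_mul_X_pow]
  split_ifs with h
  · rw [Finset.sum_eq_single (⟨n, h⟩ : Fin m)]
    · simp
    · intro b _ hb
      rw [if_neg]
      intro h1
      exact hb (Fin.ext h1.symm)
    · intro h1
      exact absurd (Finset.mem_univ _) h1
  · apply Finset.sum_eq_zero
    intro b _
    rw [if_neg]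
    intro h1
    have := b.2
    omega

end UON_

open UON_ in
theorem uon_proof (hDiv : Stmt_Div) : Stmt_Uon := by
  intro f hf h2
  have hD := hDiv f hf h2
  obtain ⟨p, hp⟩ : ∃ p, p = f.natDegree := ⟨_, rfl⟩
  have hp2 : 2 ≤ p := by omega
  set g := Polynomial.derivative f with hg
  have gc : ∀ n, g.coeff n = f.coeff (n + 1) * ((n : ℚ) + 1) := fun n => by
    rw [hg, Polynomial.coeff_derivative]
  have fp : f.coeff p = 1 := by rw [hp]; exact hf.coeff_natDegree
  have fz : ∀ n, p < n → f.coeff n = 0 := fun n hn =>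
    Polynomial.coeff_eq_zero_of_natDegree_lt (by omega)
  have gz : ∀ n, p ≤ n → g.coeff n = 0 := fun n hn => by rw [gc, fz _ (by omega), zero_mul]
  have gl : g.coeff (p - 1) = p := by
    rw [gc]
    have h3 : p - 1 + 1 = p := by omega
    have h4 : ((p - 1 : ℕ) : ℚ) + 1 = p := by exact_mod_cast h3
    rw [h3, fp, h4, one_mul]
  have pne : (p : ℚ) ≠ 0 := by
    have : p ≠ 0 := by omega
    exact_mod_cast this
  have Uc : ∀ i j, U1 f i j = g.coeff ((i : ℕ) + (j : ℕ) + 1) := by
    intro i j
    rw [gc]
    show (((i : ℕ) + (j : ℕ) + 2 : ℕ) : ℚ) * f.coeff ((i : ℕ) + (j : ℕ) + 2) = _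
    push_cast
    ring
  have Usym : (U1 f).transpose = U1 f := by
    ext i j
    rw [Matrix.transpose_apply, Uc, Uc]
    congr 1
    omega
  have Us : ∀ i j, U1 f i j = U1 f j i := fun i j => by
    conv_lhs => rw [← Usym]
    rfl
  choose q hq1 hq2 hq3 using hD
  -- the row sums
  have row : ∀ k : Fin (f.natDegree - 1), ∑ i : Fin (f.natDegree - 1),
      Polynomial.C (U1 f k i) * Polynomial.X ^ (i : ℕ) = T ((k : ℕ) + 1) g := by
    intro k
    ext n
    rw [coeff_fin_sum, T_coeff]
    split_ifs with h
    · rw [Uc]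
      congr 1
      show (k : ℕ) + n + 1 = n + (k + 1)
      omega
    · rw [gz _ (by omega)]
  -- the two divisions
  have main : ∀ k : Fin (f.natDegree - 1),
      ∑ i : Fin (f.natDegree - 1), Polynomial.C (U1 f k i) * q i =
        T ((k : ℕ) + 1) f - Polynomial.C (g.coeff k / p) ∧
      ∀ j : Fin (f.natDegree - 1), ∑ i : Fin (f.natDegree - 1), U1 f k i * A1 f i j =
        S f g k j + g.coeff k * g.coeff j / p := by
    intro k
    set Q := ∑ i : Fin (f.natDegree - 1), Polynomial.C (U1 f k i) * q i with hQ
    set R := ∑ j : Fin (f.natDegree - 1),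
      Polynomial.C (∑ i : Fin (f.natDegree - 1), U1 f k i * A1 f i j) *
        Polynomial.X ^ (j : ℕ) with hR
    have e1 : f * T ((k : ℕ) + 1) g = Q * g + R := by
      rw [← row k, Finset.mul_sum, hQ, Finset.sum_mul]
      have e2 : R = ∑ i : Fin (f.natDegree - 1), Polynomial.C (U1 f k i) *
          ∑ j : Fin (f.natDegree - 1), Polynomial.C (A1 f i j) * Polynomial.X ^ (j : ℕ) := by
        rw [hR]
        simp only [map_sum, map_mul, Finset.sum_mul, Finset.mul_sum]
        rw [Finset.sum_comm]
        apply Finset.sum_congr rfl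
        intro i _
        apply Finset.sum_congr rfl
        intro j _
        ring
      rw [e2, ← Finset.sum_add_distrib]
      apply Finset.sum_congr rfl
      intro i _
      have e3 := hq2 i
      calc f * (Polynomial.C (U1 f k i) * Polynomial.X ^ (i : ℕ)) =
          Polynomial.C (U1 f k i) * (Polynomial.X ^ (i : ℕ) * f) := by ring
        _ = _ := by rw [e3]; ring
    set R' := f * T ((k : ℕ) + 1) g - g * (T ((k : ℕ) + 1) f - Polynomial.C (g.coeff k / p)) with hR'
    have cR' : ∀ n, R'.coeff n = S f g k n + g.coeff k * g.coeff n / p := by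
      intro n
      have e4 : R' = (f * T ((k : ℕ) + 1) g - g * T ((k : ℕ) + 1) f) +
          Polynomial.C (g.coeff k / p) * g := by
        rw [hR']; ring
      rw [e4, Polynomial.coeff_add, S_coeff, Polynomial.coeff_C_mul]
      ring
    have dR' : R'.degree < ((p - 1 : ℕ) : WithBot ℕ) := by
      rw [Polynomial.degree_lt_iff_coeff_zero]
      intro n hn
      have hk := k.2
      rw [cR', S_symm]
      unfold S
      rw [Finset.sum_range_succ]
      have z1 : ∑ a ∈ Finset.range (k : ℕ), t f g ((k : ℕ) + n + 1) a = 0 := by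
        apply Finset.sum_eq_zero
        intro a ha
        have ha' := Finset.mem_range.1 ha
        unfold t
        rw [gz ((k : ℕ) + n + 1 - a) (by omega), fz ((k : ℕ) + n + 1 - a) (by omega), mul_zero, mul_zero, sub_zero]
      have z2 : (k : ℕ) + n + 1 - (k : ℕ) = n + 1 := by omega
      rw [z1, zero_add]
      unfold t
      rw [z2, gz (n + 1) (by omega), mul_zero, zero_sub]
      rcases Nat.eq_or_lt_of_le hn with h5 | h5
      · rw [← h5, gl]
        have h6 : p - 1 + 1 = p := by omega
        rw [h6, fp]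
        field_simp
        ring
      · rw [gz n (by omega), fz (n + 1) (by omega)]
        ring
    have dR : R.degree < ((p - 1 : ℕ) : WithBot ℕ) := by
      rw [Polynomial.degree_lt_iff_coeff_zero]
      intro n hn
      rw [hR, coeff_fin_sum, dif_neg (by omega)]
    have dg : g.degree = ((p - 1 : ℕ) : WithBot ℕ) := by
      apply Polynomial.degree_eq_of_le_of_coeff_ne_zero
      · rw [Polynomial.degree_le_iff_coeff_zero]
        intro n hn
        have hn' : p - 1 < n := by exact_mod_cast hn
        exact gz n (by omega)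
      · rw [gl]
        exact pne
    have e5 : g * (Q - (T ((k : ℕ) + 1) f - Polynomial.C (g.coeff k / p))) = R' - R := by
      rw [hR', e1]
      ring
    have e6 : R' - R = 0 := by
      apply Polynomial.eq_zero_of_dvd_of_degree_lt (Dvd.intro _ e5)
      rw [dg]
      exact lt_of_le_of_lt (Polynomial.degree_sub_le _ _) (max_lt dR' dR)
    have gne : g ≠ 0 := by
      intro h7
      rw [h7, Polynomial.coeff_zero] at gl
      exact pne gl.symm
    constructor
    · rw [e6] at e5
      rcases mul_eq_zero.1 e5 with h8 | h8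
      · exact absurd h8 gne
      · exact sub_eq_zero.1 h8
    · intro j
      have e7 : R = R' := (sub_eq_zero.1 e6).symm
      have e8 : R.coeff (j : ℕ) = R'.coeff (j : ℕ) := by rw [e7]
      rw [cR', hR, coeff_fin_sum, dif_pos j.2] at e8
      exact e8
  refine ⟨Usym, ?_, ?_, ?_⟩
  · -- the determinant
    have d1 : ((U1 f).submatrix id Fin.rev).det ≠ 0 := by
      rw [Matrix.det_of_isUpperTriangular]
      · apply Finset.prod_ne_zero_iff.2
        intro i _
        rw [Matrix.submatrix_apply, Uc, Fin.val_rev]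
        have hi := i.2
        have h9 : ((id i : Fin (f.natDegree - 1)) : ℕ) + (f.natDegree - 1 - ((i : ℕ) + 1)) + 1 = p - 1 := by
          show (i : ℕ) + (f.natDegree - 1 - ((i : ℕ) + 1)) + 1 = p - 1
          omega
        rw [h9, gl]
        exact pne
      · intro i j hij
        have hij' : j < i := hij
        have hij2 : (j : ℕ) < (i : ℕ) := hij'
        rw [Matrix.submatrix_apply, Uc, Fin.val_rev]
        apply gz
        have hi := i.2
        show p ≤ (i : ℕ) + (f.natDegree - 1 - ((j : ℕ) + 1)) + 1
        omega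
    intro h10
    apply d1
    have h11 := Matrix.det_permute' (Fin.revPerm : Equiv.Perm (Fin (f.natDegree - 1))) (U1 f)
    have h12 : (U1 f).submatrix id Fin.rev = (U1 f).submatrix id ⇑(Fin.revPerm : Equiv.Perm (Fin (f.natDegree - 1))) := rfl
    rw [h12, h11, h10, mul_zero]
  · ext k j
    rw [Matrix.mul_apply, Matrix.mul_apply, (main k).2 j]
    have h13 : ∑ i : Fin (f.natDegree - 1), (A1 f).transpose k i * U1 f i j =
        ∑ i : Fin (f.natDegree - 1), U1 f j i * A1 f i k := by
      apply Finset.sum_congr rfl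
      intro i _
      rw [Matrix.transpose_apply, Us i j, mul_comm]
    rw [h13, (main j).2 k, S_symm]
    ring
  · -- the derivatives
    have UB : ∀ k j : Fin (f.natDegree - 1), ∑ i : Fin (f.natDegree - 1), U1 f k i * B1 f i j =
        ((j : ℕ) + 1 : ℚ) * f.coeff ((k : ℕ) + (j : ℕ) + 2) := by
      intro k j
      have h14 := congrArg Polynomial.derivative (main k).1
      rw [Polynomial.derivative_sum, Polynomial.derivative_sub, Polynomial.derivative_C,
        sub_zero] at h14
      have h15 : ∑ i : Fin (f.natDegree - 1), Polynomial.derivative (Polynomial.C (U1 f k i) * q i) =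
          ∑ j : Fin (f.natDegree - 1),
            Polynomial.C (∑ i : Fin (f.natDegree - 1), U1 f k i * B1 f i j) *
              Polynomial.X ^ (j : ℕ) := by
        simp only [map_sum, map_mul, Finset.sum_mul]
        rw [Finset.sum_comm]
        apply Finset.sum_congr rfl
        intro i _
        rw [Polynomial.derivative_C_mul, hq3 i, Finset.mul_sum]
        apply Finset.sum_congr rfl
        intro l _
        ring
      rw [h15] at h14
      have h16 := congrArg (fun r : Polynomial ℚ => r.coeff (j : ℕ)) h14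
      beta_reduce at h16
      rw [coeff_fin_sum, dif_pos j.2, Polynomial.coeff_derivative, T_coeff] at h16
      have h17 : (j : ℕ) + 1 + ((k : ℕ) + 1) = (k : ℕ) + (j : ℕ) + 2 := by omega
      rw [h17] at h16
      rw [mul_comm]
      exact h16
    ext k j
    rw [Matrix.add_apply, Matrix.mul_apply, Matrix.mul_apply, UB k j]
    have h18 : ∑ i : Fin (f.natDegree - 1), (B1 f).transpose k i * U1 f i j =
        ∑ i : Fin (f.natDegree - 1), U1 f j i * B1 f i k := by
      apply Finset.sum_congr rfl
      intro i _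
      rw [Matrix.transpose_apply, Us i j, mul_comm]
    rw [h18, UB j k]
    show _ = (((k : ℕ) + (j : ℕ) + 2 : ℕ) : ℚ) * f.coeff ((k : ℕ) + (j : ℕ) + 2)
    have h19 : (j : ℕ) + (k : ℕ) + 2 = (k : ℕ) + (j : ℕ) + 2 := by omega
    rw [h19]
    push_cast
    ring

end Pool.Agent.EVD
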