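import Pool.Agent.EVD.Stmts

set_option autoImplicit false

/-!
# EVD: algebraic points of the torsor
-/

open scoped BigOperators
open Matrix

namespace Pool.Agent.EVD

namespace YZX_

/-- Nondegenerate symmetric matrices over algebraically closed fields are sums of squares. -/
theorem sumsq {K ι : Type} [Field K] [CharZero K] [IsAlgClosed K] [Fintype ι] [DecidableEq ι]
    (N : Matrix ι ι K) (hs : N.transpose = N) (hd : N.det ≠ 0) :
    ∃ R : Matrix ι ι K, R.det ≠ 0 ∧ R.transpose * N * R = 1 := by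
  have h2 : (2 : K) ≠ 0 := two_ne_zero
  let _ : Invertible (2 : K) := invertibleOfNonzero h2
  have hB : LinearMap.IsSymm (Matrix.toBilin' N) := by
    refine ⟨fun x y => ?_⟩
    rw [Matrix.toBilin'_apply', Matrix.toBilin'_apply']
    show x ⬝ᵥ N *ᵥ y = y ⬝ᵥ N *ᵥ x
    conv_rhs => rw [Matrix.dotProduct_mulVec, ← Matrix.mulVec_transpose, hs, dotProduct_comm]
  obtain ⟨v0, hv0⟩ := LinearMap.BilinForm.exists_orthogonal_basis hB
  have hc : Module.finrank K (ι → K) = Fintype.card ι := by simp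
  obtain ⟨e⟩ : Nonempty (Fin (Module.finrank K (ι → K)) ≃ ι) :=
    ⟨(finCongr hc).trans (Fintype.equivFin ι).symm⟩
  set v := v0.reindex e with hvdef
  have hv : ∀ i j, i ≠ j → v i ⬝ᵥ (N *ᵥ v j) = 0 := by
    intro i j hij
    have h := hv0 (fun h => hij (e.symm.injective h))
    simp only [Function.onFun, Matrix.toBilin'_apply'] at h
    rw [hvdef, Module.Basis.reindex_apply, Module.Basis.reindex_apply]
    exact h
  set R0 : Matrix ι ι K := Matrix.of fun i j => v j i with hR0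
  have hR0d : R0.det ≠ 0 := by
    have h1 : R0 = (Pi.basisFun K ι).toMatrix v := by
      ext i j
      simp [hR0, Module.Basis.toMatrix_apply]
    rw [h1]
    have h3 : (Pi.basisFun K ι).toMatrix v * v.toMatrix (Pi.basisFun K ι) = 1 :=
      Module.Basis.toMatrix_mul_toMatrix_flip _ _
    intro h0
    have h4 := congrArg Matrix.det h3
    rw [Matrix.det_mul, h0, zero_mul, Matrix.det_one] at h4
    exact zero_ne_one h4
  have hdiag : R0.transpose * N * R0 = Matrix.diagonal fun i => v i ⬝ᵥ (N *ᵥ v i) := by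
    ext i j
    have h1 : (R0.transpose * N * R0) i j = v i ⬝ᵥ (N *ᵥ v j) := by
      rw [Matrix.mul_assoc, Matrix.mul_apply]
      rfl
    rw [h1, Matrix.diagonal_apply]
    split_ifs with hij
    · rw [hij]
    · exact hv i j hij
  have hdne : ∀ i, v i ⬝ᵥ (N *ᵥ v i) ≠ 0 := by
    have h1 := congrArg Matrix.det hdiag
    rw [Matrix.det_mul, Matrix.det_mul, Matrix.det_transpose, Matrix.det_diagonal] at h1
    have h3 : (∏ i, v i ⬝ᵥ (N *ᵥ v i)) ≠ 0 := by
      rw [← h1]
      exact mul_ne_zero (mul_ne_zero hR0d hd) hR0d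
    intro i
    exact Finset.prod_ne_zero_iff.1 h3 i (Finset.mem_univ i)
  have hsq : ∀ i, ∃ s : K, s ^ 2 = v i ⬝ᵥ (N *ᵥ v i) := fun i =>
    IsAlgClosed.exists_pow_nat_eq _ (by norm_num)
  choose s hs2 using hsq
  have hsne : ∀ i, s i ≠ 0 := by
    intro i h0
    apply hdne i
    rw [← hs2 i, h0]
    simp
  refine ⟨R0 * Matrix.diagonal fun i => (s i)⁻¹, ?_, ?_⟩
  · rw [Matrix.det_mul, Matrix.det_diagonal]
    exact mul_ne_zero hR0d (Finset.prod_ne_zero_iff.2 fun i _ => inv_ne_zero (hsne i))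
  · rw [Matrix.transpose_mul, Matrix.diagonal_transpose]
    have h1 : (Matrix.diagonal fun i => (s i)⁻¹) * R0.transpose * N *
        (R0 * Matrix.diagonal fun i => (s i)⁻¹) =
        (Matrix.diagonal fun i => (s i)⁻¹) * (R0.transpose * N * R0) *
          Matrix.diagonal fun i => (s i)⁻¹ := by
      simp only [Matrix.mul_assoc]
    rw [h1, hdiag, Matrix.diagonal_mul_diagonal, Matrix.diagonal_mul_diagonal]
    have h3 : (fun i => (s i)⁻¹ * (v i ⬝ᵥ (N *ᵥ v i)) * (s i)⁻¹) = fun _ => (1 : K) := by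
      funext i
      rw [← hs2 i]
      field_simp [hsne i]
    rw [h3, Matrix.diagonal_one]

/-- Isometries between nondegenerate forms, with a free sign. -/
theorem isom {K ι : Type} [Field K] [CharZero K] [IsAlgClosed K] [Fintype ι] [DecidableEq ι]
    [Nonempty ι] (N Q : Matrix ι ι K) (hs : N.transpose = N) (hd : N.det ≠ 0)
    (hs' : Q.transpose = Q) (hd' : Q.det ≠ 0) :
    ∃ Y : Fin 2 → Matrix ι ι K, (∀ ε, (Y ε).transpose * N * Y ε = Q) ∧
      (Y 1).det = -(Y 0).det ∧ (Y 0).det ≠ 0 := by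
  obtain ⟨R, hR, hRN⟩ := sumsq N hs hd
  obtain ⟨S, hS, hSQ⟩ := sumsq Q hs' hd'
  obtain ⟨i₀⟩ := (inferInstance : Nonempty ι)
  have hSu : IsUnit S.det := isUnit_iff_ne_zero.2 hS
  have hQ : Q = (S⁻¹).transpose * S⁻¹ := by
    have h1 : (S⁻¹).transpose * (S.transpose * Q * S) * S⁻¹ = (S⁻¹).transpose * S⁻¹ := by
      rw [hSQ, Matrix.mul_one]
    rw [← h1]
    have h2 : (S⁻¹).transpose * S.transpose = 1 := by
      rw [← Matrix.transpose_mul, Matrix.mul_nonsing_inv _ hSu, Matrix.transpose_one]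
    calc Q = (1 : Matrix ι ι K) * Q * 1 := by rw [Matrix.one_mul, Matrix.mul_one]
      _ = ((S⁻¹).transpose * S.transpose) * Q * (S * S⁻¹) := by
          rw [h2, Matrix.mul_nonsing_inv _ hSu]
      _ = _ := by simp only [Matrix.mul_assoc]
  let D : Fin 2 → ι → K := fun ε i => if i = i₀ then (-1) ^ (ε : ℕ) else 1
  have hDD : ∀ ε, Matrix.diagonal (D ε) * Matrix.diagonal (D ε) = 1 := by
    intro ε
    rw [Matrix.diagonal_mul_diagonal, ← Matrix.diagonal_one]
    congr 1
    funext i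
    by_cases h : i = i₀
    · simp only [D, if_pos h, ← pow_add]
      exact Even.neg_one_pow ⟨_, rfl⟩
    · simp [D, h]
  have hDdet : ∀ ε, (Matrix.diagonal (D ε)).det = (-1) ^ (ε : ℕ) := by
    intro ε
    rw [Matrix.det_diagonal, Finset.prod_ite_eq' Finset.univ i₀]
    simp
  refine ⟨fun ε => R * Matrix.diagonal (D ε) * S⁻¹, fun ε => ?_, ?_, ?_⟩
  · rw [Matrix.transpose_mul, Matrix.transpose_mul, Matrix.diagonal_transpose]
    calc (S⁻¹).transpose * (Matrix.diagonal (D ε) * R.transpose) * N *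
          (R * Matrix.diagonal (D ε) * S⁻¹) =
          (S⁻¹).transpose * (Matrix.diagonal (D ε) * ((R.transpose * N * R) *
            Matrix.diagonal (D ε))) * S⁻¹ := by simp only [Matrix.mul_assoc]
      _ = Q := by rw [hRN, Matrix.one_mul, hDD, Matrix.mul_one, ← hQ]
  · simp only [Matrix.det_mul, hDdet]
    simp
  · simp only [Matrix.det_mul, hDdet]
    refine mul_ne_zero (mul_ne_zero hR (by simp)) ?_
    intro h0
    have h3 := congrArg Matrix.det (Matrix.mul_nonsing_inv S hSu)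
    rw [Matrix.det_mul, h0, mul_zero, Matrix.det_one] at h3
    exact zero_ne_one h3

instance : IsAlgClosed Qb := by
  have h := algebraicClosure.isAlgClosure ℚ ℂ
  exact h.isAlgClosed

/-- Rational matrices as algebraic matrices. -/
noncomputable def qn {ι : Type} (A : Matrix ι ι ℚ) : Matrix ι ι Qb := A.map (algebraMap ℚ Qb)

theorem qc_qn {ι : Type} (A : Matrix ι ι ℚ) : qc (qn A) = cm A := by
  ext i j
  simp only [qc, qn, cm, Matrix.map_apply]
  rw [← IsScalarTower.algebraMap_apply ℚ Qb ℂ]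
  simp

end YZX_

open YZX_ in
theorem yzx_proof : Stmt_Yzx := by
  intro ι _ _ _ w N Q c M hN hNd hQ hQd hc hM
  have hl : (2 * Real.pi * Complex.I : ℂ) ≠ 0 := Complex.two_pi_I_ne_zero
  have hqd : ∀ A : Matrix ι ι ℚ, (qn A).det = algebraMap ℚ Qb A.det := by
    intro A
    exact (RingHom.map_det (algebraMap ℚ Qb) A).symm
  have hqt : ∀ A : Matrix ι ι ℚ, A.transpose = A → (qn A).transpose = qn A := by
    intro A hA
    unfold qn
    rw [← Matrix.transpose_map, hA]
  have hcq : (c • Q).transpose = c • Q := by rw [Matrix.transpose_smul, hQ]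
  have hcd : (c • Q).det ≠ 0 := by
    rw [Matrix.det_smul]
    exact mul_ne_zero (pow_ne_zero _ hc) hQd
  obtain ⟨Y, hY, hY1, hY0⟩ := isom (qn N) (qn (c • Q)) (hqt N hN)
    (by rw [hqd]; exact (map_ne_zero _).2 hNd) (hqt _ hcq)
    (by rw [hqd]; exact (map_ne_zero _).2 hcd)
  have hqcm : ∀ A B : Matrix ι ι Qb, qc (A * B) = qc A * qc B := by
    intro A B
    exact Matrix.map_mul
  have hqct : ∀ A : Matrix ι ι Qb, qc A.transpose = (qc A).transpose := by
    intro A
    rfl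
  have hqcd : ∀ A : Matrix ι ι Qb, (qc A).det = algebraMap Qb ℂ A.det := by
    intro A
    exact (RingHom.map_det (algebraMap Qb ℂ) A).symm
  have hcmc : cm (c • Q) = (c : ℂ) • cm Q := by
    ext i j
    simp [cm]
  have hYc : ∀ ε, (qc (Y ε)).transpose * cm N * qc (Y ε) = (c : ℂ) • cm Q := by
    intro ε
    rw [← hcmc, ← qc_qn N, ← qc_qn (c • Q), ← hY ε, hqcm, hqcm, hqct]
  have hcmd : ∀ A : Matrix ι ι ℚ, (cm A).det = (A.det : ℂ) := by
    intro A
    exact (RingHom.map_det (Rat.castHom ℂ) A).symm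
  have hQd' : (cm Q).det ≠ 0 := by
    rw [hcmd]
    exact_mod_cast hQd
  have hNd' : (cm N).det ≠ 0 := by
    rw [hcmd]
    exact_mod_cast hNd
  have hcc : (c : ℂ) ≠ 0 := by exact_mod_cast hc
  have hYd : ∀ ε, (qc (Y ε)).det ≠ 0 := by
    intro ε h0
    have h1 := congrArg Matrix.det (hYc ε)
    rw [Matrix.det_mul, h0, mul_zero, Matrix.det_smul] at h1
    exact mul_ne_zero (pow_ne_zero _ hcc) hQd' h1.symm
  obtain ⟨M', hM'⟩ : ∃ M' : Matrix ι ι ℂ, M' = ((2 * Real.pi * Complex.I : ℂ) ^ w)⁻¹ • M :=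
    ⟨_, rfl⟩
  have hM'N : M'.transpose * cm N * M' = (c : ℂ) • cm Q := by
    rw [hM', Matrix.transpose_smul, Matrix.smul_mul, Matrix.smul_mul, Matrix.mul_smul, hM,
      smul_smul, smul_smul]
    congr 1
    rw [two_mul w, pow_add]
    field_simp
  have key : ∀ ε, Iso (cm Q) ((qc (Y ε))⁻¹ * M') := by
    intro ε
    have hu : IsUnit (qc (Y ε)).det := isUnit_iff_ne_zero.2 (hYd ε)
    unfold Iso
    have h1 : (c : ℂ) • (((qc (Y ε))⁻¹ * M').transpose * cm Q * ((qc (Y ε))⁻¹ * M')) =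
        (c : ℂ) • cm Q := by
      calc (c : ℂ) • (((qc (Y ε))⁻¹ * M').transpose * cm Q * ((qc (Y ε))⁻¹ * M')) =
          ((qc (Y ε))⁻¹ * M').transpose * ((c : ℂ) • cm Q) * ((qc (Y ε))⁻¹ * M') := by
            rw [Matrix.mul_smul, Matrix.smul_mul]
        _ = ((qc (Y ε))⁻¹ * M').transpose * ((qc (Y ε)).transpose * cm N * qc (Y ε)) *
            ((qc (Y ε))⁻¹ * M') := by rw [hYc ε]
        _ = (qc (Y ε) * ((qc (Y ε))⁻¹ * M')).transpose * cm N *
            (qc (Y ε) * ((qc (Y ε))⁻¹ * M')) := by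
            rw [Matrix.transpose_mul (qc (Y ε))]
            simp only [Matrix.mul_assoc]
        _ = M'.transpose * cm N * M' := by
            rw [← Matrix.mul_assoc (qc (Y ε)), Matrix.mul_nonsing_inv _ hu, Matrix.one_mul]
        _ = _ := hM'N
    exact smul_right_injective _ hcc h1
  have hdet1 : ((qc (Y 0))⁻¹ * M').det = 1 ∨ ((qc (Y 0))⁻¹ * M').det = -1 := by
    have h1 := congrArg Matrix.det (key 0)
    rw [Matrix.det_mul, Matrix.det_mul, Matrix.det_transpose] at h1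
    have h2 : (((qc (Y 0))⁻¹ * M').det) ^ 2 = 1 := by
      apply mul_right_cancel₀ hQd'
      rw [one_mul]
      calc _ = ((qc (Y 0))⁻¹ * M').det * (cm Q).det * ((qc (Y 0))⁻¹ * M').det := by ring
        _ = _ := h1
    have h3 : (((qc (Y 0))⁻¹ * M').det - 1) * (((qc (Y 0))⁻¹ * M').det + 1) = 0 := by
      linear_combination h2
    rcases mul_eq_zero.1 h3 with h | h
    · exact Or.inl (sub_eq_zero.1 h)
    · exact Or.inr (eq_neg_of_add_eq_zero_left h)
  have hdet2 : ((qc (Y 1))⁻¹ * M').det = -((qc (Y 0))⁻¹ * M').det := by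
    have hinv : ∀ ε, ((qc (Y ε))⁻¹).det = ((qc (Y ε)).det)⁻¹ := by
      intro ε
      rw [Matrix.det_nonsing_inv, Ring.inverse_eq_inv']
    rw [Matrix.det_mul, Matrix.det_mul, hinv, hinv, hqcd, hqcd, hY1, map_neg, inv_neg, neg_mul]
  obtain ⟨ε, hε⟩ : ∃ ε, ((qc (Y ε))⁻¹ * M').det = 1 := by
    rcases hdet1 with h | h
    · exact ⟨0, h⟩
    · exact ⟨1, by rw [hdet2, h, neg_neg]⟩
  refine ⟨Y ε, (qc (Y ε))⁻¹ * M', hYc ε, key ε, hε, ?_, ?_⟩
  · have hu : IsUnit (qc (Y ε)).det := isUnit_iff_ne_zero.2 (hYd ε)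
    rw [← Matrix.mul_assoc, Matrix.mul_nonsing_inv _ hu, Matrix.one_mul, hM', smul_smul,
      mul_inv_cancel₀ (pow_ne_zero _ hl), one_smul]
  · have h1 := congrArg Matrix.det (hY ε)
    rw [Matrix.det_mul, Matrix.det_mul, Matrix.det_transpose, hqd, hqd] at h1
    have hNq : algebraMap ℚ Qb N.det ≠ 0 := (map_ne_zero _).2 hNd
    have h2 : ((Y ε).det) ^ 2 = algebraMap ℚ Qb ((c • Q).det / N.det) := by
      rw [map_div₀, eq_div_iff hNq, ← h1]
      ring
    rw [h2]
    exact Algebra.mem_bot.2 ⟨_, rfl⟩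

end Pool.Agent.EVD
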