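import Pool.Agent.EVD.Stmts

set_option autoImplicit false

open scoped BigOperators

namespace Pool.Agent.EVD

namespace ZCL_

variable {ι : Type} [Fintype ι] [DecidableEq ι]

/-- substitution of polynomials -/
theorem eval_sub (f : ι × ι → MvPolynomial (ι × ι) ℂ) (P : MvPolynomial (ι × ι) ℂ)
    (a : ι × ι → ℂ) :
    MvPolynomial.eval a (MvPolynomial.aeval f P) =
      MvPolynomial.eval (fun p => MvPolynomial.eval a (f p)) P := by
  have h : ((MvPolynomial.eval a).comp (MvPolynomial.aeval f :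
      MvPolynomial (ι × ι) ℂ →ₐ[ℂ] MvPolynomial (ι × ι) ℂ).toRingHom) =
      MvPolynomial.eval (fun p => MvPolynomial.eval a (f p)) := by
    apply MvPolynomial.ringHom_ext
    · intro r; simp
    · intro p; simp
  exact RingHom.congr_fun h P

/-- two sided multiplication is polynomial -/
theorem exists_lr (B C : Matrix ι ι ℂ) (P : MvPolynomial (ι × ι) ℂ) :
    ∃ P' : MvPolynomial (ι × ι) ℂ, ∀ a : Matrix ι ι ℂ,
      MvPolynomial.eval (fun p => a p.1 p.2) P' =
        MvPolynomial.eval (fun p => (B * a * C) p.1 p.2) P := by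
  refine ⟨MvPolynomial.aeval (fun p : ι × ι => ∑ j, (∑ i, MvPolynomial.C (B p.1 i) *
    MvPolynomial.X (i, j)) * MvPolynomial.C (C j p.2)) P, fun a => ?_⟩
  rw [eval_sub]
  congr 1
  congr 1
  funext p
  simp [Matrix.mul_apply, map_sum]

/-- conjugated transposition is polynomial -/
theorem exists_tr (B C : Matrix ι ι ℂ) (P : MvPolynomial (ι × ι) ℂ) :
    ∃ P' : MvPolynomial (ι × ι) ℂ, ∀ a : Matrix ι ι ℂ,
      MvPolynomial.eval (fun p => a p.1 p.2) P' =
        MvPolynomial.eval (fun p => (B * a.transpose * C) p.1 p.2) P := by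
  refine ⟨MvPolynomial.aeval (fun p : ι × ι => ∑ j, (∑ i, MvPolynomial.C (B p.1 i) *
    MvPolynomial.X (j, i)) * MvPolynomial.C (C j p.2)) P, fun a => ?_⟩
  rw [eval_sub]
  congr 1
  congr 1
  funext p
  simp [Matrix.mul_apply, map_sum]

theorem iso_mul {Q a b : Matrix ι ι ℂ} (ha : Iso Q a) (hb : Iso Q b) : Iso Q (a * b) := by
  unfold Iso at *
  calc (a * b).transpose * Q * (a * b) = b.transpose * (a.transpose * Q * a) * b := by
        rw [Matrix.transpose_mul]; simp only [Matrix.mul_assoc]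
    _ = Q := by rw [ha, hb]

theorem iso_inv {Q a b : Matrix ι ι ℂ} (ha : Iso Q a) (hab : a * b = 1) : Iso Q b := by
  unfold Iso at *
  calc b.transpose * Q * b = b.transpose * (a.transpose * Q * a) * b := by rw [ha]
    _ = (a * b).transpose * Q * (a * b) := by
        rw [Matrix.transpose_mul]; simp only [Matrix.mul_assoc]
    _ = Q := by rw [hab]; simp

theorem left_inv {Q a : Matrix ι ι ℂ} (hQ : Q.det ≠ 0) (ha : Iso Q a) :
    (Q⁻¹ * a.transpose * Q) * a = 1 := by
  unfold Iso at ha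
  have h1 : Q⁻¹ * Q = 1 := Matrix.nonsing_inv_mul Q (isUnit_iff_ne_zero.2 hQ)
  calc (Q⁻¹ * a.transpose * Q) * a = Q⁻¹ * (a.transpose * Q * a) := by
        simp only [Matrix.mul_assoc]
    _ = 1 := by rw [ha, h1]

end ZCL_

open ZCL_ in
theorem zcl_proof : Stmt_Zcl := by
  intro ι _ _ Q X _hQs hQ hX h1 hmul hinv
  have hsub : X ⊆ zcl Q X := fun a ha => ⟨hX a ha, fun P hP => hP a ha⟩
  have step1 : ∀ x ∈ X, ∀ b ∈ zcl Q X, x * b ∈ zcl Q X := by
    intro x hx b hb
    refine ⟨iso_mul (hX x hx) hb.1, fun P hP => ?_⟩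
    obtain ⟨P', hP'⟩ := exists_lr x 1 P
    have := hb.2 P' (fun h hh => by
      rw [hP' h, mul_one]; exact hP _ (hmul x hx h hh))
    rw [hP' b, mul_one] at this
    exact this
  refine ⟨⟨fun a ha => ha.1, hsub h1, ?_, ?_, ?_⟩, hsub, ?_⟩
  · intro a ha b hb
    refine ⟨iso_mul ha.1 hb.1, fun P hP => ?_⟩
    obtain ⟨P', hP'⟩ := exists_lr 1 b P
    have := ha.2 P' (fun h hh => by
      rw [hP' h, one_mul]; exact (step1 h hh b hb).2 P hP)
    rw [hP' a, one_mul] at this
    exact this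
  · intro a ha
    have e1 := left_inv hQ ha.1
    have e2 : a * (Q⁻¹ * a.transpose * Q) = 1 := mul_eq_one_comm.1 e1
    refine ⟨Q⁻¹ * a.transpose * Q, ⟨iso_inv ha.1 e2, fun P hP => ?_⟩, e2, e1⟩
    obtain ⟨P', hP'⟩ := exists_tr Q⁻¹ Q P
    have := ha.2 P' (fun h hh => by
      rw [hP' h]
      obtain ⟨g, hg, hg1, -⟩ := hinv h hh
      have e3 : Q⁻¹ * h.transpose * Q = g := by
        calc Q⁻¹ * h.transpose * Q = (Q⁻¹ * h.transpose * Q) * (h * g) := by rw [hg1, mul_one]
          _ = ((Q⁻¹ * h.transpose * Q) * h) * g := (mul_assoc _ _ _).symm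
          _ = g := by rw [left_inv hQ (hX h hh), one_mul]
      rw [e3]; exact hP g hg)
    rw [hP' a] at this
    exact this
  · intro a ha hP
    exact ⟨ha, fun P hPX => hP P (fun h hh => hh.2 P hPX)⟩
  · intro s hs hss hsX h hh
    refine ⟨iso_mul (iso_mul hs hh.1) hs, fun P hP => ?_⟩
    obtain ⟨P', hP'⟩ := exists_lr s s P
    have := hh.2 P' (fun g hg => by rw [hP' g]; exact hP _ (hsX g hg))
    rw [hP' h] at this
    exact this

end Pool.Agent.EVD
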