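import Pool.Agent.EVD.Stmts

set_option autoImplicit false

open scoped BigOperators

namespace Pool.Agent.EVD

namespace ZCP_

section one
variable {κ : Type} [Fintype κ] [DecidableEq κ]

theorem iso_mul {Q a b : Matrix κ κ ℂ} (ha : Iso Q a) (hb : Iso Q b) : Iso Q (a * b) := by
  unfold Iso at *
  calc (a * b).transpose * Q * (a * b) = b.transpose * (a.transpose * Q * a) * b := by
        rw [Matrix.transpose_mul]; simp only [Matrix.mul_assoc]
    _ = Q := by rw [ha, hb]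

theorem iso_inv {Q a b : Matrix κ κ ℂ} (ha : Iso Q a) (hab : a * b = 1) : Iso Q b := by
  unfold Iso at *
  calc b.transpose * Q * b = b.transpose * (a.transpose * Q * a) * b := by rw [ha]
    _ = (a * b).transpose * Q * (a * b) := by
        rw [Matrix.transpose_mul]; simp only [Matrix.mul_assoc]
    _ = Q := by rw [hab]; simp

theorem left_inv {Q a : Matrix κ κ ℂ} (hQ : Q.det ≠ 0) (ha : Iso Q a) :
    (Q⁻¹ * a.transpose * Q) * a = 1 := by
  unfold Iso at ha
  have h1 : Q⁻¹ * Q = 1 := Matrix.nonsing_inv_mul Q (isUnit_iff_ne_zero.2 hQ)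
  calc (Q⁻¹ * a.transpose * Q) * a = Q⁻¹ * (a.transpose * Q * a) := by
        simp only [Matrix.mul_assoc]
    _ = 1 := by rw [ha, h1]

theorem pr_mul_pr {Q : Matrix κ κ ℂ} {v : κ → ℂ}
    (h : v = 0 ∨ dotProduct v (Q.mulVec v) = 1) : pr Q v * pr Q v = pr Q v := by
  unfold pr
  rcases h with rfl | h
  · simp
  · rw [Matrix.vecMulVec_mul_vecMulVec, dotProduct_comm, h]; simp

theorem pr_adj {Q : Matrix κ κ ℂ} (hQ : Q.transpose = Q) (v : κ → ℂ) :
    (pr Q v).transpose * Q = Q * pr Q v := by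
  unfold pr
  rw [Matrix.transpose_vecMulVec, Matrix.vecMulVec_mul, Matrix.mul_vecMulVec,
    ← Matrix.mulVec_transpose, hQ]

theorem rs_sq {Q : Matrix κ κ ℂ} {v : κ → ℂ}
    (h : v = 0 ∨ dotProduct v (Q.mulVec v) = 1) :
    (1 - (2 : ℂ) • pr Q v) * (1 - (2 : ℂ) • pr Q v) = 1 := by
  have h2 := pr_mul_pr h
  simp only [mul_sub, sub_mul, mul_one, one_mul, smul_mul_assoc, mul_smul_comm, h2]
  module

theorem rs_iso {Q : Matrix κ κ ℂ} (hQ : Q.transpose = Q) {v : κ → ℂ}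
    (h : v = 0 ∨ dotProduct v (Q.mulVec v) = 1) : Iso Q (1 - (2 : ℂ) • pr Q v) := by
  unfold Iso
  have h3 : (1 - (2 : ℂ) • pr Q v).transpose * Q = Q * (1 - (2 : ℂ) • pr Q v) := by
    rw [Matrix.transpose_sub, Matrix.transpose_smul, Matrix.transpose_one, sub_mul, mul_sub,
      smul_mul_assoc, mul_smul_comm, pr_adj hQ, one_mul, mul_one]
  rw [h3, mul_assoc, rs_sq h, mul_one]

end one

variable {I : Type} {ι : I → Type} [∀ k, Fintype (ι k)] [∀ k, DecidableEq (ι k)]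

/-- substitution of polynomials -/
theorem eval_sub (f : (Σ k, ι k × ι k) → MvPolynomial (Σ k, ι k × ι k) ℂ)
    (P : MvPolynomial (Σ k, ι k × ι k) ℂ) (a : (Σ k, ι k × ι k) → ℂ) :
    MvPolynomial.eval a (MvPolynomial.aeval f P) =
      MvPolynomial.eval (fun p => MvPolynomial.eval a (f p)) P := by
  have h : ((MvPolynomial.eval a).comp (MvPolynomial.aeval f :
      MvPolynomial (Σ k, ι k × ι k) ℂ →ₐ[ℂ] MvPolynomial (Σ k, ι k × ι k) ℂ).toRingHom) =
      MvPolynomial.eval (fun p => MvPolynomial.eval a (f p)) := by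
    apply MvPolynomial.ringHom_ext
    · intro r; simp
    · intro p; simp
  exact RingHom.congr_fun h P

/-- two sided multiplication is polynomial -/
theorem exists_lr (B C : ∀ k, Matrix (ι k) (ι k) ℂ) (P : MvPolynomial (Σ k, ι k × ι k) ℂ) :
    ∃ P' : MvPolynomial (Σ k, ι k × ι k) ℂ, ∀ a : (∀ k, Matrix (ι k) (ι k) ℂ),
      MvPolynomial.eval (fun p => a p.1 p.2.1 p.2.2) P' =
        MvPolynomial.eval (fun p => (B * a * C) p.1 p.2.1 p.2.2) P := by
  refine ⟨MvPolynomial.aeval (fun p : (Σ k, ι k × ι k) =>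
    ∑ j, (∑ i, MvPolynomial.C (B p.1 p.2.1 i) *
    MvPolynomial.X ⟨p.1, (i, j)⟩) * MvPolynomial.C (C p.1 j p.2.2)) P, fun a => ?_⟩
  rw [eval_sub]
  congr 1
  congr 1
  funext p
  simp [Matrix.mul_apply, map_sum]

/-- conjugated transposition is polynomial -/
theorem exists_tr (B C : ∀ k, Matrix (ι k) (ι k) ℂ) (P : MvPolynomial (Σ k, ι k × ι k) ℂ) :
    ∃ P' : MvPolynomial (Σ k, ι k × ι k) ℂ, ∀ a : (∀ k, Matrix (ι k) (ι k) ℂ),
      MvPolynomial.eval (fun p => a p.1 p.2.1 p.2.2) P' =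
        MvPolynomial.eval (fun p => (B p.1 * (a p.1).transpose * C p.1) p.2.1 p.2.2) P := by
  refine ⟨MvPolynomial.aeval (fun p : (Σ k, ι k × ι k) =>
    ∑ j, (∑ i, MvPolynomial.C (B p.1 p.2.1 i) *
    MvPolynomial.X ⟨p.1, (j, i)⟩) * MvPolynomial.C (C p.1 j p.2.2)) P, fun a => ?_⟩
  rw [eval_sub]
  congr 1
  congr 1
  funext p
  simp [Matrix.mul_apply, map_sum]

/-- the closure -/
def cl (Q : ∀ k, Matrix (ι k) (ι k) ℂ) (X : Set (∀ k, Matrix (ι k) (ι k) ℂ)) :
    Set (∀ k, Matrix (ι k) (ι k) ℂ) :=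
  {a | (∀ k, Iso (Q k) (a k)) ∧ ∀ P : MvPolynomial (Σ k, ι k × ι k) ℂ,
    (∀ h ∈ X, MvPolynomial.eval (fun p => h p.1 p.2.1 p.2.2) P = 0) →
    MvPolynomial.eval (fun p => a p.1 p.2.1 p.2.2) P = 0}

theorem cl_clP (Q : ∀ k, Matrix (ι k) (ι k) ℂ) (hQ : ∀ k, (Q k).det ≠ 0)
    (X : Set (∀ k, Matrix (ι k) (ι k) ℂ)) (hX : ∀ a ∈ X, ∀ k, Iso (Q k) (a k)) (h1 : 1 ∈ X)
    (hmul : ∀ a ∈ X, ∀ b ∈ X, a * b ∈ X) (hinv : ∀ a ∈ X, ∃ b ∈ X, a * b = 1) :
    ClP Q (cl Q X) := by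
  have hsub : X ⊆ cl Q X := fun a ha => ⟨hX a ha, fun P hP => hP a ha⟩
  have step1 : ∀ x ∈ X, ∀ b ∈ cl Q X, x * b ∈ cl Q X := by
    intro x hx b hb
    refine ⟨fun k => iso_mul (hX x hx k) (hb.1 k), fun P hP => ?_⟩
    obtain ⟨P', hP'⟩ := exists_lr x 1 P
    have := hb.2 P' (fun h hh => by
      rw [hP' h, mul_one]; exact hP _ (hmul x hx h hh))
    rw [hP' b, mul_one] at this
    exact this
  refine ⟨fun a ha => ha.1, hsub h1, ?_, ?_, ?_⟩
  · intro a ha b hb
    refine ⟨fun k => iso_mul (ha.1 k) (hb.1 k), fun P hP => ?_⟩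
    obtain ⟨P', hP'⟩ := exists_lr 1 b P
    have := ha.2 P' (fun h hh => by
      rw [hP' h, one_mul]; exact (step1 h hh b hb).2 P hP)
    rw [hP' a, one_mul] at this
    exact this
  · intro a ha
    have e1 : ∀ k, ((Q k)⁻¹ * (a k).transpose * Q k) * a k = 1 := fun k =>
      left_inv (hQ k) (ha.1 k)
    have e2 : ∀ k, a k * ((Q k)⁻¹ * (a k).transpose * Q k) = 1 := fun k =>
      mul_eq_one_comm.1 (e1 k)
    refine ⟨fun k => (Q k)⁻¹ * (a k).transpose * Q k,
      ⟨fun k => iso_inv (ha.1 k) (e2 k), fun P hP => ?_⟩, funext e2, funext e1⟩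
    obtain ⟨P', hP'⟩ := exists_tr (fun k => (Q k)⁻¹) Q P
    have := ha.2 P' (fun h hh => by
      rw [hP' h]
      obtain ⟨g, hg, hg1⟩ := hinv h hh
      have e3 : ∀ k, (Q k)⁻¹ * (h k).transpose * Q k = g k := by
        intro k
        have hg2 : h k * g k = 1 := congrFun hg1 k
        calc (Q k)⁻¹ * (h k).transpose * Q k =
              ((Q k)⁻¹ * (h k).transpose * Q k) * (h k * g k) := by rw [hg2, mul_one]
          _ = (((Q k)⁻¹ * (h k).transpose * Q k) * h k) * g k := (mul_assoc _ _ _).symm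
          _ = g k := by rw [left_inv (hQ k) (hX h hh k), one_mul]
      simp only [e3]; exact hP g hg)
    rw [hP' a] at this
    exact this
  · intro a ha hP
    exact ⟨ha, fun P hPX => hP P (fun h hh => hh.2 P hPX)⟩

end ZCP_

open ZCP_ in
theorem zcp_proof : Stmt_Zcp := by
  intro I _ _ ι _ _ q Q v hR
  have hgen : ∀ x ∈ RF Q v, (∀ k, Iso (Q k) (x k)) ∧ x * x = 1 := by
    rintro x ⟨j, rfl⟩
    exact ⟨fun k => rs_iso (hR k).sym ((hR k).nrm j), funext fun k => rs_sq ((hR k).nrm j)⟩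
  refine ⟨cl Q (↑(Submonoid.closure (RF Q v))), cl_clP Q (fun k => (hR k).det) _ ?_ ?_ ?_ ?_,
    ?_, ?_⟩
  · intro a ha
    induction ha using Submonoid.closure_induction with
    | mem x hx => exact (hgen x hx).1
    | one => intro k; unfold Iso; simp
    | mul x y _ _ hx hy => exact fun k => iso_mul (hx k) (hy k)
  · exact Submonoid.one_mem _
  · exact fun a ha b hb => Submonoid.mul_mem _ ha hb
  · intro a ha
    induction ha using Submonoid.closure_induction with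
    | mem x hx => exact ⟨x, Submonoid.subset_closure hx, (hgen x hx).2⟩
    | one => exact ⟨1, Submonoid.one_mem _, one_mul 1⟩
    | mul x y _ _ hx hy =>
      obtain ⟨x', hx', hxx⟩ := hx
      obtain ⟨y', hy', hyy⟩ := hy
      refine ⟨y' * x', Submonoid.mul_mem _ hy' hx', ?_⟩
      calc x * y * (y' * x') = x * (y * y') * x' := by simp only [mul_assoc]
        _ = 1 := by rw [hyy, mul_one, hxx]
  · intro a ha
    refine ⟨?_, fun P hP => hP a ha⟩
    induction ha using Submonoid.closure_induction with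
    | mem x hx => exact (hgen x hx).1
    | one => intro k; unfold Iso; simp
    | mul x y _ _ hx hy => exact fun k => iso_mul (hx k) (hy k)
  · intro P hP h hh
    exact hh.2 P hP

end Pool.Agent.EVD
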