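import Pool.Agent.EVD.Stmts

set_option autoImplicit false

/-!
# EVD, module ZDN: denominators of the solution at infinity
-/

open scoped BigOperators
open Finset

namespace Pool.Agent.EVD

namespace ZDN_

open Pool.Agent.DGP (IsZ)

theorem isZ_mul {x y : ℚ} (hx : IsZ x) (hy : IsZ y) : IsZ (x * y) := by
  obtain ⟨a, rfl⟩ := hx
  obtain ⟨b, rfl⟩ := hy
  exact ⟨a * b, by push_cast; ring⟩

theorem isZ_nat (a : ℕ) : IsZ (a : ℚ) := ⟨a, by push_cast; rfl⟩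

end ZDN_

open ZDN_ in
theorem zdn_proof (hA : Stmt_Arp) : Stmt_Zdn := by
  intro ι _ _ κ A B b Em h
  obtain ⟨C, c, hC, hden⟩ := h.den
  set P : ℕ := ∏ i : ι, ((κ : ℚ) - b i).den with hP
  have hP0 : P ≠ 0 := Finset.prod_ne_zero_iff.mpr fun i _ => Rat.den_nz _
  have hP1 : 1 ≤ P := Nat.one_le_iff_ne_zero.mpr hP0
  refine ⟨C * P ^ 2, c, Nat.one_le_iff_ne_zero.mpr (by positivity), fun m i j => ?_⟩
  set p : ℕ := ((κ : ℚ) - b j).den with hp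
  have hpP : p ∣ P := Finset.dvd_prod_of_mem (fun i : ι => ((κ : ℚ) - b i).den) (Finset.mem_univ j)
  have hp0 : p ≠ 0 := Rat.den_nz _
  have h1 := hA ((κ : ℚ) - b j).num p m (Nat.one_le_iff_ne_zero.mpr hp0)
  have e1 : ((((κ : ℚ) - b j).num : ℤ) : ℚ) / (p : ℚ) = (κ : ℚ) - b j := by
    rw [hp]; exact Rat.num_div_den _
  rw [e1] at h1
  obtain ⟨u, hu⟩ : (Finset.Icc 1 (C * (m + 1))).lcm id ∣
      (Finset.Icc 1 (C * P ^ 2 * (m + 1))).lcm id := by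
    apply Finset.lcm_mono
    apply Finset.Icc_subset_Icc le_rfl
    apply Nat.mul_le_mul_right
    exact Nat.le_mul_of_pos_right _ (by positivity)
  obtain ⟨v, hv⟩ : p ^ (2 * m) ∣ P ^ (2 * (m + 1)) :=
    (pow_dvd_pow_of_dvd hpP _).trans (pow_dvd_pow _ (by omega))
  have h2 := isZ_mul (isZ_mul (isZ_mul (isZ_nat (u ^ c)) (hden m i j)) (isZ_nat v)) h1
  have e2 : Zo κ b Em m i j = Em m i j * poch ((κ : ℚ) - b j) m := by
    unfold Zo
    rw [Matrix.mul_diagonal]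
  have hm0 : (m.factorial : ℚ) ≠ 0 := by exact_mod_cast m.factorial_ne_zero
  have e3 : (((C * P ^ 2 : ℕ) : ℚ)) ^ (m + 1) = (C : ℚ) ^ (m + 1) * ((p : ℚ) ^ (2 * m) * v) := by
    have : (C * P ^ 2) ^ (m + 1) = C ^ (m + 1) * (p ^ (2 * m) * v) := by
      rw [mul_pow, ← pow_mul, hv]
    exact_mod_cast this
  rw [e2, hu, e3]
  push_cast at h2 ⊢
  have e4 : ((((Finset.Icc 1 (C * (m + 1))).lcm id : ℕ) : ℚ) * (u : ℚ)) ^ c *
      ((C : ℚ) ^ (m + 1) * ((p : ℚ) ^ (2 * m) * (v : ℚ))) *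
      (Em m i j * poch ((κ : ℚ) - b j) m) =
      (u : ℚ) ^ c * ((((Finset.Icc 1 (C * (m + 1))).lcm id : ℕ) : ℚ) ^ c * (C : ℚ) ^ (m + 1) *
        (m.factorial : ℚ) * Em m i j) * (v : ℚ) *
      ((p : ℚ) ^ (2 * m) * poch ((κ : ℚ) - b j) m / (m.factorial : ℚ)) := by
    rw [mul_pow]
    field_simp
  rw [e4]
  exact h2

end Pool.Agent.EVD
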