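import Pool.Agent.EVD.Stmts

set_option autoImplicit false

/-!
# EVD, module ZRC: the recursion of the solution at infinity
-/

open scoped BigOperators

namespace Pool.Agent.EVD

theorem zrc_proof : Stmt_Zrc := by
  intro ι _ _ κ A B b Em h
  constructor
  · ext i j
    have h0 := congrFun (congrFun h.rec0 i) j
    rw [Matrix.mul_diagonal] at h0
    have e1 : Zo κ b Em 0 = Em 0 := by
      unfold Zo
      have : (fun i => poch ((κ : ℚ) - b i) 0) = fun _ => (1 : ℚ) := by
        funext i
        simp [poch]
      rw [this, Matrix.diagonal_one, Matrix.mul_one]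
    rw [e1, Matrix.neg_apply, Matrix.mul_diagonal]
    unfold Eo
    rw [Matrix.sub_mul, Matrix.smul_mul, Matrix.one_mul, Matrix.sub_apply, Matrix.smul_apply, h0,
      smul_eq_mul]
    ring
  · intro m
    ext i j
    have h1 := congrFun (congrFun (h.rec1 m) i) j
    rw [Matrix.sub_apply, Matrix.add_apply, Matrix.smul_apply, Matrix.mul_diagonal,
      Matrix.neg_apply, smul_eq_mul] at h1
    have e2 : poch ((κ : ℚ) - b j) (m + 1) = poch ((κ : ℚ) - b j) m * ((κ : ℚ) - b j + m) := by
      unfold poch
      rw [Finset.prod_range_succ]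
    rw [Matrix.sub_apply, Matrix.neg_apply, Matrix.mul_diagonal, Matrix.mul_diagonal]
    unfold Zo
    rw [← Matrix.mul_assoc, ← Matrix.mul_assoc, Matrix.mul_diagonal, Matrix.mul_diagonal,
      Matrix.mul_diagonal, e2]
    unfold Eo
    rw [Matrix.sub_mul, Matrix.smul_mul, Matrix.one_mul, Matrix.sub_apply, Matrix.smul_apply,
      smul_eq_mul]
    linear_combination (poch ((κ : ℚ) - b j) m * ((κ : ℚ) - b j + m)) * h1

end Pool.Agent.EVD
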