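import Pool.Agent.EVD.DIV
import Pool.Agent.EVD.BTR
import Pool.Agent.EVD.UON
import Pool.Agent.EVD.EVO
import Pool.Agent.EVD.REC
import Pool.Agent.EVD.EZE
import Pool.Agent.EVD.ARP
import Pool.Agent.EVD.DEN
import Pool.Agent.EVD.KSP
import Pool.Agent.EVD.FST
import Pool.Agent.EVD.OKA
import Pool.Agent.EVD.OKB
import Pool.Agent.EVD.OKT
import Pool.Agent.EVD.ZDN
import Pool.Agent.EVD.ZRC
import Pool.Agent.EVD.INV
import Pool.Agent.EVD.BKH
import Pool.Agent.EVD.REV
import Pool.Agent.EVD.GTP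
import Pool.Agent.EVD.BSO
import Pool.Agent.EVD.HDO
import Pool.Agent.EVD.TFO
import Pool.Agent.EVD.BAO
import Pool.Agent.EVD.FUO
import Pool.Agent.EVD.SRO
import Pool.Agent.EVD.ORT
import Pool.Agent.EVD.PAR
import Pool.Agent.EVD.LIA
import Pool.Agent.EVD.LIB
import Pool.Agent.EVD.LIC
import Pool.Agent.EVD.SGL
import Pool.Agent.EVD.GEN
import Pool.Agent.EVD.DNO
import Pool.Agent.EVD.ZCL
import Pool.Agent.EVD.ZCP
import Pool.Agent.EVD.FNC
import Pool.Agent.EVD.CMA
import Pool.Agent.EVD.CSA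
import Pool.Agent.EVD.DNP
import Pool.Agent.EVD.CMN
import Pool.Agent.EVD.FBE
import Pool.Agent.EVD.RSQ
import Pool.Agent.EVD.FRT
import Pool.Agent.EVD.FNO
import Pool.Agent.EVD.LOO
import Pool.Agent.EVD.MNO
import Pool.Agent.EVD.PLG
import Pool.Agent.EVD.GRT
import Pool.Agent.EVD.CMX
import Pool.Agent.EVD.CMY
import Pool.Agent.EVD.CMO
import Pool.Agent.EVD.GAU
import Pool.Agent.EVD.INB
import Pool.Agent.EVD.GRL
import Pool.Agent.EVD.INO
import Pool.Agent.EVD.THO
import Pool.Agent.EVD.RAY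
import Pool.Agent.EVD.JBD
import Pool.Agent.EVD.JLM
import Pool.Agent.EVD.IOD
import Pool.Agent.EVD.GGO
import Pool.Agent.EVD.LAP
import Pool.Agent.EVD.LMO
import Pool.Agent.EVD.MKO
import Pool.Agent.EVD.MKL
import Pool.Agent.EVD.BLC
import Pool.Agent.EVD.TRG
import Pool.Agent.EVD.NDG
import Pool.Agent.EVD.IDO
import Pool.Agent.EVD.MNP
import Pool.Agent.EVD.IRX
import Pool.Agent.EVD.LMX
import Pool.Agent.EVD.GLX
import Pool.Agent.EVD.YZX
import Pool.Agent.EVD.NFO
import Pool.Agent.EVD.FIN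
import Pool.Agent.DGP.Assembly
import Pool.Agent.DG2.DSMJ
import Pool.Agent.GPH.IIMain

set_option autoImplicit false

/-!
# EVD: the main theorem
-/

namespace Pool.Agent.EVD

namespace Main_

theorem div : Stmt_Div := div_proof
theorem btr : Stmt_Btr := btr_proof
theorem uon : Stmt_Uon := uon_proof div
theorem evo : Stmt_Evo := evo_proof div
theorem rec : Stmt_Rec := rec_proof div
theorem eze : Stmt_Eze := eze_proof
theorem arp : Stmt_Arp := arp_proof
theorem den : Stmt_Den := den_proof arp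
theorem ksp : Stmt_Ksp := ksp_proof
theorem fst : Stmt_Fst := fst_proof rec eze den ksp
theorem oka : Stmt_Oka := oka_proof btr uon ksp
theorem okb : Stmt_Okb := okb_proof btr evo ksp
theorem okt : Stmt_Okt := okt_proof oka okb
theorem zdn : Stmt_Zdn := zdn_proof arp
theorem zrc : Stmt_Zrc := zrc_proof
theorem inv : Stmt_Inv := inv_proof zrc
theorem bkh : Stmt_Bkh := bkh_proof zrc
theorem rev : Stmt_Rev := rev_proof
theorem gtp : Stmt_Gtp := gtp_proof arp zdn inv bkh rev
theorem bso : Stmt_Bso := bso_proof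
theorem hdo : Stmt_Hdo := hdo_proof
theorem tfo : Stmt_Tfo := tfo_proof
theorem bao : Stmt_Bao := bao_proof bso hdo tfo DGP.Lcm_proof
theorem fuo : Stmt_Fuo := fuo_proof bao DG2.dsmj_proof DGP.Mono_proof DGP.Tens_proof
theorem sro : Stmt_Sro := sro_proof
theorem ort : Stmt_Ort := ort_proof
theorem par : Stmt_Par := par_proof ort
theorem lia : Stmt_Lia := lia_proof
theorem lib : Stmt_Lib := lib_proof
theorem lic : Stmt_Lic := lic_proof lia
theorem sgl : Stmt_Sgl := sgl_proof
theorem gen : Stmt_Gen := gen_proof par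
theorem dno : Stmt_Dno := dno_proof lia lib lic sgl gen
theorem zcl : Stmt_Zcl := zcl_proof
theorem zcp : Stmt_Zcp := zcp_proof
theorem fnc : Stmt_Fnc := fnc_proof par
theorem cma : Stmt_Cma := cma_proof dno zcl fnc
theorem csa : Stmt_Csa := csa_proof dno zcl fnc
theorem dnp : Stmt_Dnp := dnp_proof zcp cma csa dno
theorem cmn : Stmt_Cmn := cmn_proof
theorem fbe : Stmt_Fbe := fbe_proof
theorem rsq : Stmt_Rsq := rsq_proof
theorem frt : Stmt_Frt := frt_proof
theorem fno : Stmt_Fno := fno_proof fbe GPH.lode_proof GPH.uniq_proof GPH.geoC_proof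
theorem loo : Stmt_Loo := loo_proof frt rsq fbe fno GPH.uniq_proof GPH.geoC_proof
theorem mno : Stmt_Mno := mno_proof GPH.geoC_proof
theorem plg : Stmt_Plg := plg_proof
theorem grt : Stmt_Grt := grt_proof
theorem cmx : Stmt_Cmx := cmx_proof rsq fbe GPH.geoC_proof GPH.ext_thm
theorem cmy : Stmt_Cmy := cmy_proof grt plg fbe
theorem cmo : Stmt_Cmo := cmo_proof cmx cmy rsq fbe
theorem gau : Stmt_Gau := gau_proof rsq fbe
theorem inb : Stmt_Inb := inb_proof GPH.geoC_proof GPH.ext_thm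
theorem grl : Stmt_Grl := grl_proof grt fbe
theorem ino : Stmt_Ino := ino_proof gau inb grl fno GPH.geoC_proof
theorem tho : Stmt_Tho := tho_proof cmn fbe rsq fno loo mno cmo ino dnp GPH.geob_proof GPH.geoC_proof GPH.uniq_proof
theorem ray : Stmt_Ray := ray_proof
theorem jbd : Stmt_Jbd := jbd_proof ray
theorem jlm : Stmt_Jlm := jlm_proof ray
theorem iod : Stmt_Iod := iod_proof div ray
theorem ggo : Stmt_Ggo := ggo_proof jbd jlm iod
theorem lap : Stmt_Lap := lap_proof ray
theorem lmo : Stmt_Lmo := lmo_proof ggo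
theorem mko : Stmt_Mko := mko_proof lmo oka
theorem mkl : Stmt_Mkl := mkl_proof ggo mko oka
theorem blc : Stmt_Blc := blc_proof mko mkl oka
theorem trg : Stmt_Trg := trg_proof
theorem ndg : Stmt_Ndg := ndg_proof trg
theorem ido : Stmt_Ido := ido_proof fuo tho sro tfo DGP.aa DGP.Val_proof DGP.Word_proof
theorem mnp : Stmt_Mnp := mnp_proof ido DGP.Word_proof
theorem irx : Stmt_Irx := irx_proof par
theorem lmx : Stmt_Lmx := lmx_proof par
theorem glx : Stmt_Glx := glx_proof par
theorem yzx : Stmt_Yzx := yzx_proof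
theorem nfo : Stmt_Nfo := nfo_proof irx lmx glx yzx
theorem fin : Stmt_Fin := fin_proof okt fst gtp sro lap mko blc trg ndg nfo mnp

end Main_

theorem main : Stmt_Fin := Main_.fin

end Pool.Agent.EVD
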