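import Pool.Agent.EVD.Stmts

set_option autoImplicit false

/-!
# EVD, module NFO: from relations with coefficients in a number field to relations with rational
coefficients
-/

open scoped BigOperators Topology
open MvPolynomial

namespace Pool.Agent.EVD

noncomputable section

namespace NFO_

instance isAlgClosure_Qb : IsAlgClosure ℚ Qb := algebraicClosure.isAlgClosure ℚ ℂ

instance normal_Qb : Normal ℚ Qb := IsAlgClosure.normal ℚ Qb

instance isAlgebraic_Qb : Algebra.IsAlgebraic ℚ Qb := algebraicClosure.isAlgebraic ℚ ℂ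

instance isGalois_Qb : IsGalois ℚ Qb := ⟨⟩

section

variable {r : ℕ} {ι : Fin r → Type} [∀ k, Fintype (ι k)] [∀ k, DecidableEq (ι k)]

/-- The generic matrix. -/
def gen (ι : Fin r → Type) (k : Fin r) :
    Matrix (ι k) (ι k) (MvPolynomial (Option (Σ k, ι k × ι k)) Qb) :=
  Matrix.of fun i j => X (some ⟨k, (i, j)⟩)

/-- The exponent of `λ` in the determinant number `k`. -/
def mk (ι : Fin r → Type) [∀ k, Fintype (ι k)] (w : Fin r → ℕ) (k : Fin r) : ℕ :=
  w k * Fintype.card (ι k)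

/-- The polynomial `P ∏ (det Y_i + η_i λ^{m_i}) + ∑ η_i⁻¹ λ^{M - m_i} (det Y_i - η_i λ^{m_i})`. -/
def Fx (w : Fin r → ℕ) (P : MvPolynomial (Option (Σ k, ι k × ι k)) Qb) (η : Fin r → Qb) :
    MvPolynomial (Option (Σ k, ι k × ι k)) Qb :=
  P * ∏ k, ((gen ι k).det + C (η k) * X none ^ mk ι w k) +
    ∑ k, C (η k)⁻¹ * X none ^ ((∑ l, mk ι w l) - mk ι w k) *
      ((gen ι k).det - C (η k) * X none ^ mk ι w k)

theorem gen_eval (lam : ℂ) (Y : ∀ k, Matrix (ι k) (ι k) ℂ) (k : Fin r) :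
    aeval (pt lam Y) (gen ι k).det = (Y k).det := by
  rw [AlgHom.map_det]
  congr 1
  ext i j
  simp [gen, pt]

theorem Fx_eval (w : Fin r → ℕ) (P : MvPolynomial (Option (Σ k, ι k × ι k)) Qb)
    (η : Fin r → Qb) (lam : ℂ) (Y : ∀ k, Matrix (ι k) (ι k) ℂ) :
    aeval (pt lam Y) (Fx w P η) = aeval (pt lam Y) P *
      ∏ k, ((Y k).det + (η k : ℂ) * lam ^ mk ι w k) +
      ∑ k, ((η k : ℂ))⁻¹ * lam ^ ((∑ l, mk ι w l) - mk ι w k) *
        ((Y k).det - (η k : ℂ) * lam ^ mk ι w k) := by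
  have hn : aeval (pt lam Y) (X none : MvPolynomial (Option (Σ k, ι k × ι k)) Qb) = lam := by
    simp [pt]
  have hC : ∀ c : Qb, aeval (pt lam Y) (C c : MvPolynomial (Option (Σ k, ι k × ι k)) Qb)
      = (c : ℂ) := by
    intro c
    rw [aeval_C]
    rfl
  unfold Fx
  rw [map_add, map_mul, map_prod, map_sum]
  congr 1
  · congr 1
    apply Finset.prod_congr rfl
    intro k _
    rw [map_add, map_mul, map_pow, gen_eval, hn, hC]
  · apply Finset.sum_congr rfl
    intro k _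
    rw [map_mul, map_mul, map_sub, map_mul, map_pow, map_pow, gen_eval, hn, hC, hC]
    congr 2

theorem gen_map (τ : Qb →+* Qb) (k : Fin r) :
    MvPolynomial.map τ (gen ι k).det = (gen ι k).det := by
  rw [RingHom.map_det]
  congr 1
  ext i j
  simp [gen]

theorem Fx_map (w : Fin r → ℕ) (P : MvPolynomial (Option (Σ k, ι k × ι k)) Qb)
    (η : Fin r → Qb) (τ : Qb →+* Qb) :
    MvPolynomial.map τ (Fx w P η) = Fx w (MvPolynomial.map τ P) (fun k => τ (η k)) := by
  unfold Fx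
  rw [map_add, map_mul, map_prod, map_sum]
  congr 1
  · congr 1
    apply Finset.prod_congr rfl
    intro k _
    rw [map_add, map_mul, map_pow, gen_map, map_C, map_X]
  · apply Finset.sum_congr rfl
    intro k _
    rw [map_mul, map_mul, map_sub, map_mul, map_pow, map_pow, gen_map, map_C, map_C, map_X,
      map_inv₀]

theorem gen_deg (k : Fin r) : (gen ι k).det.totalDegree ≤ Fintype.card (ι k) := by
  rw [Matrix.det_apply]
  refine le_trans (totalDegree_finsetSum _ _) ?_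
  apply Finset.sup_le
  intro σ _
  have h1 : (∏ i, gen ι k (σ i) i).totalDegree ≤ Fintype.card (ι k) := by
    refine le_trans (totalDegree_finsetProd _ _) ?_
    refine le_trans (Finset.sum_le_sum (g := fun _ => 1) (fun i _ => ?_)) ?_
    · show (X (some ⟨k, (σ i, i)⟩) : MvPolynomial (Option (Σ k, ι k × ι k)) Qb).totalDegree ≤ 1
      exact le_of_eq (totalDegree_X _)
    · simp
  rcases Int.units_eq_one_or (Equiv.Perm.sign σ) with h2 | h2
  · rw [h2, one_smul]
    exact h1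
  · rw [h2]
    have h3 : ((-1 : ℤˣ) • ∏ i, gen ι k (σ i) i) = -(∏ i, gen ι k (σ i) i) := by
      simp
    rw [h3, totalDegree_neg]
    exact h1

theorem Fx_deg (w : Fin r → ℕ) (P : MvPolynomial (Option (Σ k, ι k × ι k)) Qb)
    (η : Fin r → Qb) :
    (Fx w P η).totalDegree ≤ P.totalDegree + ∑ k, (Fintype.card (ι k) + mk ι w k) := by
  have hX : ∀ m : ℕ, (X none ^ m : MvPolynomial (Option (Σ k, ι k × ι k)) Qb).totalDegree ≤ m := by
    intro m
    refine le_trans (totalDegree_pow _ _) ?_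
    rw [totalDegree_X, mul_one]
  have hCX : ∀ (c : Qb) (m : ℕ),
      (C c * X none ^ m : MvPolynomial (Option (Σ k, ι k × ι k)) Qb).totalDegree ≤ m := by
    intro c m
    refine le_trans (totalDegree_mul _ _) ?_
    rw [totalDegree_C, zero_add]
    exact hX m
  unfold Fx
  refine le_trans (totalDegree_add _ _) (max_le ?_ ?_)
  · refine le_trans (totalDegree_mul _ _) ?_
    apply Nat.add_le_add_left
    refine le_trans (totalDegree_finsetProd _ _) ?_
    apply Finset.sum_le_sum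
    intro k _
    refine le_trans (totalDegree_add _ _) (max_le ?_ ?_)
    · exact le_trans (gen_deg k) (Nat.le_add_right _ _)
    · exact le_trans (hCX _ _) (Nat.le_add_left _ _)
  · refine le_trans (totalDegree_finsetSum _ _) ?_
    apply Finset.sup_le
    intro k _
    refine le_trans (totalDegree_mul _ _) ?_
    have h1 := hCX (η k)⁻¹ ((∑ l, mk ι w l) - mk ι w k)
    have h2 : ((gen ι k).det - C (η k) * X none ^ mk ι w k).totalDegree ≤
        Fintype.card (ι k) + mk ι w k := by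
      refine le_trans (totalDegree_sub _ _) (max_le ?_ ?_)
      · exact le_trans (gen_deg k) (Nat.le_add_right _ _)
      · exact le_trans (hCX _ _) (Nat.le_add_left _ _)
    have h3 : mk ι w k ≤ ∑ l, mk ι w l :=
      Finset.single_le_sum (f := fun l => mk ι w l) (fun _ _ => Nat.zero_le _)
        (Finset.mem_univ k)
    have h4 : Fintype.card (ι k) ≤ ∑ l, Fintype.card (ι l) :=
      Finset.single_le_sum (f := fun l => Fintype.card (ι l)) (fun _ _ => Nat.zero_le _)
        (Finset.mem_univ k)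
    rw [Finset.sum_add_distrib]
    omega

/-- Determinants on the torsor. -/
theorem det_torsor (w : Fin r → ℕ) (Q : ∀ k, Matrix (ι k) (ι k) ℚ)
    (Y0 : ∀ k, Matrix (ι k) (ι k) Qb) (lam : ℂ) (g : ∀ k, Matrix (ι k) (ι k) ℂ)
    (hg : ∀ k, Iso (cm (Q k)) (g k) ∧ (g k).det = 1) (k : Fin r) :
    (lam ^ w k • (qc (Y0 k) * g k)).det = ((Y0 k).det : ℂ) * lam ^ mk ι w k := by
  rw [Matrix.det_smul, Matrix.det_mul, (hg k).2, mul_one, ← pow_mul, mul_comm]
  congr 1
  unfold qc
  rw [← RingHom.mapMatrix_apply, ← RingHom.map_det]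
  rfl

/-! ### The orbit -/

theorem conj_delta {δ : Qb} (h : (δ ^ 2 : Qb) ∈ (⊥ : Subalgebra ℚ Qb)) (τ : Qb ≃ₐ[ℚ] Qb) :
    τ δ = δ ∨ τ δ = -δ := by
  obtain ⟨q, hq⟩ := Algebra.mem_bot.mp h
  have h1 : (τ δ) ^ 2 = δ ^ 2 := by
    rw [← map_pow, ← hq]
    exact τ.commutes q
  exact sq_eq_sq_iff_eq_or_eq_neg.mp h1

/-- The orbit of the inclusion and of `δ`. -/
def Orb (L : IntermediateField ℚ ℂ) [Finite (L →ₐ[ℚ] Qb)] (inc : L →ₐ[ℚ] Qb)
    (δ : Fin r → Qb) : Finset ((L →ₐ[ℚ] Qb) × (Fin r → Qb)) := by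
  classical
  letI : Fintype (L →ₐ[ℚ] Qb) := Fintype.ofFinite _
  exact ((Finset.univ : Finset (L →ₐ[ℚ] Qb)) ×ˢ
    Fintype.piFinset (fun i => ({δ i, -δ i} : Finset Qb))).filter
      (fun x => ∃ τ : Qb ≃ₐ[ℚ] Qb, x = ((τ : Qb →ₐ[ℚ] Qb).comp inc, fun i => τ (δ i)))

theorem mem_Orb (L : IntermediateField ℚ ℂ) [Finite (L →ₐ[ℚ] Qb)] (inc : L →ₐ[ℚ] Qb)
    (δ : Fin r → Qb) (hδ : ∀ i, (δ i ^ 2 : Qb) ∈ (⊥ : Subalgebra ℚ Qb))
    (x : (L →ₐ[ℚ] Qb) × (Fin r → Qb)) : x ∈ Orb L inc δ ↔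
      ∃ τ : Qb ≃ₐ[ℚ] Qb, x = ((τ : Qb →ₐ[ℚ] Qb).comp inc, fun i => τ (δ i)) := by
  classical
  let _ : Fintype (L →ₐ[ℚ] Qb) := Fintype.ofFinite _
  unfold Orb
  rw [Finset.mem_filter]
  constructor
  · exact fun h => h.2
  · rintro ⟨τ, hτ⟩
    refine ⟨?_, τ, hτ⟩
    rw [Finset.mem_product, Fintype.mem_piFinset]
    refine ⟨Finset.mem_univ _, fun i => ?_⟩
    rw [hτ]
    rcases conj_delta (hδ i) τ with h | h
    · simp [h]
    · simp [h]

theorem card_Orb (L : IntermediateField ℚ ℂ) [FiniteDimensional ℚ L]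
    [Finite (L →ₐ[ℚ] Qb)] (inc : L →ₐ[ℚ] Qb) (δ : Fin r → Qb) :
    (Orb L inc δ).card ≤ Module.finrank ℚ L * 2 ^ r := by
  classical
  let _ : Fintype (L →ₐ[ℚ] Qb) := Fintype.ofFinite _
  unfold Orb
  refine le_trans (Finset.card_filter_le _ _) ?_
  rw [Finset.card_product, Fintype.card_piFinset]
  apply Nat.mul_le_mul
  · have h1 := card_algHom_le_finrank ℚ L Qb
    rw [Nat.card_eq_fintype_card] at h1
    rw [Finset.card_univ]
    exact h1
  · refine le_trans (Finset.prod_le_pow_card _ _ 2 (fun i _ => Finset.card_le_two)) ?_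
    simp

/-- The product over the orbit is rational. -/
theorem exists_rational (L : IntermediateField ℚ ℂ) [FiniteDimensional ℚ L]
    [Finite (L →ₐ[ℚ] Qb)] (inc : L →ₐ[ℚ] Qb) (δ : Fin r → Qb)
    (hδ : ∀ i, (δ i ^ 2 : Qb) ∈ (⊥ : Subalgebra ℚ Qb)) (w : Fin r → ℕ)
    (P : MvPolynomial (Option (Σ k, ι k × ι k)) L) :
    ∃ R : MvPolynomial (Option (Σ k, ι k × ι k)) ℚ,
      MvPolynomial.map (algebraMap ℚ Qb) R =
        ∏ x ∈ Orb L inc δ, Fx w (MvPolynomial.map (x.1 : L →+* Qb) P) x.2 := by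
  set RQ := ∏ x ∈ Orb L inc δ, Fx w (MvPolynomial.map (x.1 : L →+* Qb) P) x.2 with hRQ
  have hinv : ∀ σ : Qb ≃ₐ[ℚ] Qb, MvPolynomial.map (σ : Qb →+* Qb) RQ = RQ := by
    intro σ
    rw [hRQ, map_prod]
    apply Finset.prod_nbij'
      (fun x => (((σ : Qb →ₐ[ℚ] Qb).comp x.1, fun i => σ (x.2 i)) :
        (L →ₐ[ℚ] Qb) × (Fin r → Qb)))
      (fun x => (((σ.symm : Qb →ₐ[ℚ] Qb).comp x.1, fun i => σ.symm (x.2 i)) :
        (L →ₐ[ℚ] Qb) × (Fin r → Qb)))
    · intro x hx
      obtain ⟨τ, hτ⟩ := (mem_Orb L inc δ hδ x).mp hx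
      rw [mem_Orb L inc δ hδ]
      refine ⟨τ.trans σ, ?_⟩
      rw [hτ]
      rfl
    · intro x hx
      obtain ⟨τ, hτ⟩ := (mem_Orb L inc δ hδ x).mp hx
      rw [mem_Orb L inc δ hδ]
      refine ⟨τ.trans σ.symm, ?_⟩
      rw [hτ]
      rfl
    · intro x _
      apply Prod.ext
      · ext l
        simp
      · funext i
        simp
    · intro x _
      apply Prod.ext
      · ext l
        simp
      · funext i
        simp
    · intro x _
      rw [Fx_map, MvPolynomial.map_map]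
      rfl
  have hmem : RQ ∈ Set.range (MvPolynomial.map (σ := Option (Σ k, ι k × ι k))
      (algebraMap ℚ Qb)) := by
    rw [MvPolynomial.mem_range_map_iff_coeffs_subset]
    intro c hc
    obtain ⟨s, -, hs⟩ := MvPolynomial.mem_coeffs_iff.mp hc
    have h1 : c ∈ (⊥ : IntermediateField ℚ Qb) := by
      rw [InfiniteGalois.mem_bot_iff_fixed]
      intro σ
      rw [hs]
      conv_rhs => rw [← hinv σ]
      rw [MvPolynomial.coeff_map]
      rfl
    exact IntermediateField.mem_bot.mp h1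
  exact hmem

theorem totalDegree_map_eq {σ : Type} (R : MvPolynomial σ ℚ) :
    (MvPolynomial.map (algebraMap ℚ Qb) R).totalDegree = R.totalDegree := by
  unfold MvPolynomial.totalDegree
  rw [MvPolynomial.support_map_of_injective _ (algebraMap ℚ Qb).injective]

theorem totalDegree_map_le' {σ : Type} {L : IntermediateField ℚ ℂ} (f : L →+* Qb)
    (P : MvPolynomial σ L) : (MvPolynomial.map f P).totalDegree ≤ P.totalDegree := by
  unfold MvPolynomial.totalDegree
  rw [MvPolynomial.support_map_of_injective _ f.injective]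

/-- Irreducibility for products over finite sets. -/
theorem irx_prod (hIrx : Stmt_Irx) [∀ k, Nonempty (ι k)] (Q : ∀ k, Matrix (ι k) (ι k) ℂ)
    (hQ : ∀ k, (Q k).transpose = Q k ∧ (Q k).det ≠ 0) (lam : ℂ)
    (M : ∀ k, Matrix (ι k) (ι k) ℂ) {T : Type} (s : Finset T)
    (F : T → MvPolynomial (Option (Σ k, ι k × ι k)) ℂ)
    (h : ∀ x ∈ s, ∃ g : ∀ k, Matrix (ι k) (ι k) ℂ, (∀ k, Iso (Q k) (g k) ∧ (g k).det = 1) ∧
      MvPolynomial.eval (pt lam (fun k => M k * g k)) (F x) ≠ 0) :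
    ∃ g : ∀ k, Matrix (ι k) (ι k) ℂ, (∀ k, Iso (Q k) (g k) ∧ (g k).det = 1) ∧
      MvPolynomial.eval (pt lam (fun k => M k * g k)) (∏ x ∈ s, F x) ≠ 0 := by
  classical
  induction s using Finset.induction_on with
  | empty =>
    refine ⟨fun _ => 1, fun k => ⟨?_, Matrix.det_one⟩, by simp⟩
    unfold Iso
    rw [Matrix.transpose_one, Matrix.one_mul, Matrix.mul_one]
  | insert x s hx ih =>
    obtain ⟨g, hg, h1, h2⟩ := hIrx r ι Q hQ (F x) (∏ x ∈ s, F x) lam M
      (h x (Finset.mem_insert_self x s)) (ih (fun y hy => h y (Finset.mem_insert_of_mem hy)))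
    refine ⟨g, hg, ?_⟩
    rw [Finset.prod_insert hx, map_mul]
    exact mul_ne_zero h1 h2

/-- A polynomial in `λ` which vanishes for `λ ≠ 0` vanishes. -/
theorem vanish_zero (w : Fin r → ℕ) (Y0 g : ∀ k, Matrix (ι k) (ι k) ℂ)
    (P : MvPolynomial (Option (Σ k, ι k × ι k)) Qb)
    (h : ∀ lam : ℂ, lam ≠ 0 → aeval (pt lam (fun k => lam ^ w k • (Y0 k * g k))) P = (0 : ℂ))
    (lam : ℂ) : aeval (pt lam (fun k => lam ^ w k • (Y0 k * g k))) P = (0 : ℂ) := by
  have hcont : Continuous (fun lam : ℂ =>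
      (aeval (pt lam (fun k => lam ^ w k • (Y0 k * g k))) P : ℂ)) := by
    have h1 : ∀ Q : MvPolynomial (Option (Σ k, ι k × ι k)) Qb, Continuous (fun lam : ℂ =>
        (aeval (pt lam (fun k => lam ^ w k • (Y0 k * g k))) Q : ℂ)) := by
      intro Q
      induction Q using MvPolynomial.induction_on with
      | C a => simp only [aeval_C]; exact continuous_const
      | add p q hp hq => simp only [map_add]; exact hp.add hq
      | mul_X p n hp =>
        simp only [map_mul, aeval_X]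
        apply hp.mul
        cases n with
        | none => exact continuous_id
        | some q =>
          show Continuous (fun lam : ℂ => (lam ^ w q.1 • (Y0 q.1 * g q.1)) q.2.1 q.2.2)
          simp only [Matrix.smul_apply, smul_eq_mul]
          exact (continuous_id.pow _).mul continuous_const
    exact h1 P
  have hcl : IsClosed {lam : ℂ |
      (aeval (pt lam (fun k => lam ^ w k • (Y0 k * g k))) P : ℂ) = 0} :=
    isClosed_eq hcont continuous_const
  have hd : Dense ({0}ᶜ : Set ℂ) := dense_compl_singleton 0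
  have hsub : closure ({0}ᶜ : Set ℂ) ⊆ {lam : ℂ |
      (aeval (pt lam (fun k => lam ^ w k • (Y0 k * g k))) P : ℂ) = 0} :=
    hcl.closure_subset_iff.mpr (fun lam hlam => h lam hlam)
  exact hsub (hd lam)

end

end NFO_

end

end Pool.Agent.EVD
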