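import Pool.Agent.EVD.Stmts

set_option autoImplicit false

open scoped BigOperators Topology
open Metric Set MeasureTheory

namespace Pool.Agent.EVD

namespace RAY_

theorem zt_pow (p : ℕ) (hp : p ≠ 0) : zt p ^ p = 1 := by
  unfold zt
  rw [← Complex.exp_nat_mul]
  have : (p : ℂ) * (2 * Real.pi * Complex.I / p) = 2 * Real.pi * Complex.I := by
    have hp' : (p : ℂ) ≠ 0 := by exact_mod_cast hp
    field_simp
  rw [this, Complex.exp_two_pi_mul_I]

theorem norm_zt (p : ℕ) (hp : p ≠ 0) : ‖zt p‖ = 1 := by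
  have h := zt_pow p hp
  have h2 : ‖zt p‖ ^ p = 1 := by rw [← norm_pow, h, norm_one]
  exact (pow_eq_one_iff_of_nonneg (norm_nonneg _) hp).1 h2

theorem zt_mod (p : ℕ) (hp : p ≠ 0) (l : ℕ) : zt p ^ l = zt p ^ (l % p) := by
  conv_lhs => rw [← Nat.div_add_mod l p, pow_add, pow_mul, zt_pow p hp, one_pow, one_mul]

/-- the sum expansion -/
theorem aeval_sum (f : Polynomial ℚ) (z : ℂ) (x : ℝ) :
    Polynomial.aeval (z * (x : ℂ)) f =
      ∑ k ∈ Finset.range (f.natDegree + 1), ((f.coeff k : ℚ) : ℂ) * (z * (x : ℂ)) ^ k := by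
  rw [Polynomial.aeval_eq_sum_range]
  refine Finset.sum_congr rfl fun k _ => ?_
  rw [Algebra.smul_def, eq_ratCast]

theorem norm_term (f : Polynomial ℚ) (z : ℂ) (hz : ‖z‖ = 1) (x : ℝ) (hx : 0 ≤ x) (k : ℕ) :
    ‖((f.coeff k : ℚ) : ℂ) * (z * (x : ℂ)) ^ k‖ = |(f.coeff k : ℝ)| * x ^ k := by
  rw [norm_mul, norm_pow, norm_mul, hz, one_mul]
  have h1 : ‖((f.coeff k : ℚ) : ℂ)‖ = |(f.coeff k : ℝ)| := by
    have : ((f.coeff k : ℚ) : ℂ) = (((f.coeff k : ℚ) : ℝ) : ℂ) := by push_cast; rfl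
    rw [this, Complex.norm_real, Real.norm_eq_abs]
  rw [h1, Complex.norm_real, Real.norm_of_nonneg hx]

theorem pow_le_one_add (x : ℝ) (hx : 0 ≤ x) (k p : ℕ) (hk : k ≤ p) : x ^ k ≤ 1 + x ^ p := by
  rcases le_total x 1 with h | h
  · have h1 : x ^ k ≤ 1 := pow_le_one₀ hx h
    have h2 : 0 ≤ x ^ p := pow_nonneg hx p
    linarith
  · have h1 : x ^ k ≤ x ^ p := pow_le_pow_right₀ h hk
    linarith

theorem upper (f : Polynomial ℚ) (z : ℂ) (hz : ‖z‖ = 1) (x : ℝ) (hx : 0 ≤ x) :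
    ‖Polynomial.aeval (z * (x : ℂ)) f‖ ≤
      (∑ k ∈ Finset.range (f.natDegree + 1), |(f.coeff k : ℝ)|) * (1 + x ^ f.natDegree) := by
  rw [aeval_sum, Finset.sum_mul]
  refine (norm_sum_le _ _).trans (Finset.sum_le_sum fun k hk => ?_)
  rw [norm_term f z hz x hx]
  exact mul_le_mul_of_nonneg_left
    (pow_le_one_add x hx k _ (Nat.lt_succ_iff.1 (Finset.mem_range.1 hk))) (abs_nonneg _)

theorem lower (f : Polynomial ℚ) (hf : f.Monic) (h2 : 2 ≤ f.natDegree) (z : ℂ) (hz : ‖z‖ = 1)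
    (hzp : z ^ f.natDegree = 1)
    (hpos : ∀ x : ℝ, 0 ≤ x → 0 < (Polynomial.aeval (z * (x : ℂ)) f).re) :
    ∃ c : ℝ, 0 < c ∧ ∀ x : ℝ, 0 ≤ x →
      c * (1 + x ^ f.natDegree) ≤ (Polynomial.aeval (z * (x : ℂ)) f).re := by
  set p := f.natDegree with hp
  set S : ℝ := ∑ k ∈ Finset.range p, |(f.coeff k : ℝ)| with hS
  have hS0 : 0 ≤ S := Finset.sum_nonneg fun k _ => abs_nonneg _
  set X : ℝ := max 1 (2 * S) with hX
  have hX1 : 1 ≤ X := le_max_left _ _
  have hX2 : 2 * S ≤ X := le_max_right _ _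
  -- large x
  have large : ∀ x : ℝ, X ≤ x → 1 / 4 * (1 + x ^ p) ≤ (Polynomial.aeval (z * (x : ℂ)) f).re := by
    intro x hx
    have hx1 : 1 ≤ x := hX1.trans hx
    have hx0 : 0 ≤ x := by linarith
    rw [aeval_sum, Finset.sum_range_succ]
    have hlead : ((f.coeff f.natDegree : ℚ) : ℂ) * (z * (x : ℂ)) ^ f.natDegree
        = ((x ^ p : ℝ) : ℂ) := by
      rw [mul_pow, hzp]
      have : f.coeff f.natDegree = 1 := hf
      rw [this]; push_cast; ring
    rw [hlead, Complex.add_re, Complex.ofReal_re]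
    have hrest : ‖∑ k ∈ Finset.range f.natDegree, ((f.coeff k : ℚ) : ℂ) * (z * (x : ℂ)) ^ k‖
        ≤ S * x ^ (p - 1) := by
      rw [hS, Finset.sum_mul]
      refine (norm_sum_le _ _).trans (Finset.sum_le_sum fun k hk => ?_)
      rw [norm_term f z hz x hx0]
      have hk' := Finset.mem_range.1 hk
      exact mul_le_mul_of_nonneg_left (pow_le_pow_right₀ hx1 (by omega)) (abs_nonneg _)
    have hre := (abs_le.1 (Complex.abs_re_le_norm
      (∑ k ∈ Finset.range f.natDegree, ((f.coeff k : ℚ) : ℂ) * (z * (x : ℂ)) ^ k))).1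
    have hxp : x ^ p = x ^ (p - 1) * x := by
      rw [← pow_succ]; congr 1; omega
    have hxq : 0 ≤ x ^ (p - 1) := pow_nonneg hx0 _
    have h1 : S * x ^ (p - 1) ≤ 1 / 2 * x ^ p := by
      rw [hxp]
      nlinarith
    have h3 : 1 ≤ x ^ p := one_le_pow₀ hx1
    nlinarith
  -- compact part
  have hcont : ContinuousOn (fun x : ℝ => (Polynomial.aeval (z * (x : ℂ)) f).re) (Icc 0 X) := by
    apply Continuous.continuousOn
    have : Continuous fun x : ℝ => Polynomial.aeval (z * (x : ℂ)) f := by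
      have e : (fun x : ℝ => Polynomial.aeval (z * (x : ℂ)) f) = fun x : ℝ =>
          ∑ k ∈ Finset.range (f.natDegree + 1), ((f.coeff k : ℚ) : ℂ) * (z * (x : ℂ)) ^ k := by
        funext x; exact aeval_sum f z x
      rw [e]
      fun_prop
    exact Complex.continuous_re.comp this
  obtain ⟨x₀, hx₀, hmin⟩ := (isCompact_Icc : IsCompact (Icc (0:ℝ) X)).exists_isMinOn
    ⟨0, left_mem_Icc.2 (by linarith)⟩ hcont
  set m : ℝ := (Polynomial.aeval (z * (x₀ : ℂ)) f).re with hm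
  have hm0 : 0 < m := hpos x₀ hx₀.1
  have hXp : 0 < 1 + X ^ p := by positivity
  refine ⟨min (1 / 4) (m / (1 + X ^ p)), lt_min (by norm_num) (div_pos hm0 hXp), fun x hx => ?_⟩
  have hxp : 0 < 1 + x ^ p := by positivity
  rcases le_total X x with h | h
  · exact (mul_le_mul_of_nonneg_right (min_le_left _ _) hxp.le).trans (large x h)
  · have h1 : m ≤ (Polynomial.aeval (z * (x : ℂ)) f).re := hmin ⟨hx, h⟩
    refine (mul_le_mul_of_nonneg_right (min_le_right _ _) hxp.le).trans (le_trans ?_ h1)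
    rw [div_mul_eq_mul_div, div_le_iff₀ hXp]
    have h4 : x ^ p ≤ X ^ p := pow_le_pow_left₀ hx h p
    nlinarith

end RAY_

open RAY_ in
theorem ray_proof : Stmt_Ray := by
  intro f hf h2 hray
  have hp0 : f.natDegree ≠ 0 := by omega
  have key : ∀ n : ℕ, ∃ c : ℝ, 0 < c ∧ ∀ l < n, ∀ x : ℝ, 0 ≤ x →
      c * (1 + x ^ f.natDegree) ≤ (ray f l x).re := by
    intro n
    induction n with
    | zero => exact ⟨1, one_pos, fun l hl => absurd hl (Nat.not_lt_zero l)⟩
    | succ n ih =>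
      obtain ⟨c, hc, H⟩ := ih
      have hz : ‖zt f.natDegree ^ n‖ = 1 := by rw [norm_pow, norm_zt _ hp0, one_pow]
      have hzp : (zt f.natDegree ^ n) ^ f.natDegree = 1 := by
        rw [← pow_mul, mul_comm, pow_mul, zt_pow _ hp0, one_pow]
      obtain ⟨c', hc', H'⟩ := lower f hf h2 (zt f.natDegree ^ n) hz hzp
        (fun x hx => hray n x hx)
      refine ⟨min c c', lt_min hc hc', fun l hl x hx => ?_⟩
      have hxp : 0 ≤ 1 + x ^ f.natDegree := by positivity
      rcases Nat.lt_succ_iff_lt_or_eq.1 hl with h | h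
      · exact (mul_le_mul_of_nonneg_right (min_le_left _ _) hxp).trans (H l h x hx)
      · subst h
        exact (mul_le_mul_of_nonneg_right (min_le_right _ _) hxp).trans (H' x hx)
  obtain ⟨c, hc, H⟩ := key f.natDegree
  set C : ℝ := ∑ k ∈ Finset.range (f.natDegree + 1), |(f.coeff k : ℝ)| with hC
  have hC0 : 0 ≤ C := Finset.sum_nonneg fun k _ => abs_nonneg _
  refine ⟨c, c, C + 1, hc, hc, by linarith, fun l x hx => ⟨?_, ?_⟩⟩
  · have e : ray f l x = ray f (l % f.natDegree) x := by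
      unfold ray; rw [← zt_mod _ hp0]
    rw [e]
    have := H (l % f.natDegree) (Nat.mod_lt _ (Nat.pos_of_ne_zero hp0)) x hx
    linarith
  · have hz : ‖zt f.natDegree ^ l‖ = 1 := by rw [norm_pow, norm_zt _ hp0, one_pow]
    have h1 := upper f (zt f.natDegree ^ l) hz x hx
    have hxp : 0 ≤ 1 + x ^ f.natDegree := by positivity
    have h3 : C * (1 + x ^ f.natDegree) ≤ (C + 1) * (1 + x ^ f.natDegree) :=
      mul_le_mul_of_nonneg_right (by linarith) hxp
    exact h1.trans h3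

end Pool.Agent.EVD
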