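import Pool.Agent.EVD.Stmts

set_option autoImplicit false
set_option linter.unusedSectionVars false

/-!
# EVD: products of reflections as rational functions (helper file for IRX, LMX, GLX)
-/

open scoped BigOperators
open MvPolynomial

namespace Pool.Agent.EVD.RPX_

noncomputable section

/-! ## Reflections over a field -/

section field

variable {F : Type} [Field F] {κ : Type} [Fintype κ] [DecidableEq κ]

/-- The norm. -/
def nr (Q : Matrix κ κ F) (u : κ → F) : F := dotProduct u (Q.mulVec u)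

/-- Reflections over a field. -/
def rf (Q : Matrix κ κ F) (u : κ → F) : Matrix κ κ F :=
  1 - (2 / nr Q u) • Matrix.vecMulVec u (Q.mulVec u)

lemma rf_iso (Q : Matrix κ κ F) (hQ : Q.transpose = Q) (u : κ → F) (hu : nr Q u ≠ 0) :
    (rf Q u).transpose * Q * rf Q u = Q := by
  have hv : Matrix.vecMul u Q = Q.mulVec u := by
    rw [← Matrix.mulVec_transpose, hQ]
  have h1 : Q * Matrix.vecMulVec u (Q.mulVec u) = Matrix.vecMulVec (Q.mulVec u) (Q.mulVec u) := by
    rw [Matrix.mul_vecMulVec]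
  have h2 : Matrix.vecMulVec (Q.mulVec u) u * Q = Matrix.vecMulVec (Q.mulVec u) (Q.mulVec u) := by
    rw [Matrix.vecMulVec_mul, hv]
  have h3 : Matrix.vecMulVec (Q.mulVec u) (Q.mulVec u) * Matrix.vecMulVec u (Q.mulVec u) =
      nr Q u • Matrix.vecMulVec (Q.mulVec u) (Q.mulVec u) := by
    rw [Matrix.vecMulVec_mul_vecMulVec, nr, dotProduct_comm]
    ext i j
    simp [Matrix.vecMulVec_apply]
    ring
  unfold rf
  rw [Matrix.transpose_sub, Matrix.transpose_one, Matrix.transpose_smul,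
    Matrix.transpose_vecMulVec, Matrix.sub_mul, Matrix.one_mul, Matrix.smul_mul, h2,
    Matrix.mul_sub, Matrix.mul_one, Matrix.mul_smul, Matrix.sub_mul, Matrix.smul_mul, h1, h3,
    smul_sub, smul_smul, smul_smul]
  have : 2 / nr Q u * (2 / nr Q u) * nr Q u = 2 * (2 / nr Q u) := by
    field_simp
  rw [this, mul_smul, two_smul]
  abel

lemma rf_det (Q : Matrix κ κ F) (u : κ → F) (hu : nr Q u ≠ 0) :
    (rf Q u).det = -1 := by
  have h : rf Q u = 1 + Matrix.replicateCol Unit (-(2 / nr Q u) • u) *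
      Matrix.replicateRow Unit (Q.mulVec u) := by
    ext i j
    simp [rf, Matrix.vecMulVec_apply, Matrix.mul_apply, Matrix.replicateCol_apply,
      Matrix.replicateRow_apply]
    ring
  rw [h, Matrix.det_one_add_replicateCol_mul_replicateRow, dotProduct_smul, dotProduct_comm]
  have : dotProduct u (Q.mulVec u) = nr Q u := rfl
  rw [this, smul_eq_mul]
  field_simp
  norm_num

/-- Products of reflections. -/
def gp (Q : Matrix κ κ F) {N : ℕ} (u : Fin N → κ → F) : Matrix κ κ F :=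
  (List.ofFn fun i => rf Q (u i)).prod

lemma gp_iso (Q : Matrix κ κ F) (hQ : Q.transpose = Q) {N : ℕ} (u : Fin N → κ → F)
    (hu : ∀ i, nr Q (u i) ≠ 0) : (gp Q u).transpose * Q * gp Q u = Q := by
  have key : ∀ L : List (Matrix κ κ F), (∀ a ∈ L, a.transpose * Q * a = Q) →
      L.prod.transpose * Q * L.prod = Q := by
    intro L
    induction L with
    | nil => intro _; simp
    | cons a L ih =>
      intro h
      rw [List.prod_cons, Matrix.transpose_mul]
      have h1 := h a (by simp)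
      have h2 := ih (fun b hb => h b (by simp [hb]))
      calc L.prod.transpose * a.transpose * Q * (a * L.prod)
          = L.prod.transpose * (a.transpose * Q * a) * L.prod := by
            simp only [Matrix.mul_assoc]
        _ = Q := by rw [h1, h2]
  apply key
  intro a ha
  rw [List.mem_ofFn] at ha
  obtain ⟨i, rfl⟩ := ha
  exact rf_iso Q hQ _ (hu i)

lemma gp_det (Q : Matrix κ κ F) {N : ℕ} (u : Fin N → κ → F)
    (hu : ∀ i, nr Q (u i) ≠ 0) : (gp Q u).det = (-1) ^ N := by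
  have key : ∀ L : List (Matrix κ κ F), (∀ a ∈ L, a.det = -1) →
      L.prod.det = (-1) ^ L.length := by
    intro L
    induction L with
    | nil => intro _; simp
    | cons a L ih =>
      intro h
      rw [List.prod_cons, Matrix.det_mul, h a (by simp),
        ih (fun b hb => h b (by simp [hb])), List.length_cons, pow_succ]
      ring
  unfold gp
  rw [key _ (by
    intro a ha
    rw [List.mem_ofFn] at ha
    obtain ⟨i, rfl⟩ := ha
    exact rf_det Q _ (hu i)), List.length_ofFn]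

lemma nr_map {G : Type} [Field G] (φ : F →+* G) (Q : Matrix κ κ F) (u : κ → F) :
    nr (Q.map φ) (fun x => φ (u x)) = φ (nr Q u) := by
  simp [nr, dotProduct, Matrix.mulVec, map_sum, map_mul]

lemma rf_map {G : Type} [Field G] (φ : F →+* G) (Q : Matrix κ κ F) (u : κ → F) :
    rf (Q.map φ) (fun x => φ (u x)) = (rf Q u).map φ := by
  ext i j
  simp only [rf, Matrix.sub_apply, Matrix.smul_apply, Matrix.vecMulVec_apply, Matrix.map_apply,
    nr_map, smul_eq_mul, map_sub, map_mul, map_div₀, map_ofNat]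
  have h1 : ((1 : Matrix κ κ G) i j) = φ ((1 : Matrix κ κ F) i j) := by
    by_cases h : i = j
    · subst h; simp
    · simp [Matrix.one_apply_ne h]
  rw [h1]
  simp [Matrix.mulVec, dotProduct, map_sum, map_mul]

lemma gp_map {G : Type} [Field G] (φ : F →+* G) (Q : Matrix κ κ F) {N : ℕ}
    (u : Fin N → κ → F) :
    gp (Q.map φ) (fun i x => φ (u i x)) = (gp Q u).map φ := by
  unfold gp
  have : (List.ofFn fun i => rf Q (u i)).prod.map φ =
      (φ.mapMatrix (List.ofFn fun i => rf Q (u i)).prod) := rfl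
  rw [this, map_list_prod, List.map_ofFn]
  congr 1
  congr 1
  funext i
  exact rf_map φ Q (u i)

end field

/-! ## Rational functions -/

section rat

variable {K : Type} [Field K] [Algebra K ℂ] {σ : Type}

/-- Rational functions with denominator a power of `D`. -/
def Rt (D : MvPolynomial σ K) (f : (σ → ℂ) → ℂ) : Prop :=
  ∃ (N : ℕ) (p : MvPolynomial σ K), ∀ u : σ → ℂ, aeval u D ≠ 0 →
    (aeval u D) ^ N * f u = aeval u p

variable {D : MvPolynomial σ K}

lemma Rt.poly (p : MvPolynomial σ K) : Rt D (fun u => aeval u p) :=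
  ⟨0, p, fun u _ => by simp⟩

lemma Rt.const (c : K) : Rt D (fun _ => algebraMap K ℂ c) :=
  ⟨0, C c, fun u _ => by simp⟩

lemma Rt.add {f g : (σ → ℂ) → ℂ} (hf : Rt D f) (hg : Rt D g) : Rt D (fun u => f u + g u) := by
  obtain ⟨N, p, hp⟩ := hf
  obtain ⟨M, q, hq⟩ := hg
  refine ⟨N + M, D ^ M * p + D ^ N * q, fun u hu => ?_⟩
  rw [map_add, map_mul, map_mul, map_pow, map_pow, ← hp u hu, ← hq u hu]
  ring

lemma Rt.mul {f g : (σ → ℂ) → ℂ} (hf : Rt D f) (hg : Rt D g) : Rt D (fun u => f u * g u) := by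
  obtain ⟨N, p, hp⟩ := hf
  obtain ⟨M, q, hq⟩ := hg
  refine ⟨N + M, p * q, fun u hu => ?_⟩
  rw [map_mul, ← hp u hu, ← hq u hu]
  ring

lemma Rt.sum {τ : Type} (s : Finset τ) {f : τ → (σ → ℂ) → ℂ} (hf : ∀ t ∈ s, Rt D (f t)) :
    Rt D (fun u => ∑ t ∈ s, f t u) := by
  classical
  induction s using Finset.induction_on with
  | empty => simpa using Rt.const (D := D) (0 : K)
  | insert a s ha ih =>
    have h1 := Rt.add (hf a (by simp)) (ih (fun t ht => hf t (by simp [ht])))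
    simpa [Finset.sum_insert ha] using h1

lemma Rt.pow {f : (σ → ℂ) → ℂ} (hf : Rt D f) (n : ℕ) : Rt D (fun u => f u ^ n) := by
  induction n with
  | zero => simpa using Rt.const (D := D) (1 : K)
  | succ n ih => simpa [pow_succ] using Rt.mul ih hf

lemma Rt.neg {f : (σ → ℂ) → ℂ} (hf : Rt D f) : Rt D (fun u => - f u) := by
  obtain ⟨N, p, hp⟩ := hf
  refine ⟨N, -p, fun u hu => ?_⟩
  rw [map_neg, ← hp u hu]
  ring

lemma Rt.inv {p : MvPolynomial σ K} (hp : p ∣ D) : Rt D (fun u => (aeval u p)⁻¹) := by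
  obtain ⟨q, hq⟩ := hp
  refine ⟨1, q, fun u hu => ?_⟩
  have h1 : aeval u D = aeval u p * aeval u q := by rw [hq, map_mul]
  have h2 : aeval u p ≠ 0 := by
    intro h
    exact hu (by rw [h1, h, zero_mul])
  rw [pow_one, h1]
  field_simp

lemma Rt.comp {τ : Type} {f : τ → (σ → ℂ) → ℂ} (hf : ∀ t, Rt D (f t))
    (P : MvPolynomial τ K) : Rt D (fun u => aeval (fun t => f t u) P) := by
  induction P using MvPolynomial.induction_on with
  | C a => simpa using Rt.const (D := D) a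
  | add p q hp hq => simpa using Rt.add hp hq
  | mul_X p t hp => simpa using Rt.mul hp (hf t)

/-- Matrices of rational functions. -/
def RM {κ : Type} (D : MvPolynomial σ K) (f : (σ → ℂ) → Matrix κ κ ℂ) : Prop :=
  ∀ i j, Rt D (fun u => f u i j)

lemma RM.const {κ : Type} (M : Matrix κ κ K) : RM D (fun _ => M.map (algebraMap K ℂ)) :=
  fun i j => by simpa using Rt.const (D := D) (M i j)

lemma RM.one {κ : Type} [DecidableEq κ] : RM D (fun _ => (1 : Matrix κ κ ℂ)) := by
  intro i j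
  by_cases h : i = j
  · subst h; simpa using Rt.const (D := D) (1 : K)
  · simpa [Matrix.one_apply_ne h] using Rt.const (D := D) (0 : K)

lemma RM.mul {κ : Type} [Fintype κ] {f g : (σ → ℂ) → Matrix κ κ ℂ} (hf : RM D f)
    (hg : RM D g) : RM D (fun u => f u * g u) := by
  intro i j
  simpa [Matrix.mul_apply] using
    Rt.sum (D := D) Finset.univ (fun l _ => Rt.mul (hf i l) (hg l j))

lemma RM.smul {κ : Type} {f : (σ → ℂ) → ℂ} {g : (σ → ℂ) → Matrix κ κ ℂ} (hf : Rt D f)
    (hg : RM D g) : RM D (fun u => f u • g u) := by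
  intro i j
  simpa [Matrix.smul_apply] using Rt.mul hf (hg i j)

lemma RM.list {κ : Type} [Fintype κ] [DecidableEq κ]
    (L : List ((σ → ℂ) → Matrix κ κ ℂ)) (hL : ∀ f ∈ L, RM D f) :
    RM D (fun u => (L.map (fun f => f u)).prod) := by
  induction L with
  | nil => simpa using RM.one (D := D) (κ := κ)
  | cons f L ih =>
    have h := RM.mul (hL f (by simp)) (ih (fun g hg => hL g (by simp [hg])))
    simpa using h

end rat

/-! ## The parametrisation -/

section par

variable {K : Type} [Field K] [Algebra K ℂ] {σ : Type} {r : ℕ} {ι : Fin r → Type}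
  [∀ k, Fintype (ι k)] [∀ k, DecidableEq (ι k)]

/-- The parameters. -/
abbrev PV (ι : Fin r → Type) [∀ k, Fintype (ι k)] : Type :=
  Σ k, Fin (2 * Fintype.card (ι k)) × ι k

/-- The norm polynomials. -/
def nrP (Q : ∀ k, Matrix (ι k) (ι k) K) (e : PV ι → σ) (k : Fin r)
    (i : Fin (2 * Fintype.card (ι k))) : MvPolynomial σ K :=
  ∑ x, X (e ⟨k, i, x⟩) * ∑ y, C (Q k x y) * X (e ⟨k, i, y⟩)

/-- The product of the norm polynomials. -/
def DP (Q : ∀ k, Matrix (ι k) (ι k) K) (e : PV ι → σ) : MvPolynomial σ K :=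
  ∏ k, ∏ i, nrP Q e k i

lemma aeval_nrP (Q : ∀ k, Matrix (ι k) (ι k) K) (e : PV ι → σ) (k : Fin r)
    (i : Fin (2 * Fintype.card (ι k))) (u : σ → ℂ) :
    aeval u (nrP Q e k i) = nr ((Q k).map (algebraMap K ℂ)) (fun x => u (e ⟨k, i, x⟩)) := by
  simp [nrP, nr, dotProduct, Matrix.mulVec, map_sum]

lemma nrP_dvd (Q : ∀ k, Matrix (ι k) (ι k) K) (e : PV ι → σ) (k : Fin r)
    (i : Fin (2 * Fintype.card (ι k))) : nrP Q e k i ∣ DP Q e :=
  (Finset.dvd_prod_of_mem (fun i => nrP Q e k i) (Finset.mem_univ i)).trans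
    (Finset.dvd_prod_of_mem (fun k => ∏ i, nrP Q e k i) (Finset.mem_univ k))

lemma aeval_DP_ne (Q : ∀ k, Matrix (ι k) (ι k) K) (e : PV ι → σ) (u : σ → ℂ) :
    aeval u (DP Q e) ≠ 0 ↔
      ∀ k i, nr ((Q k).map (algebraMap K ℂ)) (fun x => u (e ⟨k, i, x⟩)) ≠ 0 := by
  unfold DP
  rw [map_prod, Finset.prod_ne_zero_iff]
  constructor
  · intro h k i
    have h1 := h k (Finset.mem_univ k)
    rw [map_prod, Finset.prod_ne_zero_iff] at h1
    rw [← aeval_nrP]
    exact h1 i (Finset.mem_univ i)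
  · intro h k _
    rw [map_prod, Finset.prod_ne_zero_iff]
    intro i _
    rw [aeval_nrP]
    exact h k i

lemma RM_rf (Q : ∀ k, Matrix (ι k) (ι k) K) (e : PV ι → σ) (k : Fin r)
    (i : Fin (2 * Fintype.card (ι k))) :
    RM (DP Q e) (fun u => rf ((Q k).map (algebraMap K ℂ)) (fun x => u (e ⟨k, i, x⟩))) := by
  intro x y
  have h1 : Rt (DP Q e) (fun u =>
      (nr ((Q k).map (algebraMap K ℂ)) (fun x => u (e ⟨k, i, x⟩)))⁻¹) := by
    have := Rt.inv (nrP_dvd Q e k i)
    simpa only [aeval_nrP] using this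
  have h2 : Rt (DP Q e) (fun u => u (e ⟨k, i, x⟩)) := by
    simpa using Rt.poly (D := DP Q e) (X (e ⟨k, i, x⟩))
  have h3 : Rt (DP Q e) (fun u => ((Q k).map (algebraMap K ℂ)).mulVec
      (fun x => u (e ⟨k, i, x⟩)) y) := by
    have := Rt.poly (D := DP Q e) (∑ z, C (Q k y z) * X (e ⟨k, i, z⟩))
    simpa [Matrix.mulVec, dotProduct, map_sum] using this
  have h4 : Rt (DP Q e) (fun _ => (-2 : ℂ)) := by
    have h40 := Rt.const (D := DP Q e) (-2 : K)
    have h41 : algebraMap K ℂ (-2) = -2 := by rw [map_neg, map_ofNat]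
    rwa [h41] at h40
  have h5 := Rt.add (RM.one (D := DP Q e) (κ := ι k) x y)
    (Rt.mul (Rt.mul h4 h1) (Rt.mul h2 h3))
  have h6 : (fun u : σ → ℂ => (rf ((Q k).map (algebraMap K ℂ)) (fun x => u (e ⟨k, i, x⟩))) x y) =
      fun u => (1 : Matrix (ι k) (ι k) ℂ) x y +
        -2 * (nr ((Q k).map (algebraMap K ℂ)) (fun x => u (e ⟨k, i, x⟩)))⁻¹ *
        (u (e ⟨k, i, x⟩) * ((Q k).map (algebraMap K ℂ)).mulVec
          (fun x => u (e ⟨k, i, x⟩)) y) := by
    funext u
    simp only [rf, Matrix.sub_apply, Matrix.smul_apply, Matrix.vecMulVec_apply, smul_eq_mul]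
    ring
  rw [h6]
  exact h5

lemma RM_gp (Q : ∀ k, Matrix (ι k) (ι k) K) (e : PV ι → σ) (k : Fin r) :
    RM (DP Q e) (fun u => gp ((Q k).map (algebraMap K ℂ)) (fun i x => u (e ⟨k, i, x⟩))) := by
  have h := RM.list (D := DP Q e) (List.ofFn fun i => fun (u : σ → ℂ) =>
    rf ((Q k).map (algebraMap K ℂ)) (fun x => u (e ⟨k, i, x⟩))) (by
      intro f hf
      rw [List.mem_ofFn] at hf
      obtain ⟨i, rfl⟩ := hf
      exact RM_rf Q e k i)
  simpa [gp, List.map_ofFn, Function.comp_def] using h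

end par

/-- PAR in the notation of this file. -/
lemma par' (hP : Stmt_Par) {r : ℕ} {ι : Fin r → Type} [∀ k, Fintype (ι k)]
    [∀ k, DecidableEq (ι k)] [∀ k, Nonempty (ι k)] (Q : ∀ k, Matrix (ι k) (ι k) ℂ)
    (hQ : ∀ k, (Q k).transpose = Q k ∧ (Q k).det ≠ 0) (g : ∀ k, Matrix (ι k) (ι k) ℂ)
    (hg : ∀ k, Iso (Q k) (g k) ∧ (g k).det = 1) :
    ∃ u : PV ι → ℂ, (∀ k i, nr (Q k) (fun x => u ⟨k, i, x⟩) ≠ 0) ∧
      ∀ k, g k = gp (Q k) (fun i x => u ⟨k, i, x⟩) := by
  choose u hu1 hu2 using fun k => hP (ι k) (Q k) (hQ k).1 (hQ k).2 (g k) (hg k).1 (hg k).2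
  refine ⟨fun p => u p.1 p.2.1 p.2.2, fun k i => hu1 k i, fun k => ?_⟩
  rw [hu2 k]
  rfl

lemma gp_ok {κ : Type} [Fintype κ] [DecidableEq κ] (Q : Matrix κ κ ℂ) (hQ : Q.transpose = Q)
    {N : ℕ} (u : Fin (2 * N) → κ → ℂ) (hu : ∀ i, nr Q (u i) ≠ 0) :
    Iso Q (gp Q u) ∧ (gp Q u).det = 1 :=
  ⟨gp_iso Q hQ u hu, by rw [gp_det Q u hu, pow_mul]; simp⟩

end

end Pool.Agent.EVD.RPX_
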