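import Mathlib

set_option autoImplicit false

/-!
# EVD: periods of the affine hypersurfaces `f_1(x_1) + ... + f_n(x_n) + t = 0`, definitions
-/

open scoped BigOperators
open MeasureTheory

namespace Pool.Agent.EVD

noncomputable section

/-- The index set of the monomials `x ^ I`, `0 ≤ I j ≤ deg f_j - 2`, and of the cycles. -/
abbrev Ix {n : ℕ} (f : Fin n → Polynomial ℚ) : Type := ∀ j : Fin n, Fin ((f j).natDegree - 1)

/-- `exp (2 π i / p)`. -/
def zt (p : ℕ) : ℂ := Complex.exp (2 * Real.pi * Complex.I / p)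

/-- The integrand `x ^ I dx / (f_1(x_1) + ... + f_n(x_n) + t) ^ n` on the chain
`Γ_a = ∏ j, (R_(a j + 1) - R_(a j))`, where `R_l` is the half line `zt (p j) ^ l * (0, ∞)` in the
plane of the variable `x_j`, pulled back to `(0, ∞) ^ n`. -/
def integrand {n : ℕ} (f : Fin n → Polynomial ℚ) (t : ℂ) (I a : Ix f) (x : Fin n → ℝ) : ℂ :=
  ∑ ε : Fin n → Fin 2, (∏ j, (-1 : ℂ) ^ (1 + (ε j : ℕ)) *
      zt (f j).natDegree ^ (((a j : ℕ) + (ε j : ℕ)) * ((I j : ℕ) + 1)) * (x j : ℂ) ^ (I j : ℕ)) /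
    (∑ j, Polynomial.aeval (zt (f j).natDegree ^ ((a j : ℕ) + (ε j : ℕ)) * (x j : ℂ)) (f j) + t) ^ n

/-- The period matrix: the rows are the forms `x ^ I dx / (f_1(x_1) + ... + f_n(x_n) + t) ^ n`, the
columns the chains `Γ_a`. -/
def per {n : ℕ} (f : Fin n → Polynomial ℚ) (t : ℂ) : Matrix (Ix f) (Ix f) ℂ :=
  Matrix.of fun I a => ∫ x in {x : Fin n → ℝ | ∀ j, 0 < x j}, integrand f t I a x

/-- The intersection matrix of the cycles. -/
def inter {n : ℕ} (f : Fin n → Polynomial ℚ) : Matrix (Ix f) (Ix f) ℚ :=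
  Matrix.of fun a a' => -(∑ m ∈ Finset.range (∏ j, (f j).natDegree), (m : ℚ) *
    ∏ j, ((if ((f j).natDegree : ℤ) ∣ (a j : ℤ) - (a' j : ℤ) + m + 1 then (1 : ℚ) else 0) -
      (if ((f j).natDegree : ℤ) ∣ (a j : ℤ) - (a' j : ℤ) + m then (1 : ℚ) else 0))) /
    ((∏ j, (f j).natDegree : ℕ) : ℚ)

/-- The critical values of `f_1(x_1) + ... + f_n(x_n)`. -/
def crit {n : ℕ} (f : Fin n → Polynomial ℚ) : Set ℂ :=
  {v | ∃ z : Fin n → ℂ, (∀ j, Polynomial.aeval (z j) (Polynomial.derivative (f j)) = 0) ∧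
    v = ∑ j, Polynomial.aeval (z j) (f j)}

/-- The conditions on the polynomials. -/
structure Adm {n : ℕ} (f : Fin n → Polynomial ℚ) : Prop where
  mon : ∀ j, (f j).Monic
  two : ∀ j, 2 ≤ (f j).natDegree
  sub : ∀ j, (f j).coeff ((f j).natDegree - 1) = 0
  cop : ∀ j l, j ≠ l → Nat.Coprime (f j).natDegree (f l).natDegree
  sum : ∑ j, 1 / ((f j).natDegree : ℚ) < 1
  ray : ∀ (j : Fin n) (l : ℕ) (x : ℝ), 0 ≤ x →
    0 < (Polynomial.aeval (zt (f j).natDegree ^ l * (x : ℂ)) (f j)).re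
  zer : (0 : ℂ) ∉ crit f
  car : (crit f).ncard = ∏ j, ((f j).natDegree - 1)

/-- `g` is a similitude of the symmetric form `Q` with multiplier `mu ^ w`, and with determinant
`mu ^ (w m / 2)`, where `m` is the rank and `w` is even. -/
def OSim {ι : Type} [Fintype ι] [DecidableEq ι] (w : ℕ) (Q : Matrix ι ι ℚ) (mu : ℂ)
    (g : Matrix ι ι ℂ) : Prop :=
  g.transpose * Q.map (fun x : ℚ => (x : ℂ)) * g = mu ^ w • Q.map (fun x : ℚ => (x : ℂ)) ∧
    g.det = mu ^ (w / 2 * Fintype.card ι)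

/-- The point `(lam, M_1, ..., M_r)`. -/
def pt {I : Type} {ι : I → Type} (lam : ℂ) (M : ∀ k, Matrix (ι k) (ι k) ℂ) :
    Option (Σ k, ι k × ι k) → ℂ := fun o => o.elim lam (fun p => M p.1 p.2.1 p.2.2)

end

end Pool.Agent.EVD
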