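import Pool.Agent.EVD.Defs
import Pool.Agent.DG2.AStmts
import Pool.Agent.GPH.IIStmts

set_option autoImplicit false

/-!
# EVD: exact statements of the modules
-/

open scoped BigOperators Topology
open Metric Set MeasureTheory

namespace Pool.Agent.EVD

open Pool.Agent.DGP (IsZ GSys hd Conv tens)

noncomputable section

/-! ## A. One variable -/

/-- DIV: the division identities. -/
def Stmt_Div : Prop := ∀ f : Polynomial ℚ, f.Monic → 2 ≤ f.natDegree →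
  ∀ i : Fin (f.natDegree - 1), ∃ q : Polynomial ℚ, q.natDegree ≤ (i : ℕ) + 1 ∧
  Polynomial.X ^ (i : ℕ) * f = q * Polynomial.derivative f +
    ∑ j : Fin (f.natDegree - 1), Polynomial.C (A1 f i j) * Polynomial.X ^ (j : ℕ) ∧
  Polynomial.derivative q =
    ∑ j : Fin (f.natDegree - 1), Polynomial.C (B1 f i j) * Polynomial.X ^ (j : ℕ)

/-- BTR: `B1` is lower triangular. -/
def Stmt_Btr : Prop := ∀ f : Polynomial ℚ, f.Monic → 2 ≤ f.natDegree →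
  (∀ i j, i < j → B1 f i j = 0) ∧
  ∀ i, B1 f i i = ((i : ℕ) + 1 : ℚ) / f.natDegree

/-- UON: the inverse residue matrix. -/
def Stmt_Uon : Prop := ∀ f : Polynomial ℚ, f.Monic → 2 ≤ f.natDegree →
  (U1 f).transpose = U1 f ∧ (U1 f).det ≠ 0 ∧ U1 f * A1 f = (A1 f).transpose * U1 f ∧
  U1 f * B1 f + (B1 f).transpose * U1 f = U1 f

/-- EVO: eigenvectors of `A1`. -/
def Stmt_Evo : Prop := ∀ f : Polynomial ℚ, f.Monic → 2 ≤ f.natDegree → ∀ z : ℂ,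
  Polynomial.aeval z (Polynomial.derivative f) = 0 → ∀ i : Fin (f.natDegree - 1),
  ∑ j : Fin (f.natDegree - 1), (A1 f i j : ℂ) * z ^ (j : ℕ) =
    Polynomial.aeval z f * z ^ (i : ℕ)

/-- REC: the recursion of the coefficients `E1`. -/
def Stmt_Rec : Prop := ∀ f : Polynomial ℚ, G1 f →
  (∀ i i' : Fin (f.natDegree - 1), (B1 f * E1 f 0) i i' =
    E1 f 0 i i' * (((i' : ℕ) + 1 : ℚ) / f.natDegree)) ∧
  ∀ (m : ℕ) (i i' : Fin (f.natDegree - 1)),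
    ((m : ℚ) + 1) * E1 f (m + 1) i i' + (B1 f * E1 f (m + 1)) i i' -
      E1 f (m + 1) i i' * (((i' : ℕ) + 1 : ℚ) / f.natDegree) = -((A1 f * E1 f m) i i')

/-- EZE: the coefficient `E1 0` is unipotent. -/
def Stmt_Eze : Prop := ∀ f : Polynomial ℚ, G1 f → (∀ i j, i < j → E1 f 0 i j = 0) ∧
  ∀ i, E1 f 0 i i = 1

/-- ARP: rising factorials of rational numbers. -/
def Stmt_Arp : Prop := ∀ (a : ℤ) (p r : ℕ), 1 ≤ p →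
  IsZ ((p : ℚ) ^ (2 * r) * poch ((a : ℚ) / p) r / (r.factorial : ℚ))

/-- DEN: denominators in one variable. -/
def Stmt_Den : Prop := ∀ f : Polynomial ℚ, G1 f → ∃ C : ℕ, 1 ≤ C ∧
  ∀ (m : ℕ) (i j : Fin (f.natDegree - 1)),
    IsZ ((((Finset.Icc 1 (C * (m + 1))).lcm id : ℕ) : ℚ) * (C : ℚ) ^ (m + 1) *
      (m.factorial : ℚ) * E1 f m i j)

/-! ## B. Several variables -/

/-- KSP: Kronecker sums and products. -/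
def Stmt_Ksp : Prop := ∀ (n : ℕ) (α : Fin n → Type) [∀ j, Fintype (α j)]
  [∀ j, DecidableEq (α j)] (R : Type) [CommRing R] (A X Y : ∀ j, Matrix (α j) (α j) R)
  (d : ∀ j, α j → R),
  ksum A * kprod X = ∑ j, kprod (Function.update X j (A j * X j)) ∧
  kprod X * ksum A = ∑ j, kprod (Function.update X j (X j * A j)) ∧
  (kprod X).transpose = kprod (fun j => (X j).transpose) ∧
  (ksum A).transpose = ksum (fun j => (A j).transpose) ∧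
  kprod X * kprod Y = kprod (fun j => X j * Y j) ∧
  kprod (fun j => (1 : Matrix (α j) (α j) R)) = 1 ∧
  ksum (fun j => Matrix.diagonal (d j)) = Matrix.diagonal (fun x => ∑ j, d j (x j))

/-- FST: the formal solution in several variables. -/
def Stmt_Fst : Prop := ∀ (n : ℕ) (f : Fin n → Polynomial ℚ), (∀ j, G1 (f j)) →
  Fsol (AT f) (BT f) (bI f) (ET f)

/-- OKA: the algebraic relations. -/
def Stmt_Oka : Prop := ∀ (n : ℕ) (f : Fin n → Polynomial ℚ), (∀ j, G1 (f j)) →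
  (∀ j l, j ≠ l → Nat.Coprime (f j).natDegree (f l).natDegree) →
  (UT f).transpose = UT f ∧ (UT f).det ≠ 0 ∧ UT f * AT f = (AT f).transpose * UT f ∧
  UT f * BT f + (BT f).transpose * UT f = (n : ℚ) • UT f ∧
  (∀ x, BT f x x = bI f x) ∧ (∀ x y, x ≠ y → BT f x y ≠ 0 → bI f y < bI f x) ∧
  (∀ x y, AT f x y ≠ 0 → bI f y < bI f x + 1) ∧
  (∀ x y, x ≠ y → ∀ z : ℤ, bI f x - bI f y ≠ z) ∧
  (0 < n → ∀ x, ∀ z : ℤ, bI f x ≠ z)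

/-- OKB: eigenvalues and commutant. -/
def Stmt_Okb : Prop := ∀ (n : ℕ) (f : Fin n → Polynomial ℚ), (∀ j, G1 (f j)) →
  (∀ j l, j ≠ l → Nat.Coprime (f j).natDegree (f l).natDegree) →
  (crit f).ncard = ∏ j, ((f j).natDegree - 1) →
  (∃ (ev : Ix f → ℂ) (P : Matrix (Ix f) (Ix f) ℂ), Function.Injective ev ∧ P.det ≠ 0 ∧
    cm (AT f) * P = P * Matrix.diagonal ev ∧ Set.range ev = crit f) ∧
  ∀ Z : Matrix (Ix f) (Ix f) ℂ, Z * cm (AT f) = cm (AT f) * Z →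
    Z * cm (BT f) = cm (BT f) * Z → ∃ c : ℂ, Z = c • 1

/-- OKT: the system attached to `f`. -/
def Stmt_Okt : Prop := ∀ (k : ℕ) (f : Fin (2 * k + 1) → Polynomial ℚ), 1 ≤ k → Adm f →
  (∃ i₀, Oku (k + 1) (AT f) (BT f) (UT f) (bI f) i₀) ∧
  ∀ z : ℂ, (z • (1 : Matrix (Ix f) (Ix f) ℂ) + cm (AT f)).det ≠ 0 ↔ -z ∉ crit f

/-! ## C. The system is of type G -/

/-- ZDN: denominators of the solution at infinity. -/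
def Stmt_Zdn : Prop := ∀ (ι : Type) [Fintype ι] [DecidableEq ι] (κ : ℕ) (A B : Matrix ι ι ℚ)
  (b : ι → ℚ) (Em : ℕ → Matrix ι ι ℚ), Fsol A B b Em → ∃ C c : ℕ, 1 ≤ C ∧
  ∀ (m : ℕ) (i j : ι), IsZ ((((Finset.Icc 1 (C * (m + 1))).lcm id : ℕ) : ℚ) ^ c *
    (C : ℚ) ^ (m + 1) * Zo κ b Em m i j)

/-- ZRC: the recursion of the solution at infinity. -/
def Stmt_Zrc : Prop := ∀ (ι : Type) [Fintype ι] [DecidableEq ι] (κ : ℕ) (A B : Matrix ι ι ℚ)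
  (b : ι → ℚ) (Em : ℕ → Matrix ι ι ℚ), Fsol A B b Em →
  Eo κ B * Zo κ b Em 0 = -(Zo κ b Em 0 * Matrix.diagonal fun i => (κ : ℚ) - b i) ∧
  ∀ m : ℕ, Eo κ B * Zo κ b Em (m + 1) =
    -(Zo κ b Em (m + 1) * Matrix.diagonal fun i => ((m : ℚ) + 1) + ((κ : ℚ) - b i)) -
    A * Zo κ b Em m * Matrix.diagonal fun i => (m : ℚ) + ((κ : ℚ) - b i)

/-- INV: the inverse of the solution at infinity is given by the symmetric form. -/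
def Stmt_Inv : Prop := ∀ (ι : Type) [Fintype ι] [DecidableEq ι] (κ : ℕ) (A B U : Matrix ι ι ℚ)
  (b : ι → ℚ) (i₀ : ι) (Em : ℕ → Matrix ι ι ℚ), Oku κ A B U b i₀ → Fsol A B b Em →
  ∀ m : ℕ, ∑ p ∈ Finset.HasAntidiagonal.antidiagonal m, (Zo κ b Em p.1).transpose * U * Zo κ b Em p.2 +
    (if m = 0 then 0 else ∑ p ∈ Finset.HasAntidiagonal.antidiagonal (m - 1),
      (Zo κ b Em p.1).transpose * (U * A) * Zo κ b Em p.2) =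
    if m = 0 then (Em 0).transpose * U * Em 0 else 0

/-- BKH: the matrices `Bh` and the solution at infinity. -/
def Stmt_Bkh : Prop := ∀ (ι : Type) [Fintype ι] [DecidableEq ι] (κ : ℕ) (A B : Matrix ι ι ℚ)
  (b : ι → ℚ) (Em : ℕ → Matrix ι ι ℚ), Fsol A B b Em → ∀ (k : ℕ) (i j : ι),
  ∑ l, (Bh A (Eo κ B) k i l : PowerSeries ℚ) * PowerSeries.mk (fun m => Zo κ b Em m l j) =
    (((1 : Matrix ι ι (Polynomial ℚ)) + (Polynomial.X : Polynomial ℚ) •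
      A.map Polynomial.C).det : PowerSeries ℚ) ^ k *
    PowerSeries.mk (fun m => Zo κ b Em m i j *
      ((∏ l ∈ Finset.range k, (-(m : ℚ) - ((κ : ℚ) - b j) - l)) / (k.factorial : ℚ)))

/-- REV: the matrices `Bt` and `Bh`. -/
def Stmt_Rev : Prop := ∀ (ι : Type) [Fintype ι] [DecidableEq ι] [Nonempty ι]
  (A E : Matrix ι ι ℚ) (k : ℕ) (i j : ι) (l : ℕ), (Bt A E k i j).coeff l =
    if l ≤ (Fintype.card ι - 1) * k then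
      (Bh A E k i j).coeff ((Fintype.card ι - 1) * k - l) else 0

/-- GTP: the system is of type `G`. -/
def Stmt_Gtp : Prop := ∀ (ι : Type) [Fintype ι] [DecidableEq ι] (κ : ℕ) (A B U : Matrix ι ι ℚ)
  (b : ι → ℚ) (i₀ : ι) (Em : ℕ → Matrix ι ι ℚ), Oku κ A B U b i₀ → Fsol A B b Em →
  GTyp A (Eo κ B)

/-- BSO: degrees and sizes of the matrices `Bt`. -/
def Stmt_Bso : Prop := ∀ (ι : Type) [Fintype ι] [DecidableEq ι] (A E : Matrix ι ι ℚ),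
  ∃ C : ℕ, ∀ (k : ℕ) (i j : ι),
  (Bt A E k i j).natDegree ≤ Fintype.card ι * k ∧ ∀ l, |(Bt A E k i j).coeff l| ≤ (C : ℚ) ^ k

/-- HDO: the derivatives of the fundamental matrix. -/
def Stmt_Hdo : Prop := ∀ (ι : Type) [Fintype ι] [DecidableEq ι] (A E : Matrix ι ι ℚ),
  A.det ≠ 0 → ∀ (k : ℕ) (i j : ι),
  (Tp A : PowerSeries ℚ) ^ k * hd k (Ys A E (i, j)) =
    ∑ l, (Bt A E k i l : PowerSeries ℚ) * Ys A E (l, j)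

/-- TFO: facts on the polynomial `T`. -/
def Stmt_Tfo : Prop := ∀ (ι : Type) [Fintype ι] [DecidableEq ι] (A : Matrix ι ι ℚ),
  (Tp A).Monic ∧ (Tp A).natDegree = Fintype.card ι ∧
  (∀ s : ℚ, (Tp A).eval s = (s • (1 : Matrix ι ι ℚ) + A).det) ∧
  1 ≤ kap A ∧ ∀ l, IsZ ((kap A : ℚ) * (Tp A).coeff l)

/-- BAO: the base system. -/
def Stmt_Bao : Prop := ∀ (ι : Type) [Fintype ι] [DecidableEq ι] (A E : Matrix ι ι ℚ),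
  A.det ≠ 0 → GTyp A E → ∃ C : ℕ, ∀ d : ℕ, 1 ≤ d → ∃ (e₀ : ℕ) (c₀ : ℝ),
  GSys (fun p : ι × ι => PowerSeries.rescale (d : ℚ) (Ys A E p))
    (Td A d) (Fintype.card ι) e₀ c₀ (C * d ^ (Fintype.card ι + 1))

/-- FUO: the full system. -/
def Stmt_Fuo : Prop := ∀ (K : ℕ) (ι : Fin K → Type) [∀ k, Fintype (ι k)]
  [∀ k, DecidableEq (ι k)] (A E : ∀ k, Matrix (ι k) (ι k) ℚ),
  (∀ k, (A k).det ≠ 0) → (∀ k, GTyp (A k) (E k)) → ∀ E0 : ℕ, ∃ C e τ : ℕ,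
  ∀ (d : Fin K → ℕ) (b : ℕ), 1 ≤ b → (∀ k, 1 ≤ d k ∧ d k ≤ b) → ∃ (e₀ : ℕ) (c₀ : ℝ),
  GSys (tens (fullO A E d) E0) (∏ k, Td (A k) (d k)) τ e₀ c₀ (C * b ^ e)

/-- SRO: the power series at `0`, as holomorphic functions. -/
def Stmt_Sro : Prop := ∀ (ι : Type) [Fintype ι] [DecidableEq ι] (A E : Matrix ι ι ℚ),
  A.det ≠ 0 → ∃ (ρ : ℝ) (Y Y' : ℂ → Matrix ι ι ℂ), 0 < ρ ∧ Y 0 = 1 ∧
  (∀ z ∈ ball (0 : ℂ) ρ, (z • (1 : Matrix ι ι ℂ) + cm A).det ≠ 0 ∧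
    (∀ i j, HasDerivAt (fun z => Y z i j) (Y' z i j) z) ∧
    (z • (1 : Matrix ι ι ℂ) + cm A) * Y' z = cm E * Y z) ∧
  (∀ w : ℝ, |w| < ρ → (∀ p, Conv (Ys A E p) w) ∧ Y (w : ℂ) = Yv A E w) ∧
  ∀ (R : ℝ), 0 < R → ∀ M M' : ℂ → Matrix ι ι ℂ,
    (∀ z ∈ ball (0 : ℂ) R, (∀ i j, HasDerivAt (fun z => M z i j) (M' z i j) z) ∧
      (z • (1 : Matrix ι ι ℂ) + cm A) * M' z = cm E * M z) →
    ∀ z ∈ ball (0 : ℂ) (min ρ R), M z = Y z * M 0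

/-! ## D. Groups -/

/-- ORT: orthonormal bases. -/
def Stmt_Ort : Prop := ∀ (ι : Type) [Fintype ι] [DecidableEq ι] (Q : Matrix ι ι ℂ),
  Q.transpose = Q → Q.det ≠ 0 → ∃ M : Matrix ι ι ℂ, M.det ≠ 0 ∧ M.transpose * Q * M = 1

/-- PAR: isometries of determinant `1` are products of `2 m` reflections. -/
def Stmt_Par : Prop := ∀ (ι : Type) [Fintype ι] [DecidableEq ι] [Nonempty ι]
  (Q : Matrix ι ι ℂ), Q.transpose = Q → Q.det ≠ 0 → ∀ a : Matrix ι ι ℂ, Iso Q a → a.det = 1 →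
  ∃ u : Fin (2 * Fintype.card ι) → ι → ℂ, (∀ i, dotProduct (u i) (Q.mulVec (u i)) ≠ 0) ∧
    a = (List.ofFn fun i => refl Q (u i)).prod

/-- LIA: the Lie algebra is a complex subspace. -/
def Stmt_Lia : Prop := ∀ (ι : Type) [Fintype ι] [DecidableEq ι] (Q : Matrix ι ι ℂ)
  (H : Set (Matrix ι ι ℂ)), ClG Q H → ∀ X ∈ Lie H, ∀ Y ∈ Lie H, ∀ c : ℂ, X + c • Y ∈ Lie H

/-- LIB: an infinite closed subgroup has a Lie algebra different from `0`. -/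
def Stmt_Lib : Prop := ∀ (ι : Type) [Fintype ι] [DecidableEq ι] (Q : Matrix ι ι ℂ)
  (H : Set (Matrix ι ι ℂ)), Q.det ≠ 0 → ClG Q H → ¬ H.Finite → ∃ X ∈ Lie H, X ≠ 0

/-- LIC: antisymmetry, conjugation and brackets. -/
def Stmt_Lic : Prop := ∀ (ι : Type) [Fintype ι] [DecidableEq ι] (Q : Matrix ι ι ℂ)
  (H : Set (Matrix ι ι ℂ)), ClG Q H →
  (∀ X ∈ Lie H, X.transpose * Q + Q * X = 0) ∧
  (∀ a b : Matrix ι ι ℂ, a * b = 1 → b * a = 1 → (∀ h ∈ H, a * h * b ∈ H) →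
    ∀ X ∈ Lie H, a * X * b ∈ Lie H) ∧
  ∀ X ∈ Lie H, ∀ Y ∈ Lie H, X * Y - Y * X ∈ Lie H

/-- SGL: Lie algebras stable under an irreducible system of reflections. -/
def Stmt_Sgl : Prop := ∀ (ι : Type) [Fintype ι] [DecidableEq ι] (q : ℕ) (Q : Matrix ι ι ℂ)
  (v : Fin q → ι → ℂ), Rts Q v → ∀ W : Set (Matrix ι ι ℂ),
  (∀ X ∈ W, ∀ Y ∈ W, ∀ c : ℂ, X + c • Y ∈ W) →
  (∀ X ∈ W, X.transpose * Q + Q * X = 0) →
  (∀ j, ∀ X ∈ W, (1 - (2 : ℂ) • pr Q (v j)) * X * (1 - (2 : ℂ) • pr Q (v j)) ∈ W) →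
  (∀ X ∈ W, ∀ Y ∈ W, X * Y - Y * X ∈ W) → (∃ X ∈ W, X ≠ 0) → ∀ u w, wed Q u w ∈ W

/-- GEN: a closed group with full Lie algebra. -/
def Stmt_Gen : Prop := ∀ (ι : Type) [Fintype ι] [DecidableEq ι] (Q : Matrix ι ι ℂ)
  (H : Set (Matrix ι ι ℂ)), 2 ≤ Fintype.card ι → Q.transpose = Q → Q.det ≠ 0 → ClG Q H →
  (∀ u w, wed Q u w ∈ Lie H) → ∀ a, Iso Q a → a.det = 1 → a ∈ H

/-- DNO: infinite closed groups normalised by an irreducible system of reflections. -/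
def Stmt_Dno : Prop := ∀ (ι : Type) [Fintype ι] [DecidableEq ι] (q : ℕ) (Q : Matrix ι ι ℂ)
  (v : Fin q → ι → ℂ), Rts Q v → ∀ H : Set (Matrix ι ι ℂ), ClG Q H → ¬ H.Finite →
  (∀ j, ∀ h ∈ H, (1 - (2 : ℂ) • pr Q (v j)) * h * (1 - (2 : ℂ) • pr Q (v j)) ∈ H) →
  ∀ a, Iso Q a → a.det = 1 → a ∈ H

/-- ZCL: the Zariski closure of a group is a closed group. -/
def Stmt_Zcl : Prop := ∀ (ι : Type) [Fintype ι] [DecidableEq ι] (Q : Matrix ι ι ℂ)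
  (X : Set (Matrix ι ι ℂ)), Q.transpose = Q → Q.det ≠ 0 → (∀ a ∈ X, Iso Q a) → 1 ∈ X →
  (∀ a ∈ X, ∀ b ∈ X, a * b ∈ X) → (∀ a ∈ X, ∃ b ∈ X, a * b = 1 ∧ b * a = 1) →
  ClG Q (zcl Q X) ∧ X ⊆ zcl Q X ∧
  ∀ s : Matrix ι ι ℂ, Iso Q s → s * s = 1 → (∀ h ∈ X, s * h * s ∈ X) →
    ∀ h ∈ zcl Q X, s * h * s ∈ zcl Q X

/-- FNC: a polynomial map with finitely many values on a dense group is constant. -/
def Stmt_Fnc : Prop := ∀ (ι : Type) [Fintype ι] [DecidableEq ι] [Nonempty ι]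
  (Q : Matrix ι ι ℂ) (X : Set (Matrix ι ι ℂ)), Q.transpose = Q → Q.det ≠ 0 →
  (∀ a, Iso Q a → a.det = 1 → a ∈ zcl Q X) →
  ∀ (σ : Type) (φ : σ → MvPolynomial (ι × ι) ℂ) (F : Set (σ → ℂ)), F.Finite →
  (∀ x ∈ X, (fun s => MvPolynomial.eval (fun p => x p.1 p.2) (φ s)) ∈ F) →
  ∀ a, Iso Q a → a.det = 1 → ∀ s, MvPolynomial.eval (fun p => a p.1 p.2) (φ s) =
    MvPolynomial.eval (fun p => (1 : Matrix ι ι ℂ) p.1 p.2) (φ s)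

/-- ZCP: the Zariski closure of the group generated by the simultaneous reflections. -/
def Stmt_Zcp : Prop := ∀ (I : Type) [Fintype I] [DecidableEq I] (ι : I → Type)
  [∀ k, Fintype (ι k)] [∀ k, DecidableEq (ι k)] (q : ℕ) (Q : ∀ k, Matrix (ι k) (ι k) ℂ)
  (v : ∀ k, Fin q → ι k → ℂ), (∀ k, Rts (Q k) (v k)) →
  ∃ H : Set (∀ k, Matrix (ι k) (ι k) ℂ), ClP Q H ∧
    (↑(Submonoid.closure (RF Q v)) : Set (∀ k, Matrix (ι k) (ι k) ℂ)) ⊆ H ∧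
    ∀ P : MvPolynomial (Σ k, ι k × ι k) ℂ,
      (∀ γ ∈ Submonoid.closure (RF Q v),
        MvPolynomial.eval (fun p => γ p.1 p.2.1 p.2.2) P = 0) →
      ∀ h ∈ H, MvPolynomial.eval (fun p => h p.1 p.2.1 p.2.2) P = 0

/-- CMA: commutators. -/
def Stmt_Cma : Prop := ∀ (I : Type) [Fintype I] [DecidableEq I] (ι : I → Type)
  [∀ k, Fintype (ι k)] [∀ k, DecidableEq (ι k)] (q : ℕ) (Q : ∀ k, Matrix (ι k) (ι k) ℂ)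
  (v : ∀ k, Fin q → ι k → ℂ), (∀ k, Rts (Q k) (v k)) →
  ∀ H : Set (∀ k, Matrix (ι k) (ι k) ℂ), ClP Q H → RF Q v ⊆ H →
  ∀ (k : I) (L1 L2 : Set I), k ∉ L1 → k ∉ L2 → ¬ (Nk H k L1).Finite → ¬ (Nk H k L2).Finite →
    ¬ (Nk H k (L1 ∪ L2)).Finite

/-- CSA: a reflection at `k` which is trivial at `l`. -/
def Stmt_Csa : Prop := ∀ (I : Type) [Fintype I] [DecidableEq I] (ι : I → Type)
  [∀ k, Fintype (ι k)] [∀ k, DecidableEq (ι k)] (q : ℕ) (Q : ∀ k, Matrix (ι k) (ι k) ℂ)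
  (v : ∀ k, Fin q → ι k → ℂ), (∀ k, Rts (Q k) (v k)) →
  ∀ H : Set (∀ k, Matrix (ι k) (ι k) ℂ), ClP Q H → RF Q v ⊆ H →
  ∀ (k l : I) (j : Fin q), k ≠ l → v k j ≠ 0 → v l j = 0 → ¬ (Nk H k ∅).Finite →
    ¬ (Nk H k {l}).Finite

/-- DNP: density of the group generated by simultaneous reflections. -/
def Stmt_Dnp : Prop := ∀ (I : Type) [Fintype I] [DecidableEq I] (ι : I → Type)
  [∀ k, Fintype (ι k)] [∀ k, DecidableEq (ι k)] (q : ℕ) (Q : ∀ k, Matrix (ι k) (ι k) ℂ)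
  (v : ∀ k, Fin q → ι k → ℂ), (∀ k, Rts (Q k) (v k)) →
  (∀ k l, k ≠ l → ∃ j, ¬(v k j = 0 ↔ v l j = 0)) →
  (∀ k, ¬ ((Submonoid.closure {M : Matrix (ι k) (ι k) ℂ | ∃ j : Fin q,
    M = 1 - (2 : ℂ) • pr (Q k) (v k j)} : Set (Matrix (ι k) (ι k) ℂ))).Finite) →
  ∀ P : MvPolynomial (Σ k, ι k × ι k) ℂ,
  (∀ γ ∈ Submonoid.closure (RF Q v),
    MvPolynomial.eval (fun p => γ p.1 p.2.1 p.2.2) P = 0) →
  ∀ a : ∀ k, Matrix (ι k) (ι k) ℂ, (∀ k, Iso (Q k) (a k) ∧ (a k).det = 1) →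
    MvPolynomial.eval (fun p => a p.1 p.2.1 p.2.2) P = 0

/-! ## E. Functional relations -/

/-- CMN: common singular points. -/
def Stmt_Cmn : Prop := ∀ (I : Type) [Fintype I] [DecidableEq I] (ι : I → Type)
  [∀ k, Fintype (ι k)] [∀ k, DecidableEq (ι k)] (κ : I → ℕ)
  (A B U : ∀ k, Matrix (ι k) (ι k) ℚ) (b : ∀ k, ι k → ℚ) (i₀ : ∀ k, ι k),
  (∀ k, Oku (κ k) (A k) (B k) (U k) (b k) (i₀ k)) → ∀ e r : I → ℂ, (∀ k, r k ≠ 0) →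
  (∀ k l, k ≠ l → ∃ z : ℂ,
    ¬(((e k + r k * z) • (1 : Matrix (ι k) (ι k) ℂ) + cm (A k)).det ≠ 0 ↔
      ((e l + r l * z) • (1 : Matrix (ι l) (ι l) ℂ) + cm (A l)).det ≠ 0)) →
  ∃ (q : ℕ) (T : Fin q → ℂ) (x : ∀ k, Fin q → ι k → ℂ),
    (∀ k, Sy (cm (A k)) (cm (U k)) (e k) (r k) T (x k)) ∧
    (∀ k l, k ≠ l → ∃ j, ¬(x k j = 0 ↔ x l j = 0)) ∧ ∀ j, ∃ k, x k j ≠ 0

/-- FBE: the Fuchsian form of the system. -/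
def Stmt_Fbe : Prop := ∀ (ι : Type) [Fintype ι] [DecidableEq ι] (A U E : Matrix ι ι ℂ)
  (e r : ℂ) (q : ℕ) (T : Fin q → ℂ) (x : Fin q → ι → ℂ), U.transpose = U → Sy A U e r T x →
  (∀ z, ((e + r * z) • (1 : Matrix ι ι ℂ) + A).det ≠ 0 ↔ ∀ j, x j ≠ 0 → z ≠ T j) ∧
  ∀ z, (∀ j, z ≠ T j) →
    ((e + r * z) • (1 : Matrix ι ι ℂ) + A) * FB T (Ro U E x) z = r • E

/-- RSQ: the residues are nilpotent up to the factor `-1/2`. -/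
def Stmt_Rsq : Prop := ∀ (ι : Type) [Fintype ι] [DecidableEq ι] (κ : ℕ) (A B U : Matrix ι ι ℚ)
  (b : ι → ℚ) (i₀ : ι), Oku κ A B U b i₀ → ∀ (e r : ℂ) (q : ℕ) (T : Fin q → ℂ)
  (x : Fin q → ι → ℂ), Sy (cm A) (cm U) e r T x → ∀ j,
  Ro (cm U) (cm (Eo κ B)) x j * Ro (cm U) (cm (Eo κ B)) x j =
    (-(1 / 2) : ℂ) • Ro (cm U) (cm (Eo κ B)) x j ∧
  (Ro (cm U) (cm (Eo κ B)) x j = 0 ↔ x j = 0)

/-- FRT: gauge transformation to the normal form at a simple pole with exponents `0`, `-1/2`. -/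
def Stmt_Frt : Prop := ∀ (ι : Type) [Fintype ι] [DecidableEq ι] (R : Matrix ι ι ℂ),
  R * R = (-(1 / 2) : ℂ) • R →
  ∀ (r : ℝ) (B : ℂ → Matrix ι ι ℂ), 0 < r → GPH.HolM (ball 0 r) B →
  ∃ (r' : ℝ) (H : ℂ → Matrix ι ι ℂ), 0 < r' ∧ r' ≤ r ∧ GPH.HolM (ball 0 r') H ∧
    H 0 = 1 ∧ (∀ t ∈ ball (0 : ℂ) r', (H t).det ≠ 0) ∧
    ∀ t ∈ ball (0 : ℂ) r', t ≠ 0 → ∀ k l, HasDerivAt (fun z => H z k l)
      ((t⁻¹ • (R * H t - H t * R) + B t * H t) k l) t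

/-- FNO: the fundamental matrix. -/
def Stmt_Fno : Prop := ∀ (ι : Type) [Fintype ι] [DecidableEq ι] (κ : ℕ) (A B U : Matrix ι ι ℚ)
  (b : ι → ℚ) (i₀ : ι), Oku κ A B U b i₀ → ∀ (e r : ℂ) (q : ℕ) (T : Fin q → ℂ)
  (x : Fin q → ι → ℂ), Sy (cm A) (cm U) e r T x → ∀ b0 : ℂ, (∀ j, T j ≠ b0) →
  (∃ Φ, FunO (cm A) (cm (Eo κ B)) (cm U) e r T x b0 Φ) ∧
  (No (cm A) (cm U) e r b0).transpose = No (cm A) (cm U) e r b0 ∧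
  (No (cm A) (cm U) e r b0).det ≠ 0

/-- LOO: the local forms. -/
def Stmt_Loo : Prop := ∀ (ι : Type) [Fintype ι] [DecidableEq ι] (κ : ℕ) (A B U : Matrix ι ι ℚ)
  (b : ι → ℚ) (i₀ : ι), Oku κ A B U b i₀ → ∀ (e r : ℂ) (q : ℕ) (T : Fin q → ℂ)
  (x : Fin q → ι → ℂ), Sy (cm A) (cm U) e r T x → ∀ b0 : ℂ, GPH.GenPos b0 T →
  ∀ Φ, FunO (cm A) (cm (Eo κ B)) (cm U) e r T x b0 Φ → ∀ j, ∃ v : ι → ℂ,
    (v = 0 ∨ dotProduct v ((No (cm A) (cm U) e r b0).mulVec v) = 1) ∧ (v = 0 ↔ x j = 0) ∧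
    LocO T b0 Φ j (pr (No (cm A) (cm U) e r b0) v)

/-- MNO: invariance of polynomial relations under the simultaneous local monodromies. -/
def Stmt_Mno : Prop := ∀ (I : Type) [Fintype I] [Nonempty I] (ι : I → Type)
  [∀ k, Fintype (ι k)] [∀ k, DecidableEq (ι k)] (q : ℕ) (T : Fin q → ℂ) (b0 : ℂ),
  GPH.GenPos b0 T → ∀ Φ : ∀ k, ℂ → Matrix (ι k) (ι k) ℂ,
  (∀ k, GPH.HolM (GPH.Cut b0 T) (Φ k)) → ∀ (j : Fin q) (Pk : ∀ k, Matrix (ι k) (ι k) ℂ),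
  (∀ k, Pk k * Pk k = Pk k) → (∀ k, LocO T b0 (Φ k) j (Pk k)) →
  ∀ (P : MvPolynomial (Option (Σ k, ι k × ι k)) ℂ) (h : ∀ k, Matrix (ι k) (ι k) ℂ),
  (∀ z ∈ GPH.Cut b0 T, MvPolynomial.eval (pt z (fun k => Φ k z * h k)) P = 0) →
  ∀ z ∈ GPH.Cut b0 T, MvPolynomial.eval
    (pt z (fun k => Φ k z * ((1 - (2 : ℂ) • Pk k) * h k))) P = 0

/-- PLG: entire functions of polynomial growth. -/
def Stmt_Plg : Prop := ∀ (F : ℂ → ℂ) (C : ℝ) (M : ℕ), Differentiable ℂ F →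
  (∀ z, ‖F z‖ ≤ C * (1 + ‖z‖) ^ M) → ∃ p : Polynomial ℂ, p.natDegree ≤ M ∧ ∀ z, F z = p.eval z

/-- GRT: growth of solutions in a neighbourhood of infinity, with weights. -/
def Stmt_Grt : Prop := ∀ (Λ : Type) [Fintype Λ] [DecidableEq Λ] (w : Λ → ℝ) (α C δ r₀ : ℝ), 0 < δ → 1 ≤ r₀ →
  ∀ (L : ℂ → Matrix Λ Λ ℂ) (Y : ℂ → Λ → ℂ),
  (∀ s : ℂ, r₀ ≤ ‖s‖ → ∀ f, HasDerivAt (fun z => Y z f) ((L s).mulVec (Y s) f) s) →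
  (∀ s : ℂ, r₀ ≤ ‖s‖ → ∀ f g, ‖s * L s f g - (if f = g then ((w f - α : ℝ) : ℂ) else 0)‖ *
    ‖s‖ ^ (w g - w f) ≤ C * ‖s‖ ^ (-δ)) →
  ∃ C' : ℝ, ∀ s : ℂ, r₀ ≤ ‖s‖ → ∀ f, ‖Y s f‖ ≤ C' * ‖s‖ ^ (w f - α)

/-- CMX: a matrix which commutes with the local monodromies gives an entire horizontal
endomorphism. -/
def Stmt_Cmx : Prop := ∀ (ι : Type) [Fintype ι] [DecidableEq ι] (κ : ℕ) (A B U : Matrix ι ι ℚ)
  (b : ι → ℚ) (i₀ : ι), Oku κ A B U b i₀ → ∀ (e r : ℂ) (q : ℕ) (T : Fin q → ℂ)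
  (x : Fin q → ι → ℂ), Sy (cm A) (cm U) e r T x → ∀ b0 : ℂ, GPH.GenPos b0 T →
  ∀ Φ, FunO (cm A) (cm (Eo κ B)) (cm U) e r T x b0 Φ → ∀ Pj : Fin q → Matrix ι ι ℂ,
  (∀ j, Pj j * Pj j = Pj j) → (∀ j, LocO T b0 Φ j (Pj j)) →
  ∀ Z : Matrix ι ι ℂ, (∀ j, Z * Pj j = Pj j * Z) → ∃ Y : ℂ → Matrix ι ι ℂ,
    (∀ i j, Differentiable ℂ (fun z => Y z i j)) ∧
    (∀ z ∈ GPH.Cut b0 T, Y z * Φ z = Φ z * Z) ∧
    ∀ z ∈ GPH.Off T, ∀ i j, HasDerivAt (fun z => Y z i j)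
      ((FB T (Ro (cm U) (cm (Eo κ B)) x) z * Y z - Y z * FB T (Ro (cm U) (cm (Eo κ B)) x) z)
        i j) z

/-- CMY: an entire horizontal endomorphism is constant. -/
def Stmt_Cmy : Prop := ∀ (ι : Type) [Fintype ι] [DecidableEq ι] (κ : ℕ) (A B U : Matrix ι ι ℚ)
  (b : ι → ℚ) (i₀ : ι), Oku κ A B U b i₀ → ∀ (e r : ℂ) (q : ℕ) (T : Fin q → ℂ)
  (x : Fin q → ι → ℂ), Sy (cm A) (cm U) e r T x → ∀ Y : ℂ → Matrix ι ι ℂ,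
  (∀ i j, Differentiable ℂ (fun z => Y z i j)) →
  (∀ z ∈ GPH.Off T, ∀ i j, HasDerivAt (fun z => Y z i j)
      ((FB T (Ro (cm U) (cm (Eo κ B)) x) z * Y z - Y z * FB T (Ro (cm U) (cm (Eo κ B)) x) z)
        i j) z) → ∀ z, Y z = Y 0

/-- CMO: the commutant of the local monodromies is scalar. -/
def Stmt_Cmo : Prop := ∀ (ι : Type) [Fintype ι] [DecidableEq ι] (κ : ℕ) (A B U : Matrix ι ι ℚ)
  (b : ι → ℚ) (i₀ : ι), Oku κ A B U b i₀ → ∀ (e r : ℂ) (q : ℕ) (T : Fin q → ℂ)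
  (x : Fin q → ι → ℂ), Sy (cm A) (cm U) e r T x → ∀ b0 : ℂ, GPH.GenPos b0 T →
  ∀ Φ, FunO (cm A) (cm (Eo κ B)) (cm U) e r T x b0 Φ → ∀ v : Fin q → ι → ℂ,
  (∀ j, v j = 0 ∨ dotProduct (v j) ((No (cm A) (cm U) e r b0).mulVec (v j)) = 1) →
  (∀ j, LocO T b0 Φ j (pr (No (cm A) (cm U) e r b0) (v j))) →
  ∀ Z : Matrix ι ι ℂ, (∀ j, Z * pr (No (cm A) (cm U) e r b0) (v j) =
    pr (No (cm A) (cm U) e r b0) (v j) * Z) → ∃ c : ℂ, Z = c • 1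

/-- GAU: gauge transformation to the system with bounded solutions at the points `T j`. -/
def Stmt_Gau : Prop := ∀ (ι : Type) [Fintype ι] [DecidableEq ι] (κ : ℕ) (A B U : Matrix ι ι ℚ)
  (b : ι → ℚ) (i₀ : ι), Oku κ A B U b i₀ → ∀ (e r : ℂ) (q : ℕ) (T : Fin q → ℂ)
  (x : Fin q → ι → ℂ), Sy (cm A) (cm U) e r T x → ∀ b0 : ℂ, GPH.GenPos b0 T →
  ∀ Φ, FunO (cm A) (cm (Eo κ B)) (cm U) e r T x b0 Φ → ∀ Pj : Fin q → Matrix ι ι ℂ,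
  (∀ j, Pj j * Pj j = Pj j) → (∀ j, LocO T b0 Φ j (Pj j)) → ∃ Ψ : ℂ → Matrix ι ι ℂ,
    GPH.MSol (GPH.Cut b0 T) (FB T (Ro (cm U) (cm (Eo 1 B)) x)) Ψ ∧
    (∀ z ∈ GPH.Cut b0 T, (Ψ z).det ≠ 0) ∧ ∀ j, LocG T b0 Ψ j (Pj j)

/-- INB: the symmetrised product of the conjugates extends to the whole plane. -/
def Stmt_Inb : Prop := ∀ (ι Γ : Type) [Fintype ι] [DecidableEq ι] [Fintype Γ] [DecidableEq Γ]
  (q : ℕ) (T : Fin q → ℂ) (b0 : ℂ), GPH.GenPos b0 T → ∀ L : ℂ → Matrix ι ι ℂ,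
  GPH.HolM (GPH.Off T) L → ∀ Ψ : ℂ → Matrix ι ι ℂ, GPH.MSol (GPH.Cut b0 T) L Ψ →
  ∀ Pj : Fin q → Matrix ι ι ℂ, (∀ j, LocG T b0 Ψ j (Pj j)) → ∀ F : Γ → Matrix ι ι ℂ,
  (∀ j, ∃ π : Equiv.Perm Γ, ∀ γ, (1 - (2 : ℂ) • Pj j) * F γ = F (π γ)) → ∀ c : ι → ℂ,
  ∃ Y : ℂ → (Γ → ι) → ℂ, (∀ f, Differentiable ℂ (fun z => Y z f)) ∧
    (∀ z ∈ GPH.Cut b0 T, Y z = yT Ψ F c z) ∧ GPH.Sol (GPH.Off T) (Lt L) Y

/-- GRL: the growth of the solutions of the tensor power of the system. -/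
def Stmt_Grl : Prop := ∀ (ι Γ : Type) [Fintype ι] [DecidableEq ι] [Fintype Γ] [DecidableEq Γ]
  (κ : ℕ) (A B U : Matrix ι ι ℚ) (b : ι → ℚ) (i₀ : ι), Oku κ A B U b i₀ →
  ∀ (e r : ℂ) (q : ℕ) (T : Fin q → ℂ) (x : Fin q → ι → ℂ), Sy (cm A) (cm U) e r T x →
  ∀ Y : ℂ → (Γ → ι) → ℂ, (∀ f, Differentiable ℂ (fun z => Y z f)) →
  GPH.Sol (GPH.Off T) (Lt (FB T (Ro (cm U) (cm (Eo 1 B)) x))) Y →
  ∃ C r₀ : ℝ, ∀ z : ℂ, r₀ ≤ ‖z‖ → ∀ f, ‖Y z f‖ ≤ C * ‖z‖ ^ (∑ γ, ((b (f γ) : ℝ) - 1))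

/-- INO: the monodromy group is infinite. -/
def Stmt_Ino : Prop := ∀ (ι : Type) [Fintype ι] [DecidableEq ι] (κ : ℕ) (A B U : Matrix ι ι ℚ)
  (b : ι → ℚ) (i₀ : ι), Oku κ A B U b i₀ → ∀ (e r : ℂ) (q : ℕ) (T : Fin q → ℂ)
  (x : Fin q → ι → ℂ), Sy (cm A) (cm U) e r T x → ∀ b0 : ℂ, GPH.GenPos b0 T →
  ∀ Φ, FunO (cm A) (cm (Eo κ B)) (cm U) e r T x b0 Φ → ∀ v : Fin q → ι → ℂ,
  (∀ j, v j = 0 ∨ dotProduct (v j) ((No (cm A) (cm U) e r b0).mulVec (v j)) = 1) →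
  (∀ j, LocO T b0 Φ j (pr (No (cm A) (cm U) e r b0) (v j))) →
  ¬ ((Submonoid.closure {M : Matrix ι ι ℂ | ∃ j : Fin q,
    M = 1 - (2 : ℂ) • pr (No (cm A) (cm U) e r b0) (v j)} : Set (Matrix ι ι ℂ))).Finite

/-- THO: polynomial relations between the solutions of several systems. -/
def Stmt_Tho : Prop := ∀ (I : Type) [Fintype I] [DecidableEq I] (ι : I → Type)
  [∀ k, Fintype (ι k)] [∀ k, DecidableEq (ι k)] (κ : I → ℕ)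
  (A B U : ∀ k, Matrix (ι k) (ι k) ℚ) (b : ∀ k, ι k → ℚ) (i₀ : ∀ k, ι k),
  (∀ k, Oku (κ k) (A k) (B k) (U k) (b k) (i₀ k)) → ∀ e r : I → ℂ, (∀ k, r k ≠ 0) →
  (∀ k l, k ≠ l → ∃ z : ℂ,
    ¬(((e k + r k * z) • (1 : Matrix (ι k) (ι k) ℂ) + cm (A k)).det ≠ 0 ↔
      ((e l + r l * z) • (1 : Matrix (ι l) (ι l) ℂ) + cm (A l)).det ≠ 0)) →
  ∀ (z0 : ℂ) (ρ : ℝ), 0 < ρ → (∀ k, ∀ z ∈ ball z0 ρ,
    ((e k + r k * z) • (1 : Matrix (ι k) (ι k) ℂ) + cm (A k)).det ≠ 0) →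
  ∀ W W' : ∀ k, ℂ → Matrix (ι k) (ι k) ℂ, (∀ k, W k z0 = 1) →
  (∀ k, ∀ z ∈ ball z0 ρ, (∀ i j, HasDerivAt (fun z => W k z i j) (W' k z i j) z) ∧
    ((e k + r k * z) • (1 : Matrix (ι k) (ι k) ℂ) + cm (A k)) * W' k z =
      r k • (cm (Eo (κ k) (B k)) * W k z)) →
  ∀ P : MvPolynomial (Option (Σ k, ι k × ι k)) ℂ,
  (∀ z ∈ ball z0 ρ, MvPolynomial.eval (pt z (fun k => W k z)) P = 0) →
  ∀ z ∈ ball z0 ρ, ∀ a : ∀ k, Matrix (ι k) (ι k) ℂ,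
  (∀ k, Iso (No (cm (A k)) (cm (U k)) (e k) (r k) z0) (a k) ∧ (a k).det = 1) →
    MvPolynomial.eval (pt z (fun k => W k z * a k)) P = 0

/-! ## F. Integrals -/

/-- RAY: bounds on the half lines. -/
def Stmt_Ray : Prop := ∀ f : Polynomial ℚ, f.Monic → 2 ≤ f.natDegree → RayP f →
  ∃ c c₁ C : ℝ, 0 < c ∧ 0 < c₁ ∧ 0 < C ∧ ∀ (l : ℕ) (x : ℝ), 0 ≤ x →
    c + c₁ * x ^ f.natDegree ≤ (ray f l x).re ∧ ‖ray f l x‖ ≤ C * (1 + x ^ f.natDegree)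

/-- JBD: bounds of the integrals. -/
def Stmt_Jbd : Prop := ∀ f : Polynomial ℚ, f.Monic → 2 ≤ f.natDegree → RayP f →
  ∃ c : ℝ, 0 < c ∧ ∀ i l : ℕ, (∀ τ : ℝ, 0 < τ → IntegrableOn
    (fun x : ℝ => (x : ℂ) ^ i * Complex.exp (-(τ : ℂ) * ray f l x)) (Ioi 0)) ∧
  ∃ C : ℝ, ∀ τ : ℝ, 0 < τ → ‖J1 f i l τ‖ ≤
    C * Real.exp (-(c * τ)) * τ ^ (-(((i : ℝ) + 1) / f.natDegree))

/-- JLM: the limit at `τ = 0`. -/
def Stmt_Jlm : Prop := ∀ f : Polynomial ℚ, f.Monic → 2 ≤ f.natDegree → RayP f → ∀ i l : ℕ,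
  Filter.Tendsto (fun τ : ℝ => ((τ ^ (((i : ℝ) + 1) / f.natDegree) : ℝ) : ℂ) * J1 f i l τ)
    (𝓝[>] 0) (𝓝 (zt f.natDegree ^ (l * (i + 1)) *
      ((Real.Gamma (((i : ℝ) + 1) / f.natDegree) / f.natDegree : ℝ) : ℂ)))

/-- IOD: the differential equation in one variable. -/
def Stmt_Iod : Prop := ∀ f : Polynomial ℚ, f.Monic → 2 ≤ f.natDegree → RayP f →
  ∀ (i : Fin (f.natDegree - 1)) (a : ℕ) (τ : ℝ), 0 < τ →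
  HasDerivAt (fun τ => J1 f i (a + 1) τ - J1 f i a τ)
    (-∑ j : Fin (f.natDegree - 1), ((A1 f i j : ℂ) + (B1 f i j : ℂ) / τ) *
      (J1 f j (a + 1) τ - J1 f j a τ)) τ

/-- GGO: the product of the one variable integrals. -/
def Stmt_Ggo : Prop := ∀ (n : ℕ) (f : Fin n → Polynomial ℚ), 0 < n → (∀ j, (f j).Monic) →
  (∀ j, 2 ≤ (f j).natDegree) → (∀ j, RayP (f j)) →
  (∀ (x y : Ix f) (τ : ℝ), 0 < τ → HasDerivAt (fun τ => GG f τ x y)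
    (-(((cm (AT f) + ((τ : ℂ))⁻¹ • cm (BT f)) * GG f τ) x y)) τ) ∧
  (∃ C c : ℝ, 0 < c ∧ ∀ (x y : Ix f) (τ : ℝ), 0 < τ → ‖GG f τ x y‖ ≤
    C * Real.exp (-(c * τ)) * τ ^ (-(bI f x : ℝ))) ∧
  ∀ x y : Ix f, Filter.Tendsto (fun τ : ℝ => ((τ ^ (bI f x : ℝ) : ℝ) : ℂ) * GG f τ x y)
    (𝓝[>] 0) (𝓝 (∏ j, ((zt (f j).natDegree ^ (((y j : ℕ) + 1) * ((x j : ℕ) + 1)) -
      zt (f j).natDegree ^ ((y j : ℕ) * ((x j : ℕ) + 1))) *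
      ((Real.Gamma (((x j : ℕ) + 1 : ℝ) / (f j).natDegree) / (f j).natDegree : ℝ) : ℂ))))

/-- LAP: the period integrals are Laplace transforms. -/
def Stmt_Lap : Prop := ∀ (n : ℕ) (f : Fin n → Polynomial ℚ), 0 < n → (∀ j, (f j).Monic) →
  (∀ j, 2 ≤ (f j).natDegree) → (∀ j, RayP (f j)) →
  ∀ t : ℂ, 0 ≤ t.re → per f t = LM f t

/-- LMO: the differential equation of the Laplace transform. -/
def Stmt_Lmo : Prop := ∀ (n : ℕ) (f : Fin n → Polynomial ℚ), 0 < n → (∀ j, (f j).Monic) →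
  (∀ j, 2 ≤ (f j).natDegree) → (∀ j, RayP (f j)) → ∃ c : ℝ, 0 < c ∧
  ∃ L' : ℂ → Matrix (Ix f) (Ix f) ℂ, ∀ t : ℂ, -c < t.re →
    (∀ x y, HasDerivAt (fun t => LM f t x y) (L' t x y) t) ∧
    (t • (1 : Matrix (Ix f) (Ix f) ℂ) + cm (AT f)) * L' t =
      (cm (BT f) - (n : ℂ) • (1 : Matrix (Ix f) (Ix f) ℂ)) * LM f t

/-- MKO: the differential equations of the period matrices. -/
def Stmt_Mko : Prop := ∀ (n : ℕ) (f : Fin n → Polynomial ℚ), 0 < n → (∀ j, G1 (f j)) →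
  (∀ j l, j ≠ l → Nat.Coprime (f j).natDegree (f l).natDegree) →
  (∀ j, RayP (f j)) → ∃ c : ℝ, 0 < c ∧ ∀ d : ℕ, d < n →
  ∃ L' : ℂ → Matrix (Ix f) (Ix f) ℂ, ∀ t : ℂ, -c < t.re →
    (∀ x y, HasDerivAt (fun t => MK f d t x y) (L' t x y) t) ∧
    (t • (1 : Matrix (Ix f) (Ix f) ℂ) + cm (AT f)) * L' t =
      (cm (BT f) - ((n - d : ℕ) : ℂ) • (1 : Matrix (Ix f) (Ix f) ℂ)) * MK f d t

/-- MKL: the limits for `t → ∞`. -/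
def Stmt_Mkl : Prop := ∀ (n : ℕ) (f : Fin n → Polynomial ℚ), 0 < n → (∀ j, G1 (f j)) →
  (∀ j l, j ≠ l → Nat.Coprime (f j).natDegree (f l).natDegree) →
  (∀ j, RayP (f j)) → ∀ d : ℕ, d < n → ∀ x y : Ix f,
  Filter.Tendsto (fun t : ℝ => ((t ^ (((n - d : ℕ) : ℝ) - (bI f x : ℝ)) : ℝ) : ℂ) *
      MK f d t x y) Filter.atTop
    (𝓝 (((Real.Gamma (((n - d : ℕ) : ℝ) - (bI f x : ℝ)) / Real.Gamma ((n - d : ℕ) : ℝ) : ℝ) :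
      ℂ) * ∏ j, ((zt (f j).natDegree ^ (((y j : ℕ) + 1) * ((x j : ℕ) + 1)) -
      zt (f j).natDegree ^ ((y j : ℕ) * ((x j : ℕ) + 1))) *
      ((Real.Gamma (((x j : ℕ) + 1 : ℝ) / (f j).natDegree) / (f j).natDegree : ℝ) : ℂ))))

/-- The constant value of the form, as a sum over the characters. -/
def K0 {n : ℕ} (f : Fin n → Polynomial ℚ) (κ : ℕ) (a a' : Ix f) : ℂ :=
  ∑ x : Ix f, ((Real.Gamma ((κ : ℝ) - (bI f x : ℝ)) *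
      Real.Gamma ((bI f x : ℝ) + 1 - κ) / Real.Gamma κ ^ 2 : ℝ) : ℂ) *
    ∏ j, ((((f j).natDegree : ℂ))⁻¹ *
      ((Real.Gamma (((x j : ℕ) + 1 : ℝ) / (f j).natDegree) *
        Real.Gamma (1 - ((x j : ℕ) + 1 : ℝ) / (f j).natDegree) : ℝ) : ℂ) *
      (zt (f j).natDegree ^ (((a j : ℕ) + 1) * ((x j : ℕ) + 1)) -
        zt (f j).natDegree ^ ((a j : ℕ) * ((x j : ℕ) + 1))) *
      ((zt (f j).natDegree)⁻¹ ^ (((a' j : ℕ) + 1) * ((x j : ℕ) + 1)) -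
        (zt (f j).natDegree)⁻¹ ^ ((a' j : ℕ) * ((x j : ℕ) + 1))))

/-- BLC: the form is constant, with value `K0`. -/
def Stmt_Blc : Prop := ∀ (k : ℕ) (f : Fin (2 * k + 1) → Polynomial ℚ), 1 ≤ k →
  (∀ j, G1 (f j)) → (∀ j l, j ≠ l → Nat.Coprime (f j).natDegree (f l).natDegree) →
  (∀ j, RayP (f j)) → ∃ c : ℝ, 0 < c ∧ ∀ t : ℂ, -c < t.re → ∀ a a' : Ix f,
  ((MK f k t).transpose * (cm (UT f) *
    (t • (1 : Matrix (Ix f) (Ix f) ℂ) + cm (AT f))) * MK f k t) a a' = K0 f (k + 1) a a'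

/-- TRG: the value of `K0`. -/
def Stmt_Trg : Prop := ∀ (k : ℕ) (f : Fin (2 * k + 1) → Polynomial ℚ), 1 ≤ k →
  (∀ j, 2 ≤ (f j).natDegree) →
  (∀ j l, j ≠ l → Nat.Coprime (f j).natDegree (f l).natDegree) → ∀ a a' : Ix f,
  K0 f (k + 1) a a' = (2 * Real.pi * Complex.I) ^ (2 * k + 2) *
    ((-1) ^ k / (k.factorial : ℂ) ^ 2) * ((inter f a a' : ℚ) : ℂ)

/-- NDG: the intersection matrix is not degenerate. -/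
def Stmt_Ndg : Prop := ∀ (k : ℕ) (f : Fin (2 * k + 1) → Polynomial ℚ), 1 ≤ k →
  (∀ j, 2 ≤ (f j).natDegree) →
  (∀ j l, j ≠ l → Nat.Coprime (f j).natDegree (f l).natDegree) →
  (inter f).det ≠ 0 ∧ (inter f).transpose = inter f

/-! ## G. Assembly -/

/-- Numerators and denominators are bounded by `n ^ δ`. -/
def Ht (n : ℕ) (δ : ℝ) (ρ : ℚ) : Prop := (ρ.num : ℝ) ≤ (n : ℝ) ^ δ ∧ (ρ.den : ℝ) ≤ (n : ℝ) ^ δ

/-- IDO: relations of bounded degree between the values of the power series. -/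
def Stmt_Ido : Prop := ∀ (K : ℕ) (ι : Fin K → Type) [∀ k, Fintype (ι k)]
  [∀ k, DecidableEq (ι k)] (κ : Fin K → ℕ) (A B U : ∀ k, Matrix (ι k) (ι k) ℚ)
  (b : ∀ k, ι k → ℚ) (i₀ : ∀ k, ι k), (∀ k, Oku (κ k) (A k) (B k) (U k) (b k) (i₀ k)) →
  (∀ k, (A k).det ≠ 0) → (∀ k, GTyp (A k) (Eo (κ k) (B k))) → ∀ E : ℕ,
  ∃ δ : ℝ, 0 < δ ∧ ∃ n₀ : ℕ, ∀ n : ℕ, n₀ ≤ n → ∀ ρ : Fin K → ℚ,
  (∀ k, 0 < ρ k ∧ Ht n δ (ρ k)) →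
  (∀ k l, k ≠ l → ∃ z : ℂ,
    ¬((((ρ k : ℂ) * z) • (1 : Matrix (ι k) (ι k) ℂ) + cm (A k)).det ≠ 0 ↔
      (((ρ l : ℂ) * z) • (1 : Matrix (ι l) (ι l) ℂ) + cm (A l)).det ≠ 0)) →
  ∀ P : MvPolynomial (Σ k, ι k × ι k) ℚ, P.totalDegree ≤ E →
  MvPolynomial.aeval (fun p : Σ k, ι k × ι k =>
    Yv (A p.1) (Eo (κ p.1) (B p.1)) ((ρ p.1 : ℝ) / n) p.2.1 p.2.2) P = (0 : ℂ) →
  ∀ a : ∀ k, Matrix (ι k) (ι k) ℂ, (∀ k, Iso (cm (U k * A k)) (a k) ∧ (a k).det = 1) →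
  MvPolynomial.aeval (fun p : Σ k, ι k × ι k =>
    (Yv (A p.1) (Eo (κ p.1) (B p.1)) ((ρ p.1 : ℝ) / n) * a p.1) p.2.1 p.2.2) P = (0 : ℂ)

/-- MNP: the main theorem for relations with rational coefficients. -/
def Stmt_Mnp : Prop := ∀ (nF : ℕ) (ι : Fin nF → Type) [∀ k, Fintype (ι k)]
  [∀ k, DecidableEq (ι k)] (κ : Fin nF → ℕ) (A B U : ∀ k, Matrix (ι k) (ι k) ℚ)
  (b : ∀ k, ι k → ℚ) (i₀ : ∀ k, ι k), (∀ k, Oku (κ k) (A k) (B k) (U k) (b k) (i₀ k)) →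
  (∀ k, (A k).det ≠ 0) → (∀ k, GTyp (A k) (Eo (κ k) (B k))) →
  (∀ (k l : Fin nF) (ρ : ℚ), 0 < ρ → (k ≠ l ∨ ρ ≠ 1) → ∃ z : ℂ,
    ¬((z • (1 : Matrix (ι k) (ι k) ℂ) + cm (A k)).det ≠ 0 ↔
      (((ρ : ℂ) * z) • (1 : Matrix (ι l) (ι l) ℂ) + cm (A l)).det ≠ 0)) →
  ∀ θ : ∀ k, Matrix (ι k) (ι k) ℂ, ∀ (r : ℕ) (φ : Fin r → Fin nF) (D : ℕ),
  ∃ δ : ℝ, 0 < δ ∧ ∃ C n₀ : ℕ, ∀ n : ℕ, n₀ ≤ n → ∃ S : Finset ℚ, S.card ≤ C ∧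
  ∀ ρ : Fin r → ℚ, (∀ i j, i ≠ j → φ i = φ j → ρ i ≠ ρ j) →
  (∀ i, 0 < ρ i ∧ ρ i ∉ S ∧ Ht n δ (ρ i)) →
  ∀ P : MvPolynomial (Option (Σ i, ι (φ i) × ι (φ i))) ℚ, P.totalDegree ≤ D →
  MvPolynomial.aeval (pt (2 * Real.pi * Complex.I) (fun i : Fin r =>
    Yv (A (φ i)) (Eo (κ (φ i)) (B (φ i))) ((ρ i : ℝ) / n) * θ (φ i))) P = (0 : ℂ) →
  ∀ a : ∀ i, Matrix (ι (φ i)) (ι (φ i)) ℂ,
  (∀ i, Iso (cm (U (φ i) * A (φ i))) (a i) ∧ (a i).det = 1) →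
  MvPolynomial.aeval (pt (2 * Real.pi * Complex.I) (fun i : Fin r =>
    Yv (A (φ i)) (Eo (κ (φ i)) (B (φ i))) ((ρ i : ℝ) / n) * a i * θ (φ i))) P = (0 : ℂ)

/-- IRX: the special orthogonal torsors are irreducible. -/
def Stmt_Irx : Prop := ∀ (r : ℕ) (ι : Fin r → Type) [∀ k, Fintype (ι k)]
  [∀ k, DecidableEq (ι k)] [∀ k, Nonempty (ι k)] (Q : ∀ k, Matrix (ι k) (ι k) ℂ),
  (∀ k, (Q k).transpose = Q k ∧ (Q k).det ≠ 0) →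
  ∀ (P1 P2 : MvPolynomial (Option (Σ k, ι k × ι k)) ℂ) (lam : ℂ)
    (M : ∀ k, Matrix (ι k) (ι k) ℂ),
  (∃ g : ∀ k, Matrix (ι k) (ι k) ℂ, (∀ k, Iso (Q k) (g k) ∧ (g k).det = 1) ∧
    MvPolynomial.eval (pt lam (fun k => M k * g k)) P1 ≠ 0) →
  (∃ g : ∀ k, Matrix (ι k) (ι k) ℂ, (∀ k, Iso (Q k) (g k) ∧ (g k).det = 1) ∧
    MvPolynomial.eval (pt lam (fun k => M k * g k)) P2 ≠ 0) →
  ∃ g : ∀ k, Matrix (ι k) (ι k) ℂ, (∀ k, Iso (Q k) (g k) ∧ (g k).det = 1) ∧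
    MvPolynomial.eval (pt lam (fun k => M k * g k)) P1 ≠ 0 ∧
    MvPolynomial.eval (pt lam (fun k => M k * g k)) P2 ≠ 0

/-- LMX: transcendence of `π`. -/
def Stmt_Lmx : Prop := ∀ (r : ℕ) (ι : Fin r → Type) [∀ k, Fintype (ι k)]
  [∀ k, DecidableEq (ι k)] [∀ k, Nonempty (ι k)] (w : Fin r → ℕ)
  (Q : ∀ k, Matrix (ι k) (ι k) ℚ), (∀ k, (Q k).transpose = Q k ∧ (Q k).det ≠ 0) →
  ∀ (Y0 : ∀ k, Matrix (ι k) (ι k) Qb) (P : MvPolynomial (Option (Σ k, ι k × ι k)) Qb),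
  (∀ g : ∀ k, Matrix (ι k) (ι k) ℂ, (∀ k, Iso (cm (Q k)) (g k) ∧ (g k).det = 1) →
    MvPolynomial.aeval (pt (2 * Real.pi * Complex.I)
      (fun k => (2 * Real.pi * Complex.I) ^ w k • (qc (Y0 k) * g k))) P = (0 : ℂ)) →
  ∀ (lam : ℂ) (g : ∀ k, Matrix (ι k) (ι k) ℂ), (∀ k, Iso (cm (Q k)) (g k) ∧ (g k).det = 1) →
    MvPolynomial.aeval (pt lam (fun k => lam ^ w k • (qc (Y0 k) * g k))) P = (0 : ℂ)

/-- GLX: conjugation. -/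
def Stmt_Glx : Prop := ∀ (r : ℕ) (ι : Fin r → Type) [∀ k, Fintype (ι k)]
  [∀ k, DecidableEq (ι k)] [∀ k, Nonempty (ι k)] (w : Fin r → ℕ)
  (N Q : ∀ k, Matrix (ι k) (ι k) ℚ) (c : Fin r → ℚ) (Y0 : ∀ k, Matrix (ι k) (ι k) Qb),
  (∀ k, (Q k).transpose = Q k ∧ (Q k).det ≠ 0 ∧ c k ≠ 0 ∧
    (qc (Y0 k)).transpose * cm (N k) * qc (Y0 k) = (c k : ℂ) • cm (Q k)) →
  ∀ τ : Qb ≃ₐ[ℚ] Qb, (∀ k, τ (Y0 k).det = (Y0 k).det) →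
  ∀ P : MvPolynomial (Option (Σ k, ι k × ι k)) Qb,
  (∀ (lam : ℂ) (g : ∀ k, Matrix (ι k) (ι k) ℂ), (∀ k, Iso (cm (Q k)) (g k) ∧ (g k).det = 1) →
    MvPolynomial.aeval (pt lam (fun k => lam ^ w k • (qc (Y0 k) * g k)))
      (MvPolynomial.map (τ : Qb →+* Qb) P) = (0 : ℂ)) →
  ∀ (lam : ℂ) (g : ∀ k, Matrix (ι k) (ι k) ℂ), (∀ k, Iso (cm (Q k)) (g k) ∧ (g k).det = 1) →
    MvPolynomial.aeval (pt lam (fun k => lam ^ w k • (qc (Y0 k) * g k))) P = (0 : ℂ)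

/-- YZX: algebraic points of the torsor. -/
def Stmt_Yzx : Prop := ∀ (ι : Type) [Fintype ι] [DecidableEq ι] [Nonempty ι] (w : ℕ)
  (N Q : Matrix ι ι ℚ) (c : ℚ) (M : Matrix ι ι ℂ), N.transpose = N → N.det ≠ 0 →
  Q.transpose = Q → Q.det ≠ 0 → c ≠ 0 → M.transpose * cm N * M =
    ((2 * Real.pi * Complex.I) ^ (2 * w) * (c : ℂ)) • cm Q →
  ∃ (Y0 : Matrix ι ι Qb) (g : Matrix ι ι ℂ),
    (qc Y0).transpose * cm N * qc Y0 = (c : ℂ) • cm Q ∧ Iso (cm Q) g ∧ g.det = 1 ∧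
    M = (2 * Real.pi * Complex.I) ^ w • (qc Y0 * g) ∧ ((Y0.det : Qb) ^ 2 : Qb) ∈
      (⊥ : Subalgebra ℚ Qb)

/-- NFO: from relations with coefficients in a number field to relations with rational
coefficients. -/
def Stmt_Nfo : Prop := ∀ (r : ℕ) (ι : Fin r → Type) [∀ k, Fintype (ι k)]
  [∀ k, DecidableEq (ι k)] [∀ k, Nonempty (ι k)] (w : Fin r → ℕ) (D : ℕ), ∃ D' : ℕ,
  ∀ (N Q : ∀ k, Matrix (ι k) (ι k) ℚ) (c : Fin r → ℚ) (M : ∀ k, Matrix (ι k) (ι k) ℂ),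
  (∀ k, (N k).transpose = N k ∧ (N k).det ≠ 0 ∧ (Q k).transpose = Q k ∧ (Q k).det ≠ 0 ∧
    c k ≠ 0 ∧ (M k).transpose * cm (N k) * M k =
      ((2 * Real.pi * Complex.I) ^ (2 * w k) * (c k : ℂ)) • cm (Q k)) →
  ∀ L : IntermediateField ℚ ℂ, FiniteDimensional ℚ L → Module.finrank ℚ L ≤ D →
  ∀ P : MvPolynomial (Option (Σ k, ι k × ι k)) L, P.totalDegree ≤ D →
  MvPolynomial.aeval (pt (2 * Real.pi * Complex.I) M) P = (0 : ℂ) →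
  (∃ (mu : ℂ) (g : ∀ k, Matrix (ι k) (ι k) ℂ), mu ≠ 0 ∧ (∀ k, OSim (2 * w k) (Q k) mu (g k)) ∧
    MvPolynomial.aeval (pt (mu * (2 * Real.pi * Complex.I)) (fun k => M k * g k)) P ≠
      (0 : ℂ)) →
  ∃ R : MvPolynomial (Option (Σ k, ι k × ι k)) ℚ, R.totalDegree ≤ D' ∧
    MvPolynomial.aeval (pt (2 * Real.pi * Complex.I) M) R = (0 : ℂ) ∧
    ∃ g : ∀ k, Matrix (ι k) (ι k) ℂ, (∀ k, Iso (cm (Q k)) (g k) ∧ (g k).det = 1) ∧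
      MvPolynomial.aeval (pt (2 * Real.pi * Complex.I) (fun k => M k * g k)) R ≠ (0 : ℂ)

/-- FIN: the final statement. -/
def Stmt_Fin : Prop := ∀ (nF : ℕ) (k : Fin nF → ℕ) (f : ∀ a, Fin (2 * k a + 1) → Polynomial ℚ),
  (∀ a, 1 ≤ k a) → (∀ a, Adm (f a)) →
  (∀ a b, a ≠ b → ∀ ρ : ℚ, 0 < ρ → (fun v => (ρ : ℂ) * v) '' crit (f a) ≠ crit (f b)) →
  ∀ (r : ℕ) (φ : Fin r → Fin nF) (D : ℕ), ∃ δ : ℝ, 0 < δ ∧ ∃ C n₀ : ℕ, ∀ n : ℕ, n₀ ≤ n →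
  ∃ S : Finset ℚ, S.card ≤ C ∧
    ∀ ρ : Fin r → ℚ, (∀ i j, i ≠ j → φ i = φ j → ρ i ≠ ρ j) →
    (∀ i, 0 < ρ i ∧ ρ i ∉ S ∧ ((ρ i).num : ℝ) ≤ (n : ℝ) ^ δ ∧
      ((ρ i).den : ℝ) ≤ (n : ℝ) ^ δ) →
    ∀ L : IntermediateField ℚ ℂ, FiniteDimensional ℚ L → Module.finrank ℚ L ≤ D →
    ∀ P : MvPolynomial (Option (Σ i : Fin r, Ix (f (φ i)) × Ix (f (φ i)))) L,
      P.totalDegree ≤ D →
      MvPolynomial.aeval (pt (ι := fun i => Ix (f (φ i))) (2 * Real.pi * Complex.I)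
        (fun i => per (f (φ i)) ((ρ i / n : ℚ) : ℂ))) P = (0 : ℂ) →
      ∀ (mu : ℂ) (g : ∀ i, Matrix (Ix (f (φ i))) (Ix (f (φ i))) ℂ), mu ≠ 0 →
        (∀ i, OSim (2 * k (φ i) + 2) (inter (f (φ i))) mu (g i)) →
        MvPolynomial.aeval (pt (ι := fun i => Ix (f (φ i))) (mu * (2 * Real.pi * Complex.I))
          (fun i => per (f (φ i)) ((ρ i / n : ℚ) : ℂ) * g i)) P = (0 : ℂ)

end

end Pool.Agent.EVD
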